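import Pool.Agent.Lib.MP_fadef1_lc.I.Base

section

/-! Execution of event lists on sets of wires. -/

namespace Pool.Agent.MP_fadef1_lc

/-- wires after an event -/
def upd (e : Ev) (W : ℕ → Bool) (c : ℕ) : Bool := (W c && !isSrc e c) || isDst e c

/-- wires after a list of events -/
def updL : List Ev → (ℕ → Bool) → ℕ → Bool
  | [], W => W
  | e :: es, W => updL es (upd e W)

/-- a list of legal events up to channel `B`; the first one is executed at superband `A` -/
def ExOk (Q B : ℕ) : ℕ → List Ev → (ℕ → Bool) → Prop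
  | _, [], _ => True
  | A, e :: es, W => EvOk W e ∧ e.t ≠ 0 ∧ Q + 9 ≤ e.x + 2 * A ∧ lst e ≤ B ∧
      ExOk Q B (A + 1) es (upd e W)

/-- lanes through a list of events -/
def estepL (D : Data) : List Ev → ℕ × ℕ → Option (ℕ × ℕ)
  | [], p => some p
  | e :: es, p => (estep D e p).bind (estepL D es)

/-- the wires are at distance at least two -/
def Sep (W : ℕ → Bool) : Prop := ∀ c c', W c = true → W c' = true → c < c' → c + 2 ≤ c'

variable {D : Data} {Q A B : ℕ} {es fs : List Ev} {W : ℕ → Bool} {e : Ev}

theorem upd_congr {W' : ℕ → Bool} (h : ∀ c, W c = W' c) (c : ℕ) : upd e W c = upd e W' c := by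
  have : W = W' := funext h
  rw [this]

theorem updL_congr {W' : ℕ → Bool} (h : ∀ c, W c = W' c) (c : ℕ) :
    updL es W c = updL es W' c := by
  have : W = W' := funext h
  rw [this]

theorem ExOk_congr {W' : ℕ → Bool} (h : ∀ c, W c = W' c) (hx : ExOk Q B A es W) :
    ExOk Q B A es W' := by
  have : W = W' := funext h
  rw [← this]
  exact hx

theorem updL_append (W : ℕ → Bool) : updL (es ++ fs) W = updL fs (updL es W) := by
  induction es generalizing W with
  | nil => rfl
  | cons e es ih => simp only [List.cons_append, updL]; exact ih _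

theorem ExOk_append : ExOk Q B A (es ++ fs) W ↔
    ExOk Q B A es W ∧ ExOk Q B (A + es.length) fs (updL es W) := by
  induction es generalizing W A with
  | nil => simp [ExOk, updL]
  | cons e es ih =>
    simp only [List.cons_append, ExOk, updL, List.length_cons, ih, and_assoc]
    rw [show A + 1 + es.length = A + (es.length + 1) by omega]

theorem estepL_append (p : ℕ × ℕ) :
    estepL D (es ++ fs) p = (estepL D es p).bind (estepL D fs) := by
  induction es generalizing p with
  | nil => simp [estepL]
  | cons e es ih =>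
    simp only [List.cons_append, estepL, Option.bind_assoc]
    congr 1
    funext q
    exact ih q

/-- the `i`-th event of a legal list -/
theorem ExOk_get (hx : ExOk Q B A es W) {i : ℕ} (hi : i < es.length) :
    EvOk (updL (es.take i) W) (es.getD i Ev.non) ∧ (es.getD i Ev.non).t ≠ 0 ∧
      Q + 9 ≤ (es.getD i Ev.non).x + 2 * (A + i) ∧ lst (es.getD i Ev.non) ≤ B := by
  induction es generalizing W A i with
  | nil => simp at hi
  | cons e es ih =>
    obtain ⟨h1, h2, h3, h4, h5⟩ := hx
    cases i with
    | zero => simpa [updL] using ⟨h1, h2, h3, h4⟩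
    | succ i =>
      have := ih h5 (i := i) (by simpa using hi)
      rw [show A + 1 + i = A + (i + 1) by omega] at this
      simpa [updL] using this

theorem updL_take_succ {i : ℕ} (hi : i < es.length) (W : ℕ → Bool) (c : ℕ) :
    updL (es.take (i + 1)) W c = upd (es.getD i Ev.non) (updL (es.take i) W) c := by
  rw [List.take_succ_eq_append_getElem hi, updL_append]
  simp [updL, hi]

end Pool.Agent.MP_fadef1_lc
end

section

/-! Insertions. -/

namespace Pool.Agent.MP_fadef1_lc

variable {D : Data} {Q A B n : ℕ} {R : ℕ → Prop} {keep : ℕ → Bool} {S T : ℕ → ℕ} {W : ℕ → Bool}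

/-- insert wires at `f 0, …, f (m-1)`, in this order -/
theorem ins_ex {m : ℕ} {f : ℕ → ℕ} (hf : ∀ x < m, ∀ y < m, x ≠ y → f x + 2 ≤ f y ∨ f y + 2 ≤ f x)
    (hW : ∀ c, W c = true → ∀ x < m, c + 2 ≤ f x ∨ f x + 2 ≤ c)
    (hlo : ∀ x < m, Q + 9 ≤ f x + 2 * A) (hB : ∀ x < m, f x ≤ B) :
    ExOk Q B A ((List.range m).map fun x => Ev.I (f x)) W ∧
      ∀ c, updL ((List.range m).map fun x => Ev.I (f x)) W c = true ↔
        (W c = true ∨ ∃ x < m, c = f x) := by
  induction m with
  | zero => simp [ExOk, updL]
  | succ m ih =>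
    obtain ⟨h1, h2⟩ := ih (fun x hx y hy => hf x (by omega) y (by omega))
      (fun c hc x hx => hW c hc x (by omega)) (fun x hx => hlo x (by omega))
      (fun x hx => hB x (by omega))
    rw [List.range_succ, List.map_append, List.map_singleton]
    constructor
    · rw [ExOk_append]
      refine ⟨h1, ⟨by simp [Ev.I], by simp [Ev.I], by simp [Ev.I], by simp [Ev.I],
        fun _ c hc => ?_, by simp [Ev.I]⟩, by simp [Ev.I], ?_, ?_, trivial⟩
      · simp only [Ev.I]
        rcases (h2 c).1 hc with h | ⟨x, hx, rfl⟩
        · exact hW c h m (by omega)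
        · exact hf x (by omega) m (by omega) (by omega)
      · have := hlo m (by omega)
        simp only [Ev.I]
        omega
      · simpa [lst, Ev.I] using hB m (by omega)
    · intro c
      rw [updL_append]
      have e1 : updL [Ev.I (f m)] (updL ((List.range m).map fun x => Ev.I (f x)) W) c = true ↔
          updL ((List.range m).map fun x => Ev.I (f x)) W c = true ∨ c = f m := by
        generalize updL ((List.range m).map fun x => Ev.I (f x)) W = V
        have e2 : updL [Ev.I (f m)] V c = upd (Ev.I (f m)) V c := rfl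
        rw [e2]
        by_cases hc : c = f m
        · subst hc; simp [upd, isSrc, isDst, Ev.I]
        · simp [upd, isSrc, isDst, Ev.I, hc]
      rw [e1, h2]
      constructor
      · rintro ((h | ⟨x, hx, h⟩) | h)
        · exact Or.inl h
        · exact Or.inr ⟨x, by omega, h⟩
        · exact Or.inr ⟨m, by omega, h⟩
      · rintro (h | ⟨x, hx, h⟩)
        · exact Or.inl (Or.inl h)
        · by_cases hxm : x = m
          · subst hxm; exact Or.inr h
          · exact Or.inl (Or.inr ⟨x, by omega, h⟩)

theorem ins_rest {m : ℕ} {f : ℕ → ℕ} (c : ℕ) :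
    ∀ e ∈ (List.range m).map fun x => Ev.I (f x), isSrc e c = false := by
  intro e he
  simp only [List.mem_map, List.mem_range] at he
  obtain ⟨x, _, rfl⟩ := he
  simp [isSrc, Ev.I]

end Pool.Agent.MP_fadef1_lc
end

section

/-! Moving several wires to the right, the rightmost one first. -/

namespace Pool.Agent.MP_fadef1_lc

/-- move the wires `S j` (`j < n`, `keep j`) to `T j`, remove the others -/
def mmEvs (keep : ℕ → Bool) (S T : ℕ → ℕ) (n : ℕ) : List Ev :=
  (List.range n).reverse.flatMap fun j => if keep j then move (S j) (T j) else [Ev.X (S j)]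

/-- hypotheses: `R` are the other wires, `B` bounds all channels -/
structure MM (Q A B : ℕ) (R : ℕ → Prop) (keep : ℕ → Bool) (S T : ℕ → ℕ) (n : ℕ) : Prop where
  hS : ∀ i j, i < j → j < n → S i + 2 ≤ S j
  hT : ∀ i j, i < j → j < n → keep i = true → keep j = true → T i + 2 ≤ T j
  hst : ∀ j < n, keep j = true → S j + 16 ≤ T j
  hR : ∀ c, R c → ∀ j < n, c ≠ S j ∧ (keep j = true → c + 2 ≤ S j ∨ T j + 2 ≤ c)
  hlo : ∀ j < n, Q + 9 ≤ S j + 2 * A
  hB : ∀ j < n, S j ≤ B ∧ (keep j = true → T j ≤ B)

variable {D : Data} {Q A B n : ℕ} {R : ℕ → Prop} {keep : ℕ → Bool} {S T : ℕ → ℕ} {W : ℕ → Bool}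

/-- one move -/
theorem move_ex {c c' : ℕ} (hc : W c = true) (hcc : c + 16 ≤ c')
    (hW : ∀ d, W d = true → d ≠ c → d + 2 ≤ c ∨ c' + 2 ≤ d)
    (hlo : Q + 9 ≤ c + 2 * A) (hB : c' ≤ B) :
    ExOk Q B A (move c c') W ∧
      ∀ d, updL (move c c') W d = true ↔ (W d = true ∧ d ≠ c) ∨ d = c' := by
  have hu : ∀ d, upd (Ev.A c) W d = true ↔ (W d = true ∧ d ≠ c) ∨ d = c + 14 := by
    intro d
    by_cases h1 : d = c
    · subst h1; simp [upd, isSrc, isDst, Ev.A]
    · by_cases h2 : d = c + 14
      · subst h2; simp [upd, isSrc, isDst, Ev.A]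
      · simp [upd, isSrc, isDst, Ev.A, h1, h2]
  refine ⟨⟨?_, by simp [Ev.A], by simpa [Ev.A] using hlo, by simp [lst, Ev.A]; omega,
    ?_, by simp [Ev.R], by simp [Ev.R]; omega, by simp [lst, Ev.R]; omega, trivial⟩, ?_⟩
  · refine ⟨by simp [Ev.A], by simp [Ev.A], by simp [Ev.A], fun _ => ⟨hc, fun d hd hd' => ?_⟩,
      by simp [Ev.A], by simp [Ev.A]⟩
    have := hW d hd hd'
    simp only [Ev.A]
    omega
  · refine ⟨by simp [Ev.R], fun _ => ⟨?_, ?_, fun d hd hd' => ?_⟩, by simp [Ev.R], by simp [Ev.R],
      by simp [Ev.R], by simp [Ev.R]⟩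
    · rw [hu]; right; simp [Ev.R]
    · simp only [Ev.R]; omega
    · simp only [Ev.R] at hd' ⊢
      rw [hu] at hd
      rcases hd with hd | hd
      · have := hW d hd.1 hd.2
        omega
      · exact absurd hd hd'
  · intro d
    have h1 : updL (move c c') W d = upd (Ev.R (c + 14) c') (upd (Ev.A c) W) d := rfl
    have h2 : upd (Ev.R (c + 14) c') (upd (Ev.A c) W) d = true ↔
        (upd (Ev.A c) W d = true ∧ d ≠ c + 14) ∨ d = c' := by
      generalize upd (Ev.A c) W = V
      by_cases h1 : d = c + 14
      · subst h1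
        by_cases h2 : c + 14 = c'
        · subst h2; simp [upd, isSrc, isDst, Ev.R]
        · simp [upd, isSrc, isDst, Ev.R, h2]
      · by_cases h2 : d = c'
        · subst h2; simp [upd, isSrc, isDst, Ev.R]
        · simp [upd, isSrc, isDst, Ev.R, h1, h2]
    rw [h1, h2, hu]
    constructor
    · rintro (⟨h | h, h'⟩ | h)
      · exact Or.inl h
      · exact absurd h h'
      · exact Or.inr h
    · rintro (h | h)
      · left
        refine ⟨Or.inl h, ?_⟩
        have := hW d h.1 h.2
        omega
      · exact Or.inr h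

theorem move_lane (hm : (D.mort && D.al) = true) (c c' z : ℕ) :
    estepL D (move c c') (c, z) = some (c', z) := by
  have h1 : estep D (Ev.A c) (c, z) = some (c + 14, z) := by
    simp [estep, Ev.A, hm]
  have h2 : estep D (Ev.R (c + 14) c') (c + 14, z) = some (c', z) := by
    simp [estep, Ev.R]
  simp [move, estepL, h1, h2]

theorem move_dead (hm : (D.mort && D.al) = false) (c c' z : ℕ) :
    estepL D (move c c') (c, z) = none := by
  have h1 : estep D (Ev.A c) (c, z) = none := by
    simp [estep, Ev.A, hm]
  simp [move, estepL, h1]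

end Pool.Agent.MP_fadef1_lc
end

section

/-! Execution of event lists: separation, bounds, untouched wires. -/

namespace Pool.Agent.MP_fadef1_lc

variable {D : Data} {Q A B : ℕ} {es fs : List Ev} {W : ℕ → Bool} {e : Ev}

private theorem Ex_upd_iff (c : ℕ) : upd e W c = true ↔
    (W c = true ∧ isSrc e c = false) ∨ isDst e c = true := by
  unfold upd
  cases W c <;> cases isSrc e c <;> cases isDst e c <;> simp

theorem Sep_upd (hs : Sep W) (he : EvOk W e) : Sep (upd e W) := by
  intro c c' hc hc' hlt
  rw [Ex_upd_iff] at hc hc'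
  obtain ⟨ht, h1, h2, h3, h4, h5⟩ := he
  have hcase : e.t = 0 ∨ e.t = 1 ∨ e.t = 2 ∨ e.t = 3 ∨ e.t = 4 ∨ e.t = 5 := by omega
  have hss := hs c c'
  rcases hcase with h | h | h | h | h | h
  · simp only [isSrc, isDst, h] at hc hc'
    simp at hc hc'
    exact hss hc hc' hlt
  · obtain ⟨a1, a2, a3⟩ := h1 h
    simp only [isSrc, isDst, h] at hc hc'
    simp at hc hc'
    have b1 := a3 c
    have b2 := a3 c'
    rcases hc with hc | hc <;> rcases hc' with hc' | hc'
    · exact hss hc.1 hc'.1 hlt
    · have := b1 hc.1 hc.2; omega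
    · have := b2 hc'.1 hc'.2; omega
    · omega
  · obtain ⟨a0, a1, a2, a3⟩ := h2 h
    simp only [isSrc, isDst, h] at hc hc'
    simp at hc hc'
    have b1 := a3 c
    have b2 := a3 c'
    rcases hc with hc | hc <;> rcases hc' with hc' | hc'
    · exact hss hc.1 hc'.1 hlt
    · have := b1 hc.1 hc.2.1 hc.2.2; omega
    · have := b2 hc'.1 hc'.2.1 hc'.2.2; omega
    · omega
  · obtain ⟨a1, a3⟩ := h3 h
    simp only [isSrc, isDst, h] at hc hc'
    simp at hc hc'
    have b1 := a3 c
    have b2 := a3 c'
    rcases hc with hc | hc <;> rcases hc' with hc' | hc'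
    · exact hss hc.1 hc'.1 hlt
    · have := b1 hc.1 hc.2; omega
    · have := b2 hc'.1 hc'.2; omega
    · omega
  · have a3 := h4 h
    simp only [isSrc, isDst, h] at hc hc'
    simp at hc hc'
    have b1 := a3 c
    have b2 := a3 c'
    rcases hc with hc | hc <;> rcases hc' with hc' | hc'
    · exact hss hc hc' hlt
    · have := b1 hc; omega
    · have := b2 hc'; omega
    · omega
  · have a3 := h5 h
    simp only [isSrc, isDst, h] at hc hc'
    simp at hc hc'
    exact hss hc.1 hc'.1 hlt

theorem Sep_updL (hs : Sep W) (hx : ExOk Q B A es W) (i : ℕ) : Sep (updL (es.take i) W) := by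
  induction es generalizing W A i with
  | nil => simpa [updL] using hs
  | cons e es ih =>
    cases i with
    | zero => simpa [updL] using hs
    | succ i =>
      obtain ⟨h1, h2, h3, h4, h5⟩ := hx
      simpa [updL] using ih (Sep_upd hs h1) h5 i

private theorem Ex_dst (he : EvOk W e) {c : ℕ} (h : isDst e c = true) : e.x ≤ c ∧ c ≤ lst e := by
  obtain ⟨ht, h1, h2, h3, h4, h5⟩ := he
  have hcase : e.t = 0 ∨ e.t = 1 ∨ e.t = 2 ∨ e.t = 3 ∨ e.t = 4 ∨ e.t = 5 := by omega
  rcases hcase with h' | h' | h' | h' | h' | h'
  · simp [isDst, h'] at h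
  · have := (h1 h').2.1
    simp [isDst, h'] at h
    simp [lst, h']; omega
  · simp [isDst, h'] at h
    simp [lst, h']; omega
  · simp [isDst, h'] at h
    simp [lst, h']; omega
  · simp [isDst, h'] at h
    simp [lst, h']; omega
  · simp [isDst, h'] at h

/-- wires during the execution: old ones or between the bounds -/
theorem updL_bounds (hx : ExOk Q B A es W) {i c : ℕ} (hi : i ≤ es.length)
    (h : updL (es.take i) W c = true) :
    W c = true ∨ (Q + 9 ≤ c + 2 * (A + i) ∧ c ≤ B) := by
  induction es generalizing W A i with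
  | nil => left; simpa [updL] using h
  | cons e es ih =>
    cases i with
    | zero => left; simpa [updL] using h
    | succ i =>
      obtain ⟨h1, h2, h3, h4, h5⟩ := hx
      simp only [List.take_succ_cons, updL] at h
      rcases ih h5 (by simpa using hi) h with h' | h'
      · rw [Ex_upd_iff] at h'
        rcases h' with h' | h'
        · exact Or.inl h'.1
        · have := Ex_dst h1 h'
          right; omega
      · right; omega

/-- a lane stays on a wire -/
theorem estep_wire (hD : D.Ok) (he : EvOk W e) {c z c' z' : ℕ} (hc : W c = true) (hz : z < D.w)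
    (h : estep D e (c, z) = some (c', z')) : upd e W c' = true ∧ z' < D.w := by
  rw [Ex_upd_iff]
  obtain ⟨ht, h1, h2, h3, h4, h5⟩ := he
  have hcase : e.t = 0 ∨ e.t = 1 ∨ e.t = 2 ∨ e.t = 3 ∨ e.t = 4 ∨ e.t = 5 := by omega
  rcases hcase with h' | h' | h' | h' | h' | h'
  · simp [estep, h'] at h
    obtain ⟨rfl, rfl⟩ := h
    simp [isSrc, isDst, h', hc, hz]
  · simp only [estep, h'] at h
    simp only [isSrc, isDst, h']
    by_cases hcx : c = e.x
    · simp [hcx] at h
      obtain ⟨rfl, rfl⟩ := h
      simp [hz]
    · simp [hcx] at h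
      obtain ⟨rfl, rfl⟩ := h
      simp [hz, hc, hcx]
  · obtain ⟨a0, a1, a2, a3⟩ := h2 h'
    simp only [estep, h'] at h
    simp only [isSrc, isDst, h']
    by_cases hcx : c = e.x
    · simp [hcx] at h
      obtain ⟨hm, s, hs, rfl⟩ := h
      obtain ⟨b1, b2⟩ := hD.2 _ _ _ _ _ a0 (by omega) hz hs
      refine ⟨Or.inr ?_, b2⟩
      simp
      omega
    · by_cases hcx2 : c = e.x + 2
      · simp [hcx2] at h
        obtain ⟨hm, s, hs, rfl⟩ := h
        obtain ⟨b1, b2⟩ := hD.2 _ _ _ _ _ a0 (by omega) hz hs
        refine ⟨Or.inr ?_, b2⟩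
        simp
        omega
      · simp [hcx, hcx2] at h
        obtain ⟨rfl, rfl⟩ := h
        simp [hz, hc, hcx, hcx2]
  · simp only [estep, h'] at h
    simp only [isSrc, isDst, h']
    by_cases hcx : c = e.x
    · simp [hcx] at h
      obtain ⟨_, rfl, rfl⟩ := h
      simp [hz]
    · simp [hcx] at h
      obtain ⟨rfl, rfl⟩ := h
      simp [hz, hc, hcx]
  · simp [estep, h'] at h
    obtain ⟨rfl, rfl⟩ := h
    simp [isSrc, isDst, h', hc, hz]
  · simp only [estep, h'] at h
    simp only [isSrc, isDst, h']
    by_cases hcx : c = e.x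
    · simp [hcx] at h
    · simp [hcx] at h
      obtain ⟨rfl, rfl⟩ := h
      simp [hz, hc, hcx]

/-- an untouched wire -/
theorem estep_rest {c : ℕ} (h : isSrc e c = false) (z : ℕ) :
    estep D e (c, z) = some (c, z) := by
  unfold isSrc at h
  unfold estep
  split_ifs at h ⊢ <;> simp_all

theorem upd_rest {c : ℕ} (h : isSrc e c = false) (hc : W c = true) : upd e W c = true := by
  rw [Ex_upd_iff]; exact Or.inl ⟨hc, h⟩

theorem estepL_rest {c : ℕ} (h : ∀ e ∈ es, isSrc e c = false) (z : ℕ) :
    estepL D es (c, z) = some (c, z) := by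
  induction es with
  | nil => rfl
  | cons e es ih =>
    simp only [estepL]
    rw [estep_rest (h e (by simp)), Option.bind_some]
    exact ih fun e' he' => h e' (by simp [he'])

theorem updL_rest {c : ℕ} (h : ∀ e ∈ es, isSrc e c = false) (hc : W c = true) (i : ℕ) :
    updL (es.take i) W c = true := by
  induction es generalizing W i with
  | nil => simpa [updL] using hc
  | cons e es ih =>
    cases i with
    | zero => simpa [updL] using hc
    | succ i =>
      simp only [List.take_succ_cons, updL]
      exact ih (fun e' he' => h e' (by simp [he'])) (upd_rest (h e (by simp)) hc) i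

end Pool.Agent.MP_fadef1_lc
end

section

/-! Several moves: lanes. -/

namespace Pool.Agent.MP_fadef1_lc

variable {D : Data} {Q A B n : ℕ} {R : ℕ → Prop} {keep : ℕ → Bool} {S T : ℕ → ℕ} {W : ℕ → Bool}

private theorem MMc_succ : mmEvs keep S T (n + 1) =
    (if keep n then move (S n) (T n) else [Ev.X (S n)]) ++ mmEvs keep S T n := by
  simp [mmEvs, List.range_succ]

private theorem MMc_src {c x y : ℕ} (h1 : c ≠ x) (h2 : c ≠ x + 14) :
    ∀ e ∈ move x y, isSrc e c = false := by
  intro e he
  simp only [move, List.mem_cons, List.not_mem_nil, or_false] at he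
  rcases he with rfl | rfl
  · simp [isSrc, Ev.A, h1]
  · simp [isSrc, Ev.R, h2]

private theorem MMc_srcX {c x : ℕ} (h1 : c ≠ x) :
    ∀ e ∈ [Ev.X x], isSrc e c = false := by
  intro e he
  simp only [List.mem_cons, List.not_mem_nil, or_false] at he
  subst he
  simp [isSrc, Ev.X, h1]

/-- other wires are not touched -/
theorem mm_rest (h : MM Q A B R keep S T n) {c : ℕ} (hc : R c) :
    ∀ e ∈ mmEvs keep S T n, isSrc e c = false := by
  intro e he
  simp only [mmEvs, List.mem_flatMap, List.mem_reverse, List.mem_range] at he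
  obtain ⟨j, hj, he⟩ := he
  obtain ⟨h1, h2⟩ := h.hR c hc j hj
  split_ifs at he with hk
  · refine MMc_src h1 ?_ e he
    have := h2 hk
    have := h.hst j hj hk
    omega
  · exact MMc_srcX h1 e he

private theorem MMc_step (h : MM Q A B R keep S T (n + 1)) : MM Q A B R keep S T n := by
  obtain ⟨hS, hT, hst, hR, hlo, hB⟩ := h
  exact ⟨fun i j hij hj => hS i j hij (by omega),
          fun i j hij hj => hT i j hij (by omega), fun j hj => hst j (by omega),
          fun c hc j hj => hR c hc j (by omega), fun j hj => hlo j (by omega),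
          fun j hj => hB j (by omega)⟩

private theorem MMc_stepT (h : MM Q A B R keep S T (n + 1)) (hk : keep n = true) :
    MM Q A B (fun c => c = T n) keep S T n := by
  obtain ⟨hS, hT, hst, hR, hlo, hB⟩ := h
  refine ⟨fun i j hij hj => hS i j hij (by omega),
          fun i j hij hj => hT i j hij (by omega), fun j hj => hst j (by omega),
          fun c hc j hj => ?_, fun j hj => hlo j (by omega),
          fun j hj => hB j (by omega)⟩
  subst hc
  have e1 := hS j n hj (by omega)
  have e2 := hst n (by omega) hk
  exact ⟨by omega, fun hkj => Or.inr (hT j n hj (by omega) hkj hk)⟩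

theorem mm_lane (hm : (D.mort && D.al) = true) (h : MM Q A B R keep S T n) {j z : ℕ}
    (hj : j < n) : estepL D (mmEvs keep S T n) (S j, z) =
      if keep j then some (T j, z) else none := by
  induction n with
  | zero => omega
  | succ n ih =>
    rw [MMc_succ, estepL_append]
    by_cases hjn : j = n
    · subst hjn
      by_cases hk : keep j = true
      · simp only [hk, if_true]
        rw [move_lane hm, Option.bind_some]
        exact estepL_rest (mm_rest (MMc_stepT h hk) rfl) z
      · have hk' : keep j = false := by simpa using hk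
        simp only [hk', Bool.false_eq_true, if_false]
        simp [estepL, estep, Ev.X]
    · have hlt : j < n := by omega
      have e1 := h.hS j n hlt (by omega)
      have e2 : estepL D (if keep n then move (S n) (T n) else [Ev.X (S n)]) (S j, z) =
          some (S j, z) := by
        apply estepL_rest
        split_ifs with hk
        · exact MMc_src (by omega) (by omega)
        · exact MMc_srcX (by omega)
      rw [e2, Option.bind_some]
      exact ih (MMc_step h) hlt

theorem mm_dead (hm : (D.mort && D.al) = false) (h : MM Q A B R keep S T n) {j z : ℕ}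
    (hj : j < n) : estepL D (mmEvs keep S T n) (S j, z) = none := by
  induction n with
  | zero => omega
  | succ n ih =>
    rw [MMc_succ, estepL_append]
    by_cases hjn : j = n
    · subst hjn
      by_cases hk : keep j = true
      · simp only [hk, if_true]
        rw [move_dead hm, Option.bind_none]
      · have hk' : keep j = false := by simpa using hk
        simp only [hk', Bool.false_eq_true, if_false]
        simp [estepL, estep, Ev.X]
    · have hlt : j < n := by omega
      have e1 := h.hS j n hlt (by omega)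
      have e2 : estepL D (if keep n then move (S n) (T n) else [Ev.X (S n)]) (S j, z) =
          some (S j, z) := by
        apply estepL_rest
        split_ifs with hk
        · exact MMc_src (by omega) (by omega)
        · exact MMc_srcX (by omega)
      rw [e2, Option.bind_some]
      exact ih (MMc_step h) hlt

end Pool.Agent.MP_fadef1_lc
end
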