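import Pool.Agent.Lib.MP_fadef1_lc.Circ
import Pool.Agent.Lib.MP_fadef1_lc.Mg.G001

section

/-! Wires before and inside the strips. -/

namespace Pool.Agent.MP_fadef1_lc

namespace Par

/-- wires before the entries and exits of strip `t` (`t ≤ 85`) -/
def pre (P : Par) (b : Bool) (t c : ℕ) : Prop :=
  if b then
    (t ≤ 42 ∧ ∃ k < P.N, c = P.ex 42 k) ∨ (t ≤ 43 ∧ c = P.ex 43 0) ∨
    (∃ d < 4, 30 - 9 * d < t ∧ t ≤ 36 - 9 * d ∧ ∃ k < P.N, c = P.en (30 - 9 * d) k) ∨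
    (∃ d < 4, 36 - 9 * d < t ∧ t ≤ 79 - 9 * d ∧ ∃ k < P.N, c = P.ex (79 - 9 * d) k) ∨
    (∃ d < 4, 36 - 9 * d < t ∧ t ≤ 73 - 9 * d ∧ ∃ k < P.N, c = P.ex (73 - 9 * d) k) ∨
    (39 < t ∧ t ≤ 82 ∧ ∃ k < P.N, c = P.ex 82 k) ∨ (42 < t ∧ ∃ k < P.N, c = P.en 42 k)
  else
    ((t ≤ 41 ∨ (44 ≤ t ∧ t ≤ 84)) ∧ ∃ k < P.N, c = P.ex t k) ∨
      (84 < t ∧ ∃ k < P.N, c = P.en 42 k)

/-- wires after the entries and exits of strip `t` -/
def mid (P : Par) (b : Bool) (t c : ℕ) : Prop :=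
  (P.pre b t c ∧ ∀ k < P.N, c ≠ P.ex t k) ∨ (entStrip b t = true ∧ ∃ k < P.N, c = P.en t k)

end Par

variable {P : Par} {b : Bool} {t c : ℕ}

/-- numerical form of the hypotheses; `m = circuit length` -/
theorem Ok_bounds (hP : P.Ok) : 1 ≤ P.N ∧ 2 * P.N ≤ P.M ∧ P.N + 20 + 2 * (3 * P.M + 3) ≤ P.Hs ∧
    P.H0 + 86 * P.Hs + 2 * (20 * P.M + 30) + 100 ≤ P.QQ := by
  have h1 := hP.hHs P.cE (by simp)
  have h2 := hP.hQQ P.cE (by simp)
  have h3 : 2 * (3 * P.M + 3) ≤ (P.cE.length + 2) * (3 * P.M + 3) :=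
    Nat.mul_le_mul_right _ (by omega)
  have h4 : 2 * (20 * P.M + 30) ≤ (P.cE.length + 2) * (20 * P.M + 30) :=
    Nat.mul_le_mul_right _ (by omega)
  exact ⟨hP.hN, hP.hM, le_trans (Nat.add_le_add_left h3 _) h1,
    le_trans (Nat.add_le_add_right (Nat.add_le_add_left h4 _) _) h2⟩

private theorem layOk_inv {M : ℕ} {l : Layer} (h : layOk M l) : layOk M l.inv := by
  unfold layOk at h ⊢
  unfold Layer.inv
  rcases h with ⟨h0, ha, hb⟩ | ⟨h1 | h1, hb⟩
  · left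
    rw [if_pos h0]
    refine ⟨rfl, ?_, hb⟩
    change (if l.a % 2 = 0 then l.a + 1 else l.a - 1) < 4
    split_ifs <;> omega
  · right
    rw [if_neg (by omega), if_pos h1]
    exact ⟨Or.inr rfl, hb⟩
  · right
    rw [if_neg (by omega), if_neg (by omega), if_pos h1]
    exact ⟨Or.inl rfl, hb⟩

private theorem cinv_length (L : List Layer) : (cinv L).length = L.length := by
  unfold cinv
  rw [List.length_reverse, List.length_map]

private theorem cinv_ok {M : ℕ} {L : List Layer} (h : ∀ l ∈ L, layOk M l) :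
    ∀ l ∈ cinv L, layOk M l := by
  intro l hl
  unfold cinv at hl
  rw [List.mem_reverse, List.mem_map] at hl
  obtain ⟨l', hl', rfl⟩ := hl
  exact layOk_inv (h l' hl')

private theorem circ_bounds_cX (hP : P.Ok) {L : List Layer} (hL : L ∈ [P.cE, P.cX, P.cY]) :
    (∀ l ∈ L, layOk P.M l) ∧ P.N + 20 + (L.length + 2) * (3 * P.M + 3) ≤ P.Hs ∧
      P.H0 + 86 * P.Hs + (L.length + 2) * (20 * P.M + 30) + 100 ≤ P.QQ :=
  ⟨hP.hL L hL, hP.hHs L hL, hP.hQQ L hL⟩

/-- the circuits have the legal layers and are short -/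
theorem circ_bounds (hP : P.Ok) {L : List Layer} (hL : L = P.cE ∨ ∃ d, L = P.circ d) :
    (∀ l ∈ L, layOk P.M l) ∧ P.N + 20 + (L.length + 2) * (3 * P.M + 3) ≤ P.Hs ∧
      P.H0 + 86 * P.Hs + (L.length + 2) * (20 * P.M + 30) + 100 ≤ P.QQ := by
  have hE := circ_bounds_cX hP (L := P.cE) (by simp)
  have hX := circ_bounds_cX hP (L := P.cX) (by simp)
  have hY := circ_bounds_cX hP (L := P.cY) (by simp)
  have hi : ∀ L : List Layer, ((∀ l ∈ L, layOk P.M l) ∧
      P.N + 20 + (L.length + 2) * (3 * P.M + 3) ≤ P.Hs ∧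
      P.H0 + 86 * P.Hs + (L.length + 2) * (20 * P.M + 30) + 100 ≤ P.QQ) →
      ((∀ l ∈ cinv L, layOk P.M l) ∧
      P.N + 20 + ((cinv L).length + 2) * (3 * P.M + 3) ≤ P.Hs ∧
      P.H0 + 86 * P.Hs + ((cinv L).length + 2) * (20 * P.M + 30) + 100 ≤ P.QQ) := by
    intro L h
    rw [cinv_length]
    exact ⟨cinv_ok h.1, h.2⟩
  rcases hL with rfl | ⟨d, rfl⟩
  · exact hE
  · unfold Par.circ
    split_ifs
    · exact hX
    · exact hi _ hX
    · exact hY
    · exact hi _ hY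

end Pool.Agent.MP_fadef1_lc
end

section

/-! Parity and bounds of the wires. -/

namespace Pool.Agent.MP_fadef1_lc

variable {P : Par} {b : Bool} {t c : ℕ}

private theorem pre_base (hP : P.Ok) {s : ℕ} (hs : s ≤ 85) : P.base s + P.N + 1 ≤ P.QQ := by
  obtain ⟨h1, h2, h3, h4⟩ := Ok_bounds hP
  have h5 : s * P.Hs ≤ 85 * P.Hs := Nat.mul_le_mul_right _ hs
  have h6 : P.base s = P.H0 + s * P.Hs := rfl
  omega

private theorem pre_base_lt (hP : P.Ok) {s t : ℕ} (hs : s < t) :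
    P.base s + P.N + 20 ≤ P.base t := by
  obtain ⟨h1, h2, h3, h4⟩ := Ok_bounds hP
  have h5 : (s + 1) * P.Hs ≤ t * P.Hs := Nat.mul_le_mul_right _ hs
  have h6 : P.base s = P.H0 + s * P.Hs := rfl
  have h7 : P.base t = P.H0 + t * P.Hs := rfl
  rw [Nat.succ_mul] at h5
  omega

private theorem pre_base_le (P : Par) {s t : ℕ} (hs : s ≤ t) : P.base s ≤ P.base t := by
  have h5 : s * P.Hs ≤ t * P.Hs := Nat.mul_le_mul_right _ hs
  have h6 : P.base s = P.H0 + s * P.Hs := rfl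
  have h7 : P.base t = P.H0 + t * P.Hs := rfl
  omega

private theorem pre_ex (hP : P.Ok) {s k : ℕ} (hs : s ≤ 85) (hk : k < P.N) :
    P.ex s k + 2 * P.base s + 2 * k + 1 = 2 * P.Q := by
  have h1 := pre_base hP hs
  have h2 : P.ex s k = 2 * P.Q - 1 - 2 * (P.base s + k) := rfl
  have h3 : P.Q = 2 * P.QQ := rfl
  omega

private theorem pre_en (hP : P.Ok) {s k : ℕ} (hs : s ≤ 85) (hk : k < P.N) :
    P.en s k + 2 * P.base s + 2 * k + 1 = P.Q := by
  have h1 := pre_base hP hs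
  have h2 : P.en s k = P.Q - 1 - 2 * (P.base s + k) := rfl
  have h3 : P.Q = 2 * P.QQ := rfl
  omega

/-- the wires of `pre` -/
private theorem pre_cases (hP : P.Ok) (ht : t ≤ 85) (h : P.pre b t c) :
    (∃ s k, t ≤ s ∧ s ≤ 85 ∧ k < P.N ∧ c = P.ex s k) ∨
    (∃ s k, s < t ∧ k < P.N ∧ c = P.en s k) := by
  obtain ⟨h1, -, -, -⟩ := Ok_bounds hP
  cases b with
  | true =>
    simp only [Par.pre, if_true] at h
    rcases h with ⟨h, k, hk, e⟩ | ⟨h, e⟩ | ⟨d, hd, h, h', k, hk, e⟩ | ⟨d, hd, h, h', k, hk, e⟩ |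
      ⟨d, hd, h, h', k, hk, e⟩ | ⟨h, h', k, hk, e⟩ | ⟨h, k, hk, e⟩
    · exact Or.inl ⟨42, k, h, by omega, hk, e⟩
    · exact Or.inl ⟨43, 0, h, by omega, by omega, e⟩
    · exact Or.inr ⟨30 - 9 * d, k, h, hk, e⟩
    · exact Or.inl ⟨79 - 9 * d, k, h', by omega, hk, e⟩
    · exact Or.inl ⟨73 - 9 * d, k, h', by omega, hk, e⟩
    · exact Or.inl ⟨82, k, h', by omega, hk, e⟩
    · exact Or.inr ⟨42, k, h, hk, e⟩
  | false =>
    simp only [Par.pre, Bool.false_eq_true, if_false] at h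
    rcases h with ⟨h, k, hk, e⟩ | ⟨h, k, hk, e⟩
    · exact Or.inl ⟨t, k, le_rfl, by omega, hk, e⟩
    · exact Or.inr ⟨42, k, by omega, hk, e⟩

theorem pre_odd (hP : P.Ok) (ht : t ≤ 85) (h : P.pre b t c) : c % 2 = 1 := by
  have h3 : P.Q = 2 * P.QQ := rfl
  rcases pre_cases hP ht h with ⟨s, k, h1, h2, hk, rfl⟩ | ⟨s, k, h1, hk, rfl⟩
  · have := pre_ex hP h2 hk
    omega
  · have := pre_en hP (show s ≤ 85 by omega) hk
    omega

theorem pre_lo (hP : P.Ok) (ht : t ≤ 85) (h : P.pre b t c) : P.Q + 1 ≤ c + 2 * P.base t := by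
  have h3 : P.Q = 2 * P.QQ := rfl
  rcases pre_cases hP ht h with ⟨s, k, h1, h2, hk, rfl⟩ | ⟨s, k, h1, hk, rfl⟩
  · have := pre_ex hP h2 hk
    have := pre_base hP h2
    omega
  · have := pre_en hP (show s ≤ 85 by omega) hk
    have := pre_base_lt hP h1
    omega

theorem pre_hi (hP : P.Ok) (ht : t ≤ 85) (h : P.pre b t c) : c + 2 * P.base t + 1 ≤ 2 * P.Q := by
  have h3 : P.Q = 2 * P.QQ := rfl
  rcases pre_cases hP ht h with ⟨s, k, h1, h2, hk, rfl⟩ | ⟨s, k, h1, hk, rfl⟩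
  · have := pre_ex hP h2 hk
    have := pre_base_le P h1
    omega
  · have := pre_en hP (show s ≤ 85 by omega) hk
    have := pre_base hP ht
    omega

theorem pre_hi' (hP : P.Ok) (ht : t ≤ 84) (h : P.pre b t c) (h' : ∀ k < P.N, c ≠ P.ex t k) :
    c + 2 * P.base (t + 1) + 1 ≤ 2 * P.Q := by
  have h3 : P.Q = 2 * P.QQ := rfl
  rcases pre_cases hP (show t ≤ 85 by omega) h with ⟨s, k, h1, h2, hk, rfl⟩ | ⟨s, k, h1, hk, rfl⟩
  · have hne : t ≠ s := by
      rintro rfl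
      exact h' k hk rfl
    have := pre_ex hP h2 hk
    have := pre_base_le P (show t + 1 ≤ s by omega)
    omega
  · have := pre_en hP (show s ≤ 85 by omega) hk
    have := pre_base hP (show t + 1 ≤ 85 by omega)
    omega

theorem mid_odd (hP : P.Ok) (ht : t ≤ 84) (h : P.mid b t c) : c % 2 = 1 := by
  have h3 : P.Q = 2 * P.QQ := rfl
  rcases h with ⟨h, -⟩ | ⟨-, k, hk, rfl⟩
  · exact pre_odd hP (by omega) h
  · have := pre_en hP (show t ≤ 85 by omega) hk
    omega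

theorem mid_hi (hP : P.Ok) (ht : t ≤ 84) (h : P.mid b t c) :
    c + 2 * P.base (t + 1) + 1 ≤ 2 * P.Q := by
  have h3 : P.Q = 2 * P.QQ := rfl
  rcases h with ⟨h, h'⟩ | ⟨-, k, hk, rfl⟩
  · exact pre_hi' hP ht h h'
  · have := pre_en hP (show t ≤ 85 by omega) hk
    have := pre_base hP (show t + 1 ≤ 85 by omega)
    omega

end Pool.Agent.MP_fadef1_lc
end

section

/-! The wires at all superbands. -/

namespace Pool.Agent.MP_fadef1_lc

variable {P : Par} {b : Bool} {t c A : ℕ}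

/-- the wires in strip `t` -/
structure SW (P : Par) (b : Bool) (t : ℕ) : Prop where
  a : ∀ k < P.N, ∀ c, P.W b (P.base t + k) c = true ↔
    (P.pre b t c ∧ ∀ k' < k, c ≠ P.ex t k') ∨ (entStrip b t = true ∧ ∃ k' ≤ k, c = P.en t k')
  m : ∀ k, P.N ≤ k → k ≤ P.N + 4 → ∀ c, P.W b (P.base t + k) c = true ↔ P.mid b t c
  e : ∀ i ≤ (P.strip b t).length, ∀ c, P.W b (P.base t + P.N + 4 + i) c =
    updL ((P.strip b t).take i) (P.W b (P.base t + P.N + 4)) c
  d : ∀ k, P.N + 4 + (P.strip b t).length ≤ k → k < P.Hs → ∀ c,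
    P.W b (P.base t + k) c = true ↔ P.pre b (t + 1) c
  f : ∀ c, P.W' b (P.base (t + 1) - 1) c = true ↔ P.pre b (t + 1) c

private theorem base_div {k : ℕ} (hk : k < P.Hs) : (P.base t + k - P.H0) / P.Hs = t := by
  have h : P.base t + k - P.H0 = k + P.Hs * t := by
    unfold Par.base
    rw [Nat.mul_comm t P.Hs]
    omega
  rw [h, Nat.add_mul_div_left _ _ (by omega), Nat.div_eq_of_lt hk]
  omega

private theorem base_mod {k : ℕ} (hk : k < P.Hs) : (P.base t + k - P.H0) % P.Hs = k := by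
  have h : P.base t + k - P.H0 = k + P.Hs * t := by
    unfold Par.base
    rw [Nat.mul_comm t P.Hs]
    omega
  rw [h, Nat.add_mul_mod_self_left, Nat.mod_eq_of_lt hk]

private theorem base_ge (k : ℕ) : P.H0 ≤ P.base t + k := by
  unfold Par.base
  omega

/-- the event at superband `base t + k` -/
theorem ev_strip (hP : P.Ok) {k : ℕ} (hk : k < P.Hs) : P.ev b (P.base t + k) =
    if k < P.N + 4 then Ev.non else (P.strip b t).getD (k - (P.N + 4)) Ev.non := by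
  have h0 := base_ge (P := P) (t := t) k
  have h1 : ¬ (P.base t + k < 4) := by
    have : P.H0 = 2 * P.N + 20 := rfl
    omega
  have h2 : ¬ (P.base t + k < P.H0) := by omega
  unfold Par.ev
  rw [if_neg h1, if_neg h2, base_mod hk, base_div hk]

theorem entry_strip (hP : P.Ok) {k : ℕ} (hk : k < P.Hs) :
    P.entry b (P.base t + k) = (decide (k < P.N) && entStrip b t) := by
  have h0 := base_ge (P := P) (t := t) k
  unfold Par.entry
  rw [base_mod hk, base_div hk, decide_eq_true h0, Bool.true_and]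

theorem zrow_strip (hP : P.Ok) {k : ℕ} (hk : k < P.Hs) :
    P.zrow b (P.base t + k) = (!b && decide (k < P.N) && decide (t = 42)) := by
  have h0 := base_ge (P := P) (t := t) k
  unfold Par.zrow
  rw [base_mod hk, base_div hk, decide_eq_true h0, Bool.and_true]

end Pool.Agent.MP_fadef1_lc
end
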