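import Pool.Agent.Lib.MP_fadef1_lc.Mg.G002
import Pool.Agent.Lib.MP_fadef1_lc.Mg.G004
import Pool.Agent.Lib.MP_fadef1_lc.Mg.G001

section

/-! The strips of type 0. -/

namespace Pool.Agent.MP_fadef1_lc

variable {P : Par} {D : Data} {t c : ℕ} {W : ℕ → Bool}

/-- `(List.range n).flatMap` over `k` is `mmEvs` over `j = n - 1 - k` -/
theorem flat_mm (S T : ℕ → ℕ) (n : ℕ) :
    ((List.range n).flatMap fun k => move (S k) (T k)) =
      mmEvs (fun _ => true) (fun j => S (n - 1 - j)) (fun j => T (n - 1 - j)) n := by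
  have h1 : (List.range n).reverse = (List.range n).map fun k => n - 1 - k := by
    apply List.ext_getElem
    · simp
    · intro i h1 h2
      simp
  unfold mmEvs
  rw [h1, List.flatMap_map]
  rw [List.flatMap_def, List.flatMap_def]
  congr 1
  apply List.map_congr_left
  intro k hk
  have hk' : k < n := List.mem_range.1 hk
  have h2 : n - 1 - (n - 1 - k) = k := by omega
  simp [h2]

theorem strip0_len (hP : P.Ok) (t : ℕ) : (P.strip false t).length + P.N + 12 ≤ P.Hs := by
  obtain ⟨h1, h2, h3, h4⟩ := Ok_bounds hP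
  have h5 : (P.strip false t).length ≤ 2 * P.N := by
    unfold Par.strip
    by_cases h : t ≤ 84 ∧ t ≠ 41 ∧ t ≠ 42
    · simp only [Bool.false_eq_true, if_false, h, and_self, if_true, ne_eq, not_false_eq_true]
      rw [flat_mm]
      exact mm_length
    · simp only [Bool.false_eq_true, if_false, h, List.length_nil]
      omega
  omega

theorem strip0_ex (hP : P.Ok) (ht : t ≤ 84) (hW : ∀ c, W c = true ↔ P.mid false t c) :
    ExOk P.Q (P.ex (t + 1) 0) (P.base t + P.N + 4) (P.strip false t) W ∧
      ∀ c, updL (P.strip false t) W c = true ↔ P.pre false (t + 1) c := by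
  obtain ⟨h1, h2, h3, h4⟩ := Ok_bounds hP
  have hu : t * P.Hs ≤ 84 * P.Hs := Nat.mul_le_mul_right _ ht
  have hb1 : P.base (t + 1) = P.base t + P.Hs := by unfold Par.base; ring
  have hbt : P.base t = P.H0 + t * P.Hs := rfl
  have hb42 : P.base 42 = P.H0 + 42 * P.Hs := rfl
  have hQ : P.Q = 2 * P.QQ := rfl
  by_cases h : t ≤ 84 ∧ t ≠ 41 ∧ t ≠ 42
  · have hs : P.strip false t = mmEvs (fun _ => true) (fun j => P.en t (P.N - 1 - j))
        (fun j => if t = 84 then P.en 42 (P.N - 1 - j) else P.ex (t + 1) (P.N - 1 - j)) P.N := by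
      unfold Par.strip
      simp only [Bool.false_eq_true, if_false, h, and_self, if_true, ne_eq, not_false_eq_true]
      exact flat_mm (fun k => P.en t k)
        (fun k => if t = 84 then P.en 42 k else P.ex (t + 1) k) P.N
    have hMM : MM P.Q (P.base t + P.N + 4) (P.ex (t + 1) 0) (fun _ => False) (fun _ => true)
        (fun j => P.en t (P.N - 1 - j))
        (fun j => if t = 84 then P.en 42 (P.N - 1 - j) else P.ex (t + 1) (P.N - 1 - j)) P.N := by
      refine ⟨?_, ?_, ?_, ?_, ?_, ?_⟩
      · intro i j hij hj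
        simp only [Par.en]
        omega
      · intro i j hij hj _ _
        by_cases h84 : t = 84
        · simp only [h84, if_true, Par.en]
          omega
        · simp only [h84, if_false, Par.ex, hb1]
          omega
      · intro j hj _
        by_cases h84 : t = 84
        · have h5 : P.base 84 = P.H0 + 84 * P.Hs := rfl
          simp only [h84, if_true, Par.en]
          omega
        · simp only [h84, if_false, Par.ex, Par.en, hb1]
          omega
      · intro c hc
        exact hc.elim
      · intro j hj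
        simp only [Par.en]
        omega
      · intro j hj
        refine ⟨?_, fun _ => ?_⟩
        · simp only [Par.en, Par.ex, hb1]
          omega
        · by_cases h84 : t = 84
          · have h5 : P.base (84 + 1) = P.H0 + 85 * P.Hs := rfl
            simp only [h84, if_true, Par.en, Par.ex]
            omega
          · simp only [h84, if_false, Par.ex, hb1]
            omega
    have hW' : ∀ c, W c = true ↔ ((fun _ => False) c ∨
        ∃ j < P.N, c = (fun j => P.en t (P.N - 1 - j)) j) := by
      intro c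
      rw [hW]
      have he : entStrip false t = true := by
        simp only [entStrip, Bool.false_eq_true, if_false, decide_eq_true_eq]
        exact h
      simp only [Par.mid, he, true_and, false_or]
      constructor
      · rintro (⟨h5, h6⟩ | ⟨k, hk, hc⟩)
        · exfalso
          simp only [Par.pre, Bool.false_eq_true, if_false] at h5
          rcases h5 with ⟨_, k, hk, hc⟩ | ⟨h7, _⟩
          · exact h6 k hk hc
          · omega
        · exact ⟨P.N - 1 - k, by omega, by rw [show P.N - 1 - (P.N - 1 - k) = k by omega]; exact hc⟩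
      · rintro ⟨j, hj, hc⟩
        exact Or.inr ⟨P.N - 1 - j, by omega, hc⟩
    obtain ⟨h5, h6⟩ := mm_ex hMM hW'
    rw [hs]
    refine ⟨h5, fun c => ?_⟩
    rw [h6]
    simp only [Par.pre, Bool.false_eq_true, if_false, true_and, false_or]
    by_cases h84 : t = 84
    · simp only [h84, if_true]
      constructor
      · rintro ⟨j, hj, hc⟩
        exact Or.inr ⟨by omega, P.N - 1 - j, by omega, hc⟩
      · rintro (⟨h7, _⟩ | ⟨_, k, hk, hc⟩)
        · omega
        · exact ⟨P.N - 1 - k, by omega, by
            rw [show P.N - 1 - (P.N - 1 - k) = k by omega]; exact hc⟩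
    · simp only [h84, if_false]
      constructor
      · rintro ⟨j, hj, hc⟩
        exact Or.inl ⟨by omega, P.N - 1 - j, by omega, hc⟩
      · rintro (⟨_, k, hk, hc⟩ | ⟨h7, _⟩)
        · exact ⟨P.N - 1 - k, by omega, by
            rw [show P.N - 1 - (P.N - 1 - k) = k by omega]; exact hc⟩
        · omega
  · have hs : P.strip false t = [] := by
      unfold Par.strip
      simp only [Bool.false_eq_true, if_false, h]
    rw [hs]
    refine ⟨trivial, fun c => ?_⟩
    simp only [updL]
    rw [hW]
    have ht' : t = 41 ∨ t = 42 := by omega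
    have he : entStrip false t = false := by
      rcases ht' with rfl | rfl <;> rfl
    simp only [Par.mid, he, Bool.false_eq_true, false_and, or_false]
    simp only [Par.pre, Bool.false_eq_true, if_false]
    constructor
    · rintro ⟨⟨_, k, hk, hc⟩ | ⟨h7, _⟩, h6⟩
      · exact (h6 k hk hc).elim
      · omega
    · rintro (⟨h7, _⟩ | ⟨h7, _⟩) <;> omega

end Pool.Agent.MP_fadef1_lc
end

section

/-! The top part. -/

namespace Pool.Agent.MP_fadef1_lc

variable {P : Par} {D : Data} {b : Bool} {t c : ℕ} {W : ℕ → Bool}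

/-- the events in the top part -/
theorem top_len (hP : P.Ok) (b : Bool) : (P.top b).length ≤ 2 * P.N := by
  have hN := (Ok_bounds hP).1
  cases b with
  | false =>
    unfold Par.top
    rw [if_neg (by simp), flat_mm]
    exact mm_length
  | true =>
    unfold Par.top
    rw [if_pos rfl]
    change 2 ≤ 2 * P.N
    omega

private theorem Strips_mm (hP : P.Ok) : MM P.Q 4 (P.ex 0 0) (fun _ => False) (fun _ => true)
    (fun j => P.ex 42 (P.N - 1 - j)) (fun j => P.ex 0 (P.N - 1 - j)) P.N := by
  obtain ⟨h1, h2, h3, h4⟩ := Ok_bounds hP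
  have hb : P.base 42 = P.H0 + 42 * P.Hs := rfl
  have hb0 : P.base 0 = P.H0 := by unfold Par.base; rw [zero_mul, add_zero]
  have hQ : P.Q = 2 * P.QQ := rfl
  refine ⟨?_, ?_, ?_, ?_, ?_, ?_⟩
  · intro i j hij hj
    change P.ex 42 (P.N - 1 - i) + 2 ≤ P.ex 42 (P.N - 1 - j)
    unfold Par.ex
    omega
  · intro i j hij hj _ _
    change P.ex 0 (P.N - 1 - i) + 2 ≤ P.ex 0 (P.N - 1 - j)
    unfold Par.ex
    omega
  · intro j hj _
    change P.ex 42 (P.N - 1 - j) + 16 ≤ P.ex 0 (P.N - 1 - j)
    unfold Par.ex
    omega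
  · intro c hc
    exact hc.elim
  · intro j hj
    change P.Q + 9 ≤ P.ex 42 (P.N - 1 - j) + 2 * 4
    unfold Par.ex
    omega
  · intro j hj
    constructor
    · change P.ex 42 (P.N - 1 - j) ≤ P.ex 0 0
      unfold Par.ex
      omega
    · intro _
      change P.ex 0 (P.N - 1 - j) ≤ P.ex 0 0
      unfold Par.ex
      omega

theorem top_ex (hP : P.Ok) (b : Bool) :
    ExOk P.Q (P.ex 0 0) 4 (P.top b) (P.W0 b) ∧
      ∀ c, updL (P.top b) (P.W0 b) c = true ↔ P.pre b 0 c := by
  obtain ⟨h1, h2, h3, h4⟩ := Ok_bounds hP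
  have hb : P.base 42 = P.H0 + 42 * P.Hs := rfl
  have hb3 : P.base 43 = P.H0 + 43 * P.Hs := rfl
  have hb0 : P.base 0 = P.H0 := by unfold Par.base; rw [zero_mul, add_zero]
  have hQ : P.Q = 2 * P.QQ := rfl
  have hW0 : ∀ c, (List.range P.N).any (fun k => decide (c = P.ex 42 k)) = true ↔
      ∃ k < P.N, c = P.ex 42 k := by
    intro c
    rw [List.any_eq_true]
    simp only [List.mem_range, decide_eq_true_eq]
  cases b with
  | false =>
    have hW : ∀ c, P.W0 false c = true ↔
        ((fun _ => False) c ∨ ∃ j < P.N, c = (fun j => P.ex 42 (P.N - 1 - j)) j) := by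
      intro c
      unfold Par.W0
      rw [Bool.false_and, Bool.or_false, hW0]
      constructor
      · rintro ⟨k, hk, rfl⟩
        refine Or.inr ⟨P.N - 1 - k, by omega, ?_⟩
        have : P.N - 1 - (P.N - 1 - k) = k := by omega
        change P.ex 42 k = P.ex 42 (P.N - 1 - (P.N - 1 - k))
        rw [this]
      · rintro (h | ⟨j, hj, rfl⟩)
        · exact h.elim
        · exact ⟨P.N - 1 - j, by omega, rfl⟩
    obtain ⟨e1, e2⟩ := mm_ex (Strips_mm hP) hW
    have htop : P.top false = mmEvs (fun _ => true) (fun j => P.ex 42 (P.N - 1 - j))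
        (fun j => P.ex 0 (P.N - 1 - j)) P.N := by
      unfold Par.top
      rw [if_neg (by simp), flat_mm]
    rw [htop]
    refine ⟨e1, fun c => ?_⟩
    rw [e2 c]
    unfold Par.pre
    simp only [Bool.false_eq_true, if_false]
    constructor
    · rintro (h | ⟨j, hj, -, rfl⟩)
      · exact h.elim
      · exact Or.inl ⟨Or.inl (by omega), P.N - 1 - j, by omega, rfl⟩
    · rintro (⟨-, k, hk, rfl⟩ | ⟨h, -⟩)
      · refine Or.inr ⟨P.N - 1 - k, by omega, trivial, ?_⟩
        have : P.N - 1 - (P.N - 1 - k) = k := by omega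
        change P.ex 0 k = P.ex 0 (P.N - 1 - (P.N - 1 - k))
        rw [this]
      · omega
  | true =>
    have hW : ∀ c, P.W0 true c = true ↔ (∃ k < P.N, c = P.ex 42 k) ∨ c = P.Q + 13 := by
      intro c
      unfold Par.W0
      rw [Bool.true_and, Bool.or_eq_true, hW0, decide_eq_true_eq]
    have htop : P.top true = move (P.Q + 13) (P.ex 43 0) := by
      unfold Par.top
      rw [if_pos rfl]
    rw [htop]
    obtain ⟨e1, e2⟩ := move_ex (W := P.W0 true) (Q := P.Q) (A := 4) (B := P.ex 0 0)
      (c := P.Q + 13) (c' := P.ex 43 0) ((hW _).mpr (Or.inr rfl))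
      (by unfold Par.ex; omega)
      (by
        intro d hd hdc
        rcases (hW d).mp hd with ⟨k, hk, rfl⟩ | h
        · right
          unfold Par.ex
          omega
        · exact absurd h hdc)
      (by omega) (by unfold Par.ex; omega)
    refine ⟨e1, fun c => ?_⟩
    rw [e2 c, hW]
    unfold Par.pre
    simp only [if_true]
    constructor
    · rintro (⟨⟨k, hk, rfl⟩ | h, hne⟩ | rfl)
      · exact Or.inl ⟨by omega, k, hk, rfl⟩
      · exact absurd h hne
      · exact Or.inr (Or.inl ⟨by omega, rfl⟩)
    · rintro (⟨-, k, hk, rfl⟩ | ⟨-, rfl⟩ | ⟨d, hd, h5, h6, -⟩ | ⟨d, hd, h5, h6, -⟩ |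
        ⟨d, hd, h5, h6, -⟩ | ⟨h5, h6, -⟩ | ⟨h5, -⟩)
      · left
        refine ⟨Or.inl ⟨k, hk, rfl⟩, ?_⟩
        unfold Par.ex
        omega
      · exact Or.inr rfl
      · omega
      · omega
      · omega
      · omega
      · omega

end Pool.Agent.MP_fadef1_lc
end

section

/-! The wires at all superbands: top part. -/

namespace Pool.Agent.MP_fadef1_lc

variable {P : Par} {b : Bool} {t c A : ℕ}

private theorem swb_src_non (c : ℕ) : isSrc Ev.non c = false := rfl

private theorem swb_dst_non (c : ℕ) : isDst Ev.non c = false := rfl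

private theorem swb_entry (h : A < P.H0) : P.entry b A = false := by
  have h1 : decide (P.H0 ≤ A) = false := decide_eq_false (by omega)
  simp only [Par.entry, h1, Bool.false_and]

private theorem swb_exit0 (hP : P.Ok) (h : A < P.H0) : P.W0 b (P.exitc A) = false := by
  obtain ⟨h1, h2, h3, h4⟩ := Ok_bounds hP
  have hQ : P.Q = 2 * P.QQ := rfl
  have hH : P.H0 = 2 * P.N + 20 := rfl
  have he : P.exitc A = 2 * P.Q - 1 - 2 * A := rfl
  have hb : P.base 42 = P.H0 + 42 * P.Hs := rfl
  rw [Bool.eq_false_iff]
  intro hcon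
  simp only [Par.W0, Bool.or_eq_true, List.any_eq_true, List.mem_range, decide_eq_true_eq,
    Bool.and_eq_true] at hcon
  rcases hcon with ⟨k, hk, e⟩ | ⟨-, e⟩
  · have hx : P.ex 42 k = 2 * P.Q - 1 - 2 * (P.base 42 + k) := rfl
    omega
  · omega

private theorem swb_W_succ (A c : ℕ) : P.W b (A + 1) c =
    (((P.W b A c && !decide (c = P.exitc A) && !isSrc (P.ev b A) c) || isDst (P.ev b A) c) ||
      (P.entry b (A + 1) && decide (c = P.entc (A + 1)))) := rfl

private theorem swb_first (hP : P.Ok) (b : Bool) : ∀ A ≤ 4, ∀ c, P.W b A c = P.W0 b c := by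
  intro A
  induction A with
  | zero => intro _ c; rfl
  | succ A ih =>
    intro hA c
    have hH : P.H0 = 2 * P.N + 20 := rfl
    have hev : P.ev b A = Ev.non := by
      unfold Par.ev
      rw [if_pos (by omega)]
    rw [swb_W_succ, ih (by omega) c, hev, swb_src_non, swb_dst_non,
      swb_entry (P := P) (b := b) (A := A + 1) (by omega)]
    simp only [Bool.not_false, Bool.and_true, Bool.or_false, Bool.false_and]
    by_cases hc : c = P.exitc A
    · rw [hc, swb_exit0 hP (by omega)]
      rfl
    · rw [decide_eq_false hc]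
      simp

private theorem swb_ev (i : ℕ) (h : 4 + i < P.H0) :
    P.ev b (4 + i) = (P.top b).getD i Ev.non := by
  unfold Par.ev
  rw [if_neg (by omega), if_pos h]
  congr 1
  omega

private theorem swb_exit (hP : P.Ok) (b : Bool) (i : ℕ) (h : 4 + i < P.H0) :
    updL ((P.top b).take i) (P.W0 b) (P.exitc (4 + i)) = false := by
  obtain ⟨h1, h2, h3, h4⟩ := Ok_bounds hP
  obtain ⟨hx, -⟩ := top_ex hP b
  rw [Bool.eq_false_iff]
  intro hcon
  obtain ⟨j, hj, hj'⟩ : ∃ j, j ≤ (P.top b).length ∧ (P.top b).take i = (P.top b).take j := by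
    rcases Nat.le_total i (P.top b).length with h | h
    · exact ⟨i, h, rfl⟩
    · refine ⟨(P.top b).length, le_rfl, ?_⟩
      rw [List.take_of_length_le h, List.take_length]
  rw [hj'] at hcon
  rcases updL_bounds hx hj hcon with h5 | ⟨-, h5⟩
  · rw [swb_exit0 hP h] at h5
    exact Bool.false_ne_true h5
  · have hQ : P.Q = 2 * P.QQ := rfl
    have hH : P.H0 = 2 * P.N + 20 := rfl
    have he : P.exitc (4 + i) = 2 * P.Q - 1 - 2 * (4 + i) := rfl
    have hb : P.base 0 = P.H0 + 0 * P.Hs := rfl
    have hx0 : P.ex 0 0 = 2 * P.Q - 1 - 2 * (P.base 0 + 0) := rfl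
    omega

private theorem swb_second (hP : P.Ok) (b : Bool) : ∀ i, 4 + i < P.H0 → ∀ c,
    P.W b (4 + i) c = updL ((P.top b).take i) (P.W0 b) c := by
  intro i
  induction i with
  | zero => intro _ c; exact swb_first hP b 4 le_rfl c
  | succ i ih =>
    intro hi c
    have hi' : 4 + i < P.H0 := by omega
    rw [show 4 + (i + 1) = (4 + i) + 1 by omega, swb_W_succ,
      swb_entry (P := P) (b := b) (A := 4 + i + 1) (by omega), Bool.false_and, Bool.or_false,
      swb_ev i hi']
    have hW : (P.W b (4 + i) c && !decide (c = P.exitc (4 + i))) =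
        updL ((P.top b).take i) (P.W0 b) c := by
      rw [ih hi' c]
      by_cases hc : c = P.exitc (4 + i)
      · rw [hc, swb_exit hP b i hi']
        rfl
      · rw [decide_eq_false hc]
        simp
    rw [hW]
    by_cases hl : i < (P.top b).length
    · rw [updL_take_succ hl]
      rfl
    · have e1 : (P.top b).getD i Ev.non = Ev.non := List.getD_eq_default _ _ (by omega)
      rw [e1, swb_src_non, swb_dst_non, List.take_of_length_le (by omega : (P.top b).length ≤ i + 1),
        List.take_of_length_le (by omega : (P.top b).length ≤ i)]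
      simp

/-- superbands above the strips -/
theorem sw_top (hP : P.Ok) (b : Bool) : (∀ A ≤ 4, ∀ c, P.W b A c = P.W0 b c) ∧
    (∀ i, 4 + i < P.H0 → ∀ c, P.W b (4 + i) c = updL ((P.top b).take i) (P.W0 b) c) ∧
    ∀ c, P.W' b (P.H0 - 1) c = true ↔ P.pre b 0 c := by
  refine ⟨swb_first hP b, swb_second hP b, fun c => ?_⟩
  have hH : P.H0 = 2 * P.N + 20 := rfl
  have hlen := top_len hP b
  have h1 : P.H0 - 1 = 4 + (2 * P.N + 15) := by omega
  have h2 : 4 + (2 * P.N + 15) < P.H0 := by omega
  have e1 : (P.top b).getD (2 * P.N + 15) Ev.non = Ev.non := List.getD_eq_default _ _ (by omega)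
  have e2 : (P.top b).take (2 * P.N + 15) = P.top b := List.take_of_length_le (by omega)
  have h3 : P.W' b (P.H0 - 1) c = updL (P.top b) (P.W0 b) c := by
    rw [h1]
    unfold Par.W'
    rw [swb_ev _ h2, e1, swb_src_non, swb_dst_non, swb_second hP b _ h2 c]
    simp only [Bool.not_false, Bool.and_true, Bool.or_false]
    by_cases hc : c = P.exitc (4 + (2 * P.N + 15))
    · have h4 := swb_exit hP b _ h2
      rw [e2] at h4
      rw [e2, hc, h4]
      rfl
    · rw [decide_eq_false hc, e2]
      simp
  rw [h3]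
  exact (top_ex hP b).2 c

end Pool.Agent.MP_fadef1_lc
end

section

/-! Whole circuits. -/

namespace Pool.Agent.MP_fadef1_lc

variable {D : Data} {Q B A M P0 S : ℕ} {src dst : ℕ → ℕ} {L : List Layer} {R : ℕ → Prop}
  {W : ℕ → Bool}

private theorem cevb_final_eq (M P0 S t : ℕ) (dst : ℕ → ℕ) :
    finalEvs M P0 S t dst = mmEvs (fun j => decide (j < S)) (pos M P0 t) dst M := by
  simp only [finalEvs, mmEvs, decide_eq_true_eq]

private theorem cevb_pos_le {M P0 t i j : ℕ} (h : i ≤ j) : pos M P0 t i ≤ pos M P0 t j := by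
  unfold pos
  have : i * 20 ≤ j * 20 := Nat.mul_le_mul_right _ h
  omega

private theorem cevb_pos_lt {M P0 t i j : ℕ} (h : i < j) : pos M P0 t i + 20 ≤ pos M P0 t j := by
  unfold pos
  have : (i + 1) * 20 ≤ j * 20 := Nat.mul_le_mul_right _ h
  omega

private theorem cevb_P0_le (M P0 t i : ℕ) : P0 ≤ pos M P0 t i := by
  unfold pos
  omega

private theorem cevb_mm (h : CH Q B A M P0 S src dst L R) {A' : ℕ} (hA : A ≤ A') :
    MM Q A' B R (fun j => decide (j < S)) (pos M P0 L.length) dst M := by
  have hS1 := h.hS1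
  have h0s := h.hsP 0 (by omega)
  have h0lo := h.hlo 0 (by omega)
  have h0d := h.hPd 0 (by omega)
  have h0B := h.hB 0 (by omega)
  refine ⟨?_, ?_, ?_, ?_, ?_, ?_⟩
  · intro i j hij hj
    have := cevb_pos_lt (M := M) (P0 := P0) (t := L.length) hij
    omega
  · intro i j hij hj _ hkj
    exact h.hdst i j hij (by simpa using hkj)
  · intro j hj hkj
    have h1 := h.hPd j (by simpa using hkj)
    have h2 := cevb_pos_le (M := M) (P0 := P0) (t := L.length) (show j ≤ M - 1 by omega)
    omega
  · intro c hc j hj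
    have h2 := cevb_pos_le (M := M) (P0 := P0) (t := L.length) (show j ≤ M - 1 by omega)
    have h3 := cevb_P0_le M P0 L.length j
    rcases h.hR c hc with h4 | h4
    · have h5 := h4 0 (by omega)
      exact ⟨by omega, fun _ => Or.inl (by omega)⟩
    · have h5 := h4 0 (by omega)
      refine ⟨by omega, fun hk => Or.inr ?_⟩
      exact h4 j (by simpa using hk)
  · intro j hj
    have h3 := cevb_P0_le M P0 L.length j
    omega
  · intro j hj
    have h2 := cevb_pos_le (M := M) (P0 := P0) (t := L.length) (show j ≤ M - 1 by omega)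
    exact ⟨by omega, fun hk => h.hB j (by simpa using hk)⟩

theorem circ_ex (h : CH Q B A M P0 S src dst L R)
    (hW : ∀ c, W c = true ↔ (R c ∨ ∃ j < S, c = src j)) :
    ExOk Q B A (circEvs M P0 S src dst L) W ∧
      ∀ c, updL (circEvs M P0 S src dst L) W c = true ↔ (R c ∨ ∃ j < S, c = dst j) := by
  obtain ⟨h1, h2⟩ := init_ex h hW
  obtain ⟨h3, h4, _⟩ := layers_ex (W := updL (initEvs M P0 S src) W) h (k := L.length) le_rfl
    (show A ≤ A + (initEvs M P0 S src).length by omega) h2
  have h5 := mm_ex (cevb_mm h (A' := A + (initEvs M P0 S src ++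
    ((List.range L.length).flatMap fun t => layerEvs M P0 t (L.getD t default))).length)
    (by omega)) h4
  rw [← cevb_final_eq] at h5
  obtain ⟨h5, h6⟩ := h5
  unfold circEvs
  constructor
  · rw [ExOk_append, ExOk_append, updL_append]
    exact ⟨⟨h1, h3⟩, h5⟩
  · intro c
    rw [updL_append, updL_append, h6 c]
    have hS := h.hS
    constructor
    · rintro (hc | ⟨j, hj, hk, hc⟩)
      · exact Or.inl hc
      · exact Or.inr ⟨j, by simpa using hk, hc⟩
    · rintro (hc | ⟨j, hj, hc⟩)
      · exact Or.inl hc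
      · exact Or.inr ⟨j, by omega, by simpa using hj, hc⟩

end Pool.Agent.MP_fadef1_lc
end

section

/-! Whole circuits: untouched wires. -/

namespace Pool.Agent.MP_fadef1_lc

variable {D : Data} {Q B A M P0 S : ℕ} {src dst : ℕ → ℕ} {L : List Layer} {R : ℕ → Prop}
  {W : ℕ → Bool}

private theorem cevc_final_eq (M P0 S t : ℕ) (dst : ℕ → ℕ) :
    finalEvs M P0 S t dst = mmEvs (fun j => decide (j < S)) (pos M P0 t) dst M := by
  simp only [finalEvs, mmEvs, decide_eq_true_eq]

private theorem cevc_pos_le {M P0 t i j : ℕ} (h : i ≤ j) : pos M P0 t i ≤ pos M P0 t j := by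
  unfold pos
  have : i * 20 ≤ j * 20 := Nat.mul_le_mul_right _ h
  omega

private theorem cevc_pos_lt {M P0 t i j : ℕ} (h : i < j) : pos M P0 t i + 20 ≤ pos M P0 t j := by
  unfold pos
  have : (i + 1) * 20 ≤ j * 20 := Nat.mul_le_mul_right _ h
  omega

private theorem cevc_P0_le (M P0 t i : ℕ) : P0 ≤ pos M P0 t i := by
  unfold pos
  omega

private theorem cevc_pos_t {M P0 t t' i : ℕ} (h : t ≤ t') : pos M P0 t i ≤ pos M P0 t' i := by
  unfold pos
  have : t * (20 * M + 30) ≤ t' * (20 * M + 30) := Nat.mul_le_mul_right _ h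
  omega

private theorem cevc_mm (h : CH Q B A M P0 S src dst L R) :
    MM Q A B R (fun j => decide (j < S)) (pos M P0 L.length) dst M := by
  have hS1 := h.hS1
  have h0s := h.hsP 0 (by omega)
  have h0lo := h.hlo 0 (by omega)
  have h0d := h.hPd 0 (by omega)
  have h0B := h.hB 0 (by omega)
  refine ⟨?_, ?_, ?_, ?_, ?_, ?_⟩
  · intro i j hij hj
    have := cevc_pos_lt (M := M) (P0 := P0) (t := L.length) hij
    omega
  · intro i j hij hj _ hkj
    exact h.hdst i j hij (by simpa using hkj)
  · intro j hj hkj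
    have h1 := h.hPd j (by simpa using hkj)
    have h2 := cevc_pos_le (M := M) (P0 := P0) (t := L.length) (show j ≤ M - 1 by omega)
    omega
  · intro c hc j hj
    have h2 := cevc_pos_le (M := M) (P0 := P0) (t := L.length) (show j ≤ M - 1 by omega)
    have h3 := cevc_P0_le M P0 L.length j
    rcases h.hR c hc with h4 | h4
    · have h5 := h4 0 (by omega)
      exact ⟨by omega, fun _ => Or.inl (by omega)⟩
    · have h5 := h4 0 (by omega)
      refine ⟨by omega, fun hk => Or.inr ?_⟩
      exact h4 j (by simpa using hk)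
  · intro j hj
    have h3 := cevc_P0_le M P0 L.length j
    omega
  · intro j hj
    have h2 := cevc_pos_le (M := M) (P0 := P0) (t := L.length) (show j ≤ M - 1 by omega)
    exact ⟨by omega, fun hk => h.hB j (by simpa using hk)⟩

private theorem cevc_mm0 (h : CH Q B A M P0 S src dst L R) :
    MM Q A B R (fun _ => true) src (pos M P0 0) S := by
  have hS1 := h.hS1
  have hS := h.hS
  have h0d := h.hPd 0 (by omega)
  have h0B := h.hB 0 (by omega)
  have hpos : ∀ j < S, pos M P0 0 j ≤ pos M P0 L.length (M - 1) := fun j hj =>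
    (cevc_pos_le (show j ≤ M - 1 by omega)).trans (cevc_pos_t (Nat.zero_le _))
  refine ⟨?_, ?_, ?_, ?_, ?_, ?_⟩
  · intro i j hij hj
    exact h.hsrc i j hij hj
  · intro i j hij hj _ _
    have := cevc_pos_lt (M := M) (P0 := P0) (t := 0) hij
    omega
  · intro j hj _
    have h1 := h.hsP j hj
    have h3 := cevc_P0_le M P0 0 j
    omega
  · intro c hc j hj
    have h1 := h.hsP j hj
    have h3 := cevc_P0_le M P0 0 j
    have h6 := hpos j hj
    rcases h.hR c hc with h4 | h4
    · have h5 := h4 j hj
      exact ⟨by omega, fun _ => Or.inl (by omega)⟩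
    · have h5 := h4 0 (by omega)
      exact ⟨by omega, fun _ => Or.inr (by omega)⟩
  · intro j hj
    exact h.hlo j hj
  · intro j hj
    have h1 := h.hsP j hj
    have h3 := cevc_P0_le M P0 0 j
    have h6 := hpos j hj
    exact ⟨by omega, fun _ => by omega⟩

private theorem cevc_lh (h : CH Q B A M P0 S src dst L R) {t : ℕ} (ht : t < L.length) :
    ∃ W : ℕ → Bool, LH Q B A M P0 t R W := by
  classical
  have hS1 := h.hS1
  have hS := h.hS
  have h0s := h.hsP 0 (by omega)
  have h0lo := h.hlo 0 (by omega)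
  have h0d := h.hPd 0 (by omega)
  have h0B := h.hB 0 (by omega)
  have hp : pos M P0 (t + 1) (M - 1) ≤ pos M P0 L.length (M - 1) := cevc_pos_t ht
  refine ⟨fun c => decide (R c ∨ ∃ j < M, c = pos M P0 t j), ?_, ?_, ?_, ?_, ?_⟩
  · omega
  · omega
  · omega
  · intro c hc
    rcases h.hR c hc with h4 | h4
    · have h5 := h4 0 (by omega)
      exact Or.inl (by omega)
    · have h5 := h4 0 (by omega)
      exact Or.inr (by omega)
  · intro c
    exact decide_eq_true_iff

theorem circ_rest (h : CH Q B A M P0 S src dst L R) {c : ℕ} (hc : R c) :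
    ∀ e ∈ circEvs M P0 S src dst L, isSrc e c = false := by
  intro e he
  unfold circEvs at he
  rw [List.mem_append, List.mem_append] at he
  rcases he with (he | he) | he
  · unfold initEvs at he
    rw [List.mem_append] at he
    rcases he with he | he
    · refine mm_rest (cevc_mm0 h) hc e ?_
      simpa only [mmEvs, if_true] using he
    · exact ins_rest c e he
  · rw [List.mem_flatMap] at he
    obtain ⟨t, ht, he⟩ := he
    have ht' : t < L.length := by simpa using ht
    obtain ⟨W, hW⟩ := cevc_lh h ht'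
    refine lay_rest hW ?_ hc e he
    rw [List.getD_eq_getElem _ _ ht']
    exact h.hL _ (List.getElem_mem ht')
  · rw [cevc_final_eq] at he
    exact mm_rest (cevc_mm h) hc e he

end Pool.Agent.MP_fadef1_lc
end

section

/-! The strips of type 0: lanes. -/

namespace Pool.Agent.MP_fadef1_lc

variable {P : Par} {D : Data} {t c : ℕ} {W : ℕ → Bool}

private theorem strip0_eq (ht : t ≤ 84) (h41 : t ≠ 41) (h42 : t ≠ 42) :
    P.strip false t = mmEvs (fun _ => true) (fun j => P.en t (P.N - 1 - j))
      (fun j => if t = 84 then P.en 42 (P.N - 1 - j) else P.ex (t + 1) (P.N - 1 - j)) P.N := by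
  have h := flat_mm (fun k => P.en t k)
    (fun k => if t = 84 then P.en 42 k else P.ex (t + 1) k) P.N
  unfold Par.strip
  rw [if_neg (by simp), if_pos ⟨ht, h41, h42⟩]
  exact h

private theorem strip0_MM (hP : P.Ok) (ht : t ≤ 84) :
    MM P.Q (P.Q + 9) (2 * P.Q) (fun _ => False) (fun _ => true)
      (fun j => P.en t (P.N - 1 - j))
      (fun j => if t = 84 then P.en 42 (P.N - 1 - j) else P.ex (t + 1) (P.N - 1 - j)) P.N := by
  obtain ⟨hN, hM, hHs, hQQ⟩ := Ok_bounds hP
  have hQ : P.Q = 2 * P.QQ := rfl
  have hb : ∀ s, P.base s = P.H0 + s * P.Hs := fun s => rfl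
  have hb1 : (t + 1) * P.Hs = t * P.Hs + P.Hs := by ring
  have hb2 : t * P.Hs ≤ 84 * P.Hs := Nat.mul_le_mul_right _ ht
  have hen : ∀ s k, P.en s k = P.Q - 1 - 2 * (P.base s + k) := fun s k => rfl
  have hex : ∀ s k, P.ex s k = 2 * P.Q - 1 - 2 * (P.base s + k) := fun s k => rfl
  constructor
  · intro i j hij hj
    simp only [hen, hb]
    omega
  · intro i j hij hj _ _
    by_cases h84 : t = 84
    · simp only [if_pos h84, hen, hb]
      omega
    · simp only [if_neg h84, hex, hb, hb1]
      omega
  · intro j hj _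
    by_cases h84 : t = 84
    · subst h84
      simp only [if_true, hen, hb]
      omega
    · simp only [if_neg h84, hex, hen, hb, hb1]
      omega
  · intro c hc
    exact hc.elim
  · intro j hj
    omega
  · intro j hj
    refine ⟨?_, fun _ => ?_⟩
    · simp only [hen]
      omega
    · by_cases h84 : t = 84
      · simp only [if_pos h84, hen]
        omega
      · simp only [if_neg h84, hex]
        omega

theorem strip0_lane (hP : P.Ok) (hm : (D.mort && D.al) = true) (ht : t ≤ 84) (h41 : t ≠ 41)
    (h42 : t ≠ 42) {k : ℕ} (hk : k < P.N) (z : ℕ) :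
    estepL D (P.strip false t) (P.en t k, z) =
      some (if t = 84 then P.en 42 k else P.ex (t + 1) k, z) := by
  have h := mm_lane (z := z) (j := P.N - 1 - k) hm (strip0_MM hP ht) (by omega)
  have h1 : P.N - 1 - (P.N - 1 - k) = k := by omega
  rw [strip0_eq ht h41 h42]
  simpa only [h1, if_true] using h

theorem strip0_dead (hP : P.Ok) (hm : (D.mort && D.al) = false) (ht : t ≤ 84) (h41 : t ≠ 41)
    (h42 : t ≠ 42) {k : ℕ} (hk : k < P.N) (z : ℕ) :
    estepL D (P.strip false t) (P.en t k, z) = none := by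
  have h := mm_dead (z := z) (j := P.N - 1 - k) hm (strip0_MM hP ht) (by omega)
  have h1 : P.N - 1 - (P.N - 1 - k) = k := by omega
  rw [strip0_eq ht h41 h42]
  simpa only [h1] using h

end Pool.Agent.MP_fadef1_lc
end

section

/-! The pattern is legal. -/

namespace Pool.Agent.MP_fadef1_lc

variable {P : Par} {b : Bool} {t A : ℕ}

private theorem va1_W0 {c : ℕ} (h : P.W0 b c = true) :
    (∃ k < P.N, c = P.ex 42 k) ∨ c = P.Q + 13 := by
  unfold Par.W0 at h
  rw [Bool.or_eq_true, List.any_eq_true, Bool.and_eq_true] at h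
  rcases h with ⟨k, hk, h⟩ | ⟨-, h⟩
  · exact Or.inl ⟨k, List.mem_range.1 hk, of_decide_eq_true h⟩
  · exact Or.inr (of_decide_eq_true h)

private theorem va1_bd (hP : P.Ok) {c : ℕ} (h : P.W0 b c = true) :
    c % 2 = 1 ∧ P.Q ≤ c ∧ c + 2 * P.H0 + 1 ≤ 2 * P.Q := by
  obtain ⟨hN, hM, hHs, hQQ⟩ := Ok_bounds hP
  have hQ : P.Q = 2 * P.QQ := rfl
  have hb : P.base 42 = P.H0 + 42 * P.Hs := rfl
  have hex : ∀ k, P.ex 42 k = 2 * P.Q - 1 - 2 * (P.base 42 + k) := fun k => rfl
  rcases va1_W0 h with ⟨k, hk, rfl⟩ | rfl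
  · rw [hex, hb]
    omega
  · omega

private theorem va1_sep (hP : P.Ok) : Sep (P.W0 b) := by
  intro c c' h h' hlt
  have h1 := va1_bd hP h
  have h2 := va1_bd hP h'
  omega

private theorem va1_non {W : ℕ → Bool} : EvOk W Ev.non := by
  constructor <;> simp [Ev.non]

theorem va_top (hP : P.Ok) (hA : A < P.H0) : VA P b A := by
  obtain ⟨hN, hM, hHs, hQQ⟩ := Ok_bounds hP
  have hQ : P.Q = 2 * P.QQ := rfl
  have hH0 : P.H0 = 2 * P.N + 20 := rfl
  have hent : ∀ A' < P.H0, P.entry b A' = false := by
    intro A' hA'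
    unfold Par.entry
    rw [decide_eq_false (by omega), Bool.false_and, Bool.false_and]
  have hzr : P.zrow b A = false := by
    unfold Par.zrow
    rw [decide_eq_false (p := P.H0 ≤ A) (by omega), Bool.and_false, Bool.false_and, Bool.false_and]
  obtain ⟨h1, h2, -⟩ := sw_top hP b
  rcases Nat.lt_or_ge A 4 with h4 | h4
  · have hW : P.W b A = P.W0 b := funext fun c => h1 A h4.le c
    have hev : P.ev b A = Ev.non := by
      unfold Par.ev
      rw [if_pos h4]
    constructor
    · intro c c' h h' hlt
      rw [hW] at h h'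
      exact va1_sep hP c c' h h' hlt
    · intro c h
      rw [hW] at h
      have := va1_bd hP h
      omega
    · intro c h
      rw [hW] at h
      have := va1_bd hP h
      omega
    · rw [hev]
      exact va1_non
    · intro h
      rw [hev] at h
      exact absurd rfl h
    · intro h
      rw [hzr] at h
      cases h
  · obtain ⟨i, rfl⟩ := Nat.exists_eq_add_of_le h4
    have hlen := top_len hP b
    obtain ⟨hx, -⟩ := top_ex hP b
    have hW : P.W b (4 + i) = updL ((P.top b).take i) (P.W0 b) := funext fun c => h2 i hA c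
    have hev : P.ev b (4 + i) = (P.top b).getD i Ev.non := by
      unfold Par.ev
      rw [if_neg (by omega), if_pos hA]
      congr 1
      omega
    have hex : P.ex 0 0 + 1 + 2 * P.H0 = 2 * P.Q := by
      have h5 : P.ex 0 0 = 2 * P.Q - 1 - 2 * (P.base 0 + 0) := rfl
      have h6 : P.base 0 = P.H0 + 0 * P.Hs := rfl
      rw [h5, h6]
      omega
    have hbd : ∀ c, P.W b (4 + i) c = true →
        P.Q ≤ c + 2 * (4 + i) + 1 ∧ c + 2 * P.H0 + 1 ≤ 2 * P.Q := by
      intro c h
      rw [hW] at h
      rcases Nat.lt_or_ge (P.top b).length i with hi | hi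
      · rw [List.take_of_length_le hi.le] at h
        have h' : updL ((P.top b).take (P.top b).length) (P.W0 b) c = true := by
          rw [List.take_of_length_le le_rfl]
          exact h
        rcases updL_bounds hx le_rfl h' with h5 | h5
        · have := va1_bd hP h5
          omega
        · omega
      · rcases updL_bounds hx hi h with h5 | h5
        · have := va1_bd hP h5
          omega
        · omega
    constructor
    · intro c c' h h' hlt
      rw [hW] at h h'
      exact Sep_updL (va1_sep hP) hx i c c' h h' hlt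
    · intro c h
      exact (hbd c h).1
    · intro c h
      have := hbd c h
      omega
    · rw [hev, hW]
      rcases Nat.lt_or_ge i (P.top b).length with hi | hi
      · exact (ExOk_get hx hi).1
      · rw [List.getD_eq_default _ _ hi]
        exact va1_non
    · intro h
      rw [hev] at h ⊢
      rcases Nat.lt_or_ge i (P.top b).length with hi | hi
      · obtain ⟨-, -, h5, h6⟩ := ExOk_get hx hi
        refine ⟨?_, hent _ hA, hent _ (by omega), h4, h5, by omega⟩
        rw [← Bool.not_eq_true]
        intro h7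
        have h8 := hbd _ h7
        have h9 : P.exitc (4 + i) = 2 * P.Q - 1 - 2 * (4 + i) := rfl
        omega
      · rw [List.getD_eq_default _ _ hi] at h
        exact absurd rfl h
    · intro h
      rw [hzr] at h
      cases h

end Pool.Agent.MP_fadef1_lc
end
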