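import Pool.Agent.Lib.MP_fadef1_lc.Mg.G002
import Pool.Agent.Lib.MP_fadef1_lc.Mg.G004
import Pool.Agent.Lib.MP_fadef1_lc.Mg.G005

section

/-! The strips of type 1 with circuits. -/

namespace Pool.Agent.MP_fadef1_lc

variable {P : Par} {D : Data} {d c : ℕ} {W : ℕ → Bool}

/-- the other wires of strip `36 - 9 d` -/
def Rp (P : Par) (d c : ℕ) : Prop :=
  P.pre true (36 - 9 * d) c ∧ ∀ k < P.N, c ≠ P.en (30 - 9 * d) k

theorem pair_CH (hP : P.Ok) (hd : d < 4) :
    CH P.Q (P.ex (73 - 9 * d) 0) (P.base (36 - 9 * d) + P.N + 4) P.M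
      (P.en (30 - 9 * d) 0 + 30) (2 * P.N) (P.srcP d) (P.dstP d) (P.circ d) (Rp P d) := by
  obtain ⟨h1, h2, h3, h4⟩ := Ok_bounds hP
  obtain ⟨h5, h6, h7⟩ := circ_bounds hP (L := P.circ d) (Or.inr ⟨d, rfl⟩)
  have hQ : P.Q = 2 * P.QQ := rfl
  have h8 : ((P.circ d).length + 2) * (20 * P.M + 30) =
      (P.circ d).length * (20 * P.M + 30) + 2 * (20 * P.M + 30) := by ring
  rw [h8] at h7
  have hb : ∀ n, P.base n = P.H0 + n * P.Hs := fun n => rfl
  generalize hX : (P.circ d).length * (20 * P.M + 30) = X at h7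
  refine ⟨by omega, h2, h5, ?_, ?_, ?_, ?_, ?_, ?_, ?_⟩
  · intro i j hij hj
    simp only [Par.srcP, Par.en, hb]
    interval_cases d <;> split_ifs <;> omega
  · intro i hi
    simp only [Par.srcP, Par.en, hb]
    interval_cases d <;> split_ifs <;> omega
  · intro i j hij hj
    simp only [Par.dstP, Par.ex, hb]
    interval_cases d <;> split_ifs <;> omega
  · intro i hi
    simp only [Par.dstP, Par.ex, Par.en, pos, hb, hX]
    clear hX h8
    interval_cases d <;> split_ifs <;> omega
  · intro c hc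
    obtain ⟨hc1, hc2⟩ := hc
    simp only [Par.pre, if_true] at hc1
    refine Or.inr fun i hi => ?_
    simp only [Par.dstP, Par.ex, hb]
    clear hX h8
    rcases hc1 with ⟨_, k, hk, hc⟩ | ⟨_, hc⟩ | ⟨d', hd', h9, h10, k, hk, hc⟩ |
      ⟨d', hd', h9, h10, k, hk, hc⟩ | ⟨d', hd', h9, h10, k, hk, hc⟩ | ⟨h9, _⟩ | ⟨h9, _⟩
    · simp only [Par.ex, hb] at hc
      interval_cases d <;> split_ifs <;> omega
    · simp only [Par.ex, hb] at hc
      interval_cases d <;> split_ifs <;> omega
    · exfalso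
      have : d' = d := by omega
      subst this
      exact hc2 k hk hc
    · simp only [Par.ex, hb] at hc
      interval_cases d <;> interval_cases d' <;> (try omega) <;> split_ifs <;> omega
    · simp only [Par.ex, hb] at hc
      interval_cases d <;> interval_cases d' <;> (try omega) <;> split_ifs <;> omega
    · omega
    · omega
  · intro i hi
    simp only [Par.srcP, Par.en, hb]
    interval_cases d <;> split_ifs <;> omega
  · intro i hi
    simp only [Par.dstP, Par.ex, hb]
    interval_cases d <;> split_ifs <;> omega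

end Pool.Agent.MP_fadef1_lc
end

section

/-! The wires around the pair circuits. -/

namespace Pool.Agent.MP_fadef1_lc

variable {P : Par} {D : Data} {d c : ℕ} {W : ℕ → Bool}

/-- the wires of strip `36 - 9 d` before the events -/
theorem pair_mid (hP : P.Ok) (hd : d < 4) (c : ℕ) : P.mid true (36 - 9 * d) c ↔
    (Rp P d c ∨ ∃ j < 2 * P.N, c = P.srcP d j) := by
  obtain ⟨h1, h2, h3, h4⟩ := Ok_bounds hP
  have hQ : P.Q = 2 * P.QQ := rfl
  have hb : ∀ n, P.base n = P.H0 + n * P.Hs := fun n => rfl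
  have he : entStrip true (36 - 9 * d) = true := by
    interval_cases d <;> rfl
  simp only [Par.mid, he, true_and]
  constructor
  · rintro (⟨h5, h6⟩ | ⟨k, hk, hc⟩)
    · by_cases h7 : ∃ k < P.N, c = P.en (30 - 9 * d) k
      · obtain ⟨k, hk, hc⟩ := h7
        refine Or.inr ⟨2 * P.N - 1 - k, by omega, ?_⟩
        rw [Par.srcP, if_neg (by omega), hc]
        congr 1
        omega
      · refine Or.inl ⟨h5, fun k hk hc => h7 ⟨k, hk, hc⟩⟩
    · refine Or.inr ⟨P.N - 1 - k, by omega, ?_⟩
      rw [Par.srcP, if_pos (by omega), hc]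
      congr 1
      omega
  · rintro (⟨hc1, hc2⟩ | ⟨j, hj, hc⟩)
    · refine Or.inl ⟨hc1, fun k hk hc => ?_⟩
      simp only [Par.pre, if_true] at hc1
      simp only [Par.ex, hb] at hc
      rcases hc1 with ⟨_, k', hk', hc'⟩ | ⟨_, hc'⟩ | ⟨d', hd', h9, h10, k', hk', hc'⟩ |
        ⟨d', hd', h9, h10, k', hk', hc'⟩ | ⟨d', hd', h9, h10, k', hk', hc'⟩ | ⟨h9, _⟩ | ⟨h9, _⟩
      · simp only [Par.ex, hb] at hc'
        interval_cases d <;> omega
      · simp only [Par.ex, hb] at hc'
        interval_cases d <;> omega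
      · have : d' = d := by omega
        subst this
        exact hc2 k' hk' hc'
      · simp only [Par.ex, hb] at hc'
        interval_cases d <;> interval_cases d' <;> omega
      · simp only [Par.ex, hb] at hc'
        interval_cases d <;> interval_cases d' <;> omega
      · omega
      · omega
    · rw [Par.srcP] at hc
      split_ifs at hc with h5
      · exact Or.inr ⟨P.N - 1 - j, by omega, hc⟩
      · refine Or.inl ⟨?_, fun k hk hc' => ?_⟩
        · simp only [Par.pre, if_true]
          exact Or.inr (Or.inr (Or.inl ⟨d, hd, by omega, by omega, 2 * P.N - 1 - j,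
            by omega, hc⟩))
        · simp only [Par.ex, hb] at hc'
          simp only [Par.en, hb] at hc
          interval_cases d <;> omega

/-- the wires after the events -/
theorem pair_pre (hP : P.Ok) (hd : d < 4) (c : ℕ) : P.pre true (36 - 9 * d + 1) c ↔
    (Rp P d c ∨ ∃ j < 2 * P.N, c = P.dstP d j) := by
  obtain ⟨h1, h2, h3, h4⟩ := Ok_bounds hP
  have hQ : P.Q = 2 * P.QQ := rfl
  have hb : ∀ n, P.base n = P.H0 + n * P.Hs := fun n => rfl
  have hne : ∀ n k : ℕ, n ≤ 84 → k < P.N → ∀ k' < P.N, P.ex n k ≠ P.en (30 - 9 * d) k' := by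
    intro n k hn hk k' hk' h
    simp only [Par.ex, Par.en, hb] at h
    have hu : n * P.Hs ≤ 84 * P.Hs := Nat.mul_le_mul_right _ hn
    have hv : (30 - 9 * d) * P.Hs ≤ 30 * P.Hs := Nat.mul_le_mul_right _ (by omega)
    omega
  constructor
  · intro h
    simp only [Par.pre, if_true] at h
    rcases h with ⟨_, k', hk', hc'⟩ | ⟨_, hc'⟩ | ⟨d', hd', h9, h10, k', hk', hc'⟩ |
        ⟨d', hd', h9, h10, k', hk', hc'⟩ | ⟨d', hd', h9, h10, k', hk', hc'⟩ | ⟨h9, _⟩ | ⟨h9, _⟩
    · refine Or.inl ⟨?_, fun k hk hc => hne 42 k' (by omega) hk' k hk (hc' ▸ hc)⟩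
      simp only [Par.pre, if_true]
      exact Or.inl ⟨by omega, k', hk', hc'⟩
    · refine Or.inl ⟨?_, fun k hk hc => hne 43 0 (by omega) (by omega) k hk (hc' ▸ hc)⟩
      simp only [Par.pre, if_true]
      exact Or.inr (Or.inl ⟨by omega, hc'⟩)
    · omega
    · by_cases h5 : d' = d
      · subst h5
        refine Or.inr ⟨P.N - 1 - k', by omega, ?_⟩
        rw [Par.dstP, if_pos (by omega), hc']
        congr 1
        omega
      · refine Or.inl ⟨?_, fun k hk hc =>
          hne (79 - 9 * d') k' (by omega) hk' k hk (hc' ▸ hc)⟩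
        simp only [Par.pre, if_true]
        exact Or.inr (Or.inr (Or.inr (Or.inl ⟨d', hd', by omega, by omega, k', hk', hc'⟩)))
    · by_cases h5 : d' = d
      · subst h5
        refine Or.inr ⟨2 * P.N - 1 - k', by omega, ?_⟩
        rw [Par.dstP, if_neg (by omega), hc']
        congr 1
        omega
      · refine Or.inl ⟨?_, fun k hk hc =>
          hne (73 - 9 * d') k' (by omega) hk' k hk (hc' ▸ hc)⟩
        simp only [Par.pre, if_true]
        exact Or.inr (Or.inr (Or.inr (Or.inr (Or.inl ⟨d', hd', by omega, by omega, k', hk',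
          hc'⟩))))
    · omega
    · omega
  · rintro (⟨hc1, hc2⟩ | ⟨j, hj, hc⟩)
    · simp only [Par.pre, if_true] at hc1 ⊢
      rcases hc1 with ⟨_, k', hk', hc'⟩ | ⟨_, hc'⟩ | ⟨d', hd', h9, h10, k', hk', hc'⟩ |
        ⟨d', hd', h9, h10, k', hk', hc'⟩ | ⟨d', hd', h9, h10, k', hk', hc'⟩ | ⟨h9, _⟩ | ⟨h9, _⟩
      · exact Or.inl ⟨by omega, k', hk', hc'⟩
      · exact Or.inr (Or.inl ⟨by omega, hc'⟩)
      · have : d' = d := by omega
        subst this
        exact (hc2 k' hk' hc').elim
      · exact Or.inr (Or.inr (Or.inr (Or.inl ⟨d', hd', by omega, by omega, k', hk', hc'⟩)))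
      · exact Or.inr (Or.inr (Or.inr (Or.inr (Or.inl ⟨d', hd', by omega, by omega, k', hk',
          hc'⟩))))
      · omega
      · omega
    · simp only [Par.pre, if_true]
      rw [Par.dstP] at hc
      split_ifs at hc with h5
      · exact Or.inr (Or.inr (Or.inr (Or.inl ⟨d, hd, by omega, by omega, P.N - 1 - j,
          by omega, hc⟩)))
      · exact Or.inr (Or.inr (Or.inr (Or.inr (Or.inl ⟨d, hd, by omega, by omega,
          2 * P.N - 1 - j, by omega, hc⟩))))

end Pool.Agent.MP_fadef1_lc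
end

section

/-! The strip with the alive circuit. -/

namespace Pool.Agent.MP_fadef1_lc

variable {P : Par} {D : Data} {d c : ℕ} {W : ℕ → Bool}

theorem alive_CH (hP : P.Ok) :
    CH P.Q (P.ex 82 0) (P.base 39 + P.N + 4) P.M (P.en 39 0 + 30) P.N P.srcE P.dstE P.cE
      (P.pre true 39) := by
  obtain ⟨hN, hM, hH, hQ⟩ := Ok_bounds hP
  obtain ⟨hL, hlen, hqq⟩ := circ_bounds hP (L := P.cE) (Or.inl rfl)
  have hring : (P.cE.length + 2) * (20 * P.M + 30) =
      P.cE.length * (20 * P.M + 30) + 2 * (20 * P.M + 30) := by ring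
  rw [hring] at hqq
  have hH0 : P.H0 = 2 * P.N + 20 := rfl
  refine ⟨hN, by omega, hL, ?_, ?_, ?_, ?_, ?_, ?_, ?_⟩
  · intro i j hij hj
    simp only [Par.srcE, Par.en, Par.base, Par.Q]
    omega
  · intro i hi
    simp only [Par.srcE, Par.en, Par.base, Par.Q]
    omega
  · intro i j hij hj
    simp only [Par.dstE, Par.ex, Par.base, Par.Q]
    omega
  · intro i hi
    simp only [pos, Par.dstE, Par.en, Par.ex, Par.base, Par.Q]
    generalize P.cE.length * (20 * P.M + 30) = X at hqq ⊢
    omega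
  · intro c hc
    right
    intro i hi
    simp only [Par.pre, if_true] at hc
    rcases hc with ⟨_, k, hk, rfl⟩ | ⟨_, rfl⟩ | ⟨d, hd, _, h2, k, hk, rfl⟩ |
      ⟨d, hd, _, _, k, hk, rfl⟩ | ⟨d, hd, _, _, k, hk, rfl⟩ | ⟨h, _⟩ | ⟨h, _⟩
    · simp only [Par.dstE, Par.ex, Par.base, Par.Q]
      omega
    · simp only [Par.dstE, Par.ex, Par.base, Par.Q]
      omega
    · omega
    · interval_cases d <;> simp only [Par.dstE, Par.ex, Par.base, Par.Q] <;> omega
    · interval_cases d <;> simp only [Par.dstE, Par.ex, Par.base, Par.Q] <;> omega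
    · omega
    · omega
  · intro i hi
    simp only [Par.srcE, Par.en, Par.base, Par.Q]
    omega
  · intro i hi
    simp only [Par.dstE, Par.ex, Par.base, Par.Q]
    omega

theorem alive_mid (hP : P.Ok) (c : ℕ) : P.mid true 39 c ↔
    (P.pre true 39 c ∨ ∃ j < P.N, c = P.srcE j) := by
  obtain ⟨hN, hM, hH, hQ⟩ := Ok_bounds hP
  have hH0 : P.H0 = 2 * P.N + 20 := rfl
  have h1 : P.pre true 39 c → ∀ k < P.N, c ≠ P.ex 39 k := by
    intro hc k' hk' heq
    simp only [Par.pre, if_true] at hc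
    rcases hc with ⟨_, k, hk, hc⟩ | ⟨_, hc⟩ | ⟨d, hd, _, h2, k, hk, hc⟩ |
      ⟨d, hd, _, _, k, hk, hc⟩ | ⟨d, hd, _, _, k, hk, hc⟩ | ⟨h, _⟩ | ⟨h, _⟩
    · simp only [Par.ex, Par.base, Par.Q] at hc heq
      omega
    · simp only [Par.ex, Par.base, Par.Q] at hc heq
      omega
    · omega
    · interval_cases d <;> simp only [Par.ex, Par.base, Par.Q] at hc heq <;> omega
    · interval_cases d <;> simp only [Par.ex, Par.base, Par.Q] at hc heq <;> omega
    · omega
    · omega
  constructor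
  · rintro (⟨h, _⟩ | ⟨_, k, hk, rfl⟩)
    · exact Or.inl h
    · refine Or.inr ⟨P.N - 1 - k, by omega, ?_⟩
      simp only [Par.srcE]
      congr 1
      omega
  · rintro (h | ⟨j, hj, rfl⟩)
    · exact Or.inl ⟨h, h1 h⟩
    · exact Or.inr ⟨rfl, P.N - 1 - j, by omega, rfl⟩

theorem alive_pre (hP : P.Ok) (c : ℕ) : P.pre true 40 c ↔
    (P.pre true 39 c ∨ ∃ j < P.N, c = P.dstE j) := by
  simp only [Par.pre, if_true]
  constructor
  · rintro (⟨_, k, hk, hc⟩ | ⟨_, hc⟩ | ⟨d, hd, _, h2, k, hk, hc⟩ |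
      ⟨d, hd, _, _, k, hk, hc⟩ | ⟨d, hd, _, _, k, hk, hc⟩ | ⟨_, _, k, hk, hc⟩ | ⟨h, _⟩)
    · exact Or.inl (Or.inl ⟨by omega, k, hk, hc⟩)
    · exact Or.inl (Or.inr (Or.inl ⟨by omega, hc⟩))
    · omega
    · exact Or.inl (Or.inr (Or.inr (Or.inr (Or.inl ⟨d, hd, by omega, by omega, k, hk, hc⟩))))
    · exact Or.inl (Or.inr (Or.inr (Or.inr (Or.inr (Or.inl
        ⟨d, hd, by omega, by omega, k, hk, hc⟩)))))
    · refine Or.inr ⟨P.N - 1 - k, by omega, ?_⟩
      rw [hc]
      simp only [Par.dstE]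
      congr 1
      omega
    · omega
  · rintro ((⟨_, k, hk, hc⟩ | ⟨_, hc⟩ | ⟨d, hd, _, h2, k, hk, hc⟩ |
      ⟨d, hd, _, _, k, hk, hc⟩ | ⟨d, hd, _, _, k, hk, hc⟩ | ⟨h, _⟩ | ⟨h, _⟩) | ⟨j, hj, hc⟩)
    · exact Or.inl ⟨by omega, k, hk, hc⟩
    · exact Or.inr (Or.inl ⟨by omega, hc⟩)
    · omega
    · exact Or.inr (Or.inr (Or.inr (Or.inl ⟨d, hd, by omega, by omega, k, hk, hc⟩)))
    · exact Or.inr (Or.inr (Or.inr (Or.inr (Or.inl ⟨d, hd, by omega, by omega, k, hk, hc⟩))))
    · omega
    · omega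
    · exact Or.inr (Or.inr (Or.inr (Or.inr (Or.inr (Or.inl
        ⟨by omega, by omega, P.N - 1 - j, by omega, hc⟩)))))

end Pool.Agent.MP_fadef1_lc
end

section

/-! All strips. -/

namespace Pool.Agent.MP_fadef1_lc

variable {P : Par} {D : Data} {b : Bool} {t c : ℕ} {W : ℕ → Bool}

private theorem StripsA_base {t t' : ℕ} (h : t < t') : P.base t + P.Hs ≤ P.base t' := by
  unfold Par.base
  have : (t + 1) * P.Hs ≤ t' * P.Hs := Nat.mul_le_mul_right _ h
  rw [Nat.succ_mul] at this
  omega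

private theorem StripsA_up (hP : P.Ok) {t : ℕ} (ht : t ≤ 85) :
    2 * (P.base t + P.N) + 100 ≤ P.Q := by
  have h1 := Ok_bounds hP
  have h2 : P.base t ≤ P.base 85 := by
    unfold Par.base
    have := Nat.mul_le_mul_right P.Hs ht
    omega
  have h3 : P.base 85 = P.H0 + 85 * P.Hs := rfl
  have h4 : P.Q = 2 * P.QQ := rfl
  omega

private theorem StripsA_inj (hP : P.Ok) {t t' k k' : ℕ} (ht : t ≤ 85) (ht' : t' ≤ 85)
    (hk : k < P.N) (hk' : k' < P.N) (h : P.ex t k = P.ex t' k') : t = t' := by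
  have h1 := Ok_bounds hP
  have h2 := StripsA_up hP ht
  have h3 := StripsA_up hP ht'
  unfold Par.ex at h
  rcases lt_trichotomy t t' with h4 | h4 | h4
  · have := StripsA_base (P := P) h4
    omega
  · exact h4
  · have := StripsA_base (P := P) h4
    omega

private theorem StripsA_ne (hP : P.Ok) {t t' k k' : ℕ} (ht' : t' ≤ 85)
    (hk' : k' < P.N) : P.en t k ≠ P.ex t' k' := by
  have h3 := StripsA_up hP ht'
  unfold Par.ex Par.en
  omega

private theorem StripsA_pair (hP : P.Ok) {d : ℕ} (hd : d < 4) :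
    (P.pairEvs d).length + P.N + 12 ≤ P.Hs := by
  have h1 := circ_length (pair_CH hP hd)
  have h2 := (circ_bounds hP (Or.inr ⟨d, rfl⟩ : P.circ d = P.cE ∨ ∃ d', P.circ d = P.circ d')).2.1
  change (circEvs P.M (P.en (30 - 9 * d) 0 + 30) (2 * P.N) (P.srcP d) (P.dstP d)
    (P.circ d)).length + P.N + 12 ≤ P.Hs
  omega

theorem strip_len (hP : P.Ok) (b : Bool) (t : ℕ) : (P.strip b t).length + P.N + 12 ≤ P.Hs := by
  cases b with
  | false => exact strip0_len hP t
  | true =>
    unfold Par.strip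
    rw [if_pos rfl]
    split_ifs
    · have h1 := circ_length (alive_CH hP)
      have h2 := (circ_bounds hP (Or.inl rfl : P.cE = P.cE ∨ ∃ d', P.cE = P.circ d')).2.1
      change (circEvs P.M (P.en 39 0 + 30) P.N P.srcE P.dstE P.cE).length + P.N + 12 ≤ P.Hs
      omega
    · exact StripsA_pair hP (by norm_num)
    · exact StripsA_pair hP (by norm_num)
    · exact StripsA_pair hP (by norm_num)
    · exact StripsA_pair hP (by norm_num)
    · have := Ok_bounds hP
      rw [List.length_nil]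
      omega

/-- strips of type 1 without circuit -/
theorem strip1_nil (ht : t ≠ 36) (ht1 : t ≠ 27) (ht2 : t ≠ 18) (ht3 : t ≠ 9) (ht4 : t ≠ 39) :
    P.strip true t = [] := by
  unfold Par.strip
  rw [if_pos rfl, if_neg ht4, if_neg ht, if_neg ht1, if_neg ht2, if_neg ht3]

theorem mid_pre_nil (hP : P.Ok) (h84 : t ≤ 84) (ht : t ≠ 36) (ht1 : t ≠ 27) (ht2 : t ≠ 18)
    (ht3 : t ≠ 9) (ht4 : t ≠ 39) (c : ℕ) : P.mid true t c ↔ P.pre true (t + 1) c := by
  have hN := (Ok_bounds hP).1
  unfold Par.mid Par.pre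
  simp only [if_true]
  constructor
  · rintro (⟨h, hne⟩ | ⟨he, k, hk, rfl⟩)
    · rcases h with ⟨h1, k, hk, rfl⟩ | ⟨h1, rfl⟩ | ⟨d, hd, h1, h2, k, hk, rfl⟩ |
        ⟨d, hd, h1, h2, k, hk, rfl⟩ | ⟨d, hd, h1, h2, k, hk, rfl⟩ | ⟨h1, h2, k, hk, rfl⟩ |
        ⟨h1, k, hk, rfl⟩
      · left
        refine ⟨?_, k, hk, rfl⟩
        have : t ≠ 42 := by rintro rfl; exact hne k hk rfl
        omega
      · right; left
        refine ⟨?_, rfl⟩
        have : t ≠ 43 := by rintro rfl; exact hne 0 (by omega) rfl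
        omega
      · right; right; left
        refine ⟨d, hd, by omega, ?_, k, hk, rfl⟩
        omega
      · right; right; right; left
        refine ⟨d, hd, by omega, ?_, k, hk, rfl⟩
        have : t ≠ 79 - 9 * d := by rintro rfl; exact hne k hk rfl
        omega
      · right; right; right; right; left
        refine ⟨d, hd, by omega, ?_, k, hk, rfl⟩
        have : t ≠ 73 - 9 * d := by rintro rfl; exact hne k hk rfl
        omega
      · right; right; right; right; right; left
        refine ⟨by omega, ?_, k, hk, rfl⟩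
        have : t ≠ 82 := by rintro rfl; exact hne k hk rfl
        omega
      · right; right; right; right; right; right
        exact ⟨by omega, k, hk, rfl⟩
    · unfold entStrip at he
      simp only [if_true, decide_eq_true_eq] at he
      rcases he with h | h | h | h | h | h | h | h | h | h
      · right; right; right; right; right; right
        subst h
        exact ⟨by omega, k, hk, rfl⟩
      · exact absurd h ht4
      · exact absurd h ht
      · exact absurd h ht1
      · exact absurd h ht2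
      · exact absurd h ht3
      · right; right; left
        subst h
        exact ⟨0, by omega, by omega, by omega, k, hk, rfl⟩
      · right; right; left
        subst h
        exact ⟨1, by omega, by omega, by omega, k, hk, rfl⟩
      · right; right; left
        subst h
        exact ⟨2, by omega, by omega, by omega, k, hk, rfl⟩
      · right; right; left
        subst h
        exact ⟨3, by omega, by omega, by omega, k, hk, rfl⟩
  · rintro (⟨h1, k, hk, rfl⟩ | ⟨h1, rfl⟩ | ⟨d, hd, h1, h2, k, hk, rfl⟩ |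
        ⟨d, hd, h1, h2, k, hk, rfl⟩ | ⟨d, hd, h1, h2, k, hk, rfl⟩ | ⟨h1, h2, k, hk, rfl⟩ |
        ⟨h1, k, hk, rfl⟩)
    · left
      refine ⟨Or.inl ⟨by omega, k, hk, rfl⟩, fun k' hk' h => ?_⟩
      have := StripsA_inj hP (by omega) (by omega) hk hk' h
      omega
    · left
      refine ⟨Or.inr (Or.inl ⟨by omega, rfl⟩), fun k' hk' h => ?_⟩
      have := StripsA_inj hP (by omega) (by omega) (by omega : 0 < P.N) hk' h
      omega
    · rcases Nat.eq_or_lt_of_le (Nat.le_of_lt_succ h1) with h3 | h3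
      · right
        refine ⟨?_, k, hk, by rw [h3]⟩
        unfold entStrip
        simp only [if_true, decide_eq_true_eq]
        omega
      · left
        refine ⟨Or.inr (Or.inr (Or.inl ⟨d, hd, h3, by omega, k, hk, rfl⟩)), fun k' hk' h => ?_⟩
        exact StripsA_ne hP (by omega) hk' h
    · left
      refine ⟨Or.inr (Or.inr (Or.inr (Or.inl ⟨d, hd, ?_, by omega, k, hk, rfl⟩))),
        fun k' hk' h => ?_⟩
      · omega
      · have := StripsA_inj hP (by omega) (by omega) hk hk' h
        omega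
    · left
      refine ⟨Or.inr (Or.inr (Or.inr (Or.inr (Or.inl ⟨d, hd, ?_, by omega, k, hk, rfl⟩)))),
        fun k' hk' h => ?_⟩
      · omega
      · have := StripsA_inj hP (by omega) (by omega) hk hk' h
        omega
    · left
      refine ⟨Or.inr (Or.inr (Or.inr (Or.inr (Or.inr (Or.inl ⟨by omega, by omega, k, hk, rfl⟩))))),
        fun k' hk' h => ?_⟩
      have := StripsA_inj hP (by omega) (by omega) hk hk' h
      omega
    · rcases Nat.eq_or_lt_of_le (Nat.le_of_lt_succ h1) with h3 | h3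
      · right
        refine ⟨?_, k, hk, by rw [h3]⟩
        unfold entStrip
        simp only [if_true, decide_eq_true_eq]
        omega
      · left
        refine ⟨Or.inr (Or.inr (Or.inr (Or.inr (Or.inr (Or.inr ⟨h3, k, hk, rfl⟩))))),
          fun k' hk' h => ?_⟩
        exact StripsA_ne hP (by omega) hk' h

end Pool.Agent.MP_fadef1_lc
end
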