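import Pool.Agent.Lib.MP_fadef1_lc.I.Wk
import Pool.Agent.Lib.MP_fadef1_lc.I.RkA

section

/-! Facts on the bits of the array used for strays (lanes outside the wires). -/

namespace Pool.Agent.MP_fadef1_lc

/-- kind of a cell: `0` wall, `1` T cell, `2` L cell -/
def kd (I J : ℕ) : ℕ := (J + 2 * I + 2) % 3

variable {P : Par} {D : Data} {b : Bool}

theorem kd_loc (hP : P.Ok) {i j : ℕ} (bi bj : ℕ) (hi : i < P.K) :
    kd (bi * P.K + i) (bj * P.K + j) = (j + P.K - i - 1) % 3 := by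
  have hK : P.K = 6 * P.QQ := rfl
  have h1 : bi * P.K = 6 * (bi * P.QQ) := by rw [hK]; ring
  have h2 : bj * P.K = 6 * (bj * P.QQ) := by rw [hK]; ring
  unfold kd
  rw [h1, h2]
  generalize bi * P.QQ = x
  generalize bj * P.QQ = y
  omega

theorem row_mod (hP : P.Ok) (bi i : ℕ) : (bi * P.K + i) % 6 = i % 6 := by
  have hK : P.K = 6 * P.QQ := rfl
  have h1 : bi * P.K = 6 * (bi * P.QQ) := by rw [hK]; ring
  rw [h1]
  generalize bi * P.QQ = x
  omega

/-- local form of a cell -/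
private theorem sta_loc (hP : P.Ok) (I J : ℕ) : ∃ bi bj i j : ℕ, i < P.K ∧ j < P.K ∧
    I = bi * P.K + i ∧ J = bj * P.K + j ∧ I % 6 = i % 6 ∧
    kd I J = (j + P.K - i - 1) % 3 ∧
    P.arr I J = P.bx (P.arr bi bj) i (j + P.K - i - 1) := by
  have hK := K_pos hP
  have hpos : 0 < P.K := by omega
  have hi : I % P.K < P.K := Nat.mod_lt _ hpos
  have hj : J % P.K < P.K := Nat.mod_lt _ hpos
  have e1 : I = I / P.K * P.K + I % P.K := by
    rw [Nat.mul_comm]; exact (Nat.div_add_mod I P.K).symm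
  have e2 : J = J / P.K * P.K + J % P.K := by
    rw [Nat.mul_comm]; exact (Nat.div_add_mod J P.K).symm
  refine ⟨I / P.K, J / P.K, I % P.K, J % P.K, hi, hj, e1, e2, ?_, ?_, ?_⟩
  · conv_lhs => rw [e1]
    exact row_mod hP _ _
  · conv_lhs => rw [e1, e2]
    exact kd_loc hP _ _ hi
  · conv_lhs => rw [e1, e2]
    exact arr_loc hP _ _ hi hj

/-- row phase 1 -/
theorem gb1 (hP : P.Ok) {I J : ℕ} (h : I % 6 = 1) : P.arr I J = !decide (kd I J = 0) := by
  obtain ⟨bi, bj, i, j, hi, hj, e1, e2, hm, hk, ha⟩ := sta_loc hP I J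
  rw [ha, hk]
  have h1 : i % 6 = 1 := by omega
  simp [Par.bx, h1]

theorem gb3 (hP : P.Ok) {I J : ℕ} (h : I % 6 = 3) (hk : kd I J ≠ 0) : P.arr I J = true := by
  obtain ⟨bi, bj, i, j, hi, hj, e1, e2, hm, hk', ha⟩ := sta_loc hP I J
  rw [hk'] at hk
  rw [ha]
  have h1 : i % 6 = 3 := by omega
  simp [Par.bx, h1, hk]

theorem gb5 (hP : P.Ok) {I J : ℕ} (h : I % 6 = 5) (hk : kd I J ≠ 0) : P.arr I J = true := by
  obtain ⟨bi, bj, i, j, hi, hj, e1, e2, hm, hk', ha⟩ := sta_loc hP I J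
  rw [hk'] at hk
  rw [ha]
  have h1 : i % 6 = 5 := by omega
  simp [Par.bx, h1, hk]

theorem gb4 (hP : P.Ok) {I J : ℕ} (h : I % 6 = 4) (hk : kd I J = 2) : P.arr I J = true := by
  obtain ⟨bi, bj, i, j, hi, hj, e1, e2, hm, hk', ha⟩ := sta_loc hP I J
  rw [hk'] at hk
  rw [ha]
  have h1 : i % 6 = 4 := by omega
  simp [Par.bx, h1, hk]

theorem gb4c (hP : P.Ok) {I J : ℕ} (h : I % 6 = 4) (hk : kd I J = 1) (hJ : J % P.K = 0) :
    P.arr I J = true := by
  obtain ⟨bi, bj, i, j, hi, hj, e1, e2, hm, hk', ha⟩ := sta_loc hP I J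
  rw [hk'] at hk
  rw [ha]
  have h1 : i % 6 = 4 := by omega
  have hj0 : j = 0 := by
    rw [e2, Nat.mul_comm, Nat.mul_add_mod, Nat.mod_eq_of_lt hj] at hJ
    exact hJ
  have hx : j + P.K - i - 1 + i + 1 = P.K := by omega
  simp [Par.bx, h1, hk, hx]

/-- in row phase 4 a closed wall is followed by a T cell `1` -/
theorem gb4w (hP : P.Ok) {I J : ℕ} (h : I % 6 = 4) (hk : kd I J = 0)
    (h0 : P.arr I J = false) : P.arr I (J + 1) = true := by
  obtain ⟨bi, bj, i, j, hi, hj, e1, e2, hm, hk', ha⟩ := sta_loc hP I J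
  rw [hk'] at hk
  rw [ha] at h0
  have h1 : i % 6 = 4 := by omega
  by_cases hj1 : j + 1 < P.K
  · have e3 : J + 1 = bj * P.K + (j + 1) := by omega
    rw [e1, e3, arr_loc hP _ _ hi hj1]
    unfold Par.bit
    have hx : j + 1 + P.K - i - 1 = (j + P.K - i - 1) + 1 := by omega
    rw [hx]
    have h2 : (j + P.K - i - 1 + 1) % 3 = 1 := by omega
    have h3 : (j + P.K - i - 1 + 1) / 3 = (j + P.K - i - 1) / 3 := by omega
    simp [Par.bx, h1, hk, Par.cl4] at h0
    simp [Par.bx, h1, h2, h3, h0.1]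
  · have e3 : J + 1 = (bj + 1) * P.K + 0 := by
      rw [e2, Nat.add_mul]; omega
    have hK := K_pos hP
    rw [e1, e3, arr_loc hP _ _ hi (by omega)]
    unfold Par.bit
    have hK6 : P.K = 6 * P.QQ := rfl
    have h2 : (0 + P.K - i - 1) % 3 = 1 := by omega
    have h3 : 0 + P.K - i - 1 + i + 1 = P.K := by omega
    simp only [Par.bx, h1, h2, h3]
    simp

/-- row phase 0: an open wall cell is followed by a T cell `1` -/
theorem gb0w (hP : P.Ok) {I J : ℕ} (h : I % 6 = 0) (hk : kd I J = 0)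
    (h0 : P.arr I J = true) : P.arr I (J + 1) = true := by
  obtain ⟨bi, bj, i, j, hi, hj, e1, e2, hm, hk', ha⟩ := sta_loc hP I J
  rw [hk'] at hk
  rw [ha] at h0
  have h1 : i % 6 = 0 := by omega
  have hK6 : P.K = 6 * P.QQ := rfl
  have hj1 : j + 1 < P.K := by omega
  have e3 : J + 1 = bj * P.K + (j + 1) := by omega
  rw [e1, e3, arr_loc hP _ _ hi hj1]
  unfold Par.bit
  have hx : j + 1 + P.K - i - 1 = (j + P.K - i - 1) + 1 := by omega
  rw [hx]
  generalize hX : j + P.K - i - 1 = x at *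
  have h2 : (x + 1) % 3 = 1 := by omega
  unfold Par.bx at h0 ⊢
  rw [if_pos h1] at h0 ⊢
  by_cases hz : P.zrow (P.arr bi bj) (i / 6) = true
  · rw [if_pos hz] at h0
    exact absurd h0 (by simp)
  · rw [if_neg hz] at h0 ⊢
    have hc : ¬ ((P.arr bi bj && decide (i = 0 ∧ P.K ≤ x ∧ x ≤ P.K + 41)) = true) := by
      intro hc
      rw [if_pos hc] at h0
      exact absurd h0 (by simp)
    have hc' : ¬ ((P.arr bi bj && decide (i = 0 ∧ P.K ≤ x + 1 ∧ x + 1 ≤ P.K + 41)) = true) := by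
      intro hc'
      apply hc
      rw [Bool.and_eq_true, decide_eq_true_eq] at hc' ⊢
      refine ⟨hc'.1, hc'.2.1, ?_, ?_⟩ <;> omega
    rw [if_neg hc', if_neg (by omega)]

/-- row phase 0 in local terms -/
theorem gb0 (hP : P.Ok) (b : Bool) {A x : ℕ} (hx : x % 3 ≠ 0) : P.bx b (6 * A) x = false ↔
    (P.zrow b A = true ∨ (b = true ∧ A = 0 ∧ P.K ≤ x ∧ x ≤ P.K + 41)) := by
  have h1 : 6 * A % 6 = 0 := by omega
  have h2 : 6 * A / 6 = A := by omega
  unfold Par.bx
  rw [if_pos h1, h2]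
  by_cases hz : P.zrow b A = true
  · rw [if_pos hz]
    simp [hz]
  · rw [if_neg hz]
    by_cases hc : (b && decide (6 * A = 0 ∧ P.K ≤ x ∧ x ≤ P.K + 41)) = true
    · rw [if_pos hc]
      rw [Bool.and_eq_true, decide_eq_true_eq] at hc
      constructor
      · intro _
        exact Or.inr ⟨hc.1, by omega, hc.2.2.1, hc.2.2.2⟩
      · intro _
        rfl
    · rw [if_neg hc, if_neg hx]
      constructor
      · intro h
        exact absurd h (by simp)
      · rintro (h | ⟨hb, hA, h3, h4⟩)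
        · exact absurd h hz
        · exfalso
          apply hc
          rw [Bool.and_eq_true, decide_eq_true_eq]
          exact ⟨hb, by omega, h3, h4⟩

end Pool.Agent.MP_fadef1_lc
end

section

/-! Following an infinite chain of zeros. -/

namespace Pool.Agent.MP_fadef1_lc

/-- `v` belongs to a chain with state `p` -/
def Str (P : Par) (v : ℕ × ℕ) (p : Pos) : Prop :=
  P.arr v.1 v.2 = false ∧
    ∃ t, P.cls (P.arr (v.1 / P.K) (v.2 / P.K)) v.1 v.2 (v.1 % P.K) (v.2 % P.K) = Cl.s p t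

/-- steps of the curve; down steps go from T cells to wall cells -/
def Stp (v v' : ℕ × ℕ) : Prop :=
  (v'.2 = v.2 + 1 ∧ v'.1 ≤ v.1 + 1 ∧ v.1 ≤ v'.1 + 1) ∨
    (v'.2 = v.2 ∧ v'.1 = v.1 + 1 ∧ kd v.1 v.2 ≠ 0 ∧ kd v'.1 v'.2 = 0)

/-- the chain goes on at `v`, with the infinite walk from `p` -/
def Goes (P : Par) (v : ℕ × ℕ) : Prop :=
  ∃ v' p', Str P v' p' ∧ ¬ Dies data0 P.arr p' ∧ Stp v v'

variable {P : Par} {i j bi bj : ℕ} {p : Pos}

/-- `Str` in local coordinates -/
theorem str_loc (hP : P.Ok) (hi : i < P.K) (hj : j < P.K) :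
    Str P (bi * P.K + i, bj * P.K + j) p ↔ (P.bx (P.arr bi bj) i (j + P.K - i - 1) = false ∧
      ∃ t, P.cls (P.arr bi bj) (bi * P.K + i) (bj * P.K + j) i j = Cl.s p t) := by
  have hK := K_pos hP
  have hKp : 0 < P.K := by omega
  have e1 : (bi * P.K + i) / P.K = bi := by
    rw [Nat.mul_comm, Nat.mul_add_div hKp, Nat.div_eq_of_lt hi, Nat.add_zero]
  have e2 : (bj * P.K + j) / P.K = bj := by
    rw [Nat.mul_comm, Nat.mul_add_div hKp, Nat.div_eq_of_lt hj, Nat.add_zero]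
  have e3 : (bi * P.K + i) % P.K = i := by
    rw [Nat.mul_comm, Nat.mul_add_mod, Nat.mod_eq_of_lt hi]
  have e4 : (bj * P.K + j) % P.K = j := by
    rw [Nat.mul_comm, Nat.mul_add_mod, Nat.mod_eq_of_lt hj]
  unfold Str
  simp only [e1, e2, e3, e4, arr_loc hP bi bj hi hj]
  rfl

theorem data0_ok : data0.Ok := by
  refine ⟨by decide, ?_⟩
  intro d s z s' z' hd hs hz h
  have hz0 : z = 0 := by
    have : z < 1 := hz
    omega
  subst hz0
  have hw : data0.w = 1 := rfl
  have key : ∀ d < 4, ∀ s < 2, ∀ p : ℕ × ℕ, data0.g d (s, 0) = some p → p.1 < 2 ∧ p.2 < 1 := by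
    intro d hd s hs p hp
    interval_cases d <;> interval_cases s <;>
      simp [data0, dataOf, shG, shH] at hp <;> subst hp <;> exact ⟨by norm_num, by norm_num⟩
  exact key d hd s hs (s', z') h

end Pool.Agent.MP_fadef1_lc
end

section

/-! Equations for rem. -/

namespace Pool.Agent.MP_fadef1_lc

variable {P : Par} {I J i j bi bj : ℕ}

section rems

variable (hf : AllFin P)

include hf

theorem rem_T1 (h : P.arr I J = true) : rem data0 P.arr ⟨I, J, Lane.T 0⟩ =
    rem data0 P.arr ⟨I, J + 1, Lane.L 42 0⟩ + 1 := by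
  have h1 : nxt data0 P.arr ⟨I, J, Lane.T 0⟩ = some ⟨I, J + 1, Lane.L 42 0⟩ := by
    simp [nxt, gstep, h, Pos.out]
  exact rem_nxt h1 (hf _ ⟨by norm_num, by norm_num⟩)

theorem rem_L1 (h : P.arr I J = true) : rem data0 P.arr ⟨I, J, Lane.L 42 0⟩ =
    rem data0 P.arr ⟨I + 1, J, Lane.T 0⟩ + 1 := by
  have h1 : nxt data0 P.arr ⟨I, J, Lane.L 42 0⟩ = some ⟨I + 1, J, Lane.T 0⟩ := by
    simp [nxt, gstep, h, Pos.out]
  exact rem_nxt h1 (hf _ (by norm_num [Lane.Ok]))

theorem rem_L0 (h : P.arr I J = false) : rem data0 P.arr ⟨I, J, Lane.L 42 0⟩ =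
    rem data0 P.arr ⟨I, J + 1, Lane.L 42 0⟩ + 1 := by
  have h1 : nxt data0 P.arr ⟨I, J, Lane.L 42 0⟩ = some ⟨I, J + 1, Lane.L 42 0⟩ := by
    simp [nxt, gstep, h, Pos.out]
  exact rem_nxt h1 (hf _ ⟨by norm_num, by norm_num⟩)

theorem rem_T0 (h : P.arr I J = false) : rem data0 P.arr ⟨I, J, Lane.T 0⟩ =
    rem data0 P.arr ⟨I, J + 1, Lane.L 84 0⟩ + 1 := by
  have h1 : nxt data0 P.arr ⟨I, J, Lane.T 0⟩ = some ⟨I, J + 1, Lane.L 84 0⟩ := by
    simp [nxt, gstep, h, Pos.out, data0, dataOf]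
  exact rem_nxt h1 (hf _ ⟨by norm_num, by norm_num⟩)

theorem rem_Lg {g : ℕ} (h : P.arr I J = false) (h0 : g ≠ 0) (h42 : g ≠ 42) (h43 : g ≠ 43)
    (h84 : g ≤ 84) : rem data0 P.arr ⟨I, J, Lane.L g 0⟩ =
      rem data0 P.arr ⟨I, J + 1, Lane.L (g - 1) 0⟩ + 1 := by
  have h1 : nxt data0 P.arr ⟨I, J, Lane.L g 0⟩ = some ⟨I, J + 1, Lane.L (g - 1) 0⟩ := by
    have h2 : ¬ (84 < g) := by omega
    simp [nxt, gstep, h, Pos.out, data0, dataOf, h0, h42, h43, h2]
  exact rem_nxt h1 (hf _ ⟨by omega, by norm_num⟩)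

theorem rem_Lz (h : P.arr I J = false) : rem data0 P.arr ⟨I, J, Lane.L 0 0⟩ =
    rem data0 P.arr ⟨I + 1, J, Lane.T 0⟩ + 1 := by
  have h1 : nxt data0 P.arr ⟨I, J, Lane.L 0 0⟩ = some ⟨I + 1, J, Lane.T 0⟩ := by
    simp [nxt, gstep, h, Pos.out, data0, dataOf]
  exact rem_nxt h1 (hf _ (by norm_num [Lane.Ok]))

/-- the trigger cell of a gate -/
theorem rem_trig {e : Ev} (h : P.arr I J = true) (he : e.t = 2 ∧ e.y < 4 ∨ e.t = 3) :
    rem data0 P.arr ⟨I, J, Lane.L (trL e) 0⟩ =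
      rem data0 P.arr ⟨I, J + 1, Lane.L (3 * s1 e + 2 - (3 * trig e + 3)) 0⟩ + 1 := by
  have key : ∀ a b : ℕ, trL e = a → 3 * s1 e + 2 - (3 * trig e + 3) = b → b ≤ 84 →
      gstep data0 true (Lane.L a 0) = some (Lane.L b 0) →
      rem data0 P.arr ⟨I, J, Lane.L (trL e) 0⟩ =
      rem data0 P.arr ⟨I, J + 1, Lane.L (3 * s1 e + 2 - (3 * trig e + 3)) 0⟩ + 1 := by
    intro a b ha hb hb84 hs
    rw [ha, hb]
    have h1 : nxt data0 P.arr ⟨I, J, Lane.L a 0⟩ = some ⟨I, J + 1, Lane.L b 0⟩ := by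
      simp only [nxt, h, hs, Option.map_some, Pos.out]
    exact rem_nxt h1 (hf _ ⟨hb84, by norm_num⟩)
  obtain ⟨t, x, y⟩ := e
  rcases he with ⟨ht, hy⟩ | ht
  · simp only at ht hy
    subst ht
    have hy' : y = 0 ∨ y = 1 ∨ y = 2 ∨ y = 3 := by omega
    rcases hy' with rfl | rfl | rfl | rfl
    · exact key 48 11 (by simp [trL, trig, s0]; omega) (by simp [trig, s1]; omega) (by norm_num)
        (by decide)
    · exact key 63 14 (by simp [trL, trig, s0]; omega) (by simp [trig, s1]; omega) (by norm_num)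
        (by decide)
    · exact key 66 29 (by simp [trL, trig, s0]; omega) (by simp [trig, s1]; omega) (by norm_num)
        (by decide)
    · exact key 81 32 (by simp [trL, trig, s0]; omega) (by simp [trig, s1]; omega) (by norm_num)
        (by decide)
  · simp only at ht
    subst ht
    exact key 45 2 (by simp [trL, trig, s0]; omega) (by simp [trig, s1]; omega) (by norm_num)
        (by decide)

end rems

end Pool.Agent.MP_fadef1_lc
end

section

/-! Ring condition from the neighbours. -/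

namespace Pool.Agent.MP_fadef1_lc

variable {P : Par} {I J i j bi bj : ℕ}

/-- ring condition from the eight neighbours; `cmp 0`: lower, `cmp 2`: higher -/
def cmp (s : Fin 3) (a b : ℕ) : Prop := (s = 0 → b < a) ∧ (s = 2 → a < b)

theorem rc_mk (hI : 1 ≤ I) (hJ : 1 ≤ J) (s : Fin 8 → Fin 3) (hc : ringChk s = true)
    (he : ∀ k : Fin 8, k.val % 2 = 0 → s k ≠ 1)
    (h0 : cmp (s 0) (P.rk (I, J)) (P.rk (I - 1, J)))
    (h1 : cmp (s 1) (P.rk (I, J)) (P.rk (I - 1, J + 1)))
    (h2 : cmp (s 2) (P.rk (I, J)) (P.rk (I, J + 1)))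
    (h3 : cmp (s 3) (P.rk (I, J)) (P.rk (I + 1, J + 1)))
    (h4 : cmp (s 4) (P.rk (I, J)) (P.rk (I + 1, J)))
    (h5 : cmp (s 5) (P.rk (I, J)) (P.rk (I + 1, J - 1)))
    (h6 : cmp (s 6) (P.rk (I, J)) (P.rk (I, J - 1)))
    (h7 : cmp (s 7) (P.rk (I, J)) (P.rk (I - 1, J - 1))) : RC P I J := by
  refine ⟨s, hc, he, ?_, ?_⟩
  · intro k hk
    have n0 : nbr I J 0 = some (I - 1, J) := if_pos hI
    have n1 : nbr I J 1 = some (I - 1, J + 1) := if_pos hI
    have n5 : nbr I J 5 = some (I + 1, J - 1) := if_pos hJ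
    have n6 : nbr I J 6 = some (I, J - 1) := if_pos hJ
    have n7 : nbr I J 7 = some (I - 1, J - 1) := if_pos ⟨hI, hJ⟩
    fin_cases k
    · exact ⟨_, n0, h0.1 hk⟩
    · exact ⟨_, n1, h1.1 hk⟩
    · exact ⟨_, rfl, h2.1 hk⟩
    · exact ⟨_, rfl, h3.1 hk⟩
    · exact ⟨_, rfl, h4.1 hk⟩
    · exact ⟨_, n5, h5.1 hk⟩
    · exact ⟨_, n6, h6.1 hk⟩
    · exact ⟨_, n7, h7.1 hk⟩
  · intro k c hk hn
    have n0 : nbr I J 0 = some (I - 1, J) := if_pos hI
    have n1 : nbr I J 1 = some (I - 1, J + 1) := if_pos hI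
    have n5 : nbr I J 5 = some (I + 1, J - 1) := if_pos hJ
    have n6 : nbr I J 6 = some (I, J - 1) := if_pos hJ
    have n7 : nbr I J 7 = some (I - 1, J - 1) := if_pos ⟨hI, hJ⟩
    fin_cases k
    · rw [← Option.some.inj (n0.symm.trans hn)]; exact h0.2 hk
    · rw [← Option.some.inj (n1.symm.trans hn)]; exact h1.2 hk
    · rw [← Option.some.inj hn]; exact h2.2 hk
    · rw [← Option.some.inj hn]; exact h3.2 hk
    · rw [← Option.some.inj hn]; exact h4.2 hk
    · rw [← Option.some.inj (n5.symm.trans hn)]; exact h5.2 hk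
    · rw [← Option.some.inj (n6.symm.trans hn)]; exact h6.2 hk
    · rw [← Option.some.inj (n7.symm.trans hn)]; exact h7.2 hk

/-- the same without neighbours above (`I = 0`) -/
theorem rc_mk_top (hI : I = 0) (hJ : 1 ≤ J) (s : Fin 8 → Fin 3) (hc : ringChk s = true)
    (he : ∀ k : Fin 8, k.val % 2 = 0 → s k ≠ 1)
    (h0 : s 0 = 2) (h1 : s 1 = 2) (h7 : s 7 = 2)
    (h2 : cmp (s 2) (P.rk (I, J)) (P.rk (I, J + 1)))
    (h3 : cmp (s 3) (P.rk (I, J)) (P.rk (I + 1, J + 1)))
    (h4 : cmp (s 4) (P.rk (I, J)) (P.rk (I + 1, J)))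
    (h5 : cmp (s 5) (P.rk (I, J)) (P.rk (I + 1, J - 1)))
    (h6 : cmp (s 6) (P.rk (I, J)) (P.rk (I, J - 1))) : RC P I J := by
  subst hI
  have e2 : (0 : Fin 3) ≠ 2 := by decide
  refine ⟨s, hc, he, ?_, ?_⟩
  · intro k hk
    have n5 : nbr 0 J 5 = some (0 + 1, J - 1) := if_pos hJ
    have n6 : nbr 0 J 6 = some (0, J - 1) := if_pos hJ
    fin_cases k
    · exact absurd (hk.symm.trans h0) e2
    · exact absurd (hk.symm.trans h1) e2
    · exact ⟨_, rfl, h2.1 hk⟩
    · exact ⟨_, rfl, h3.1 hk⟩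
    · exact ⟨_, rfl, h4.1 hk⟩
    · exact ⟨_, n5, h5.1 hk⟩
    · exact ⟨_, n6, h6.1 hk⟩
    · exact absurd (hk.symm.trans h7) e2
  · intro k c hk hn
    have n5 : nbr 0 J 5 = some (0 + 1, J - 1) := if_pos hJ
    have n6 : nbr 0 J 6 = some (0, J - 1) := if_pos hJ
    have n7 : nbr 0 J 7 = none := by
      show (if 1 ≤ 0 ∧ 1 ≤ J then some (0 - 1, J - 1) else none) = none
      rw [if_neg (by omega)]
    fin_cases k
    · exact absurd hn (by simp [nbr])
    · exact absurd hn (by simp [nbr])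
    · rw [← Option.some.inj hn]; exact h2.2 hk
    · rw [← Option.some.inj hn]; exact h3.2 hk
    · rw [← Option.some.inj hn]; exact h4.2 hk
    · rw [← Option.some.inj (n5.symm.trans hn)]; exact h5.2 hk
    · rw [← Option.some.inj (n6.symm.trans hn)]; exact h6.2 hk
    · exact absurd (n7.symm.trans hn) (by simp)

/-- the same without neighbours on the left (`J = 0`) -/
theorem rc_mk_left (hI : 1 ≤ I) (hJ : J = 0) (s : Fin 8 → Fin 3) (hc : ringChk s = true)
    (he : ∀ k : Fin 8, k.val % 2 = 0 → s k ≠ 1)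
    (h5 : s 5 = 2) (h6 : s 6 = 2) (h7 : s 7 = 2)
    (h0 : cmp (s 0) (P.rk (I, J)) (P.rk (I - 1, J)))
    (h1 : cmp (s 1) (P.rk (I, J)) (P.rk (I - 1, J + 1)))
    (h2 : cmp (s 2) (P.rk (I, J)) (P.rk (I, J + 1)))
    (h3 : cmp (s 3) (P.rk (I, J)) (P.rk (I + 1, J + 1)))
    (h4 : cmp (s 4) (P.rk (I, J)) (P.rk (I + 1, J))) : RC P I J := by
  subst hJ
  have e2 : (0 : Fin 3) ≠ 2 := by decide
  refine ⟨s, hc, he, ?_, ?_⟩
  · intro k hk
    have n0 : nbr I 0 0 = some (I - 1, 0) := if_pos hI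
    have n1 : nbr I 0 1 = some (I - 1, 0 + 1) := if_pos hI
    fin_cases k
    · exact ⟨_, n0, h0.1 hk⟩
    · exact ⟨_, n1, h1.1 hk⟩
    · exact ⟨_, rfl, h2.1 hk⟩
    · exact ⟨_, rfl, h3.1 hk⟩
    · exact ⟨_, rfl, h4.1 hk⟩
    · exact absurd (hk.symm.trans h5) e2
    · exact absurd (hk.symm.trans h6) e2
    · exact absurd (hk.symm.trans h7) e2
  · intro k c hk hn
    have n0 : nbr I 0 0 = some (I - 1, 0) := if_pos hI
    have n1 : nbr I 0 1 = some (I - 1, 0 + 1) := if_pos hI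
    have n5 : nbr I 0 5 = none := by
      show (if 1 ≤ 0 then some (I + 1, 0 - 1) else none) = none
      rw [if_neg (by omega)]
    have n6 : nbr I 0 6 = none := by
      show (if 1 ≤ 0 then some (I, 0 - 1) else none) = none
      rw [if_neg (by omega)]
    have n7 : nbr I 0 7 = none := by
      show (if 1 ≤ I ∧ 1 ≤ 0 then some (I - 1, 0 - 1) else none) = none
      rw [if_neg (by omega)]
    fin_cases k
    · rw [← Option.some.inj (n0.symm.trans hn)]; exact h0.2 hk
    · rw [← Option.some.inj (n1.symm.trans hn)]; exact h1.2 hk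
    · rw [← Option.some.inj hn]; exact h2.2 hk
    · rw [← Option.some.inj hn]; exact h3.2 hk
    · rw [← Option.some.inj hn]; exact h4.2 hk
    · exact absurd (n5.symm.trans hn) (by simp)
    · exact absurd (n6.symm.trans hn) (by simp)
    · exact absurd (n7.symm.trans hn) (by simp)

end Pool.Agent.MP_fadef1_lc
end

section

/-! Ring condition: walls in row phase 0. -/

namespace Pool.Agent.MP_fadef1_lc

variable {P : Par} {i j bi bj : ℕ}

private theorem loc_one (hP : P.Ok) (hi : i < P.K) (hj : j < P.K)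
    (h : P.bx (P.arr bi bj) i (j + P.K - i - 1) = true) :
    P.rk (bi * P.K + i, bj * P.K + j) = 0 := by
  rw [rk_loc hP hi hj, if_pos h]

private theorem loc_arr (hP : P.Ok) (bi bj : ℕ) (hi : i < P.K) (hj : j < P.K) :
    P.arr (bi * P.K + i) (bj * P.K + j) = P.bx (P.arr bi bj) i (j + P.K - i - 1) :=
  arr_loc hP bi bj hi hj

private theorem loc_s (hP : P.Ok) (hi : i < P.K) (hj : j < P.K)
    (h : P.bx (P.arr bi bj) i (j + P.K - i - 1) = false) {p : Pos} {t : ℕ}
    (hc : P.cls (P.arr bi bj) (bi * P.K + i) (bj * P.K + j) i j = Cl.s p t) :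
    P.rk (bi * P.K + i, bj * P.K + j) = 7 * P.K + 10 + 2 * rem data0 P.arr p + t := by
  rw [rk_loc hP hi hj, h, hc]
  rfl

private theorem bx0 {b : Bool} {i x : ℕ} (hr : i % 6 = 0) (hz : P.zrow b (i / 6) = false)
    (hi : ¬ (b = true ∧ i = 0 ∧ P.K ≤ x ∧ x ≤ P.K + 41)) :
    P.bx b i x = if x % 3 = 0 then !P.cl b (i / 6) (x / 3) else true := by
  unfold Par.bx
  rw [if_pos hr, hz, if_neg (by decide), if_neg]
  intro h
  rw [Bool.and_eq_true, decide_eq_true_eq] at h
  exact hi ⟨h.1, h.2.1, h.2.2.1, h.2.2.2⟩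

private theorem bx1 {b : Bool} {i x : ℕ} (hr : i % 6 = 1) :
    P.bx b i x = !decide (x % 3 = 0) := by
  unfold Par.bx
  rw [if_neg (by omega), if_pos hr]

private theorem bx5 {b : Bool} {i x : ℕ} (hr : i % 6 = 5) :
    P.bx b i x = if x % 3 = 0 then !P.cl4 b (i / 6) (x / 3) else true := by
  unfold Par.bx
  rw [if_neg (by omega), if_neg (by omega), if_neg (by omega), if_neg (by omega),
    if_neg (by omega)]

private theorem cl_W {b : Bool} {A c : ℕ} (h : P.cl b A c = true) : P.W b A c = true := by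
  unfold Par.cl at h
  rw [Bool.and_eq_true] at h
  exact h.1

/-- the cell above left: the row above consists of `1` except walls -/
private theorem upleft (hP : P.Ok) (hf : AllFin P) {bi bj i j r : ℕ} (hi : i < P.K)
    (hj1 : 1 ≤ j) (hj : j + 1 < P.K) (hr : i % 6 = 5) (h3 : (j - 1 + P.K - i - 1) % 3 = 0)
    (hrem : rem data0 P.arr ⟨bi * P.K + i + 1, bj * P.K + j + 1, Lane.T 0⟩ = r) :
    P.rk (bi * P.K + i, bj * P.K + j) = 0 ∧ P.rk (bi * P.K + i, bj * P.K + (j + 1)) = 0 ∧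
    (P.rk (bi * P.K + i, bj * P.K + (j - 1)) = 0 ∨
      7 * P.K + 10 + 2 * r < P.rk (bi * P.K + i, bj * P.K + (j - 1))) := by
  have hx1 : (j + P.K - i - 1) % 3 = 1 := by omega
  have hx2 : (j + 1 + P.K - i - 1) % 3 = 2 := by omega
  refine ⟨?_, ?_, ?_⟩
  · refine loc_one hP hi (by omega) ?_
    rw [bx5 hr, if_neg (by omega)]
  · refine loc_one hP hi hj ?_
    rw [bx5 hr, if_neg (by omega)]
  · by_cases hw : P.cl4 (P.arr bi bj) (i / 6) ((j - 1 + P.K - i - 1) / 3) = true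
    · right
      have b1 : P.bx (P.arr bi bj) i (j - 1 + P.K - i - 1) = false := by
        rw [bx5 hr, if_pos h3, hw]
        rfl
      have e := loc_s hP (i := i) (j := j - 1) hi (by omega) b1
        (p := ⟨bi * P.K + i, bj * P.K + (j - 1) + 1, Lane.T 0⟩) (t := 0) (by
          unfold Par.cls
          rw [if_neg (by omega), if_neg (by omega), if_neg (by omega), if_neg (by omega),
            if_neg (by omega)])
      have a0 : P.arr (bi * P.K + i) (bj * P.K + j) = true := by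
        rw [loc_arr hP bi bj hi (by omega), bx5 hr, if_neg (by omega)]
      have a1 : P.arr (bi * P.K + i) (bj * P.K + j + 1) = true := by
        rw [show bj * P.K + j + 1 = bj * P.K + (j + 1) by omega, loc_arr hP bi bj hi hj,
          bx5 hr, if_neg (by omega)]
      rw [show bj * P.K + (j - 1) + 1 = bj * P.K + j by omega, rem_T1 hf a0, rem_L1 hf a1,
        hrem] at e
      omega
    · left
      rw [Bool.not_eq_true] at hw
      refine loc_one hP hi (by omega) ?_
      rw [bx5 hr, if_pos h3, hw]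
      rfl

/-- closed wall in row phase 0: `(i-1, j-1)` is higher or `1` (also in the block above),
everything else is lower. `(i+1, j+1)` is the next cell of the chain; if it is in column `K-1` it is
the border cell, with state `L 42` at `(i, K)`. Use `rc_mk_top` if `bi = 0` and `i = 0`. -/
theorem rc_w0 (hP : P.Ok) (hf : AllFin P) (hi : i < P.K) (hj : j < P.K)
    (hr : i % 6 = 0) (h : P.bx (P.arr bi bj) i (j + P.K - i - 1) = false)
    (hz : P.zrow (P.arr bi bj) (i / 6) = false)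
    (hZ : ¬ ((P.arr bi bj) = true ∧ i = 0 ∧ P.K ≤ (j + P.K - i - 1) ∧ (j + P.K - i - 1) ≤ P.K + 41)) :
    RC P (bi * P.K + i) (bj * P.K + j) := by
  have hK : P.K = 6 * P.QQ := rfl
  have hQ : P.Q = 2 * P.QQ := rfl
  have hKp := K_pos hP
  have h' := h
  rw [bx0 hr hz hZ] at h'
  have hx0 : (j + P.K - i - 1) % 3 = 0 := by
    by_contra hx
    rw [if_neg hx] at h'
    exact absurd h' (by decide)
  rw [if_pos hx0, Bool.not_eq_false'] at h'
  have hW := cl_W h'
  have hj1 : j % 3 = 1 := by omega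
  have hA : i / 6 < P.QQ := by omega
  -- no wall at channel `Q + 14` in row `0` of type `1`
  have hx42 : ¬ (P.arr bi bj = true ∧ i = 0 ∧ P.K ≤ j - 1 + P.K - i - 1 ∧
      j - 1 + P.K - i - 1 ≤ P.K + 41) := by
    rintro ⟨hb, h0, h1, h2⟩
    subst h0
    have hc : (j + P.K - 0 - 1) / 3 = P.Q + 14 := by
      have : ¬ (P.K ≤ j + P.K - 0 - 1 ∧ j + P.K - 0 - 1 ≤ P.K + 41) := fun h =>
        hZ ⟨hb, rfl, h.1, h.2⟩
      omega
    rw [hc] at hW
    have hW0 : P.W (P.arr bi bj) (0 / 6) (P.Q + 14) = P.W0 (P.arr bi bj) (P.Q + 14) := rfl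
    rw [hW0] at hW
    unfold Par.W0 at hW
    rw [Bool.or_eq_true, List.any_eq_true, Bool.and_eq_true] at hW
    rcases hW with ⟨k, hk, h⟩ | ⟨_, h2⟩
    · have h := of_decide_eq_true h
      have hk := List.mem_range.mp hk
      have h1 := hP.hQQ P.cE (by simp)
      have h2 := hP.hHs P.cE (by simp)
      have h4 : P.base 42 = P.H0 + 42 * P.Hs := rfl
      unfold Par.ex at h
      generalize (P.cE.length + 2) * (20 * P.M + 30) = x at h1
      generalize (P.cE.length + 2) * (3 * P.M + 3) = y at h2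
      omega
    · have := of_decide_eq_true h2
      omega
  have hx1 : ¬ (P.arr bi bj = true ∧ i = 0 ∧ P.K ≤ j + 1 + P.K - i - 1 ∧
      j + 1 + P.K - i - 1 ≤ P.K + 41) := by
    rintro ⟨hb, h0, h1, h2⟩
    exact hZ ⟨hb, h0, by omega, by omega⟩
  have hjK : j + 1 < P.K := by omega
  have eJ1 : bj * P.K + j - 1 = bj * P.K + (j - 1) := by omega
  have eJ2 : bj * P.K + j + 1 = bj * P.K + (j + 1) := by omega
  have eI2 : bi * P.K + i + 1 = bi * P.K + (i + 1) := by omega
  have hrk : P.rk (bi * P.K + i, bj * P.K + j) = 7 * P.K + 10 +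
      2 * rem data0 P.arr ⟨bi * P.K + i, bj * P.K + j + 1, Lane.T 0⟩ + 0 := by
    refine loc_s hP hi hj h ?_
    unfold Par.cls
    rw [if_pos hr, if_neg (by rw [hz]; decide), if_neg hZ]
  have hpos : 0 < P.rk (bi * P.K + i, bj * P.K + j) := by rw [hrk]; omega
  have a1 : P.arr (bi * P.K + i) (bj * P.K + j + 1) = true := by
    rw [eJ2, loc_arr hP bi bj hi hjK, bx0 hr hz hx1, if_neg (by omega)]
  -- right
  have r2 : P.rk (bi * P.K + i, bj * P.K + (j + 1)) = 0 := by
    refine loc_one hP hi hjK ?_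
    rw [bx0 hr hz hx1, if_neg (by omega)]
  -- left
  have r6 : P.rk (bi * P.K + i, bj * P.K + (j - 1)) = 0 := by
    refine loc_one hP hi (by omega) ?_
    rw [bx0 hr hz hx42, if_neg (by omega)]
  -- below
  have r4 : P.rk (bi * P.K + (i + 1), bj * P.K + j) = 0 := by
    refine loc_one hP (by omega) hj ?_
    rw [bx1 (by omega), decide_eq_false (by omega)]
    rfl
  have r5 : P.rk (bi * P.K + (i + 1), bj * P.K + (j - 1)) = 0 := by
    refine loc_one hP (by omega) (by omega) ?_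
    rw [bx1 (by omega), decide_eq_false (by omega)]
    rfl
  have hxx : j + 1 + P.K - (i + 1) - 1 = j + P.K - i - 1 := by omega
  have hA1 : (i + 1) / 6 = i / 6 := by omega
  have b3 : P.bx (P.arr bi bj) (i + 1) (j + 1 + P.K - (i + 1) - 1) = false := by
    rw [bx1 (by omega), hxx, decide_eq_true hx0]
    rfl
  have r3 : P.rk (bi * P.K + (i + 1), bj * P.K + (j + 1)) <
      P.rk (bi * P.K + i, bj * P.K + j) := by
    by_cases hj2 : j + 2 = P.K
    · have hcx : (j + P.K - i - 1) / 3 = P.exitc (i / 6) := by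
        unfold Par.exitc
        omega
      have e := loc_s hP (i := i + 1) (j := j + 1) (by omega) hjK b3
        (p := ⟨bi * P.K + (i + 1) - 1, bj * P.K + (j + 1) + 1, Lane.L 42 0⟩) (t := 1) (by
          unfold Par.cls
          rw [if_neg (by omega), if_pos (by omega), if_pos (by omega), hA1,
            if_pos (Or.inl (by rw [← hcx]; exact hW))])
      rw [hrk, e, rem_T1 hf a1, show bi * P.K + (i + 1) - 1 = bi * P.K + i by omega,
        show bj * P.K + j + 1 + 1 = bj * P.K + (j + 1) + 1 by omega]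
      omega
    · have hx2 : ¬ (P.arr bi bj = true ∧ i = 0 ∧ P.K ≤ j + 2 + P.K - i - 1 ∧
          j + 2 + P.K - i - 1 ≤ P.K + 41) := by
        rintro ⟨hb, h0, h1, h2⟩
        exact hZ ⟨hb, h0, by omega, by omega⟩
      have a2 : P.arr (bi * P.K + i) (bj * P.K + j + 1 + 1) = true := by
        rw [show bj * P.K + j + 1 + 1 = bj * P.K + (j + 2) by omega,
          loc_arr hP bi bj hi (by omega), bx0 hr hz hx2, if_neg (by omega)]
      have e := loc_s hP (i := i + 1) (j := j + 1) (by omega) hjK b3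
        (p := ⟨bi * P.K + (i + 1), bj * P.K + (j + 1) + 1, Lane.T 0⟩) (t := 0) (by
          unfold Par.cls
          rw [if_neg (by omega), if_pos (by omega), if_neg (by omega), hA1, hxx, if_pos h'])
      rw [hrk, e, rem_T1 hf a1, rem_L1 hf a2, eI2,
        show bj * P.K + j + 1 + 1 = bj * P.K + (j + 1) + 1 by omega]
      omega
  -- the row above
  by_cases hI : 1 ≤ bi * P.K + i
  · have hup : P.rk (bi * P.K + i - 1, bj * P.K + j) = 0 ∧
        P.rk (bi * P.K + i - 1, bj * P.K + (j + 1)) = 0 ∧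
        (P.rk (bi * P.K + i - 1, bj * P.K + (j - 1)) = 0 ∨
          7 * P.K + 10 + 2 * rem data0 P.arr ⟨bi * P.K + i, bj * P.K + j + 1, Lane.T 0⟩ <
            P.rk (bi * P.K + i - 1, bj * P.K + (j - 1))) := by
      by_cases hi0 : 1 ≤ i
      · have := upleft hP hf (bi := bi) (bj := bj) (i := i - 1) (j := j)
          (r := rem data0 P.arr ⟨bi * P.K + i, bj * P.K + j + 1, Lane.T 0⟩) (by omega) (by omega)
          hjK (by omega) (by omega) (by
            rw [show bi * P.K + (i - 1) + 1 = bi * P.K + i by omega])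
        rw [show bi * P.K + (i - 1) = bi * P.K + i - 1 by omega] at this
        exact this
      · have hi00 : i = 0 := by omega
        subst hi00
        obtain ⟨bl, rfl⟩ : ∃ bl, bi = bl + 1 := by
          refine ⟨bi - 1, ?_⟩
          rcases Nat.eq_zero_or_pos bi with h0 | h0
          · subst h0
            omega
          · omega
        have hsl : (bl + 1) * P.K = bl * P.K + P.K := Nat.succ_mul _ _
        have := upleft hP hf (bi := bl) (bj := bj) (i := P.K - 1) (j := j)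
          (r := rem data0 P.arr ⟨(bl + 1) * P.K + 0, bj * P.K + j + 1, Lane.T 0⟩) (by omega)
          (by omega) hjK (by omega) (by omega) (by
            rw [show bl * P.K + (P.K - 1) + 1 = (bl + 1) * P.K + 0 by omega])
        rw [show bl * P.K + (P.K - 1) = (bl + 1) * P.K + 0 - 1 by omega] at this
        exact this
    obtain ⟨r0, r1, r7 | r7⟩ := hup
    · refine rc_mk hI (by omega) ![0, 0, 0, 0, 0, 0, 0, 0] (by decide) (by decide)
        ?_ ?_ ?_ ?_ ?_ ?_ ?_ ?_
      all_goals refine ⟨fun h0 => ?_, fun h0 => ?_⟩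
      all_goals first | exact absurd h0 (by decide) | skip
      · rw [r0]; exact hpos
      · rw [eJ2, r1]; exact hpos
      · rw [eJ2, r2]; exact hpos
      · rw [eI2, eJ2]; exact r3
      · rw [eI2, r4]; exact hpos
      · rw [eI2, eJ1, r5]; exact hpos
      · rw [eJ1, r6]; exact hpos
      · rw [eJ1, r7]; exact hpos
    · refine rc_mk hI (by omega) ![0, 0, 0, 0, 0, 0, 0, 2] (by decide) (by decide)
        ?_ ?_ ?_ ?_ ?_ ?_ ?_ ?_
      all_goals refine ⟨fun h0 => ?_, fun h0 => ?_⟩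
      all_goals first | exact absurd h0 (by decide) | skip
      · rw [r0]; exact hpos
      · rw [eJ2, r1]; exact hpos
      · rw [eJ2, r2]; exact hpos
      · rw [eI2, eJ2]; exact r3
      · rw [eI2, r4]; exact hpos
      · rw [eI2, eJ1, r5]; exact hpos
      · rw [eJ1, r6]; exact hpos
      · rw [eJ1, hrk]; omega
  · refine rc_mk_top (by omega) (by omega) ![2, 2, 0, 0, 0, 0, 0, 2] (by decide) (by decide)
      rfl rfl rfl ?_ ?_ ?_ ?_ ?_
    all_goals refine ⟨fun h0 => ?_, fun h0 => ?_⟩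
    all_goals first | exact absurd h0 (by decide) | skip
    · rw [eJ2, r2]; exact hpos
    · rw [eI2, eJ2]; exact r3
    · rw [eI2, r4]; exact hpos
    · rw [eI2, eJ1, r5]; exact hpos
    · rw [eJ1, r6]; exact hpos

end Pool.Agent.MP_fadef1_lc
end
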