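import Pool.Agent.Lib.MP_fadef1_lc.Mg.G005
import Pool.Agent.Lib.MP_fadef1_lc.Mg.G006
import Pool.Agent.Lib.MP_fadef1_lc.Mg.G004
import Pool.Agent.Lib.MP_fadef1_lc.Mg.G014

section

/-! All strips. -/

namespace Pool.Agent.MP_fadef1_lc

variable {P : Par} {D : Data} {b : Bool} {t c : ℕ} {W : ℕ → Bool}

private theorem StripsB_mono {Q B B' : ℕ} (hB : B ≤ B') : ∀ (es : List Ev) (A : ℕ) (W : ℕ → Bool),
    ExOk Q B A es W → ExOk Q B' A es W
  | [], _, _, _ => trivial
  | e :: es, A, W, h => ⟨h.1, h.2.1, h.2.2.1, h.2.2.2.1.trans hB,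
      StripsB_mono hB es (A + 1) (upd e W) h.2.2.2.2⟩

private theorem StripsB_base {t t' : ℕ} (h : t ≤ t') : P.base t ≤ P.base t' := by
  unfold Par.base
  have := Nat.mul_le_mul_right P.Hs h
  omega

private theorem StripsB_up (hP : P.Ok) {t : ℕ} (ht : t ≤ 85) :
    2 * (P.base t + P.N) + 100 ≤ P.Q := by
  have h1 := Ok_bounds hP
  have h2 : P.base t ≤ P.base 85 := StripsB_base ht
  have h3 : P.base 85 = P.H0 + 85 * P.Hs := rfl
  have h4 : P.Q = 2 * P.QQ := rfl
  omega

private theorem StripsB_ne (hP : P.Ok) {t t' k k' : ℕ} (ht' : t' ≤ 85)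
    (hk' : k' < P.N) : P.en t k ≠ P.ex t' k' := by
  have h3 := StripsB_up hP ht'
  unfold Par.ex Par.en
  omega

private theorem StripsB_ex_anti {t t' : ℕ} (h : t ≤ t') : P.ex t' 0 ≤ P.ex t 0 := by
  have := StripsB_base (P := P) h
  unfold Par.ex
  omega

private theorem StripsB_pair (hP : P.Ok) {d : ℕ} (hd : d < 4)
    (hW : ∀ c, W c = true ↔ P.mid true (36 - 9 * d) c) :
    ExOk P.Q (P.ex (36 - 9 * d + 1) 0) (P.base (36 - 9 * d) + P.N + 4) (P.pairEvs d) W ∧
      ∀ c, updL (P.pairEvs d) W c = true ↔ P.pre true (36 - 9 * d + 1) c := by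
  obtain ⟨h1, h2⟩ := circ_ex (pair_CH hP hd) (W := W) (fun c => by rw [hW, pair_mid hP hd])
  refine ⟨StripsB_mono (StripsB_ex_anti (by omega)) _ _ _ h1, fun c => ?_⟩
  rw [pair_pre hP hd]
  exact h2 c

private theorem StripsB_alive (hP : P.Ok) (hW : ∀ c, W c = true ↔ P.mid true 39 c) :
    ExOk P.Q (P.ex (39 + 1) 0) (P.base 39 + P.N + 4) P.aliveEvs W ∧
      ∀ c, updL P.aliveEvs W c = true ↔ P.pre true (39 + 1) c := by
  obtain ⟨h1, h2⟩ := circ_ex (alive_CH hP) (W := W) (fun c => by rw [hW, alive_mid hP])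
  refine ⟨StripsB_mono (StripsB_ex_anti (by omega)) _ _ _ h1, fun c => ?_⟩
  rw [show (39 + 1 : ℕ) = 40 from rfl, alive_pre hP]
  exact h2 c

theorem strip_ex (hP : P.Ok) (ht : t ≤ 84) (hW : ∀ c, W c = true ↔ P.mid b t c) :
    ExOk P.Q (P.ex (t + 1) 0) (P.base t + P.N + 4) (P.strip b t) W ∧
      ∀ c, updL (P.strip b t) W c = true ↔ P.pre b (t + 1) c := by
  cases b with
  | false => exact strip0_ex hP ht hW
  | true =>
    by_cases h1 : t = 39
    · subst h1
      exact StripsB_alive hP hW
    by_cases h2 : t = 36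
    · subst h2
      exact StripsB_pair hP (d := 0) (by norm_num) hW
    by_cases h3 : t = 27
    · subst h3
      exact StripsB_pair hP (d := 1) (by norm_num) hW
    by_cases h4 : t = 18
    · subst h4
      exact StripsB_pair hP (d := 2) (by norm_num) hW
    by_cases h5 : t = 9
    · subst h5
      exact StripsB_pair hP (d := 3) (by norm_num) hW
    rw [strip1_nil h2 h3 h4 h5 h1]
    refine ⟨trivial, fun c => ?_⟩
    rw [← mid_pre_nil hP ht h2 h3 h4 h5 h1]
    exact hW c

private theorem StripsB_pairne (hP : P.Ok) {d j j' : ℕ} (hj' : j' < 2 * P.N) :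
    P.srcP d j ≠ P.dstP d j' := by
  unfold Par.srcP Par.dstP
  split_ifs
  · exact StripsB_ne hP (by omega) (by omega)
  · exact StripsB_ne hP (by omega) (by omega)
  · exact StripsB_ne hP (by omega) (by omega)
  · exact StripsB_ne hP (by omega) (by omega)

private theorem StripsB_pairrest (hP : P.Ok) {d : ℕ} (hd : d < 4)
    (h1 : P.mid true (36 - 9 * d) c) (h2 : P.pre true (36 - 9 * d + 1) c) :
    ∀ e ∈ P.pairEvs d, isSrc e c = false := by
  rw [pair_mid hP hd] at h1
  rw [pair_pre hP hd] at h2
  rcases h1 with h1 | ⟨j, hj, h1⟩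
  · exact circ_rest (pair_CH hP hd) h1
  · rcases h2 with h2 | ⟨j', hj', h2⟩
    · exact circ_rest (pair_CH hP hd) h2
    · exact absurd (h1.symm.trans h2) (StripsB_pairne hP hj')

theorem strip_rest (hP : P.Ok) (ht : t ≤ 84) (h1 : P.mid b t c) (h2 : P.pre b (t + 1) c) :
    ∀ e ∈ P.strip b t, isSrc e c = false := by
  have hN := (Ok_bounds hP).1
  cases b with
  | false =>
    exfalso
    unfold Par.mid at h1
    unfold Par.pre at h1 h2
    simp only [Bool.false_eq_true, if_false] at h1 h2
    rcases h1 with ⟨⟨h, k, hk, rfl⟩ | ⟨h, -⟩, hne⟩ | ⟨-, k, hk, rfl⟩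
    · exact hne k hk rfl
    · omega
    · rcases h2 with ⟨-, k', hk', h2⟩ | ⟨h3, k', hk', h2⟩
      · exact StripsB_ne hP (by omega) hk' h2
      · have h4 : t = 84 := by omega
        subst h4
        have h5 := StripsB_up hP (t := 84) (by omega)
        have h6 := Ok_bounds hP
        have h7 : P.base 84 = P.H0 + 84 * P.Hs := rfl
        have h8 : P.base 42 = P.H0 + 42 * P.Hs := rfl
        unfold Par.en at h2
        omega
  | true =>
    by_cases e1 : t = 39
    · subst e1
      change ∀ e ∈ P.aliveEvs, isSrc e c = false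
      rw [alive_mid hP] at h1
      rw [show (39 + 1 : ℕ) = 40 from rfl, alive_pre hP] at h2
      rcases h1 with h1 | ⟨j, hj, h1⟩
      · exact circ_rest (alive_CH hP) h1
      · rcases h2 with h2 | ⟨j', hj', h2⟩
        · exact circ_rest (alive_CH hP) h2
        · exact absurd (h1.symm.trans h2) (StripsB_ne hP (by omega) (by omega))
    by_cases e2 : t = 36
    · subst e2
      exact StripsB_pairrest hP (d := 0) (by norm_num) h1 h2
    by_cases e3 : t = 27
    · subst e3
      exact StripsB_pairrest hP (d := 1) (by norm_num) h1 h2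
    by_cases e4 : t = 18
    · subst e4
      exact StripsB_pairrest hP (d := 2) (by norm_num) h1 h2
    by_cases e5 : t = 9
    · subst e5
      exact StripsB_pairrest hP (d := 3) (by norm_num) h1 h2
    rw [strip1_nil e2 e3 e4 e5 e1]
    intro e he
    exact absurd he List.not_mem_nil

end Pool.Agent.MP_fadef1_lc
end

section

/-! The wires at all superbands: one strip. -/

namespace Pool.Agent.MP_fadef1_lc

variable {P : Par} {b : Bool} {t c A : ℕ}

private theorem swc_W' (h : P.ev b A = Ev.non) (c : ℕ) :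
    P.W' b A c = true ↔ P.W b A c = true ∧ c ≠ P.exitc A := by
  have h1 : isSrc Ev.non c = false := by simp [isSrc, Ev.non]
  have h2 : isDst Ev.non c = false := by simp [isDst, Ev.non]
  simp [Par.W', h, h1, h2]

private theorem swc_succ (A c : ℕ) : P.W b (A + 1) c = true ↔
    P.W' b A c = true ∨ (P.entry b (A + 1) = true ∧ c = P.entc (A + 1)) := by
  have h : P.W b (A + 1) c =
      (P.W' b A c || (P.entry b (A + 1) && decide (c = P.entc (A + 1)))) := rfl
  rw [h]
  simp

private theorem swc_a (hP : P.Ok) (ht : t ≤ 84)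
    (h : ∀ c, P.W' b (P.base t - 1) c = true ↔ P.pre b t c) :
    ∀ k < P.N, ∀ c, P.W b (P.base t + k) c = true ↔
    (P.pre b t c ∧ ∀ k' < k, c ≠ P.ex t k') ∨ (entStrip b t = true ∧ ∃ k' ≤ k, c = P.en t k') := by
  obtain ⟨hN, hM, hH, hQ⟩ := Ok_bounds hP
  have hH0 : P.H0 = 2 * P.N + 20 := rfl
  have htH : t * P.Hs ≤ 84 * P.Hs := Nat.mul_le_mul_right _ ht
  intro k
  induction k with
  | zero =>
    intro _ c
    have hb : P.base t - 1 + 1 = P.base t := by
      unfold Par.base
      omega
    have he := entry_strip (b := b) (t := t) hP (k := 0) (by omega)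
    rw [Nat.add_zero] at he
    have h1 : P.entc (P.base t) = P.en t 0 := rfl
    have h2 : decide (0 < P.N) = true := decide_eq_true (by omega)
    rw [Nat.add_zero, ← hb, swc_succ, h, hb, he, h1, h2, Bool.true_and]
    constructor
    · rintro (h3 | ⟨h3, h4⟩)
      · exact Or.inl ⟨h3, fun k' hk' => absurd hk' (by omega)⟩
      · exact Or.inr ⟨h3, 0, le_rfl, h4⟩
    · rintro (h3 | ⟨h3, k', hk', h4⟩)
      · exact Or.inl h3.1
      · have : k' = 0 := by omega
        subst this
        exact Or.inr ⟨h3, h4⟩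
  | succ k ih =>
    intro hk c
    have hev : P.ev b (P.base t + k) = Ev.non := by
      rw [ev_strip hP (by omega), if_pos (by omega)]
    have he := entry_strip (b := b) (t := t) hP (k := k + 1) (by omega)
    have h1 : P.entc (P.base t + (k + 1)) = P.en t (k + 1) := rfl
    have h2 : decide (k + 1 < P.N) = true := decide_eq_true hk
    have h5 : P.exitc (P.base t + k) = P.ex t k := rfl
    rw [← Nat.add_assoc] at he h1 ⊢
    rw [swc_succ, swc_W' hev, ih (by omega), he, h1, h2, Bool.true_and, h5]
    constructor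
    · rintro (⟨⟨h3, h4⟩ | ⟨h3, k', hk', h4⟩, h6⟩ | ⟨h3, h4⟩)
      · refine Or.inl ⟨h3, fun k' hk' => ?_⟩
        rcases Nat.lt_succ_iff_lt_or_eq.1 hk' with h7 | h7
        · exact h4 k' h7
        · rw [h7]
          exact h6
      · exact Or.inr ⟨h3, k', by omega, h4⟩
      · exact Or.inr ⟨h3, k + 1, le_rfl, h4⟩
    · rintro (⟨h3, h4⟩ | ⟨h3, k', hk', h4⟩)
      · exact Or.inl ⟨Or.inl ⟨h3, fun k' hk' => h4 k' (by omega)⟩, h4 k (by omega)⟩
      · rcases Nat.lt_or_ge k k' with h7 | h7
        · have : k' = k + 1 := by omega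
          subst this
          exact Or.inr ⟨h3, h4⟩
        · refine Or.inl ⟨Or.inr ⟨h3, k', h7, h4⟩, ?_⟩
          rw [h4]
          unfold Par.en Par.ex Par.base Par.Q
          omega

private theorem swc_m (hP : P.Ok) (ht : t ≤ 84)
    (h : ∀ c, P.W' b (P.base t - 1) c = true ↔ P.pre b t c) :
    ∀ k, P.N ≤ k → k ≤ P.N + 4 → ∀ c, P.W b (P.base t + k) c = true ↔ P.mid b t c := by
  obtain ⟨hN, hM, hH, hQ⟩ := Ok_bounds hP
  have hH0 : P.H0 = 2 * P.N + 20 := rfl
  have htH : t * P.Hs ≤ 84 * P.Hs := Nat.mul_le_mul_right _ ht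
  intro k hk
  induction k, hk using Nat.le_induction with
  | base =>
    intro _ c
    obtain ⟨m, hm⟩ : ∃ m, P.N = m + 1 := ⟨P.N - 1, by omega⟩
    have hev : P.ev b (P.base t + m) = Ev.non := by
      rw [ev_strip hP (by omega), if_pos (by omega)]
    have he := entry_strip (b := b) (t := t) hP (k := m + 1) (by omega)
    have h2 : decide (m + 1 < P.N) = false := by
      rw [decide_eq_false_iff_not]
      omega
    have h5 : P.exitc (P.base t + m) = P.ex t m := rfl
    have hA : P.base t + P.N = P.base t + m + 1 := by omega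
    rw [← Nat.add_assoc] at he
    rw [hA, swc_succ, swc_W' hev, swc_a hP ht h m (by omega), he, h2, Bool.false_and, h5]
    unfold Par.mid
    constructor
    · rintro (⟨⟨h3, h4⟩ | ⟨h3, k', hk', h4⟩, h6⟩ | ⟨h3, h4⟩)
      · refine Or.inl ⟨h3, fun k' hk' => ?_⟩
        rcases Nat.lt_or_ge k' m with h7 | h7
        · exact h4 k' h7
        · have : k' = m := by omega
          rw [this]
          exact h6
      · exact Or.inr ⟨h3, k', by omega, h4⟩
      · exact absurd h3 (by simp)
    · rintro (⟨h3, h4⟩ | ⟨h3, k', hk', h4⟩)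
      · exact Or.inl ⟨Or.inl ⟨h3, fun k' hk' => h4 k' (by omega)⟩, h4 m (by omega)⟩
      · refine Or.inl ⟨Or.inr ⟨h3, k', by omega, h4⟩, ?_⟩
        rw [h4]
        unfold Par.en Par.ex Par.base Par.Q
        omega
  | succ k hk ih =>
    intro hk' c
    have hev : P.ev b (P.base t + k) = Ev.non := by
      rw [ev_strip hP (by omega), if_pos (by omega)]
    have he := entry_strip (b := b) (t := t) hP (k := k + 1) (by omega)
    have h2 : decide (k + 1 < P.N) = false := by
      rw [decide_eq_false_iff_not]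
      omega
    rw [← Nat.add_assoc] at he ⊢
    rw [swc_succ, swc_W' hev, ih (by omega), he, h2, Bool.false_and]
    constructor
    · rintro (⟨h3, _⟩ | ⟨h3, _⟩)
      · exact h3
      · exact absurd h3 (by simp)
    · intro h3
      refine Or.inl ⟨h3, ?_⟩
      have h4 := mid_hi hP ht h3
      intro h5
      rw [h5] at h4
      unfold Par.exitc Par.base Par.Q at h4
      rw [Nat.add_mul, Nat.one_mul] at h4
      omega

private theorem swc_e (hP : P.Ok) (ht : t ≤ 84)
    (h : ∀ c, P.W' b (P.base t - 1) c = true ↔ P.pre b t c) :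
    ∀ i ≤ (P.strip b t).length, ∀ c, P.W b (P.base t + P.N + 4 + i) c =
    updL ((P.strip b t).take i) (P.W b (P.base t + P.N + 4)) c := by
  obtain ⟨hN, hM, hH, hQ⟩ := Ok_bounds hP
  have hH0 : P.H0 = 2 * P.N + 20 := rfl
  have htH : t * P.Hs ≤ 84 * P.Hs := Nat.mul_le_mul_right _ ht
  have hlen := strip_len hP b t
  have hmid : ∀ c, P.W b (P.base t + P.N + 4) c = true ↔ P.mid b t c := by
    intro c
    have := swc_m hP ht h (P.N + 4) (by omega) le_rfl c
    rwa [← Nat.add_assoc] at this
  have hex := (strip_ex hP ht hmid).1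
  intro i
  induction i with
  | zero =>
    intro _ c
    rfl
  | succ i ih =>
    intro hi c
    have hev : P.ev b (P.base t + P.N + 4 + i) = (P.strip b t).getD i Ev.non := by
      have hA : P.base t + P.N + 4 + i = P.base t + (P.N + 4 + i) := by omega
      have hB : P.N + 4 + i - (P.N + 4) = i := by omega
      rw [hA, ev_strip hP (by omega), if_neg (by omega), hB]
    have he : P.entry b (P.base t + P.N + 4 + i + 1) = false := by
      have hA : P.base t + P.N + 4 + i + 1 = P.base t + (P.N + 4 + i + 1) := by omega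
      have h2 : decide (P.N + 4 + i + 1 < P.N) = false := by
        rw [decide_eq_false_iff_not]
        omega
      rw [hA, entry_strip hP (by omega), h2, Bool.false_and]
    have hexit : P.W b (P.base t + P.N + 4 + i) c = true →
        c ≠ P.exitc (P.base t + P.N + 4 + i) := by
      intro h3 h5
      rw [ih (by omega)] at h3
      rcases updL_bounds hex (by omega) h3 with h4 | ⟨_, h4⟩
      · have h6 := mid_hi hP ht ((hmid c).1 h4)
        rw [h5] at h6
        unfold Par.exitc Par.base Par.Q at h6
        rw [Nat.add_mul, Nat.one_mul] at h6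
        omega
      · rw [h5] at h4
        unfold Par.exitc Par.ex Par.base Par.Q at h4
        rw [Nat.add_mul, Nat.one_mul] at h4
        omega
    rw [updL_take_succ (by omega), ← Nat.add_assoc]
    have h1 : P.W b (P.base t + P.N + 4 + i + 1) c =
        (((P.W b (P.base t + P.N + 4 + i) c && !decide (c = P.exitc (P.base t + P.N + 4 + i)) &&
          !isSrc (P.ev b (P.base t + P.N + 4 + i)) c) ||
          isDst (P.ev b (P.base t + P.N + 4 + i)) c) ||
          (P.entry b (P.base t + P.N + 4 + i + 1) &&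
            decide (c = P.entc (P.base t + P.N + 4 + i + 1)))) := rfl
    rw [h1, he, hev, Bool.false_and, Bool.or_false]
    unfold upd
    rw [← ih (by omega)]
    congr 1
    congr 1
    cases h3 : P.W b (P.base t + P.N + 4 + i) c with
    | false => rfl
    | true =>
      have h4 := hexit h3
      rw [Bool.true_and, decide_eq_false h4]
      rfl

private theorem swc_d (hP : P.Ok) (ht : t ≤ 84)
    (h : ∀ c, P.W' b (P.base t - 1) c = true ↔ P.pre b t c) :
    ∀ k, P.N + 4 + (P.strip b t).length ≤ k → k < P.Hs → ∀ c,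
    P.W b (P.base t + k) c = true ↔ P.pre b (t + 1) c := by
  obtain ⟨hN, hM, hH, hQ⟩ := Ok_bounds hP
  have hH0 : P.H0 = 2 * P.N + 20 := rfl
  have htH : t * P.Hs ≤ 84 * P.Hs := Nat.mul_le_mul_right _ ht
  have hlen := strip_len hP b t
  have hmid : ∀ c, P.W b (P.base t + P.N + 4) c = true ↔ P.mid b t c := by
    intro c
    have := swc_m hP ht h (P.N + 4) (by omega) le_rfl c
    rwa [← Nat.add_assoc] at this
  intro k hk
  induction k, hk using Nat.le_induction with
  | base =>
    intro _ c
    have hA : P.base t + (P.N + 4 + (P.strip b t).length) =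
        P.base t + P.N + 4 + (P.strip b t).length := by omega
    rw [hA, swc_e hP ht h _ le_rfl, List.take_length]
    exact (strip_ex hP ht hmid).2 c
  | succ k hk ih =>
    intro hk' c
    have hev : P.ev b (P.base t + k) = Ev.non := by
      rw [ev_strip hP (by omega), if_neg (by omega)]
      exact List.getD_eq_default _ _ (by omega)
    have he := entry_strip (b := b) (t := t) hP (k := k + 1) (by omega)
    have h2 : decide (k + 1 < P.N) = false := by
      rw [decide_eq_false_iff_not]
      omega
    rw [← Nat.add_assoc] at he ⊢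
    rw [swc_succ, swc_W' hev, ih (by omega), he, h2, Bool.false_and]
    constructor
    · rintro (⟨h3, _⟩ | ⟨h3, _⟩)
      · exact h3
      · exact absurd h3 (by simp)
    · intro h3
      refine Or.inl ⟨h3, ?_⟩
      have h4 := pre_hi hP (by omega) h3
      intro h5
      rw [h5] at h4
      unfold Par.exitc Par.base Par.Q at h4
      rw [Nat.add_mul, Nat.one_mul] at h4
      omega

theorem sw_step (hP : P.Ok) (ht : t ≤ 84)
    (h : ∀ c, P.W' b (P.base t - 1) c = true ↔ P.pre b t c) : SW P b t := by
  obtain ⟨hN, hM, hH, hQ⟩ := Ok_bounds hP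
  have hH0 : P.H0 = 2 * P.N + 20 := rfl
  have htH : t * P.Hs ≤ 84 * P.Hs := Nat.mul_le_mul_right _ ht
  have hlen := strip_len hP b t
  refine ⟨swc_a hP ht h, swc_m hP ht h, swc_e hP ht h, swc_d hP ht h, ?_⟩
  intro c
  have hA : P.base (t + 1) - 1 = P.base t + (P.Hs - 1) := by
    unfold Par.base
    rw [Nat.add_mul, Nat.one_mul]
    omega
  have hev : P.ev b (P.base t + (P.Hs - 1)) = Ev.non := by
    rw [ev_strip hP (by omega), if_neg (by omega)]
    exact List.getD_eq_default _ _ (by omega)
  rw [hA, swc_W' hev, swc_d hP ht h _ (by omega) (by omega)]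
  constructor
  · exact fun h3 => h3.1
  · intro h3
    refine ⟨h3, ?_⟩
    have h4 := pre_hi hP (by omega) h3
    intro h5
    rw [h5] at h4
    unfold Par.exitc Par.base Par.Q at h4
    rw [Nat.add_mul, Nat.one_mul] at h4
    omega

end Pool.Agent.MP_fadef1_lc
end

section

/-! The wires at all superbands. -/

namespace Pool.Agent.MP_fadef1_lc

variable {P : Par} {b : Bool} {t c A : ℕ}

theorem sw_all (hP : P.Ok) (b : Bool) (ht : t ≤ 84) : SW P b t := by
  induction t with
  | zero =>
    refine sw_step hP ht ?_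
    have h : P.base 0 = P.H0 := by
      unfold Par.base
      omega
    rw [h]
    exact (sw_top hP b).2.2
  | succ n ih =>
    refine sw_step hP ht ?_
    exact (ih (by omega)).f

private theorem strip_big (b : Bool) (ht : 85 ≤ t) : P.strip b t = [] := by
  unfold Par.strip
  cases b with
  | true =>
    rw [if_pos rfl, if_neg (by omega), if_neg (by omega), if_neg (by omega), if_neg (by omega),
      if_neg (by omega)]
  | false =>
    rw [if_neg (by decide), if_neg (by omega)]

private theorem entStrip_big (b : Bool) (ht : 85 ≤ t) : entStrip b t = false := by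
  unfold entStrip
  cases b with
  | true =>
    rw [if_pos rfl]
    exact decide_eq_false (by omega)
  | false =>
    rw [if_neg (by decide)]
    exact decide_eq_false (by omega)

private theorem div_big (hP : P.Ok) (h1 : P.base 85 ≤ A) : 85 ≤ (A - P.H0) / P.Hs := by
  obtain ⟨hb1, hb2, hb3, hb4⟩ := Ok_bounds hP
  have hpos : 0 < P.Hs := by omega
  rw [Nat.le_div_iff_mul_le hpos]
  unfold Par.base at h1
  omega

private theorem quiet_aux (hP : P.Ok) (b : Bool) (h1 : P.base 85 ≤ A) :
    P.ev b A = Ev.non ∧ P.entry b A = false ∧ P.zrow b A = false := by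
  have hd := div_big hP h1
  have hge : P.H0 ≤ A := by
    unfold Par.base at h1
    omega
  have hH : P.H0 = 2 * P.N + 20 := rfl
  refine ⟨?_, ?_, ?_⟩
  · unfold Par.ev
    rw [if_neg (by omega), if_neg (by omega), strip_big b hd]
    split_ifs
    · rfl
    · rfl
  · unfold Par.entry
    rw [entStrip_big b hd, Bool.and_false]
  · unfold Par.zrow
    have h : decide ((A - P.H0) / P.Hs = 42) = false := decide_eq_false (by omega)
    rw [h, Bool.and_false]

private theorem pre_last (b : Bool) (c : ℕ) :
    P.pre b 85 c ↔ ∃ k < P.N, c = P.en 42 k := by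
  unfold Par.pre
  cases b with
  | true =>
    rw [if_pos rfl]
    constructor
    · rintro (h | h | h | h | h | h | h)
      · omega
      · omega
      · obtain ⟨d, hd, h1, h2, h3⟩ := h
        omega
      · obtain ⟨d, hd, h1, h2, h3⟩ := h
        omega
      · obtain ⟨d, hd, h1, h2, h3⟩ := h
        omega
      · omega
      · exact h.2
    · intro h
      exact Or.inr (Or.inr (Or.inr (Or.inr (Or.inr (Or.inr ⟨by omega, h⟩)))))
  | false =>
    rw [if_neg (by decide)]
    constructor
    · rintro (h | h)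
      · omega
      · exact h.2
    · intro h
      exact Or.inr ⟨by omega, h⟩

/-- below the strips -/
theorem sw_tail (hP : P.Ok) (b : Bool) (h1 : P.base 85 ≤ A) (h2 : A ≤ P.QQ) (c : ℕ) :
    P.W b A c = true ↔ ∃ k < P.N, c = P.en 42 k := by
  obtain ⟨hb1, hb2, hb3, hb4⟩ := Ok_bounds hP
  induction A, h1 using Nat.le_induction with
  | base =>
    have hpos : 1 ≤ P.base 85 := by
      unfold Par.base Par.H0
      omega
    have hq := quiet_aux hP b (le_refl (P.base 85))
    have hf := (sw_all hP b (le_refl 84)).f c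
    have e : P.base 85 = (P.base (84 + 1) - 1) + 1 := by
      show P.base 85 = (P.base 85 - 1) + 1
      omega
    have hW : P.W b (P.base 85) c = (P.W' b (P.base (84 + 1) - 1) c ||
        (P.entry b (P.base 85) && decide (c = P.entc (P.base 85)))) := by
      conv_lhs => rw [e]
      show _ = _
      rw [Par.W, ← e]
      rfl
    rw [hW, hq.2.1, Bool.false_and, Bool.or_false, hf]
    exact pre_last b c
  | succ A hA ih =>
    have hq := quiet_aux hP b hA
    have hq' := quiet_aux hP b (Nat.le_succ_of_le hA)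
    have ih' := ih (by omega)
    rw [Par.W, hq.1, hq'.2.1, Bool.false_and, Bool.or_false]
    have hs : isSrc Ev.non c = false := rfl
    have hd : isDst Ev.non c = false := rfl
    rw [hs, hd, Bool.or_false, Bool.not_false, Bool.and_true]
    constructor
    · intro h
      rw [Bool.and_eq_true] at h
      exact ih'.1 h.1
    · intro h
      rw [Bool.and_eq_true]
      refine ⟨ih'.2 h, ?_⟩
      obtain ⟨k, hk, rfl⟩ := h
      have hne : P.en 42 k ≠ P.exitc A := by
        unfold Par.en Par.exitc Par.Q
        omega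
      rw [decide_eq_false hne]
      rfl

theorem quiet_tail (hP : P.Ok) (b : Bool) (h1 : P.base 85 ≤ A) :
    P.ev b A = Ev.non ∧ P.entry b A = false ∧ P.zrow b A = false := quiet_aux hP b h1

end Pool.Agent.MP_fadef1_lc
end

section

/-! The pattern is legal: events. -/

namespace Pool.Agent.MP_fadef1_lc

variable {P : Par} {b : Bool} {t A : ℕ}

theorem va_evt (hP : P.Ok) (ht : t ≤ 84) {i : ℕ} (hi : i < (P.strip b t).length) :
    VA P b (P.base t + P.N + 4 + i) := by
  obtain ⟨hN, hM, hHs, hQQ⟩ := Ok_bounds hP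
  have hQ : P.Q = 2 * P.QQ := rfl
  have hH0 : P.H0 = 2 * P.N + 20 := rfl
  have hlen := strip_len hP b t
  have hb : ∀ s, P.base s = P.H0 + s * P.Hs := fun s => rfl
  have hb1 : P.base (t + 1) = P.base t + P.Hs := by rw [hb, hb]; ring
  have hb2 : t * P.Hs ≤ 84 * P.Hs := Nat.mul_le_mul_right _ ht
  have hb3 : P.base t ≤ P.H0 + 84 * P.Hs := by rw [hb]; omega
  have hb4 : P.H0 ≤ P.base t := by rw [hb]; omega
  have hex : P.ex (t + 1) 0 + 1 + 2 * P.base (t + 1) = 2 * P.Q := by
    have h5 : P.ex (t + 1) 0 = 2 * P.Q - 1 - 2 * (P.base (t + 1) + 0) := rfl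
    rw [h5]
    omega
  have hS := sw_all hP b ht
  have hk : P.N + 4 + i < P.Hs := by omega
  have hA1 : P.base t + P.N + 4 + i = P.base t + (P.N + 4 + i) := by omega
  have hA2 : P.base t + P.N + 4 + i + 1 = P.base t + (P.N + 4 + i + 1) := by omega
  have hW1 : ∀ c, P.W b (P.base t + P.N + 4) c = true ↔ P.mid b t c := by
    intro c
    have := hS.m (P.N + 4) (by omega) le_rfl c
    rwa [← Nat.add_assoc] at this
  obtain ⟨hx, -⟩ := strip_ex hP ht hW1
  have hW : P.W b (P.base t + P.N + 4 + i) =
      updL ((P.strip b t).take i) (P.W b (P.base t + P.N + 4)) :=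
    funext fun c => hS.e i hi.le c
  have hev : P.ev b (P.base t + P.N + 4 + i) = (P.strip b t).getD i Ev.non := by
    rw [hA1, ev_strip hP hk, if_neg (by omega)]
    congr 1
    omega
  have hsep : Sep (P.W b (P.base t + P.N + 4)) := by
    intro c c' h h' hlt
    have h1 := mid_odd hP ht ((hW1 c).1 h)
    have h2 := mid_odd hP ht ((hW1 c').1 h')
    omega
  have hbd : ∀ c, P.W b (P.base t + P.N + 4 + i) c = true →
      P.Q ≤ c + 2 * (P.base t + P.N + 4 + i) + 1 ∧ c + 2 * P.base (t + 1) + 1 ≤ 2 * P.Q := by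
    intro c h
    rw [hW] at h
    rcases updL_bounds hx hi.le h with h5 | h5
    · have h6 := (hW1 c).1 h5
      refine ⟨?_, mid_hi hP ht h6⟩
      rcases h6 with ⟨h7, -⟩ | ⟨-, k, hk, rfl⟩
      · have := pre_lo hP (by omega) h7
        omega
      · have h8 : P.en t k = P.Q - 1 - 2 * (P.base t + k) := rfl
        omega
    · omega
  constructor
  · intro c c' h h' hlt
    rw [hW] at h h'
    exact Sep_updL hsep hx i c c' h h' hlt
  · intro c h
    exact (hbd c h).1
  · intro c h
    have := hbd c h
    omega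
  · rw [hev, hW]
    exact (ExOk_get hx hi).1
  · intro _
    rw [hev]
    obtain ⟨-, -, h5, h6⟩ := ExOk_get hx hi
    refine ⟨?_, ?_, ?_, by omega, h5, by omega⟩
    · rw [← Bool.not_eq_true]
      intro h7
      have h8 := hbd _ h7
      have h9 : P.exitc (P.base t + P.N + 4 + i) =
        2 * P.Q - 1 - 2 * (P.base t + P.N + 4 + i) := rfl
      omega
    · rw [hA1, entry_strip hP hk, decide_eq_false (by omega), Bool.false_and]
    · rw [hA2, entry_strip hP (by omega), decide_eq_false (by omega), Bool.false_and]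
  · intro h
    rw [hA1, zrow_strip hP hk, decide_eq_false (p := P.N + 4 + i < P.N) (by omega),
      Bool.and_false, Bool.false_and] at h
    cases h

end Pool.Agent.MP_fadef1_lc
end

section

/-! Paths of lanes through the strips. -/

namespace Pool.Agent.MP_fadef1_lc

variable {P : Par} {D : Data} {b : Bool} {t c A z : ℕ}

theorem ldead_of_lpath {u v : ℕ × ℕ × ℕ} (h : LPath P D b u v) (hv : LDead P D b v) :
    LDead P D b u := by
  obtain ⟨w, hw, h1⟩ := hv
  exact ⟨w, h.trans hw, h1⟩

/-- an untouched wire -/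
theorem lp_rest {n : ℕ} (h : ∀ i < n, A + i < P.QQ ∧ P.W b (A + i) c = true ∧
      isSrc (P.ev b (A + i)) c = false ∧ P.Q ≤ c + 2 * (A + i) ∧ c + 2 * (A + i) + 1 < 2 * P.Q)
    (hZ : ¬ (A = 0 ∧ b = true ∧ c = P.Q + 13)) :
    LPath P D b (A, c, z) (A + n, c, z) := by
  induction n with
  | zero => exact Relation.ReflTransGen.refl
  | succ n ih =>
    refine Relation.ReflTransGen.tail (ih fun i hi => h i (by omega)) ?_
    obtain ⟨h1, h2, h3, h4, h5⟩ := h n (by omega)
    refine ⟨h1, h2, h4, ?_, ?_, rfl, estep_rest h3 z⟩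
    · simp only
      omega
    · rintro ⟨h6, h7, h8⟩
      simp only at h6 h8
      exact hZ ⟨by omega, h7, h8⟩

theorem LPa1_take {es : List Ev} {i : ℕ} (hi : i < es.length) (p : ℕ × ℕ) :
    estepL D (es.take (i + 1)) p =
      (estepL D (es.take i) p).bind (estep D (es.getD i Ev.non)) := by
  have h1 : es.take (i + 1) = es.take i ++ [es.getD i Ev.non] := by
    rw [List.take_succ_eq_append_getElem hi, List.getD_eq_getElem _ _ hi]
  rw [h1, estepL_append]
  congr 1
  funext q
  change (estep D _ q).bind (fun r => some r) = _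
  cases estep D (es.getD i Ev.non) q <;> rfl

theorem LPa1_none {es : List Ev} : ∀ {p : ℕ × ℕ}, estepL D es p = none →
    ∃ i < es.length, ∃ q, estepL D (es.take i) p = some q ∧
      estep D (es.getD i Ev.non) q = none := by
  induction es with
  | nil => intro p h; exact absurd h (by simp [estepL])
  | cons e es ih =>
    intro p h
    rcases h1 : estep D e p with _ | p'
    · exact ⟨0, by simp, p, rfl, by simpa using h1⟩
    · have h2 : estepL D es p' = none := by
        have : estepL D (e :: es) p = (estep D e p).bind (estepL D es) := rfl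
        rw [this, h1] at h
        exact h
      obtain ⟨i, hi, q, hq, hq'⟩ := ih h2
      refine ⟨i + 1, by simpa using hi, q, ?_, by simpa using hq'⟩
      have : estepL D ((e :: es).take (i + 1)) p = (estep D e p).bind (estepL D (es.take i)) := rfl
      rw [this, h1]
      exact hq

/-- a list of events executed at the superbands `A, A + 1, …` -/
structure LPa1_Run (P : Par) (D : Data) (b : Bool) (A : ℕ) (es : List Ev) : Prop where
  ok : ∀ i < es.length, EvOk (P.W b (A + i)) (es.getD i Ev.non)
  ev : ∀ i < es.length, P.ev b (A + i) = es.getD i Ev.non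
  W : ∀ i < es.length, ∀ c, P.W b (A + (i + 1)) c = upd (es.getD i Ev.non) (P.W b (A + i)) c
  bd : ∀ i < es.length, ∀ c, P.W b (A + i) c = true →
    P.Q ≤ c + 2 * (A + i) ∧ c + 2 * (A + i) + 1 ≠ 2 * P.Q
  q : A + es.length ≤ P.QQ
  pos : 0 < A

theorem LPa1_run (hD : D.Ok) {es : List Ev} (hr : LPa1_Run P D b A es) (hc : P.W b A c = true)
    (hz : z < D.w) : ∀ i ≤ es.length, ∀ c' z', estepL D (es.take i) (c, z) = some (c', z') →
      LPath P D b (A, c, z) (A + i, c', z') ∧ P.W b (A + i) c' = true ∧ z' < D.w := by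
  intro i
  induction i with
  | zero =>
    intro _ c' z' h
    have h1 : (c, z) = (c', z') := Option.some.inj h
    obtain ⟨rfl, rfl⟩ := Prod.mk.inj h1
    exact ⟨Relation.ReflTransGen.refl, hc, hz⟩
  | succ i ih =>
    intro hi c' z' h
    have hi' : i < es.length := by omega
    rw [LPa1_take hi'] at h
    rcases h1 : estepL D (es.take i) (c, z) with _ | ⟨c1, z1⟩
    · rw [h1] at h; exact absurd h (by simp)
    · rw [h1] at h
      have h2 : estep D (es.getD i Ev.non) (c1, z1) = some (c', z') := h
      obtain ⟨h3, h4, h5⟩ := ih (by omega) c1 z1 h1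
      obtain ⟨h6, h7⟩ := estep_wire hD (hr.ok i hi') h4 h5 h2
      obtain ⟨h8, h9⟩ := hr.bd i hi' c1 h4
      refine ⟨Relation.ReflTransGen.tail h3 ⟨?_, h4, h8, h9, ?_, rfl, ?_⟩, ?_, h7⟩
      · have := hr.q
        simp only
        omega
      · rintro ⟨h10, -⟩
        have := hr.pos
        simp only at h10
        omega
      · simp only
        rw [hr.ev i hi']
        exact h2
      · rw [hr.W i hi']
        exact h6

theorem LPa1_run_dead (hD : D.Ok) {es : List Ev} (hr : LPa1_Run P D b A es)
    (hc : P.W b A c = true) (hz : z < D.w) (h : estepL D es (c, z) = none) :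
    LDead P D b (A, c, z) := by
  obtain ⟨i, hi, ⟨c1, z1⟩, hq, hq'⟩ := LPa1_none h
  obtain ⟨h3, h4, h5⟩ := LPa1_run hD hr hc hz i hi.le c1 z1 hq
  obtain ⟨h8, h9⟩ := hr.bd i hi c1 h4
  refine ⟨_, h3, ?_, h4, h8, h9, ?_, ?_⟩
  · have := hr.q
    simp only
    omega
  · rintro ⟨h10, -⟩
    have := hr.pos
    simp only at h10
    omega
  · simp only
    rw [hr.ev i hi]
    exact hq'

/-- numerical facts on the superbands -/
theorem LPa1_num (hP : P.Ok) (ht : t ≤ 84) : P.base (t + 1) = P.base t + P.Hs ∧
    P.base (t + 1) ≤ P.QQ ∧ P.H0 ≤ P.base t ∧ 20 ≤ P.H0 ∧ P.Q = 2 * P.QQ := by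
  obtain ⟨h1, h2, h3, h4⟩ := Ok_bounds hP
  have h5 : P.base (t + 1) = P.base t + P.Hs := by
    unfold Par.base
    ring
  have h6 : (t + 1) * P.Hs ≤ 86 * P.Hs := Nat.mul_le_mul_right _ (by omega)
  refine ⟨h5, ?_, ?_, ?_, rfl⟩
  · unfold Par.base
    omega
  · unfold Par.base
    omega
  · unfold Par.H0
    omega

/-- wires of `mid` are right of the left border -/
theorem LPa1_mid_lo (hP : P.Ok) (ht : t ≤ 84) (h : P.mid b t c) :
    P.Q ≤ c + 2 * (P.base t + P.N + 4) := by
  rcases h with ⟨h, -⟩ | ⟨-, k, hk, rfl⟩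
  · have := pre_lo hP (by omega) h
    omega
  · obtain ⟨h1, h2, h3, h4, h5⟩ := LPa1_num hP ht
    obtain ⟨h6, h7, h8, h9⟩ := Ok_bounds hP
    unfold Par.en
    omega

theorem LPa1_strip (hP : P.Ok) (ht : t ≤ 84) :
    LPa1_Run P D b (P.base t + P.N + 4) (P.strip b t) := by
  have hsw := sw_all hP b ht
  have hlen := strip_len hP b t
  obtain ⟨h1, h2, h3, h4, h5⟩ := LPa1_num hP ht
  have hW0 : ∀ c, P.W b (P.base t + P.N + 4) c = true ↔ P.mid b t c := fun c =>
    hsw.m (P.N + 4) (by omega) le_rfl c
  obtain ⟨hx, -⟩ := strip_ex hP ht hW0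
  have hev : ∀ i < (P.strip b t).length,
      P.ev b (P.base t + P.N + 4 + i) = (P.strip b t).getD i Ev.non := by
    intro i hi
    have h6 : P.base t + P.N + 4 + i = P.base t + (P.N + 4 + i) := by ring
    rw [h6, ev_strip hP (by omega), if_neg (by omega)]
    congr 1
    omega
  have hWi : ∀ i ≤ (P.strip b t).length, P.W b (P.base t + P.N + 4 + i) =
      updL ((P.strip b t).take i) (P.W b (P.base t + P.N + 4)) := fun i hi =>
    funext fun c => hsw.e i hi c
  refine ⟨fun i hi => ?_, hev, fun i hi c => ?_, fun i hi c hc => ?_, by omega, by omega⟩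
  · rw [hWi i hi.le]
    exact (ExOk_get hx hi).1
  · rw [hWi (i + 1) hi, updL_take_succ hi, hWi i hi.le]
  · constructor
    · rw [hWi i hi.le] at hc
      rcases updL_bounds hx hi.le hc with h6 | h6
      · have := LPa1_mid_lo hP ht ((hW0 c).1 h6)
        omega
      · omega
    · intro h6
      have hV := va_evt (b := b) hP ht hi
      have h7 := (hV.quiet (by rw [hev i hi]; exact (ExOk_get hx hi).2.1)).1
      have h8 : P.exitc (P.base t + P.N + 4 + i) = c := by
        unfold Par.exitc
        omega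
      rw [h8, hc] at h7
      exact absurd h7 (by simp)

/-- the events of strip `t` -/
theorem lp_events (hP : P.Ok) (hD : D.Ok) (ht : t ≤ 84) (hc : P.mid b t c) (hz : z < D.w)
    {c' z' : ℕ} (h : estepL D (P.strip b t) (c, z) = some (c', z')) :
    LPath P D b (P.base t + P.N + 4, c, z) (P.base (t + 1), c', z') := by
  have hsw := sw_all hP b ht
  have hlen := strip_len hP b t
  obtain ⟨h1, h2, h3, h4, h5⟩ := LPa1_num hP ht
  have hW0 : ∀ c, P.W b (P.base t + P.N + 4) c = true ↔ P.mid b t c := fun c =>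
    hsw.m (P.N + 4) (by omega) le_rfl c
  obtain ⟨hx, -⟩ := strip_ex hP ht hW0
  have hr := LPa1_strip (D := D) (b := b) hP ht
  obtain ⟨h6, h7, h8⟩ := LPa1_run hD hr ((hW0 c).2 hc) hz (P.strip b t).length le_rfl c' z'
    (by rw [List.take_length]; exact h)
  have h9 : P.base t + P.N + 4 + (P.strip b t).length =
      P.base t + (P.N + 4 + (P.strip b t).length) := by ring
  have hpre : P.pre b (t + 1) c' := by
    rw [h9] at h7
    exact (hsw.d _ le_rfl (by omega) c').1 h7
  have hlo : P.Q ≤ c' + 2 * (P.base t + P.N + 4 + (P.strip b t).length) := by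
    rw [hsw.e _ le_rfl] at h7
    rcases updL_bounds hx le_rfl h7 with h10 | h10
    · have := LPa1_mid_lo hP ht ((hW0 c').1 h10)
      omega
    · omega
  have hhi := pre_hi hP (by omega) hpre
  refine h6.trans ?_
  have h11 : P.base (t + 1) = (P.base t + P.N + 4 + (P.strip b t).length) +
      (P.Hs - (P.N + 4 + (P.strip b t).length)) := by omega
  rw [h11]
  refine lp_rest (fun i hi => ⟨by omega, ?_, ?_, by omega, by omega⟩) (by omega)
  · have h12 : P.base t + P.N + 4 + (P.strip b t).length + i =
        P.base t + (P.N + 4 + (P.strip b t).length + i) := by ring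
    rw [h12]
    exact (hsw.d _ (by omega) (by omega) c').2 hpre
  · have h12 : P.base t + P.N + 4 + (P.strip b t).length + i =
        P.base t + (P.N + 4 + (P.strip b t).length + i) := by ring
    rw [h12, ev_strip hP (by omega), if_neg (by omega), List.getD_eq_default _ _ (by omega)]
    rfl

theorem lp_events_dead (hP : P.Ok) (hD : D.Ok) (ht : t ≤ 84) (hc : P.mid b t c) (hz : z < D.w)
    (h : estepL D (P.strip b t) (c, z) = none) :
    LDead P D b (P.base t + P.N + 4, c, z) := by
  have hsw := sw_all hP b ht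
  exact LPa1_run_dead hD (LPa1_strip hP ht) ((hsw.m (P.N + 4) (by omega) le_rfl c).2 hc) hz h

end Pool.Agent.MP_fadef1_lc
end

section

/-! The pattern is legal: entries. -/

namespace Pool.Agent.MP_fadef1_lc

variable {P : Par} {b : Bool} {t A : ℕ}

private theorem base_bd (hP : P.Ok) (ht : t ≤ 84) {k : ℕ} (hk : k < P.N + 5) :
    P.base t + k + 50 < P.QQ ∧ P.base t + k + 10 ≤ P.base (t + 1) := by
  obtain ⟨hb1, hb2, hb3, hb4⟩ := Ok_bounds hP
  have h1 : t * P.Hs ≤ 84 * P.Hs := Nat.mul_le_mul_right _ ht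
  have h2 : (t + 1) * P.Hs = t * P.Hs + P.Hs := by ring
  unfold Par.base
  omega

private theorem va_nonsep (hP : P.Ok) (ht : t ≤ 84) {k : ℕ} (hk : k < P.N + 4) (c : ℕ)
    (h : P.W b (P.base t + k) c = true) :
    c % 2 = 1 ∧ P.Q ≤ c + 2 * (P.base t + k) + 1 ∧
      c + 2 * (P.base t + k) + 1 ≤ 2 * P.Q := by
  obtain ⟨hb1, hb2, hb3, hb4⟩ := Ok_bounds hP
  have hB := base_bd hP ht (show k < P.N + 5 by omega)
  have hS := sw_all hP b ht
  have hQ : P.Q = 2 * P.QQ := rfl
  by_cases hkN : k < P.N
  · rcases (hS.a k hkN c).1 h with h1 | h1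
    · obtain ⟨hp, hx⟩ := h1
      refine ⟨pre_odd hP (by omega) hp, ?_, ?_⟩
      · have := pre_lo hP (by omega) hp
        omega
      · by_cases hex : ∀ k' < P.N, c ≠ P.ex t k'
        · have := pre_hi' hP ht hp hex
          omega
        · push Not at hex
          obtain ⟨k', hk', rfl⟩ := hex
          have hkk : ¬ (k' < k) := fun hlt => hx k' hlt rfl
          unfold Par.ex
          omega
    · obtain ⟨he, k', hk', rfl⟩ := h1
      unfold Par.en
      refine ⟨by omega, by omega, by omega⟩
  · have hm := (hS.m k (by omega) (by omega) c).1 h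
    refine ⟨mid_odd hP ht hm, ?_, ?_⟩
    · rcases hm with h1 | h1
      · have := pre_lo hP (by omega) h1.1
        omega
      · obtain ⟨he, k', hk', rfl⟩ := h1
        unfold Par.en
        omega
    · have := mid_hi hP ht hm
      omega

theorem va_ent (hP : P.Ok) (ht : t ≤ 84) {k : ℕ} (hk : k < P.N + 4) :
    VA P b (P.base t + k) := by
  obtain ⟨hb1, hb2, hb3, hb4⟩ := Ok_bounds hP
  have hHs : k < P.Hs := by omega
  have hev : P.ev b (P.base t + k) = Ev.non := by
    rw [ev_strip hP hHs, if_pos hk]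
  have hQ : P.Q = 2 * P.QQ := rfl
  have ht0 : (P.ev b (P.base t + k)).t = 0 := by
    rw [hev]
    rfl
  refine ⟨?_, ?_, ?_, ?_, ?_, ?_⟩
  · intro c c' h h' hlt
    have h1 := va_nonsep hP ht hk c h
    have h2 := va_nonsep hP ht hk c' h'
    omega
  · intro c h
    have h1 := va_nonsep hP ht hk c h
    omega
  · intro c h
    have h1 := va_nonsep hP ht hk c h
    omega
  · refine ⟨by omega, ?_, ?_, ?_, ?_, ?_⟩
    · intro h
      omega
    · intro h
      omega
    · intro h
      omega
    · intro h
      omega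
    · intro h
      omega
  · intro h
    exact absurd ht0 h
  · intro h
    refine ⟨?_, ht0⟩
    rw [zrow_strip hP hHs] at h
    simp only [Bool.and_eq_true, Bool.not_eq_true', decide_eq_true_eq] at h
    obtain ⟨⟨hbf, hkN⟩, ht42⟩ := h
    subst hbf
    subst ht42
    intro c
    rw [Bool.eq_false_iff]
    intro hW
    rcases ((sw_all hP false ht).a k hkN c).1 hW with h1 | h1
    · have hp := h1.1
      unfold Par.pre at hp
      rw [if_neg (by decide)] at hp
      omega
    · have he := h1.1
      exact absurd he (by decide)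

end Pool.Agent.MP_fadef1_lc
end

section

/-! Ring condition: the row 0 of the blocks of type 1. -/

namespace Pool.Agent.MP_fadef1_lc

variable {P : Par} {i j bi bj : ℕ}

private theorem loc_one (hP : P.Ok) (hi : i < P.K) (hj : j < P.K)
    (h : P.bx (P.arr bi bj) i (j + P.K - i - 1) = true) :
    P.rk (bi * P.K + i, bj * P.K + j) = 0 := by
  rw [rk_loc hP hi hj, if_pos h]

private theorem loc_arr (hP : P.Ok) (bi bj : ℕ) (hi : i < P.K) (hj : j < P.K) :
    P.arr (bi * P.K + i) (bj * P.K + j) = P.bx (P.arr bi bj) i (j + P.K - i - 1) :=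
  arr_loc hP bi bj hi hj

private theorem loc_s (hP : P.Ok) (hi : i < P.K) (hj : j < P.K)
    (h : P.bx (P.arr bi bj) i (j + P.K - i - 1) = false) {p : Pos} {t : ℕ}
    (hc : P.cls (P.arr bi bj) (bi * P.K + i) (bj * P.K + j) i j = Cl.s p t) :
    P.rk (bi * P.K + i, bj * P.K + j) = 7 * P.K + 10 + 2 * rem data0 P.arr p + t := by
  rw [rk_loc hP hi hj, h, hc]
  rfl

private theorem loc_j (hP : P.Ok) (hi : i < P.K) (hj : j < P.K)
    (h : P.bx (P.arr bi bj) i (j + P.K - i - 1) = false)
    (hc : P.cls (P.arr bi bj) (bi * P.K + i) (bj * P.K + j) i j = Cl.j) :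
    P.rk (bi * P.K + i, bj * P.K + j) = 1 + (3 * P.K - (i + 2 * j)) := by
  rw [rk_loc hP hi hj, h, hc]
  rfl

private theorem zr0 (b : Bool) : P.zrow b (0 / 6) = false := by
  have h0 : ¬ P.H0 ≤ 0 / 6 := by unfold Par.H0; omega
  unfold Par.zrow
  rw [decide_eq_false h0, Bool.and_false, Bool.false_and, Bool.false_and]

private theorem bx1 {b : Bool} {i x : ℕ} (hr : i % 6 = 1) :
    P.bx b i x = !decide (x % 3 = 0) := by
  unfold Par.bx
  rw [if_neg (by omega), if_pos hr]

private theorem bx5 {b : Bool} {i x : ℕ} (hr : i % 6 = 5) :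
    P.bx b i x = if x % 3 = 0 then !P.cl4 b (i / 6) (x / 3) else true := by
  unfold Par.bx
  rw [if_neg (by omega), if_neg (by omega), if_neg (by omega), if_neg (by omega),
    if_neg (by omega)]

/-- the wires of superband `0` near the left border -/
private theorem W00 (hP : P.Ok) {b : Bool} {c : ℕ} (hc : c ≤ P.Q + 20) (h : P.W b 0 c = true) :
    b = true ∧ c = P.Q + 13 := by
  have hW0 : P.W b 0 c = P.W0 b c := rfl
  rw [hW0] at h
  unfold Par.W0 at h
  rw [Bool.or_eq_true, List.any_eq_true, Bool.and_eq_true] at h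
  rcases h with ⟨k, hk, h⟩ | ⟨h1, h2⟩
  · have h := of_decide_eq_true h
    have hk := List.mem_range.mp hk
    have h1 := hP.hQQ P.cE (by simp)
    have h2 := hP.hHs P.cE (by simp)
    have h4 : P.base 42 = P.H0 + 42 * P.Hs := rfl
    have hQ : P.Q = 2 * P.QQ := rfl
    unfold Par.ex at h
    generalize (P.cE.length + 2) * (20 * P.M + 30) = x at h1
    generalize (P.cE.length + 2) * (3 * P.M + 3) = y at h2
    omega
  · exact ⟨h1, of_decide_eq_true h2⟩

private theorem ev0 (b : Bool) : P.ev b 0 = Ev.non := by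
  unfold Par.ev
  rw [if_pos (by norm_num)]

/-- no wires at the bottom near the left border -/
private theorem bottom (hP : P.Ok) {b : Bool} {c : ℕ} (hc : c ≤ 40) :
    P.cl4 b (P.QQ - 1) c = false := by
  rw [Bool.eq_false_iff]
  intro h
  have hQQ : 0 < P.QQ := by
    have := K_pos hP
    have hK : P.K = 6 * P.QQ := rfl
    omega
  obtain ⟨h1, h2, h3, h4⟩ := Ok_bounds hP
  have hW' : P.W' b (P.QQ - 1) c = true := by
    unfold Par.cl4 at h
    rw [Bool.and_eq_true] at h
    exact h.1
  have hW : P.W b P.QQ c = true := by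
    have e : P.QQ = P.QQ - 1 + 1 := by omega
    rw [e]
    change (P.W' b (P.QQ - 1) c || (P.entry b (P.QQ - 1 + 1) &&
      decide (c = P.entc (P.QQ - 1 + 1)))) = true
    rw [hW', Bool.true_or]
  have hb : P.base 85 ≤ P.QQ := by
    unfold Par.base
    omega
  obtain ⟨k, hk, hc'⟩ := (sw_tail hP b hb le_rfl c).1 hW
  have hQ : P.Q = 2 * P.QQ := rfl
  unfold Par.en Par.base at hc'
  omega

/-- the row above -/
private theorem above (hP : P.Ok) {bi bj j : ℕ} (hj : j ≤ 43) :
    P.rk ((bi + 1) * P.K + 0 - 1, bj * P.K + j) = 0 := by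
  have hK : P.K = 6 * P.QQ := rfl
  have hKp := K_pos hP
  have hsl : (bi + 1) * P.K = bi * P.K + P.K := Nat.succ_mul _ _
  rw [show (bi + 1) * P.K + 0 - 1 = bi * P.K + (P.K - 1) by omega]
  refine loc_one hP (by omega) (by omega) ?_
  rw [bx5 (by omega)]
  by_cases h3 : (j + P.K - (P.K - 1) - 1) % 3 = 0
  · rw [if_pos h3, show (P.K - 1) / 6 = P.QQ - 1 by omega, bottom hP (by omega)]
    rfl
  · rw [if_neg h3]

/-- the zeros in the columns `1, …, 42` of row `0`. Columns `1..40`: chain (left neighbour
higher or the cell `(0,0)`, all others lower); `41`: junk: `(0,40)` and `(1,41)` higher, `(0,42)` lower;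
`42`: junk: `(0,41)` and `(1,41)` higher. The row above (if there is one) consists of ones near these
columns (bottom wires of a block are far right, `sw_tail`). Use `rc_mk_top` if `bi = 0`. -/
theorem rc_zz (hP : P.Ok) (hf : AllFin P) (hi : i < P.K) (hj : j < P.K)
    (hi0 : i = 0) (hb : (P.arr bi bj) = true) (hj1 : 1 ≤ j) (hj42 : j ≤ 42) :
    RC P (bi * P.K + i) (bj * P.K + j) := by
  subst hi0
  have hK : P.K = 6 * P.QQ := rfl
  have hQ : P.Q = 2 * P.QQ := rfl
  have hKp := K_pos hP
  -- the zeros of row 0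
  have z0 : ∀ j', 1 ≤ j' → j' ≤ 42 → P.bx (P.arr bi bj) 0 (j' + P.K - 0 - 1) = false := by
    intro j' h1 h2
    unfold Par.bx
    rw [if_pos (by norm_num), zr0, if_neg (by decide), if_pos]
    rw [Bool.and_eq_true, decide_eq_true_eq]
    exact ⟨hb, rfl, by omega, by omega⟩
  have c0 : ∀ j', 1 ≤ j' → j' ≤ 40 → P.cls (P.arr bi bj) (bi * P.K + 0) (bj * P.K + j') 0 j' =
      Cl.s ⟨bi * P.K + 0, bj * P.K + j', Lane.L (42 - j') 0⟩ 0 := by
    intro j' h1 h2
    unfold Par.cls
    rw [if_pos (by norm_num), zr0, if_neg (by decide), if_pos ⟨hb, rfl, by omega, by omega⟩,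
      if_pos (by omega), show P.K + 41 - (j' + P.K - 0 - 1) = 42 - j' by omega]
  have cj : ∀ j', 41 ≤ j' → j' ≤ 42 → P.cls (P.arr bi bj) (bi * P.K + 0) (bj * P.K + j') 0 j' =
      Cl.j := by
    intro j' h1 h2
    unfold Par.cls
    rw [if_pos (by norm_num), zr0, if_neg (by decide), if_pos ⟨hb, rfl, by omega, by omega⟩,
      if_neg (by omega)]
  have rs : ∀ j', 1 ≤ j' → j' ≤ 40 → P.rk (bi * P.K + 0, bj * P.K + j') = 7 * P.K + 10 +
      2 * rem data0 P.arr ⟨bi * P.K + 0, bj * P.K + j', Lane.L (42 - j') 0⟩ + 0 := fun j' h1 h2 =>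
    loc_s hP hi (by omega) (z0 j' h1 (by omega)) (c0 j' h1 h2)
  have rj : ∀ j', 41 ≤ j' → j' ≤ 42 → P.rk (bi * P.K + 0, bj * P.K + j') =
      1 + (3 * P.K - (0 + 2 * j')) := fun j' h1 h2 =>
    loc_j hP hi (by omega) (z0 j' (by omega) h2) (cj j' h1 h2)
  have a0 : ∀ j', 1 ≤ j' → j' ≤ 42 → P.arr (bi * P.K + 0) (bj * P.K + j') = false := by
    intro j' h1 h2
    rw [loc_arr hP bi bj hi (by omega)]
    exact z0 j' h1 h2
  -- the other cells of row 0
  have r00 : P.rk (bi * P.K + 0, bj * P.K + 0) = 0 := by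
    refine loc_one hP hi (by omega) ?_
    unfold Par.bx
    rw [if_pos (by norm_num), zr0, if_neg (by decide), if_neg, if_neg (by omega)]
    rw [Bool.and_eq_true, decide_eq_true_eq]
    omega
  have r43 : P.rk (bi * P.K + 0, bj * P.K + 43) = 0 := by
    refine loc_one hP hi (by omega) ?_
    unfold Par.bx
    rw [if_pos (by norm_num), zr0, if_neg (by decide), if_neg, if_pos (by omega)]
    · have : P.cl (P.arr bi bj) (0 / 6) ((43 + P.K - 0 - 1) / 3) = false := by
        rw [Bool.eq_false_iff]
        intro h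
        have hW : P.W (P.arr bi bj) 0 ((43 + P.K - 0 - 1) / 3) = true := by
          unfold Par.cl at h
          rw [Bool.and_eq_true] at h
          exact h.1
        have := (W00 hP (by omega) hW).2
        omega
      rw [this]
      rfl
    · rw [Bool.and_eq_true, decide_eq_true_eq]
      omega
  -- row 1
  have r1 : ∀ j', j' ≤ 43 → j' % 3 ≠ 2 → P.rk (bi * P.K + 1, bj * P.K + j') = 0 := by
    intro j' h1 h2
    refine loc_one hP (by omega) (by omega) ?_
    rw [bx1 (by norm_num), decide_eq_false (by omega)]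
    rfl
  have r1j : ∀ j', j' ≤ 40 → P.rk (bi * P.K + 1, bj * P.K + j') ≤ 3 * P.K + 1 := by
    intro j' h1
    by_cases h2 : j' % 3 = 2
    · have hb1 : P.bx (P.arr bi bj) 1 (j' + P.K - 1 - 1) = false := by
        rw [bx1 (by norm_num), decide_eq_true (by omega)]
        rfl
      have hcl : P.cl (P.arr bi bj) (1 / 6) ((j' + P.K - 1 - 1) / 3) = false := by
        rw [Bool.eq_false_iff]
        intro h
        have hW : P.W (P.arr bi bj) 0 ((j' + P.K - 1 - 1) / 3) = true := by
          unfold Par.cl at h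
          rw [Bool.and_eq_true] at h
          exact h.1
        have := (W00 hP (by omega) hW).2
        omega
      have := loc_j hP (i := 1) (j := j') (by omega) (by omega) hb1 (by
        unfold Par.cls
        rw [if_neg (by norm_num), if_pos (by norm_num), if_neg (by omega), if_neg (by
          rw [hcl]; decide), if_neg (by
          rw [show 1 / 6 = 0 by norm_num, ev0]
          rintro ⟨h | h, _⟩ <;> exact absurd h (by decide))])
      omega
    · rw [r1 j' (by omega) h2]
      omega
  have hcl41 : P.cl (P.arr bi bj) (1 / 6) ((41 + P.K - 1 - 1) / 3) = true := by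
    have e : (41 + P.K - 1 - 1) / 3 = P.Q + 13 := by omega
    rw [e, show 1 / 6 = 0 by norm_num]
    unfold Par.cl
    rw [ev0]
    have hW0 : P.W (P.arr bi bj) 0 (P.Q + 13) = P.W0 (P.arr bi bj) (P.Q + 13) := rfl
    rw [hW0]
    unfold Par.W0
    rw [hb, decide_eq_true (rfl : P.Q + 13 = P.Q + 13), Bool.and_self, Bool.or_true]
    rfl
  have r141 : P.rk (bi * P.K + 1, bj * P.K + 41) = 7 * P.K + 10 +
      2 * rem data0 P.arr ⟨bi * P.K + 1, bj * P.K + 41 + 1, Lane.T 0⟩ + 0 := by
    refine loc_s hP (by omega) (by omega) ?_ ?_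
    · rw [bx1 (by norm_num), decide_eq_true (by omega)]
      rfl
    · unfold Par.cls
      rw [if_neg (by norm_num), if_pos (by norm_num), if_neg (by omega), if_pos hcl41]
  -- the cells right, below right, below, below left, left
  have q2 : P.rk (bi * P.K + 0, bj * P.K + j + 1) < P.rk (bi * P.K + 0, bj * P.K + j) := by
    rw [show bj * P.K + j + 1 = bj * P.K + (j + 1) by omega]
    by_cases h40 : j ≤ 39
    · have e1 := rs j hj1 (by omega)
      have e2 := rs (j + 1) (by omega) (by omega)
      have e3 := rem_Lg hf (g := 42 - j) (a0 j hj1 hj42) (by omega) (by omega) (by omega) (by omega)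
      rw [show 42 - j - 1 = 42 - (j + 1) by omega,
        show bj * P.K + j + 1 = bj * P.K + (j + 1) by omega] at e3
      omega
    · rcases (show j = 40 ∨ j = 41 ∨ j = 42 by omega) with rfl | rfl | rfl
      · rw [rs 40 (by norm_num) (by norm_num), rj 41 (by norm_num) (by norm_num)]
        omega
      · rw [rj 41 (by norm_num) (by norm_num), rj 42 (by norm_num) (by norm_num)]
        omega
      · rw [rj 42 (by norm_num) (by norm_num), r43]
        omega
  have hbig : j ≤ 40 → 7 * P.K + 10 ≤ P.rk (bi * P.K + 0, bj * P.K + j) := by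
    intro h
    rw [rs j hj1 h]
    omega
  have hpos : 0 < P.rk (bi * P.K + 0, bj * P.K + j) := by
    by_cases h40 : j ≤ 40
    · have := hbig h40
      omega
    · rw [rj j (by omega) hj42]
      omega
  have q3 : P.rk (bi * P.K + 0 + 1, bj * P.K + j + 1) < P.rk (bi * P.K + 0, bj * P.K + j) := by
    rw [show bj * P.K + j + 1 = bj * P.K + (j + 1) by omega,
      show bi * P.K + 0 + 1 = bi * P.K + 1 by omega]
    by_cases h40 : j ≤ 39
    · have := hbig (by omega)
      have := r1j (j + 1) (by omega)
      omega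
    · rcases (show j = 40 ∨ j = 41 ∨ j = 42 by omega) with rfl | rfl | rfl
      · have e1 := rs 40 (by norm_num) (by norm_num)
        have e3 := rem_Lg hf (g := 2) (a0 40 hj1 hj42) (by omega) (by omega) (by omega) (by omega)
        have e4 := rem_Lg hf (g := 1) (J := bj * P.K + 40 + 1) (I := bi * P.K + 0)
          (a0 41 (by norm_num) (by norm_num)) (by omega) (by omega) (by omega) (by omega)
        have e5 := rem_Lz hf (J := bj * P.K + 40 + 1 + 1) (I := bi * P.K + 0)
          (a0 42 (by norm_num) (by norm_num))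
        rw [show bi * P.K + 0 + 1 = bi * P.K + 1 by omega] at e5
        rw [show (40 + 1 : ℕ) = 41 by norm_num, r141, e1,
          show bj * P.K + 41 + 1 = bj * P.K + 40 + 1 + 1 by omega]
        simp only [show (42 - 40 : ℕ) = 2 by norm_num]
        simp only [show (2 - 1 : ℕ) = 1 by norm_num] at e3
        simp only [show (1 - 1 : ℕ) = 0 by norm_num] at e4
        omega
      · rw [r1 42 (by norm_num) (by norm_num)]
        exact hpos
      · rw [r1 43 (by norm_num) (by norm_num)]
        exact hpos
  have q4 : j ≠ 41 → P.rk (bi * P.K + 0 + 1, bj * P.K + j) < P.rk (bi * P.K + 0, bj * P.K + j) := by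
    intro hne
    rw [show bi * P.K + 0 + 1 = bi * P.K + 1 by omega]
    by_cases h40 : j ≤ 40
    · have := hbig (by omega)
      have := r1j j (by omega)
      omega
    · rw [r1 j (by omega) (by omega)]
      exact hpos
  have q5 : j ≠ 42 → P.rk (bi * P.K + 0 + 1, bj * P.K + j - 1) <
      P.rk (bi * P.K + 0, bj * P.K + j) := by
    intro hne
    rw [show bi * P.K + 0 + 1 = bi * P.K + 1 by omega,
      show bj * P.K + j - 1 = bj * P.K + (j - 1) by omega]
    by_cases h40 : j ≤ 40
    · have := hbig (by omega)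
      have := r1j (j - 1) (by omega)
      omega
    · rw [r1 (j - 1) (by omega) (by omega)]
      exact hpos
  have q6 : j ≠ 1 → P.rk (bi * P.K + 0, bj * P.K + j) <
      P.rk (bi * P.K + 0, bj * P.K + j - 1) := by
    intro hne
    rw [show bj * P.K + j - 1 = bj * P.K + (j - 1) by omega]
    by_cases h40 : j ≤ 40
    · have e1 := rs j hj1 (by omega)
      have e2 := rs (j - 1) (by omega) (by omega)
      have e3 := rem_Lg hf (g := 42 - (j - 1)) (a0 (j - 1) (by omega) (by omega)) (by omega)
        (by omega) (by omega) (by omega)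
      rw [show 42 - (j - 1) - 1 = 42 - j by omega,
        show bj * P.K + (j - 1) + 1 = bj * P.K + j by omega] at e3
      omega
    · rcases (show j = 41 ∨ j = 42 by omega) with rfl | rfl
      · rw [rj 41 (by norm_num) (by norm_num), rs (41 - 1) (by norm_num) (by norm_num)]
        omega
      · rw [rj 42 (by norm_num) (by norm_num), rj (42 - 1) (by norm_num) (by norm_num)]
        omega
  have q61 : j = 1 → P.rk (bi * P.K + 0, bj * P.K + j - 1) = 0 := by
    rintro rfl
    rw [show bj * P.K + 1 - 1 = bj * P.K + 0 by omega]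
    exact r00
  have q41 : j = 41 → P.rk (bi * P.K + 0, bj * P.K + j) <
      P.rk (bi * P.K + 0 + 1, bj * P.K + j) := by
    rintro rfl
    rw [show bi * P.K + 0 + 1 = bi * P.K + 1 by omega, r141, rj 41 (by norm_num) (by norm_num)]
    omega
  have q51 : j = 42 → P.rk (bi * P.K + 0, bj * P.K + j) <
      P.rk (bi * P.K + 0 + 1, bj * P.K + j - 1) := by
    rintro rfl
    rw [show bi * P.K + 0 + 1 = bi * P.K + 1 by omega,
      show bj * P.K + 42 - 1 = bj * P.K + 41 by omega, r141, rj 42 (by norm_num) (by norm_num)]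
    omega
  by_cases hbi : 1 ≤ bi
  · obtain ⟨bl, rfl⟩ : ∃ bl, bi = bl + 1 := ⟨bi - 1, by omega⟩
    have p0 : P.rk ((bl + 1) * P.K + 0 - 1, bj * P.K + j) = 0 := above hP (by omega)
    have p1 : P.rk ((bl + 1) * P.K + 0 - 1, bj * P.K + j + 1) = 0 := above hP (j := j + 1) (by omega)
    have p7 : P.rk ((bl + 1) * P.K + 0 - 1, bj * P.K + j - 1) = 0 := by
      rw [show bj * P.K + j - 1 = bj * P.K + (j - 1) by omega]
      exact above hP (by omega)
    have hI : 1 ≤ (bl + 1) * P.K + 0 := by
      have hsl : (bl + 1) * P.K = bl * P.K + P.K := Nat.succ_mul _ _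
      omega
    by_cases h1 : j = 1
    · refine rc_mk hI (by omega) ![0, 0, 0, 0, 0, 0, 0, 0] (by decide) (by decide)
        ?_ ?_ ?_ ?_ ?_ ?_ ?_ ?_
      all_goals refine ⟨fun h0 => ?_, fun h0 => ?_⟩
      all_goals first | exact absurd h0 (by decide) | skip
      · rw [p0]; exact hpos
      · rw [p1]; exact hpos
      · exact q2
      · exact q3
      · exact q4 (by omega)
      · exact q5 (by omega)
      · rw [q61 h1]; exact hpos
      · rw [p7]; exact hpos
    · by_cases h41 : j = 41
      · refine rc_mk hI (by omega) ![0, 0, 0, 0, 2, 1, 2, 0] (by decide) (by decide)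
          ?_ ?_ ?_ ?_ ?_ ?_ ?_ ?_
        all_goals refine ⟨fun h0 => ?_, fun h0 => ?_⟩
        all_goals first | exact absurd h0 (by decide) | skip
        · rw [p0]; exact hpos
        · rw [p1]; exact hpos
        · exact q2
        · exact q3
        · exact q41 h41
        · exact q6 h1
        · rw [p7]; exact hpos
      · by_cases h42 : j = 42
        · refine rc_mk hI (by omega) ![0, 0, 0, 0, 0, 2, 2, 0] (by decide) (by decide)
            ?_ ?_ ?_ ?_ ?_ ?_ ?_ ?_
          all_goals refine ⟨fun h0 => ?_, fun h0 => ?_⟩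
          all_goals first | exact absurd h0 (by decide) | skip
          · rw [p0]; exact hpos
          · rw [p1]; exact hpos
          · exact q2
          · exact q3
          · exact q4 h41
          · exact q51 h42
          · exact q6 h1
          · rw [p7]; exact hpos
        · refine rc_mk hI (by omega) ![0, 0, 0, 0, 0, 0, 2, 0] (by decide) (by decide)
            ?_ ?_ ?_ ?_ ?_ ?_ ?_ ?_
          all_goals refine ⟨fun h0 => ?_, fun h0 => ?_⟩
          all_goals first | exact absurd h0 (by decide) | skip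
          · rw [p0]; exact hpos
          · rw [p1]; exact hpos
          · exact q2
          · exact q3
          · exact q4 h41
          · exact q5 h42
          · exact q6 h1
          · rw [p7]; exact hpos
  · have hbi0 : bi = 0 := by omega
    subst hbi0
    by_cases h1 : j = 1
    · refine rc_mk_top (by omega) (by omega) ![2, 2, 0, 0, 0, 0, 0, 2] (by decide) (by decide)
        rfl rfl rfl ?_ ?_ ?_ ?_ ?_
      all_goals refine ⟨fun h0 => ?_, fun h0 => ?_⟩
      all_goals first | exact absurd h0 (by decide) | skip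
      · exact q2
      · exact q3
      · exact q4 (by omega)
      · exact q5 (by omega)
      · rw [q61 h1]; exact hpos
    · by_cases h41 : j = 41
      · refine rc_mk_top (by omega) (by omega) ![2, 2, 0, 0, 2, 1, 2, 2] (by decide) (by decide)
          rfl rfl rfl ?_ ?_ ?_ ?_ ?_
        all_goals refine ⟨fun h0 => ?_, fun h0 => ?_⟩
        all_goals first | exact absurd h0 (by decide) | skip
        · exact q2
        · exact q3
        · exact q41 h41
        · exact q6 h1
      · by_cases h42 : j = 42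
        · refine rc_mk_top (by omega) (by omega) ![2, 2, 0, 0, 0, 2, 2, 2] (by decide) (by decide)
            rfl rfl rfl ?_ ?_ ?_ ?_ ?_
          all_goals refine ⟨fun h0 => ?_, fun h0 => ?_⟩
          all_goals first | exact absurd h0 (by decide) | skip
          · exact q2
          · exact q3
          · exact q4 h41
          · exact q51 h42
          · exact q6 h1
        · refine rc_mk_top (by omega) (by omega) ![2, 2, 0, 0, 0, 0, 2, 2] (by decide) (by decide)
            rfl rfl rfl ?_ ?_ ?_ ?_ ?_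
          all_goals refine ⟨fun h0 => ?_, fun h0 => ?_⟩
          all_goals first | exact absurd h0 (by decide) | skip
          · exact q2
          · exact q3
          · exact q4 h41
          · exact q5 h42
          · exact q6 h1

end Pool.Agent.MP_fadef1_lc
end
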