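import Pool.Agent.Lib.MP_fadef1_lc.Mg.G019
import Pool.Agent.Lib.MP_fadef1_lc.Sys
import Pool.Agent.Lib.MP_fadef1_lc.Circ
import Pool.Agent.Lib.MP_fadef1_lc.II.Val
import Pool.Agent.Lib.MP_fadef1_lc.TMDef

section

namespace Pool.Agent.MP_fadef1_lc

private def pass1P (d lo n : ℕ) : List Layer :=
  (List.range n).reverse.map (fun k => Layer.gate d (lo + k))

private theorem pass1P_succ (d lo n : ℕ) :
    pass1P d lo (n + 1) = Layer.gate d (lo + n) :: pass1P d lo n := by
  simp [pass1P, List.range_succ]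

private theorem pass1_gate (D : Data) (d b a z : ℕ) :
    evalL D (Layer.gate d b) (a, z) =
      if a = b then (D.g d (0, z)).map fun s => (b + s.1, s.2)
      else if a = b + 1 then (D.g d (1, z)).map fun s => (b + s.1, s.2)
      else some (a, z) := rfl

private theorem pass1_gate_out (D : Data) (d b : ℕ) {a : ℕ} (z : ℕ) (h : a ≠ b ∧ a ≠ b + 1) :
    evalL D (Layer.gate d b) (a, z) = some (a, z) := by
  rw [pass1_gate, if_neg h.1, if_neg h.2]

private theorem pass1P_out (D : Data) (d lo n : ℕ) {a : ℕ} (z : ℕ) (h : a < lo ∨ lo + n < a) :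
    evalC D (pass1P d lo n) (a, z) = some (a, z) := by
  induction n with
  | zero => simp [pass1P, evalC]
  | succ n ih =>
    rw [pass1P_succ]
    simp only [evalC]
    rw [pass1_gate_out D d (lo + n) z (by omega)]
    exact ih (by omega)

/-- `pass d lo hi` is the list of the gates `(hi-2, hi-1), (hi-3, hi-2), …, (lo, lo+1)` in this
order. A lane outside `[lo,hi)` is not touched. (Induction on the number of gates; every gate of the
list is at `b = lo + k` with `k < hi - 1 - lo`.) -/
theorem pass_out (D : Data) (d : ℕ) {lo hi a : ℕ} (z : ℕ) (h : a < lo ∨ hi ≤ a) :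
    evalC D (pass d lo hi) (a, z) = some (a, z) := by
  by_cases hl : lo + 1 < hi
  · exact pass1P_out D d lo (hi - 1 - lo) z (by omega)
  · have : hi - 1 - lo = 0 := by omega
    simp [pass, this, evalC]

/-- A lane `(a,z)` with `lo ≤ a`, `a + 1 < hi`: the gates `(k,k+1)` with `k > a` do not touch it;
the gate `(a,a+1)` moves it (slot 0) to position `a*w+z+x`, that is `(a, z+x)` if `z + x < w`, else
`(a+1, z+x-w)`; in the first case the next gate `(a-1,a)` (if `lo ≤ a-1`) has it in slot 1 with lane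
`z+x ≥ x`, so it stays; the remaining gates do not touch it; in the second case no later gate
touches it. Suggestion: first prove by induction on `n` the statement for the list
`(List.range n).reverse.map (fun k => Layer.gate d (lo + k))`, with hypothesis `a < lo + n`. -/
theorem pass_eval {D : Data} {d x : ℕ} (hg : D.g d = shG D.w x) (hw : 0 < D.w) (hx : x ≤ D.w)
    {lo hi a z : ℕ} (hz : z < D.w) (hlo : lo ≤ a) (hhi : a + 1 < hi) :
    evalC D (pass d lo hi) (a, z) = some (unp D.w (a * D.w + z + x)) := by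
  have hn : a < lo + (hi - 1 - lo) := by omega
  change evalC D (pass1P d lo (hi - 1 - lo)) (a, z) = _
  generalize hi - 1 - lo = n at hn
  induction n with
  | zero => omega
  | succ n ih =>
    rw [pass1P_succ]
    simp only [evalC]
    by_cases h : a < lo + n
    · rw [pass1_gate_out D d (lo + n) z (by omega)]
      exact ih h
    · have hna : lo + n = a := by omega
      rw [hna, pass1_gate, if_pos rfl, hg]
      simp only [shG, if_true]
      by_cases hzx : z + x < D.w
      · rw [if_pos hzx]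
        simp only [Option.map_some, Option.bind_some, add_zero]
        have hu : unp D.w (a * D.w + z + x) = (a, z + x) := by
          simp only [unp, Prod.mk.injEq]
          rw [add_assoc, mul_comm a D.w]
          rw [Nat.mul_add_div hw, Nat.mul_add_mod, Nat.div_eq_of_lt hzx, Nat.mod_eq_of_lt hzx]
          simp
        rw [hu]
        cases n with
        | zero => simp [pass1P, evalC]
        | succ k =>
          rw [pass1P_succ]
          simp only [evalC]
          have h1 : evalL D (Layer.gate d (lo + k)) (a, z + x) = some (a, z + x) := by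
            rw [pass1_gate, if_neg (show ¬ a = lo + k by omega),
              if_pos (show a = lo + k + 1 by omega), hg]
            simp only [shG, Nat.one_ne_zero, if_false]
            rw [if_neg (show ¬ z + x < x by omega)]
            simp only [Option.map_some, Option.some.injEq, Prod.mk.injEq]
            exact ⟨by omega, trivial⟩
          rw [h1]
          exact pass1P_out D d lo k _ (by omega)
      · rw [if_neg hzx]
        simp only [Option.map_some, Option.bind_some]
        have hu : unp D.w (a * D.w + z + x) = (a + 1, z + x - D.w) := by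
          simp only [unp, Prod.mk.injEq]
          have h2 : a * D.w + z + x = D.w * (a + 1) + (z + x - D.w) := by
            rw [mul_add, mul_comm D.w a]
            omega
          have h3 : z + x - D.w < D.w := by omega
          rw [h2, Nat.mul_add_div hw, Nat.mul_add_mod, Nat.div_eq_of_lt h3, Nat.mod_eq_of_lt h3]
          simp
        rw [hu]
        exact pass1P_out D d lo n _ (by omega)

end Pool.Agent.MP_fadef1_lc
end

section

namespace Pool.Agent.MP_fadef1_lc

variable (S : Sys)

private def LO (M : ℕ) (L : List Layer) : Prop := ∀ l ∈ L, layOk M l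

private theorem lo_app {M : ℕ} {L L' : List Layer} (h : LO M L) (h' : LO M L') :
    LO M (L ++ L') := by
  intro l hl
  rcases List.mem_append.mp hl with hl | hl
  · exact h l hl
  · exact h' l hl

private theorem lo_crep {M : ℕ} {L : List Layer} (n : ℕ) (h : LO M L) : LO M (crep n L) := by
  intro l hl
  rw [crep, List.mem_flatten] at hl
  obtain ⟨c, hc, hlc⟩ := hl
  rw [List.eq_of_mem_replicate hc] at hlc
  exact h l hlc

private theorem lo_inv {M : ℕ} {l : Layer} (h : layOk M l) : layOk M l.inv := by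
  unfold layOk at h
  rcases h with ⟨h0, ha, hb⟩ | ⟨h12, hb⟩
  · left
    have e : l.inv = ⟨0, (if l.a % 2 = 0 then l.a + 1 else l.a - 1), l.b, l.c⟩ := by
      simp [Layer.inv, h0]
    rw [e]
    refine ⟨rfl, ?_, hb⟩
    show (if l.a % 2 = 0 then l.a + 1 else l.a - 1) < 4
    split_ifs with h2 <;> omega
  · right
    rcases h12 with h1 | h2
    · have e : l.inv = ⟨2, l.a, l.b, l.c⟩ := by simp [Layer.inv, h1]
      rw [e]
      exact ⟨Or.inr rfl, hb⟩
    · have e : l.inv = ⟨1, l.a, l.b, l.c⟩ := by simp [Layer.inv, h2]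
      rw [e]
      exact ⟨Or.inl rfl, hb⟩

private theorem lo_cinv {M : ℕ} {L : List Layer} (h : LO M L) : LO M (cinv L) := by
  intro l hl
  rw [cinv, List.mem_reverse, List.mem_map] at hl
  obtain ⟨l', hl', rfl⟩ := hl
  exact lo_inv (h l' hl')

private theorem lo_pass {M d lo hi : ℕ} (hd : d < 4) (h : hi ≤ M) : LO M (pass d lo hi) := by
  intro l hl
  rw [pass, List.mem_map] at hl
  obtain ⟨k, hk, rfl⟩ := hl
  rw [List.mem_reverse, List.mem_range] at hk
  left
  refine ⟨rfl, hd, ?_⟩
  show lo + k + 1 < M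
  omega

private theorem lo_up {M lo hi b : ℕ} (h : hi ≤ M) : layOk M (Layer.up lo hi b) :=
  Or.inr ⟨Or.inl rfl, h⟩

private theorem lo_dn {M lo hi b : ℕ} (h : hi ≤ M) : layOk M (Layer.dn lo hi b) :=
  Or.inr ⟨Or.inr rfl, h⟩

private theorem lo_cons {M : ℕ} {l : Layer} {L : List Layer} (h : layOk M l) (h' : LO M L) :
    LO M (l :: L) := by
  intro x hx
  rcases List.mem_cons.mp hx with rfl | hx
  · exact h
  · exact h' x hx

private theorem lo_nil {M : ℕ} : LO M [] := by
  intro x hx
  simp at hx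

private theorem lo_disp {o : ℕ} (ho : o ≤ S.N) : LO S.M (S.disp o) := by
  have h : o + S.M0 ≤ S.M := by
    unfold Sys.M
    omega
  exact lo_app (lo_crep _ (lo_pass (by norm_num) h)) (lo_crep _ (lo_pass (by norm_num) h))

private theorem band_le {m : ℕ} (hm : m < S.R) : S.κ * m + S.κ ≤ S.M0 := by
  unfold Sys.M0
  calc S.κ * m + S.κ = S.κ * (m + 1) := by ring
    _ ≤ S.κ * S.R := Nat.mul_le_mul_left _ hm

private theorem lo_caseOne {o d a bp bm m : ℕ} (ho : o ≤ S.N) (hd : d < 4) (hm : m < S.R) :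
    LO S.M (S.caseOne o d a bp bm m) := by
  have h1 := band_le S hm
  have h : o + S.κ * m + S.κ ≤ S.M := by
    unfold Sys.M
    omega
  exact lo_app (lo_crep _ (lo_pass hd h)) (lo_cons (lo_up h) (lo_cons (lo_dn h) lo_nil))

private theorem lo_flat {M n : ℕ} {f : ℕ → List Layer} (h : ∀ m < n, LO M (f m)) :
    LO M ((List.range n).flatMap f) := by
  intro l hl
  rw [List.mem_flatMap] at hl
  obtain ⟨m, hm, hl⟩ := hl
  exact h m (List.mem_range.mp hm) l hl

private theorem lo_rsX {o : ℕ} (ho : o ≤ S.N) : LO S.M (S.rsX o) :=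
  lo_app (lo_app (lo_disp S ho) (lo_flat fun _ hm => lo_caseOne S ho (by norm_num) hm))
    (lo_cinv (lo_disp S ho))

private theorem lo_rsY {o : ℕ} (ho : o ≤ S.N) : LO S.M (S.rsY o) :=
  lo_app (lo_app (lo_disp S ho) (lo_flat fun _ hm => lo_caseOne S ho (by norm_num) hm))
    (lo_cinv (lo_disp S ho))

private theorem lo_cX : LO S.M S.cX :=
  lo_app (lo_app (lo_app (lo_cons (lo_up le_rfl) lo_nil) (lo_cinv (lo_rsX S le_rfl)))
    (lo_cons (lo_dn le_rfl) lo_nil)) (lo_rsX S (Nat.zero_le _))

private theorem lo_cY : LO S.M S.cY :=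
  lo_app (lo_app (lo_app (lo_cons (lo_up le_rfl) lo_nil) (lo_cinv (lo_rsY S le_rfl)))
    (lo_cons (lo_dn le_rfl) lo_nil)) (lo_rsY S (Nat.zero_le _))

private theorem lo_cE : LO S.M S.cE := by
  refine lo_app (lo_app (lo_disp S (Nat.zero_le _)) (lo_flat fun m hm => ?_))
    (lo_cinv (lo_disp S (Nat.zero_le _)))
  split_ifs
  · have h1 := band_le S hm
    refine lo_cons (lo_up ?_) lo_nil
    unfold Sys.M
    omega
  · exact lo_nil

/-- The parameters of a region system are legal. `2 N ≤ M = N + κ R` from `hκ`, `hR`. Legality of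
the layers: gates `0, 2` of the passes (`1, 3` in the inverse circuits) at `b` with `b + 1 < M`:
the passes of the line starting at `o ∈ {0, N}` lie in `[o, o + M0)`, and the bands of region
`m < R` in `[o + κ m, o + κ (m+1)) ⊆ [o, o + M0)`; `N + M0 = M`. The shifts have upper end `≤ M`.
Lengths: `length ≤ len`. -/
theorem par_ok (hN : 1 ≤ S.N) (hκ : S.N + 1 ≤ S.κ) (hR : 1 ≤ S.R) : S.par.Ok := by
  have hM0 : S.κ ≤ S.M0 := by
    unfold Sys.M0
    exact Nat.le_mul_of_pos_right _ hR
  have hlen : ∀ c ∈ [S.cE, S.cX, S.cY], c.length ≤ S.len := by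
    intro c hc
    simp only [List.mem_cons, List.not_mem_nil, or_false] at hc
    unfold Sys.len
    rcases hc with rfl | rfl | rfl <;> omega
  refine ⟨hN, ?_, ?_, ?_, ?_⟩
  · show 2 * S.N ≤ S.M
    unfold Sys.M
    omega
  · intro c hc
    have hc' : c ∈ [S.cE, S.cX, S.cY] := hc
    simp only [List.mem_cons, List.not_mem_nil, or_false] at hc'
    rcases hc' with rfl | rfl | rfl
    · exact lo_cE S
    · exact lo_cX S
    · exact lo_cY S
  · intro c hc
    have h := hlen c hc
    show S.N + 20 + (c.length + 2) * (3 * S.M + 3) ≤ S.Hs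
    unfold Sys.Hs
    have := Nat.mul_le_mul_right (3 * S.M + 3) (Nat.add_le_add_right h 2)
    omega
  · intro c hc
    have h := hlen c hc
    show (2 * S.N + 20) + 86 * S.Hs + (c.length + 2) * (20 * S.M + 30) + 100 ≤
      (2 * S.N + 20) + 86 * S.Hs + (S.len + 2) * (20 * S.M + 30) + 100
    have := Nat.mul_le_mul_right (20 * S.M + 30) (Nat.add_le_add_right h 2)
    omega

end Pool.Agent.MP_fadef1_lc
end

section

namespace Pool.Agent.MP_fadef1_lc

/-- legal configuration -/
structure CfgOk (T : TM) (c : Cfg) : Prop where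
  hq : c.q < T.S
  hh : c.h < T.g
  hl : ∀ x ∈ c.l, x < T.g
  hr : ∀ x ∈ c.r, x < T.g

/-- `X, Y` encode the configuration `c` at width `w`. -/
structure Enc (T : TM) (c : Cfg) (w X Y : ℕ) : Prop where
  ok : CfgOk T c
  hX : (T.B : ℚ) * X = w * (((c.q * T.g + c.h : ℕ) : ℚ) + val T.B c.l)
  hY : (Y : ℚ) = w * val T.B c.r

/-- the region of a configuration -/
def reg (T : TM) (c : Cfg) : ℕ := T.g * (c.q * T.g + c.h) + c.r.headI

private theorem TMInv_headI {g : ℕ} (hg : 1 ≤ g) {l : List ℕ} (hl : ∀ x ∈ l, x < g) :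
    l.headI < g := by
  cases l with
  | nil => exact hg
  | cons a l => exact hl a List.mem_cons_self

private theorem TMInv_tail {g : ℕ} {l : List ℕ} (hl : ∀ x ∈ l, x < g) :
    ∀ x ∈ l.tail, x < g := fun x hx => hl x (List.mem_of_mem_tail hx)

private theorem TMInv_cons {g a : ℕ} (ha : a < g) {l : List ℕ} (hl : ∀ x ∈ l, x < g) :
    ∀ x ∈ a :: l, x < g := by
  intro x hx
  rcases List.mem_cons.1 hx with h | h
  · rw [h]
    exact ha
  · exact hl x h

theorem cfgOk_step {T : TM} (hT : T.Ok) {c c' : Cfg} (hc : CfgOk T c) (h : T.step c = some c') :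
    CfgOk T c' := by
  unfold TM.step at h
  split at h
  · cases h
  · rename_i q' heq
    have h1 := hT.htr _ _ _ _ hc.hq hc.hh heq
    obtain rfl := (Option.some.inj h).symm
    exact ⟨h1.1, TMInv_headI hT.hg hc.hl, TMInv_tail hc.hl, TMInv_cons hc.hh hc.hr⟩
  · rename_i q' heq
    have h1 := hT.htr _ _ _ _ hc.hq hc.hh heq
    obtain rfl := (Option.some.inj h).symm
    exact ⟨h1.1, TMInv_headI hT.hg hc.hr, TMInv_cons hc.hh hc.hl, TMInv_tail hc.hr⟩
  · rename_i q' a heq
    have h1 := hT.htr _ _ _ _ hc.hq hc.hh heq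
    obtain rfl := (Option.some.inj h).symm
    refine ⟨h1.1, ?_, hc.hl, hc.hr⟩
    have h2 := h1.2
    show a < T.g
    omega

theorem B_facts {T : TM} (hT : T.Ok) :
    T.S * T.g + 1 ≤ T.B ∧ 4 * ((T.g + 1) * (T.g + 1)) ≤ T.B ∧ 32 ≤ T.B ∧ T.g ≤ T.B := by
  have hS := hT.hS
  have hg := hT.hg
  have e : T.B = 4 * (T.g + 1) * (T.g + 1) * (T.S + 1) := rfl
  have h4 : 4 * ((T.g + 1) * (T.g + 1)) ≤ T.B := by
    rw [e, ← Nat.mul_assoc]
    exact Nat.le_mul_of_pos_right _ (Nat.succ_pos _)
  have h5 : 4 ≤ (T.g + 1) * (T.g + 1) := by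
    calc 4 = 2 * 2 := rfl
      _ ≤ (T.g + 1) * (T.g + 1) := Nat.mul_le_mul (by omega) (by omega)
  have h6 : T.g + 1 ≤ (T.g + 1) * (T.g + 1) := Nat.le_mul_of_pos_right _ (Nat.succ_pos _)
  refine ⟨?_, h4, ?_, ?_⟩
  · rw [e]
    calc T.S * T.g + 1 ≤ (T.S + 1) * (T.g + 1) := by
          rw [Nat.add_mul, Nat.mul_add]
          omega
      _ = (T.g + 1) * (T.S + 1) := Nat.mul_comm _ _
      _ ≤ (4 * (T.g + 1) * (T.g + 1)) * (T.S + 1) := by
          apply Nat.mul_le_mul_right
          rw [Nat.mul_assoc]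
          omega
  · rw [e]
    calc 32 = 16 * 2 := rfl
      _ ≤ (4 * (T.g + 1) * (T.g + 1)) * (T.S + 1) := by
          apply Nat.mul_le_mul _ (by omega)
          rw [Nat.mul_assoc]
          omega
  · omega

/-- `m / g = q g + h`, `m % g = r₁`, `m / g / g = q`, `m / g % g = h`. -/
theorem reg_facts {T : TM} (hT : T.Ok) {c : Cfg} (hc : CfgOk T c) :
    reg T c / T.g = c.q * T.g + c.h ∧ reg T c % T.g = c.r.headI ∧
      reg T c / T.g / T.g = c.q ∧ reg T c / T.g % T.g = c.h ∧ reg T c < T.mi := by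
  have hg : 0 < T.g := hT.hg
  have hhd : c.r.headI < T.g := TMInv_headI hT.hg hc.hr
  have h1 : reg T c / T.g = c.q * T.g + c.h := by
    unfold reg
    rw [Nat.mul_add_div hg, Nat.div_eq_of_lt hhd, Nat.add_zero]
  have h2 : reg T c % T.g = c.r.headI := by
    unfold reg
    rw [Nat.mul_add_mod, Nat.mod_eq_of_lt hhd]
  have h3 : reg T c / T.g / T.g = c.q := by
    rw [h1, Nat.mul_comm c.q, Nat.mul_add_div hg, Nat.div_eq_of_lt hc.hh, Nat.add_zero]
  have h4 : reg T c / T.g % T.g = c.h := by
    rw [h1, Nat.mul_comm c.q, Nat.mul_add_mod, Nat.mod_eq_of_lt hc.hh]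
  refine ⟨h1, h2, h3, h4, ?_⟩
  have hσ : c.q * T.g + c.h + 1 ≤ T.S * T.g := by
    calc c.q * T.g + c.h + 1 ≤ c.q * T.g + T.g := by
          have := hc.hh
          omega
      _ = (c.q + 1) * T.g := by rw [Nat.add_mul, Nat.one_mul]
      _ ≤ T.S * T.g := Nat.mul_le_mul_right _ hc.hq
  have hB := (B_facts hT).1
  have h5 : reg T c < T.g * (c.q * T.g + c.h + 1) := by
    unfold reg
    rw [Nat.mul_add T.g (c.q * T.g + c.h) 1, Nat.mul_one]
    omega
  calc reg T c < T.g * (c.q * T.g + c.h + 1) := h5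
    _ ≤ T.g * T.B := Nat.mul_le_mul_left _ (by omega)
    _ = T.B * T.g := Nat.mul_comm _ _
    _ ≤ T.B * (T.g + 1) := Nat.mul_le_mul_left _ (Nat.le_succ _)

private theorem TMInv_val {T : TM} (hT : T.Ok) {l : List ℕ} (hl : ∀ x ∈ l, x < T.g) :
    (T.B : ℚ) * val T.B l < T.g ∧ val T.B l < 1 ∧ 0 ≤ val T.B l ∧ (0 : ℚ) < T.B := by
  have hB := B_facts hT
  have h1 := val_lt hT.hg hB.2.2.2 hl
  have hB0 : (0 : ℚ) < T.B := by
    have : 0 < T.B := by omega
    exact_mod_cast this
  have h2 : (T.g : ℚ) ≤ T.B := by exact_mod_cast hB.2.2.2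
  refine ⟨h1, ?_, val_nonneg _ _, hB0⟩
  have h3 : (T.B : ℚ) * val T.B l < T.B * 1 := by
    rw [mul_one]
    exact lt_of_lt_of_le h1 h2
  exact lt_of_mul_lt_mul_left h3 hB0.le

/-- `X ≤ w` since `σ + val < σ + 1 ≤ S g ≤ B` and `Y ≤ w` since `val < 1`. -/
theorem enc_le {T : TM} (hT : T.Ok) {c : Cfg} {w X Y : ℕ} (h : Enc T c w X Y) :
    X ≤ w ∧ Y ≤ w := by
  have hl := TMInv_val hT h.ok.hl
  have hr := TMInv_val hT h.ok.hr
  have hB := B_facts hT
  have hσ : c.q * T.g + c.h + 1 ≤ T.S * T.g := by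
    calc c.q * T.g + c.h + 1 ≤ c.q * T.g + T.g := by
          have := h.ok.hh
          omega
      _ = (c.q + 1) * T.g := by rw [Nat.add_mul, Nat.one_mul]
      _ ≤ T.S * T.g := Nat.mul_le_mul_right _ h.ok.hq
  have hσB : ((c.q * T.g + c.h : ℕ) : ℚ) + 1 ≤ T.B := by
    have : c.q * T.g + c.h + 1 ≤ T.B := by omega
    exact_mod_cast this
  have hw : (0 : ℚ) ≤ w := by positivity
  constructor
  · have h1 : (T.B : ℚ) * X ≤ T.B * w := by
      rw [h.hX, mul_comm (T.B : ℚ) (w : ℚ)]
      apply mul_le_mul_of_nonneg_left _ hw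
      linarith [hl.2.1]
    have h2 := le_of_mul_le_mul_left h1 hl.2.2.2
    exact_mod_cast h2
  · have h1 : (Y : ℚ) ≤ w := by
      rw [h.hY]
      calc (w : ℚ) * val T.B c.r ≤ w * 1 := mul_le_mul_of_nonneg_left hr.2.1.le hw
        _ = w := mul_one _
    exact_mod_cast h1

/-- With `κ = 4 N B`: `Kx X + Ky Y = κ B (g X + Y) = κ w (m + e)` with
`e = g * val l + val (tail r)`, `0 ≤ e < 1/4` (`B val < g`, `val_head` for `r`). -/
theorem enc_disp {T : TM} (hT : T.Ok) {c : Cfg} {w X Y : ℕ} (h : Enc T c w X Y) (hw : 0 < w)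
    (l : List ℕ) :
    (T.sys l).κ * reg T c * w ≤ (T.sys l).Kx * X + (T.sys l).Ky * Y ∧
    4 * ((T.sys l).Kx * X + (T.sys l).Ky * Y) ≤
      (T.sys l).κ * (4 * reg T c + 1) * w := by
  have hl := TMInv_val hT h.ok.hl
  have hr := TMInv_val hT (TMInv_tail h.ok.hr)
  have hB := B_facts hT
  have hB0 : 0 < T.B := by omega
  have hhead := val_head T.B hB0 c.r
  set κ : ℕ := (T.sys l).κ with hκ
  have eκ : κ = 4 * T.NN l * T.B := rfl
  have eKx : (T.sys l).Kx = κ * (T.B * T.g) := by
    show 4 * T.NN l * T.B * T.B * T.g = κ * (T.B * T.g)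
    rw [eκ]
    ring
  have eKy : (T.sys l).Ky = κ * T.B := by
    show 4 * T.NN l * T.B * T.B = κ * T.B
    rw [eκ]
  rw [eKx, eKy]
  set e : ℚ := T.g * val T.B c.l + val T.B c.r.tail with he
  have hg0 : (0 : ℚ) ≤ T.g := by positivity
  have he0 : 0 ≤ e := by
    rw [he]
    have := mul_nonneg hg0 hl.2.2.1
    linarith [hr.2.2.1]
  have he1 : 4 * e ≤ 1 := by
    have h1 : (T.B : ℚ) * e ≤ T.g * T.g + T.g := by
      rw [he]
      have h2 : (T.g : ℚ) * (T.B * val T.B c.l) ≤ T.g * T.g :=
        mul_le_mul_of_nonneg_left hl.1.le hg0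
      have h3 := hr.1
      have h4 : (T.B : ℚ) * (T.g * val T.B c.l + val T.B c.r.tail) =
          T.g * (T.B * val T.B c.l) + T.B * val T.B c.r.tail := by ring
      rw [h4]
      linarith
    have h2 : 4 * ((T.g : ℚ) * T.g + T.g) ≤ T.B := by
      have h3 : 4 * (((T.g : ℚ) + 1) * (T.g + 1)) ≤ T.B := by exact_mod_cast hB.2.1
      nlinarith
    have h3 : (T.B : ℚ) * (4 * e) ≤ T.B * 1 := by
      rw [mul_one]
      have : (T.B : ℚ) * (4 * e) = 4 * (T.B * e) := by ring
      rw [this]
      linarith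
    exact le_of_mul_le_mul_left h3 hl.2.2.2
  have hmain : ((κ * (T.B * T.g) * X + κ * T.B * Y : ℕ) : ℚ) = κ * w * (reg T c + e) := by
    have h1 : ((κ * (T.B * T.g) * X + κ * T.B * Y : ℕ) : ℚ) =
        κ * (T.g * (T.B * X) + T.B * Y) := by
      push_cast
      ring
    rw [h1, h.hX, h.hY]
    have h2 : (T.B : ℚ) * (w * val T.B c.r) = w * (T.B * val T.B c.r) := by ring
    rw [h2, hhead, he]
    unfold reg
    push_cast
    ring
  have hκ0 : (0 : ℚ) ≤ κ := by positivity
  have hw0 : (0 : ℚ) ≤ w := by positivity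
  constructor
  · have h1 : ((κ * reg T c * w : ℕ) : ℚ) ≤ ((κ * (T.B * T.g) * X + κ * T.B * Y : ℕ) : ℚ) := by
      rw [hmain]
      push_cast
      nlinarith [mul_nonneg (mul_nonneg hκ0 hw0) he0]
    exact_mod_cast h1
  · have h1 : ((4 * (κ * (T.B * T.g) * X + κ * T.B * Y) : ℕ) : ℚ) ≤
        ((κ * (4 * reg T c + 1) * w : ℕ) : ℚ) := by
      rw [Nat.cast_mul, hmain]
      push_cast
      nlinarith [mul_le_mul_of_nonneg_left he1 (mul_nonneg hκ0 hw0)]
    exact_mod_cast h1

end Pool.Agent.MP_fadef1_lc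
end

section

open Turing

namespace Pool.Agent.MP_fadef1_lc

private theorem fadtm_numbering {α : Type} [Inhabited α] (S : Finset α) :
    ∃ (n : ℕ) (e : α → ℕ) (d : ℕ → α), 1 ≤ n ∧ e default = 0 ∧
      (∀ a ∈ S, e a < n) ∧ (∀ a ∈ S, d (e a) = a) ∧
      (∀ i < n, d i ∈ S ∨ d i = default) := by
  classical
  set L : List α := default :: S.toList with hL
  have hmem : ∀ a ∈ S, a ∈ L := fun a ha => by
    rw [hL]; exact List.mem_cons_of_mem _ (Finset.mem_toList.2 ha)
  refine ⟨L.length, fun a => L.idxOf a, fun i => L.getD i default, ?_, ?_, ?_, ?_, ?_⟩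
  · rw [hL]; simp
  · simp [hL]
  · intro a ha
    exact List.idxOf_lt_length_iff.2 (hmem a ha)
  · intro a ha
    have h := List.idxOf_lt_length_iff.2 (hmem a ha)
    show L.getD (L.idxOf a) default = a
    rw [List.getD_eq_getElem _ _ h]
    exact List.getElem_idxOf h
  · intro i hi
    show L.getD i default ∈ S ∨ L.getD i default = default
    rw [List.getD_eq_getElem _ _ hi]
    have hall : ∀ x ∈ L, x ∈ S ∨ x = default := fun x hx => by
      rw [hL, List.mem_cons] at hx
      rcases hx with h | h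
      · exact Or.inr h
      · exact Or.inl (Finset.mem_toList.1 h)
    exact hall _ (List.getElem_mem hi)

section general

variable {Γ Λ : Type} [Inhabited Γ] [Inhabited Λ]

/-- code of an action -/
private def fadtmAct (eG : Γ → ℕ) : TM0.Stmt Γ → ℕ
  | TM0.Stmt.move Dir.left => 0
  | TM0.Stmt.move Dir.right => 1
  | TM0.Stmt.write a => eG a + 2

/-- the numbered machine -/
private noncomputable def fadtmT (M : TM0.Machine Γ Λ) (nS nG : ℕ) (eS : Λ → ℕ) (dS : ℕ → Λ)
    (eG : Γ → ℕ) (dG : ℕ → Γ) : TM where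
  S := nS
  g := nG
  tr := fun q h => if q < nS ∧ h < nG then
    (M (dS q) (dG h)).map (fun p => (eS p.1, fadtmAct eG p.2)) else none

/-- the simulation relation -/
private def fadtmR (S : Finset Λ) (eS : Λ → ℕ) (eG : Γ → ℕ) (c : TM0.Cfg Γ Λ) (c' : Cfg) : Prop :=
  c.q ∈ S ∧ c'.q = eS c.q ∧ c'.h = eG c.Tape.head ∧
    (∃ l : List Γ, c.Tape.left = ListBlank.mk l ∧ c'.l = l.map eG) ∧
    (∃ r : List Γ, c.Tape.right = ListBlank.mk r ∧ c'.r = r.map eG)

private theorem fadtm_headI (eG : Γ → ℕ) (h0 : eG default = 0) (l : List Γ) :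
    (l.map eG).headI = eG l.headI := by
  cases l with
  | nil => simp [h0]
  | cons a l => simp

private theorem fadtm_resp (M : TM0.Machine Γ Λ) (S : Finset Λ) (hS : TM0.Supports M (S : Set Λ))
    (nS nG : ℕ) (eS : Λ → ℕ) (dS : ℕ → Λ) (eG : Γ → ℕ) (dG : ℕ → Γ)
    (hG0 : eG default = 0)
    (h1 : ∀ a ∈ S, eS a < nS) (h2 : ∀ a ∈ S, dS (eS a) = a)
    (h3 : ∀ a, eG a < nG) (h4 : ∀ a, dG (eG a) = a) :
    StateTransition.Respects (TM0.step M) (fadtmT M nS nG eS dS eG dG).step
      (fadtmR S eS eG) := by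
  rintro ⟨q, ⟨hd, L, R⟩⟩ ⟨q', h', l', r'⟩ ⟨hq, e1, e2, ⟨l, hl, hl'⟩, ⟨r, hr, hr'⟩⟩
  simp only at hq e1 e2 hl hl' hr hr'
  subst e1 e2 hl hl' hr hr'
  have hstep : (fadtmT M nS nG eS dS eG dG).tr (eS q) (eG hd) =
      (M q hd).map (fun p => (eS p.1, fadtmAct eG p.2)) := by
    show (if eS q < nS ∧ eG hd < nG then
      (M (dS (eS q)) (dG (eG hd))).map (fun p => (eS p.1, fadtmAct eG p.2)) else none) = _
    rw [if_pos ⟨h1 q hq, h3 hd⟩, h2 q hq, h4 hd]
  rcases hM : M q hd with _ | ⟨q₂, s⟩
  · have hz : TM0.step M ⟨q, ⟨hd, ListBlank.mk l, ListBlank.mk r⟩⟩ = none := by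
      simp [TM0.step, hM]
    rw [hz]
    rw [hM] at hstep
    simp only [Option.map_none] at hstep
    show (fadtmT M nS nG eS dS eG dG).step _ = none
    unfold TM.step
    simp only [hstep]
  · have hq₂ : q₂ ∈ S := by
      obtain ⟨_, hS1⟩ := hS
      have := hS1 (q := q) (a := hd) (q' := q₂) (s := s) (by rw [hM]; rfl) (by exact_mod_cast hq)
      exact_mod_cast this
    rw [hM] at hstep
    simp only [Option.map_some] at hstep
    rcases s with d | a
    · rcases d with _ | _
      · have hz : TM0.step M ⟨q, ⟨hd, ListBlank.mk l, ListBlank.mk r⟩⟩ =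
            some ⟨q₂, ⟨l.headI, ListBlank.mk l.tail, ListBlank.mk (hd :: r)⟩⟩ := by
          simp [TM0.step, hM, Tape.move]
        rw [hz]
        refine ⟨⟨eS q₂, (l.map eG).headI, (l.map eG).tail, eG hd :: r.map eG⟩, ?_, ?_⟩
        · refine ⟨hq₂, rfl, ?_, ⟨l.tail, rfl, ?_⟩, ⟨hd :: r, rfl, ?_⟩⟩
          · exact fadtm_headI eG hG0 l
          · exact List.map_tail.symm
          · rfl
        · refine Relation.TransGen.single ?_
          show _ = some _
          unfold TM.step
          simp only [hstep, fadtmAct]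
      · have hz : TM0.step M ⟨q, ⟨hd, ListBlank.mk l, ListBlank.mk r⟩⟩ =
            some ⟨q₂, ⟨r.headI, ListBlank.mk (hd :: l), ListBlank.mk r.tail⟩⟩ := by
          simp [TM0.step, hM, Tape.move]
        rw [hz]
        refine ⟨⟨eS q₂, (r.map eG).headI, eG hd :: l.map eG, (r.map eG).tail⟩, ?_, ?_⟩
        · refine ⟨hq₂, rfl, ?_, ⟨hd :: l, rfl, ?_⟩, ⟨r.tail, rfl, ?_⟩⟩
          · exact fadtm_headI eG hG0 r
          · rfl
          · exact List.map_tail.symm
        · refine Relation.TransGen.single ?_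
          show _ = some _
          unfold TM.step
          simp only [hstep, fadtmAct]
    · have hz : TM0.step M ⟨q, ⟨hd, ListBlank.mk l, ListBlank.mk r⟩⟩ =
            some ⟨q₂, ⟨a, ListBlank.mk l, ListBlank.mk r⟩⟩ := by
          simp [TM0.step, hM, Tape.write]
      rw [hz]
      refine ⟨⟨eS q₂, eG a, l.map eG, r.map eG⟩, ?_, ?_⟩
      · exact ⟨hq₂, rfl, rfl, ⟨l, rfl, rfl⟩, ⟨r, rfl, rfl⟩⟩
      · refine Relation.TransGen.single ?_
        show _ = some _
        unfold TM.step
        simp only [hstep, fadtmAct]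

private theorem fadtm_run (T : TM) (c : Cfg) :
    (∃ t, T.run c t = none) ↔ (StateTransition.eval T.step c).Dom := by
  constructor
  · rintro ⟨t, ht⟩
    classical
    have hex : ∃ t, T.run c t = none := ⟨t, ht⟩
    obtain ⟨m, hm, hmin⟩ : ∃ m, T.run c m = none ∧ ∀ k < m, T.run c k ≠ none :=
      ⟨Nat.find hex, Nat.find_spec hex, fun k hk => Nat.find_min hex hk⟩
    rcases m with _ | m
    · simp [TM.run] at hm
    · have h1 := hmin m (Nat.lt_succ_self m)
      obtain ⟨b, hb⟩ := Option.ne_none_iff_exists'.1 h1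
      have hreach : ∀ n b, T.run c n = some b → StateTransition.Reaches T.step c b := by
        intro n
        induction n with
        | zero =>
          intro b hb
          simp only [TM.run, Option.some.injEq] at hb
          rw [hb]
          exact Relation.ReflTransGen.refl
        | succ n IH =>
          intro b hb
          simp only [TM.run, Option.bind_eq_some_iff] at hb
          obtain ⟨a, ha, hab⟩ := hb
          exact (IH a ha).tail hab
      have hb2 : T.step b = none := by
        simp only [TM.run, hb, Option.bind_some] at hm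
        exact hm
      have := StateTransition.mem_eval.2 ⟨hreach m b hb, hb2⟩
      exact Part.dom_iff_mem.2 ⟨b, this⟩
  · intro h
    obtain ⟨b, hb⟩ := Part.dom_iff_mem.1 h
    obtain ⟨h1, h2⟩ := StateTransition.mem_eval.1 hb
    have key : ∀ b, StateTransition.Reaches T.step c b → ∃ n, T.run c n = some b := by
      intro b hb
      induction hb with
      | refl => exact ⟨0, rfl⟩
      | tail _ hbc IH =>
        obtain ⟨n, hn⟩ := IH
        exact ⟨n + 1, by simp only [TM.run, hn, Option.bind_some]; exact hbc⟩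
    obtain ⟨n, hn⟩ := key b h1
    exact ⟨n + 1, by simp only [TM.run, hn, Option.bind_some]; exact h2⟩

end general


/-- binary digits, low to high -/
private def fadtmD (n : ℕ) : List ℕ :=
  if h : n = 0 then [] else (n % 2) :: fadtmD (n / 2)
termination_by n
decreasing_by exact Nat.div_lt_self (Nat.pos_of_ne_zero h) one_lt_two

private theorem fadtmD_zero : fadtmD 0 = [] := by
  rw [fadtmD]; simp

private theorem fadtmD_pos {n : ℕ} (h : n ≠ 0) : fadtmD n = (n % 2) :: fadtmD (n / 2) := by
  rw [fadtmD]; simp [h]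

private theorem fadtmD_primrec : Primrec fadtmD := by
  have hg : Primrec₂ (fun (_ : Unit) (L : List (List ℕ)) =>
      if L.length = 0 then some ([] : List ℕ) else
        (L[L.length / 2]?).map (fun l => (L.length % 2) :: l)) := by
    have hlen : Primrec (fun p : Unit × List (List ℕ) => p.2.length) :=
      Primrec.list_length.comp Primrec.snd
    refine Primrec.ite ?_ (Primrec.const _) ?_
    · exact Primrec.eq.comp hlen (Primrec.const 0)
    · refine Primrec.option_map ?_ ?_
      · exact Primrec.list_getElem?.comp Primrec.snd (Primrec.nat_div.comp hlen (Primrec.const 2))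
      · refine Primrec.list_cons.comp ?_ Primrec.snd
        exact Primrec.nat_mod.comp (hlen.comp Primrec.fst) (Primrec.const 2)
  have h := Primrec.nat_strong_rec (fun (_ : Unit) n => fadtmD n) hg (by
    intro _ n
    simp only [List.length_map, List.length_range]
    by_cases hn : n = 0
    · rw [if_pos hn, hn, fadtmD_zero]
    · rw [if_neg hn]
      have hlt : n / 2 < n := Nat.div_lt_self (Nat.pos_of_ne_zero hn) one_lt_two
      have : ((List.range n).map (fun n => fadtmD n))[n / 2]? = some (fadtmD (n / 2)) := by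
        rw [List.getElem?_map, List.getElem?_range hlt]
        rfl
      rw [this, Option.map_some, ← fadtmD_pos hn])
  exact h.comp (Primrec.const ()) Primrec.id

private theorem fadtm_trPosNum (m : PosNum) : PartrecToTM2.trPosNum m =
    (fadtmD (m : ℕ)).map (fun b => if b = 0 then PartrecToTM2.Γ'.bit0 else PartrecToTM2.Γ'.bit1) := by
  induction m with
  | one =>
    rw [PosNum.cast_one', fadtmD_pos one_ne_zero]
    simp [PartrecToTM2.trPosNum, fadtmD_zero]
  | bit1 m ih =>
    rw [PosNum.cast_bit1, fadtmD_pos (by omega)]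
    have h1 : ((m : ℕ) + m + 1) % 2 = 1 := by omega
    have h2 : ((m : ℕ) + m + 1) / 2 = m := by omega
    rw [h1, h2, PartrecToTM2.trPosNum, ih]
    simp
  | bit0 m ih =>
    have hm : (0 : ℕ) < (m : ℕ) := PosNum.cast_pos m
    rw [PosNum.cast_bit0, fadtmD_pos (by omega)]
    have h1 : ((m : ℕ) + m) % 2 = 0 := by omega
    have h2 : ((m : ℕ) + m) / 2 = m := by omega
    rw [h1, h2, PartrecToTM2.trPosNum, ih]
    simp

private theorem fadtm_trNat (n : ℕ) : PartrecToTM2.trNat n =
    (fadtmD n).map (fun b => if b = 0 then PartrecToTM2.Γ'.bit0 else PartrecToTM2.Γ'.bit1) := by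
  rw [PartrecToTM2.trNat]
  have h : ∀ k : Num, PartrecToTM2.trNum k = (fadtmD (k : ℕ)).map
      (fun b => if b = 0 then PartrecToTM2.Γ'.bit0 else PartrecToTM2.Γ'.bit1) := by
    intro k
    cases k with
    | zero =>
      have : ((Num.zero : Num) : ℕ) = 0 := rfl
      rw [this, fadtmD_zero]
      rfl
    | pos m =>
      exact fadtm_trPosNum m
  rw [h, Num.to_of_nat]


section chain

open PartrecToTM2

private theorem fadtm_undec : ∃ f : ℕ →. ℕ, Partrec f ∧ ¬ ComputablePred fun n => (f n).Dom := by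
  refine ⟨fun n => Nat.Partrec.Code.eval (Denumerable.ofNat Nat.Partrec.Code n) 0, ?_, ?_⟩
  · exact Nat.Partrec.Code.eval_part.comp (Computable.ofNat Nat.Partrec.Code) (Computable.const 0)
  · intro h
    refine ComputablePred.halting_problem 0 ?_
    obtain ⟨hd, hc⟩ := h
    refine ⟨fun c => decidable_of_iff
      ((Nat.Partrec.Code.eval (Denumerable.ofNat Nat.Partrec.Code (Encodable.encode c)) 0).Dom)
      (by rw [Denumerable.ofNat_encode]), ?_⟩
    have := hc.comp (Computable.encode (α := Nat.Partrec.Code))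
    refine this.of_eq fun c => ?_
    have h0 := Denumerable.ofNat_encode c
    exact decide_eq_decide.2 (by
      show (Nat.Partrec.Code.eval (Denumerable.ofNat Nat.Partrec.Code (Encodable.encode c)) 0).Dom ↔
        (Nat.Partrec.Code.eval c 0).Dom
      rw [h0])

private theorem fadtm_code : ∃ c : ToPartrec.Code,
    ¬ ComputablePred fun n : ℕ => (c.eval [n]).Dom := by
  obtain ⟨f, hf, hu⟩ := fadtm_undec
  obtain ⟨c, hc⟩ := ToPartrec.Code.exists_code (Nat.Partrec'.part_iff₁.2 hf)
  refine ⟨c, fun h => hu (h.of_eq fun n => ?_)⟩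
  have := hc ⟨[n], rfl⟩
  simp only at this
  rw [this]
  exact Iff.rfl

@[instance_reducible]
private def fadtmFin : Fintype K' :=
  ⟨⟨[K'.main, K'.rev, K'.aux, K'.stack], by decide⟩, fun k => by cases k <;> decide⟩

private theorem fadtm_TM2 (c : ToPartrec.Code) (n : ℕ) :
    (@TM2.eval K' (fun _ => Γ') Λ' (Option Γ') ⟨trNormal c Cont'.halt⟩ _ _ tr K'.main
      (trList [n])).Dom ↔ (c.eval [n]).Dom := by
  have h := tr_eval c [n]
  have hi : init c [n] = @TM2.init K' (fun _ => Γ') Λ' (Option Γ') ⟨trNormal c Cont'.halt⟩ _ _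
      K'.main (trList [n]) := by
    unfold init TM2.init
    have hk : K'.elim (trList [n]) [] [] [] =
        Function.update (fun _ => []) K'.main (trList [n]) := by
      funext k
      cases k <;> rfl
    rw [hk]
    rfl
  rw [hi] at h
  unfold TM2.eval
  constructor
  · intro hd
    have : (StateTransition.eval (TM2.step tr) (@TM2.init K' (fun _ => Γ') Λ' (Option Γ') ⟨trNormal c Cont'.halt⟩ _ _
      K'.main (trList [n]))).Dom := hd
    rw [h] at this
    exact this
  · intro hd
    show (StateTransition.eval (TM2.step tr) (@TM2.init K' (fun _ => Γ') Λ' (Option Γ') ⟨trNormal c Cont'.halt⟩ _ _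
      K'.main (trList [n]))).Dom
    rw [h]
    exact hd


private theorem fadtm_ok {Γ Λ : Type} [Inhabited Γ] [Inhabited Λ] (M : TM0.Machine Γ Λ)
    (S : Finset Λ) (hS : TM0.Supports M (S : Set Λ))
    (nS nG : ℕ) (eS : Λ → ℕ) (dS : ℕ → Λ) (eG : Γ → ℕ) (dG : ℕ → Γ)
    (hnS : 1 ≤ nS) (hnG : 1 ≤ nG)
    (h1 : ∀ a ∈ S, eS a < nS) (h3 : ∀ a, eG a < nG)
    (h5 : ∀ i < nS, dS i ∈ S ∨ dS i = default) :
    (fadtmT M nS nG eS dS eG dG).Ok := by
  refine ⟨hnS, hnG, ?_, ?_⟩
  · intro q h q' a hq hh htr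
    have hq1 : q < nS := hq
    have hh1 : h < nG := hh
    have htr1 : (if q < nS ∧ h < nG then
      (M (dS q) (dG h)).map (fun p => (eS p.1, fadtmAct eG p.2)) else none) = some (q', a) := htr
    rw [if_pos ⟨hq1, hh1⟩, Option.map_eq_some_iff] at htr1
    obtain ⟨⟨p, s⟩, hp, hps⟩ := htr1
    simp only [Prod.mk.injEq] at hps
    obtain ⟨hS0, hS1⟩ := hS
    have hd : dS q ∈ S := by
      rcases h5 q hq1 with h | h
      · exact h
      · rw [h]; exact_mod_cast hS0
    have hpS : p ∈ S := by
      have := hS1 (q := dS q) (a := dG h) (q' := p) (s := s) (by rw [hp]; rfl)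
        (by exact_mod_cast hd)
      exact_mod_cast this
    refine ⟨?_, ?_⟩
    · rw [← hps.1]; exact h1 p hpS
    · rw [← hps.2]
      show fadtmAct eG s < nG + 2
      rcases s with d | b
      · rcases d with _ | _
        · show 0 < nG + 2
          omega
        · show 1 < nG + 2
          omega
      · show eG b + 2 < nG + 2
        have := h3 b
        omega
  · intro q h hqh
    show (if q < nS ∧ h < nG then
      (M (dS q) (dG h)).map (fun p => (eS p.1, fadtmAct eG p.2)) else none) = none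
    rw [if_neg]
    have hqh1 : nS ≤ q ∨ nG ≤ h := hqh
    omega

private theorem fadtm_start {Γ Λ : Type} [Inhabited Γ] [Inhabited Λ]
    (S : Finset Λ) (hS : default ∈ S) (eS : Λ → ℕ) (hS0 : eS default = 0)
    (eG : Γ → ℕ) (hG0 : eG default = 0) (l : List Γ) :
    fadtmR S eS eG (TM0.init l) (cfg0 (l.map eG)) := by
  refine ⟨hS, hS0.symm, fadtm_headI eG hG0 l, ⟨[], rfl, rfl⟩, ⟨l.tail, rfl, ?_⟩⟩
  exact List.map_tail.symm

end chain

/-- A machine with undecidable halting problem. Take a partial recursive function with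
non-computable domain (`ComputablePred.halting_problem`: `Code.eval` of a universal code at
`n`), as a `ToPartrec.Code` `c` (`Turing.ToPartrec.Code.exists_code`), the TM2 machine
`PartrecToTM2.tr` with the instance `Inhabited Λ' := ⟨trNormal c Cont'.halt⟩`
(`PartrecToTM2.tr_eval`, `tr_supports`), then `TM2to1.tr_eval_dom`, `TM2to1.tr_supports`,
`TM1to0.tr_eval`, `TM1to0.tr_supports`; number the finitely many states of the support and the
symbols (default ↦ 0), tape = lists. The input list of `n` is computed by `Computable`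
functions. -/
theorem exists_tm : ∃ T : TM, T.Ok ∧ ∃ inp : ℕ → List ℕ, Computable inp ∧
    (∀ n, ∀ x ∈ inp n, x < T.g) ∧
    ¬ ComputablePred fun n => ∃ t, T.run (cfg0 (inp n)) t = none := by
  classical
  obtain ⟨c, hc⟩ := fadtm_code
  let iΛ : Inhabited PartrecToTM2.Λ' :=
    ⟨PartrecToTM2.trNormal c PartrecToTM2.Cont'.halt⟩
  let : Fintype PartrecToTM2.K' := fadtmFin
  let M1 := TM2to1.tr (K := PartrecToTM2.K') (Γ := fun _ => PartrecToTM2.Γ')
    (Λ := PartrecToTM2.Λ') (σ := Option PartrecToTM2.Γ') PartrecToTM2.tr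
  let M0 := TM1to0.tr M1
  have ss2 : @TM2.Supports PartrecToTM2.K' (fun _ => PartrecToTM2.Γ') PartrecToTM2.Λ'
      (Option PartrecToTM2.Γ') iΛ PartrecToTM2.tr
      (PartrecToTM2.codeSupp c PartrecToTM2.Cont'.halt) :=
    PartrecToTM2.tr_supports c PartrecToTM2.Cont'.halt
  have ss1 := TM2to1.tr_supports (M := PartrecToTM2.tr) ss2
  have ss0 := TM1to0.tr_supports M1 ss1
  set S := TM1to0.trStmts M1 (TM2to1.trSupp PartrecToTM2.tr
    (PartrecToTM2.codeSupp c PartrecToTM2.Cont'.halt)) with hSdef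
  obtain ⟨nS, eS, dS, hnS, hS0, hS1, hS2, hS3⟩ := fadtm_numbering S
  obtain ⟨nG, eG, dG, hnG, hG0, hG1, hG2, hG3⟩ :=
    fadtm_numbering (Finset.univ : Finset (TM2to1.Γ' PartrecToTM2.K' fun _ => PartrecToTM2.Γ'))
  have hdef : default ∈ S := by
    have := ss0.1
    exact_mod_cast this
  refine ⟨fadtmT M0 nS nG eS dS eG dG, ?_, ?_⟩
  · exact fadtm_ok M0 S ss0 nS nG eS dS eG dG hnS hnG hS1 (fun a => hG1 a (Finset.mem_univ a)) hS3
  · refine ⟨fun n => (TM2to1.trInit PartrecToTM2.K'.main (PartrecToTM2.trList [n])).map eG,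
      ?_, ?_, ?_⟩
    · set F : PartrecToTM2.Γ' → TM2to1.Γ' PartrecToTM2.K' (fun _ => PartrecToTM2.Γ') :=
        fun a => (false, Function.update (fun _ => none) PartrecToTM2.K'.main (some a)) with hF
      have hpr : Primrec (fun n : ℕ => eG (true, (F PartrecToTM2.Γ'.cons).2) ::
          ((fadtmD n).reverse.map
            (fun b => if b = 0 then eG (F PartrecToTM2.Γ'.bit0) else eG (F PartrecToTM2.Γ'.bit1)))) := by
        refine Primrec.list_cons.comp (Primrec.const _) ?_
        refine Primrec.list_map (Primrec.list_reverse.comp fadtmD_primrec) ?_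
        exact Primrec.ite (Primrec.eq.comp Primrec.snd (Primrec.const 0)) (Primrec.const _)
          (Primrec.const _)
      refine hpr.to_comp.of_eq fun n => ?_
      have hl : (PartrecToTM2.trList [n]).reverse = PartrecToTM2.Γ'.cons ::
          ((fadtmD n).reverse.map
            (fun b => if b = 0 then PartrecToTM2.Γ'.bit0 else PartrecToTM2.Γ'.bit1)) := by
        rw [PartrecToTM2.trList, PartrecToTM2.trList, fadtm_trNat, List.reverse_append,
          List.map_reverse]
        rfl
      show _ = ((true, ((PartrecToTM2.trList [n]).reverse.map F).headI.2) ::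
        ((PartrecToTM2.trList [n]).reverse.map F).tail).map eG
      rw [hl]
      simp only [List.map_cons, List.headI_cons, List.tail_cons, List.map_map]
      congr 1
      refine (List.map_congr_left fun b _ => ?_).trans List.map_map.symm
      show _ = eG (F (if b = 0 then PartrecToTM2.Γ'.bit0 else PartrecToTM2.Γ'.bit1))
      by_cases hb : b = 0
      · rw [if_pos hb, if_pos hb]
      · rw [if_neg hb, if_neg hb]
    · intro n x hx
      obtain ⟨a, _, rfl⟩ := List.mem_map.1 hx
      exact hG1 a (Finset.mem_univ a)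
    · intro hcomp
      refine hc (hcomp.of_eq fun n => ?_)
      rw [fadtm_run]
      have h1 := StateTransition.tr_eval_dom
        (fadtm_resp M0 S ss0 nS nG eS dS eG dG hG0 hS1 hS2
          (fun a => hG1 a (Finset.mem_univ a)) (fun a => hG2 a (Finset.mem_univ a)))
        (fadtm_start S hdef eS hS0 eG hG0
          (TM2to1.trInit PartrecToTM2.K'.main (PartrecToTM2.trList [n])))
      have h2 := TM2to1.tr_eval_dom (M := PartrecToTM2.tr) PartrecToTM2.K'.main
        (PartrecToTM2.trList [n])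
      have h3 := TM1to0.tr_eval M1
        (TM2to1.trInit PartrecToTM2.K'.main (PartrecToTM2.trList [n]))
      exact h1.trans (((Iff.of_eq (congrArg Part.Dom h3)).trans h2).trans (fadtm_TM2 c n))


end Pool.Agent.MP_fadef1_lc
end
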