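import Pool.Agent.Lib.MP_fadef1_lc.Defs
import Pool.Agent.Lib.MP_fadef1_lc.Circ

section

/-! Two topological lemmas. -/

namespace Pool.Agent.MP_fadef1_lc

private theorem curve_mono (P : ℕ → ℕ × ℕ)
    (hs : ∀ t, ((P (t + 1)).2 = (P t).2 ∧ (P (t + 1)).1 = (P t).1 + 1) ∨
      ((P (t + 1)).2 = (P t).2 + 1 ∧ (P (t + 1)).1 ≤ (P t).1 + 1 ∧ (P t).1 ≤ (P (t + 1)).1 + 1)) :
    Monotone (fun t => (P t).2) := by
  apply monotone_nat_of_le_succ
  intro t
  rcases hs t with h | h
  · exact h.1.ge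
  · exact h.1.ge.trans' (Nat.le_succ _)

private theorem curve_col (P : ℕ → ℕ × ℕ)
    (hs : ∀ t, ((P (t + 1)).2 = (P t).2 ∧ (P (t + 1)).1 = (P t).1 + 1) ∨
      ((P (t + 1)).2 = (P t).2 + 1 ∧ (P (t + 1)).1 ≤ (P t).1 + 1 ∧ (P t).1 ≤ (P (t + 1)).1 + 1))
    (t : ℕ) : ∀ d, (P (t + d)).2 = (P t).2 → (P (t + d)).1 = (P t).1 + d := by
  intro d
  induction d with
  | zero => intro _; rfl
  | succ d ih =>
    intro h
    have hm := curve_mono P hs
    have h1 : (P t).2 ≤ (P (t + d)).2 := hm (Nat.le_add_right t d)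
    have h2 : (P (t + d)).2 ≤ (P (t + (d + 1))).2 := hm (by omega)
    have h3 := ih (by omega)
    rcases hs (t + d) with h4 | h4
    · have h5 : (P (t + (d + 1))).1 = (P (t + d)).1 + 1 := h4.2
      omega
    · have h5 : (P (t + (d + 1))).2 = (P (t + d)).2 + 1 := h4.1
      omega

private theorem curve_cross (P : ℕ → ℕ × ℕ) (h0 : P 0 = (0, 1))
    (hs : ∀ t, ((P (t + 1)).2 = (P t).2 ∧ (P (t + 1)).1 = (P t).1 + 1) ∨
      ((P (t + 1)).2 = (P t).2 + 1 ∧ (P (t + 1)).1 ≤ (P t).1 + 1 ∧ (P t).1 ≤ (P (t + 1)).1 + 1))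
    (hu : ∀ n, ∃ t, n ≤ (P t).2) (k : ℕ) (hk : 1 ≤ k) :
    ∃ t, (P t).2 = k ∧ (P (t + 1)).2 = k + 1 ∧
      (P (t + 1)).1 ≤ (P t).1 + 1 ∧ (P t).1 ≤ (P (t + 1)).1 + 1 := by
  classical
  have hex := hu (k + 1)
  obtain ⟨n, hn⟩ : ∃ n, n = Nat.find hex := ⟨_, rfl⟩
  have h1 : k + 1 ≤ (P n).2 := by rw [hn]; exact Nat.find_spec hex
  have h2 : ∀ m, m < n → ¬ k + 1 ≤ (P m).2 := by
    intro m hm
    rw [hn] at hm
    exact Nat.find_min hex hm
  cases n with
  | zero =>
    rw [h0] at h1
    simp only at h1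
    omega
  | succ t =>
    have h3 := h2 t (by omega)
    rcases hs t with h | h
    · omega
    · exact ⟨t, by omega, by omega, h.2.1, h.2.2⟩

/-- the cell `c` lies below the chain -/
private def CurveBelow (P : ℕ → ℕ × ℕ) (c : ℕ × ℕ) : Prop :=
  c.2 = 0 ∨ ∀ t, (P t).2 = c.2 → (P t).1 < c.1

private theorem curve_dich (X : ℕ → ℕ → Bool) (P : ℕ → ℕ × ℕ)
    (hz : ∀ t, X (P t).1 (P t).2 = false)
    (hs : ∀ t, ((P (t + 1)).2 = (P t).2 ∧ (P (t + 1)).1 = (P t).1 + 1) ∨
      ((P (t + 1)).2 = (P t).2 + 1 ∧ (P (t + 1)).1 ≤ (P t).1 + 1 ∧ (P t).1 ≤ (P (t + 1)).1 + 1))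
    (c : ℕ × ℕ) (hX : X c.1 c.2 = true) (hb : ¬ CurveBelow P c) :
    1 ≤ c.2 ∧ ∀ t, (P t).2 = c.2 → c.1 < (P t).1 := by
  unfold CurveBelow at hb
  push Not at hb
  obtain ⟨hb0, t, ht, hle⟩ := hb
  have hne : ∀ s, (P s).2 = c.2 → (P s).1 ≠ c.1 := by
    intro s hs2 hs1
    have := hz s
    rw [hs1, hs2, hX] at this
    exact absurd this (by simp)
  refine ⟨by omega, fun s hs2 => ?_⟩
  by_contra hcon
  have h1 := hne s hs2
  have h2 := hne t ht
  rcases Nat.lt_or_ge t s with hts | hts
  · obtain ⟨d, rfl⟩ := Nat.exists_eq_add_of_le hts.le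
    have := curve_col P hs t d (by omega)
    omega
  · obtain ⟨d, rfl⟩ := Nat.exists_eq_add_of_le hts
    have h3 := curve_col P hs s d (by omega)
    have hm := curve_mono P hs
    obtain ⟨e, he⟩ : ∃ e, e = c.1 - (P s).1 := ⟨_, rfl⟩
    have hed : e ≤ d := by omega
    have h4 : (P s).2 ≤ (P (s + e)).2 := hm (Nat.le_add_right s e)
    have h5 : (P (s + e)).2 ≤ (P (s + d)).2 := hm (by omega)
    have h6 := curve_col P hs s e (by omega)
    exact hne (s + e) (by omega) (by omega)

private theorem curve_step (X : ℕ → ℕ → Bool) (P : ℕ → ℕ × ℕ) (h0 : P 0 = (0, 1))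
    (hz : ∀ t, X (P t).1 (P t).2 = false)
    (hs : ∀ t, ((P (t + 1)).2 = (P t).2 ∧ (P (t + 1)).1 = (P t).1 + 1) ∨
      ((P (t + 1)).2 = (P t).2 + 1 ∧ (P (t + 1)).1 ≤ (P t).1 + 1 ∧ (P t).1 ≤ (P (t + 1)).1 + 1))
    (hu : ∀ n, ∃ t, n ≤ (P t).2) (u v : ℕ × ℕ) (h : OneStep X u v) (hb : CurveBelow P u) :
    CurveBelow P v := by
  by_contra hv
  obtain ⟨hv1, hv2⟩ := curve_dich X P hz hs v h.2.2 hv
  obtain ⟨i, j⟩ := u
  obtain ⟨i', j'⟩ := v
  have hadj := h.1
  unfold Adj at hadj
  unfold CurveBelow at hb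
  simp only at hadj hb hv1 hv2
  rcases hadj with ⟨hi, hj⟩ | ⟨hj, hi⟩
  · subst hi
    rcases hb with hb | hb
    · have h1 : j' = 1 := by omega
      have h2 := hv2 0 (by rw [h0, h1])
      rw [h0] at h2
      simp only at h2
      omega
    · rcases Nat.eq_zero_or_pos j with hj0 | hj0
      · have h1 : j' = 1 := by omega
        have h2 := hv2 0 (by rw [h0, h1])
        rw [h0] at h2
        simp only at h2
        omega
      · rcases hj with hj | hj
        · obtain ⟨t, ht1, ht2, ht3, ht4⟩ := curve_cross P h0 hs hu j' hv1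
          have h1 := hb (t + 1) (by omega)
          have h2 := hv2 t ht1
          omega
        · obtain ⟨t, ht1, ht2, ht3, ht4⟩ := curve_cross P h0 hs hu j hj0
          have h1 := hb t ht1
          have h2 := hv2 (t + 1) (by omega)
          omega
  · subst hj
    rcases hb with hb | hb
    · omega
    · obtain ⟨t, ht1, _⟩ := curve_cross P h0 hs hu j hv1
      have h1 := hb t ht1
      have h2 := hv2 t ht1
      omega

/-- An infinite chain of zeros from the top row cuts the quarter plane: `P` starts at `(0,1)`, each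
step goes one cell down, or one column to the right with the row changing by at most one, and the
columns are unbounded. Proof: a cell `(i,j)` not on `P` is *below* if `j = 0` or every cell of `P`
in column `j` has row `< i`, *above* if `j ≥ 1` and every cell of `P` in column `j` has row `> i`.
In every column `j ≥ 1` the rows of `P` form a nonempty interval, so each cell with `X = 1` is below
or above. A step between adjacent cells with `X = 1` does not change the side. `(0,0)` is below and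
`(0,m)` is above. -/
theorem curve (X : ℕ → ℕ → Bool) (P : ℕ → ℕ × ℕ) (h0 : P 0 = (0, 1))
    (hz : ∀ t, X (P t).1 (P t).2 = false)
    (hs : ∀ t, ((P (t + 1)).2 = (P t).2 ∧ (P (t + 1)).1 = (P t).1 + 1) ∨
      ((P (t + 1)).2 = (P t).2 + 1 ∧ (P (t + 1)).1 ≤ (P t).1 + 1 ∧ (P t).1 ≤ (P (t + 1)).1 + 1))
    (hu : ∀ n, ∃ t, n ≤ (P t).2) (h00 : X 0 0 = true) (m : ℕ) (hm : 1 ≤ m) (hX : X 0 m = true) :
    ¬ RectConn X := by
  intro hc
  have hp := hc (0, 0) (0, m) h00 hX
  have key : ∀ c, Relation.ReflTransGen (OneStep X) (0, 0) c → CurveBelow P c := by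
    intro c h
    induction h with
    | refl => exact Or.inl rfl
    | @tail b c _ hbc ih => exact curve_step X P h0 hz hs hu b c hbc ih
  have hb := key _ hp
  obtain ⟨t, ht, _⟩ := curve_cross P h0 hs hu m hm
  unfold CurveBelow at hb
  rcases hb with hb | hb
  · simp only at hb
    omega
  · have := hb t ht
    simp only at this
    omega

end Pool.Agent.MP_fadef1_lc
end

section

/-! Two topological lemmas. -/

namespace Pool.Agent.MP_fadef1_lc

/-- `x` holds `1` and is reached from `v` by a chain of adjacent cells along which `ρ` decreases. -/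
private def PeelAss (ρ : ℕ × ℕ → ℕ) (v x : ℕ × ℕ) : Prop :=
  Relation.ReflTransGen (fun a b => Adj a b ∧ ρ b < ρ a) v x ∧ ρ x = 0

private theorem peel_adj_symm {u v : ℕ × ℕ} (h : Adj u v) : Adj v u := by
  unfold Adj at h ⊢
  omega

private theorem peel_exists (ρ : ℕ × ℕ → ℕ)
    (h3 : ∀ v : ℕ × ℕ, 0 < ρ v → ∃ u, Adj u v ∧ ρ u < ρ v) :
    ∀ (n : ℕ) (v : ℕ × ℕ), ρ v ≤ n → ∃ x, PeelAss ρ v x := by
  intro n
  induction n with
  | zero =>
    intro v hv
    exact ⟨v, Relation.ReflTransGen.refl, by omega⟩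
  | succ n ih =>
    intro v hv
    rcases Nat.eq_zero_or_pos (ρ v) with h | h
    · exact ⟨v, Relation.ReflTransGen.refl, h⟩
    · obtain ⟨u, hu, hlt⟩ := h3 v h
      obtain ⟨x, hx, hx0⟩ := ih u (by omega)
      exact ⟨x, Relation.ReflTransGen.head ⟨peel_adj_symm hu, hlt⟩ hx, hx0⟩

private theorem peel_zero {ρ : ℕ × ℕ → ℕ} {v x : ℕ × ℕ} (hv : ρ v = 0) (h : PeelAss ρ v x) :
    x = v := by
  obtain ⟨h, _⟩ := h
  rcases Relation.ReflTransGen.cases_head h with h | ⟨c, hc, _⟩
  · exact h.symm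
  · have := hc.2
    omega

private theorem peel_head {ρ : ℕ × ℕ → ℕ} {v x : ℕ × ℕ} (hv : 0 < ρ v) (h : PeelAss ρ v x) :
    ∃ u, Adj u v ∧ ρ u < ρ v ∧ PeelAss ρ u x := by
  obtain ⟨h, h0⟩ := h
  rcases Relation.ReflTransGen.cases_head h with h | ⟨c, hc, hcx⟩
  · subst h
    omega
  · exact ⟨c, peel_adj_symm hc.1, hc.2, hcx, h0⟩

private theorem peel_sub {ρ : ℕ × ℕ → ℕ} {u v x : ℕ × ℕ} (ha : Adj u v) (hlt : ρ u < ρ v)
    (h : PeelAss ρ u x) : PeelAss ρ v x :=
  ⟨Relation.ReflTransGen.head ⟨peel_adj_symm ha, hlt⟩ h.1, h.2⟩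

private theorem peel_symm {X : ℕ → ℕ → Bool} {u v : ℕ × ℕ}
    (h : Relation.ReflTransGen (OneStep X) u v) : Relation.ReflTransGen (OneStep X) v u := by
  induction h with
  | refl => exact Relation.ReflTransGen.refl
  | tail _ hbc ih =>
    exact Relation.ReflTransGen.head ⟨peel_adj_symm hbc.1, hbc.2.2, hbc.2.1⟩ ih

private theorem peel_b (X : ℕ → ℕ → Bool) (ρ : ℕ × ℕ → ℕ)
    (h1 : ∀ v : ℕ × ℕ, X v.1 v.2 = true ↔ ρ v = 0)
    (h2 : ∀ u v : ℕ × ℕ, Adj u v → ρ u = ρ v → ρ u = 0) (n : ℕ)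
    (ha : ∀ v, ρ v ≤ n → ∀ x y, PeelAss ρ v x → PeelAss ρ v y →
      Relation.ReflTransGen (OneStep X) x y) :
    ∀ u v, Adj u v → ρ u ≤ n → ρ v ≤ n → ∀ x y, PeelAss ρ u x → PeelAss ρ v y →
      Relation.ReflTransGen (OneStep X) x y := by
  intro u v huv hu hv x y hx hy
  rcases lt_trichotomy (ρ u) (ρ v) with h | h | h
  · exact ha v hv x y (peel_sub huv h hx) hy
  · have h0 := h2 u v huv h
    have hx' := peel_zero h0 hx
    have hy' := peel_zero (by omega) hy
    subst hx' hy'
    exact Relation.ReflTransGen.single ⟨huv, (h1 _).2 h0, (h1 _).2 (by omega)⟩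
  · exact ha u hu x y hx (peel_sub (peel_adj_symm huv) h hy)

private theorem peel_a (X : ℕ → ℕ → Bool) (ρ : ℕ × ℕ → ℕ)
    (h1 : ∀ v : ℕ × ℕ, X v.1 v.2 = true ↔ ρ v = 0)
    (h2 : ∀ u v : ℕ × ℕ, Adj u v → ρ u = ρ v → ρ u = 0)
    (h3 : ∀ v : ℕ × ℕ, 0 < ρ v → ∃ u, Adj u v ∧ ρ u < ρ v)
    (h4 : ∀ v u u' : ℕ × ℕ, 0 < ρ v → Adj u v → Adj u' v → ρ u < ρ v → ρ u' < ρ v →
      Relation.ReflTransGen (fun a b => Adj a b ∧ ρ a < ρ v ∧ ρ b < ρ v) u u') :
    ∀ n v, ρ v ≤ n → ∀ x y, PeelAss ρ v x → PeelAss ρ v y →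
      Relation.ReflTransGen (OneStep X) x y := by
  intro n
  induction n with
  | zero =>
    intro v hv x y hx hy
    have hx' := peel_zero (by omega) hx
    have hy' := peel_zero (by omega) hy
    subst hx'
    subst hy'
    exact Relation.ReflTransGen.refl
  | succ n ih =>
    intro v hv x y hx hy
    rcases Nat.lt_or_ge (ρ v) (n + 1) with hlt | hge
    · exact ih v (by omega) x y hx hy
    · obtain ⟨u, hu, hlu, hux⟩ := peel_head (by omega) hx
      obtain ⟨u', hu', hlu', huy⟩ := peel_head (by omega) hy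
      have hpath := h4 v u u' (by omega) hu hu' hlu hlu'
      have key : ∀ b, Relation.ReflTransGen (fun a b => Adj a b ∧ ρ a < ρ v ∧ ρ b < ρ v) u b →
          ∀ z, PeelAss ρ b z → Relation.ReflTransGen (OneStep X) x z := by
        intro b hb
        induction hb with
        | refl =>
          intro z hz
          exact ih u (by omega) x z hux hz
        | @tail b c _ hbc ihb =>
          intro z hz
          obtain ⟨w, hw⟩ := peel_exists ρ h3 n b (by omega)
          exact (ihb w hw).trans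
            (peel_b X ρ h1 h2 n ih b c hbc.1 (by omega) (by omega) w z hw hz)
      exact key u' hpath y huy

private theorem peel_path_zero (i j : ℕ) : Relation.ReflTransGen Adj (i, j) (0, 0) := by
  have h1 : ∀ i, Relation.ReflTransGen Adj (i, 0) (0, 0) := by
    intro i
    induction i with
    | zero => exact Relation.ReflTransGen.refl
    | succ i ih => exact Relation.ReflTransGen.head (by unfold Adj; simp) ih
  have h2 : ∀ j, Relation.ReflTransGen Adj (i, j) (i, 0) := by
    intro j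
    induction j with
    | zero => exact Relation.ReflTransGen.refl
    | succ j ih => exact Relation.ReflTransGen.head (by unfold Adj; simp) ih
  exact (h2 j).trans (h1 i)

private theorem peel_path_symm {u v : ℕ × ℕ} (h : Relation.ReflTransGen Adj u v) :
    Relation.ReflTransGen Adj v u := by
  induction h with
  | refl => exact Relation.ReflTransGen.refl
  | tail _ hbc ih => exact Relation.ReflTransGen.head (peel_adj_symm hbc) ih

/-- Peeling lemma. `ρ v = 0` exactly on the cells holding `1`.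
Proof: call `x` (with `ρ x = 0`) associated to `v` if there is a chain of adjacent cells from `v` to
`x` along which `ρ` strictly decreases (exists by `h3`). Strong induction on `n`: (a) if `ρ v ≤ n`,
any two cells associated to `v` are joined by a path of cells holding `1`; (b) if `u, v` are adjacent
with `ρ u, ρ v ≤ n`, cells associated to `u` and `v` are joined. (b) for `ρ u ≠ ρ v`, say
`ρ u < ρ v`: a cell associated to `u` is associated to `v`, use (a); for `ρ u = ρ v` both are `0` by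
`h2`. (a): the first steps `u, u'` of the two chains are adjacent to `v` with smaller `ρ`, joined by
a path of cells of smaller `ρ` by `h4`; apply (b) of smaller rank along this path. Finally any two
cells of the quarter plane are joined by a path of adjacent cells; apply (b) along it. -/
theorem peel (X : ℕ → ℕ → Bool) (ρ : ℕ × ℕ → ℕ)
    (h1 : ∀ v : ℕ × ℕ, X v.1 v.2 = true ↔ ρ v = 0)
    (h2 : ∀ u v : ℕ × ℕ, Adj u v → ρ u = ρ v → ρ u = 0)
    (h3 : ∀ v : ℕ × ℕ, 0 < ρ v → ∃ u, Adj u v ∧ ρ u < ρ v)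
    (h4 : ∀ v u u' : ℕ × ℕ, 0 < ρ v → Adj u v → Adj u' v → ρ u < ρ v → ρ u' < ρ v →
      Relation.ReflTransGen (fun a b => Adj a b ∧ ρ a < ρ v ∧ ρ b < ρ v) u u') :
    RectConn X := by
  have hA : ∀ v x y, PeelAss ρ v x → PeelAss ρ v y → Relation.ReflTransGen (OneStep X) x y :=
    fun v x y hx hy => peel_a X ρ h1 h2 h3 h4 (ρ v) v le_rfl x y hx hy
  have hB : ∀ u v, Adj u v → ∀ x y, PeelAss ρ u x → PeelAss ρ v y →
      Relation.ReflTransGen (OneStep X) x y :=
    fun u v huv x y hx hy => peel_b X ρ h1 h2 (max (ρ u) (ρ v)) (fun v _ x y => hA v x y) u v huv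
      (le_max_left _ _) (le_max_right _ _) x y hx hy
  intro u v hu hv
  have hpath : Relation.ReflTransGen Adj u v :=
    (peel_path_zero u.1 u.2).trans (peel_path_symm (peel_path_zero v.1 v.2))
  have key : ∀ b, Relation.ReflTransGen Adj u b → ∀ z, PeelAss ρ b z →
      Relation.ReflTransGen (OneStep X) u z := by
    intro b hb
    induction hb with
    | refl =>
      intro z hz
      exact hA u u z ⟨Relation.ReflTransGen.refl, (h1 u).1 hu⟩ hz
    | @tail b c _ hbc ihb =>
      intro z hz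
      obtain ⟨w, hw⟩ := peel_exists ρ h3 (ρ b) b le_rfl
      exact (ihb w hw).trans (hB b c hbc w z hw hz)
  exact key v hpath v ⟨Relation.ReflTransGen.refl, (h1 v).1 hv⟩

end Pool.Agent.MP_fadef1_lc
end

section

/-! Definitions for the evaluation of circuits. -/

namespace Pool.Agent.MP_fadef1_lc

/-- number of the inverse gate -/
def gi (d : ℕ) : ℕ := if d % 2 = 0 then d + 1 else d - 1

/-- the gates `2i` and `2i+1` are inverse to each other -/
def InvData (D : Data) : Prop :=
  ∀ d s z s' z', d < 4 → s < 2 → z < D.w → s' < 2 → z' < D.w →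
    (D.g d (s, z) = some (s', z') ↔ D.g (gi d) (s', z') = some (s, z))

/-- position as address and lane -/
def unp (w p : ℕ) : ℕ × ℕ := (p / w, p % w)

/-- all layers are legal for some number of addresses (only the gate numbers matter) -/
def CirOk (L : List Layer) : Prop := ∀ l ∈ L, l.t ≤ 2 ∧ (l.t = 0 → l.a < 4)

end Pool.Agent.MP_fadef1_lc
end

section

namespace Pool.Agent.MP_fadef1_lc

/-- `shG w x` and `shH w x` are inverse to each other on `{0,1} × [0,w)` for `x ≤ w`. -/
theorem shG_shH {w x : ℕ} (hx : x ≤ w) {s z s' z' : ℕ} (hs : s < 2) (hz : z < w) (hs' : s' < 2)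
    (hz' : z' < w) : shG w x (s, z) = some (s', z') ↔ shH w x (s', z') = some (s, z) := by
  have h1 : s = 0 ∨ s = 1 := by omega
  have h2 : s' = 0 ∨ s' = 1 := by omega
  rcases h1 with rfl | rfl <;> rcases h2 with rfl | rfl <;>
    simp only [shG, shH] <;> split_ifs <;>
    simp only [Option.some.injEq, Prod.mk.injEq, false_iff, iff_false, true_and,
      zero_ne_one, one_ne_zero, false_and] <;>
    first | (exfalso; assumption) | omega

private theorem DOf_shG_lt {w x : ℕ} (hx : x ≤ w) {s z s' z' : ℕ} (hs : s < 2)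
    (hz : z < w) (h : shG w x (s, z) = some (s', z')) : s' < 2 ∧ z' < w := by
  have h1 : s = 0 ∨ s = 1 := by omega
  rcases h1 with rfl | rfl <;> simp only [shG] at h <;> split_ifs at h <;>
    simp at h <;> omega

private theorem DOf_shH_lt {w x : ℕ} (hx : x ≤ w) {s z s' z' : ℕ} (hs : s < 2)
    (hz : z < w) (h : shH w x (s, z) = some (s', z')) : s' < 2 ∧ z' < w := by
  have h1 : s = 0 ∨ s = 1 := by omega
  rcases h1 with rfl | rfl <;> simp only [shH] at h <;> split_ifs at h <;>
    simp at h <;> omega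

theorem dataOf_ok {w X Y : ℕ} {mort al : Bool} (hw : 0 < w) (hX : X ≤ w) (hY : Y ≤ w) :
    (dataOf w X Y mort al).Ok := by
  refine ⟨hw, ?_⟩
  intro d s z s' z' hd hs hz h
  have hd' : d = 0 ∨ d = 1 ∨ d = 2 ∨ d = 3 := by omega
  rcases hd' with rfl | rfl | rfl | rfl
  · exact DOf_shG_lt hX hs hz (by simpa [dataOf] using h)
  · exact DOf_shH_lt hX hs hz (by simpa [dataOf] using h)
  · exact DOf_shG_lt hY hs hz (by simpa [dataOf] using h)
  · exact DOf_shH_lt hY hs hz (by simpa [dataOf] using h)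

theorem dataOf_inv {w X Y : ℕ} {mort al : Bool} (hX : X ≤ w) (hY : Y ≤ w) :
    InvData (dataOf w X Y mort al) := by
  intro d s z s' z' hd hs hz hs' hz'
  have hd' : d = 0 ∨ d = 1 ∨ d = 2 ∨ d = 3 := by omega
  rcases hd' with rfl | rfl | rfl | rfl
  · simpa [dataOf, gi] using shG_shH hX hs hz hs' hz'
  · simpa [dataOf, gi] using (shG_shH hX hs' hz' hs hz).symm
  · simpa [dataOf, gi] using shG_shH hY hs hz hs' hz'
  · simpa [dataOf, gi] using (shG_shH hY hs' hz' hs hz).symm

end Pool.Agent.MP_fadef1_lc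
end

section

namespace Pool.Agent.MP_fadef1_lc

private theorem inv1_gate {D : Data} (hD : D.Ok) {d b c : ℕ} (hd : d < 4) {p q : ℕ × ℕ}
    (hp : p.2 < D.w) :
    evalL D ⟨0, d, b, c⟩ p = some q ↔
      (∃ s s', s < 2 ∧ s' < 2 ∧ p.1 = b + s ∧ q.1 = b + s' ∧ D.g d (s, p.2) = some (s', q.2)) ∨
        (p.1 ≠ b ∧ p.1 ≠ b + 1 ∧ p = q) := by
  obtain ⟨u, z⟩ := p
  obtain ⟨v, y⟩ := q
  simp only at hp
  have key : ∀ s, s < 2 → ((D.g d (s, z)).map (fun s => (b + s.1, s.2)) = some (v, y) ↔
      ∃ s', s' < 2 ∧ v = b + s' ∧ D.g d (s, z) = some (s', y)) := by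
    intro s hs
    constructor
    · intro h
      rw [Option.map_eq_some_iff] at h
      obtain ⟨⟨s', z'⟩, h1, h2⟩ := h
      simp only [Prod.mk.injEq] at h2
      obtain ⟨h3, h4⟩ := h2
      subst h4
      exact ⟨s', (hD.2 d s z s' z' hd hs hp h1).1, h3.symm, h1⟩
    · rintro ⟨s', _, h3, h4⟩
      rw [h4]
      simp [h3]
  simp only [evalL, if_true]
  by_cases h1 : u = b
  · rw [if_pos h1, key 0 (by norm_num)]
    constructor
    · rintro ⟨s', h2, h3, h4⟩
      exact Or.inl ⟨0, s', by norm_num, h2, by simpa using h1, h3, h4⟩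
    · rintro (⟨s, s', h2, h3, h4, h5, h6⟩ | ⟨h2, _⟩)
      · have : s = 0 := by omega
        subst this
        exact ⟨s', h3, h5, h6⟩
      · exact absurd h1 h2
  · rw [if_neg h1]
    by_cases h2 : u = b + 1
    · rw [if_pos h2, key 1 (by norm_num)]
      constructor
      · rintro ⟨s', h2', h3, h4⟩
        exact Or.inl ⟨1, s', by norm_num, h2', h2, h3, h4⟩
      · rintro (⟨s, s', h2', h3, h4, h5, h6⟩ | ⟨_, h2', _⟩)
        · have : s = 1 := by omega
          subst this
          exact ⟨s', h3, h5, h6⟩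
        · exact absurd h2 h2'
    · rw [if_neg h2]
      constructor
      · intro h
        exact Or.inr ⟨h1, h2, Option.some_injective _ h⟩
      · rintro (⟨s, s', h2', h3, h4, h5, h6⟩ | ⟨_, _, h3⟩)
        · omega
        · rw [h3]

/-- Case split on `l.t`. `t = 0` (gate, `l.inv` is the gate `gi l.a` at the same addresses): if
`p.1 = l.b` or `p.1 = l.b + 1`, the output is `(l.b + s', z')` with `s' < 2` by `hD.2`, and the
inverse gate sends it back by `hI`; conversely the same with `hI` read from right to left; if `p.1`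
is neither, `q = p` and nothing happens in both directions. `t = 1`, `t = 2`: the shift up inside
`[l.a,l.b)` and the shift down inside `[l.a,l.b)` are inverse partial bijections (omega). -/
theorem evalL_inv {D : Data} (hD : D.Ok) (hI : InvData D) {l : Layer} (h2 : l.t ≤ 2)
    (h0 : l.t = 0 → l.a < 4) {p q : ℕ × ℕ} (hp : p.2 < D.w) (hq : q.2 < D.w) :
    evalL D l p = some q ↔ evalL D l.inv q = some p := by
  obtain ⟨t, a, b, c⟩ := l
  simp only at h2 h0
  obtain rfl | rfl | rfl : t = 0 ∨ t = 1 ∨ t = 2 := by omega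
  · have ha : a < 4 := h0 rfl
    have hinv : (Layer.inv ⟨0, a, b, c⟩) = ⟨0, gi a, b, c⟩ := by
      simp [Layer.inv, gi]
    have hga : gi a < 4 := by
      unfold gi
      split_ifs <;> omega
    rw [hinv, inv1_gate hD ha hp, inv1_gate hD hga hq]
    constructor
    · rintro (⟨s, s', h1, h3, h4, h5, h6⟩ | ⟨h1, h3, h4⟩)
      · refine Or.inl ⟨s', s, h3, h1, h5, h4, ?_⟩
        exact (hI a s p.2 s' q.2 ha h1 hp h3 hq).1 h6
      · subst h4
        exact Or.inr ⟨h1, h3, rfl⟩
    · rintro (⟨s, s', h1, h3, h4, h5, h6⟩ | ⟨h1, h3, h4⟩)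
      · refine Or.inl ⟨s', s, h3, h1, h5, h4, ?_⟩
        exact (hI a s' p.2 s q.2 ha h3 hp h1 hq).2 h6
      · subst h4
        exact Or.inr ⟨h1, h3, rfl⟩
  · obtain ⟨u, z⟩ := p
    obtain ⟨v, y⟩ := q
    simp only [evalL, Layer.inv]
    norm_num
    constructor
    · intro h
      split_ifs at h with h1 h3
      all_goals simp only [Option.some.injEq, Prod.mk.injEq] at h
      · obtain ⟨h4, h5⟩ := h
        rw [if_pos (by omega), if_pos (by omega)]
        simp only [Option.some.injEq, Prod.mk.injEq]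
        omega
      · obtain ⟨h4, h5⟩ := h
        rw [if_neg (by omega)]
        simp only [Option.some.injEq, Prod.mk.injEq]
        omega
    · intro h
      split_ifs at h with h1 h3
      all_goals simp only [Option.some.injEq, Prod.mk.injEq] at h
      · obtain ⟨h4, h5⟩ := h
        rw [if_pos (by omega), if_pos (by omega)]
        simp only [Option.some.injEq, Prod.mk.injEq]
        omega
      · obtain ⟨h4, h5⟩ := h
        rw [if_neg (by omega)]
        simp only [Option.some.injEq, Prod.mk.injEq]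
        omega
  · obtain ⟨u, z⟩ := p
    obtain ⟨v, y⟩ := q
    simp only [evalL, Layer.inv]
    norm_num
    constructor
    · intro h
      split_ifs at h with h1 h3
      all_goals simp only [Option.some.injEq, Prod.mk.injEq] at h
      · obtain ⟨h4, h5⟩ := h
        rw [if_pos (by omega), if_pos (by omega)]
        simp only [Option.some.injEq, Prod.mk.injEq]
        omega
      · obtain ⟨h4, h5⟩ := h
        rw [if_neg (by omega)]
        simp only [Option.some.injEq, Prod.mk.injEq]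
        omega
    · intro h
      split_ifs at h with h1 h3
      all_goals simp only [Option.some.injEq, Prod.mk.injEq] at h
      · obtain ⟨h4, h5⟩ := h
        rw [if_pos (by omega), if_pos (by omega)]
        simp only [Option.some.injEq, Prod.mk.injEq]
        omega
      · obtain ⟨h4, h5⟩ := h
        rw [if_neg (by omega)]
        simp only [Option.some.injEq, Prod.mk.injEq]
        omega

end Pool.Agent.MP_fadef1_lc
end
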