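import Pool.Agent.Lib.MP_fadef1_lc.Mg.G026

section

namespace Pool.Agent.MP_fadef1_lc

/-- Level 0: `w = X = Y = 1`, region `mi`: `Kx + Ky = κ B (g+1) = κ mi`. New numbers
`X' = N₁ * headI`, `Y' = num (tail) * B^3`, which encode the start configuration at width `N`
(`val_num`, `N = B^(len + 3)`). -/
theorem step_init {T : TM} (hT : T.Ok) {l : List ℕ} (hl : ∀ x ∈ l, x < T.g) :
    ∃ X' Y', (T.sys l).Step 1 1 1 T.mi X' Y' ∧ Enc T (cfg0 l) (T.NN l) X' Y' := by
  obtain ⟨hB1, hB2, hB3, hB4⟩ := B_facts hT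
  have hg := hT.hg
  have hBpos : 0 < T.B := by omega
  have hhead : l.headI < T.g := by
    cases l with
    | nil =>
      simp only [List.headI_nil]
      exact hg
    | cons a l => exact hl a List.mem_cons_self
  have htail : ∀ x ∈ l.tail, x < T.g := fun x hx => hl x (List.mem_of_mem_tail hx)
  have hnum : ((T.num l.tail : ℕ) : ℚ) = (T.B : ℚ) ^ l.tail.length * val T.B l.tail :=
    val_num T.B hBpos l.tail
  have hval := val_lt hg hB4 htail
  have hB0 : (0 : ℚ) < T.B := by exact_mod_cast hBpos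
  have hv1 : val T.B l.tail < 1 := by
    have h3 : (T.B : ℚ) * val T.B l.tail < T.B * 1 := by
      have : (T.g : ℚ) ≤ T.B := by exact_mod_cast hB4
      linarith
    exact lt_of_mul_lt_mul_left h3 hB0.le
  have hY : ((T.num l.tail * T.B ^ 3 : ℕ) : ℚ) = (T.NN l : ℚ) * val T.B l.tail := by
    push_cast
    rw [hnum]
    simp only [TM.NN]
    push_cast
    ring
  have hYle : T.num l.tail * T.B ^ 3 ≤ T.NN l := by
    have : ((T.num l.tail * T.B ^ 3 : ℕ) : ℚ) ≤ (T.NN l : ℚ) := by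
      rw [hY]
      have h0 : (0 : ℚ) ≤ (T.NN l : ℚ) := by positivity
      nlinarith [hv1]
    exact_mod_cast this
  have hNN : T.NN l = T.N1 l * T.B := by
    simp only [TM.NN, TM.N1]
    rw [← pow_succ]
  have hN1 : 0 < T.N1 l := by
    simp only [TM.N1]
    positivity
  have hXle : T.N1 l * l.headI ≤ T.NN l := by
    rw [hNN]
    exact Nat.mul_le_mul_left _ (by omega)
  have hNpos : 0 < T.NN l := by rw [hNN]; positivity
  refine ⟨T.N1 l * l.headI, T.num l.tail * T.B ^ 3, ?_, ?_⟩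
  · have eaX : T.aX l T.mi = 0 := by simp [TM.aX]
    have eaY : T.aY l T.mi = 0 := by simp [TM.aY]
    have ebXp : T.bXp l T.mi = T.N1 l * l.headI := by simp [TM.bXp]
    have ebYp : T.bYp l T.mi = T.num l.tail * T.B ^ 3 := by simp [TM.bYp]
    have ebXm : T.bXm l T.mi = 0 := by simp [TM.bXm]
    have ebYm : T.bYm l T.mi = 0 := by simp [TM.bYm]
    have hK : 4 * T.NN l * T.B * T.B * T.g + 4 * T.NN l * T.B * T.B
        = 4 * T.NN l * T.B * T.mi := by
      simp only [TM.mi]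
      ring
    have hroom : ∀ t, t ≤ T.NN l →
        4 * T.NN l * T.B * T.mi + 3 * T.NN l + t + 1 < 4 * T.NN l * T.B * (T.mi + 1) := by
      intro t ht
      have h1 : T.NN l * 32 ≤ T.NN l * T.B := Nat.mul_le_mul_left _ hB3
      nlinarith
    constructor
    · show T.mi < T.mi + 1
      omega
    · exact le_rfl
    · exact le_rfl
    · show 4 * T.NN l * T.B * T.mi * 1 ≤
        4 * T.NN l * T.B * T.B * T.g * 1 + 4 * T.NN l * T.B * T.B * 1
      rw [mul_one, mul_one, mul_one, hK]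
    · show 4 * T.NN l * T.B * T.B * T.g * 1 + 4 * T.NN l * T.B * T.B * 1 + 3 * T.NN l * 1 +
        T.aX l T.mi * 1 + T.bXp l T.mi * 1 + 1 < 4 * T.NN l * T.B * (T.mi + 1) * 1
      rw [eaX, ebXp]
      have := hroom _ hXle
      simp only [mul_one]
      rw [hK]
      omega
    · show 4 * T.NN l * T.B * T.B * T.g * 1 + 4 * T.NN l * T.B * T.B * 1 + 3 * T.NN l * 1 +
        T.aY l T.mi * 1 + T.bYp l T.mi * 1 + 1 < 4 * T.NN l * T.B * (T.mi + 1) * 1
      rw [eaY, ebYp]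
      have := hroom _ hYle
      simp only [mul_one]
      rw [hK]
      omega
    · show T.N1 l * l.headI + T.bXm l T.mi * 1 = T.aX l T.mi * 1 + T.bXp l T.mi * 1
      rw [eaX, ebXp, ebXm]
      ring
    · show T.num l.tail * T.B ^ 3 + T.bYm l T.mi * 1 = T.aY l T.mi * 1 + T.bYp l T.mi * 1
      rw [eaY, ebYp, ebYm]
      ring
    · show T.N1 l * l.headI ≤ T.NN l * 1
      omega
    · show T.num l.tail * T.B ^ 3 ≤ T.NN l * 1
      omega
  · refine ⟨⟨?_, ?_, ?_, ?_⟩, ?_, ?_⟩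
    · exact hT.hS
    · exact hhead
    · intro x hx
      simp [cfg0] at hx
    · exact htail
    · simp only [cfg0, val]
      rw [hNN]
      push_cast
      ring
    · simp only [cfg0]
      exact hY

end Pool.Agent.MP_fadef1_lc
end

section

namespace Pool.Agent.MP_fadef1_lc

private theorem TMS0_dec {T : TM} (hT : T.Ok) {c : Cfg} (hc : CfgOk T c) :
    T.dec (reg T c) = T.tr c.q c.h ∧ reg T c ≠ T.mi := by
  obtain ⟨-, -, h3, h4, h5⟩ := reg_facts hT hc
  exact ⟨by rw [TM.dec, h3, h4], h5.ne⟩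

private theorem TMS0_room {n B m w A a : ℕ} (hn : 1 ≤ n) (hB : 32 ≤ B) (hw : 0 < w)
    (h : 4 * A ≤ 4 * n * B * (4 * m + 1) * w) (ha : a ≤ n * B * w + 2 * n * w) :
    A + 3 * n * w + a + w < 4 * n * B * (m + 1) * w := by
  have e1 : 4 * n * B * (4 * m + 1) * w = 16 * (n * B * m * w) + 4 * (n * B * w) := by ring
  have e2 : 4 * n * B * (m + 1) * w = 4 * (n * B * m * w) + 4 * (n * B * w) := by ring
  have e3 : n * B * w = B * (n * w) := by ring
  have e4 : 32 * (n * w) ≤ B * (n * w) := Nat.mul_le_mul_right _ hB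
  have e5 : w ≤ n * w := Nat.le_mul_of_pos_left _ hn
  have e6 : 2 * n * w = 2 * (n * w) := by ring
  have e7 : 3 * n * w = 3 * (n * w) := by ring
  rw [e1] at h
  rw [e2, e7]
  rw [e6] at ha
  rw [e3] at h ha ⊢
  omega

/-- General reduction of `Step` for the region of a configuration: `enc_disp` gives `hD` and both
room conditions, because `κ w / 4 + 3 N w + aX m X + bXp m w + w < κ w` follows from
`aX m * X + bXp m * w ≤ N B w + 2 N w` (`κ = 4 N B`, `B ≥ 32`). -/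
theorem step_of_bounds {T : TM} (hT : T.Ok) {c : Cfg} {w X Y X' Y' : ℕ} (h : Enc T c w X Y)
    (hw : 0 < w) (l : List ℕ)
    (h1 : T.aX l (reg T c) * X + T.bXp l (reg T c) * w ≤ T.NN l * T.B * w + 2 * T.NN l * w)
    (h2 : T.aY l (reg T c) * Y + T.bYp l (reg T c) * w ≤ T.NN l * T.B * w + 2 * T.NN l * w)
    (e1 : X' + T.bXm l (reg T c) * w = T.aX l (reg T c) * X + T.bXp l (reg T c) * w)
    (e2 : Y' + T.bYm l (reg T c) * w = T.aY l (reg T c) * Y + T.bYp l (reg T c) * w)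
    (l1 : X' ≤ T.NN l * w) (l2 : Y' ≤ T.NN l * w) :
    (T.sys l).Step w X Y (reg T c) X' Y' := by
  obtain ⟨-, -, hB, -⟩ := B_facts hT
  obtain ⟨-, -, -, -, hm⟩ := reg_facts hT h.ok
  obtain ⟨hX, hY⟩ := enc_le hT h
  obtain ⟨d1, d2⟩ := enc_disp hT h hw l
  have hn : 1 ≤ T.NN l := Nat.one_le_pow _ _ (by omega)
  refine ⟨?_, hX, hY, d1, ?_, ?_, e1, e2, l1, l2⟩
  · show reg T c < T.mi + 1
    omega
  · have := TMS0_room hn hB hw d2 h1
    show (T.sys l).Kx * X + (T.sys l).Ky * Y + 3 * T.NN l * w + T.aX l (reg T c) * X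
      + T.bXp l (reg T c) * w + w < 4 * T.NN l * T.B * (reg T c + 1) * w
    omega
  · have := TMS0_room hn hB hw d2 h2
    show (T.sys l).Kx * X + (T.sys l).Ky * Y + 3 * T.NN l * w + T.aY l (reg T c) * Y
      + T.bYp l (reg T c) * w + w < 4 * T.NN l * T.B * (reg T c + 1) * w
    omega

/-- Halting region: all coefficients are `0`, `X' = Y' = 0`. -/
theorem step_halt {T : TM} (hT : T.Ok) {c : Cfg} {w X Y : ℕ} (h : Enc T c w X Y) (hw : 0 < w)
    (l : List ℕ) (ht : T.tr c.q c.h = none) :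
    (T.sys l).Step w X Y (reg T c) 0 0 := by
  obtain ⟨hd, hne⟩ := TMS0_dec hT h.ok
  rw [ht] at hd
  have a1 : T.aX l (reg T c) = 0 := by simp only [TM.aX, if_neg hne, hd]
  have a2 : T.bXp l (reg T c) = 0 := by simp only [TM.bXp, if_neg hne, hd]
  have a3 : T.bXm l (reg T c) = 0 := by simp only [TM.bXm, if_neg hne, hd]
  have a4 : T.aY l (reg T c) = 0 := by simp only [TM.aY, if_neg hne, hd]
  have a5 : T.bYp l (reg T c) = 0 := by simp only [TM.bYp, if_neg hne, hd]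
  have a6 : T.bYm l (reg T c) = 0 := by simp only [TM.bYm, if_neg hne, hd]
  refine step_of_bounds hT h hw l ?_ ?_ ?_ ?_ (Nat.zero_le _) (Nat.zero_le _)
  · rw [a1, a2]; simp
  · rw [a4, a5]; simp
  · rw [a1, a2, a3]; simp
  · rw [a4, a5, a6]; simp

/-- `hlt` in the region of `c` is true iff `tr c.q c.h = none` (`reg_facts`). -/
theorem hlt_reg {T : TM} (hT : T.Ok) {c : Cfg} (hc : CfgOk T c) :
    T.hlt (reg T c) = (T.tr c.q c.h).isNone := by
  obtain ⟨hd, hne⟩ := TMS0_dec hT hc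
  unfold TM.hlt
  rw [hd, decide_eq_true hne, Bool.true_and]

end Pool.Agent.MP_fadef1_lc
end

section

namespace Pool.Agent.MP_fadef1_lc

/-- Left move: `X' = N B X + N₁ g q' w - N σ w`, `Y' = N₁ Y + N₁ h w` (`N = N₁ B`). The numbers
exist: choose `X'` with `B X' = N w (code' + val l')`, where
`code' = g q' + headI l`, `l' = tail l`, using `B val l = headI l + val l'`; the natural number `X'`
is `N B X + N₁ g q' w - N σ w`, which is `≥ 0` because it is equal to this rational number. -/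
theorem step_left {T : TM} (hT : T.Ok) {c : Cfg} {w X Y q' : ℕ} (h : Enc T c w X Y) (hw : 0 < w)
    (l : List ℕ) (ht : T.tr c.q c.h = some (q', 0)) :
    ∃ X' Y', (T.sys l).Step w X Y (reg T c) X' Y' ∧
      Enc T ⟨q', c.l.headI, c.l.tail, c.h :: c.r⟩ (T.NN l * w) X' Y' := by
  obtain ⟨r1, r2, r3, r4, r5⟩ := reg_facts hT h.ok
  obtain ⟨b1, b2, b3, b4⟩ := B_facts hT
  have hne : reg T c ≠ T.mi := r5.ne
  have hdec : T.dec (reg T c) = some (q', 0) := by
    rw [TM.dec, r3, r4, ht]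
  have hN : T.NN l = T.N1 l * T.B := by rw [TM.NN, TM.N1, ← pow_succ]
  have hB : 0 < T.B := by omega
  have hBq : (T.B : ℚ) ≠ 0 := by exact_mod_cast hB.ne'
  have eaX : T.aX l (reg T c) = T.NN l * T.B := by
    simp only [TM.aX, if_neg hne, hdec]
  have ebXp : T.bXp l (reg T c) = T.N1 l * (T.g * q') := by
    simp only [TM.bXp, if_neg hne, hdec]
  have ebXm : T.bXm l (reg T c) = T.NN l * (c.q * T.g + c.h) := by
    simp only [TM.bXm, if_neg hne, hdec, r1]
  have eaY : T.aY l (reg T c) = T.N1 l := by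
    simp only [TM.aY, if_neg hne, hdec]
  have ebYp : T.bYp l (reg T c) = T.N1 l * c.h := by
    simp only [TM.bYp, if_neg hne, hdec, r4]
  have ebYm : T.bYm l (reg T c) = 0 := by
    simp only [TM.bYm, if_neg hne, hdec]
  obtain ⟨hq', -⟩ := hT.htr c.q c.h q' 0 h.ok.hq h.ok.hh ht
  obtain ⟨hXw, hYw⟩ := enc_le hT h
  obtain ⟨σ, hσ⟩ : ∃ σ, σ = c.q * T.g + c.h := ⟨_, rfl⟩
  have hXq := h.hX
  have hYq := h.hY
  rw [← hσ] at hXq ebXm
  have hv0 := val_nonneg T.B c.l
  -- the subtraction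
  have hle : T.NN l * σ * w ≤ T.NN l * T.B * X + T.N1 l * (T.g * q') * w := by
    have h1 : ((σ * w : ℕ) : ℚ) ≤ ((T.B * X : ℕ) : ℚ) := by
      push_cast
      rw [hXq]
      have hw0 : (0 : ℚ) ≤ w := Nat.cast_nonneg w
      nlinarith
    have h2 : σ * w ≤ T.B * X := by exact_mod_cast h1
    calc T.NN l * σ * w = T.NN l * (σ * w) := by ring
      _ ≤ T.NN l * (T.B * X) := Nat.mul_le_mul_left _ h2
      _ = T.NN l * T.B * X := by ring
      _ ≤ _ := Nat.le_add_right _ _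
  obtain ⟨X', hX'⟩ : ∃ X', X' = T.NN l * T.B * X + T.N1 l * (T.g * q') * w - T.NN l * σ * w :=
    ⟨_, rfl⟩
  have hX'2 : X' + T.NN l * σ * w = T.NN l * T.B * X + T.N1 l * (T.g * q') * w := by
    rw [hX']
    exact Nat.sub_add_cancel hle
  have hok : CfgOk T ⟨q', c.l.headI, c.l.tail, c.h :: c.r⟩ := by
    apply cfgOk_step hT h.ok
    rw [TM.step, ht]
  have hvh := val_head T.B hB c.l
  have henc : Enc T ⟨q', c.l.headI, c.l.tail, c.h :: c.r⟩ (T.NN l * w) X'
      (T.N1 l * Y + T.N1 l * c.h * w) := by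
    refine ⟨hok, ?_, ?_⟩
    · have h1 : ((X' + T.NN l * σ * w : ℕ) : ℚ) =
          ((T.NN l * T.B * X + T.N1 l * (T.g * q') * w : ℕ) : ℚ) := by rw [hX'2]
      have hNq : (T.NN l : ℚ) = T.N1 l * T.B := by exact_mod_cast hN
      push_cast at h1 ⊢
      have h2 : (X' : ℚ) = T.NN l * (T.B * X) + T.N1 l * (T.g * q') * w - T.NN l * σ * w := by
        linarith
      rw [h2, hXq]
      have h3 : (T.NN l : ℚ) * (w * (σ + val T.B c.l)) + T.N1 l * (T.g * q') * w -
          T.NN l * σ * w = T.N1 l * w * (T.B * val T.B c.l + T.g * q') := by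
        rw [hNq]
        ring
      rw [h3, hvh, hNq]
      ring
    · push_cast
      rw [hYq]
      simp only [val]
      have hNq : (T.NN l : ℚ) = T.N1 l * T.B := by exact_mod_cast hN
      rw [hNq]
      field_simp
      ring
  obtain ⟨l1, l2⟩ := enc_le hT henc
  refine ⟨X', T.N1 l * Y + T.N1 l * c.h * w, ?_, henc⟩
  refine step_of_bounds hT h hw l ?_ ?_ ?_ ?_ l1 l2
  · rw [eaX, ebXp]
    have h1 : T.g * q' ≤ T.B := by
      calc T.g * q' ≤ T.g * T.S := Nat.mul_le_mul_left _ hq'.le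
        _ = T.S * T.g := Nat.mul_comm _ _
        _ ≤ T.B := by omega
    have h2 : T.N1 l * (T.g * q') * w ≤ T.NN l * w := by
      rw [hN]
      exact Nat.mul_le_mul_right _ (Nat.mul_le_mul_left _ h1)
    have h3 : T.NN l * T.B * X ≤ T.NN l * T.B * w := Nat.mul_le_mul_left _ hXw
    have h4 : T.NN l * w ≤ 2 * T.NN l * w := by
      rw [mul_assoc]
      omega
    omega
  · rw [eaY, ebYp]
    have hh := h.ok.hh
    have h1 : T.N1 l * Y ≤ T.NN l * w := by
      rw [hN]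
      exact Nat.mul_le_mul (Nat.le_mul_of_pos_right _ hB) hYw
    have h2 : T.N1 l * c.h * w ≤ T.NN l * w := by
      rw [hN]
      exact Nat.mul_le_mul_right _ (Nat.mul_le_mul_left _ (by omega))
    have h4 : T.NN l * w + T.NN l * w = 2 * T.NN l * w := by ring
    have h5 : 0 ≤ T.NN l * T.B * w := Nat.zero_le _
    omega
  · rw [eaX, ebXp, ebXm]
    exact hX'2
  · rw [eaY, ebYp, ebYm]
    ring

end Pool.Agent.MP_fadef1_lc
end

section

namespace Pool.Agent.MP_fadef1_lc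

/-- Write: `X' = N X + N₁ (g q' + a) w - N₁ σ w`, `Y' = N Y`. -/
theorem step_write {T : TM} (hT : T.Ok) {c : Cfg} {w X Y q' a : ℕ} (h : Enc T c w X Y)
    (hw : 0 < w) (l : List ℕ) (ht : T.tr c.q c.h = some (q', a + 2)) :
    ∃ X' Y', (T.sys l).Step w X Y (reg T c) X' Y' ∧
      Enc T ⟨q', a, c.l, c.r⟩ (T.NN l * w) X' Y' := by
  obtain ⟨r1, r2, r3, r4, r5⟩ := reg_facts hT h.ok
  obtain ⟨b1, b2, b3, b4⟩ := B_facts hT
  have hne : reg T c ≠ T.mi := r5.ne
  have hdec : T.dec (reg T c) = some (q', a + 2) := by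
    rw [TM.dec, r3, r4, ht]
  have hN : T.NN l = T.N1 l * T.B := by rw [TM.NN, TM.N1, ← pow_succ]
  have hB : 0 < T.B := by omega
  have hBq : (T.B : ℚ) ≠ 0 := by exact_mod_cast hB.ne'
  obtain ⟨σ, hσ⟩ : ∃ σ, σ = c.q * T.g + c.h := ⟨_, rfl⟩
  have eaX : T.aX l (reg T c) = T.NN l := by
    simp only [TM.aX, if_neg hne, hdec]
  have ebXp : T.bXp l (reg T c) = T.N1 l * (T.g * q' + a) := by
    simp only [TM.bXp, if_neg hne, hdec]
  have ebXm : T.bXm l (reg T c) = T.N1 l * σ := by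
    simp only [TM.bXm, if_neg hne, hdec, r1, ← hσ]
  have eaY : T.aY l (reg T c) = T.NN l := by
    simp only [TM.aY, if_neg hne, hdec]
  have ebYp : T.bYp l (reg T c) = 0 := by
    simp only [TM.bYp, if_neg hne, hdec]
  have ebYm : T.bYm l (reg T c) = 0 := by
    simp only [TM.bYm, if_neg hne, hdec]
  obtain ⟨hq', ha⟩ := hT.htr c.q c.h q' (a + 2) h.ok.hq h.ok.hh ht
  obtain ⟨hXw, hYw⟩ := enc_le hT h
  have hXq := h.hX
  have hYq := h.hY
  rw [← hσ] at hXq
  have hw0 : (0 : ℚ) ≤ w := Nat.cast_nonneg w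
  have hv0 := val_nonneg T.B c.l
  have hok : CfgOk T ⟨q', a, c.l, c.r⟩ := by
    apply cfgOk_step hT h.ok
    rw [TM.step, ht]
  have hle : T.N1 l * σ * w ≤ T.NN l * X + T.N1 l * (T.g * q' + a) * w := by
    have h1 : ((σ * w : ℕ) : ℚ) ≤ ((T.B * X : ℕ) : ℚ) := by
      push_cast
      rw [hXq]
      nlinarith
    have h2 : σ * w ≤ T.B * X := by exact_mod_cast h1
    calc T.N1 l * σ * w = T.N1 l * (σ * w) := by ring
      _ ≤ T.N1 l * (T.B * X) := Nat.mul_le_mul_left _ h2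
      _ = T.NN l * X := by rw [hN]; ring
      _ ≤ _ := Nat.le_add_right _ _
  obtain ⟨X', hX'⟩ : ∃ X', X' = T.NN l * X + T.N1 l * (T.g * q' + a) * w - T.N1 l * σ * w :=
    ⟨_, rfl⟩
  have hX'2 : X' + T.N1 l * σ * w = T.NN l * X + T.N1 l * (T.g * q' + a) * w := by
    rw [hX']
    exact Nat.sub_add_cancel hle
  have hNq : (T.NN l : ℚ) = T.N1 l * T.B := by exact_mod_cast hN
  have henc : Enc T ⟨q', a, c.l, c.r⟩ (T.NN l * w) X' (T.NN l * Y) := by
    refine ⟨hok, ?_, ?_⟩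
    · have h1 : ((X' + T.N1 l * σ * w : ℕ) : ℚ) =
          ((T.NN l * X + T.N1 l * (T.g * q' + a) * w : ℕ) : ℚ) := by rw [hX'2]
      push_cast at h1 ⊢
      have h2 : (X' : ℚ) = T.N1 l * (T.B * X) + T.N1 l * (T.g * q' + a) * w -
          T.N1 l * σ * w := by
        have h4 : (T.NN l : ℚ) * X = T.N1 l * (T.B * X) := by rw [hNq]; ring
        linarith
      rw [h2, hXq, hNq]
      ring
    · push_cast
      rw [hYq]
      ring
  obtain ⟨l1, l2⟩ := enc_le hT henc
  refine ⟨X', T.NN l * Y, ?_, henc⟩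
  have hNB : T.NN l * w ≤ T.NN l * T.B * w :=
    Nat.mul_le_mul_right _ (Nat.le_mul_of_pos_right _ hB)
  refine step_of_bounds hT h hw l ?_ ?_ ?_ ?_ l1 l2
  · rw [eaX, ebXp]
    have h1 : T.g * q' + a ≤ T.B := by
      have h6 : T.g * q' + T.g ≤ T.g * T.S := by
        rw [← Nat.mul_succ]
        exact Nat.mul_le_mul_left _ hq'
      have h7 : T.g * T.S = T.S * T.g := Nat.mul_comm _ _
      omega
    have h2 : T.N1 l * (T.g * q' + a) * w ≤ T.NN l * w := by
      rw [hN]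
      exact Nat.mul_le_mul_right _ (Nat.mul_le_mul_left _ h1)
    have h3 : T.NN l * X ≤ T.NN l * w := Nat.mul_le_mul_left _ hXw
    have h4 : T.NN l * w + T.NN l * w = 2 * T.NN l * w := by ring
    omega
  · rw [eaY, ebYp]
    have h1 : T.NN l * Y ≤ T.NN l * w := Nat.mul_le_mul_left _ hYw
    omega
  · rw [eaX, ebXp, ebXm]
    exact hX'2
  · rw [eaY, ebYp, ebYm]

end Pool.Agent.MP_fadef1_lc
end
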