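import Pool.Agent.Lib.MP_fadef1_lc.Mg.G009
import Pool.Agent.Lib.MP_fadef1_lc.Mg.G019
import Pool.Agent.Lib.MP_fadef1_lc.Mg.G029

section

namespace Pool.Agent.MP_fadef1_lc

variable (S : Sys)

/-- `crep_out` twice -/
theorem disp_out (D : Data) {o a : ℕ} (z : ℕ) (h : a < o) :
    evalC D (S.disp o) (a, z) = some (a, z) := by
  unfold Sys.disp
  rw [evalC_append, crep_out D _ _ z (Or.inl h), Option.bind_some, crep_out D _ _ z (Or.inl h)]

/-- `crep_eval` twice (`D.g 0 = shG w X`, `D.g 2 = shG w Y`), total shift `Kx * X + Ky * Y`. -/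
theorem disp_eval {w X Y : ℕ} {mort al : Bool} (hw : 0 < w) (hX : X ≤ w) (hY : Y ≤ w) {o p : ℕ}
    (hlo : o * w ≤ p) (hhi : p + (S.Kx * X + S.Ky * Y) + w < (o + S.M0) * w) :
    evalC (dataOf w X Y mort al) (S.disp o) (unp w p) =
      some (unp w (p + (S.Kx * X + S.Ky * Y))) := by
  have h1 : evalC (dataOf w X Y mort al) (crep S.Kx (pass 0 o (o + S.M0))) (unp w p)
      = some (unp w (p + S.Kx * X)) :=
    crep_eval (D := dataOf w X Y mort al) (d := 0) (x := X) rfl hw hX S.Kx hlo (by
      show p + S.Kx * X + w < (o + S.M0) * w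
      omega)
  have h2 : evalC (dataOf w X Y mort al) (crep S.Ky (pass 2 o (o + S.M0)))
      (unp w (p + S.Kx * X)) = some (unp w (p + S.Kx * X + S.Ky * Y)) :=
    crep_eval (D := dataOf w X Y mort al) (d := 2) (x := Y) rfl hw hY S.Ky
      (le_trans hlo (Nat.le_add_right _ _)) (by
        show p + S.Kx * X + S.Ky * Y + w < (o + S.M0) * w
        omega)
  unfold Sys.disp
  rw [evalC_append, h1, Option.bind_some, h2, Nat.add_assoc]

theorem cirOk_disp (o : ℕ) : CirOk (S.disp o) := by
  intro l hl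
  rcases List.mem_append.1 hl with h | h
  · exact cirOk_pass (by norm_num) _ _ _ l h
  · exact cirOk_pass (by norm_num) _ _ _ l h

end Pool.Agent.MP_fadef1_lc
end

section

namespace Pool.Agent.MP_fadef1_lc

variable (S : Sys)

/-- the killing layers of `cE` -/
def killL : List Layer :=
  (List.range S.R).flatMap fun m =>
    if S.halt m then [Layer.up (S.κ * m) (S.κ * m + S.κ) S.κ] else []

theorem cE_eq : S.cE = S.disp 0 ++ killL S ++ cinv (S.disp 0) := rfl

private theorem cirOk_append {L₁ L₂ : List Layer} (h₁ : CirOk L₁) (h₂ : CirOk L₂) :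
    CirOk (L₁ ++ L₂) := by
  intro l hl
  rcases List.mem_append.1 hl with h | h
  · exact h₁ l h
  · exact h₂ l h

theorem cirOk_cE : CirOk S.cE := by
  rw [cE_eq]
  refine cirOk_append (cirOk_append (cirOk_disp S 0) ?_) (cirOk_cinv (cirOk_disp S 0))
  intro l hl
  unfold killL at hl
  rw [List.mem_flatMap] at hl
  obtain ⟨m, -, hm⟩ := hl
  split_ifs at hm with h
  · rw [List.mem_singleton] at hm
    subst hm
    refine ⟨?_, ?_⟩
    · simp [Layer.up]
    · intro h0
      simp [Layer.up] at h0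
  · simp at hm

private theorem evalL_up (D : Data) (lo hi β a z : ℕ) :
    evalL D (Layer.up lo hi β) (a, z) = if lo ≤ a ∧ a < hi then
      (if a + β < hi then some (a + β, z) else none) else some (a, z) := rfl

private theorem killL_aux (D : Data) {m a : ℕ} (z : ℕ) (h1 : S.κ * m ≤ a)
    (h2 : a < S.κ * m + S.κ) (L : List ℕ) :
    evalC D (L.flatMap fun m =>
      if S.halt m then [Layer.up (S.κ * m) (S.κ * m + S.κ) S.κ] else []) (a, z) =
      if m ∈ L ∧ S.halt m = true then none else some (a, z) := by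
  induction L with
  | nil => simp [evalC]
  | cons m' L ih =>
    rw [List.flatMap_cons, evalC_append]
    by_cases hh : S.halt m' = true
    · rw [if_pos hh]
      by_cases hm : m' = m
      · subst hm
        rw [if_pos ⟨List.mem_cons_self, hh⟩]
        have : evalL D (Layer.up (S.κ * m') (S.κ * m' + S.κ) S.κ) (a, z) = none := by
          rw [evalL_up, if_pos ⟨h1, h2⟩, if_neg (by omega)]
        simp [evalC, this]
      · have hnot : ¬ (S.κ * m' ≤ a ∧ a < S.κ * m' + S.κ) := by
          rintro ⟨h3, h4⟩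
          apply hm
          have hk : 0 < S.κ := by omega
          have e1 : a / S.κ = m := by
            rw [Nat.div_eq_iff hk]
            constructor
            · rw [mul_comm]; exact h1
            · have := mul_comm m S.κ
              omega
          have e2 : a / S.κ = m' := by
            rw [Nat.div_eq_iff hk]
            constructor
            · rw [mul_comm]; exact h3
            · have := mul_comm m' S.κ
              omega
          rw [← e1, ← e2]
        have : evalL D (Layer.up (S.κ * m') (S.κ * m' + S.κ) S.κ) (a, z) = some (a, z) := by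
          rw [evalL_up, if_neg hnot]
        simp only [evalC, this, Option.bind_some, ih, List.mem_cons]
        have hmm : ¬ m = m' := fun h => hm h.symm
        simp only [hmm, false_or]
    · rw [if_neg hh]
      simp only [evalC, Option.bind_some, ih, List.mem_cons]
      by_cases hm : m = m'
      · subst hm
        simp [hh]
      · simp only [hm, false_or]

/-- A lane in the band of region `m` is killed if `halt m`, otherwise it is not touched. -/
theorem killL_eval (D : Data) {m a : ℕ} (z : ℕ) (hm : m < S.R) (h1 : S.κ * m ≤ a)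
    (h2 : a < S.κ * m + S.κ) :
    evalC D (killL S) (a, z) = if S.halt m then none else some (a, z) := by
  unfold killL
  rw [killL_aux S D z h1 h2]
  simp [List.mem_range, hm]

/-- Position `p = a w + z < N w`; `disp_eval` sends it to `p + Kx X + Ky Y`, in the band of region
`m`; `killL_eval`; if not killed, `cinv (disp 0)` sends it back by `evalC_inv` (`dataOf_ok`,
`dataOf_inv`). -/
theorem cE_eval {w X Y m X' Y' : ℕ} {mort al : Bool} (hw : 0 < w) (hS : S.Step w X Y m X' Y')
    {a z : ℕ} (ha : a < S.N) (hz : z < w) :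
    evalC (dataOf w X Y mort al) S.cE (a, z) = if S.halt m then none else some (a, z) := by
  have hD := hS.hD
  have hroom := hS.roomX
  have hm := hS.hm
  set K := S.Kx * X + S.Ky * Y with hK
  have hp : a * w + z < S.N * w := by
    calc a * w + z < a * w + w := by omega
      _ = (a + 1) * w := by ring
      _ ≤ S.N * w := Nat.mul_le_mul_right _ ha
  have hN3 : S.N * w ≤ 3 * S.N * w := by
    have : 3 * S.N * w = S.N * w + 2 * (S.N * w) := by ring
    omega
  have hR : S.κ * (m + 1) * w ≤ (0 + S.M0) * w := by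
    unfold Sys.M0
    rw [zero_add]
    exact Nat.mul_le_mul_right _ (Nat.mul_le_mul_left _ hm)
  have hun : unp w (a * w + z) = (a, z) := by
    unfold unp
    rw [Nat.mul_comm a w, Nat.mul_add_div hw, Nat.mul_add_mod, Nat.mod_eq_of_lt hz,
      Nat.div_eq_of_lt hz, Nat.add_zero]
  have h1 := disp_eval S (mort := mort) (al := al) hw hS.hX hS.hY (o := 0) (p := a * w + z)
    (by rw [zero_mul]; exact Nat.zero_le _) (by omega)
  rw [hun, ← hK] at h1
  have hlo : S.κ * m ≤ (a * w + z + K) / w := by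
    rw [Nat.le_div_iff_mul_le hw]
    omega
  have hhi : (a * w + z + K) / w < S.κ * m + S.κ := by
    rw [Nat.div_lt_iff_lt_mul hw]
    have : S.κ * (m + 1) * w = (S.κ * m + S.κ) * w := by ring
    omega
  rw [cE_eq, evalC_append, evalC_append, h1, Option.bind_some]
  have h2 := killL_eval S (dataOf w X Y mort al) (a := (a * w + z + K) / w)
    ((a * w + z + K) % w) hm hlo hhi
  have h2' : evalC (dataOf w X Y mort al) (killL S) (unp w (a * w + z + K)) =
      if S.halt m then none else some (unp w (a * w + z + K)) := h2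
  rw [h2']
  by_cases hh : S.halt m = true
  · rw [if_pos hh, if_pos hh]
    rfl
  · rw [if_neg hh, if_neg hh, Option.bind_some]
    exact (evalC_inv (dataOf_ok hw hS.hX hS.hY) (dataOf_inv hS.hX hS.hY) (cirOk_disp S 0)
      (p := (a, z)) (q := unp w (a * w + z + K)) hz (Nat.mod_lt _ hw)).1 h1

end Pool.Agent.MP_fadef1_lc
end

section

namespace Pool.Agent.MP_fadef1_lc

/-- Right move: `X' = N₁ X + N₁ (g q' + r₁) w + N₂ h w - N₂ σ w`, `Y' = N B Y - N r₁ w`. -/
theorem step_right {T : TM} (hT : T.Ok) {c : Cfg} {w X Y q' : ℕ} (h : Enc T c w X Y) (hw : 0 < w)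
    (l : List ℕ) (ht : T.tr c.q c.h = some (q', 1)) :
    ∃ X' Y', (T.sys l).Step w X Y (reg T c) X' Y' ∧
      Enc T ⟨q', c.r.headI, c.h :: c.l, c.r.tail⟩ (T.NN l * w) X' Y' := by
  obtain ⟨r1, r2, r3, r4, r5⟩ := reg_facts hT h.ok
  obtain ⟨b1, b2, b3, b4⟩ := B_facts hT
  have hne : reg T c ≠ T.mi := r5.ne
  have hdec : T.dec (reg T c) = some (q', 1) := by
    rw [TM.dec, r3, r4, ht]
  have hN : T.NN l = T.N1 l * T.B := by rw [TM.NN, TM.N1, ← pow_succ]
  have hN1 : T.N1 l = T.N2 l * T.B := by rw [TM.N1, TM.N2, ← pow_succ]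
  have hB : 0 < T.B := by omega
  have hBq : (T.B : ℚ) ≠ 0 := by exact_mod_cast hB.ne'
  obtain ⟨σ, hσ⟩ : ∃ σ, σ = c.q * T.g + c.h := ⟨_, rfl⟩
  have eaX : T.aX l (reg T c) = T.N1 l := by
    simp only [TM.aX, if_neg hne, hdec]
  have ebXp : T.bXp l (reg T c) = T.N1 l * (T.g * q' + c.r.headI) + T.N2 l * c.h := by
    simp only [TM.bXp, if_neg hne, hdec, r2, r4]
  have ebXm : T.bXm l (reg T c) = T.N2 l * σ := by
    simp only [TM.bXm, if_neg hne, hdec, r1, ← hσ]
  have eaY : T.aY l (reg T c) = T.NN l * T.B := by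
    simp only [TM.aY, if_neg hne, hdec]
  have ebYp : T.bYp l (reg T c) = 0 := by
    simp only [TM.bYp, if_neg hne, hdec]
  have ebYm : T.bYm l (reg T c) = T.NN l * c.r.headI := by
    simp only [TM.bYm, if_neg hne, hdec, r2]
  obtain ⟨hq', -⟩ := hT.htr c.q c.h q' 1 h.ok.hq h.ok.hh ht
  obtain ⟨hXw, hYw⟩ := enc_le hT h
  have hXq := h.hX
  have hYq := h.hY
  rw [← hσ] at hXq
  have hw0 : (0 : ℚ) ≤ w := Nat.cast_nonneg w
  have hv0 := val_nonneg T.B c.l
  have hv1 := val_nonneg T.B c.r.tail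
  have hvh := val_head T.B hB c.r
  have hok : CfgOk T ⟨q', c.r.headI, c.h :: c.l, c.r.tail⟩ := by
    apply cfgOk_step hT h.ok
    rw [TM.step, ht]
  have hr1 : c.r.headI < T.g := hok.hh
  -- the subtractions
  have hle : T.N2 l * σ * w ≤ T.N1 l * X +
      (T.N1 l * (T.g * q' + c.r.headI) + T.N2 l * c.h) * w := by
    have h1 : ((σ * w : ℕ) : ℚ) ≤ ((T.B * X : ℕ) : ℚ) := by
      push_cast
      rw [hXq]
      nlinarith
    have h2 : σ * w ≤ T.B * X := by exact_mod_cast h1
    calc T.N2 l * σ * w = T.N2 l * (σ * w) := by ring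
      _ ≤ T.N2 l * (T.B * X) := Nat.mul_le_mul_left _ h2
      _ = T.N1 l * X := by rw [hN1]; ring
      _ ≤ _ := Nat.le_add_right _ _
  have hle2 : T.NN l * c.r.headI * w ≤ T.NN l * T.B * Y := by
    have h1 : ((c.r.headI * w : ℕ) : ℚ) ≤ ((T.B * Y : ℕ) : ℚ) := by
      push_cast
      rw [hYq]
      have h3 : (T.B : ℚ) * (w * val T.B c.r) = w * (c.r.headI + val T.B c.r.tail) := by
        rw [← hvh]
        ring
      rw [h3]
      nlinarith
    have h2 : c.r.headI * w ≤ T.B * Y := by exact_mod_cast h1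
    calc T.NN l * c.r.headI * w = T.NN l * (c.r.headI * w) := by ring
      _ ≤ T.NN l * (T.B * Y) := Nat.mul_le_mul_left _ h2
      _ = _ := by ring
  obtain ⟨X', hX'⟩ : ∃ X', X' = T.N1 l * X +
      (T.N1 l * (T.g * q' + c.r.headI) + T.N2 l * c.h) * w - T.N2 l * σ * w := ⟨_, rfl⟩
  have hX'2 : X' + T.N2 l * σ * w = T.N1 l * X +
      (T.N1 l * (T.g * q' + c.r.headI) + T.N2 l * c.h) * w := by
    rw [hX']
    exact Nat.sub_add_cancel hle
  obtain ⟨Y', hY'⟩ : ∃ Y', Y' = T.NN l * T.B * Y - T.NN l * c.r.headI * w := ⟨_, rfl⟩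
  have hY'2 : Y' + T.NN l * c.r.headI * w = T.NN l * T.B * Y := by
    rw [hY']
    exact Nat.sub_add_cancel hle2
  have hNq : (T.NN l : ℚ) = T.N1 l * T.B := by exact_mod_cast hN
  have hN1q : (T.N1 l : ℚ) = T.N2 l * T.B := by exact_mod_cast hN1
  have henc : Enc T ⟨q', c.r.headI, c.h :: c.l, c.r.tail⟩ (T.NN l * w) X' Y' := by
    refine ⟨hok, ?_, ?_⟩
    · have h1 : ((X' + T.N2 l * σ * w : ℕ) : ℚ) = ((T.N1 l * X +
          (T.N1 l * (T.g * q' + c.r.headI) + T.N2 l * c.h) * w : ℕ) : ℚ) := by rw [hX'2]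
      push_cast at h1 ⊢
      have h2 : (X' : ℚ) = T.N2 l * (T.B * X) +
          (T.N1 l * (T.g * q' + c.r.headI) + T.N2 l * c.h) * w - T.N2 l * σ * w := by
        have h4 : (T.N1 l : ℚ) * X = T.N2 l * (T.B * X) := by rw [hN1q]; ring
        linarith
      rw [h2, hXq]
      simp only [val]
      rw [hNq, hN1q]
      field_simp
      ring
    · have h1 : ((Y' + T.NN l * c.r.headI * w : ℕ) : ℚ) = ((T.NN l * T.B * Y : ℕ) : ℚ) := by
        rw [hY'2]
      push_cast at h1 ⊢
      have h2 : (Y' : ℚ) = T.NN l * w * (T.B * val T.B c.r) - T.NN l * c.r.headI * w := by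
        rw [hYq] at h1
        linarith
      rw [h2, hvh]
      ring
  obtain ⟨l1, l2⟩ := enc_le hT henc
  refine ⟨X', Y', ?_, henc⟩
  have hN1le : T.N1 l ≤ T.NN l := by
    rw [hN]
    exact Nat.le_mul_of_pos_right _ hB
  refine step_of_bounds hT h hw l ?_ ?_ ?_ ?_ l1 l2
  · rw [eaX, ebXp]
    have h1 : T.g * q' + c.r.headI ≤ T.B := by
      have h6 : T.g * q' + T.g ≤ T.g * T.S := by
        rw [← Nat.mul_succ]
        exact Nat.mul_le_mul_left _ hq'
      have h7 : T.g * T.S = T.S * T.g := Nat.mul_comm _ _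
      omega
    have h2 : T.N1 l * (T.g * q' + c.r.headI) * w ≤ T.NN l * w := by
      rw [hN]
      exact Nat.mul_le_mul_right _ (Nat.mul_le_mul_left _ h1)
    have h3 : T.N1 l * X ≤ T.NN l * w := Nat.mul_le_mul hN1le hXw
    have h4 : T.N2 l * c.h * w ≤ T.NN l * w := by
      have h8 : T.N2 l * c.h ≤ T.N1 l := by
        rw [hN1]
        have hh := h.ok.hh
        exact Nat.mul_le_mul_left _ (by omega)
      exact Nat.mul_le_mul_right _ (h8.trans hN1le)
    have h5 : T.NN l * w ≤ T.NN l * T.B * w :=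
      Nat.mul_le_mul_right _ (Nat.le_mul_of_pos_right _ hB)
    have h6 : T.NN l * w + T.NN l * w = 2 * T.NN l * w := by ring
    rw [add_mul]
    omega
  · rw [eaY, ebYp]
    have h1 : T.NN l * T.B * Y ≤ T.NN l * T.B * w := Nat.mul_le_mul_left _ hYw
    omega
  · rw [eaX, ebXp, ebXm]
    exact hX'2
  · rw [eaY, ebYp, ebYm, zero_mul, add_zero]
    exact hY'2

end Pool.Agent.MP_fadef1_lc
end
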