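import Pool.Agent.Lib.MP_fadef1_lc.Mg.G009
import Pool.Agent.Lib.MP_fadef1_lc.Mg.G019
import Pool.Agent.Lib.MP_fadef1_lc.Mg.G027

section

namespace Pool.Agent.MP_fadef1_lc

variable (S : Sys)

private theorem evalC_two (D : Data) (l l' : Layer) (p : ℕ × ℕ) :
    evalC D [l, l'] p = (evalL D l p).bind (evalL D l') := by
  simp only [evalC]
  cases evalL D l p with
  | none => rfl
  | some q =>
    simp only [Option.bind_some]
    cases evalL D l' q <;> rfl

private theorem evalL_up (D : Data) (lo hi b : ℕ) (p : ℕ × ℕ) :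
    evalL D (Layer.up lo hi b) p = if lo ≤ p.1 ∧ p.1 < hi then
      (if p.1 + b < hi then some (p.1 + b, p.2) else none) else some p := by
  unfold evalL Layer.up
  simp only [Nat.one_ne_zero, if_false, if_true]

private theorem evalL_dn (D : Data) (lo hi b : ℕ) (p : ℕ × ℕ) :
    evalL D (Layer.dn lo hi b) p = if lo ≤ p.1 ∧ p.1 < hi then
      (if lo + b ≤ p.1 then some (p.1 - b, p.2) else none) else some p := by
  unfold evalL Layer.dn
  simp only [show ¬ ((2 : ℕ) = 0) by decide, show ¬ ((2 : ℕ) = 1) by decide, if_false]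

/-- Lanes outside the band of region `m` are not touched (`crep_out`, and the shifts act only on
the band). -/
theorem caseOne_out (D : Data) (o d a bp bm m : ℕ) {a' : ℕ} (z : ℕ)
    (h : a' < o + S.κ * m ∨ o + S.κ * m + S.κ ≤ a') :
    evalC D (S.caseOne o d a bp bm m) (a', z) = some (a', z) := by
  unfold Sys.caseOne
  rw [evalC_append, crep_out D a d z h, Option.bind_some, evalC_two, evalL_up]
  have h1 : ¬ (o + S.κ * m ≤ a' ∧ a' < o + S.κ * m + S.κ) := by omega
  rw [if_neg h1, Option.bind_some, evalL_dn, if_neg h1]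

/-- Passes: `crep_eval` gives position `p + a * x`; shift up by `bp` addresses: position
`p + a*x + bp*w`, still inside the band by `hhi`; shift down by `bm` addresses: possible because the
result `p'` satisfies `(o + κ m) * w ≤ p'`. Use `(q + b * w) / w = q / w + b`,
`(q + b * w) % w = q % w`. -/
theorem caseOne_eval {D : Data} {d x : ℕ} (hg : D.g d = shG D.w x) (hw : 0 < D.w) (hx : x ≤ D.w)
    {o a bp bm m p p' : ℕ} (hlo : (o + S.κ * m) * D.w ≤ p)
    (hhi : p + a * x + bp * D.w + D.w < (o + S.κ * m + S.κ) * D.w)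
    (hp' : p' + bm * D.w = p + a * x + bp * D.w) (hlo' : (o + S.κ * m) * D.w ≤ p') :
    evalC D (S.caseOne o d a bp bm m) (unp D.w p) = some (unp D.w p') := by
  unfold Sys.caseOne
  rw [evalC_append, crep_eval hg hw hx a hlo (by
    have : 0 ≤ bp * D.w := Nat.zero_le _
    omega), Option.bind_some, evalC_two, evalL_up]
  obtain ⟨lo, hlo_def⟩ : ∃ lo, lo = o + S.κ * m := ⟨_, rfl⟩
  obtain ⟨hi, hhi_def⟩ : ∃ hi, hi = o + S.κ * m + S.κ := ⟨_, rfl⟩
  rw [← hhi_def] at hhi ⊢
  rw [← hlo_def] at hlo hlo' ⊢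
  obtain ⟨q, hq⟩ : ∃ q, q = p + a * x := ⟨_, rfl⟩
  rw [← hq] at hhi hp' ⊢
  have e1 : (q + bp * D.w) / D.w = q / D.w + bp := Nat.add_mul_div_right _ _ hw
  have e2 : (q + bp * D.w) % D.w = q % D.w := Nat.add_mul_mod_self_right _ _ _
  have e3 : (p' + bm * D.w) / D.w = p' / D.w + bm := Nat.add_mul_div_right _ _ hw
  have e4 : (p' + bm * D.w) % D.w = p' % D.w := Nat.add_mul_mod_self_right _ _ _
  have h1 : lo ≤ q / D.w := by
    rw [Nat.le_div_iff_mul_le hw]
    have : 0 ≤ a * x := Nat.zero_le _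
    omega
  have h2 : q / D.w + bp < hi := by
    rw [← e1, Nat.div_lt_iff_lt_mul hw]
    omega
  have h3 : lo ≤ p' / D.w := (Nat.le_div_iff_mul_le hw).2 hlo'
  have h4 : q / D.w + bp = p' / D.w + bm := by rw [← e1, ← e3, hp']
  have h5 : q % D.w = p' % D.w := by rw [← e2, ← e4, hp']
  unfold unp
  simp only
  rw [if_pos ⟨h1, by omega⟩, if_pos h2, Option.bind_some, evalL_dn]
  simp only
  rw [if_pos ⟨by omega, h2⟩, if_pos (by omega), h5]
  congr 2
  omega

theorem cirOk_caseOne {d : ℕ} (hd : d < 4) (o a bp bm m : ℕ) :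
    CirOk (S.caseOne o d a bp bm m) := by
  intro l hl
  unfold Sys.caseOne at hl
  rw [List.mem_append] at hl
  rcases hl with hl | hl
  · exact cirOk_pass hd _ _ _ l hl
  · simp only [List.mem_cons, List.not_mem_nil, or_false] at hl
    rcases hl with rfl | rfl
    · simp [Layer.up]
    · simp [Layer.dn]

end Pool.Agent.MP_fadef1_lc
end

section

namespace Pool.Agent.MP_fadef1_lc

variable (S : Sys)

/-- General form of `casesX`, `casesY`. -/
def casesG (d : ℕ) (a bp bm : ℕ → ℕ) (o : ℕ) : List Layer :=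
  (List.range S.R).flatMap fun m => S.caseOne o d (a m) (bp m) (bm m) m

theorem casesX_eq (o : ℕ) : S.casesX o = casesG S 0 S.aX S.bXp S.bXm o := rfl
theorem casesY_eq (o : ℕ) : S.casesY o = casesG S 2 S.aY S.bYp S.bYm o := rfl

private theorem evalC_flatMap_fix (D : Data) (f : ℕ → List Layer) (p : ℕ × ℕ) (L : List ℕ)
    (h : ∀ m ∈ L, evalC D (f m) p = some p) : evalC D (L.flatMap f) p = some p := by
  induction L with
  | nil => rfl
  | cons m L ih =>
    rw [List.flatMap_cons, evalC_append, h m (List.mem_cons_self), Option.bind_some]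
    exact ih (fun m' hm' => h m' (List.mem_cons_of_mem _ hm'))

/-- Addresses below `o` are not touched by `caseOne_out`. -/
theorem casesG_out (D : Data) (d : ℕ) (a bp bm : ℕ → ℕ) {o a' : ℕ} (z : ℕ) (h : a' < o) :
    evalC D (casesG S d a bp bm o) (a', z) = some (a', z) := by
  unfold casesG
  refine evalC_flatMap_fix D _ _ _ (fun m _ => ?_)
  refine caseOne_out S D o d (a m) (bp m) (bm m) m z (Or.inl ?_)
  omega

private theorem band_lt {κ m m' : ℕ} (h : m' < m) : κ * m' + κ ≤ κ * m := by
  calc κ * m' + κ = κ * (m' + 1) := by ring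
    _ ≤ κ * m := Nat.mul_le_mul_left _ h

/-- Only the entry `m` of the list acts on a lane in the band of `m` (`caseOne_out` for the others,
before and after; the result `p'` is again in the band since `p' ≤ p + a*x + bp*w`), and there
`caseOne_eval` applies. Suggestion: `List.range R = List.range m ++ m :: …`, or induction on the
length of the range with the statement: for `n ≤ m` the first `n` entries do nothing, for `n > m`
they send `p` to `p'`. -/
theorem casesG_eval {D : Data} {d x : ℕ} (hg : D.g d = shG D.w x) (hw : 0 < D.w) (hx : x ≤ D.w)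
    (a bp bm : ℕ → ℕ) {o m p p' : ℕ} (hm : m < S.R) (hlo : (o + S.κ * m) * D.w ≤ p)
    (hhi : p + a m * x + bp m * D.w + D.w < (o + S.κ * m + S.κ) * D.w)
    (hp' : p' + bm m * D.w = p + a m * x + bp m * D.w) (hlo' : (o + S.κ * m) * D.w ≤ p') :
    evalC D (casesG S d a bp bm o) (unp D.w p) = some (unp D.w p') := by
  have h1 : o + S.κ * m ≤ p / D.w := (Nat.le_div_iff_mul_le hw).2 hlo
  have h2 : p' / D.w < o + S.κ * m + S.κ := by
    rw [Nat.div_lt_iff_lt_mul hw]
    have : 0 ≤ bm m * D.w := Nat.zero_le _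
    omega
  have key : ∀ n : ℕ, evalC D ((List.range n).flatMap fun m =>
      S.caseOne o d (a m) (bp m) (bm m) m) (unp D.w p) =
      if n ≤ m then some (unp D.w p) else some (unp D.w p') := by
    intro n
    induction n with
    | zero => rw [if_pos (Nat.zero_le _)]; rfl
    | succ n ih =>
      rw [List.range_succ, List.flatMap_append, evalC_append, ih, List.flatMap_singleton]
      rcases lt_trichotomy n m with h | h | h
      · rw [if_pos h.le, if_pos (by omega), Option.bind_some]
        unfold unp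
        refine caseOne_out S D o d (a n) (bp n) (bm n) n _ (Or.inr ?_)
        have := band_lt (κ := S.κ) h
        omega
      · subst h
        rw [if_pos le_rfl, if_neg (by omega), Option.bind_some]
        exact caseOne_eval S hg hw hx hlo hhi hp' hlo'
      · rw [if_neg (by omega), if_neg (by omega), Option.bind_some]
        unfold unp
        refine caseOne_out S D o d (a n) (bp n) (bm n) n _ (Or.inl ?_)
        have := band_lt (κ := S.κ) h
        omega
  unfold casesG
  rw [key, if_neg (by omega)]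

theorem cirOk_casesG {d : ℕ} (hd : d < 4) (a bp bm : ℕ → ℕ) (o : ℕ) :
    CirOk (casesG S d a bp bm o) := by
  intro l hl
  unfold casesG at hl
  rw [List.mem_flatMap] at hl
  obtain ⟨m, _, hl⟩ := hl
  exact cirOk_caseOne S hd o (a m) (bp m) (bm m) m l hl

end Pool.Agent.MP_fadef1_lc
end

section

namespace Pool.Agent.MP_fadef1_lc

variable (S : Sys)

/-- `disp o ++ casesG … ++ cinv (disp o)` -/
def rsG (d : ℕ) (a bp bm : ℕ → ℕ) (o : ℕ) : List Layer :=
  S.disp o ++ casesG S d a bp bm o ++ cinv (S.disp o)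

theorem rsX_eq (o : ℕ) : S.rsX o = rsG S 0 S.aX S.bXp S.bXm o := rfl
theorem rsY_eq (o : ℕ) : S.rsY o = rsG S 2 S.aY S.bYp S.bYm o := rfl

private theorem rs_cirOk_append {L₁ L₂ : List Layer} (h₁ : CirOk L₁) (h₂ : CirOk L₂) :
    CirOk (L₁ ++ L₂) := by
  intro l hl
  rcases List.mem_append.1 hl with h | h
  · exact h₁ l h
  · exact h₂ l h

theorem cirOk_rsG {d : ℕ} (hd : d < 4) (a bp bm : ℕ → ℕ) (o : ℕ) : CirOk (rsG S d a bp bm o) :=
  rs_cirOk_append (rs_cirOk_append (cirOk_disp S o) (cirOk_casesG S hd a bp bm o))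
    (cirOk_cinv (cirOk_disp S o))

/-- Addresses below `o` are not touched: `disp_out`, `casesG_out`, and for `cinv (disp o)` use
`evalC_inv` (with `dataOf_ok`, `dataOf_inv`) and `disp_out`. -/
theorem rsG_out {w X Y : ℕ} {mort al : Bool} (hw : 0 < w) (hX : X ≤ w) (hY : Y ≤ w) {d : ℕ}
    (hd : d < 4) (a bp bm : ℕ → ℕ) {o a' z : ℕ} (hz : z < w) (h : a' < o) :
    evalC (dataOf w X Y mort al) (rsG S d a bp bm o) (a', z) = some (a', z) := by
  rw [rsG, evalC_append, evalC_append, disp_out S _ z h, Option.bind_some,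
    casesG_out S _ d a bp bm z h, Option.bind_some]
  exact (evalC_inv (dataOf_ok hw hX hY) (dataOf_inv hX hY) (cirOk_disp S o) hz hz).1
    (disp_out S _ z h)

/-- With `Δ = Kx X + Ky Y`: `disp_eval` sends `p` to `p + Δ`, which lies in the band of region `m`
of the line starting at `o`; `casesG_eval` sends it to `p + Δ + V`; `disp_eval` at `p + V` gives
`p + V + Δ`, so `cinv (disp o)` sends `p + Δ + V` to `p + V` by `evalC_inv`. Here
`V + bm m * w = a m * x + bp m * w`, `V ≤ N w` and `p < (o + 2N) w`; all room conditions follow from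
`hroom` and `κ (m+1) ≤ κ R = M0`. -/
theorem rsG_eval {w X Y : ℕ} {mort al : Bool} (hw : 0 < w) (hX : X ≤ w) (hY : Y ≤ w) {d x : ℕ}
    (hd : d < 4) (hx : x ≤ w) (hg : (dataOf w X Y mort al).g d = shG w x) (a bp bm : ℕ → ℕ)
    {m V : ℕ} (hm : m < S.R) (hD : S.κ * m * w ≤ S.Kx * X + S.Ky * Y)
    (hroom : S.Kx * X + S.Ky * Y + 3 * S.N * w + a m * x + bp m * w + w < S.κ * (m + 1) * w)
    (hV : V + bm m * w = a m * x + bp m * w) (hVle : V ≤ S.N * w) {o p : ℕ}
    (hlo : o * w ≤ p) (hhi : p < (o + 2 * S.N) * w) :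
    evalC (dataOf w X Y mort al) (rsG S d a bp bm o) (unp w p) = some (unp w (p + V)) := by
  have hR : S.κ * (m + 1) * w ≤ S.M0 * w :=
    Nat.mul_le_mul_right w (Nat.mul_le_mul_left S.κ hm)
  set Δ := S.Kx * X + S.Ky * Y with hΔ
  have e1 : (o + 2 * S.N) * w = o * w + 2 * (S.N * w) := by ring
  have e2 : 3 * S.N * w = 3 * (S.N * w) := by ring
  have e3 : S.κ * (m + 1) * w = S.κ * m * w + S.κ * w := by ring
  have e4 : (o + S.M0) * w = o * w + S.M0 * w := by ring
  have e5 : (o + S.κ * m) * w = o * w + S.κ * m * w := by ring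
  have e6 : (o + S.κ * m + S.κ) * w = o * w + S.κ * m * w + S.κ * w := by ring
  rw [e1] at hhi
  rw [e2] at hroom
  -- the three stages
  have s1 : evalC (dataOf w X Y mort al) (S.disp o) (unp w p) = some (unp w (p + Δ)) := by
    refine disp_eval S hw hX hY hlo ?_
    rw [← hΔ, e4]
    omega
  have s2 : evalC (dataOf w X Y mort al) (casesG S d a bp bm o) (unp w (p + Δ))
      = some (unp w (p + Δ + V)) := by
    refine casesG_eval (D := dataOf w X Y mort al) S hg hw hx a bp bm hm ?_ ?_ ?_ ?_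
    · change (o + S.κ * m) * w ≤ _
      rw [e5]
      omega
    · change _ + _ + bp m * w + w < (o + S.κ * m + S.κ) * w
      rw [e6]
      rw [e3] at hroom
      omega
    · change _ + bm m * w = _ + _ + bp m * w
      omega
    · change (o + S.κ * m) * w ≤ _
      rw [e5]
      omega
  have s3 : evalC (dataOf w X Y mort al) (S.disp o) (unp w (p + V))
      = some (unp w (p + V + Δ)) := by
    refine disp_eval S hw hX hY (hlo.trans (Nat.le_add_right _ _)) ?_
    rw [← hΔ, e4]
    omega
  rw [rsG, evalC_append, evalC_append, s1, Option.bind_some, s2, Option.bind_some]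
  have e7 : p + Δ + V = p + V + Δ := by omega
  rw [e7]
  exact (evalC_inv (dataOf_ok hw hX hY) (dataOf_inv hX hY) (cirOk_disp S o)
    (Nat.mod_lt _ hw) (Nat.mod_lt _ hw)).1 s3

end Pool.Agent.MP_fadef1_lc
end

section

namespace Pool.Agent.MP_fadef1_lc

variable (S : Sys)

/-- General form of `cX`, `cY`. -/
def cG (d : ℕ) (a bp bm : ℕ → ℕ) : List Layer :=
  [Layer.up S.N S.M S.N] ++ cinv (rsG S d a bp bm S.N) ++ [Layer.dn S.N S.M S.N] ++
    rsG S d a bp bm 0

theorem cX_eq : S.cX = cG S 0 S.aX S.bXp S.bXm := rfl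
theorem cY_eq : S.cY = cG S 2 S.aY S.bYp S.bYm := rfl

theorem cirOk_cG {d : ℕ} (hd : d < 4) (a bp bm : ℕ → ℕ) : CirOk (cG S d a bp bm) := by
  intro l hl
  simp only [cG, List.mem_append, List.mem_singleton] at hl
  rcases hl with ((rfl | h) | rfl) | h
  · exact ⟨Nat.le_succ 1, fun h => absurd h Nat.one_ne_zero⟩
  · exact cirOk_cinv (cirOk_rsG S hd a bp bm S.N) l h
  · exact ⟨le_refl 2, fun h => absurd h (Nat.succ_ne_zero 1)⟩
  · exact cirOk_rsG S hd a bp bm 0 l h

private theorem CN_append4 (D : Data) (L₁ L₂ : Layer) (C₁ C₂ : List Layer) (p : ℕ × ℕ) :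
    evalC D ([L₁] ++ C₁ ++ [L₂] ++ C₂) p =
      (((evalL D L₁ p).bind (evalC D C₁)).bind (evalL D L₂)).bind (evalC D C₂) := by
  have h1 : ∀ L : Layer, evalC D [L] = evalL D L := by
    intro L
    funext q
    rw [evalC]
    cases evalL D L q <;> rfl
  rw [evalC_append, evalC_append, evalC_append, h1, h1]

private theorem CN_up_lt (D : Data) {lo hi c : ℕ} {p : ℕ × ℕ} (h : p.1 < lo) :
    evalL D (Layer.up lo hi c) p = some p := by
  have h1 : ¬ (lo ≤ p.1 ∧ p.1 < hi) := by omega
  simp only [evalL, Layer.up, one_ne_zero, if_false, if_true, h1]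

private theorem CN_dn_lt (D : Data) {lo hi c : ℕ} {p : ℕ × ℕ} (h : p.1 < lo) :
    evalL D (Layer.dn lo hi c) p = some p := by
  have h1 : ¬ (lo ≤ p.1 ∧ p.1 < hi) := by omega
  have h2 : ¬ (2 : ℕ) = 0 := by decide
  have h3 : ¬ (2 : ℕ) = 1 := by decide
  simp only [evalL, Layer.dn, h2, h3, if_false, h1]

private theorem CN_up_in (D : Data) {lo hi c : ℕ} {p : ℕ × ℕ} (h : lo ≤ p.1)
    (h' : p.1 + c < hi) : evalL D (Layer.up lo hi c) p = some (p.1 + c, p.2) := by
  have h1 : lo ≤ p.1 ∧ p.1 < hi := by omega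
  simp only [evalL, Layer.up, one_ne_zero, if_false, if_true, h1, h', and_self]

private theorem CN_dn_in (D : Data) {lo hi c : ℕ} {p : ℕ × ℕ} (h : lo + c ≤ p.1)
    (h' : p.1 < hi) : evalL D (Layer.dn lo hi c) p = some (p.1 - c, p.2) := by
  have h1 : lo ≤ p.1 ∧ p.1 < hi := by omega
  have h2 : ¬ (2 : ℕ) = 0 := by decide
  have h3 : ¬ (2 : ℕ) = 1 := by decide
  simp only [evalL, Layer.dn, h2, h3, if_false, if_true, h1, h, and_self]

private theorem CN_dn_kill (D : Data) {lo hi c : ℕ} {p : ℕ × ℕ} (h : lo ≤ p.1)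
    (h' : p.1 < hi) (h'' : p.1 < lo + c) : evalL D (Layer.dn lo hi c) p = none := by
  have h1 : lo ≤ p.1 ∧ p.1 < hi := by omega
  have h2 : ¬ (2 : ℕ) = 0 := by decide
  have h3 : ¬ (2 : ℕ) = 1 := by decide
  have h4 : ¬ (lo + c ≤ p.1) := by omega
  simp only [evalL, Layer.dn, h2, h3, h4, if_false, if_true, h1, and_self]

private theorem CN_unp_add {w : ℕ} (hw : 0 < w) (N q : ℕ) :
    unp w (N * w + q) = (N + q / w, q % w) := by
  have h1 : (N * w + q) / w = N + q / w := by
    rw [add_comm, Nat.add_mul_div_right _ _ hw, add_comm]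
  have h2 : (N * w + q) % w = q % w := by
    rw [add_comm, Nat.add_mul_mod_self_right]
  rw [unp, h1, h2]

private theorem CN_pack0 {w : ℕ} (N q : ℕ) : pack N w (0, q) = unp w q := by
  simp only [pack, unp, zero_mul, zero_add]

private theorem CN_pack1 {w : ℕ} (hw : 0 < w) (N q : ℕ) :
    pack N w (1, q) = unp w (N * w + q) := by
  rw [CN_unp_add hw]
  simp only [pack, one_mul]

/-- `slot 0`: the lane `l < N w` is at position `l`, address `< N`: the layer `up N M N` and
`dn N M N` do not touch it, `cinv (rsG N)` does not touch it (`rsG_out` and `evalC_inv`), `rsG 0`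
sends it to position `l + V`. `pack N w (0, l + V)` resp. `pack N w (1, l + V - N w)` is
`unp w (l + V)`. -/
theorem cG_eval0 {w X Y : ℕ} {mort al : Bool} (hw : 0 < w) (hX : X ≤ w) (hY : Y ≤ w) {d x : ℕ}
    (hd : d < 4) (hx : x ≤ w) (hg : (dataOf w X Y mort al).g d = shG w x) (a bp bm : ℕ → ℕ)
    {m V : ℕ} (hm : m < S.R) (hD : S.κ * m * w ≤ S.Kx * X + S.Ky * Y)
    (hroom : S.Kx * X + S.Ky * Y + 3 * S.N * w + a m * x + bp m * w + w < S.κ * (m + 1) * w)
    (hV : V + bm m * w = a m * x + bp m * w) (hVle : V ≤ S.N * w) {l : ℕ} (hl : l < S.N * w) :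
    evalC (dataOf w X Y mort al) (cG S d a bp bm) (pack S.N w (0, l)) =
      (shG (S.N * w) V (0, l)).map (pack S.N w) := by
  have hlt : (unp w l).1 < S.N := Nat.div_lt_of_lt_mul (by rwa [mul_comm])
  have hz : (unp w l).2 < w := Nat.mod_lt _ hw
  have s1 : evalC (dataOf w X Y mort al) (rsG S d a bp bm S.N) (unp w l) = some (unp w l) :=
    rsG_out S hw hX hY hd a bp bm hz hlt
  have s2 := (evalC_inv (dataOf_ok hw hX hY) (dataOf_inv hX hY)
    (cirOk_rsG S hd a bp bm S.N) (p := unp w l) (q := unp w l) hz hz).1 s1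
  have s3 : evalC (dataOf w X Y mort al) (rsG S d a bp bm 0) (unp w l)
      = some (unp w (l + V)) := by
    refine rsG_eval S hw hX hY hd hx hg a bp bm hm hD hroom hV hVle (by omega) ?_
    have e1 : (0 + 2 * S.N) * w = 2 * (S.N * w) := by ring
    rw [e1]
    omega
  rw [cG, CN_append4, CN_pack0, CN_up_lt _ hlt, Option.bind_some, s2, Option.bind_some,
    CN_dn_lt _ hlt, Option.bind_some, s3]
  simp only [shG, if_true]
  by_cases h : l + V < S.N * w
  · rw [if_pos h, Option.map_some, CN_pack0]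
  · rw [if_neg h, Option.map_some, CN_pack1 hw]
    congr 2
    omega

/-- `slot 1`: position `N w + l`; `up N M N` moves it to `2 N w + l` (`3 N ≤ M` follows from
`hroom` and `hm`); `rsG N` sends the position `2 N w + l - V ≥ N w` to `2 N w + l` by `rsG_eval`, so
`cinv (rsG N)` sends `2 N w + l` to `2 N w + l - V`; `dn N M N` kills it if `l < V` (address
`< 2N`), otherwise the position becomes `N w + l - V` and `rsG 0` sends it to `N w + l`. -/
theorem cG_eval1 {w X Y : ℕ} {mort al : Bool} (hw : 0 < w) (hX : X ≤ w) (hY : Y ≤ w) {d x : ℕ}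
    (hd : d < 4) (hx : x ≤ w) (hg : (dataOf w X Y mort al).g d = shG w x) (a bp bm : ℕ → ℕ)
    {m V : ℕ} (hm : m < S.R) (hD : S.κ * m * w ≤ S.Kx * X + S.Ky * Y)
    (hroom : S.Kx * X + S.Ky * Y + 3 * S.N * w + a m * x + bp m * w + w < S.κ * (m + 1) * w)
    (hV : V + bm m * w = a m * x + bp m * w) (hVle : V ≤ S.N * w) {l : ℕ} (hl : l < S.N * w) :
    evalC (dataOf w X Y mort al) (cG S d a bp bm) (pack S.N w (1, l)) =
      (shG (S.N * w) V (1, l)).map (pack S.N w) := by
  have hR : S.κ * (m + 1) * w ≤ S.M0 * w :=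
    Nat.mul_le_mul_right w (Nat.mul_le_mul_left S.κ hm)
  have h3N : 3 * S.N < S.M0 := by
    have h1 : 3 * S.N * w < S.M0 * w := by omega
    exact lt_of_mul_lt_mul_right h1 (Nat.zero_le w)
  have hM : S.M = S.N + S.M0 := rfl
  have hlt : l / w < S.N := Nat.div_lt_of_lt_mul (by rwa [mul_comm])
  have hz : ∀ q, (unp w q).2 < w := fun q => Nat.mod_lt _ hw
  -- first layer
  have s1 : evalL (dataOf w X Y mort al) (Layer.up S.N S.M S.N) (pack S.N w (1, l))
      = some (unp w (S.N * w + (S.N * w + l))) := by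
    rw [CN_pack1 hw, CN_up_in, CN_unp_add hw, CN_unp_add hw (S.N) (S.N * w + l)]
    · have h1 := CN_unp_add hw S.N l
      rw [unp, Prod.mk.injEq] at h1
      rw [h1.1, h1.2]
      congr 2
      change S.N + l / w + S.N = S.N + (S.N + l / w)
      omega
    · rw [CN_unp_add hw]
      exact Nat.le_add_right _ _
    · rw [CN_unp_add hw]
      change S.N + l / w + S.N < S.M
      omega
  -- second stage
  have s2 : evalC (dataOf w X Y mort al) (rsG S d a bp bm S.N)
      (unp w (S.N * w + (S.N * w + l) - V)) = some (unp w (S.N * w + (S.N * w + l))) := by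
    have h1 := rsG_eval S hw hX hY hd hx hg a bp bm hm hD hroom hV hVle (mort := mort) (al := al)
      (o := S.N) (p := S.N * w + (S.N * w + l) - V) (by omega) (by
        have e1 : (S.N + 2 * S.N) * w = 3 * (S.N * w) := by ring
        rw [e1]
        omega)
    rw [h1]
    congr 2
    omega
  have s3 := (evalC_inv (dataOf_ok hw hX hY) (dataOf_inv hX hY)
    (cirOk_rsG S hd a bp bm S.N) (hz _) (hz _)).1 s2
  rw [cG, CN_append4, s1, Option.bind_some, s3, Option.bind_some]
  by_cases h : l < V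
  · have h1 : S.N ≤ (S.N * w + (S.N * w + l) - V) / w := by
      rw [Nat.le_div_iff_mul_le hw]
      omega
    have h2 : (S.N * w + (S.N * w + l) - V) / w < S.N + S.N := by
      rw [Nat.div_lt_iff_lt_mul hw, add_mul]
      omega
    rw [CN_dn_kill (dataOf w X Y mort al) (p := unp w (S.N * w + (S.N * w + l) - V)) h1
      (h2.trans_le (by omega)) h2]
    simp only [shG, one_ne_zero, if_false, h, if_true, Option.bind_none, Option.map_none]
  · have e1 : S.N * w + (S.N * w + l) - V = S.N * w + (S.N * w + (l - V)) := by omega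
    have h2 : (l - V) / w ≤ l / w := Nat.div_le_div_right (Nat.sub_le _ _)
    have e2 : unp w (S.N * w + (S.N * w + (l - V))) = (S.N + (S.N + (l - V) / w), (l - V) % w) := by
      rw [CN_unp_add hw]
      have h3 := CN_unp_add hw S.N (l - V)
      rw [unp, Prod.mk.injEq] at h3
      rw [h3.1, h3.2]
    have s4 : evalL (dataOf w X Y mort al) (Layer.dn S.N S.M S.N)
        (unp w (S.N * w + (S.N * w + l) - V)) = some (unp w (S.N * w + (l - V))) := by
      rw [e1, e2, CN_dn_in, CN_unp_add hw]
      · congr 2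
        exact Nat.add_sub_cancel_left _ _
      · exact Nat.add_le_add_left (Nat.le_add_right _ _) _
      · change S.N + (S.N + (l - V) / w) < S.M
        have h4 := h2.trans_lt hlt
        generalize (l - V) / w = c at h4 ⊢
        omega
    have s5 : evalC (dataOf w X Y mort al) (rsG S d a bp bm 0) (unp w (S.N * w + (l - V)))
        = some (unp w (S.N * w + l)) := by
      have h1 := rsG_eval S hw hX hY hd hx hg a bp bm hm hD hroom hV hVle (mort := mort)
        (al := al) (o := 0) (p := S.N * w + (l - V)) (by omega) (by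
          have e1 : (0 + 2 * S.N) * w = 2 * (S.N * w) := by ring
          rw [e1]
          omega)
      rw [h1]
      congr 2
      omega
    rw [s4, Option.bind_some, s5]
    simp only [shG, one_ne_zero, if_false, h, Option.map_some]
    rw [CN_pack1 hw]

end Pool.Agent.MP_fadef1_lc
end

section

namespace Pool.Agent.MP_fadef1_lc

variable (S : Sys)

/-- `pack N w` is injective on `{0,1} × [0, N w)`, with image `[0,2N) × [0,w)`. -/
theorem pack_inj {N w : ℕ} (hw : 0 < w) {s l s' l' : ℕ} (hs : s < 2) (hl : l < N * w) (hs' : s' < 2)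
    (hl' : l' < N * w) (h : pack N w (s, l) = pack N w (s', l')) : s = s' ∧ l = l' := by
  have h1 : s * N + l / w = s' * N + l' / w := congrArg Prod.fst h
  have h2 : l % w = l' % w := congrArg Prod.snd h
  have h3 : l / w < N := (Nat.div_lt_iff_lt_mul hw).2 hl
  have h4 : l' / w < N := (Nat.div_lt_iff_lt_mul hw).2 hl'
  have h5 : s = s' := by
    clear h2
    generalize l / w = f at h1 h3
    generalize l' / w = f' at h1 h4
    interval_cases s <;> interval_cases s' <;> first | rfl | (exfalso; omega)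
  subst h5
  have h6 : l / w = l' / w := by omega
  refine ⟨rfl, ?_⟩
  rw [← Nat.div_add_mod l w, ← Nat.div_add_mod l' w, h6, h2]

theorem pack_surj {N w : ℕ} (hw : 0 < w) {q : ℕ × ℕ} (h1 : q.1 < 2 * N) (h2 : q.2 < w) :
    ∃ s l, s < 2 ∧ l < N * w ∧ pack N w (s, l) = q := by
  obtain ⟨a, z⟩ := q
  simp only at h1 h2
  have key : ∀ b, b < N → b * w + z < N * w ∧ (b * w + z) / w = b ∧ (b * w + z) % w = z := by
    intro b hb
    refine ⟨?_, ?_, ?_⟩
    · calc b * w + z < b * w + w := by omega
        _ = (b + 1) * w := by ring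
        _ ≤ N * w := Nat.mul_le_mul_right _ hb
    · rw [Nat.add_comm, Nat.add_mul_div_right _ _ hw, Nat.div_eq_of_lt h2, Nat.zero_add]
    · rw [Nat.add_comm, Nat.add_mul_mod_self_right, Nat.mod_eq_of_lt h2]
  by_cases ha : a < N
  · obtain ⟨k1, k2, k3⟩ := key a ha
    refine ⟨0, a * w + z, by norm_num, k1, ?_⟩
    unfold pack
    simp only [k2, k3, Nat.zero_mul, Nat.zero_add]
  · obtain ⟨k1, k2, k3⟩ := key (a - N) (by omega)
    refine ⟨1, (a - N) * w + z, by norm_num, k1, ?_⟩
    unfold pack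
    simp only [k2, k3, Nat.one_mul]
    rw [Nat.add_sub_cancel' (not_lt.1 ha)]

private theorem Nx_inv {N w V : ℕ} (hw : 0 < w) (hN : 0 < N) (hV : V ≤ N * w) {D : Data}
    (hDw : D.w = w) (hD : D.Ok) (hI : InvData D) {c : List Layer} (hc : CirOk c)
    (he : ∀ s l, s < 2 → l < N * w →
      evalC D c (pack N w (s, l)) = (shG (N * w) V (s, l)).map (pack N w))
    {s l : ℕ} (hs : s < 2) (hl : l < N * w) :
    (∀ s' l', shH (N * w) V (s, l) = some (s', l') →
      evalC D (cinv c) (pack N w (s, l)) = some (pack N w (s', l'))) ∧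
    (∀ q, shH (N * w) V (s, l) = none → evalC D (cinv c) (pack N w (s, l)) = some q →
      2 * N ≤ q.1) := by
  have hNw : 0 < N * w := Nat.mul_pos hN hw
  have hok := (dataOf_ok (w := N * w) (X := V) (Y := 0) (mort := true) (al := true) hNw hV
    (Nat.zero_le _)).2
  have hlane : ∀ s l, (pack N w (s, l)).2 < D.w := by
    intro s l
    rw [hDw]
    exact Nat.mod_lt _ hw
  constructor
  · intro s' l' h
    obtain ⟨b1, b2⟩ := hok 1 s l s' l' (by norm_num) hs hl h
    have h1 := (shG_shH hV b1 b2 hs hl).2 h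
    have h2 := he s' l' b1 b2
    rw [h1] at h2
    exact (evalC_inv hD hI hc (hlane s' l') (hlane s l)).1 h2
  · intro q h hq
    by_contra hlt
    have hlt' : q.1 < 2 * N := not_le.1 hlt
    have h1 : q.2 < D.w := evalC_lane hD (cirOk_cinv hc) (hlane s l) hq
    obtain ⟨s', l', b1, b2, rfl⟩ := pack_surj hw hlt' (hDw ▸ h1)
    have h2 := (evalC_inv hD hI hc (hlane s' l') (hlane s l)).2 hq
    rw [he s' l' b1 b2, Option.map_eq_some_iff] at h2
    obtain ⟨⟨s'', l''⟩, h3, h4⟩ := h2
    obtain ⟨b3, b4⟩ := hok 0 s' l' s'' l'' (by norm_num) b1 b2 h3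
    obtain ⟨rfl, rfl⟩ := pack_inj hw b3 b4 hs hl h4
    have h5 := (shG_shH hV b1 b2 b3 b4).1 h3
    rw [h5] at h
    exact absurd h (by simp)

/-- Gates `0, 2`: `cG_eval0`, `cG_eval1` (for `circ 0 = cX`, `circ 2 = cY`), where the new gates
are `shG (N w) X'`, `shG (N w) Y'`. Gates `1, 3`: `circ 1 = cinv cX`; if
`shH (N w) X' (s,l) = some (s',l')` then `shG (N w) X' (s',l') = some (s,l)` (`shG_shH`; for this
`s' < 2` and `l' < N w` by `dataOf_ok`), so `evalC cX (pack (s',l')) = some (pack (s,l))` and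
`evalC_inv` gives `hG1`. If it is `none` and `evalC (cinv cX) (pack (s,l)) = some q` with
`q.1 < 2 N`, then `q = pack (s',l')` by `pack_surj` (`evalC_lane` gives `q.2 < w`), so by
`evalC_inv` `evalC cX (pack (s',l')) = some (pack (s,l))`, hence by the formula for `cX` and
`pack_inj` `shG (N w) X' (s',l') = some (s,l)`, hence `shH (N w) X' (s,l) = some (s',l')`,
contradiction. `hE1`, `hE0`: `cE_eval`. -/
theorem next_of_step {w X Y m X' Y' : ℕ} {mort al : Bool} (hw : 0 < w) (hN : 0 < S.N)
    (hS : S.Step w X Y m X' Y') :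
    Next S.par (dataOf w X Y mort al) (dataOf (S.N * w) X' Y' (mort && al) (!S.halt m)) := by
  have hD : (dataOf w X Y mort al).Ok := dataOf_ok hw hS.hX hS.hY
  have hI : InvData (dataOf w X Y mort al) := dataOf_inv hS.hX hS.hY
  have hX : ∀ s l, s < 2 → l < S.N * w → evalC (dataOf w X Y mort al) S.cX (pack S.N w (s, l))
      = (shG (S.N * w) X' (s, l)).map (pack S.N w) := by
    intro s l hs hl
    rw [cX_eq]
    interval_cases s
    · exact cG_eval0 S hw hS.hX hS.hY (d := 0) (by norm_num) hS.hX rfl _ _ _ hS.hm hS.hD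
        hS.roomX hS.eqX hS.leX hl
    · exact cG_eval1 S hw hS.hX hS.hY (d := 0) (by norm_num) hS.hX rfl _ _ _ hS.hm hS.hD
        hS.roomX hS.eqX hS.leX hl
  have hY : ∀ s l, s < 2 → l < S.N * w → evalC (dataOf w X Y mort al) S.cY (pack S.N w (s, l))
      = (shG (S.N * w) Y' (s, l)).map (pack S.N w) := by
    intro s l hs hl
    rw [cY_eq]
    interval_cases s
    · exact cG_eval0 S hw hS.hX hS.hY (d := 2) (by norm_num) hS.hY rfl _ _ _ hS.hm hS.hD
        hS.roomY hS.eqY hS.leY hl
    · exact cG_eval1 S hw hS.hX hS.hY (d := 2) (by norm_num) hS.hY rfl _ _ _ hS.hm hS.hD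
        hS.roomY hS.eqY hS.leY hl
  have cX : CirOk S.cX := by
    rw [cX_eq]
    exact cirOk_cG S (by norm_num) _ _ _
  have cY : CirOk S.cY := by
    rw [cY_eq]
    exact cirOk_cG S (by norm_num) _ _ _
  refine ⟨rfl, rfl, dataOf_ok (Nat.mul_pos hN hw) hS.leX hS.leY, ?_, ?_, ?_, ?_⟩
  · intro _ hal a z ha hz
    have h1 : S.halt m = false := by
      have : (!S.halt m) = true := hal
      simpa using this
    have h2 := cE_eval S (mort := mort) (al := al) hw hS ha hz
    rw [h1, if_neg (by simp)] at h2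
    exact h2
  · intro _ hal a z q ha hz hq
    have h1 : S.halt m = true := by
      have : (!S.halt m) = false := hal
      simpa using this
    have h2 := cE_eval S (mort := mort) (al := al) hw hS ha hz
    rw [h1] at h2
    have h3 : evalC (dataOf w X Y mort al) S.cE (a, z) = some q := hq
    rw [h2] at h3
    simp at h3
  · intro _ d s l s' l' hd hs hl h
    have hl' : l < S.N * w := hl
    interval_cases d
    · have h1 : shG (S.N * w) X' (s, l) = some (s', l') := h
      have h2 := hX s l hs hl'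
      rw [h1] at h2
      exact h2
    · exact (Nx_inv hw hN hS.leX rfl hD hI cX hX hs hl').1 s' l' h
    · have h1 : shG (S.N * w) Y' (s, l) = some (s', l') := h
      have h2 := hY s l hs hl'
      rw [h1] at h2
      exact h2
    · exact (Nx_inv hw hN hS.leY rfl hD hI cY hY hs hl').1 s' l' h
  · intro _ d s l q hd hs hl h hq
    have hl' : l < S.N * w := hl
    interval_cases d
    · have h1 : shG (S.N * w) X' (s, l) = none := h
      have h2 := hX s l hs hl'
      rw [h1] at h2
      have h3 : evalC (dataOf w X Y mort al) S.cX (pack S.N w (s, l)) = some q := hq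
      rw [h2] at h3
      simp at h3
    · exact (Nx_inv hw hN hS.leX rfl hD hI cX hX hs hl').2 q h hq
    · have h1 : shG (S.N * w) Y' (s, l) = none := h
      have h2 := hY s l hs hl'
      rw [h1] at h2
      have h3 : evalC (dataOf w X Y mort al) S.cY (pack S.N w (s, l)) = some q := hq
      rw [h2] at h3
      simp at h3
    · exact (Nx_inv hw hN hS.leY rfl hD hI cY hY hs hl').2 q h hq

/-- If the level is dead, any dead data of the right width are the next data. -/
theorem next_dead {P : Par} {D : Data} (hN : 0 < P.N) (hw : 0 < D.w)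
    (h : (D.mort && D.al) = false) :
    Next P D (dataOf (P.N * D.w) 0 0 false false) := by
  have hf : (dataOf (P.N * D.w) 0 0 false false).mort ≠ true := by
    show (false : Bool) ≠ true
    decide
  exact ⟨rfl, h.symm, dataOf_ok (Nat.mul_pos hN hw) (Nat.zero_le _) (Nat.zero_le _),
    fun h1 => absurd h1 hf, fun h1 => absurd h1 hf, fun h1 => absurd h1 hf,
    fun h1 => absurd h1 hf⟩

end Pool.Agent.MP_fadef1_lc
end
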