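import Pool.Agent.Lib.MP_fadef1_lc.Mg.G002
import Pool.Agent.Lib.MP_fadef1_lc.Mg.G001
import Pool.Agent.Lib.MP_fadef1_lc.Mg.G029
import Pool.Agent.Lib.MP_fadef1_lc.Mg.G027
import Pool.Agent.Lib.MP_fadef1_lc.Mg.G028
import Pool.Agent.Lib.MP_fadef1_lc.Mg.G026

section

/-! Lanes through one layer. -/

namespace Pool.Agent.MP_fadef1_lc

variable {D : Data} {Q B A M P0 t : ℕ} {R : ℕ → Prop} {W : ℕ → Bool} {l : Layer}

theorem evalL_lt (hD : D.Ok) (hl : layOk M l) {a z : ℕ} (ha : a < M) (hz : z < D.w)
    {q : ℕ × ℕ} (h : evalL D l (a, z) = some q) : q.1 < M ∧ q.2 < D.w := by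
  unfold evalL at h
  simp only at h
  rcases hl with ⟨h0, h4, hb⟩ | ⟨h12, hb⟩
  · rw [if_pos h0] at h
    split_ifs at h with h1 h2
    · rw [Option.map_eq_some_iff] at h
      obtain ⟨s, hs, rfl⟩ := h
      obtain ⟨s', z'⟩ := s
      have := hD.2 l.a 0 z s' z' h4 (by omega) hz hs
      exact ⟨by simp only; omega, this.2⟩
    · rw [Option.map_eq_some_iff] at h
      obtain ⟨s, hs, rfl⟩ := h
      obtain ⟨s', z'⟩ := s
      have := hD.2 l.a 1 z s' z' h4 (by omega) hz hs
      exact ⟨by simp only; omega, this.2⟩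
    · rw [← Option.some.inj h]
      exact ⟨ha, hz⟩
  · rw [if_neg (by omega)] at h
    split_ifs at h with h1 h2 h3 h4 h5
    · rw [← Option.some.inj h]
      exact ⟨by simp only; omega, hz⟩
    · rw [← Option.some.inj h]
      exact ⟨ha, hz⟩
    · rw [← Option.some.inj h]
      exact ⟨by simp only; omega, hz⟩
    · rw [← Option.some.inj h]
      exact ⟨ha, hz⟩

private theorem pos_succ' (M P0 t k : ℕ) :
    pos M P0 (t + 1) k = P0 + (t * (20 * M + 30) + (20 * M + 30)) + k * 20 := by
  unfold pos; ring

private theorem MM_of (h : LH Q B A M P0 t R W) {keep : ℕ → Bool} {f : ℕ → ℕ}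
    (hf : ∀ j < M, keep j = true → f j < M)
    (hmono : ∀ i j, i < j → j < M → keep i = true → keep j = true → f i < f j) :
    MM Q A B R keep (fun j => pos M P0 t j) (fun j => pos M P0 (t + 1) (f j)) M := by
  have hM := h.hM
  have hlo := h.hlo
  have hB := h.hB
  have hR := h.hR
  rw [pos_succ'] at hB
  simp only [pos_succ'] at hR
  refine ⟨?_, ?_, ?_, ?_, ?_, ?_⟩
  · intro i j hij hj
    simp only [pos]
    omega
  · intro i j hij hj hki hkj
    have := hmono i j hij hj hki hkj
    simp only [pos_succ']
    omega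
  · intro j hj hk
    simp only [pos_succ']
    simp only [pos]
    omega
  · intro c hc j hj
    have h1 := hR c hc
    refine ⟨?_, ?_⟩
    · simp only [pos]
      omega
    · intro hk
      have h2 := hf j hj hk
      simp only [pos_succ']
      simp only [pos]
      omega
  · intro j hj
    simp only [pos]
    omega
  · intro j hj
    refine ⟨?_, ?_⟩
    · simp only [pos]
      omega
    · intro hk
      have h2 := hf j hj hk
      simp only [pos_succ']
      omega

private theorem lane_of (hm : (D.mort && D.al) = true) (h : LH Q B A M P0 t R W)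
    {keep : ℕ → Bool} {f : ℕ → ℕ} (hf : ∀ j < M, keep j = true → f j < M)
    (hmono : ∀ i j, i < j → j < M → keep i = true → keep j = true → f i < f j)
    (m : ℕ) (g : ℕ → ℕ) {a z : ℕ} (ha : a < M) :
    estepL D (mmEvs keep (fun j => pos M P0 t j) (fun j => pos M P0 (t + 1) (f j)) M ++
      (List.range m).map fun x => Ev.I (g x)) (pos M P0 t a, z) =
      if keep a then some (pos M P0 (t + 1) (f a), z) else none := by
  rw [estepL_append]
  have h1 := mm_lane (z := z) hm (MM_of h hf hmono) ha
  rw [h1]
  cases keep a with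
  | false => rfl
  | true =>
    simp only [if_true, Option.bind_some]
    exact estepL_rest (ins_rest _) z

theorem shift_lane (hm : (D.mort && D.al) = true) (h : LH Q B A M P0 t R W)
    (ht : l.t = 1 ∨ l.t = 2) (hl : layOk M l) {a z : ℕ} (ha : a < M) :
    estepL D (layerEvs M P0 t l) (pos M P0 t a, z) =
      (evalL D l (a, z)).map fun q => (pos M P0 (t + 1) q.1, q.2) := by
  have hb : l.b ≤ M := by
    rcases hl with ⟨h0, _⟩ | ⟨_, hb⟩
    · omega
    · exact hb
  rcases ht with ht | ht
  · have e : layerEvs M P0 t l =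
        mmEvs (fun j => decide (¬ (l.a ≤ j ∧ j < l.b) ∨ j + l.c < l.b))
          (fun j => pos M P0 t j)
          (fun j => pos M P0 (t + 1) ((fun j => if l.a ≤ j ∧ j < l.b then j + l.c else j) j)) M ++
        (List.range (min l.c (l.b - l.a))).map fun x => Ev.I ((fun x =>
          pos M P0 (t + 1) (l.a + x)) x) := by
      unfold layerEvs mmEvs
      rw [if_neg (by omega), if_pos ht]
      congr 1
      congr 1
      funext j
      by_cases h1 : l.a ≤ j ∧ j < l.b
      · rw [if_pos h1]
        by_cases h2 : j + l.c < l.b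
        · rw [if_pos h2, if_pos (by simp [h2])]
          simp only [if_pos h1]
        · rw [if_neg h2, if_neg (by simp [h1, h2])]
      · rw [if_neg h1, if_pos (by simp [h1])]
        simp only [if_neg h1]
    rw [e, lane_of hm h (f := fun j => if l.a ≤ j ∧ j < l.b then j + l.c else j)
      (m := min l.c (l.b - l.a)) (g := fun x => pos M P0 (t + 1) (l.a + x)) ?_ ?_ ha]
    · unfold evalL
      simp only
      rw [if_neg (by omega : ¬ l.t = 0), if_pos ht]
      by_cases h1 : l.a ≤ a ∧ a < l.b
      · rw [if_pos h1, if_pos h1]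
        by_cases h2 : a + l.c < l.b
        · rw [if_pos (by simp [h2]), if_pos h2]
          rfl
        · rw [if_neg (by simp [h1, h2]), if_neg h2]
          rfl
      · rw [if_neg h1, if_neg h1, if_pos (by simp [h1])]
        rfl
    · intro j hj hk
      simp only [decide_eq_true_eq] at hk
      split_ifs <;> omega
    · intro i j hij hj hki hkj
      simp only [decide_eq_true_eq] at hki hkj
      split_ifs <;> omega
  · have e : layerEvs M P0 t l =
        mmEvs (fun j => decide (¬ (l.a ≤ j ∧ j < l.b) ∨ l.a + l.c ≤ j))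
          (fun j => pos M P0 t j)
          (fun j => pos M P0 (t + 1) ((fun j => if l.a ≤ j ∧ j < l.b then j - l.c else j) j)) M ++
        (List.range (min l.c (l.b - l.a))).map fun x => Ev.I ((fun x =>
          pos M P0 (t + 1) (l.b - 1 - x)) x) := by
      unfold layerEvs mmEvs
      rw [if_neg (by omega), if_neg (by omega)]
      congr 1
      congr 1
      funext j
      by_cases h1 : l.a ≤ j ∧ j < l.b
      · rw [if_pos h1]
        by_cases h2 : l.a + l.c ≤ j
        · rw [if_pos h2, if_pos (by simp [h2])]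
          simp only [if_pos h1]
        · rw [if_neg h2, if_neg (by simp only [decide_eq_true_eq]; omega)]
      · rw [if_neg h1, if_pos (by simp [h1])]
        simp only [if_neg h1]
    rw [e, lane_of hm h (f := fun j => if l.a ≤ j ∧ j < l.b then j - l.c else j)
      (m := min l.c (l.b - l.a)) (g := fun x => pos M P0 (t + 1) (l.b - 1 - x)) ?_ ?_ ha]
    · unfold evalL
      simp only
      rw [if_neg (by omega : ¬ l.t = 0), if_neg (by omega : ¬ l.t = 1)]
      by_cases h1 : l.a ≤ a ∧ a < l.b
      · rw [if_pos h1, if_pos h1]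
        by_cases h2 : l.a + l.c ≤ a
        · rw [if_pos (by simp [h2]), if_pos h2]
          rfl
        · rw [if_neg (by simp only [decide_eq_true_eq]; omega), if_neg h2]
          rfl
      · rw [if_neg h1, if_neg h1, if_pos (by simp [h1])]
        rfl
    · intro j hj hk
      simp only [decide_eq_true_eq] at hk
      split_ifs <;> omega
    · intro i j hij hj hki hkj
      simp only [decide_eq_true_eq] at hki hkj
      split_ifs <;> omega

end Pool.Agent.MP_fadef1_lc
end

section

/-! Whole circuits: lanes. -/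

namespace Pool.Agent.MP_fadef1_lc

variable {D : Data} {Q B A M P0 S : ℕ} {src dst : ℕ → ℕ} {L : List Layer} {R : ℕ → Prop}
  {W : ℕ → Bool}

private theorem CEvD_evalC_append (L₁ L₂ : List Layer) (p : ℕ × ℕ) :
    evalC D (L₁ ++ L₂) p = (evalC D L₁ p).bind (evalC D L₂) := by
  induction L₁ generalizing p with
  | nil => simp [evalC]
  | cons l L₁ ih =>
    simp only [List.cons_append, evalC]
    cases evalL D l p with
    | none => rfl
    | some q => simp [ih]

private theorem CEvD_LH (hM : 1 ≤ M) (P0 t : ℕ) :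
    LH 0 (pos M P0 (t + 1) (M - 1)) 9 M P0 t (fun _ => False)
      (fun c => decide (∃ j < M, c = pos M P0 t j)) :=
  ⟨hM, by omega, le_rfl, fun _ h => h.elim, fun c => by simp⟩

private theorem CEvD_lay (hD : D.Ok) (hm : (D.mort && D.al) = true) (hM : 1 ≤ M) {t : ℕ}
    {l : Layer} (hl : layOk M l) {a z : ℕ} (ha : a < M) (hz : z < D.w) :
    estepL D (layerEvs M P0 t l) (pos M P0 t a, z) =
      (evalL D l (a, z)).map fun q => (pos M P0 (t + 1) q.1, q.2) := by
  rcases id hl with h | h
  · exact gate_lane hD hm (CEvD_LH hM P0 t) h.1 hl ha hz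
  · exact shift_lane hm (CEvD_LH hM P0 t) h.1 hl ha

theorem layers_lane (hD : D.Ok) (hm : (D.mort && D.al) = true)
    (h : CH Q B A M P0 S src dst L R) {k : ℕ} (hk : k ≤ L.length) {a z : ℕ} (ha : a < M)
    (hz : z < D.w) :
    estepL D ((List.range k).flatMap fun t => layerEvs M P0 t (L.getD t default))
      (pos M P0 0 a, z) = (evalC D (L.take k) (a, z)).map fun q => (pos M P0 k q.1, q.2) := by
  have hM : 1 ≤ M := h.hS1.trans h.hS
  suffices H : ∀ k, k ≤ L.length →
      estepL D ((List.range k).flatMap fun t => layerEvs M P0 t (L.getD t default))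
        (pos M P0 0 a, z) = ((evalC D (L.take k) (a, z)).map fun q => (pos M P0 k q.1, q.2)) ∧
      ∀ q, evalC D (L.take k) (a, z) = some q → q.1 < M ∧ q.2 < D.w from (H k hk).1
  intro k
  induction k with
  | zero =>
    intro _
    refine ⟨by simp [estepL, evalC], ?_⟩
    intro q hq
    simp only [List.take_zero, evalC, Option.some.injEq] at hq
    subst hq
    exact ⟨ha, hz⟩
  | succ k ih =>
    intro hk
    obtain ⟨h1, h2⟩ := ih (by omega)
    have hkl : k < L.length := by omega
    have hmem : L.getD k default ∈ L := by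
      rw [List.getD_eq_getElem _ _ hkl]
      exact List.getElem_mem hkl
    have hl := h.hL _ hmem
    have htake : L.take (k + 1) = L.take k ++ [L.getD k default] := by
      rw [List.getD_eq_getElem _ _ hkl]
      exact (List.take_concat_get' L k hkl).symm
    have hev : evalC D (L.take (k + 1)) (a, z) =
        (evalC D (L.take k) (a, z)).bind (evalL D (L.getD k default)) := by
      rw [htake, CEvD_evalC_append]
      congr 1
      funext q
      simp only [evalC]
      cases evalL D (L.getD k default) q <;> rfl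
    constructor
    · rw [List.range_succ, List.flatMap_append, estepL_append, h1, hev]
      cases hq : evalC D (L.take k) (a, z) with
      | none => rfl
      | some q =>
        obtain ⟨hq1, hq2⟩ := h2 q hq
        simp only [Option.map_some, Option.bind_some, List.flatMap_cons, List.flatMap_nil,
          List.append_nil]
        exact CEvD_lay hD hm hM hl hq1 hq2
    · intro q hq
      rw [hev] at hq
      cases hq' : evalC D (L.take k) (a, z) with
      | none => simp [hq'] at hq
      | some q' =>
        obtain ⟨hq1, hq2⟩ := h2 q' hq'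
        rw [hq', Option.bind_some] at hq
        exact evalL_lt hD hl hq1 hq2 hq

end Pool.Agent.MP_fadef1_lc
end

section

/-! Whole circuits: lanes. -/

namespace Pool.Agent.MP_fadef1_lc

variable {D : Data} {Q B A M P0 S : ℕ} {src dst : ℕ → ℕ} {L : List Layer} {R : ℕ → Prop}
  {W : ℕ → Bool}

private theorem cev_final_eq (M P0 S t : ℕ) (dst : ℕ → ℕ) :
    finalEvs M P0 S t dst = mmEvs (fun j => decide (j < S)) (pos M P0 t) dst M := by
  simp only [finalEvs, mmEvs, decide_eq_true_eq]

private theorem cev_init_eq (M P0 S : ℕ) (src : ℕ → ℕ) :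
    ((List.range S).reverse.flatMap fun a => move (src a) (pos M P0 0 a)) =
      mmEvs (fun _ => true) src (pos M P0 0) S := by
  simp only [mmEvs, if_true]

private theorem cev_pos_le {M P0 t i j : ℕ} (h : i ≤ j) : pos M P0 t i ≤ pos M P0 t j := by
  unfold pos
  have : i * 20 ≤ j * 20 := Nat.mul_le_mul_right _ h
  omega

private theorem cev_pos_lt {M P0 t i j : ℕ} (h : i < j) : pos M P0 t i + 20 ≤ pos M P0 t j := by
  unfold pos
  have : (i + 1) * 20 ≤ j * 20 := Nat.mul_le_mul_right _ h
  omega

private theorem cev_P0_le (M P0 t i : ℕ) : P0 ≤ pos M P0 t i := by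
  unfold pos
  omega

private theorem cev_pos_t {M P0 t t' i : ℕ} (h : t ≤ t') : pos M P0 t i ≤ pos M P0 t' i := by
  unfold pos
  have : t * (20 * M + 30) ≤ t' * (20 * M + 30) := Nat.mul_le_mul_right _ h
  omega

private theorem cev_mm (h : CH Q B A M P0 S src dst L R) :
    MM Q A B R (fun j => decide (j < S)) (pos M P0 L.length) dst M := by
  have hS1 := h.hS1
  have h0s := h.hsP 0 (by omega)
  have h0lo := h.hlo 0 (by omega)
  have h0d := h.hPd 0 (by omega)
  have h0B := h.hB 0 (by omega)
  refine ⟨?_, ?_, ?_, ?_, ?_, ?_⟩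
  · intro i j hij hj
    have := cev_pos_lt (M := M) (P0 := P0) (t := L.length) hij
    omega
  · intro i j hij hj _ hkj
    exact h.hdst i j hij (by simpa using hkj)
  · intro j hj hkj
    have h1 := h.hPd j (by simpa using hkj)
    have h2 := cev_pos_le (M := M) (P0 := P0) (t := L.length) (show j ≤ M - 1 by omega)
    omega
  · intro c hc j hj
    have h2 := cev_pos_le (M := M) (P0 := P0) (t := L.length) (show j ≤ M - 1 by omega)
    have h3 := cev_P0_le M P0 L.length j
    rcases h.hR c hc with h4 | h4
    · have h5 := h4 0 (by omega)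
      exact ⟨by omega, fun _ => Or.inl (by omega)⟩
    · have h5 := h4 0 (by omega)
      refine ⟨by omega, fun hk => Or.inr ?_⟩
      exact h4 j (by simpa using hk)
  · intro j hj
    have h3 := cev_P0_le M P0 L.length j
    omega
  · intro j hj
    have h2 := cev_pos_le (M := M) (P0 := P0) (t := L.length) (show j ≤ M - 1 by omega)
    exact ⟨by omega, fun hk => h.hB j (by simpa using hk)⟩

private theorem cev_mm0 (h : CH Q B A M P0 S src dst L R) :
    MM Q A B R (fun _ => true) src (pos M P0 0) S := by
  have hS1 := h.hS1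
  have hS := h.hS
  have h0d := h.hPd 0 (by omega)
  have h0B := h.hB 0 (by omega)
  have hpos : ∀ j < S, pos M P0 0 j ≤ pos M P0 L.length (M - 1) := fun j hj =>
    (cev_pos_le (show j ≤ M - 1 by omega)).trans (cev_pos_t (Nat.zero_le _))
  refine ⟨?_, ?_, ?_, ?_, ?_, ?_⟩
  · intro i j hij hj
    exact h.hsrc i j hij hj
  · intro i j hij hj _ _
    have := cev_pos_lt (M := M) (P0 := P0) (t := 0) hij
    omega
  · intro j hj _
    have h1 := h.hsP j hj
    have h3 := cev_P0_le M P0 0 j
    omega
  · intro c hc j hj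
    have h1 := h.hsP j hj
    have h3 := cev_P0_le M P0 0 j
    have h6 := hpos j hj
    rcases h.hR c hc with h4 | h4
    · have h5 := h4 j hj
      exact ⟨by omega, fun _ => Or.inl (by omega)⟩
    · have h5 := h4 0 (by omega)
      exact ⟨by omega, fun _ => Or.inr (by omega)⟩
  · intro j hj
    exact h.hlo j hj
  · intro j hj
    have h1 := h.hsP j hj
    have h3 := cev_P0_le M P0 0 j
    have h6 := hpos j hj
    exact ⟨by omega, fun _ => by omega⟩

private theorem cev_evalC (hD : D.Ok) (q : ℕ × ℕ) : ∀ (L : List Layer) (_ : ∀ l ∈ L, layOk M l)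
    (a z : ℕ) (_ : a < M) (_ : z < D.w) (_ : evalC D L (a, z) = some q), q.1 < M ∧ q.2 < D.w
  | [], _, a, z, ha, hz, h => by
    simp only [evalC, Option.some.injEq] at h
    subst h
    exact ⟨ha, hz⟩
  | l :: L, hL, a, z, ha, hz, h => by
    simp only [evalC] at h
    rw [Option.bind_eq_some_iff] at h
    obtain ⟨r, hr, h⟩ := h
    have h1 := evalL_lt hD (hL l (List.mem_cons_self ..)) ha hz hr
    exact cev_evalC hD q L (fun l hl => hL l (List.mem_cons_of_mem _ hl)) r.1 r.2 h1.1 h1.2 h

theorem circ_lane (hD : D.Ok) (hm : (D.mort && D.al) = true)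
    (h : CH Q B A M P0 S src dst L R) {a z : ℕ} (ha : a < S) (hz : z < D.w) :
    estepL D (circEvs M P0 S src dst L) (src a, z) =
      (evalC D L (a, z)).bind fun q => if q.1 < S then some (dst q.1, q.2) else none := by
  unfold circEvs
  rw [estepL_append, estepL_append]
  have h1 : estepL D (initEvs M P0 S src) (src a, z) = some (pos M P0 0 a, z) := by
    unfold initEvs
    rw [estepL_append, cev_init_eq, mm_lane hm (cev_mm0 h) ha, if_pos rfl]
    exact estepL_rest (ins_rest _) z
  rw [h1, Option.bind_some, layers_lane hD hm h le_rfl (ha.trans_le h.hS) hz, List.take_length]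
  cases hq : evalC D L (a, z) with
  | none => simp
  | some q =>
    obtain ⟨hq1, hq2⟩ := cev_evalC hD q L h.hL a z (ha.trans_le h.hS) hz hq
    rw [Option.map_some, Option.bind_some, Option.bind_some, cev_final_eq,
      mm_lane hm (cev_mm h) hq1]
    simp only [decide_eq_true_eq]

theorem circ_dead (hm : (D.mort && D.al) = false) (h : CH Q B A M P0 S src dst L R) {a z : ℕ}
    (ha : a < S) : estepL D (circEvs M P0 S src dst L) (src a, z) = none := by
  unfold circEvs initEvs
  rw [estepL_append, estepL_append, estepL_append, cev_init_eq, mm_dead hm (cev_mm0 h) ha]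
  rfl

end Pool.Agent.MP_fadef1_lc
end

section

namespace Pool.Agent.MP_fadef1_lc

private theorem tmc_NN_ge {T : TM} (hT : T.Ok) (l : List ℕ) : 1 ≤ T.NN l := by
  obtain ⟨-, -, hB3, -⟩ := B_facts hT
  have : 0 < T.NN l := by
    simp only [TM.NN]
    exact Nat.pow_pos (by omega)
  omega

theorem sys_par_ok {T : TM} (hT : T.Ok) (l : List ℕ) : (T.sys l).par.Ok := by
  obtain ⟨-, -, hB3, -⟩ := B_facts hT
  have hN := tmc_NN_ge hT l
  refine par_ok _ hN ?_ ?_
  · show T.NN l + 1 ≤ 4 * T.NN l * T.B
    nlinarith
  · show 1 ≤ T.mi + 1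
    omega

/-- Summary of one step: a configuration with a successor. (`step_left`, `step_right`,
`step_write`.) -/
theorem step_some {T : TM} (hT : T.Ok) {c c' : Cfg} {w X Y : ℕ} (h : Enc T c w X Y) (hw : 0 < w)
    (l : List ℕ) (ht : T.step c = some c') :
    ∃ X' Y', (T.sys l).Step w X Y (reg T c) X' Y' ∧ (T.sys l).halt (reg T c) = false ∧
      Enc T c' (T.NN l * w) X' Y' := by
  have hh : (T.sys l).halt (reg T c) = (T.tr c.q c.h).isNone := hlt_reg hT h.ok
  unfold TM.step at ht
  split at ht
  · exact absurd ht (by simp)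
  · rename_i q' heq
    obtain ⟨X', Y', hs, he⟩ := step_left hT h hw l heq
    refine ⟨X', Y', hs, ?_, ?_⟩
    · rw [hh, heq]; rfl
    · rw [← Option.some.inj ht]; exact he
  · rename_i q' heq
    obtain ⟨X', Y', hs, he⟩ := step_right hT h hw l heq
    refine ⟨X', Y', hs, ?_, ?_⟩
    · rw [hh, heq]; rfl
    · rw [← Option.some.inj ht]; exact he
  · rename_i q' a heq
    obtain ⟨X', Y', hs, he⟩ := step_write hT h hw l heq
    refine ⟨X', Y', hs, ?_, ?_⟩
    · rw [hh, heq]; rfl
    · rw [← Option.some.inj ht]; exact he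

private theorem tmc_run_succ {T : TM} {c0 : Cfg} {n : ℕ} {c : Cfg} (h : T.run c0 n = some c) :
    T.run c0 (n + 1) = T.step c := by
  show (T.run c0 n).bind T.step = T.step c
  rw [h]
  rfl

/-- encoded numbers as long as the machine runs -/
private theorem tmc_enc {T : TM} (hT : T.Ok) {l : List ℕ} (hl : ∀ x ∈ l, x < T.g) :
    ∃ XY : ℕ → ℕ × ℕ, XY 0 = (1, 1) ∧
      (T.sys l).Step 1 1 1 T.mi (XY 1).1 (XY 1).2 ∧
      (∀ n c, T.run (cfg0 l) n = some c →
        Enc T c (T.NN l ^ (n + 1)) (XY (n + 1)).1 (XY (n + 1)).2) ∧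
      (∀ n c c', T.run (cfg0 l) n = some c → T.step c = some c' →
        (T.sys l).Step (T.NN l ^ (n + 1)) (XY (n + 1)).1 (XY (n + 1)).2 (reg T c)
          (XY (n + 2)).1 (XY (n + 2)).2 ∧ (T.sys l).halt (reg T c) = false) := by
  classical
  have hNN := tmc_NN_ge hT l
  obtain ⟨X1, Y1, hs1, he1⟩ := step_init hT hl
  -- the recursion
  have hex : ∀ (n : ℕ) (p : ℕ × ℕ), ∃ p' : ℕ × ℕ, ∀ c c', T.run (cfg0 l) n = some c →
      T.step c = some c' → Enc T c (T.NN l ^ (n + 1)) p.1 p.2 →
      ((T.sys l).Step (T.NN l ^ (n + 1)) p.1 p.2 (reg T c) p'.1 p'.2 ∧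
        (T.sys l).halt (reg T c) = false ∧ Enc T c' (T.NN l ^ (n + 2)) p'.1 p'.2) := by
    intro n p
    by_cases hc : ∃ c c', T.run (cfg0 l) n = some c ∧ T.step c = some c' ∧
        Enc T c (T.NN l ^ (n + 1)) p.1 p.2
    · obtain ⟨c, c', h1, h2, h3⟩ := hc
      obtain ⟨X', Y', a1, a2, a3⟩ := step_some hT h3 (by positivity) l h2
      refine ⟨(X', Y'), ?_⟩
      intro d d' g1 g2 _
      rw [h1] at g1
      obtain rfl := Option.some.inj g1
      rw [h2] at g2
      obtain rfl := Option.some.inj g2
      refine ⟨a1, a2, ?_⟩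
      rw [pow_succ, mul_comm]
      exact a3
    · refine ⟨(0, 0), ?_⟩
      intro c c' h1 h2 h3
      exact absurd ⟨c, c', h1, h2, h3⟩ hc
  choose F hF using hex
  let G : ℕ → ℕ × ℕ := fun n => Nat.rec (X1, Y1) (fun n p => F n p) n
  have hG0 : G 0 = (X1, Y1) := rfl
  have hGs : ∀ n, G (n + 1) = F n (G n) := fun n => rfl
  let XY : ℕ → ℕ × ℕ := fun n => Nat.casesOn n (1, 1) G
  have hXs : ∀ n, XY (n + 1) = G n := fun n => rfl
  have hEnc : ∀ n c, T.run (cfg0 l) n = some c →
      Enc T c (T.NN l ^ (n + 1)) (XY (n + 1)).1 (XY (n + 1)).2 := by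
    intro n
    induction n with
    | zero =>
      intro c hc
      have : cfg0 l = c := Option.some.inj hc
      subst this
      rw [hXs, hG0]
      simpa using he1
    | succ n ih =>
      intro c' hc'
      have hrun : (T.run (cfg0 l) n).bind T.step = some c' := hc'
      obtain ⟨c, h1, h2⟩ := Option.bind_eq_some_iff.mp hrun
      have h3 : Enc T c (T.NN l ^ (n + 1)) (G n).1 (G n).2 := ih c h1
      show Enc T c' (T.NN l ^ (n + 2)) (F n (G n)).1 (F n (G n)).2
      exact (hF n (G n) c c' h1 h2 h3).2.2
  refine ⟨XY, rfl, ?_, hEnc, ?_⟩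
  · show (T.sys l).Step 1 1 1 T.mi X1 Y1
    exact hs1
  · intro n c c' h1 h2
    have h3 : Enc T c (T.NN l ^ (n + 1)) (G n).1 (G n).2 := hEnc n c h1
    have := hF n (G n) c c' h1 h2 h3
    show (T.sys l).Step (T.NN l ^ (n + 1)) (G n).1 (G n).2 (reg T c)
          (F n (G n)).1 (F n (G n)).2 ∧ (T.sys l).halt (reg T c) = false
    exact ⟨this.1, this.2.1⟩

private theorem tmc_halt_mi (T : TM) (l : List ℕ) : (T.sys l).halt T.mi = false := by
  show T.hlt T.mi = false
  simp [TM.hlt]

/-- Non-halting input: all levels alive. `D 0 = data0`, `D (r+1) = dataOf (N^(r+1)) X Y true true`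
where `X, Y` encode `run r` (choose by `step_init`, `step_some`, dependent choice on the sequence);
`Next` by `next_of_step` (`data0 = dataOf 1 1 1 true true`, `N * 1 = N`). -/
theorem chain_nonhalt {T : TM} (hT : T.Ok) {l : List ℕ} (hl : ∀ x ∈ l, x < T.g)
    (h : ∀ n, T.run (cfg0 l) n ≠ none) :
    ∃ D, Chain (T.sys l).par D ∧ ∀ r, (D r).mort = true := by
  have hNN := tmc_NN_ge hT l
  obtain ⟨XY, h0, h1, -, h3⟩ := tmc_enc hT hl
  refine ⟨fun r => dataOf (T.NN l ^ r) (XY r).1 (XY r).2 true true, ⟨?_, ?_⟩, fun r => rfl⟩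
  · show dataOf (T.NN l ^ 0) (XY 0).1 (XY 0).2 true true = data0
    rw [h0]
    rfl
  · intro r
    cases r with
    | zero =>
      have := next_of_step (T.sys l) (w := 1) (X := 1) (Y := 1) (mort := true) (al := true)
        one_pos hNN h1
      rw [tmc_halt_mi] at this
      show Next (T.sys l).par (dataOf (T.NN l ^ 0) (XY 0).1 (XY 0).2 true true)
        (dataOf (T.NN l ^ (0 + 1)) (XY (0 + 1)).1 (XY (0 + 1)).2 true true)
      rw [h0]
      have e : T.NN l ^ (0 + 1) = T.NN l * 1 := by ring
      rw [e]
      exact this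
    | succ n =>
      obtain ⟨c, hc⟩ := Option.ne_none_iff_exists'.mp (h n)
      obtain ⟨c', hc'⟩ := Option.ne_none_iff_exists'.mp (h (n + 1))
      have hs : T.step c = some c' := by rw [← tmc_run_succ hc]; exact hc'
      obtain ⟨g1, g2⟩ := h3 n c c' hc hs
      have := next_of_step (T.sys l) (mort := true) (al := true)
        (show 0 < T.NN l ^ (n + 1) by positivity) hNN g1
      rw [g2] at this
      show Next (T.sys l).par (dataOf (T.NN l ^ (n + 1)) (XY (n + 1)).1 (XY (n + 1)).2 true true)
        (dataOf (T.NN l ^ (n + 1 + 1)) (XY (n + 1 + 1)).1 (XY (n + 1 + 1)).2 true true)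
      have e : T.NN l ^ (n + 1 + 1) = T.NN l * T.NN l ^ (n + 1) := by ring
      rw [e]
      exact this

/-- Halting input: if `run n = some c` and `step c = none`, then as before up to level `n+1` (which
encodes `c`); level `n+2` is `dataOf _ 0 0 true false` (`step_halt`, `next_of_step`); all later
levels are dead by `next_dead`. -/
theorem chain_halt {T : TM} (hT : T.Ok) {l : List ℕ} (hl : ∀ x ∈ l, x < T.g)
    (h : ∃ n, T.run (cfg0 l) n = none) :
    ∃ D, Chain (T.sys l).par D ∧ ∃ r, (D r).mort = false := by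
  classical
  have hNN := tmc_NN_ge hT l
  obtain ⟨XY, h0, h1, h2, h3⟩ := tmc_enc hT hl
  -- the last configuration
  obtain ⟨m, hm, hmin⟩ : ∃ m, T.run (cfg0 l) m = none ∧ ∀ k < m, T.run (cfg0 l) k ≠ none :=
    ⟨Nat.find h, Nat.find_spec h, fun k hk => Nat.find_min h hk⟩
  obtain ⟨n, rfl⟩ : ∃ n, m = n + 1 := by
    cases m with
    | zero => exact absurd hm (by simp [TM.run])
    | succ n => exact ⟨n, rfl⟩
  obtain ⟨c, hc⟩ := Option.ne_none_iff_exists'.mp (hmin n (Nat.lt_succ_self n))
  have hstep : T.step c = none := by rw [← tmc_run_succ hc]; exact hm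
  have htr : T.tr c.q c.h = none := by
    unfold TM.step at hstep
    split at hstep
    · assumption
    · exact absurd hstep (by simp)
    · exact absurd hstep (by simp)
    · exact absurd hstep (by simp)
  have hE := h2 n c hc
  have hpos : ∀ r, 0 < T.NN l ^ r := fun r => by positivity
  have hsh := step_halt hT hE (hpos _) l htr
  have hhlt : (T.sys l).halt (reg T c) = true := by
    have : (T.sys l).halt (reg T c) = (T.tr c.q c.h).isNone := hlt_reg hT hE.ok
    rw [this, htr]
    rfl
  -- the chain
  let D : ℕ → Data := fun r =>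
    if r ≤ n + 1 then dataOf (T.NN l ^ r) (XY r).1 (XY r).2 true true
    else if r = n + 2 then dataOf (T.NN l ^ r) 0 0 true false
    else dataOf (T.NN l ^ r) 0 0 false false
  have hD1 : ∀ r, r ≤ n + 1 → D r = dataOf (T.NN l ^ r) (XY r).1 (XY r).2 true true := by
    intro r hr
    simp only [D, if_pos hr]
  have hD2 : D (n + 2) = dataOf (T.NN l ^ (n + 2)) 0 0 true false := by
    have : ¬ (n + 2 ≤ n + 1) := by omega
    simp only [D, if_neg this, if_true]
  have hD3 : ∀ r, n + 3 ≤ r → D r = dataOf (T.NN l ^ r) 0 0 false false := by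
    intro r hr
    have h1 : ¬ (r ≤ n + 1) := by omega
    have h2 : ¬ (r = n + 2) := by omega
    simp only [D, if_neg h1, if_neg h2]
  refine ⟨D, ⟨?_, ?_⟩, n + 3, ?_⟩
  · rw [hD1 0 (by omega), h0]
    rfl
  · intro r
    have e : T.NN l ^ (r + 1) = T.NN l * T.NN l ^ r := by ring
    rcases Nat.lt_or_ge r (n + 1) with hr | hr
    · rw [hD1 r (by omega), hD1 (r + 1) (by omega), e]
      cases r with
      | zero =>
        have := next_of_step (T.sys l) (w := 1) (X := 1) (Y := 1) (mort := true) (al := true)
          one_pos hNN h1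
        rw [tmc_halt_mi] at this
        rw [h0]
        simp only [pow_zero]
        exact this
      | succ k =>
        have hk : k < n := by omega
        obtain ⟨d, hd⟩ := Option.ne_none_iff_exists'.mp (hmin k (by omega))
        obtain ⟨d', hd'⟩ := Option.ne_none_iff_exists'.mp (hmin (k + 1) (by omega))
        have hs : T.step d = some d' := by rw [← tmc_run_succ hd]; exact hd'
        obtain ⟨g1, g2⟩ := h3 k d d' hd hs
        have := next_of_step (T.sys l) (mort := true) (al := true)
          (show 0 < T.NN l ^ (k + 1) from hpos _) hNN g1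
        rw [g2] at this
        exact this
    · rcases Nat.lt_or_ge r (n + 2) with hr2 | hr2
      · obtain rfl : r = n + 1 := by omega
        rw [hD1 (n + 1) le_rfl, hD2, e]
        have := next_of_step (T.sys l) (mort := true) (al := true) (hpos (n + 1)) hNN hsh
        rw [hhlt] at this
        exact this
      · rw [hD3 (r + 1) (by omega), e]
        have hdead : ((D r).mort && (D r).al) = false := by
          rcases Nat.lt_or_ge r (n + 3) with hr3 | hr3
          · obtain rfl : r = n + 2 := by omega
            rw [hD2]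
            rfl
          · rw [hD3 r hr3]
            rfl
        have hwD : (D r).w = T.NN l ^ r := by
          rcases Nat.lt_or_ge r (n + 3) with hr3 | hr3
          · obtain rfl : r = n + 2 := by omega
            rw [hD2]
            rfl
          · rw [hD3 r hr3]
            rfl
        have := next_dead (P := (T.sys l).par) (D := D r) hNN (by rw [hwD]; exact hpos r) hdead
        rw [hwD] at this
        exact this
  · rw [hD3 (n + 3) le_rfl]
    rfl

end Pool.Agent.MP_fadef1_lc
end
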