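import Pool.Agent.Lib.MP_fadef1_lc.Mg.G007
import Pool.Agent.Lib.MP_fadef1_lc.Mg.G003
import Pool.Agent.Lib.MP_fadef1_lc.Mg.G005

section

/-! Paths of lanes: wires at rest. -/

namespace Pool.Agent.MP_fadef1_lc

variable {P : Par} {D : Data} {b : Bool} {t c A z : ℕ}

/-- a wire just entered -/
theorem lp_enter (hP : P.Ok) (ht : t ≤ 84) (he : entStrip b t = true) {k : ℕ} (hk : k < P.N) :
    LPath P D b (P.base t + k + 1, P.en t k, z) (P.base t + P.N + 4, P.en t k, z) := by
  have hsw := sw_all hP b ht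
  obtain ⟨h1, h2, h3, h4, h5⟩ := LPa1_num hP ht
  obtain ⟨h6, h7, h8, h9⟩ := Ok_bounds hP
  have hen : P.en t k = P.Q - 1 - 2 * (P.base t + k) := rfl
  have h11 : P.base t + P.N + 4 = (P.base t + k + 1) + (P.N + 4 - (k + 1)) := by omega
  rw [h11]
  refine lp_rest (fun i hi => ⟨by omega, ?_, ?_, by omega, by omega⟩) (by omega)
  · have h12 : P.base t + k + 1 + i = P.base t + (k + 1 + i) := by ring
    rw [h12]
    by_cases h13 : k + 1 + i < P.N
    · exact (hsw.a _ h13 _).2 (Or.inr ⟨he, k, by omega, rfl⟩)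
    · exact (hsw.m _ (by omega) (by omega) _).2 (Or.inr ⟨he, k, hk, rfl⟩)
  · have h12 : P.base t + k + 1 + i = P.base t + (k + 1 + i) := by ring
    rw [h12, ev_strip hP (by omega), if_pos (by omega)]
    rfl

/-- a wire about to leave -/
theorem lp_exit (hP : P.Ok) (ht : t ≤ 84) {k : ℕ} (hk : k < P.N) (hc : P.pre b t (P.ex t k)) :
    LPath P D b (P.base t, P.ex t k, z) (P.base t + k, P.ex t k, z) ∧
      P.W b (P.base t + k) (P.exitc (P.base t + k)) = true := by
  have hsw := sw_all hP b ht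
  obtain ⟨h1, h2, h3, h4, h5⟩ := LPa1_num hP ht
  obtain ⟨h6, h7, h8, h9⟩ := Ok_bounds hP
  have hex : ∀ k, P.ex t k = 2 * P.Q - 1 - 2 * (P.base t + k) := fun _ => rfl
  have hne : ∀ k' < k, P.ex t k ≠ P.ex t k' := by
    intro k' hk'
    rw [hex, hex]
    omega
  have hlo := pre_lo hP (by omega) hc
  rw [hex k] at hlo
  refine ⟨lp_rest (fun i hi => ⟨by omega, ?_, ?_, ?_, ?_⟩) (by omega), ?_⟩
  · exact (hsw.a i (by omega) _).2 (Or.inl ⟨hc, fun k' hk' => hne k' (by omega)⟩)
  · rw [ev_strip hP (by omega), if_pos (by omega)]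
    rfl
  · rw [hex k]; omega
  · rw [hex k]; omega
  · exact (hsw.a k hk _).2 (Or.inl ⟨hc, fun k' hk' => hne k' hk'⟩)

/-- a wire stays during strip `t` -/
theorem lp_strip (hP : P.Ok) (ht : t ≤ 84) (h1 : P.pre b t c) (h2 : P.pre b (t + 1) c) :
    LPath P D b (P.base t, c, z) (P.base (t + 1), c, z) := by
  have hsw := sw_all hP b ht
  have hlen := strip_len hP b t
  obtain ⟨g1, g2, g3, g4, g5⟩ := LPa1_num hP ht
  obtain ⟨h6, h7, h8, h9⟩ := Ok_bounds hP
  have hlo := pre_lo hP (by omega) h1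
  have hhi := pre_hi hP (by omega) h2
  have hne : ∀ k < P.N, c ≠ P.ex t k := by
    intro k hk h
    have hex : P.ex t k = 2 * P.Q - 1 - 2 * (P.base t + k) := rfl
    omega
  have hmid : P.mid b t c := Or.inl ⟨h1, hne⟩
  have hrest := strip_rest hP ht hmid h2
  have hW0 : P.W b (P.base t + P.N + 4) c = true := (hsw.m (P.N + 4) (by omega) le_rfl c).2 hmid
  rw [g1]
  refine lp_rest (fun i hi => ⟨by omega, ?_, ?_, by omega, by omega⟩) (by omega)
  · by_cases h13 : i < P.N
    · exact (hsw.a _ h13 _).2 (Or.inl ⟨h1, fun k' hk' => hne k' (by omega)⟩)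
    by_cases h14 : i ≤ P.N + 4
    · exact (hsw.m _ (by omega) (by omega) _).2 hmid
    by_cases h15 : P.N + 4 + (P.strip b t).length ≤ i
    · exact (hsw.d i h15 hi c).2 h2
    · obtain ⟨j, rfl⟩ : ∃ j, i = P.N + 4 + j := ⟨i - (P.N + 4), by omega⟩
      have h16 : P.base t + (P.N + 4 + j) = P.base t + P.N + 4 + j := by ring
      rw [h16, hsw.e j (by omega) c]
      exact updL_rest hrest hW0 j
  · rw [ev_strip hP hi]
    by_cases h14 : i < P.N + 4
    · rw [if_pos h14]
      rfl
    · rw [if_neg h14]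
      by_cases h15 : i - (P.N + 4) < (P.strip b t).length
      · rw [List.getD_eq_getElem _ _ h15]
        exact hrest _ (List.getElem_mem h15)
      · rw [List.getD_eq_default _ _ (by omega)]
        rfl

theorem lp_strips (hP : P.Ok) {t' : ℕ} (htt : t ≤ t') (ht : t' ≤ 85)
    (h : ∀ s, t ≤ s → s ≤ t' → P.pre b s c) :
    LPath P D b (P.base t, c, z) (P.base t', c, z) := by
  induction t', htt using Nat.le_induction with
  | base => exact Relation.ReflTransGen.refl
  | succ t' htt ih =>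
    exact (ih (by omega) fun s h1 h2 => h s h1 (by omega)).trans
      (lp_strip hP (by omega) (h t' htt (by omega)) (h (t' + 1) (by omega) le_rfl))

theorem lp_tail (hP : P.Ok) {k : ℕ} (hk : k < P.N) :
    LPath P D b (P.base 85, P.en 42 k, z) (P.QQ, P.en 42 k, z) := by
  obtain ⟨h6, h7, h8, h9⟩ := Ok_bounds hP
  have hQ : P.Q = 2 * P.QQ := rfl
  have hen : P.en 42 k = P.Q - 1 - 2 * (P.base 42 + k) := rfl
  have h42 : P.base 42 = P.H0 + 42 * P.Hs := rfl
  have h85 : P.base 85 = P.H0 + 85 * P.Hs := rfl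
  have h11 : P.QQ = P.base 85 + (P.QQ - P.base 85) := by omega
  have h12 : LPath P D b (P.base 85, P.en 42 k, z)
      (P.base 85 + (P.QQ - P.base 85), P.en 42 k, z) := by
    refine lp_rest (fun i hi => ⟨by omega, ?_, ?_, by omega, by omega⟩) ?_
    · exact (sw_tail hP b (by omega) (by omega) _).2 ⟨k, hk, rfl⟩
    · rw [(quiet_tail hP b (by omega)).1]
      rfl
    · have : P.H0 = 2 * P.N + 20 := rfl
      omega
  rwa [← h11] at h12

end Pool.Agent.MP_fadef1_lc
end

section

/-! Lanes of the alive gate in the blocks of type 1. -/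

namespace Pool.Agent.MP_fadef1_lc

variable {P : Par} {D : Data} {d k z : ℕ}

private theorem LP1_src (hk : k < P.N) : P.srcE (P.N - 1 - k) = P.en 39 k := by
  unfold Par.srcE
  rw [show P.N - 1 - (P.N - 1 - k) = k by omega]

private theorem LP1_strip : P.strip true 39 = P.aliveEvs := by
  simp [Par.strip]

private theorem LP1_mid (hP : P.Ok) (hk : k < P.N) : P.mid true 39 (P.en 39 k) := by
  rw [alive_mid hP]
  exact Or.inr ⟨P.N - 1 - k, by omega, (LP1_src hk).symm⟩

theorem lp1_alive (hP : P.Ok) (hD : D.Ok) (hm : (D.mort && D.al) = true) (hk : k < P.N)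
    (hz : z < D.w) {a' z' : ℕ} (ha' : a' < P.N)
    (h : evalC D P.cE (P.N - 1 - k, z) = some (a', z')) :
    LPath P D true (P.base 39 + k + 1, P.en 39 k, z)
        (P.base 82 + (P.N - 1 - a'), P.ex 82 (P.N - 1 - a'), z') ∧
      P.W true (P.base 82 + (P.N - 1 - a')) (P.exitc (P.base 82 + (P.N - 1 - a'))) = true := by
  have h1 := lp_enter hP (D := D) (b := true) (z := z) (t := 39) (by omega)
    (by simp [entStrip]) hk
  have h2 : estepL D (P.strip true 39) (P.en 39 k, z) = some (P.ex 82 (P.N - 1 - a'), z') := by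
    rw [LP1_strip, Par.aliveEvs, ← LP1_src hk, circ_lane hD hm (alive_CH hP) (by omega) hz, h,
      Option.bind_some, if_pos ha']
    rfl
  have h3 := lp_events hP hD (by omega) (LP1_mid hP hk) hz h2
  have hpre : ∀ t, 40 ≤ t → t ≤ 82 → P.pre true t (P.ex 82 (P.N - 1 - a')) := by
    intro t h4 h5
    simp only [Par.pre, if_true]
    exact Or.inr (Or.inr (Or.inr (Or.inr (Or.inr (Or.inl
      ⟨by omega, h5, P.N - 1 - a', by omega, rfl⟩)))))
  have h4 := lp_strips hP (D := D) (b := true) (z := z') (t := 40) (t' := 82)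
    (c := P.ex 82 (P.N - 1 - a')) (by omega) (by omega) (fun t ht ht' => hpre t ht ht')
  have h5 := lp_exit hP (D := D) (b := true) (z := z') (t := 82) (k := P.N - 1 - a') (by omega)
    (by omega) (hpre _ (by omega) le_rfl)
  exact ⟨h1.trans (h3.trans (h4.trans h5.1)), h5.2⟩

theorem lp1_alive_dead (hP : P.Ok) (hD : D.Ok) (hk : k < P.N) (hz : z < D.w)
    (h : (D.mort && D.al) = false ∨
      ∀ q, evalC D P.cE (P.N - 1 - k, z) = some q → P.N ≤ q.1) :
    LDead P D true (P.base 39 + k + 1, P.en 39 k, z) := by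
  have h1 := lp_enter hP (D := D) (b := true) (z := z) (t := 39) (by omega)
    (by simp [entStrip]) hk
  have h2 : estepL D (P.strip true 39) (P.en 39 k, z) = none := by
    rw [LP1_strip, Par.aliveEvs, ← LP1_src hk]
    by_cases hm : (D.mort && D.al) = true
    · have h' := h.resolve_left (by rw [hm]; simp)
      rw [circ_lane hD hm (alive_CH hP) (by omega) hz]
      rcases hq : evalC D P.cE (P.N - 1 - k, z) with _ | q
      · simp
      · have := h' q hq
        rw [Option.bind_some, if_neg (by omega)]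
    · exact circ_dead (by simpa using hm) (alive_CH hP) (by omega)
  exact ldead_of_lpath h1 (lp_events_dead hP hD (by omega) (LP1_mid hP hk) hz h2)

end Pool.Agent.MP_fadef1_lc
end

section

/-! Paths of lanes: top part. -/

namespace Pool.Agent.MP_fadef1_lc

variable {P : Par} {D : Data} {b : Bool} {t c A z : ℕ}

/-- wires at the top are left of the exits -/
theorem LPa2_W0 (hP : P.Ok) (h : P.W0 b c = true) :
    P.Q ≤ c ∧ c + 2 * P.H0 + 1 < 2 * P.Q := by
  obtain ⟨h1, h2, h3, h4⟩ := Ok_bounds hP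
  have hQ : P.Q = 2 * P.QQ := rfl
  have hH : P.H0 = 2 * P.N + 20 := rfl
  unfold Par.W0 at h
  simp only [Bool.or_eq_true, List.any_eq_true, List.mem_range, decide_eq_true_eq,
    Bool.and_eq_true] at h
  rcases h with ⟨k, hk, rfl⟩ | ⟨-, rfl⟩
  · unfold Par.ex Par.base
    omega
  · omega

/-- facts about the top part -/
theorem LPa2_top (hP : P.Ok) : LPa1_Run P D b 4 (P.top b) := by
  obtain ⟨hs1, hs2, hs3⟩ := sw_top hP b
  have hlen := top_len hP b
  obtain ⟨hx, -⟩ := top_ex hP b
  obtain ⟨h1, h2, h3, h4⟩ := Ok_bounds hP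
  have hQ : P.Q = 2 * P.QQ := rfl
  have hH : P.H0 = 2 * P.N + 20 := rfl
  have hW4 : P.W b 4 = P.W0 b := funext fun c => hs1 4 le_rfl c
  have hev : ∀ i < (P.top b).length, P.ev b (4 + i) = (P.top b).getD i Ev.non := by
    intro i hi
    unfold Par.ev
    rw [if_neg (by omega), if_pos (by omega)]
    congr 1
    omega
  have hWi : ∀ i ≤ (P.top b).length, P.W b (4 + i) = updL ((P.top b).take i) (P.W0 b) :=
    fun i hi => funext fun c => hs2 i (by omega) c
  refine ⟨fun i hi => ?_, hev, fun i hi c => ?_, fun i hi c hc => ?_, by omega, by omega⟩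
  · rw [hWi i hi.le]
    exact (ExOk_get hx hi).1
  · rw [hWi (i + 1) hi, updL_take_succ hi, hWi i hi.le]
  · rw [hWi i hi.le] at hc
    rcases updL_bounds hx hi.le hc with h6 | h6
    · have h7 := LPa2_W0 hP h6
      omega
    · have h7 : P.ex 0 0 = 2 * P.Q - 1 - 2 * (P.base 0 + 0) := rfl
      have h8 : P.base 0 = P.H0 + 0 * P.Hs := rfl
      omega

theorem LPa2_first (hP : P.Ok) (hc : P.W0 b c = true) {A : ℕ} (hA : A ≤ 4)
    (h0 : A = 0 → c ≠ P.Q + 13) : LPath P D b (A, c, z) (4, c, z) := by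
  obtain ⟨hs1, hs2, hs3⟩ := sw_top hP b
  obtain ⟨h1, h2, h3, h4⟩ := Ok_bounds hP
  have hQ : P.Q = 2 * P.QQ := rfl
  have hH : P.H0 = 2 * P.N + 20 := rfl
  have h5 : 4 = A + (4 - A) := by omega
  have h6 := LPa2_W0 hP hc
  rw [h5]
  refine lp_rest (fun i hi => ⟨by omega, ?_, ?_, by omega, by omega⟩) ?_
  · rw [hs1 (A + i) (by omega)]
    exact hc
  · unfold Par.ev
    rw [if_pos (by omega)]
    rfl
  · rintro ⟨h8, -, h9⟩
    exact h0 h8 h9

theorem LPa2_all (hP : P.Ok) (hD : D.Ok) (hc : P.W0 b c = true) (hz : z < D.w) {A : ℕ}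
    (hA : A ≤ 4) (h0 : A = 0 → c ≠ P.Q + 13) {c' z' : ℕ}
    (h : estepL D (P.top b) (c, z) = some (c', z')) :
    LPath P D b (A, c, z) (P.base 0, c', z') := by
  obtain ⟨hs1, hs2, hs3⟩ := sw_top hP b
  have hlen := top_len hP b
  obtain ⟨hx, hpre⟩ := top_ex hP b
  obtain ⟨h1, h2, h3, h4⟩ := Ok_bounds hP
  have hQ : P.Q = 2 * P.QQ := rfl
  have hH : P.H0 = 2 * P.N + 20 := rfl
  have hB : P.base 0 = P.H0 + 0 * P.Hs := rfl
  have hW4 : P.W b 4 = P.W0 b := funext fun c => hs1 4 le_rfl c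
  refine (LPa2_first hP hc hA h0).trans ?_
  obtain ⟨h6, h7, h8⟩ := LPa1_run hD (LPa2_top (D := D) (b := b) hP) (by rw [hW4]; exact hc) hz
    (P.top b).length le_rfl c' z' (by rw [List.take_length]; exact h)
  refine h6.trans ?_
  have h11 : P.base 0 = (4 + (P.top b).length) + (P.H0 - (4 + (P.top b).length)) := by omega
  have h12 : updL (P.top b) (P.W0 b) c' = true := by
    rw [hs2 _ (by omega), List.take_length] at h7
    exact h7
  have h13 : P.Q ≤ c' + 2 * (4 + (P.top b).length) ∧ c' + 2 * P.H0 + 1 ≤ 2 * P.Q := by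
    have h14 : updL ((P.top b).take (P.top b).length) (P.W0 b) c' = true := by
      rw [List.take_length]; exact h12
    rcases updL_bounds hx le_rfl h14 with h6 | h6
    · have h7 := LPa2_W0 hP h6
      omega
    · have h7 : P.ex 0 0 = 2 * P.Q - 1 - 2 * (P.base 0 + 0) := rfl
      omega
  rw [h11]
  refine lp_rest (fun i hi => ⟨by omega, ?_, ?_, by omega, by omega⟩) (by omega)
  · have h15 : 4 + (P.top b).length + i = 4 + ((P.top b).length + i) := by ring
    rw [h15, hs2 _ (by omega), List.take_of_length_le (by omega)]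
    exact h12
  · unfold Par.ev
    rw [if_neg (by omega), if_pos (by omega), List.getD_eq_default _ _ (by omega)]
    rfl

theorem LPa2_all_dead (hP : P.Ok) (hD : D.Ok) (hc : P.W0 b c = true) (hz : z < D.w) {A : ℕ}
    (hA : A ≤ 4) (h0 : A = 0 → c ≠ P.Q + 13) (h : estepL D (P.top b) (c, z) = none) :
    LDead P D b (A, c, z) := by
  obtain ⟨hs1, hs2, hs3⟩ := sw_top hP b
  refine ldead_of_lpath (LPa2_first hP hc hA h0) ?_
  exact LPa1_run_dead hD (LPa2_top hP) (by rw [hs1 4 le_rfl]; exact hc) hz h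

/-- the events in the top part, for the wires of the groups -/
theorem lp_top (hP : P.Ok) (hD : D.Ok) (hc : P.W0 b c = true) (hc' : c ≠ P.Q + 13)
    (hz : z < D.w) {c' z' : ℕ} (h : estepL D (P.top b) (c, z) = some (c', z')) :
    LPath P D b (0, c, z) (P.base 0, c', z') :=
  LPa2_all hP hD hc hz (by omega) (fun _ => hc') h

theorem lp_top_dead (hP : P.Ok) (hD : D.Ok) (hc : P.W0 b c = true) (hc' : c ≠ P.Q + 13)
    (hz : z < D.w) (h : estepL D (P.top b) (c, z) = none) : LDead P D b (0, c, z) :=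
  LPa2_all_dead hP hD hc hz (by omega) (fun _ => hc') h

theorem LPa2_Z : P.W0 true (P.Q + 13) = true := by
  simp [Par.W0]

/-- the extra wire -/
theorem lp_topZ (hP : P.Ok) (hD : D.Ok) (hm : (D.mort && D.al) = true) (hz : z < D.w) :
    LPath P D true (1, P.Q + 13, z) (P.base 0, P.ex 43 0, z) :=
  LPa2_all hP hD LPa2_Z hz (by omega) (by omega) (move_lane hm _ _ _)

theorem lp_topZ_dead (hP : P.Ok) (hD : D.Ok) (hm : (D.mort && D.al) = false) (hz : z < D.w) :
    LDead P D true (1, P.Q + 13, z) :=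
  LPa2_all_dead hP hD LPa2_Z hz (by omega) (by omega) (move_dead hm _ _ _)

end Pool.Agent.MP_fadef1_lc
end

section

/-! Lanes in the blocks of type 1. -/

namespace Pool.Agent.MP_fadef1_lc

variable {P : Par} {D : Data} {d k z : ℕ}

private theorem LP1A_src {c : ℕ} (hc : P.Q + 28 ≤ c) : ∀ e ∈ P.top true, isSrc e c = false := by
  intro e he
  simp only [Par.top, if_true, move, List.mem_cons, List.not_mem_nil, or_false] at he
  rcases he with rfl | rfl
  · have h : c ≠ P.Q + 13 := by omega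
    simp [isSrc, Ev.A, h]
  · have h : c ≠ P.Q + 13 + 14 := by omega
    simp [isSrc, Ev.R, h]

private theorem LP1A_ev {c A : ℕ} (hA : A < P.H0) (hc : P.Q + 28 ≤ c) :
    isSrc (P.ev true A) c = false := by
  unfold Par.ev
  split_ifs
  · simp [isSrc, Ev.non]
  · by_cases h : A - 4 < (P.top true).length
    · apply LP1A_src hc
      rw [List.getD_eq_getElem _ _ h]
      exact List.getElem_mem h
    · rw [List.getD_eq_default _ _ (by omega)]
      simp [isSrc, Ev.non]

private theorem LP1A_top (hP : P.Ok) {c : ℕ} (hW : P.W0 true c = true) (hc : P.Q + 28 ≤ c)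
    (hc2 : c + 2 * P.H0 + 1 ≤ 2 * P.Q) : LPath P D true (0, c, z) (P.base 0, c, z) := by
  obtain ⟨b1, b2, b3, b4⟩ := Ok_bounds hP
  obtain ⟨s1, s2, -⟩ := sw_top hP true
  have e0 : P.base 0 = P.H0 := by simp [Par.base]
  have := lp_rest (P := P) (D := D) (b := true) (A := 0) (c := c) (z := z) (n := P.base 0) ?_ ?_
  · simpa using this
  · intro i hi
    rw [e0] at hi
    simp only [zero_add]
    refine ⟨by omega, ?_, LP1A_ev hi hc, by omega, by omega⟩
    by_cases h4 : i ≤ 4
    · rw [s1 i h4 c]; exact hW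
    · have := s2 (i - 4) (by omega) c
      rw [show 4 + (i - 4) = i by omega] at this
      rw [this]
      exact updL_rest (LP1A_src hc) hW _
  · omega

theorem lp1_T (hP : P.Ok) (hk : k < P.N) :
    LPath P D true (0, P.ex 42 k, z) (P.base 42 + k, P.ex 42 k, z) ∧
      P.W true (P.base 42 + k) (P.exitc (P.base 42 + k)) = true := by
  obtain ⟨b1, b2, b3, b4⟩ := Ok_bounds hP
  have eQ : P.Q = 2 * P.QQ := rfl
  have eb : P.base 42 = P.H0 + 42 * P.Hs := rfl
  have eE : P.ex 42 k = 2 * P.Q - 1 - 2 * (P.base 42 + k) := rfl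
  have hpre : ∀ s ≤ 42, P.pre true s (P.ex 42 k) := fun s hs => by
    simp only [Par.pre, if_true]
    exact Or.inl ⟨hs, k, hk, rfl⟩
  have hW0 : P.W0 true (P.ex 42 k) = true := by
    simp only [Par.W0, Bool.or_eq_true, List.any_eq_true, List.mem_range, decide_eq_true_eq]
    exact Or.inl ⟨k, hk, rfl⟩
  have h1 : LPath P D true (0, P.ex 42 k, z) (P.base 0, P.ex 42 k, z) :=
    LP1A_top hP hW0 (by omega) (by omega)
  have h2 := lp_strips hP (D := D) (b := true) (z := z) (t := 0) (t' := 42) (c := P.ex 42 k)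
    (by omega) (by omega) (fun s _ hs => hpre s hs)
  have h3 := lp_exit hP (D := D) (b := true) (z := z) (t := 42) (by omega) hk (hpre 42 le_rfl)
  exact ⟨h1.trans (h2.trans h3.1), h3.2⟩

theorem lp1_c (hP : P.Ok) (hk : k < P.N) :
    LPath P D true (P.base 42 + k + 1, P.en 42 k, z) (P.QQ, P.en 42 k, z) := by
  obtain ⟨b1, b2, b3, b4⟩ := Ok_bounds hP
  have eQ : P.Q = 2 * P.QQ := rfl
  have eb : P.base 42 = P.H0 + 42 * P.Hs := rfl
  have eb' : P.base 43 = P.H0 + 43 * P.Hs := rfl
  have eE : P.en 42 k = P.Q - 1 - 2 * (P.base 42 + k) := rfl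
  have hpre : ∀ s, 43 ≤ s → P.pre true s (P.en 42 k) := fun s hs => by
    simp only [Par.pre, if_true]
    exact Or.inr (Or.inr (Or.inr (Or.inr (Or.inr (Or.inr ⟨by omega, k, hk, rfl⟩)))))
  have h1 := lp_enter hP (D := D) (b := true) (z := z) (t := 42) (by omega) (by simp [entStrip]) hk
  have hnil : P.strip true 42 = [] := strip1_nil (by omega) (by omega) (by omega) (by omega)
    (by omega)
  have h2 : LPath P D true (P.base 42 + P.N + 4, P.en 42 k, z) (P.base 43, P.en 42 k, z) := by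
    have := lp_rest (P := P) (D := D) (b := true) (A := P.base 42 + P.N + 4) (c := P.en 42 k)
      (z := z) (n := P.Hs - (P.N + 4)) ?_ ?_
    · rw [show P.base 42 + P.N + 4 + (P.Hs - (P.N + 4)) = P.base 43 by omega] at this
      exact this
    · intro i hi
      have e1 : P.base 42 + P.N + 4 + i = P.base 42 + (P.N + 4 + i) := by omega
      have e2 := (sw_all hP true (t := 42) (by omega)).d (P.N + 4 + i)
        (by rw [hnil]; simp) (by omega) (P.en 42 k)
      have e3 := ev_strip hP (b := true) (t := 42) (k := P.N + 4 + i) (by omega)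
      rw [if_neg (by omega), hnil] at e3
      refine ⟨by omega, ?_, ?_, by omega, by omega⟩
      · rw [e1, e2]; exact hpre 43 le_rfl
      · rw [e1, e3]; simp [isSrc, Ev.non]
    · omega
  have h3 := lp_strips hP (D := D) (b := true) (z := z) (t := 43) (t' := 85) (c := P.en 42 k)
    (by omega) (by omega) (fun s hs _ => hpre s hs)
  have h4 := lp_tail hP (D := D) (b := true) (z := z) hk
  exact h1.trans (h2.trans (h3.trans h4))

theorem lp1_Z (hP : P.Ok) (hD : D.Ok) (hm : (D.mort && D.al) = true) (hz : z < D.w) :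
    LPath P D true (1, P.Q + 13, z) (P.base 43, P.ex 43 0, z) ∧
      P.W true (P.base 43) (P.exitc (P.base 43)) = true := by
  obtain ⟨b1, b2, b3, b4⟩ := Ok_bounds hP
  have hpre : ∀ s ≤ 43, P.pre true s (P.ex 43 0) := fun s hs => by
    simp only [Par.pre, if_true]
    exact Or.inr (Or.inl ⟨hs, trivial⟩)
  have h1 := lp_topZ hP hD hm hz
  have h2 := lp_strips hP (D := D) (b := true) (z := z) (t := 0) (t' := 43) (c := P.ex 43 0)
    (by omega) (by omega) (fun s _ hs => hpre s hs)
  have h3 := lp_exit hP (D := D) (b := true) (z := z) (t := 43) (k := 0) (by omega) (by omega)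
    (hpre 43 le_rfl)
  exact ⟨h1.trans h2, h3.2⟩

end Pool.Agent.MP_fadef1_lc
end

section

/-! Lanes of the pair gates in the blocks of type 1. -/

namespace Pool.Agent.MP_fadef1_lc

variable {P : Par} {D : Data} {d k z : ℕ}

/-- strip of slot `s` of the pair gate `d` -/
def tin (d s : ℕ) : ℕ := if s = 0 then 36 - 9 * d else 30 - 9 * d
/-- exit strip of slot `s` of the pair gate `d` -/
def tout (d s : ℕ) : ℕ := if s = 0 then 79 - 9 * d else 73 - 9 * d

private theorem LP1B_bound (hP : P.Ok) {t : ℕ} (ht : t ≤ 84) : P.base (t + 1) = P.base t + P.Hs ∧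
    P.base (t + 1) ≤ P.H0 + 85 * P.Hs ∧ P.N + 20 ≤ P.Hs ∧ P.H0 + 86 * P.Hs + 100 ≤ P.QQ := by
  obtain ⟨b1, b2, b3, b4⟩ := Ok_bounds hP
  have h1 : (t + 1) * P.Hs ≤ 85 * P.Hs := Nat.mul_le_mul_right _ (by omega)
  refine ⟨?_, ?_, by omega, by omega⟩
  · unfold Par.base; ring
  · unfold Par.base; omega

/-- the first superbands of a strip -/
private theorem LP1B_head (hP : P.Ok) {b : Bool} {t c : ℕ} (ht : t ≤ 84) (h1 : P.pre b t c)
    (h2 : ∀ k < P.N, c ≠ P.ex t k) :
    LPath P D b (P.base t, c, z) (P.base t + P.N + 4, c, z) := by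
  obtain ⟨b1, b2, b3, b4⟩ := LP1B_bound hP ht
  have eQ : P.Q = 2 * P.QQ := rfl
  have hlo := pre_lo hP (by omega) h1
  have hhi := pre_hi' hP ht h1 h2
  have hH : 0 < P.H0 := by unfold Par.H0; omega
  have hb : P.H0 ≤ P.base t := by unfold Par.base; omega
  have := lp_rest (P := P) (D := D) (b := b) (A := P.base t) (c := c) (z := z) (n := P.N + 4) ?_ ?_
  · simpa [add_assoc] using this
  · intro i hi
    have e3 := ev_strip hP (b := b) (t := t) (k := i) (by omega)
    rw [if_pos hi] at e3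
    refine ⟨by omega, ?_, by rw [e3]; simp [isSrc, Ev.non], by omega, by omega⟩
    rcases lt_or_ge i P.N with h | h
    · rw [(sw_all hP b ht).a i h c]
      exact Or.inl ⟨h1, fun k' hk' => h2 k' (by omega)⟩
    · rw [(sw_all hP b ht).m i h (by omega) c]
      exact Or.inl ⟨h1, h2⟩
  · omega

/-- the end of a strip without events -/
private theorem LP1B_tail (hP : P.Ok) {b : Bool} {t c : ℕ} (ht : t ≤ 84)
    (hnil : P.strip b t = []) (h1 : P.pre b (t + 1) c) :
    LPath P D b (P.base t + P.N + 4, c, z) (P.base (t + 1), c, z) := by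
  obtain ⟨b1, b2, b3, b4⟩ := LP1B_bound hP ht
  have eQ : P.Q = 2 * P.QQ := rfl
  have hlo := pre_lo hP (by omega) h1
  have hhi := pre_hi hP (by omega) h1
  have hm : P.mid b t c := by
    rw [← (sw_all hP b ht).m (P.N + 4) (by omega) le_rfl c,
      (sw_all hP b ht).d (P.N + 4) (by rw [hnil]; simp) (by omega) c]
    exact h1
  have hlo2 : P.Q ≤ c + 2 * (P.base t + P.N + 4) := by
    rcases hm with hm | ⟨_, k, hk, rfl⟩
    · have := pre_lo hP (by omega) hm.1
      omega
    · unfold Par.en; omega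
  have := lp_rest (P := P) (D := D) (b := b) (A := P.base t + P.N + 4) (c := c)
      (z := z) (n := P.Hs - (P.N + 4)) ?_ ?_
  · rw [show P.base t + P.N + 4 + (P.Hs - (P.N + 4)) = P.base (t + 1) by omega] at this
    exact this
  · intro i hi
    have e1 : P.base t + P.N + 4 + i = P.base t + (P.N + 4 + i) := by omega
    have e2 := (sw_all hP b ht).d (P.N + 4 + i)
      (by rw [hnil]; simp) (by omega) c
    have e3 := ev_strip hP (b := b) (t := t) (k := P.N + 4 + i) (by omega)
    rw [if_neg (by omega), hnil] at e3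
    refine ⟨by omega, ?_, ?_, by omega, by omega⟩
    · rw [e1, e2]; exact h1
    · rw [e1, e3]; simp [isSrc, Ev.non]
  · omega

private theorem LP1B_src {s : ℕ} (hs : s < 2) (hk : k < P.N) :
    P.srcP d (s * P.N + (P.N - 1 - k)) = P.en (tin d s) k ∧
      s * P.N + (P.N - 1 - k) < 2 * P.N := by
  unfold Par.srcP tin
  rcases Nat.lt_or_ge s 1 with h | h
  · have h0 : s = 0 := by omega
    subst h0
    simp only [zero_mul, zero_add, if_true]
    rw [if_pos (by omega), show P.N - 1 - (P.N - 1 - k) = k by omega]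
    exact ⟨rfl, by omega⟩
  · have h0 : s = 1 := by omega
    subst h0
    rw [if_neg (by omega), if_neg (by omega),
      show 2 * P.N - 1 - (1 * P.N + (P.N - 1 - k)) = k by omega]
    exact ⟨rfl, by omega⟩

private theorem LP1B_strip (hd : d < 4) : P.strip true (36 - 9 * d) = P.pairEvs d := by
  interval_cases d <;> simp [Par.strip]

private theorem LP1B_in (hP : P.Ok) (hd : d < 4) {s : ℕ} (hs : s < 2) (hk : k < P.N) :
    LPath P D true (P.base (tin d s) + k + 1, P.en (tin d s) k, z)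
      (P.base (36 - 9 * d) + P.N + 4, P.en (tin d s) k, z) := by
  rcases Nat.lt_or_ge s 1 with h | h
  · have h0 : s = 0 := by omega
    subst h0
    simp only [tin, if_true]
    exact lp_enter hP (by omega) (by interval_cases d <;> simp [entStrip]) hk
  · have h0 : s = 1 := by omega
    subst h0
    have e : tin d 1 = 30 - 9 * d := by simp [tin]
    rw [e]
    have hpre : ∀ t, 31 - 9 * d ≤ t → t ≤ 36 - 9 * d → P.pre true t (P.en (30 - 9 * d) k) := by
      intro t h1 h2
      simp only [Par.pre, if_true]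
      exact Or.inr (Or.inr (Or.inl ⟨d, hd, by omega, h2, k, hk, rfl⟩))
    have h1 := lp_enter hP (D := D) (b := true) (z := z) (t := 30 - 9 * d) (by omega)
      (by interval_cases d <;> simp [entStrip]) hk
    have h2 := LP1B_tail hP (D := D) (b := true) (z := z) (t := 30 - 9 * d)
      (c := P.en (30 - 9 * d) k) (by omega)
      (by interval_cases d <;> simp [Par.strip]) (hpre _ (by omega) (by omega))
    have h3 := lp_strips hP (D := D) (b := true) (z := z) (t := 30 - 9 * d + 1)
      (t' := 36 - 9 * d) (c := P.en (30 - 9 * d) k) (by omega) (by omega)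
      (fun s hs hs' => hpre s (by omega) hs')
    have h4 := LP1B_head hP (D := D) (b := true) (z := z) (t := 36 - 9 * d)
      (c := P.en (30 - 9 * d) k) (by omega) (hpre _ (by omega) le_rfl) (fun k' hk' => by
        obtain ⟨b1, b2, b3, b4⟩ := LP1B_bound hP (t := 36 - 9 * d) (by omega)
        have eQ : P.Q = 2 * P.QQ := rfl
        unfold Par.en Par.ex
        omega)
    exact h1.trans (h2.trans (h3.trans h4))

private theorem LP1B_dst {a' : ℕ} (ha' : a' < 2 * P.N) :
    P.dstP d a' = P.ex (tout d (a' / P.N)) (P.N - 1 - a' % P.N) := by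
  unfold Par.dstP tout
  rcases Nat.lt_or_ge a' P.N with h | h
  · rw [if_pos h, Nat.div_eq_of_lt h, if_pos rfl, Nat.mod_eq_of_lt h]
  · have hN : 0 < P.N := by omega
    have e1 : a' / P.N = 1 := by
      rw [Nat.div_eq_iff hN]
      omega
    have e2 : a' % P.N = a' - P.N := by
      rw [Nat.mod_eq_sub_mod h, Nat.mod_eq_of_lt (by omega)]
    rw [if_neg (by omega), e1, if_neg (by omega), e2]
    congr 1
    omega

private theorem LP1B_mid (hP : P.Ok) (hd : d < 4) {s : ℕ} (hs : s < 2) (hk : k < P.N) :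
    P.mid true (36 - 9 * d) (P.en (tin d s) k) := by
  rw [pair_mid hP hd]
  exact Or.inr ⟨_, (LP1B_src (d := d) hs hk).2, (LP1B_src (d := d) hs hk).1.symm⟩

theorem lp1_pair (hP : P.Ok) (hD : D.Ok) (hm : (D.mort && D.al) = true) (hd : d < 4) {s : ℕ}
    (hs : s < 2) (hk : k < P.N) (hz : z < D.w) {a' z' : ℕ} (ha' : a' < 2 * P.N)
    (h : evalC D (P.circ d) (s * P.N + (P.N - 1 - k), z) = some (a', z')) :
    LPath P D true (P.base (tin d s) + k + 1, P.en (tin d s) k, z)
        (P.base (tout d (a' / P.N)) + (P.N - 1 - a' % P.N),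
          P.ex (tout d (a' / P.N)) (P.N - 1 - a' % P.N), z') ∧
      P.W true (P.base (tout d (a' / P.N)) + (P.N - 1 - a' % P.N))
        (P.exitc (P.base (tout d (a' / P.N)) + (P.N - 1 - a' % P.N))) = true := by
  obtain ⟨e1, e2⟩ := LP1B_src (P := P) (d := d) hs hk
  have hN : 0 < P.N := by omega
  have h1 := LP1B_in hP (D := D) (z := z) hd hs hk
  have h2 : estepL D (P.strip true (36 - 9 * d)) (P.en (tin d s) k, z) =
      some (P.ex (tout d (a' / P.N)) (P.N - 1 - a' % P.N), z') := by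
    rw [LP1B_strip hd, Par.pairEvs, ← e1, circ_lane hD hm (pair_CH hP hd) e2 hz, h,
      Option.bind_some, if_pos ha', LP1B_dst ha']
  have h3 := lp_events hP hD (by omega) (LP1B_mid hP hd hs hk) hz h2
  set j := P.N - 1 - a' % P.N with hj
  have hjN : j < P.N := by omega
  have hq : a' / P.N = 0 ∨ a' / P.N = 1 := by
    have : a' / P.N < 2 := Nat.div_lt_of_lt_mul (by rw [mul_comm]; exact ha')
    generalize a' / P.N = x at this ⊢
    omega
  have ht1 : 36 - 9 * d + 1 ≤ tout d (a' / P.N) ∧ tout d (a' / P.N) ≤ 84 := by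
    unfold tout
    split_ifs <;> omega
  have hpre : ∀ t, 36 - 9 * d + 1 ≤ t → t ≤ tout d (a' / P.N) →
      P.pre true t (P.ex (tout d (a' / P.N)) j) := by
    intro t h4 h5
    simp only [Par.pre, if_true]
    rcases hq with hq | hq
    · simp only [hq, tout, if_true] at h5 ⊢
      exact Or.inr (Or.inr (Or.inr (Or.inl ⟨d, hd, by omega, h5, j, hjN, rfl⟩)))
    · simp only [hq, tout, one_ne_zero, if_false] at h5 ⊢
      exact Or.inr (Or.inr (Or.inr (Or.inr (Or.inl ⟨d, hd, by omega, h5, j, hjN, rfl⟩))))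
  have h4 := lp_strips hP (D := D) (b := true) (z := z') (c := P.ex (tout d (a' / P.N)) j)
    ht1.1 (by omega) (fun t ht ht' => hpre t ht ht')
  have h5 := lp_exit hP (D := D) (b := true) (z := z') (t := tout d (a' / P.N)) ht1.2 hjN
    (hpre _ ht1.1 le_rfl)
  exact ⟨h1.trans (h3.trans (h4.trans h5.1)), h5.2⟩

theorem lp1_pair_dead (hP : P.Ok) (hD : D.Ok) (hd : d < 4) {s : ℕ} (hs : s < 2) (hk : k < P.N)
    (hz : z < D.w) (h : (D.mort && D.al) = false ∨
      ∀ q, evalC D (P.circ d) (s * P.N + (P.N - 1 - k), z) = some q → 2 * P.N ≤ q.1) :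
    LDead P D true (P.base (tin d s) + k + 1, P.en (tin d s) k, z) := by
  obtain ⟨e1, e2⟩ := LP1B_src (P := P) (d := d) hs hk
  have h1 := LP1B_in hP (D := D) (z := z) hd hs hk
  have h2 : estepL D (P.strip true (36 - 9 * d)) (P.en (tin d s) k, z) = none := by
    rw [LP1B_strip hd, Par.pairEvs, ← e1]
    by_cases hm : (D.mort && D.al) = true
    · have h' := h.resolve_left (by rw [hm]; simp)
      rw [circ_lane hD hm (pair_CH hP hd) e2 hz]
      rcases hq : evalC D (P.circ d) (s * P.N + (P.N - 1 - k), z) with _ | q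
      · simp
      · have := h' q hq
        rw [Option.bind_some, if_neg (by omega)]
    · exact circ_dead (by simpa using hm) (pair_CH hP hd) e2
  exact ldead_of_lpath h1 (lp_events_dead hP hD (by omega) (LP1B_mid hP hd hs hk) hz h2)

end Pool.Agent.MP_fadef1_lc
end

section

/-! Lanes in the blocks of type 0. -/

namespace Pool.Agent.MP_fadef1_lc

variable {P : Par} {D : Data} {t k z : ℕ}

private theorem LP0_num (hP : P.Ok) : P.H0 + 86 * P.Hs + 100 ≤ P.QQ ∧ P.N + 20 ≤ P.Hs ∧
    P.Q = 2 * P.QQ ∧ P.base 0 = P.H0 ∧ P.base 42 = P.H0 + 42 * P.Hs := by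
  obtain ⟨h1, h2, h3, h4⟩ := Ok_bounds hP
  have h5 : P.base 0 = P.H0 + 0 * P.Hs := rfl
  refine ⟨by omega, by omega, rfl, by omega, rfl⟩

private theorem LP0_MM (hP : P.Ok) : MM 0 9 (2 * P.Q) (fun _ => False) (fun _ => true)
    (fun j => P.ex 42 (P.N - 1 - j)) (fun j => P.ex 0 (P.N - 1 - j)) P.N := by
  obtain ⟨h1, h2, h3, h4, h5⟩ := LP0_num hP
  refine ⟨fun i j hij hj => ?_, fun i j hij hj _ _ => ?_, fun j hj _ => ?_,
    fun c hc => absurd hc (by simp), fun j hj => by omega, fun j hj => ⟨?_, fun _ => ?_⟩⟩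
  · simp only [Par.ex]; omega
  · simp only [Par.ex]; omega
  · simp only [Par.ex]; omega
  · simp only [Par.ex]; omega
  · simp only [Par.ex]; omega

private theorem LP0_top (P : Par) : P.top false =
    mmEvs (fun _ => true) (fun j => P.ex 42 (P.N - 1 - j)) (fun j => P.ex 0 (P.N - 1 - j))
      P.N := by
  unfold Par.top
  rw [if_neg (by simp)]
  exact flat_mm (fun k => P.ex 42 k) (fun k => P.ex 0 k) P.N

private theorem LP0_sub {N : ℕ} (hk : k < N) : N - 1 - (N - 1 - k) = k := by omega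

private theorem LP0_W0 (hk : k < P.N) : P.W0 false (P.ex 42 k) = true := by
  unfold Par.W0
  simp only [Bool.or_eq_true, List.any_eq_true, List.mem_range, decide_eq_true_eq]
  exact Or.inl ⟨k, hk, rfl⟩

private theorem LP0_ne (hP : P.Ok) (hk : k < P.N) : P.ex 42 k ≠ P.Q + 13 := by
  obtain ⟨h1, h2, h3, h4, h5⟩ := LP0_num hP
  simp only [Par.ex]
  omega

private theorem LP0_pre (h : t ≤ 41 ∨ (44 ≤ t ∧ t ≤ 84)) (hk : k < P.N) :
    P.pre false t (P.ex t k) := by
  unfold Par.pre
  rw [if_neg (by simp)]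
  exact Or.inl ⟨h, k, hk, rfl⟩

theorem lp0_T (hP : P.Ok) (hD : D.Ok) (hm : (D.mort && D.al) = true) (hk : k < P.N)
    (hz : z < D.w) :
    LPath P D false (0, P.ex 42 k, z) (P.base 0 + k, P.ex 0 k, z) ∧
      P.W false (P.base 0 + k) (P.exitc (P.base 0 + k)) = true := by
  have h1 : estepL D (P.top false) (P.ex 42 k, z) = some (P.ex 0 k, z) := by
    have h2 := mm_lane hm (LP0_MM hP) (j := P.N - 1 - k) (z := z) (by omega)
    rw [if_pos rfl, LP0_sub hk] at h2
    rw [LP0_top]
    exact h2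
  have h3 := lp_top hP hD (LP0_W0 hk) (LP0_ne hP hk) hz h1
  obtain ⟨h4, h5⟩ := lp_exit (z := z) (D := D) (b := false) hP (t := 0) (by omega) hk
    (LP0_pre (by omega) hk)
  exact ⟨h3.trans h4, h5⟩

theorem lp0_T_dead (hP : P.Ok) (hD : D.Ok) (hm : (D.mort && D.al) = false) (hk : k < P.N)
    (hz : z < D.w) : LDead P D false (0, P.ex 42 k, z) := by
  refine lp_top_dead hP hD (LP0_W0 hk) (LP0_ne hP hk) hz ?_
  have h2 := mm_dead hm (LP0_MM hP) (j := P.N - 1 - k) (z := z) (by omega)
  rw [LP0_sub hk] at h2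
  rw [LP0_top]
  exact h2

private theorem LP0_ent (ht : t ≤ 84) (h41 : t ≠ 41) (h42 : t ≠ 42) :
    entStrip false t = true := by
  simp [entStrip, ht, h41, h42]

private theorem LP0_ev (hP : P.Ok) (hD : D.Ok) (hm : (D.mort && D.al) = true) (ht : t ≤ 84)
    (h41 : t ≠ 41) (h42 : t ≠ 42) (hk : k < P.N) (hz : z < D.w) :
    LPath P D false (P.base t + k + 1, P.en t k, z)
      (P.base (t + 1), if t = 84 then P.en 42 k else P.ex (t + 1) k, z) :=
  (lp_enter hP ht (LP0_ent ht h41 h42) hk).trans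
    (lp_events hP hD ht (Or.inr ⟨LP0_ent ht h41 h42, k, hk, rfl⟩) hz
      (strip0_lane hP hm ht h41 h42 hk z))

theorem lp0_L (hP : P.Ok) (hD : D.Ok) (hm : (D.mort && D.al) = true) (ht : t ≤ 83)
    (h41 : t ≠ 41) (h42 : t ≠ 42) (hk : k < P.N) (hz : z < D.w) :
    LPath P D false (P.base t + k + 1, P.en t k, z) (P.base (t + 1) + k, P.ex (t + 1) k, z) ∧
      P.W false (P.base (t + 1) + k) (P.exitc (P.base (t + 1) + k)) = true := by
  have h1 := LP0_ev hP hD hm (t := t) (by omega) h41 h42 hk hz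
  rw [if_neg (by omega)] at h1
  obtain ⟨h4, h5⟩ := lp_exit (z := z) (D := D) (b := false) hP (t := t + 1) (by omega) hk
    (LP0_pre (by omega) hk)
  exact ⟨h1.trans h4, h5⟩

theorem lp0_V0 (hP : P.Ok) (hD : D.Ok) (hm : (D.mort && D.al) = true) (hk : k < P.N)
    (hz : z < D.w) :
    LPath P D false (P.base 84 + k + 1, P.en 84 k, z) (P.QQ, P.en 42 k, z) := by
  have h1 := LP0_ev hP hD hm (t := 84) (by omega) (by omega) (by omega) hk hz
  rw [if_pos rfl] at h1
  exact h1.trans (lp_tail hP hk)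

theorem lp0_L_dead (hP : P.Ok) (hD : D.Ok) (hm : (D.mort && D.al) = false) (ht : t ≤ 84)
    (h41 : t ≠ 41) (h42 : t ≠ 42) (hk : k < P.N) (hz : z < D.w) :
    LDead P D false (P.base t + k + 1, P.en t k, z) :=
  ldead_of_lpath (lp_enter hP ht (LP0_ent ht h41 h42) hk)
    (lp_events_dead hP hD ht (Or.inr ⟨LP0_ent ht h41 h42, k, hk, rfl⟩) hz
      (strip0_dead hP hm ht h41 h42 hk z))

end Pool.Agent.MP_fadef1_lc
end
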