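import Pool.Agent.Lib.MP_fadef1_lc.Circ
import Pool.Agent.Lib.MP_fadef1_lc.I.Base

section

namespace Pool.Agent.MP_fadef1_lc

variable {P : Par}

theorem K_pos (hP : P.Ok) : 6 * 100 ≤ P.K := by
  have h := hP.hQQ P.cE (by simp)
  unfold Par.K
  omega

private theorem arr_tab (b : Bool) : tab P.inp b = P.table b := by
  cases b <;> rfl

private theorem arr_row (b : Bool) {i : ℕ} (hi : i < P.K) :
    (P.table b).getD i [] = (List.range P.K).map fun j => P.bit b i j := by
  rw [List.getD_eq_getElem _ _ (by simpa [Par.table] using hi)]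
  simp [Par.table]

theorem ent_inp (b : Bool) {i j : ℕ} (hi : i < P.K) (hj : j < P.K) :
    ent P.inp b i j = P.bit b i j := by
  unfold ent
  rw [arr_tab, arr_row b hi, List.getD_eq_getElem _ _ (by simpa using hj)]
  simp

private theorem arr_nrows : nrows P.inp = P.K := by
  simp [nrows, Par.inp, Par.table]

private theorem arr_ncols (h : 0 < P.K) : ncols P.inp = P.K := by
  have : ncols P.inp = ((P.table false).getD 0 []).length := rfl
  rw [this, arr_row false h]
  simp

private theorem arr_bit0 (hP : P.Ok) : P.bit true 0 0 = true := by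
  have hK := K_pos hP
  have h6 : P.K = 6 * P.QQ := rfl
  unfold Par.bit Par.bx
  simp [Par.zrow]
  refine ⟨Or.inl (by omega), Or.inl (by omega)⟩

theorem valid_inp (hP : P.Ok) : Valid P.inp := by
  have hK := K_pos hP
  have hpos : 0 < P.K := by omega
  refine ⟨by rw [arr_nrows]; omega, by rw [arr_ncols hpos]; omega, fun b => ⟨?_, ?_⟩, ?_⟩
  · rw [arr_tab, arr_nrows]; simp [Par.table]
  · intro r hr
    rw [arr_tab] at hr
    rw [arr_ncols hpos]
    simp only [Par.table, List.mem_map, List.mem_range] at hr
    obtain ⟨i, _, rfl⟩ := hr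
    simp
  · have : ent P.inp true 0 0 = P.bit true 0 0 := ent_inp true hpos hpos
    change ent P.inp true 0 0 = true
    rw [this, arr_bit0 hP]

theorem arr_zero (hP : P.Ok) : P.arr 0 0 = true := by
  have := hP.hN
  rfl

private theorem arr_iter_succ (hP : P.Ok) :
    ∀ r i j : ℕ, i < P.K ^ r → j < P.K ^ r → iter P.inp (r + 1) i j = iter P.inp r i j := by
  have hK := K_pos hP
  have hpos : 0 < P.K := by omega
  intro r
  induction r with
  | zero =>
    intro i j hi hj
    have hi0 : i = 0 := by simpa using hi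
    have hj0 : j = 0 := by simpa using hj
    subst hi0; subst hj0
    change ent P.inp true (0 % nrows P.inp) (0 % ncols P.inp) = true
    rw [Nat.zero_mod, Nat.zero_mod, ent_inp true hpos hpos, arr_bit0 hP]
  | succ r ih =>
    intro i j hi hj
    have hi' : i / P.K < P.K ^ r := by
      rw [Nat.div_lt_iff_lt_mul hpos]; rwa [pow_succ] at hi
    have hj' : j / P.K < P.K ^ r := by
      rw [Nat.div_lt_iff_lt_mul hpos]; rwa [pow_succ] at hj
    have := ih (i / P.K) (j / P.K) hi' hj'
    change ent P.inp (iter P.inp (r + 1) (i / nrows P.inp) (j / ncols P.inp))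
      (i % nrows P.inp) (j % ncols P.inp) =
      ent P.inp (iter P.inp r (i / nrows P.inp) (j / ncols P.inp))
      (i % nrows P.inp) (j % ncols P.inp)
    rw [arr_nrows, arr_ncols hpos, this]

private theorem arr_iter_mono (hP : P.Ok) (r d i j : ℕ) (hi : i < P.K ^ r) (hj : j < P.K ^ r) :
    iter P.inp (r + d) i j = iter P.inp r i j := by
  have hK := K_pos hP
  have hpos : 0 < P.K := by omega
  induction d with
  | zero => rfl
  | succ d ih =>
    rw [← ih, ← Nat.add_assoc]
    have hle : P.K ^ r ≤ P.K ^ (r + d) := Nat.pow_le_pow_right hpos (Nat.le_add_right r d)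
    exact arr_iter_succ hP (r + d) i j (lt_of_lt_of_le hi hle) (lt_of_lt_of_le hj hle)

/-- `hOmega` satisfies the fixed point equation: `iter x r i j` does not depend on `r` as soon as
`i < K^r` and `j < K^r` (prolongability), and `i + j ≤ K * (i/K + j/K) + …`; use
`iter (r+1) i j = bit (iter r (i/K) (j/K)) (i%K) (j%K)`. -/
theorem arr_spec (hP : P.Ok) (i j : ℕ) :
    P.arr i j = P.bit (P.arr (i / P.K) (j / P.K)) (i % P.K) (j % P.K) := by
  have hK := K_pos hP
  have hpos : 0 < P.K := by omega
  rcases Nat.eq_zero_or_pos (i + j) with h0 | h1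
  · have hi0 : i = 0 := by omega
    have hj0 : j = 0 := by omega
    subst hi0; subst hj0
    rw [Nat.zero_div, Nat.zero_mod, arr_zero hP, arr_bit0 hP]
  · obtain ⟨r, hr⟩ : ∃ r, i + j = r + 1 := ⟨i + j - 1, by omega⟩
    have e1 : P.arr i j = ent P.inp (iter P.inp r (i / nrows P.inp) (j / ncols P.inp))
        (i % nrows P.inp) (j % ncols P.inp) := by
      unfold Par.arr hOmega
      rw [hr]
      rfl
    rw [e1, arr_nrows, arr_ncols hpos, ent_inp _ (Nat.mod_lt _ hpos) (Nat.mod_lt _ hpos)]
    have hi2 : i / P.K ≤ i / 2 := Nat.div_le_div_left (by omega) (by norm_num)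
    have hj2 : j / P.K ≤ j / 2 := Nat.div_le_div_left (by omega) (by norm_num)
    have hs : i / P.K + j / P.K ≤ r := by omega
    obtain ⟨d, hd⟩ := Nat.exists_eq_add_of_le hs
    have hK1 : 1 < P.K := by omega
    have hlt : i / P.K + j / P.K < P.K ^ (i / P.K + j / P.K) := Nat.lt_pow_self hK1
    have e2 : iter P.inp r (i / P.K) (j / P.K) = P.arr (i / P.K) (j / P.K) := by
      unfold Par.arr hOmega
      rw [hd]
      exact arr_iter_mono hP _ d _ _ (lt_of_le_of_lt (Nat.le_add_right _ _) hlt)
        (lt_of_le_of_lt (Nat.le_add_left _ _) hlt)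
    rw [e2]

end Pool.Agent.MP_fadef1_lc
end

section

/-! Basic facts on walks. -/

namespace Pool.Agent.MP_fadef1_lc

variable {D : Data} {X : ℕ → ℕ → Bool} {p q : Pos} {P : Par}

theorem nxt_sum (h : nxt D X p = some q) : q.i + q.j = p.i + p.j + 1 := by
  unfold nxt at h
  rw [Option.map_eq_some_iff] at h
  obtain ⟨s, _, rfl⟩ := h
  cases s with
  | L g z => simp only [Pos.out]; omega
  | T z => simp only [Pos.out]; omega

theorem walkN_add (m n : ℕ) (p : Pos) :
    walkN D X (m + n) p = (walkN D X m p).bind (walkN D X n) := by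
  induction m generalizing p with
  | zero => simp [walkN]
  | succ m ih =>
    have e : m + 1 + n = (m + n) + 1 := by omega
    rw [e]
    simp only [walkN]
    rw [Option.bind_assoc]
    congr 1
    funext x
    exact ih x

theorem walkN_mono {m n : ℕ} (h : m ≤ n) (hm : walkN D X m p = none) : walkN D X n p = none := by
  obtain ⟨k, rfl⟩ := Nat.exists_eq_add_of_le h
  rw [walkN_add, hm]
  rfl

theorem walkN_sum {n : ℕ} (h : walkN D X n p = some q) : q.i + q.j = p.i + p.j + n := by
  induction n generalizing p with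
  | zero =>
    simp only [walkN, Option.some.injEq] at h
    subst h
    rfl
  | succ n ih =>
    simp only [walkN] at h
    rw [Option.bind_eq_some_iff] at h
    obtain ⟨r, hr, hq⟩ := h
    have h1 := nxt_sum hr
    have h2 := ih hq
    omega

theorem reach_iff : Reach D X p q ↔ ∃ n, walkN D X n p = some q := by
  constructor
  · intro h
    unfold Reach at h
    induction h using Relation.ReflTransGen.head_induction_on with
    | refl => exact ⟨0, rfl⟩
    | head h1 _ ih =>
      obtain ⟨n, hn⟩ := ih
      refine ⟨n + 1, ?_⟩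
      simp only [walkN]
      rw [h1]
      exact hn
  · rintro ⟨n, hn⟩
    induction n generalizing p with
    | zero =>
      simp only [walkN, Option.some.injEq] at hn
      subst hn
      exact Relation.ReflTransGen.refl
    | succ n ih =>
      simp only [walkN] at hn
      rw [Option.bind_eq_some_iff] at hn
      obtain ⟨r, hr, hq⟩ := hn
      exact Relation.ReflTransGen.head hr (ih hq)

theorem dies_of_none (h : nxt D X p = none) : Dies D X p := by
  refine ⟨1, ?_⟩
  simp only [walkN]
  rw [h]
  rfl

theorem dies_of_nxt (h : nxt D X p = some q) (hq : Dies D X q) : Dies D X p := by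
  obtain ⟨n, hn⟩ := hq
  refine ⟨n + 1, ?_⟩
  simp only [walkN]
  rw [h]
  exact hn

theorem dies_nxt (h : nxt D X p = some q) (hp : Dies D X p) : Dies D X q := by
  obtain ⟨n, hn⟩ := hp
  have h1 : walkN D X (n + 1) p = none := walkN_mono (Nat.le_succ n) hn
  refine ⟨n, ?_⟩
  simp only [walkN] at h1
  rw [h] at h1
  exact h1

theorem dies_of_reach (h : Reach D X p q) (hq : Dies D X q) : Dies D X p := by
  unfold Reach at h
  induction h using Relation.ReflTransGen.head_induction_on with
  | refl => exact hq
  | head h1 _ ih => exact dies_of_nxt h1 ih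

theorem dies_reach (h : Reach D X p q) (hp : Dies D X p) : Dies D X q := by
  unfold Reach at h
  induction h with
  | refl => exact hp
  | tail _ h1 ih => exact dies_nxt h1 ih

theorem rem_nxt (h : nxt D X p = some q) (hq : Dies D X q) : rem D X p = rem D X q + 1 := by
  obtain ⟨n, hn⟩ := hq
  have hne : ({n | walkN D X (n + 1) q = none} : Set ℕ).Nonempty :=
    ⟨n, walkN_mono (Nat.le_succ n) hn⟩
  have hmem : walkN D X (rem D X q + 1) q = none := Nat.sInf_mem hne
  have hstep : ∀ k, walkN D X (k + 1) p = walkN D X k q := by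
    intro k
    simp only [walkN]
    rw [h]
    rfl
  apply le_antisymm
  · apply Nat.sInf_le
    change walkN D X (rem D X q + 1 + 1) p = none
    rw [hstep]
    exact hmem
  · have hne' : ({n | walkN D X (n + 1) p = none} : Set ℕ).Nonempty :=
      ⟨rem D X q + 1, by
        change walkN D X (rem D X q + 1 + 1) p = none
        rw [hstep]; exact hmem⟩
    have hm : walkN D X (rem D X p + 1) p = none := Nat.sInf_mem hne'
    rw [hstep] at hm
    cases hk : rem D X p with
    | zero =>
      rw [hk] at hm
      simp [walkN] at hm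
    | succ k =>
      rw [hk] at hm
      have : rem D X q ≤ k := Nat.sInf_le hm
      omega

theorem rem_walk {n : ℕ} (h : walkN D X n p = some q) (hq : Dies D X q) :
    rem D X p = rem D X q + n := by
  induction n generalizing p with
  | zero =>
    simp only [walkN, Option.some.injEq] at h
    subst h
    rfl
  | succ n ih =>
    simp only [walkN] at h
    rw [Option.bind_eq_some_iff] at h
    obtain ⟨r, hr, hq'⟩ := h
    have h1 := ih hq'
    have hr' : Dies D X r := dies_of_reach (reach_iff.2 ⟨n, hq'⟩) hq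
    have h2 := rem_nxt hr hr'
    omega

end Pool.Agent.MP_fadef1_lc
end

section

/-! Deaths of lanes outside the wires. All statements are about the whole array. Do case
distinctions on `D.mort` (if it is false, `T` at a cell `0` and all `L g`, `g ≠ 42`, die). -/

namespace Pool.Agent.MP_fadef1_lc

variable {P : Par} {D : Data} {I J z g : ℕ}

private theorem stb_nxt {X : ℕ → ℕ → Bool} {s : Lane} :
    nxt D X ⟨I, J, s⟩ = (gstep D (X I J) s).map (Pos.out ⟨I, J, s⟩) := rfl

private theorem stb_none {X : ℕ → ℕ → Bool} {s : Lane} (h : gstep D (X I J) s = none) :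
    Dies D X ⟨I, J, s⟩ := by
  apply dies_of_none
  rw [stb_nxt, h]
  rfl

private theorem stb_L {X : ℕ → ℕ → Bool} {s : Lane} {g' z' : ℕ}
    (h : gstep D (X I J) s = some (Lane.L g' z')) :
    nxt D X ⟨I, J, s⟩ = some ⟨I, J + 1, Lane.L g' z'⟩ := by
  rw [stb_nxt, h]
  rfl

private theorem stb_T {X : ℕ → ℕ → Bool} {s : Lane} {z' : ℕ}
    (h : gstep D (X I J) s = some (Lane.T z')) :
    nxt D X ⟨I, J, s⟩ = some ⟨I + 1, J, Lane.T z'⟩ := by
  rw [stb_nxt, h]
  rfl

private theorem stb_r {X : ℕ → ℕ → Bool} {p q : Pos} (h : nxt D X p = some q) :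
    Reach D X p q := Relation.ReflTransGen.single h

/-- a zero sends `L g` to `L (g-1)` -/
private theorem stb_zero (h : P.arr I J = false) (hm : D.mort = true) (h42 : g ≠ 42) (h0 : g ≠ 0)
    (h43 : g ≠ 43) (h84 : g ≤ 84) :
    nxt D P.arr ⟨I, J, Lane.L g z⟩ = some ⟨I, J + 1, Lane.L (g - 1) z⟩ := by
  apply stb_L
  rw [h]
  have h1 : ¬ (g = 43 ∨ 84 < g) := by omega
  simp [gstep, hm, h42, h0, h1]

/-- `L 84` at a cell `1` -/
theorem die84 (h : P.arr I J = true) : Dies D P.arr ⟨I, J, Lane.L 84 z⟩ := by
  apply stb_none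
  rw [h]
  by_cases hm : D.mort = false
  · simp [gstep, hm]
  · simp [gstep, hm, slotStep]

/-- `L g` with `g < 42` at a cell `1` -/
theorem dieV (hg : g < 42) (h : P.arr I J = true) : Dies D P.arr ⟨I, J, Lane.L g z⟩ := by
  apply stb_none
  rw [h]
  have h1 : g ≠ 42 := by omega
  have h2 : g ≠ 85 := by omega
  by_cases hm : D.mort = false
  · simp [gstep, hm, h1]
  · simp [gstep, hm, h1, h2, hg]

/-- `T` at a cell `0` followed by a cell `1` -/
theorem dieT0 (h0 : P.arr I J = false) (h1 : P.arr I (J + 1) = true) :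
    Dies D P.arr ⟨I, J, Lane.T z⟩ := by
  by_cases hm : D.mort = true
  · refine dies_of_nxt (stb_L (g' := 84) (z' := z) ?_) (die84 h1)
    rw [h0]
    simp [gstep, hm]
  · apply stb_none
    rw [h0]
    simp [gstep, hm]

/-- a step of the walk `T`, `L 42` through two cells `1` -/
theorem stepTL (h0 : P.arr I J = true) (h1 : P.arr I (J + 1) = true) :
    Reach D P.arr ⟨I, J, Lane.T z⟩ ⟨I + 1, J + 1, Lane.T z⟩ := by
  have a1 : nxt D P.arr ⟨I, J, Lane.T z⟩ = some ⟨I, J + 1, Lane.L 42 z⟩ := by
    apply stb_L
    rw [h0]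
    simp [gstep]
  have a2 : nxt D P.arr ⟨I, J + 1, Lane.L 42 z⟩ = some ⟨I + 1, J + 1, Lane.T z⟩ := by
    apply stb_T
    rw [h1]
    simp [gstep]
  exact (stb_r a1).trans (stb_r a2)

/-- `T` at a cell `1`, then zeros, then a cell `1` -/
theorem stepT0L (h0 : P.arr I J = true) (h1 : P.arr I (J + 1) = false)
    (h2 : P.arr I (J + 2) = true) :
    Reach D P.arr ⟨I, J, Lane.T z⟩ ⟨I + 1, J + 2, Lane.T z⟩ := by
  have a1 : nxt D P.arr ⟨I, J, Lane.T z⟩ = some ⟨I, J + 1, Lane.L 42 z⟩ := by
    apply stb_L
    rw [h0]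
    simp [gstep]
  have a2 : nxt D P.arr ⟨I, J + 1, Lane.L 42 z⟩ = some ⟨I, J + 2, Lane.L 42 z⟩ := by
    apply stb_L
    rw [h1]
    simp [gstep]
  have a3 : nxt D P.arr ⟨I, J + 2, Lane.L 42 z⟩ = some ⟨I + 1, J + 2, Lane.T z⟩ := by
    apply stb_T
    rw [h2]
    simp [gstep]
  exact ((stb_r a1).trans (stb_r a2)).trans (stb_r a3)

/-- a cell `1` sends `L g`, `43 ≤ g`, to nothing or to a lane `L g'` with `2 ≤ g' < 42`,
`g' % 3 = 2` -/
theorem slot_out (hD : D.Ok) (hg : g ≤ 84) (h43 : 43 ≤ g) (hz : z < D.w)
    (h : P.arr I J = true) : Dies D P.arr ⟨I, J, Lane.L g z⟩ ∨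
      ∃ g' z', g' ≤ 38 ∧ g' % 3 = 2 ∧ z' < D.w ∧
        nxt D P.arr ⟨I, J, Lane.L g z⟩ = some ⟨I, J + 1, Lane.L g' z'⟩ := by
  have h1 : g ≠ 42 := by omega
  have h2 : g ≠ 85 := by omega
  have h3 : ¬ g < 42 := by omega
  by_cases hm : D.mort = false
  · left
    apply stb_none
    rw [h]
    simp [gstep, hm, h1]
  · have hgs : gstep D (P.arr I J) (Lane.L g z) = slotStep D (g - 43) z := by
      rw [h]
      simp [gstep, hm, h1, h2, h3]
    rcases hss : slotStep D (g - 43) z with _ | s
    · left
      apply stb_none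
      rw [hgs, hss]
    · right
      unfold slotStep at hss
      split at hss
      · exact absurd hss (by simp)
      · split at hss
        · split at hss
          · refine ⟨2, z, by omega, by omega, hz, ?_⟩
            apply stb_L
            rw [hgs]
            unfold slotStep
            rename_i c1 c2 c3
            rw [if_neg c1, if_pos c2, if_pos c3]
          · exact absurd hss (by simp)
        · split at hss
          · rename_i c1 c2 c3
            have hss' := hss
            rw [Option.map_eq_some_iff] at hss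
            obtain ⟨⟨s', z'⟩, hgd, hs⟩ := hss
            have hd : ((g - 43) / 3 - 1) / 3 < 4 := by omega
            have hs2 : ((g - 43) / 3 - 1) % 3 / 2 < 2 := by omega
            obtain ⟨q1, q2⟩ := hD.2 _ _ _ _ _ hd hs2 hz hgd
            refine ⟨3 * (1 + 3 * (((g - 43) / 3 - 1) / 3) + 2 * s') + 2, z', ?_, ?_, q2, ?_⟩
            · omega
            · omega
            · apply stb_L
              rw [hgs]
              unfold slotStep
              rw [if_neg c1, if_neg c2, if_pos c3, hss', ← hs]
          · exact absurd hss (by simp)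

/-- a cell `1` followed by a cell `1` or by a single `0`: all lanes from the left except `42`
die -/
theorem die_short (hD : D.Ok) (hg : g ≤ 84) (h42 : g ≠ 42) (hz : z < D.w)
    (h : P.arr I J = true) (h1 : P.arr I (J + 1) = true ∨ P.arr I (J + 2) = true) :
    Dies D P.arr ⟨I, J, Lane.L g z⟩ := by
  by_cases hlt : g < 42
  · exact dieV hlt h
  · rcases slot_out hD hg (by omega) hz h with hd | ⟨g', z', hg', hg3, hz', hn⟩
    · exact hd
    · refine dies_of_nxt hn ?_
      by_cases h1' : P.arr I (J + 1) = true
      · exact dieV (by omega) h1'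
      · have h2 : P.arr I (J + 2) = true := by
          rcases h1 with h1 | h1
          · exact absurd h1 h1'
          · exact h1
        have h0 : P.arr I (J + 1) = false := by simpa using h1'
        by_cases hm : D.mort = false
        · apply stb_none
          have : g' ≠ 42 := by omega
          rw [h0]
          simp [gstep, hm, this]
        · have hm' : D.mort = true := by simpa using hm
          exact dies_of_nxt (stb_zero h0 hm' (by omega) (by omega) (by omega) (by omega))
            (dieV (by omega) h2)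

end Pool.Agent.MP_fadef1_lc
end
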