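import Pool.Agent.Lib.MP_fadef1_lc.Mg.G009
import Pool.Agent.Lib.MP_fadef1_lc.I.Wk

section

/-! The event row of a pair gate. -/

namespace Pool.Agent.MP_fadef1_lc

variable {P : Par} {D : Data} {b : Bool} {A z : ℕ}

/-- a cell of the event row -/
private theorem bx_evG (P : Par) (b : Bool) (A x : ℕ) :
    P.bx b (6 * A + 2) x = (if sym (P.ev b A) (x / 3) = 0 then
      (if x % 3 = 0 then !P.cl b A (x / 3) else true)
    else if sym (P.ev b A) (x / 3) = 1 then
      (if x % 3 = 0 then !P.cl b A (x / 3) else decide (x % 3 = 1))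
    else if sym (P.ev b A) (x / 3) = 2 then false
    else decide (x % 3 = 2)) := by
  unfold Par.bx
  have h1 : (6 * A + 2) % 6 = 2 := by omega
  have h2 : (6 * A + 2) / 6 = A := by omega
  simp only [h1, h2]
  norm_num

/-- a cell of a channel of zeros -/
private theorem bx_evG_zero {x : ℕ} (h : sym (P.ev b A) (x / 3) = 2) :
    P.bx b (6 * A + 2) x = false := by
  rw [bx_evG]
  simp [h]

/-- a cell of the trigger channel -/
private theorem bx_evG_three {x : ℕ} (h : sym (P.ev b A) (x / 3) = 3) :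
    P.bx b (6 * A + 2) x = decide (x % 3 = 2) := by
  rw [bx_evG]
  simp [h]

/-- single step at a cell `1` of a lane of a group `g` -/
private theorem psG_slot {i x g z : ℕ} {s : Lane} (hi : i < P.K) (hlo : P.K ≤ i + x + 1)
    (hhi : i + x + 1 < 2 * P.K) (h : P.bx b i x = true) (hm : D.mort = true)
    (hg : 43 ≤ g) (hg2 : g ≤ 84) (hs : slotStep D (g - 43) z = some s) :
    BStep P D b (P.ps i x (Lane.L g z)) ((P.ps i x (Lane.L g z)).out s) := by
  refine ⟨hi, ?_, ?_⟩
  · show i + x + 1 - P.K < P.K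
    omega
  · unfold nxt
    have h1 : P.bit b (P.ps i x (Lane.L g z)).i (P.ps i x (Lane.L g z)).j = true := by
      rw [← h]
      exact bit_ps P b hlo
    rw [h1]
    have h2 : gstep D true (P.ps i x (Lane.L g z)).s = some s := by
      show gstep D true (Lane.L g z) = some s
      simp only [gstep, if_true]
      rw [if_neg (show ¬ g = 42 by omega), if_neg (by simp [hm]),
        if_neg (show ¬ g = 85 by omega), if_neg (show ¬ g < 42 by omega), hs]
    rw [h2]
    rfl

private theorem psG_out_L {i x g z : ℕ} {s : Lane} (hlo : P.K ≤ i + x + 1) :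
    (P.ps i x s).out (Lane.L g z) = P.ps i (x + 1) (Lane.L g z) := by
  unfold Pos.out Par.ps
  simp only [Pos.mk.injEq, and_true, true_and]
  omega

/-- a lane dies at a cell `1` -/
private theorem psG_slot_none {i x g z : ℕ} (hi : i < P.K) (hlo : P.K ≤ i + x + 1)
    (hhi : i + x + 1 < 2 * P.K) (h : P.bx b i x = true)
    (hg : 43 ≤ g) (hg2 : g ≤ 84) (hs : slotStep D (g - 43) z = none) :
    LDies P D b (P.ps i x (Lane.L g z)) := by
  refine ⟨_, Relation.ReflTransGen.refl, hi, ?_, ?_⟩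
  · show i + x + 1 - P.K < P.K
    omega
  · unfold nxt
    have h1 : P.bit b (P.ps i x (Lane.L g z)).i (P.ps i x (Lane.L g z)).j = true := by
      rw [← h]
      exact bit_ps P b hlo
    rw [h1]
    have h2 : gstep D true (P.ps i x (Lane.L g z)).s = none := by
      show gstep D true (Lane.L g z) = none
      simp only [gstep, if_true]
      rw [if_neg (show ¬ g = 42 by omega), if_neg (show ¬ g = 85 by omega),
        if_neg (show ¬ g < 42 by omega), hs]
      simp
    rw [h2]
    rfl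

/-- a lane from above dies at a cell `0` when the level is not mortal -/
private theorem psG_T_none {i x z : ℕ} (hi : i < P.K) (hlo : P.K ≤ i + x + 1)
    (hhi : i + x + 1 < 2 * P.K) (h : P.bx b i x = false) (hm : D.mort = false) :
    LDies P D b (P.ps i x (Lane.T z)) := by
  refine ⟨_, Relation.ReflTransGen.refl, hi, ?_, ?_⟩
  · show i + x + 1 - P.K < P.K
    omega
  · unfold nxt
    have h1 : P.bit b (P.ps i x (Lane.T z)).i (P.ps i x (Lane.T z)).j = false := by
      rw [← h]
      exact bit_ps P b hlo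
    rw [h1]
    have h2 : gstep D false (P.ps i x (Lane.T z)).s = none := by
      show gstep D false (Lane.T z) = none
      unfold gstep
      simp [hm]
    rw [h2]
    rfl

/-- the zeros and the trigger of a pair gate -/
private theorem pair_cells (ht : (P.ev b A).t = 2) (hy : (P.ev b A).y < 4) :
    (∀ k, k < 51 → k + 9 * (P.ev b A).y ≠ 38 →
      P.bx b (6 * A + 2) (3 * (P.ev b A).x + k) = false) ∧
      ∀ k, k + 9 * (P.ev b A).y = 38 → P.bx b (6 * A + 2) (3 * (P.ev b A).x + k) = true := by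
  obtain ⟨x, hx⟩ : ∃ x, (P.ev b A).x = x := ⟨_, rfl⟩
  obtain ⟨y, hyy⟩ : ∃ y, (P.ev b A).y = y := ⟨_, rfl⟩
  rw [hyy] at hy
  rw [hx, hyy]
  have hs : ∀ c, x ≤ c → c ≤ x + 16 →
      sym (P.ev b A) c = if c = x + 12 - 3 * y then 3 else 2 := by
    intro c h1 h2
    simp [sym, ht, last, trig, hx, hyy, h1, h2]
  constructor
  · intro k hk hk2
    by_cases h : (3 * x + k) / 3 = x + 12 - 3 * y
    · rw [bx_evG_three (by rw [hs _ (by omega) (by omega), if_pos h])]
      have h3 : k % 3 ≠ 2 := by omega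
      simp [h3]
    · exact bx_evG_zero (by rw [hs _ (by omega) (by omega), if_neg h])
  · intro k hk
    rw [bx_evG_three (by rw [hs _ (by omega) (by omega), if_pos (by omega)])]
    have h3 : k % 3 = 2 := by omega
    simp [h3]

/-- the lane meets the trigger of the pair gate -/
private theorem pair_reach (hA : A < P.QQ) (ht : (P.ev b A).t = 2) (hy : (P.ev b A).y < 4)
    (hlo : P.Q + 9 ≤ (P.ev b A).x + 2 * A) (hhi : lst (P.ev b A) + 2 * A + 8 ≤ 2 * P.Q)
    (hm : D.mort = true) {s : ℕ} (hs : s < 2) :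
    LReach P D b (P.ps (6 * A + 2) (3 * ((P.ev b A).x + 2 * s) + 1) (Lane.T z))
      (P.ps (6 * A + 2) (3 * (P.ev b A).x + (38 - 9 * (P.ev b A).y))
        (Lane.L (48 + 9 * (P.ev b A).y + 6 * s) z)) := by
  have hl : lst (P.ev b A) = (P.ev b A).x + 16 := by simp [lst, ht]
  rw [hl] at hhi
  have hK := K_eq P
  have hK2 : P.K = 6 * P.QQ := rfl
  obtain ⟨hz, _⟩ := pair_cells (P := P) (b := b) (A := A) ht hy
  obtain ⟨x, hx⟩ : ∃ x, (P.ev b A).x = x := ⟨_, rfl⟩
  obtain ⟨y, hyy⟩ : ∃ y, (P.ev b A).y = y := ⟨_, rfl⟩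
  rw [hyy] at hy hz ⊢
  rw [hx] at hz hlo hhi ⊢
  have h0 := hz (6 * s + 1) (by omega) (by omega)
  rw [show 3 * x + (6 * s + 1) = 3 * (x + 2 * s) + 1 by omega] at h0
  refine Relation.ReflTransGen.head (ps_T0 (by omega) (by omega) (by omega) h0 hm) ?_
  have h2 := ps_zeros (D := D) (z := z) (g := 84) (36 - 9 * y - 6 * s)
    (show 6 * A + 2 < P.K by omega)
    (show P.K ≤ 6 * A + 2 + (3 * (x + 2 * s) + 1 + 1) + 1 by omega) (by omega) hm
    (fun k hk => by
      have := hz (6 * s + 2 + k) (by omega) (by omega)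
      rw [show 3 * (x + 2 * s) + 1 + 1 + k = 3 * x + (6 * s + 2 + k) by omega]
      exact this) (by omega) (by omega) (by omega)
  rw [show 3 * (x + 2 * s) + 1 + 1 + (36 - 9 * y - 6 * s) = 3 * x + (38 - 9 * y) by omega,
    show 84 - (36 - 9 * y - 6 * s) = 48 + 9 * y + 6 * s by omega] at h2
  exact h2

/-- the trigger of the pair gate -/
private theorem pair_slot {y s z : ℕ} (hy : y < 4) (hs : s < 2) :
    slotStep D (48 + 9 * y + 6 * s - 43) z =
      (D.g y (s, z)).map fun t => Lane.L (3 * (1 + 3 * y + 2 * t.1) + 2) t.2 := by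
  obtain ⟨j, hj⟩ : ∃ j, j = 48 + 9 * y + 6 * s - 43 := ⟨_, rfl⟩
  rw [← hj]
  unfold slotStep
  rw [if_neg (by omega), if_neg (by omega), if_pos (by omega)]
  rw [show (j / 3 - 1) / 3 = y by omega, show ((j / 3 - 1) % 3) / 2 = s by omega]

/-- Slot `s` of the pair gate `y = (P.ev b A).y`: the lane enters at channel `x + 2 s`, is
`L (85 - k)` at the `k`-th cell, meets the trigger (channel `x + 12 - 3 y`) as
`L (48 + 9 y + 6 s)`, leaves it as `L (5 + 9 y + 6 s')` and goes down at channel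
`x + 14 + 2 s'`. -/
theorem gate_pair (hA : A < P.QQ) (ht : (P.ev b A).t = 2) (hy : (P.ev b A).y < 4)
    (hlo : P.Q + 9 ≤ (P.ev b A).x + 2 * A) (hhi : lst (P.ev b A) + 2 * A + 8 ≤ 2 * P.Q)
    (hm : D.mort = true) {s s' z' : ℕ} (hs : s < 2) (hs' : s' < 2)
    (hg : D.g (P.ev b A).y (s, z) = some (s', z')) :
    LReach P D b (P.ps (6 * A + 2) (3 * ((P.ev b A).x + 2 * s) + 1) (Lane.T z))
      (P.ps (6 * A + 3) (3 * ((P.ev b A).x + 14 + 2 * s') + 1) (Lane.T z')) := by
  refine Relation.ReflTransGen.trans (pair_reach hA ht hy hlo hhi hm hs) ?_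
  have hl : lst (P.ev b A) = (P.ev b A).x + 16 := by simp [lst, ht]
  rw [hl] at hhi
  have hK := K_eq P
  have hK2 : P.K = 6 * P.QQ := rfl
  obtain ⟨hz, hE⟩ := pair_cells (P := P) (b := b) (A := A) ht hy
  obtain ⟨x, hx⟩ : ∃ x, (P.ev b A).x = x := ⟨_, rfl⟩
  obtain ⟨y, hyy⟩ : ∃ y, (P.ev b A).y = y := ⟨_, rfl⟩
  rw [hyy] at hy hz hE hg ⊢
  rw [hx] at hz hE hlo hhi ⊢
  have hs1 := pair_slot (D := D) (z := z) hy hs
  rw [hg] at hs1
  have h1 := psG_slot (D := D) (show 6 * A + 2 < P.K by omega)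
    (show P.K ≤ 6 * A + 2 + (3 * x + (38 - 9 * y)) + 1 by omega) (by omega)
    (hE (38 - 9 * y) (by omega)) hm (by omega) (by omega) hs1
  rw [psG_out_L (by omega)] at h1
  refine Relation.ReflTransGen.head h1 ?_
  have h2 := ps_zeros (D := D) (z := z') (g := 3 * (1 + 3 * y + 2 * s') + 2)
    (3 * (1 + 3 * y + 2 * s') + 2) (show 6 * A + 2 < P.K by omega)
    (show P.K ≤ 6 * A + 2 + (3 * x + (38 - 9 * y) + 1) + 1 by omega) (by omega) hm
    (fun k hk => by
      have := hz (38 - 9 * y + 1 + k) (by omega) (by omega)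
      rw [show 3 * x + (38 - 9 * y) + 1 + k = 3 * x + (38 - 9 * y + 1 + k) by omega]
      exact this) (by omega) (by omega) (by omega)
  refine Relation.ReflTransGen.trans h2 ?_
  have h3 := ps_Lz (D := D) (z := z') (show 6 * A + 2 < P.K by omega)
    (show P.K ≤ 6 * A + 2 + (3 * x + (44 + 6 * s')) + 1 by omega) (by omega)
    (hz (44 + 6 * s') (by omega) (by omega)) hm
  rw [ps_below (by omega) (by omega)] at h3
  rw [show 3 * x + (38 - 9 * y) + 1 + (3 * (1 + 3 * y + 2 * s') + 2)
      = 3 * x + (44 + 6 * s') by omega,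
    show 3 * (x + 14 + 2 * s') + 1 = 3 * x + (44 + 6 * s') - 1 by omega, Nat.sub_self]
  exact Relation.ReflTransGen.single h3

theorem gate_pair_dead (hA : A < P.QQ) (ht : (P.ev b A).t = 2) (hy : (P.ev b A).y < 4)
    (hlo : P.Q + 9 ≤ (P.ev b A).x + 2 * A) (hhi : lst (P.ev b A) + 2 * A + 8 ≤ 2 * P.Q)
    {s : ℕ} (hs : s < 2) (hg : D.mort = false ∨ D.g (P.ev b A).y (s, z) = none) :
    LDies P D b (P.ps (6 * A + 2) (3 * ((P.ev b A).x + 2 * s) + 1) (Lane.T z)) := by
  have hl : lst (P.ev b A) = (P.ev b A).x + 16 := by simp [lst, ht]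
  have hK := K_eq P
  have hK2 : P.K = 6 * P.QQ := rfl
  rcases Bool.eq_false_or_eq_true D.mort with hm1 | hm1
  · have hg1 : D.g (P.ev b A).y (s, z) = none := by
      rcases hg with h | h
      · rw [hm1] at h
        exact absurd h (by decide)
      · exact h
    refine ldies_of_lreach (pair_reach hA ht hy hlo hhi hm1 hs) ?_
    rw [hl] at hhi
    obtain ⟨hz, hE⟩ := pair_cells (P := P) (b := b) (A := A) ht hy
    have hs1 := pair_slot (D := D) (z := z) hy hs
    rw [hg1] at hs1
    exact psG_slot_none (by omega) (by omega) (by omega)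
      (hE (38 - 9 * (P.ev b A).y) (by omega)) (by omega) (by omega) hs1
  · rw [hl] at hhi
    obtain ⟨hz, hE⟩ := pair_cells (P := P) (b := b) (A := A) ht hy
    have h0 := hz (6 * s + 1) (by omega) (by omega)
    rw [show 3 * (P.ev b A).x + (6 * s + 1) = 3 * ((P.ev b A).x + 2 * s) + 1 by omega] at h0
    exact psG_T_none (by omega) (by omega) (by omega) h0 hm1

end Pool.Agent.MP_fadef1_lc
end

section

/-! The event row. `3 * (P.ev b A).x + 1` is the coordinate of the first cell. -/

namespace Pool.Agent.MP_fadef1_lc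

variable {P : Par} {D : Data} {b : Bool} {A z : ℕ}

/-- a cell of the event row -/
private theorem bx_ev (P : Par) (b : Bool) (A x : ℕ) :
    P.bx b (6 * A + 2) x = (if sym (P.ev b A) (x / 3) = 0 then
      (if x % 3 = 0 then !P.cl b A (x / 3) else true)
    else if sym (P.ev b A) (x / 3) = 1 then
      (if x % 3 = 0 then !P.cl b A (x / 3) else decide (x % 3 = 1))
    else if sym (P.ev b A) (x / 3) = 2 then false
    else decide (x % 3 = 2)) := by
  unfold Par.bx
  have h1 : (6 * A + 2) % 6 = 2 := by omega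
  have h2 : (6 * A + 2) / 6 = A := by omega
  simp only [h1, h2]
  norm_num

/-- a cell of a channel of zeros -/
private theorem bx_ev_zero {x : ℕ} (h : sym (P.ev b A) (x / 3) = 2) :
    P.bx b (6 * A + 2) x = false := by
  rw [bx_ev]
  simp [h]

/-- a cell of a trigger channel or of the end of a run -/
private theorem bx_ev_three {x : ℕ} (h : sym (P.ev b A) (x / 3) = 3) :
    P.bx b (6 * A + 2) x = decide (x % 3 = 2) := by
  rw [bx_ev]
  simp [h]

/-- single step at a cell `1` of a lane of a group `g` -/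
private theorem ps_slot {i x g z : ℕ} {s : Lane} (hi : i < P.K) (hlo : P.K ≤ i + x + 1)
    (hhi : i + x + 1 < 2 * P.K) (h : P.bx b i x = true) (hm : D.mort = true)
    (hg : 43 ≤ g) (hg2 : g ≤ 84) (hs : slotStep D (g - 43) z = some s) :
    BStep P D b (P.ps i x (Lane.L g z)) ((P.ps i x (Lane.L g z)).out s) := by
  refine ⟨hi, ?_, ?_⟩
  · show i + x + 1 - P.K < P.K
    omega
  · unfold nxt
    have h1 : P.bit b (P.ps i x (Lane.L g z)).i (P.ps i x (Lane.L g z)).j = true := by
      rw [← h]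
      exact bit_ps P b hlo
    rw [h1]
    have h2 : gstep D true (P.ps i x (Lane.L g z)).s = some s := by
      show gstep D true (Lane.L g z) = some s
      simp only [gstep, if_true]
      rw [if_neg (show ¬ g = 42 by omega), if_neg (by simp [hm]),
        if_neg (show ¬ g = 85 by omega), if_neg (show ¬ g < 42 by omega), hs]
    rw [h2]
    rfl

private theorem ps_out_L {i x g z : ℕ} {s : Lane} (hlo : P.K ≤ i + x + 1) :
    (P.ps i x s).out (Lane.L g z) = P.ps i (x + 1) (Lane.L g z) := by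
  unfold Pos.out Par.ps
  simp only [Pos.mk.injEq, and_true, true_and]
  omega

/-- a lane dies at a cell `1` -/
private theorem ps_slot_none {i x g z : ℕ} (hi : i < P.K) (hlo : P.K ≤ i + x + 1)
    (hhi : i + x + 1 < 2 * P.K) (h : P.bx b i x = true)
    (hg : 43 ≤ g) (hg2 : g ≤ 84) (hs : slotStep D (g - 43) z = none) :
    LDies P D b (P.ps i x (Lane.L g z)) := by
  refine ⟨_, Relation.ReflTransGen.refl, hi, ?_, ?_⟩
  · show i + x + 1 - P.K < P.K
    omega
  · unfold nxt
    have h1 : P.bit b (P.ps i x (Lane.L g z)).i (P.ps i x (Lane.L g z)).j = true := by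
      rw [← h]
      exact bit_ps P b hlo
    rw [h1]
    have h2 : gstep D true (P.ps i x (Lane.L g z)).s = none := by
      show gstep D true (Lane.L g z) = none
      simp only [gstep, if_true]
      rw [if_neg (show ¬ g = 42 by omega), if_neg (show ¬ g = 85 by omega),
        if_neg (show ¬ g < 42 by omega), hs]
      simp
    rw [h2]
    rfl

/-- a lane from above dies at a cell `0` when the level is not mortal -/
private theorem ps_T_none {i x z : ℕ} (hi : i < P.K) (hlo : P.K ≤ i + x + 1)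
    (hhi : i + x + 1 < 2 * P.K) (h : P.bx b i x = false) (hm : D.mort = false) :
    LDies P D b (P.ps i x (Lane.T z)) := by
  refine ⟨_, Relation.ReflTransGen.refl, hi, ?_, ?_⟩
  · show i + x + 1 - P.K < P.K
    omega
  · unfold nxt
    have h1 : P.bit b (P.ps i x (Lane.T z)).i (P.ps i x (Lane.T z)).j = false := by
      rw [← h]
      exact bit_ps P b hlo
    rw [h1]
    have h2 : gstep D false (P.ps i x (Lane.T z)).s = none := by
      show gstep D false (Lane.T z) = none
      unfold gstep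
      simp [hm]
    rw [h2]
    rfl

theorem gate_run (hA : A < P.QQ) (ht : (P.ev b A).t = 1) (hxy : (P.ev b A).x + 2 ≤ (P.ev b A).y)
    (hlo : P.Q + 9 ≤ (P.ev b A).x + 2 * A) (hhi : lst (P.ev b A) + 2 * A + 8 ≤ 2 * P.Q) :
    LReach P D b (P.ps (6 * A + 2) (3 * (P.ev b A).x + 1) (Lane.T z))
      (P.ps (6 * A + 3) (3 * (P.ev b A).y + 1) (Lane.T z)) := by
  have hl : lst (P.ev b A) = (P.ev b A).y := by simp [lst, ht]
  rw [hl] at hhi
  have hK := K_eq P
  have hK2 : P.K = 6 * P.QQ := rfl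
  obtain ⟨x, hx⟩ : ∃ x, (P.ev b A).x = x := ⟨_, rfl⟩
  obtain ⟨y, hy⟩ : ∃ y, (P.ev b A).y = y := ⟨_, rfl⟩
  rw [hx] at hlo hxy ⊢
  rw [hy] at hhi hxy ⊢
  have hs1 : sym (P.ev b A) x = 1 := by simp [sym, ht, hx]
  have hs3 : sym (P.ev b A) y = 3 := by
    have h1 : ¬ y = x := by omega
    simp [sym, ht, hx, hy, h1]
  have hs2 : ∀ c, x < c → c < y → sym (P.ev b A) c = 2 := by
    intro c h1 h2
    have h3 : ¬ c = x := by omega
    simp [sym, ht, hx, hy, h1, h2, h3]
  have hT : P.bx b (6 * A + 2) (3 * x + 1) = true := by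
    rw [bx_ev, show (3 * x + 1) / 3 = x by omega, hs1, show (3 * x + 1) % 3 = 1 by omega]
    rfl
  have hz : ∀ k < 3 * (y - x), P.bx b (6 * A + 2) (3 * x + 2 + k) = false := by
    intro k hk
    rcases Nat.eq_zero_or_pos k with h0 | h0
    · subst h0
      rw [Nat.add_zero, bx_ev, show (3 * x + 2) / 3 = x by omega, hs1,
        show (3 * x + 2) % 3 = 2 by omega]
      rfl
    · rcases lt_or_ge ((3 * x + 2 + k) / 3) y with h1 | h1
      · exact bx_ev_zero (hs2 _ (by omega) h1)
      · have h2 : (3 * x + 2 + k) / 3 = y := by omega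
        rw [bx_ev_three (by rw [h2]; exact hs3)]
        have h3 : (3 * x + 2 + k) % 3 ≠ 2 := by omega
        simp [h3]
  have hE : P.bx b (6 * A + 2) (3 * y + 2) = true := by
    rw [bx_ev_three (by rw [show (3 * y + 2) / 3 = y by omega]; exact hs3),
      show (3 * y + 2) % 3 = 2 by omega]
    rfl
  refine Relation.ReflTransGen.head (ps_T1 (by omega) (by omega) (by omega) hT) ?_
  have h2 := ps_zeros42 (D := D) (z := z) (3 * (y - x)) (show 6 * A + 2 < P.K by omega)
    (show P.K ≤ 6 * A + 2 + (3 * x + 2) + 1 by omega) (by omega) hz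
  refine Relation.ReflTransGen.trans h2 ?_
  rw [show 3 * x + 2 + 3 * (y - x) = 3 * y + 2 by omega]
  have h3 := ps_L1 (D := D) (z := z) (show 6 * A + 2 < P.K by omega)
    (show P.K ≤ 6 * A + 2 + (3 * y + 2) + 1 by omega) (by omega) hE
  rw [ps_below (by omega) (by omega)] at h3
  exact Relation.ReflTransGen.single h3

/-- the zeros and the trigger of an alive gate -/
private theorem alive_cells (ht : (P.ev b A).t = 3) :
    (∀ k, k < 45 → k ≠ 41 → P.bx b (6 * A + 2) (3 * (P.ev b A).x + k) = false) ∧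
      P.bx b (6 * A + 2) (3 * (P.ev b A).x + 41) = true := by
  obtain ⟨x, hx⟩ : ∃ x, (P.ev b A).x = x := ⟨_, rfl⟩
  rw [hx]
  have hs : ∀ c, x ≤ c → c ≤ x + 14 → sym (P.ev b A) c = if c = x + 13 then 3 else 2 := by
    intro c h1 h2
    simp [sym, ht, last, trig, hx, h1, h2]
  constructor
  · intro k hk hk2
    by_cases h : (3 * x + k) / 3 = x + 13
    · rw [bx_ev_three (by rw [hs _ (by omega) (by omega), if_pos h])]
      have h3 : k % 3 ≠ 2 := by omega
      simp [h3]
    · exact bx_ev_zero (by rw [hs _ (by omega) (by omega), if_neg h])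
  · rw [bx_ev_three (by rw [hs _ (by omega) (by omega), if_pos (by omega)])]
    simp

/-- the lane meets the trigger of the alive gate -/
private theorem alive_reach (hA : A < P.QQ) (ht : (P.ev b A).t = 3)
    (hlo : P.Q + 9 ≤ (P.ev b A).x + 2 * A) (hhi : lst (P.ev b A) + 2 * A + 8 ≤ 2 * P.Q)
    (hm : D.mort = true) :
    LReach P D b (P.ps (6 * A + 2) (3 * (P.ev b A).x + 1) (Lane.T z))
      (P.ps (6 * A + 2) (3 * (P.ev b A).x + 41) (Lane.L 45 z)) := by
  have hl : lst (P.ev b A) = (P.ev b A).x + 14 := by simp [lst, ht]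
  rw [hl] at hhi
  have hK := K_eq P
  have hK2 : P.K = 6 * P.QQ := rfl
  obtain ⟨hz, _⟩ := alive_cells (P := P) (b := b) (A := A) ht
  refine Relation.ReflTransGen.head (ps_T0 (by omega) (by omega) (by omega)
    (hz 1 (by omega) (by omega)) hm) ?_
  have h2 := ps_zeros (D := D) (z := z) (g := 84) 39 (show 6 * A + 2 < P.K by omega)
    (show P.K ≤ 6 * A + 2 + (3 * (P.ev b A).x + 2) + 1 by omega) (by omega) hm
    (fun k hk => by
      have := hz (2 + k) (by omega) (by omega)
      rw [show 3 * (P.ev b A).x + 2 + k = 3 * (P.ev b A).x + (2 + k) by omega]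
      exact this) (by omega) (by omega) (by omega)
  exact h2

theorem gate_alive (hA : A < P.QQ) (ht : (P.ev b A).t = 3)
    (hlo : P.Q + 9 ≤ (P.ev b A).x + 2 * A) (hhi : lst (P.ev b A) + 2 * A + 8 ≤ 2 * P.Q)
    (hm : D.mort = true) (ha : D.al = true) :
    LReach P D b (P.ps (6 * A + 2) (3 * (P.ev b A).x + 1) (Lane.T z))
      (P.ps (6 * A + 3) (3 * ((P.ev b A).x + 14) + 1) (Lane.T z)) := by
  refine Relation.ReflTransGen.trans (alive_reach hA ht hlo hhi hm) ?_
  have hl : lst (P.ev b A) = (P.ev b A).x + 14 := by simp [lst, ht]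
  rw [hl] at hhi
  have hK := K_eq P
  have hK2 : P.K = 6 * P.QQ := rfl
  obtain ⟨hz, hE⟩ := alive_cells (P := P) (b := b) (A := A) ht
  have hs : slotStep D (45 - 43) z = some (Lane.L 2 z) := by
    simp [slotStep, ha]
  have h1 := ps_slot (D := D) (show 6 * A + 2 < P.K by omega)
    (show P.K ≤ 6 * A + 2 + (3 * (P.ev b A).x + 41) + 1 by omega) (by omega) hE hm
    (by omega) (by omega) hs
  rw [ps_out_L (by omega)] at h1
  refine Relation.ReflTransGen.head h1 ?_
  have h2 := ps_zeros (D := D) (z := z) (g := 2) 2 (show 6 * A + 2 < P.K by omega)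
    (show P.K ≤ 6 * A + 2 + (3 * (P.ev b A).x + 41 + 1) + 1 by omega) (by omega) hm
    (fun k hk => by
      have := hz (42 + k) (by omega) (by omega)
      rw [show 3 * (P.ev b A).x + 41 + 1 + k = 3 * (P.ev b A).x + (42 + k) by omega]
      exact this) (by omega) (by omega) (by omega)
  refine Relation.ReflTransGen.trans h2 ?_
  have h3 := ps_Lz (D := D) (z := z) (show 6 * A + 2 < P.K by omega)
    (show P.K ≤ 6 * A + 2 + (3 * (P.ev b A).x + 44) + 1 by omega) (by omega)
    (hz 44 (by omega) (by omega)) hm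
  rw [ps_below (by omega) (by omega)] at h3
  rw [show 3 * (P.ev b A).x + 41 + 1 + 2 = 3 * (P.ev b A).x + 44 by omega,
    show 3 * ((P.ev b A).x + 14) + 1 = 3 * (P.ev b A).x + 44 - 1 by omega]
  exact Relation.ReflTransGen.single h3

theorem gate_alive_dead (hA : A < P.QQ) (ht : (P.ev b A).t = 3)
    (hlo : P.Q + 9 ≤ (P.ev b A).x + 2 * A) (hhi : lst (P.ev b A) + 2 * A + 8 ≤ 2 * P.Q)
    (hm : (D.mort && D.al) = false) :
    LDies P D b (P.ps (6 * A + 2) (3 * (P.ev b A).x + 1) (Lane.T z)) := by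
  have hl : lst (P.ev b A) = (P.ev b A).x + 14 := by simp [lst, ht]
  have hK := K_eq P
  have hK2 : P.K = 6 * P.QQ := rfl
  obtain ⟨hz, hE⟩ := alive_cells (P := P) (b := b) (A := A) ht
  rcases Bool.eq_false_or_eq_true D.mort with hm1 | hm1
  · have ha : D.al = false := by rw [hm1] at hm; simpa using hm
    have hr := alive_reach (D := D) (z := z) hA ht hlo hhi hm1
    rw [hl] at hhi
    refine ldies_of_lreach hr ?_
    exact ps_slot_none (by omega) (by omega) (by omega) hE (by omega) (by omega)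
      (by simp [slotStep, ha])
  · rw [hl] at hhi
    exact ps_T_none (by omega) (by omega) (by omega) (hz 1 (by omega) (by omega)) hm1

end Pool.Agent.MP_fadef1_lc
end

section

/-! One superband; paths of lanes. -/

namespace Pool.Agent.MP_fadef1_lc

variable {P : Par} {D : Data} {b : Bool}

private theorem SB_Q (P : Par) : P.Q = 2 * P.QQ := rfl

/-- wires at the top are far right, except the one of the extra lane -/
theorem W0_far (hP : P.Ok) {c : ℕ} (h : P.W0 b c = true) :
    (b = true ∧ c = P.Q + 13) ∨ P.Q + 100 ≤ c := by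
  have h1 := hP.hQQ P.cE (by simp)
  have h2 := hP.hHs P.cE (by simp)
  have hQ := SB_Q P
  unfold Par.W0 at h
  simp only [Bool.or_eq_true, Bool.and_eq_true, decide_eq_true_eq, List.any_eq_true,
    List.mem_range] at h
  rcases h with ⟨k, hk, rfl⟩ | ⟨hb, hc⟩
  · right
    unfold Par.ex Par.base
    have h3 : (P.cE.length + 2) * (20 * P.M + 30) ≥ 0 := Nat.zero_le _
    have h4 : (P.cE.length + 2) * (3 * P.M + 3) ≥ 0 := Nat.zero_le _
    generalize (P.cE.length + 2) * (20 * P.M + 30) = u at *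
    generalize (P.cE.length + 2) * (3 * P.M + 3) = v at *
    omega
  · left
    exact ⟨hb, hc⟩

/-- `W' A ⊆ W (A+1)` -/
theorem W_succ {A c : ℕ} : P.W b (A + 1) c = true ↔
    P.W' b A c = true ∨ (P.entry b (A + 1) = true ∧ c = P.entc (A + 1)) := by
  have : P.W b (A + 1) c = (P.W' b A c || (P.entry b (A + 1) && decide (c = P.entc (A + 1)))) := rfl
  rw [this]
  simp only [Bool.or_eq_true, Bool.and_eq_true, decide_eq_true_eq]

private theorem SB_bounds {A c : ℕ} (hV : VA P b A) (hW : P.W b A c = true)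
    (hex : c + 2 * A + 1 ≠ 2 * P.Q) : c + 2 * A + 3 ≤ 2 * P.Q := by
  rcases hV.hi c hW with h | h
  · exact absurd h hex
  · exact h

private theorem SB_zrow {A c : ℕ} (hV : VA P b A) (hW : P.W b A c = true) :
    P.zrow b A = false := by
  by_contra h
  have h' : P.zrow b A = true := by simpa using h
  have := (hV.zr h').1 c
  rw [this] at hW
  exact Bool.false_ne_true hW

private theorem SB_rows01 (hP : P.Ok) {A c z : ℕ} (hA : A < P.QQ) (hV : VA P b A)
    (hW : P.W b A c = true) (hlo : P.Q ≤ c + 2 * A) (hex : c + 2 * A + 1 ≠ 2 * P.Q)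
    (hZ : ¬ (A = 0 ∧ b = true ∧ c = P.Q + 13)) :
    LReach P D b (P.TP A c z) (P.ps (6 * A + 2) (3 * c + 1) (Lane.T z)) := by
  refine rows01 hA hlo (SB_bounds hV hW hex) (SB_zrow hV hW) ?_
  rintro ⟨hA0, hb, h1, h2⟩
  subst hA0
  rcases W0_far hP hW with h | h
  · exact hZ ⟨rfl, hb, h.2⟩
  · omega

private theorem SB_W' {A c : ℕ} (hW : P.W b A c = true) (hb : c + 2 * A + 3 ≤ 2 * P.Q)
    (hs : isSrc (P.ev b A) c = false) : P.W' b A c = true := by
  unfold Par.W'
  have hne : c ≠ P.exitc A := by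
    unfold Par.exitc
    omega
  simp [hW, hs, hne]

/-- a lane not touched by the event -/
private theorem SB_pass {A c z : ℕ} (hA : A < P.QQ)
    (hW : P.W b A c = true) (hlo : P.Q ≤ c + 2 * A) (hb : c + 2 * A + 3 ≤ 2 * P.Q)
    (hsym : sym (P.ev b A) c = 0) (hs : isSrc (P.ev b A) c = false) :
    LReach P D b (P.ps (6 * A + 2) (3 * c + 1) (Lane.T z)) (P.TP (A + 1) c z) :=
  (row2 hA (by omega) hb hsym).trans (rows35 hA (by omega) hb (SB_W' hW hb hs))

theorem sb_some (hP : P.Ok) (hD : D.Ok) {A c z : ℕ} (hA : A < P.QQ) (hV : VA P b A)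
    (hW : P.W b A c = true) (hlo : P.Q ≤ c + 2 * A) (hex : c + 2 * A + 1 ≠ 2 * P.Q)
    (hZ : ¬ (A = 0 ∧ b = true ∧ c = P.Q + 13)) (hz : z < D.w) {c' z' : ℕ}
    (h : estep D (P.ev b A) (c, z) = some (c', z')) :
    LReach P D b (P.TP A c z) (P.TP (A + 1) c' z') ∧ z' < D.w := by
  have hb := SB_bounds hV hW hex
  have h01 : LReach P D b (P.TP A c z) (P.ps (6 * A + 2) (3 * c + 1) (Lane.T z)) :=
    SB_rows01 hP hA hV hW hlo hex hZ
  have hok := hV.ok
  have hq := hV.quiet
  have hpass : sym (P.ev b A) c = 0 → isSrc (P.ev b A) c = false →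
      (c, z) = (c', z') → LReach P D b (P.TP A c z) (P.TP (A + 1) c' z') ∧ z' < D.w := by
    intro h1 h2 h3
    rw [Prod.mk.injEq] at h3
    obtain ⟨rfl, rfl⟩ := h3
    exact ⟨h01.trans (SB_pass hA hW hlo hb h1 h2), hz⟩
  have hgo : ∀ c1 z1 : ℕ, LReach P D b (P.ps (6 * A + 2) (3 * c + 1) (Lane.T z))
      (P.ps (6 * A + 3) (3 * c1 + 1) (Lane.T z1)) → P.Q ≤ c1 + 2 * A + 1 →
      c1 + 2 * A + 3 ≤ 2 * P.Q → isDst (P.ev b A) c1 = true → z1 < D.w →
      (c1, z1) = (c', z') → LReach P D b (P.TP A c z) (P.TP (A + 1) c' z') ∧ z' < D.w := by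
    intro c1 z1 h1 h2 h3 h4 h5 h6
    rw [Prod.mk.injEq] at h6
    obtain ⟨rfl, rfl⟩ := h6
    refine ⟨(h01.trans h1).trans (rows35 hA h2 h3 ?_), h5⟩
    unfold Par.W'
    simp [h4]
  have ht5 := hok.t
  unfold estep at h
  by_cases ht1 : (P.ev b A).t = 1
  · obtain ⟨_, _, _, _, hq1, hq2⟩ := hq (by omega)
    obtain ⟨hx, hxy, hfar⟩ := hok.t1 ht1
    have hlst : lst (P.ev b A) = (P.ev b A).y := by simp [lst, ht1]
    rw [if_pos ht1] at h
    by_cases hc : c = (P.ev b A).x
    · simp only [] at h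
      rw [if_pos hc, Option.some_inj] at h
      refine hgo _ z ?_ ?_ ?_ ?_ hz h
      · rw [hc]
        exact gate_run hA ht1 hxy hq1 hq2
      · omega
      · rw [hlst] at hq2; omega
      · simp [isDst, ht1]
    · simp only [] at h
      rw [if_neg hc, Option.some_inj] at h
      have hf := hfar c hW hc
      refine hpass ?_ ?_ h
      · unfold sym
        rw [if_pos ht1, if_neg hc, if_neg (by omega), if_neg (by omega)]
      · simp [isSrc, ht1, hc]
  rw [if_neg ht1] at h
  by_cases ht2 : (P.ev b A).t = 2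
  · obtain ⟨_, _, _, _, hq1, hq2⟩ := hq (by omega)
    obtain ⟨hy, hx, hx2, hfar⟩ := hok.t2 ht2
    have hlst : lst (P.ev b A) = (P.ev b A).x + 16 := by simp [lst, ht2]
    rw [if_pos ht2] at h
    simp only [] at h
    have key : ∀ s : ℕ, s < 2 → c = (P.ev b A).x + 2 * s →
        (if D.mort then (D.g (P.ev b A).y (s, z)).map fun s => ((P.ev b A).x + 14 + 2 * s.1, s.2)
          else none) = some (c', z') →
        LReach P D b (P.TP A c z) (P.TP (A + 1) c' z') ∧ z' < D.w := by
      intro s hs hc h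
      by_cases hm : D.mort = true
      · rw [if_pos hm, Option.map_eq_some_iff] at h
        obtain ⟨⟨s', z1⟩, hg, h⟩ := h
        obtain ⟨hs', hz1⟩ := hD.2 _ s z s' z1 hy hs hz hg
        refine hgo _ z1 ?_ ?_ ?_ ?_ hz1 h
        · rw [hc]
          exact gate_pair hA ht2 hy hq1 hq2 hm hs hs' hg
        · simp only []; omega
        · rw [hlst] at hq2; simp only []; omega
        · simp only [isDst, ht2]
          have : s' = 0 ∨ s' = 1 := by omega
          rcases this with rfl | rfl <;> simp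
      · rw [if_neg hm] at h
        exact absurd h (by simp)
    by_cases hc : c = (P.ev b A).x
    · rw [if_pos hc] at h
      exact key 0 (by omega) (by omega) h
    rw [if_neg hc] at h
    by_cases hc2 : c = (P.ev b A).x + 2
    · rw [if_pos hc2] at h
      exact key 1 (by omega) (by omega) h
    rw [if_neg hc2, Option.some_inj] at h
    have hf := hfar c hW hc hc2
    refine hpass ?_ ?_ h
    · unfold sym last
      rw [if_neg ht1, if_pos (Or.inl ht2), if_pos ht2, if_neg (by omega)]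
    · simp [isSrc, ht2, hc, hc2]
  rw [if_neg ht2] at h
  by_cases ht3 : (P.ev b A).t = 3
  · obtain ⟨_, _, _, _, hq1, hq2⟩ := hq (by omega)
    obtain ⟨hx, hfar⟩ := hok.t3 ht3
    have hlst : lst (P.ev b A) = (P.ev b A).x + 14 := by simp [lst, ht3]
    rw [if_pos ht3] at h
    simp only [] at h
    by_cases hc : c = (P.ev b A).x
    · rw [if_pos hc] at h
      by_cases hm : (D.mort && D.al) = true
      · rw [if_pos hm, Option.some_inj] at h
        rw [Bool.and_eq_true] at hm
        refine hgo _ z ?_ ?_ ?_ ?_ hz h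
        · rw [hc]
          exact gate_alive hA ht3 hq1 hq2 hm.1 hm.2
        · omega
        · rw [hlst] at hq2; omega
        · simp [isDst, ht3]
      · rw [if_neg hm] at h
        exact absurd h (by simp)
    rw [if_neg hc, Option.some_inj] at h
    have hf := hfar c hW hc
    refine hpass ?_ ?_ h
    · unfold sym last
      rw [if_neg ht1, if_pos (Or.inr ht3), if_neg ht2, if_pos ht3, if_neg (by omega)]
    · simp [isSrc, ht3, hc]
  rw [if_neg ht3] at h
  have hsym : sym (P.ev b A) c = 0 := by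
    unfold sym
    rw [if_neg ht1, if_neg (by omega)]
  by_cases ht5' : (P.ev b A).t = 5
  · rw [if_pos ht5'] at h
    simp only [] at h
    by_cases hc : c = (P.ev b A).x
    · rw [if_pos hc] at h
      exact absurd h (by simp)
    rw [if_neg hc, Option.some_inj] at h
    refine hpass hsym ?_ h
    simp [isSrc, ht5', hc]
  · rw [if_neg ht5', Option.some_inj] at h
    refine hpass hsym ?_ h
    simp [isSrc, ht1, ht2, ht3, ht5']

theorem sb_none (hP : P.Ok) (hD : D.Ok) {A c z : ℕ} (hA : A < P.QQ) (hV : VA P b A)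
    (hW : P.W b A c = true) (hlo : P.Q ≤ c + 2 * A) (hex : c + 2 * A + 1 ≠ 2 * P.Q)
    (hZ : ¬ (A = 0 ∧ b = true ∧ c = P.Q + 13)) (hz : z < D.w)
    (h : estep D (P.ev b A) (c, z) = none) : LDies P D b (P.TP A c z) := by
  have hb := SB_bounds hV hW hex
  have h01 : LReach P D b (P.TP A c z) (P.ps (6 * A + 2) (3 * c + 1) (Lane.T z)) :=
    SB_rows01 hP hA hV hW hlo hex hZ
  have hok := hV.ok
  have hq := hV.quiet
  have _ := hD
  have _ := hz
  refine ldies_of_lreach h01 ?_
  unfold estep at h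
  by_cases ht1 : (P.ev b A).t = 1
  · rw [if_pos ht1] at h
    simp only [] at h
    split_ifs at h
  rw [if_neg ht1] at h
  by_cases ht2 : (P.ev b A).t = 2
  · obtain ⟨_, _, _, _, hq1, hq2⟩ := hq (by omega)
    obtain ⟨hy, hx, hx2, hfar⟩ := hok.t2 ht2
    rw [if_pos ht2] at h
    simp only [] at h
    have key : ∀ s : ℕ, s < 2 → c = (P.ev b A).x + 2 * s →
        (if D.mort then (D.g (P.ev b A).y (s, z)).map fun s => ((P.ev b A).x + 14 + 2 * s.1, s.2)
          else none) = none →
        LDies P D b (P.ps (6 * A + 2) (3 * c + 1) (Lane.T z)) := by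
      intro s hs hc h
      rw [hc]
      refine gate_pair_dead hA ht2 hy hq1 hq2 hs ?_
      by_cases hm : D.mort = true
      · rw [if_pos hm, Option.map_eq_none_iff] at h
        exact Or.inr h
      · exact Or.inl (by simpa using hm)
    by_cases hc : c = (P.ev b A).x
    · rw [if_pos hc] at h
      exact key 0 (by omega) (by omega) h
    rw [if_neg hc] at h
    by_cases hc2 : c = (P.ev b A).x + 2
    · rw [if_pos hc2] at h
      exact key 1 (by omega) (by omega) h
    rw [if_neg hc2] at h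
    exact absurd h (by simp)
  rw [if_neg ht2] at h
  by_cases ht3 : (P.ev b A).t = 3
  · obtain ⟨_, _, _, _, hq1, hq2⟩ := hq (by omega)
    rw [if_pos ht3] at h
    simp only [] at h
    by_cases hc : c = (P.ev b A).x
    · rw [if_pos hc] at h
      by_cases hm : (D.mort && D.al) = true
      · rw [if_pos hm] at h
        exact absurd h (by simp)
      · rw [hc]
        exact gate_alive_dead hA ht3 hq1 hq2 (by simpa using hm)
    rw [if_neg hc] at h
    exact absurd h (by simp)
  rw [if_neg ht3] at h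
  by_cases ht5' : (P.ev b A).t = 5
  · rw [if_pos ht5'] at h
    simp only [] at h
    by_cases hc : c = (P.ev b A).x
    · have hsym : sym (P.ev b A) c = 0 := by
        unfold sym
        rw [if_neg ht1, if_neg (by omega)]
      refine ldies_of_lreach (row2 hA (by omega) hb hsym) ?_
      refine rows34_dead hA hlo hb ?_
      unfold Par.W'
      simp [isSrc, isDst, ht5', hc]
    rw [if_neg hc] at h
    exact absurd h (by simp)
  · rw [if_neg ht5'] at h
    exact absurd h (by simp)

private theorem SB_lpath (hP : P.Ok) (hD : D.Ok) (hV : ∀ A < P.QQ, VA P b A) {u v : ℕ × ℕ × ℕ}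
    (hz : u.2.2 < D.w) (h : LPath P D b u v) :
    LReach P D b (P.TP u.1 u.2.1 u.2.2) (P.TP v.1 v.2.1 v.2.2) ∧ v.2.2 < D.w := by
  induction h with
  | refl => exact ⟨Relation.ReflTransGen.refl, hz⟩
  | @tail v w _ hvw ih =>
    obtain ⟨ih1, ih2⟩ := ih
    obtain ⟨A, c, z⟩ := v
    obtain ⟨A', c', z'⟩ := w
    obtain ⟨h1, h2, h3, h4, h5, h6, h7⟩ := hvw
    simp only at h1 h2 h3 h4 h5 h6 h7 ih1 ih2 ⊢
    obtain ⟨h8, h9⟩ := sb_some hP hD h1 (hV A h1) h2 h3 h4 h5 ih2 h7
    subst h6
    exact ⟨ih1.trans h8, h9⟩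

theorem lpath_lreach (hP : P.Ok) (hD : D.Ok) (hV : ∀ A < P.QQ, VA P b A) {A c z A' c' z' : ℕ}
    (hz : z < D.w) (h : LPath P D b (A, c, z) (A', c', z')) :
    LReach P D b (P.TP A c z) (P.TP A' c' z') ∧ z' < D.w :=
  SB_lpath hP hD hV (u := (A, c, z)) (v := (A', c', z')) hz h

theorem ldead_ldies (hP : P.Ok) (hD : D.Ok) (hV : ∀ A < P.QQ, VA P b A) {A c z : ℕ}
    (hz : z < D.w) (h : LDead P D b (A, c, z)) : LDies P D b (P.TP A c z) := by
  obtain ⟨⟨A', c', z'⟩, hp, h1, h2, h3, h4, h5, h6⟩ := h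
  simp only at h1 h2 h3 h4 h5 h6
  obtain ⟨h7, h8⟩ := lpath_lreach hP hD hV hz hp
  exact ldies_of_lreach h7 (sb_none hP hD h1 (hV A' h1) h2 h3 h4 h5 h8 h6)

end Pool.Agent.MP_fadef1_lc
end

section

/-! Entering and leaving a block. -/

namespace Pool.Agent.MP_fadef1_lc

variable {P : Par} {D : Data} {b : Bool} {A z : ℕ}

private theorem Ent_QQ (hP : P.Ok) : 100 ≤ P.QQ := by
  have h := hP.hQQ P.cE (by simp)
  omega

private theorem Ent_ev_zero (he : P.entry b A = true) (hV : VA P b A) : (P.ev b A).t = 0 := by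
  by_contra h
  have := (hV.quiet h).2.1
  rw [he] at this
  exact absurd this (by simp)

private theorem Ent_sym_zero {e : Ev} (h : e.t = 0) (c : ℕ) : sym e c = 0 := by
  unfold sym
  rw [h]
  simp

private theorem Ent_src_zero {e : Ev} (h : e.t = 0) (c : ℕ) : isSrc e c = false := by
  unfold isSrc
  rw [h]
  simp

private theorem Ent_entry_pos (he : P.entry b A = true) : 20 ≤ A := by
  unfold Par.entry at he
  simp only [Bool.and_eq_true, decide_eq_true_eq] at he
  have := he.1.1
  unfold Par.H0 at this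
  omega

private theorem Ent_entry_zrow (he : P.entry b A = true) : P.zrow b A = false := by
  unfold Par.entry at he
  unfold Par.zrow
  simp only [Bool.and_eq_true, decide_eq_true_eq] at he
  obtain ⟨-, h3⟩ := he
  cases b
  · by_contra hcon
    simp only [Bool.not_false, Bool.true_and, Bool.not_eq_false, Bool.and_eq_true,
      decide_eq_true_eq] at hcon
    have h42 := hcon.2
    rw [h42] at h3
    simp [entStrip] at h3
  · simp

private theorem Ent_W_entry (he : P.entry b A = true) : P.W b A (P.entc A) = true := by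
  have hA := Ent_entry_pos he
  obtain ⟨a, rfl⟩ : ∃ a, A = a + 1 := ⟨A - 1, by omega⟩
  rw [W_succ]
  exact Or.inr ⟨he, rfl⟩

private theorem Ent_W' {c : ℕ} (h0 : (P.ev b A).t = 0) (hW : P.W b A c = true)
    (hc : c ≠ P.exitc A) : P.W' b A c = true := by
  unfold Par.W'
  rw [hW, Ent_src_zero h0]
  simp [hc]

private theorem Ent_row1 (b : Bool) {i x : ℕ} (hi : i % 6 = 1) (hx : x % 3 ≠ 0) :
    P.bx b i x = true := by
  unfold Par.bx
  rw [if_neg (by omega), if_pos hi]
  simp [hx]

theorem entry_walk (hP : P.Ok) (hA : A < P.QQ) (hV : VA P b A) (he : P.entry b A = true) :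
    LReach P D b ⟨6 * A, 0, Lane.L 42 z⟩ (P.TP (A + 1) (P.entc A) z) := by
  have hQQ := Ent_QQ hP
  have hK : P.K = 6 * P.QQ := rfl
  have hQ : P.Q = 2 * P.QQ := rfl
  have hA20 := Ent_entry_pos he
  have h0 := Ent_ev_zero he hV
  have hz := Ent_entry_zrow he
  obtain ⟨c, hc⟩ : ∃ c, c = P.entc A := ⟨_, rfl⟩
  have hc2 : c + 2 * A + 1 = P.Q := by
    rw [hc]; unfold Par.entc; omega
  rw [← hc]
  have e0 : (⟨6 * A, 0, Lane.L 42 z⟩ : Pos) = P.ps (6 * A) (3 * c + 2) (Lane.L 42 z) := by
    unfold Par.ps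
    congr 1
    omega
  rw [e0]
  -- first cell
  have hb1 : P.bx b (6 * A) (3 * c + 2) = true := by
    unfold Par.bx
    rw [if_pos (by omega), Nat.mul_div_cancel_left A (by norm_num : 0 < 6), hz]
    simp only [Bool.false_eq_true, if_false]
    rw [if_neg, if_neg (by omega)]
    simp only [Bool.and_eq_true, decide_eq_true_eq, not_and]
    intro _ h
    omega
  have s1 : BStep P D b (P.ps (6 * A) (3 * c + 2) (Lane.L 42 z))
      (P.ps (6 * A + 1) (3 * c + 1) (Lane.T z)) := by
    have h := ps_L1 (P := P) (D := D) (b := b) (i := 6 * A) (x := 3 * c + 2) (z := z)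
      (by omega) (by omega) (by omega) hb1
    rwa [ps_below (P := P) (i := 6 * A) (x := 3 * c + 2) (z := z) (by omega) (by omega)] at h
  have s2 : LReach P D b (P.ps (6 * A + 1) (3 * c + 1) (Lane.T z))
      (P.ps (6 * A + 1 + 1) (3 * c + 1) (Lane.T z)) :=
    row_pass (by omega) (by omega) (by omega) (Ent_row1 b (by omega) (by omega))
      (Ent_row1 b (by omega) (by omega))
  have s3 : LReach P D b (P.ps (6 * A + 2) (3 * c + 1) (Lane.T z))
      (P.ps (6 * A + 3) (3 * c + 1) (Lane.T z)) :=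
    row2 hA (by omega) (by omega) (Ent_sym_zero h0 c)
  have hW : P.W' b A c = true := by
    refine Ent_W' h0 (by rw [hc]; exact Ent_W_entry he) ?_
    unfold Par.exitc
    omega
  have s4 : LReach P D b (P.ps (6 * A + 3) (3 * c + 1) (Lane.T z)) (P.TP (A + 1) c z) :=
    rows35 hA (by omega) (by omega) hW
  exact (Relation.ReflTransGen.head s1 (s2.trans (s3.trans s4)))

theorem exit_walk (hP : P.Ok) (hA : A < P.QQ) (hV : VA P b A)
    (hW : P.W b A (P.exitc A) = true) :
    LReach P D b (P.TP A (P.exitc A) z) ⟨6 * A, P.K, Lane.L 42 z⟩ := by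
  have hQQ := Ent_QQ hP
  have hK : P.K = 6 * P.QQ := rfl
  have hQ : P.Q = 2 * P.QQ := rfl
  have hz : P.zrow b A = false := by
    by_contra h
    have h2 := (hV.zr (by simpa using h)).1 (P.exitc A)
    rw [hW] at h2
    exact absurd h2 (by simp)
  obtain ⟨c, hc⟩ : ∃ c, c = P.exitc A := ⟨_, rfl⟩
  have hc2 : c + 2 * A + 1 = 2 * P.Q := by
    rw [hc]; unfold Par.exitc; omega
  rw [← hc]
  have e0 : (⟨6 * A, P.K, Lane.L 42 z⟩ : Pos) = P.ps (6 * A) (3 * c + 1 + 1) (Lane.L 42 z) := by
    unfold Par.ps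
    congr 1
    omega
  rw [e0]
  have hb1 : P.bx b (6 * A) (3 * c + 1) = true := by
    unfold Par.bx
    rw [if_pos (by omega), Nat.mul_div_cancel_left A (by norm_num : 0 < 6), hz]
    simp only [Bool.false_eq_true, if_false]
    rw [if_neg, if_neg (by omega)]
    simp only [Bool.and_eq_true, decide_eq_true_eq, not_and]
    intro _ h
    omega
  exact Relation.ReflTransGen.single (ps_T1 (by omega) (by omega) (by omega) hb1)

theorem zrow_walk (hP : P.Ok) (hA : A < P.QQ) (hz : P.zrow b A = true) :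
    LReach P D b ⟨6 * A, 0, Lane.L 42 z⟩ ⟨6 * A, P.K, Lane.L 42 z⟩ := by
  have hQQ := Ent_QQ hP
  have hK : P.K = 6 * P.QQ := rfl
  have e0 : (⟨6 * A, 0, Lane.L 42 z⟩ : Pos) = P.ps (6 * A) (P.K - 6 * A - 1) (Lane.L 42 z) := by
    unfold Par.ps
    congr 1
    omega
  have e1 : (⟨6 * A, P.K, Lane.L 42 z⟩ : Pos) =
      P.ps (6 * A) (P.K - 6 * A - 1 + P.K) (Lane.L 42 z) := by
    unfold Par.ps
    congr 1
    omega
  rw [e0, e1]
  refine ps_zeros42 P.K (by omega) (by omega) (by omega) ?_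
  intro k hk
  unfold Par.bx
  rw [if_pos (by omega), Nat.mul_div_cancel_left A (by norm_num : 0 < 6), hz]
  simp

/-- the extra lane -/
theorem z_walk (hP : P.Ok) (hV : VA P true 0) (hm : D.mort = true) :
    LReach P D true ⟨0, 0, Lane.L 85 0⟩ (P.TP 1 (P.Q + 13) (D.w - 1)) := by
  have hQQ := Ent_QQ hP
  have hK : P.K = 6 * P.QQ := rfl
  have hQ : P.Q = 2 * P.QQ := rfl
  have hz : P.zrow true 0 = false := by simp [Par.zrow]
  have h0 : (P.ev true 0).t = 0 := by simp [Par.ev, Ev.non]
  -- first cell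
  have hbit : P.bit true 0 0 = true := by
    unfold Par.bit Par.bx
    simp [Par.zrow]
    refine ⟨Or.inl (by omega), Or.inl (by omega)⟩
  have s1 : BStep P D true ⟨0, 0, Lane.L 85 0⟩ (P.ps 0 P.K (Lane.L 41 (D.w - 1))) := by
    refine ⟨by simp only; omega, by simp only; omega, ?_⟩
    unfold nxt
    simp only [hbit, gstep, hm]
    simp [Pos.out, Par.ps]
  have s2 : LReach P D true (P.ps 0 P.K (Lane.L 41 (D.w - 1)))
      (P.ps 0 (P.K + 41) (Lane.L (41 - 41) (D.w - 1))) := by
    refine ps_zeros 41 (by omega) (by omega) (by omega) hm ?_ le_rfl (by norm_num)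
      (Or.inl (by norm_num))
    intro k hk
    unfold Par.bx
    rw [if_pos (by norm_num), Nat.zero_div, hz]
    simp only [Bool.false_eq_true, if_false]
    rw [if_pos]
    simp only [Bool.true_and, decide_eq_true_eq]
    refine ⟨trivial, by omega, by omega⟩
  have hb3 : P.bx true 0 (P.K + 41) = false := by
    unfold Par.bx
    rw [if_pos (by norm_num), Nat.zero_div, hz]
    simp only [Bool.false_eq_true, if_false]
    rw [if_pos]
    simp only [Bool.true_and, decide_eq_true_eq]
    refine ⟨trivial, by omega, by omega⟩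
  have s3 : BStep P D true (P.ps 0 (P.K + 41) (Lane.L 0 (D.w - 1)))
      (P.ps 1 (3 * (P.Q + 13) + 1) (Lane.T (D.w - 1))) := by
    have h := ps_Lz (P := P) (D := D) (b := true) (i := 0) (x := P.K + 41) (z := D.w - 1)
      (by omega) (by omega) (by omega) hb3 hm
    rw [ps_below (P := P) (i := 0) (x := P.K + 41) (z := D.w - 1) (by omega) (by omega)] at h
    have e : P.K + 41 - 1 = 3 * (P.Q + 13) + 1 := by omega
    rw [e] at h
    exact h
  have s4 : LReach P D true (P.ps 1 (3 * (P.Q + 13) + 1) (Lane.T (D.w - 1)))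
      (P.ps (1 + 1) (3 * (P.Q + 13) + 1) (Lane.T (D.w - 1))) :=
    row_pass (by omega) (by omega) (by omega) (Ent_row1 true (by omega) (by omega))
      (Ent_row1 true (by omega) (by omega))
  have s5 : LReach P D true (P.ps (6 * 0 + 2) (3 * (P.Q + 13) + 1) (Lane.T (D.w - 1)))
      (P.ps (6 * 0 + 3) (3 * (P.Q + 13) + 1) (Lane.T (D.w - 1))) :=
    row2 (by omega) (by omega) (by omega) (Ent_sym_zero h0 _)
  have hW : P.W' true 0 (P.Q + 13) = true := by
    refine Ent_W' h0 ?_ ?_
    · simp [Par.W, Par.W0]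
    · unfold Par.exitc
      omega
  have s6 : LReach P D true (P.ps (6 * 0 + 3) (3 * (P.Q + 13) + 1) (Lane.T (D.w - 1)))
      (P.TP (0 + 1) (P.Q + 13) (D.w - 1)) :=
    rows35 (by omega) (by omega) (by omega) hW
  exact Relation.ReflTransGen.head s1
    (s2.trans (Relation.ReflTransGen.head s3 (s4.trans (s5.trans s6))))

theorem TP_bottom (c : ℕ) : P.TP P.QQ c z = ⟨P.K, 3 * c + 2, Lane.T z⟩ := by
  have hK : P.K = 6 * P.QQ := rfl
  unfold Par.TP Par.ps
  congr 1
  omega

theorem TP_top (c : ℕ) : P.TP 0 c z = ⟨0, 3 * c + 2 - P.K, Lane.T z⟩ := by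
  unfold Par.TP Par.ps
  congr 1
  omega

end Pool.Agent.MP_fadef1_lc
end
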