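import Pool.Agent.Lib.MP_fadef1_lc.Mg.G005
import Pool.Agent.Lib.MP_fadef1_lc.Mg.G007
import Pool.Agent.Lib.MP_fadef1_lc.Mg.G011
import Pool.Agent.Lib.MP_fadef1_lc.Mg.G008
import Pool.Agent.Lib.MP_fadef1_lc.Mg.G014
import Pool.Agent.Lib.MP_fadef1_lc.Mg.G010

section

/-! The pattern is legal. -/

namespace Pool.Agent.MP_fadef1_lc

variable {P : Par} {b : Bool} {t A : ℕ}

private theorem vl_base (t : ℕ) : P.base t = P.H0 + t * P.Hs := rfl

private theorem vl_base_succ (t : ℕ) : P.base (t + 1) = P.base t + P.Hs := by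
  unfold Par.base
  ring

private theorem vl_base_mono {s t : ℕ} (h : s ≤ t) : P.base s ≤ P.base t := by
  unfold Par.base
  have := Nat.mul_le_mul_right P.Hs h
  omega

private theorem vl_quiet (hev : P.ev b A = Ev.non) (hz : P.zrow b A = false)
    (sep : ∀ c c', P.W b A c = true → P.W b A c' = true → c < c' → c + 2 ≤ c')
    (lo : ∀ c, P.W b A c = true → P.Q ≤ c + 2 * A + 1)
    (hi : ∀ c, P.W b A c = true → c + 2 * A + 1 = 2 * P.Q ∨ c + 2 * A + 3 ≤ 2 * P.Q) :
    VA P b A := by
  refine ⟨sep, lo, hi, ?_, ?_, ?_⟩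
  · rw [hev]
    refine ⟨by decide, ?_, ?_, ?_, ?_, ?_⟩ <;> intro h <;> exact absurd h (by decide)
  · intro h
    rw [hev] at h
    exact absurd rfl h
  · intro h
    rw [hz] at h
    exact absurd h (by decide)

/-- channels before strip `t + 1` are far enough to the right -/
private theorem vl_lo (hP : P.Ok) (ht : t ≤ 84) {c k : ℕ} (hk : P.N ≤ k)
    (h : P.pre b (t + 1) c) : P.Q ≤ c + 2 * (P.base t + k) + 1 := by
  obtain ⟨h1, h2, h3, h4⟩ := Ok_bounds hP
  have hQ : P.Q = 2 * P.QQ := rfl
  -- entering channels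
  have hen : ∀ s k', s ≤ t → k' < P.N → c = P.en s k' → P.Q ≤ c + 2 * (P.base t + k) + 1 := by
    intro s k' hs hk' hc
    have h5 := vl_base_mono (P := P) hs
    have h6 := vl_base_mono (P := P) ht
    have h7 : P.base 84 = P.H0 + 84 * P.Hs := rfl
    unfold Par.en at hc
    omega
  have hex : ∀ s k', s ≤ 84 → k' < P.N → c = P.ex s k' → P.Q ≤ c + 2 * (P.base t + k) + 1 := by
    intro s k' hs hk' hc
    have h6 := vl_base_mono (P := P) hs
    have h7 : P.base 84 = P.H0 + 84 * P.Hs := rfl
    unfold Par.ex at hc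
    omega
  cases b with
  | true =>
    simp only [Par.pre, if_true] at h
    rcases h with ⟨_, k', hk', hc⟩ | ⟨_, hc⟩ | ⟨d, hd, hd1, _, k', hk', hc⟩ |
      ⟨d, hd, _, _, k', hk', hc⟩ | ⟨d, hd, _, _, k', hk', hc⟩ | ⟨_, _, k', hk', hc⟩ |
      ⟨hd1, k', hk', hc⟩
    · exact hex 42 k' (by omega) hk' hc
    · exact hex 43 0 (by omega) (by omega) hc
    · exact hen _ k' (by omega) hk' hc
    · exact hex _ k' (by omega) hk' hc
    · exact hex _ k' (by omega) hk' hc
    · exact hex 82 k' (by omega) hk' hc
    · exact hen _ k' (by omega) hk' hc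
  | false =>
    simp only [Par.pre, Bool.false_eq_true, if_false] at h
    rcases h with ⟨hd, k', hk', hc⟩ | ⟨hd1, k', hk', hc⟩
    · exact hex _ k' (by omega) hk' hc
    · exact hen 42 k' (by omega) hk' hc

theorem va_post (hP : P.Ok) (ht : t ≤ 84) {k : ℕ} (hk : P.N + 4 + (P.strip b t).length ≤ k)
    (hk' : k < P.Hs) : VA P b (P.base t + k) := by
  have hSW := (sw_all hP b ht).d k hk hk'
  have hb := vl_base_succ (P := P) t
  refine vl_quiet ?_ ?_ ?_ ?_ ?_
  · rw [ev_strip hP hk', if_neg (by omega), List.getD_eq_default]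
    omega
  · rw [zrow_strip hP hk']
    have : ¬ k < P.N := by omega
    simp [this]
  · intro c c' hc hc' hcc
    rw [hSW] at hc hc'
    have h1 := pre_odd hP (by omega) hc
    have h2 := pre_odd hP (by omega) hc'
    omega
  · intro c hc
    rw [hSW] at hc
    exact vl_lo hP ht (by omega) hc
  · intro c hc
    rw [hSW] at hc
    have h1 := pre_hi hP (by omega) hc
    omega

theorem va_tail (hP : P.Ok) (h1 : P.base 85 ≤ A) (h2 : A < P.QQ) : VA P b A := by
  obtain ⟨h3, h4, h5, h6⟩ := Ok_bounds hP
  have hQ : P.Q = 2 * P.QQ := rfl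
  have hW := sw_tail hP b h1 h2.le
  obtain ⟨e1, _, e3⟩ := quiet_tail hP b h1
  have hb42 : P.base 42 = P.H0 + 42 * P.Hs := rfl
  have hb85 : P.base 85 = P.H0 + 85 * P.Hs := rfl
  have hH : P.H0 = 2 * P.N + 20 := rfl
  refine vl_quiet e1 e3 ?_ ?_ ?_
  · intro c c' hc hc' hcc
    rw [hW] at hc hc'
    obtain ⟨k, hk, rfl⟩ := hc
    obtain ⟨k', hk', rfl⟩ := hc'
    unfold Par.en at hcc ⊢
    omega
  · intro c hc
    rw [hW] at hc
    obtain ⟨k, hk, rfl⟩ := hc
    unfold Par.en
    omega
  · intro c hc
    rw [hW] at hc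
    obtain ⟨k, hk, rfl⟩ := hc
    unfold Par.en
    omega

theorem va_all (hP : P.Ok) (b : Bool) (A : ℕ) (hA : A < P.QQ) : VA P b A := by
  obtain ⟨h3, h4, h5, h6⟩ := Ok_bounds hP
  by_cases h1 : A < P.H0
  · exact va_top hP h1
  · by_cases h2 : P.base 85 ≤ A
    · exact va_tail hP h2 hA
    · have hH : 0 < P.Hs := by omega
      have e1 : P.Hs * ((A - P.H0) / P.Hs) + (A - P.H0) % P.Hs = A - P.H0 := Nat.div_add_mod _ _
      have hk := Nat.mod_lt (A - P.H0) hH
      have ht : (A - P.H0) / P.Hs ≤ 84 := by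
        have hlt : (A - P.H0) / P.Hs < 85 := by
          rw [Nat.div_lt_iff_lt_mul hH]
          have hb85 : P.base 85 = P.H0 + 85 * P.Hs := rfl
          omega
        omega
      have e2 : A = P.base ((A - P.H0) / P.Hs) + (A - P.H0) % P.Hs := by
        rw [vl_base, mul_comm]
        omega
      generalize (A - P.H0) / P.Hs = t at e2 ht
      generalize (A - P.H0) % P.Hs = k at e2 hk
      rw [e2]
      by_cases h7 : k < P.N + 4
      · exact va_ent hP ht h7
      · by_cases h8 : k < P.N + 4 + (P.strip b t).length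
        · have h9 := va_evt hP ht (b := b) (i := k - (P.N + 4)) (by omega)
          have e3 : P.base t + P.N + 4 + (k - (P.N + 4)) = P.base t + k := by omega
          rwa [e3] at h9
        · exact va_post hP ht (by omega) hk

end Pool.Agent.MP_fadef1_lc
end

section

/-! Content lanes inside a block, in local coordinates. -/

namespace Pool.Agent.MP_fadef1_lc

/-- content lane entering from the left in strip `t` -/
def inL (P : Par) (t k z : ℕ) : Pos := ⟨6 * (P.base t + k), 0, Lane.L 42 z⟩
/-- content lane leaving to the right in strip `t` -/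
def outL (P : Par) (t k z : ℕ) : Pos := ⟨6 * (P.base t + k), P.K, Lane.L 42 z⟩
/-- content lane entering from above -/
def inT (P : Par) (k z : ℕ) : Pos := ⟨0, P.K - 1 - 6 * (P.base 42 + k), Lane.T z⟩
/-- content lane leaving downwards -/
def outT (P : Par) (k z : ℕ) : Pos := ⟨P.K, P.K - 1 - 6 * (P.base 42 + k), Lane.T z⟩

variable {P : Par} {D : Data} {t k z d : ℕ}

private theorem LocA_bound (hP : P.Ok) {t : ℕ} (ht : t ≤ 84) (hk : k < P.N) :
    k < P.Hs ∧ P.base t + k + 200 < P.QQ := by
  obtain ⟨b1, b2, b3, b4⟩ := Ok_bounds hP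
  have h1 : t * P.Hs ≤ 84 * P.Hs := Nat.mul_le_mul_right _ ht
  refine ⟨by omega, ?_⟩
  unfold Par.base
  omega

private theorem LocA_inT (hP : P.Ok) (hk : k < P.N) : inT P k z = P.TP 0 (P.ex 42 k) z := by
  have h := LocA_bound hP (t := 42) (by omega) hk
  have eQ : P.Q = 2 * P.QQ := rfl
  have eK : P.K = 6 * P.QQ := rfl
  rw [TP_top, inT, Par.ex]
  congr 1
  omega

private theorem LocA_outT (hP : P.Ok) (hk : k < P.N) : outT P k z = P.TP P.QQ (P.en 42 k) z := by
  have h := LocA_bound hP (t := 42) (by omega) hk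
  have eQ : P.Q = 2 * P.QQ := rfl
  have eK : P.K = 6 * P.QQ := rfl
  rw [TP_bottom, outT, Par.en]
  congr 1
  omega

private theorem LocA_in (hP : P.Ok) {b : Bool} (ht : t ≤ 84) (hk : k < P.N)
    (he : entStrip b t = true) :
    LReach P D b (inL P t k z) (P.TP (P.base t + k + 1) (P.en t k) z) := by
  have h := LocA_bound hP ht hk
  refine entry_walk hP (A := P.base t + k) (by omega) (va_all hP b _ (by omega)) ?_
  rw [entry_strip hP h.1, he]
  simp [hk]

private theorem LocA_out (hP : P.Ok) {b : Bool} (ht : t ≤ 84) (hk : k < P.N)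
    (hW : P.W b (P.base t + k) (P.exitc (P.base t + k)) = true) :
    LReach P D b (P.TP (P.base t + k) (P.ex t k) z) (outL P t k z) := by
  have h := LocA_bound hP ht hk
  exact exit_walk hP (A := P.base t + k) (by omega) (va_all hP b _ (by omega)) hW

theorem loc0_T (hP : P.Ok) (hD : D.Ok) (hm : (D.mort && D.al) = true) (hk : k < P.N)
    (hz : z < D.w) : LReach P D false (inT P k z) (outL P 0 k z) := by
  obtain ⟨h1, h2⟩ := lp0_T hP hD hm hk hz
  rw [LocA_inT hP hk]
  exact (lpath_lreach hP hD (va_all hP false) hz h1).1.trans (LocA_out hP (by omega) hk h2)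

theorem loc0_T_dead (hP : P.Ok) (hD : D.Ok) (hm : (D.mort && D.al) = false) (hk : k < P.N)
    (hz : z < D.w) : LDies P D false (inT P k z) := by
  rw [LocA_inT hP hk]
  exact ldead_ldies hP hD (va_all hP false) hz (lp0_T_dead hP hD hm hk hz)

theorem loc0_L (hP : P.Ok) (hD : D.Ok) (hm : (D.mort && D.al) = true) (ht : t ≤ 83)
    (h41 : t ≠ 41) (h42 : t ≠ 42) (hk : k < P.N) (hz : z < D.w) :
    LReach P D false (inL P t k z) (outL P (t + 1) k z) := by
  obtain ⟨h1, h2⟩ := lp0_L hP hD hm ht h41 h42 hk hz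
  refine (LocA_in hP (by omega) hk ?_).trans
    ((lpath_lreach hP hD (va_all hP false) hz h1).1.trans (LocA_out hP (by omega) hk h2))
  have h3 : t ≤ 84 := by omega
  simp [entStrip, h41, h42, h3]

theorem loc0_V0 (hP : P.Ok) (hD : D.Ok) (hm : (D.mort && D.al) = true) (hk : k < P.N)
    (hz : z < D.w) : LReach P D false (inL P 84 k z) (outT P k z) := by
  rw [LocA_outT hP hk]
  exact (LocA_in hP (by omega) hk (by simp [entStrip])).trans
    (lpath_lreach hP hD (va_all hP false) hz (lp0_V0 hP hD hm hk hz)).1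

theorem loc0_L_dead (hP : P.Ok) (hD : D.Ok) (hm : (D.mort && D.al) = false) (ht : t ≤ 84)
    (h41 : t ≠ 41) (h42 : t ≠ 42) (hk : k < P.N) (hz : z < D.w) :
    LDies P D false (inL P t k z) := by
  refine ldies_of_lreach (LocA_in hP (by omega) hk ?_)
    (ldead_ldies hP hD (va_all hP false) hz (lp0_L_dead hP hD hm ht h41 h42 hk hz))
  simp [entStrip, h41, h42, ht]

theorem loc0_c (hP : P.Ok) (hk : k < P.N) :
    LReach P D false (inL P 42 k z) (outL P 42 k z) := by
  have h := LocA_bound hP (t := 42) (by omega) hk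
  refine zrow_walk hP (A := P.base 42 + k) (by omega) ?_
  rw [zrow_strip hP h.1]
  simp [hk]

end Pool.Agent.MP_fadef1_lc
end

section

/-! Deaths in rows of zeros. -/

namespace Pool.Agent.MP_fadef1_lc

variable {P : Par} {D : Data} {I J z g : ℕ}

private theorem stb2_none {X : ℕ → ℕ → Bool} {s : Lane} (h : gstep D (X I J) s = none) :
    Dies D X ⟨I, J, s⟩ := by
  apply dies_of_none
  have : nxt D X ⟨I, J, s⟩ = (gstep D (X I J) s).map (Pos.out ⟨I, J, s⟩) := rfl
  rw [this, h]
  rfl

/-- a zero kills `L g`, `43 ≤ g`, or sends it to `L (g-1)`, `43 ≤ g - 1` -/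
private theorem stb2_zero (h : P.arr I J = false) (h43 : 43 ≤ g) (h84 : g ≤ 84) :
    Dies D P.arr ⟨I, J, Lane.L g z⟩ ∨ (43 ≤ g - 1 ∧ g - 1 ≤ 84 ∧
      nxt D P.arr ⟨I, J, Lane.L g z⟩ = some ⟨I, J + 1, Lane.L (g - 1) z⟩) := by
  have h42 : g ≠ 42 := by omega
  by_cases hm : D.mort = false
  · left
    apply stb2_none
    rw [h]
    simp [gstep, hm, h42]
  · by_cases hg : g = 43
    · left
      apply stb2_none
      rw [h]
      simp [gstep, hm, hg]
    · right
      refine ⟨by omega, by omega, ?_⟩
      have : nxt D P.arr ⟨I, J, Lane.L g z⟩ =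
        (gstep D (P.arr I J) (Lane.L g z)).map (Pos.out ⟨I, J, Lane.L g z⟩) := rfl
      rw [this, h]
      have h1 : ¬ (g = 43 ∨ 84 < g) := by omega
      have h0 : g ≠ 0 := by omega
      have : gstep D false (Lane.L g z) = some (Lane.L (g - 1) z) := by
        simp [gstep, hm, h42, h0, h1]
      rw [this]
      rfl

/-- zero rows kill the lanes `43 ≤ g ≤ 84` (induction on `g`; at the end of the row the next
block is again a zero row, or its cell is `1` and the second cell is `1` or followed by `1`) -/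
theorem zrow_kill (hP : P.Ok) (hD : D.Ok) {A : ℕ} (bi bj : ℕ) {j : ℕ} (hA : A < P.QQ)
    (h0 : 0 < A) (hj : j < P.K) (hg : g ≤ 84) (h43 : 43 ≤ g) (hz : z < D.w)
    (h : P.zrow (P.arr bi bj) A = true ∨ j = 0) :
    Dies D P.arr ⟨bi * P.K + 6 * A, bj * P.K + j, Lane.L g z⟩ := by
  have hK := K_pos hP
  have hK6 : P.K = 6 * P.QQ := rfl
  have hi : 6 * A < P.K := by omega
  induction g using Nat.strong_induction_on generalizing bj j with
  | _ g ih =>
    by_cases hzr : P.zrow (P.arr bi bj) A = true
    · have hcell : P.arr (bi * P.K + 6 * A) (bj * P.K + j) = false := by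
        rw [arr_loc hP _ _ hi hj]
        unfold Par.bit Par.bx
        have h1 : 6 * A % 6 = 0 := by omega
        have h2 : 6 * A / 6 = A := by omega
        rw [if_pos h1, h2, if_pos hzr]
      rcases stb2_zero (D := D) (z := z) hcell h43 hg with hd | ⟨a1, a2, a3⟩
      · exact hd
      · refine dies_of_nxt a3 ?_
        by_cases hj1 : j + 1 < P.K
        · have := ih (g - 1) (by omega) bj (j := j + 1) hj1 a2 a1 (Or.inl hzr)
          exact this
        · have := ih (g - 1) (by omega) (bj + 1) (j := 0) (by omega) a2 a1 (Or.inr rfl)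
          have e : (bj + 1) * P.K + 0 = bj * P.K + j + 1 := by
            rw [Nat.add_mul]; omega
          rw [e] at this
          exact this
    · have hj0 : j = 0 := by
        rcases h with h | h
        · exact absurd h hzr
        · exact h
      subst hj0
      have hgen : ∀ x' : ℕ, x' < P.K → (x' + P.K - 6 * A - 1) % 3 ≠ 0 →
          P.arr (bi * P.K + 6 * A) (bj * P.K + x') = true := by
        intro x' hx' hx3
        rw [arr_loc hP _ _ hi hx']
        unfold Par.bit
        by_contra hne
        have hne' : P.bx (P.arr bi bj) (6 * A) (x' + P.K - 6 * A - 1) = false := by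
          simpa using hne
        rw [gb0 hP _ hx3] at hne'
        rcases hne' with h | ⟨_, h, _⟩
        · exact hzr h
        · omega
      refine die_short hD hg (by omega) hz (hgen 0 hj (by omega)) (Or.inr ?_)
      exact hgen 2 (by omega) (by omega)

private theorem stb2_row0 (hP : P.Ok) {c : ℕ} (hc : c = P.Q + 14) : P.W true 0 c = false := by
  have hK := K_pos hP
  have hK6 : P.K = 6 * P.QQ := rfl
  have hQ : P.Q = 2 * P.QQ := rfl
  have hV := va_all hP true 0 (by omega)
  have h13 : P.W true 0 (P.Q + 13) = true := by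
    have : P.W true 0 (P.Q + 13) = P.W0 true (P.Q + 13) := rfl
    rw [this]
    simp [Par.W0]
  by_contra hne
  have hne' : P.W true 0 c = true := by simpa using hne
  have := hV.sep _ _ h13 hne' (by omega)
  omega

/-- the row `0` of a block of type `1` kills the lanes `43 ≤ g ≤ 84` in the columns `1..43` -/
theorem zrow0_kill (hP : P.Ok) (hD : D.Ok) (bi bj : ℕ) {j : ℕ} (h1 : P.arr bi bj = true)
    (hj0 : 1 ≤ j) (hj : j ≤ 43) (hg : g ≤ 84) (h43 : 43 ≤ g) (hz : z < D.w) :
    Dies D P.arr ⟨bi * P.K, bj * P.K + j, Lane.L g z⟩ := by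
  have hK := K_pos hP
  have hK6 : P.K = 6 * P.QQ := rfl
  have hQ : P.Q = 2 * P.QQ := rfl
  have hloc : ∀ x : ℕ, x < P.K → P.arr (bi * P.K) (bj * P.K + x) =
      P.bx true 0 (x + P.K - 1) := by
    intro x hx
    have := arr_loc hP bi bj (i := 0) (by omega) hx
    rw [Nat.add_zero] at this
    rw [this, h1]
    rfl
  have hzr : P.zrow true 0 = false := by simp [Par.zrow]
  have hbx : ∀ x, P.bx true 0 x = (if P.K ≤ x ∧ x ≤ P.K + 41 then false
      else if x % 3 = 0 then !P.cl true 0 (x / 3) else true) := by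
    intro x
    unfold Par.bx
    have e1 : 0 % 6 = 0 := rfl
    have e2 : 0 / 6 = 0 := rfl
    rw [if_pos e1, e2, hzr]
    by_cases hc : P.K ≤ x ∧ x ≤ P.K + 41
    · simp [hc]
    · simp [hc]
  obtain ⟨n, hn⟩ : ∃ n, n = 43 - j := ⟨_, rfl⟩
  induction n generalizing j g with
  | zero =>
    have hj' : j = 43 := by omega
    subst hj'
    refine die_short hD hg (by omega) hz ?_ (Or.inl ?_)
    · rw [hloc 43 (by omega), hbx, if_neg (by omega), if_pos (by omega)]
      have e : (43 + P.K - 1) / 3 = P.Q + 14 := by omega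
      rw [e]
      unfold Par.cl
      rw [stb2_row0 hP rfl]
      rfl
    · have e : bj * P.K + 43 + 1 = bj * P.K + 44 := by omega
      rw [e, hloc 44 (by omega), hbx, if_neg (by omega), if_neg (by omega)]
  | succ n ih =>
    have hcell : P.arr (bi * P.K) (bj * P.K + j) = false := by
      rw [hloc j (by omega), hbx, if_pos (by omega)]
    rcases stb2_zero (D := D) (z := z) hcell h43 hg with hd | ⟨a1, a2, a3⟩
    · exact hd
    · refine dies_of_nxt a3 ?_
      exact ih (j := j + 1) (by omega) (by omega) a2 a1 (by omega)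

private theorem stb2_kd (I J : ℕ) : kd I (J + 1) = (kd I J + 1) % 3 := by
  unfold kd
  omega

/-- `T` at a cell `0` in row phase 0 -/
theorem dieT_r0 (hP : P.Ok) (hD : D.Ok) (hr : I % 6 = 0) (hz : z < D.w)
    (h : P.arr I J = false) : Dies D P.arr ⟨I, J, Lane.T z⟩ := by
  have hK := K_pos hP
  have hK6 : P.K = 6 * P.QQ := rfl
  have hpos : 0 < P.K := by omega
  by_cases hm : D.mort = false
  · apply stb2_none
    rw [h]
    simp [gstep, hm]
  · have hm' : D.mort = true := by simpa using hm
    have hn : nxt D P.arr ⟨I, J, Lane.T z⟩ = some ⟨I, J + 1, Lane.L 84 z⟩ := by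
      have : nxt D P.arr ⟨I, J, Lane.T z⟩ =
        (gstep D (P.arr I J) (Lane.T z)).map (Pos.out ⟨I, J, Lane.T z⟩) := rfl
      rw [this, h]
      simp [gstep, hm', Pos.out]
    refine dies_of_nxt hn ?_
    by_cases hnext : P.arr I (J + 1) = true
    · exact die84 hnext
    · -- the cell is in a row of zeros
      have hi : I % P.K < P.K := Nat.mod_lt _ hpos
      have hj : J % P.K < P.K := Nat.mod_lt _ hpos
      have e1 : I = I / P.K * P.K + I % P.K := by
        rw [Nat.mul_comm]; exact (Nat.div_add_mod I P.K).symm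
      have e2 : J = J / P.K * P.K + J % P.K := by
        rw [Nat.mul_comm]; exact (Nat.div_add_mod J P.K).symm
      generalize hbi : I / P.K = bi at *
      generalize hbj : J / P.K = bj at *
      generalize hii : I % P.K = i at *
      generalize hjj : J % P.K = j at *
      have hi6 : i % 6 = 0 := by
        rw [e1, row_mod hP] at hr
        exact hr
      obtain ⟨A, hAi⟩ : ∃ A, i = 6 * A := ⟨i / 6, by omega⟩
      subst hAi
      have hAQ : A < P.QQ := by omega
      rw [e1, e2, arr_loc hP _ _ hi hj] at h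
      by_cases hzr : P.zrow (P.arr bi bj) A = true
      · have hA0 : 0 < A := by
          have : P.H0 ≤ A := by
            unfold Par.zrow at hzr
            simp at hzr
            exact hzr.1.1.2
          have h5 : P.H0 = 2 * P.N + 20 := rfl
          omega
        by_cases hj1 : j + 1 < P.K
        · have := zrow_kill (g := 84) hP hD bi bj hAQ hA0 hj1 (by omega) (by omega) hz
            (Or.inl hzr)
          rw [e1, e2]
          exact this
        · have := zrow_kill (g := 84) (j := 0) hP hD bi (bj + 1) hAQ hA0 (by omega) (by omega)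
            (by omega) hz (Or.inr rfl)
          have e : (bj + 1) * P.K + 0 = J + 1 := by
            rw [Nat.add_mul]; omega
          rw [e, ← e1] at this
          exact this
      · -- not a zero row
        unfold Par.bit Par.bx at h
        have h1 : 6 * A % 6 = 0 := by omega
        have h2 : 6 * A / 6 = A := by omega
        rw [if_pos h1, h2, if_neg hzr] at h
        by_cases hc : (P.arr bi bj && decide (6 * A = 0 ∧ P.K ≤ j + P.K - 6 * A - 1 ∧
            j + P.K - 6 * A - 1 ≤ P.K + 41)) = true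
        · rw [Bool.and_eq_true, decide_eq_true_eq] at hc
          obtain ⟨hb, hA0, hc1, hc2⟩ := hc
          have := zrow0_kill (g := 84) (j := j + 1) hP hD bi bj hb (by omega) (by omega)
            (by omega) (by omega) hz
          have e : bj * P.K + (j + 1) = J + 1 := by omega
          have e' : bi * P.K = I := by omega
          rw [e, e'] at this
          exact this
        · rw [if_neg hc] at h
          exfalso
          -- a closed wall, the next cell is `1`
          by_cases hx : (j + P.K - 6 * A - 1) % 3 = 0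
          · apply hnext
            have hj1 : j + 1 < P.K := by omega
            have e : J + 1 = bj * P.K + (j + 1) := by omega
            rw [e1, e, arr_loc hP _ _ hi hj1]
            unfold Par.bit
            by_contra hne
            have hne' : P.bx (P.arr bi bj) (6 * A) (j + 1 + P.K - 6 * A - 1) = false := by
              simpa using hne
            rw [gb0 hP _ (by omega)] at hne'
            rcases hne' with h3 | ⟨hb, hA0, h4, h5⟩
            · exact hzr h3
            · apply hc
              rw [Bool.and_eq_true, decide_eq_true_eq]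
              exact ⟨hb, by omega, by omega, by omega⟩
          · rw [if_neg hx] at h
            exact absurd h (by simp)

/-- `T` at a cell `0` in the row phases 1, 3, 4, 5 -/
theorem dieT_r (hP : P.Ok) (hr : I % 6 ≠ 0) (hr2 : I % 6 ≠ 2) (h : P.arr I J = false) :
    Dies D P.arr ⟨I, J, Lane.T z⟩ := by
  have hk3 : kd I J < 3 := Nat.mod_lt _ (by omega)
  have hkn := stb2_kd I J
  have hcase : I % 6 = 1 ∨ I % 6 = 3 ∨ I % 6 = 4 ∨ I % 6 = 5 := by omega
  rcases hcase with h1 | h1 | h1 | h1
  · have h2 := gb1 hP (J := J) h1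
    rw [h] at h2
    have hk : kd I J = 0 := by
      by_contra hne
      simp [hne] at h2
    have h3 := gb1 hP (J := J + 1) h1
    have hk' : kd I (J + 1) ≠ 0 := by omega
    rw [decide_eq_false hk'] at h3
    exact dieT0 h h3
  · have hk : kd I J = 0 := by
      by_contra hne
      have := gb3 hP h1 hne
      rw [h] at this
      exact absurd this (by simp)
    exact dieT0 h (gb3 hP h1 (by omega))
  · by_cases hk : kd I J = 0
    · exact dieT0 h (gb4w hP h1 hk h)
    · have hk2 : kd I J ≠ 2 := by
        intro hk2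
        have := gb4 hP h1 hk2
        rw [h] at this
        exact absurd this (by simp)
      exact dieT0 h (gb4 hP h1 (by omega))
  · have hk : kd I J = 0 := by
      by_contra hne
      have := gb5 hP h1 hne
      rw [h] at this
      exact absurd this (by simp)
    exact dieT0 h (gb5 hP h1 (by omega))

end Pool.Agent.MP_fadef1_lc
end

section

/-! Lanes outside the wires: the three phases. -/

namespace Pool.Agent.MP_fadef1_lc

variable {P : Par} {D : Data} {I J z g : ℕ}

/-- the T cell `(I,J)` does not belong to a wire -/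
def FrT (P : Par) (I J : ℕ) : Prop :=
  (I % 6 = 0 → P.arr I J = true → P.arr I (J + 1) = true) ∧
  (I % 6 = 2 → P.arr I J = true ∧ P.arr I (J + 1) = true) ∧
  (I % 6 = 4 → P.arr I J = false ∨ J % P.K = 0)

private theorem stc_kd (I J : ℕ) : kd I (J + 1) = (kd I J + 1) % 3 := by
  unfold kd
  omega

private theorem stc_kd2 (I J : ℕ) : kd (I + 1) (J + 1) = kd I J := by
  unfold kd
  omega

/-- one step of the T phase -/
private theorem stc_step (hP : P.Ok) (hD : D.Ok) (hk : kd I J = 1) (hz : z < D.w)
    (h : FrT P I J) : Dies D P.arr ⟨I, J, Lane.T z⟩ ∨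
      ((I % 6 = 4 → J % P.K = 0) ∧
        Reach D P.arr ⟨I, J, Lane.T z⟩ ⟨I + 1, J + 1, Lane.T z⟩) := by
  have hkn : kd I (J + 1) = 2 := by rw [stc_kd, hk]
  have hcase : I % 6 = 0 ∨ I % 6 = 1 ∨ I % 6 = 2 ∨ I % 6 = 3 ∨ I % 6 = 4 ∨ I % 6 = 5 := by omega
  rcases hcase with h1 | h1 | h1 | h1 | h1 | h1
  · by_cases h0 : P.arr I J = true
    · exact Or.inr ⟨fun h => by omega, stepTL h0 (h.1 h1 h0)⟩
    · exact Or.inl (dieT_r0 hP hD h1 hz (by simpa using h0))
  · refine Or.inr ⟨fun h => by omega, stepTL ?_ ?_⟩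
    · rw [gb1 hP h1, hk]
      rfl
    · rw [gb1 hP h1, hkn]
      rfl
  · exact Or.inr ⟨fun h => by omega, stepTL (h.2.1 h1).1 (h.2.1 h1).2⟩
  · exact Or.inr ⟨fun h => by omega, stepTL (gb3 hP h1 (by omega)) (gb3 hP h1 (by omega))⟩
  · rcases h.2.2 h1 with h2 | h2
    · exact Or.inl (dieT_r hP (by omega) (by omega) h2)
    · exact Or.inr ⟨fun _ => h2, stepTL (gb4c hP h1 hk h2) (gb4 hP h1 hkn)⟩
  · exact Or.inr ⟨fun h => by omega, stepTL (gb5 hP h1 (by omega)) (gb5 hP h1 (by omega))⟩

private theorem stc_steps (hP : P.Ok) (hD : D.Ok) (hz : z < D.w) (n : ℕ) : ∀ I J : ℕ,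
    kd I J = 1 → (∀ k < n, FrT P (I + k) (J + k)) → Dies D P.arr ⟨I, J, Lane.T z⟩ ∨
      Reach D P.arr ⟨I, J, Lane.T z⟩ ⟨I + n, J + n, Lane.T z⟩ := by
  induction n with
  | zero => intro I J _ _; exact Or.inr Relation.ReflTransGen.refl
  | succ n ih =>
    intro I J hk h
    rcases stc_step hP hD hk hz (h 0 (by omega)) with hd | ⟨-, hr⟩
    · exact Or.inl hd
    · have hk' : kd (I + 1) (J + 1) = 1 := by rw [stc_kd2, hk]
      have hh : ∀ k < n, FrT P (I + 1 + k) (J + 1 + k) := by
        intro k hk
        have := h (k + 1) (by omega)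
        have e1 : I + (k + 1) = I + 1 + k := by omega
        have e2 : J + (k + 1) = J + 1 + k := by omega
        rw [e1, e2] at this
        exact this
      rcases ih (I + 1) (J + 1) hk' hh with hd | hr'
      · exact Or.inl (dies_of_reach hr hd)
      · right
        have e1 : I + 1 + n = I + (n + 1) := by omega
        have e2 : J + 1 + n = J + (n + 1) := by omega
        rw [e1, e2] at hr'
        exact hr.trans hr'

/-- T phase: the lane dies in the next row of phase 4, or in the one after it (if the first one is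
in a column divisible by `K`) -/
theorem tph (hP : P.Ok) (hD : D.Ok) (hk : kd I J = 1) (hz : z < D.w)
    (h : ∀ k ≤ (10 - I % 6) % 6 + 6, FrT P (I + k) (J + k)) : Dies D P.arr ⟨I, J, Lane.T z⟩ := by
  have hK := K_pos hP
  obtain ⟨n, hn⟩ : ∃ n, n = (10 - I % 6) % 6 := ⟨_, rfl⟩
  rw [← hn] at h
  have hkk : ∀ m, kd (I + m) (J + m) = 1 := by
    intro m
    unfold kd at hk ⊢
    omega
  have h4 : (I + n) % 6 = 4 := by omega
  rcases stc_steps hP hD hz n I J hk (fun k hk => h k (by omega)) with hd | hr
  · exact hd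
  · refine dies_of_reach hr ?_
    rcases stc_step hP hD (hkk n) hz (h n (by omega)) with hd | ⟨hc, -⟩
    · exact hd
    · have hJ := hc h4
      have hh : ∀ k < 6, FrT P (I + n + k) (J + n + k) := by
        intro k hk
        have := h (n + k) (by omega)
        rw [← Nat.add_assoc, ← Nat.add_assoc] at this
        exact this
      rcases stc_steps hP hD hz 6 (I + n) (J + n) (hkk n) hh with hd | hr'
      · exact hd
      · refine dies_of_reach hr' ?_
        have h6 := h (n + 6) (by omega)
        rw [← Nat.add_assoc, ← Nat.add_assoc] at h6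
        have h46 : (I + n + 6) % 6 = 4 := by omega
        rcases h6.2.2 h46 with h2 | h2
        · exact dieT_r hP (by omega) (by omega) h2
        · exfalso
          have e : (J + n + 6) % P.K = 6 := by
            rw [Nat.add_mod, hJ, Nat.zero_add, Nat.mod_mod, Nat.mod_eq_of_lt (by omega)]
          omega

/-- wall phase in the row phases 0, 1, 5 -/
theorem wph (hP : P.Ok) (hD : D.Ok) (hk : kd I J = 0) (hz : z < D.w)
    (hr : I % 6 = 0 ∨ I % 6 = 1 ∨ I % 6 = 5) : Dies D P.arr ⟨I, J, Lane.T z⟩ := by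
  -- row phase 1
  have p1 : ∀ I J : ℕ, kd I J = 0 → I % 6 = 1 → Dies D P.arr ⟨I, J, Lane.T z⟩ := by
    intro I J hk h1
    refine dieT_r hP (by omega) (by omega) ?_
    rw [gb1 hP h1, hk]
    rfl
  -- row phase 0
  have p0 : ∀ I J : ℕ, kd I J = 0 → I % 6 = 0 → Dies D P.arr ⟨I, J, Lane.T z⟩ := by
    intro I J hk h1
    by_cases h0 : P.arr I J = true
    · refine dies_of_reach (stepTL h0 (gb0w hP h1 hk h0)) ?_
      exact p1 _ _ (by rw [stc_kd2, hk]) (by omega)
    · exact dieT_r0 hP hD h1 hz (by simpa using h0)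
  rcases hr with h1 | h1 | h1
  · exact p0 I J hk h1
  · exact p1 I J hk h1
  · by_cases h0 : P.arr I J = true
    · have hkn : kd I (J + 1) = 1 := by rw [stc_kd, hk]
      refine dies_of_reach (stepTL h0 (gb5 hP h1 (by omega))) ?_
      exact p0 _ _ (by rw [stc_kd2, hk]) (by omega)
    · exact dieT_r hP (by omega) (by omega) (by simpa using h0)

/-- wall phase in row phase 4; the lane continues in the T phase in row `I+1`, column `J+2` -/
theorem wph4 (hP : P.Ok) (hD : D.Ok) (hk : kd I J = 0) (hr : I % 6 = 4) (hz : z < D.w)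
    (h : P.arr I (J + 1) = false → ∀ k ≤ 11, FrT P (I + 1 + k) (J + 2 + k)) :
    Dies D P.arr ⟨I, J, Lane.T z⟩ := by
  by_cases h0 : P.arr I J = true
  · by_cases h1 : P.arr I (J + 1) = true
    · refine dies_of_reach (stepTL h0 h1) ?_
      exact wph hP hD (by rw [stc_kd2, hk]) hz (by omega)
    · have h1' : P.arr I (J + 1) = false := by simpa using h1
      have hk2 : kd I (J + 2) = 2 := by
        unfold kd at hk ⊢
        omega
      refine dies_of_reach (stepT0L h0 h1' (gb4 hP hr hk2)) ?_
      refine tph hP hD ?_ hz ?_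
      · unfold kd at hk ⊢
        omega
      · intro k hk'
        exact h h1' k (by omega)
  · exact dieT_r hP (by omega) (by omega) (by simpa using h0)

theorem wph3 (hP : P.Ok) (hD : D.Ok) (hk : kd I J = 0) (hr : I % 6 = 3) (hz : z < D.w)
    (h : P.arr (I + 1) (J + 2) = false → ∀ k ≤ 11, FrT P (I + 2 + k) (J + 3 + k)) :
    Dies D P.arr ⟨I, J, Lane.T z⟩ := by
  by_cases h0 : P.arr I J = true
  · have hkn : kd I (J + 1) = 1 := by rw [stc_kd, hk]
    refine dies_of_reach (stepTL h0 (gb3 hP hr (by omega))) ?_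
    exact wph4 hP hD (by rw [stc_kd2, hk]) (by omega) hz h
  · exact dieT_r hP (by omega) (by omega) (by simpa using h0)

theorem wph2 (hP : P.Ok) (hD : D.Ok) (hk : kd I J = 0) (hr : I % 6 = 2) (hz : z < D.w)
    (h2 : P.arr I (J + 1) = true)
    (h : P.arr (I + 2) (J + 3) = false → ∀ k ≤ 11, FrT P (I + 3 + k) (J + 4 + k)) :
    Dies D P.arr ⟨I, J, Lane.T z⟩ := by
  by_cases h0 : P.arr I J = true
  · refine dies_of_reach (stepTL h0 h2) ?_
    exact wph3 hP hD (by rw [stc_kd2, hk]) (by omega) hz h
  · exact dieT0 (by simpa using h0) h2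

end Pool.Agent.MP_fadef1_lc
end

section

/-! Wires near the left border and at the top. -/

namespace Pool.Agent.MP_fadef1_lc

variable {P : Par} {D : Data} {b : Bool}

private theorem sta_w0 (hP : P.Ok) {c : ℕ} (h : P.W0 b c = true) :
    (∃ k < P.N, c = P.ex 42 k) ∨ (b = true ∧ c = P.Q + 13) := by
  unfold Par.W0 at h
  rw [Bool.or_eq_true, List.any_eq_true, Bool.and_eq_true] at h
  rcases h with ⟨k, hk, h⟩ | ⟨h1, h2⟩
  · exact Or.inl ⟨k, List.mem_range.mp hk, of_decide_eq_true h⟩
  · exact Or.inr ⟨h1, of_decide_eq_true h2⟩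

private theorem sta_sizes (hP : P.Ok) : 42 * P.Hs + P.N + 22 ≤ P.base 42 + P.N ∧
    P.base 42 + P.N + 44 * P.Hs + 100 ≤ P.QQ + P.N ∧ P.N + 20 ≤ P.Hs ∧
    P.base 42 = 2 * P.N + 20 + 42 * P.Hs ∧ 1 ≤ P.N := by
  have h1 := hP.hQQ P.cE (by simp)
  have h2 := hP.hHs P.cE (by simp)
  have h3 := hP.hN
  have h4 : P.base 42 = 2 * P.N + 20 + 42 * P.Hs := rfl
  have h5 : P.H0 = 2 * P.N + 20 := rfl
  rw [h5] at h1
  generalize (P.cE.length + 2) * (20 * P.M + 30) = x at h1
  generalize (P.cE.length + 2) * (3 * P.M + 3) = y at h2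
  omega

/-- no event near the left border -/
private theorem sta_ev (hP : P.Ok) (b : Bool) {A c : ℕ} (hA : A < P.QQ)
    (hc : c + 2 * A ≤ P.Q + 8) : sym (P.ev b A) c = 0 ∧ isSrc (P.ev b A) c = false ∧
      isDst (P.ev b A) c = false ∧ isCut (P.ev b A) c = false ∧ isNew (P.ev b A) c = false := by
  have hV := va_all hP b A hA
  have hok := hV.ok
  have hq := hV.quiet
  have ht := hok.t
  generalize P.ev b A = e at *
  by_cases h0 : e.t = 0
  · refine ⟨?_, ?_, ?_, ?_, ?_⟩
    · simp [sym, h0]
    · simp [isSrc, h0]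
    · simp [isDst, h0]
    · simp [isCut, h0]
    · simp [isNew, h0]
  · have hx := (hq h0).2.2.2.2.1
    have hcx : c < e.x := by omega
    have h1 : c ≠ e.x := by omega
    have h2 : c ≠ e.x + 2 := by omega
    have h3 : c ≠ e.x + 14 := by omega
    have h4 : c ≠ e.x + 16 := by omega
    have h5 : ¬ e.x < c := by omega
    have h6 : ¬ e.x ≤ c := by omega
    have h7 : e.t = 1 → c ≠ e.y := by
      intro h
      have := (hok.t1 h).2.1
      omega
    refine ⟨?_, ?_, ?_, ?_, ?_⟩
    · by_cases h : e.t = 1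
      · simp [sym, h, h1, h5, h7 h]
      · simp [sym, h, h6]
    · simp [isSrc, h1, h2]
    · by_cases h : e.t = 1
      · simp [isDst, h, h7 h]
      · simp [isDst, h, h1, h3, h4]
    · simp [isCut, h1, h2]
    · simp [isNew, h1, h3, h4]

private theorem sta_step (hP : P.Ok) (b : Bool) {A c : ℕ} (hA : A < P.QQ)
    (hc : c + 2 * A ≤ P.Q + 6) : P.W b (A + 1) c = true ↔
      (P.W b A c = true ∨ (P.entry b (A + 1) = true ∧ c = P.entc (A + 1))) := by
  obtain ⟨-, h2, h3, -, -⟩ := sta_ev hP b hA (c := c) (by omega)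
  have hQ : P.Q = 2 * P.QQ := rfl
  obtain ⟨-, s2, s3, s4, s5⟩ := sta_sizes hP
  have hex : c ≠ P.exitc A := by
    unfold Par.exitc
    omega
  have hW : P.W b (A + 1) c = (((P.W b A c && !decide (c = P.exitc A) && !isSrc (P.ev b A) c) ||
      isDst (P.ev b A) c) || (P.entry b (A + 1) && decide (c = P.entc (A + 1)))) := rfl
  rw [hW, h2, h3]
  simp [hex]

/-- the wires near the left border have entered there -/
theorem near_left (hP : P.Ok) (b : Bool) {A c : ℕ} (hA : A ≤ P.QQ) (hc : c + 2 * A ≤ P.Q + 8) :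
    P.W b A c = true ↔ ∃ A' ≤ A, P.entry b A' = true ∧ c = P.entc A' := by
  have hQ : P.Q = 2 * P.QQ := rfl
  obtain ⟨-, s2, s3, s4, s5⟩ := sta_sizes hP
  induction A with
  | zero =>
    have hW : P.W b 0 c = P.W0 b c := rfl
    rw [hW]
    constructor
    · intro h
      exfalso
      rcases sta_w0 hP h with ⟨k, hk, h⟩ | ⟨_, h⟩
      · unfold Par.ex at h
        omega
      · omega
    · rintro ⟨A', hA', he, _⟩
      exfalso
      have : A' = 0 := by omega
      subst this
      have hH : ¬ P.H0 ≤ 0 := by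
        have h5 : P.H0 = 2 * P.N + 20 := rfl
        omega
      simp [Par.entry, hH] at he
  | succ A ih =>
    have ih' := ih (by omega) (by omega)
    refine (sta_step hP b (by omega) (by omega)).trans ?_
    constructor
    · rintro (h | ⟨h1, h2⟩)
      · obtain ⟨A', h1, h2, h3⟩ := ih'.1 h
        exact ⟨A', by omega, h2, h3⟩
      · exact ⟨A + 1, le_refl _, h1, h2⟩
    · rintro ⟨A', h1, h2, h3⟩
      rcases Nat.lt_or_ge A' (A + 1) with h | h
      · exact Or.inl (ih'.2 ⟨A', by omega, h2, h3⟩)
      · have : A' = A + 1 := by omega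
        subst this
        exact Or.inr ⟨h2, h3⟩

/-- no event near the left border -/
theorem near_left_ev (hP : P.Ok) (b : Bool) {A c : ℕ} (hA : A < P.QQ)
    (hc : c + 2 * A ≤ P.Q + 8) : sym (P.ev b A) c = 0 ∧ isSrc (P.ev b A) c = false ∧
      isDst (P.ev b A) c = false ∧ isCut (P.ev b A) c = false ∧ isNew (P.ev b A) c = false :=
  sta_ev hP b hA hc

/-- the first four superbands: no events, no entries, no zero rows -/
theorem top_zone (hP : P.Ok) (b : Bool) {A : ℕ} (hA : A < 4) : P.ev b A = Ev.non ∧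
    P.entry b A = false ∧ P.zrow b A = false ∧ ∀ c, P.W b A c = P.W0 b c := by
  have hQ : P.Q = 2 * P.QQ := rfl
  obtain ⟨-, s2, s3, s4, s5⟩ := sta_sizes hP
  have h5 : P.H0 = 2 * P.N + 20 := rfl
  have hev : ∀ A < 4, P.ev b A = Ev.non := by
    intro A hA
    unfold Par.ev
    rw [if_pos hA]
  have hen : ∀ A < 22, P.entry b A = false := by
    intro A hA
    have hH : ¬ P.H0 ≤ A := by omega
    simp [Par.entry, hH]
  refine ⟨hev A hA, hen A (by omega), ?_, ?_⟩
  · have hH : ¬ P.H0 ≤ A := by omega
    simp [Par.zrow, hH]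
  · induction A with
    | zero => intro c; rfl
    | succ A ih =>
      intro c
      have hW : P.W b (A + 1) c = (((P.W b A c && !decide (c = P.exitc A) &&
          !isSrc (P.ev b A) c) || isDst (P.ev b A) c) ||
          (P.entry b (A + 1) && decide (c = P.entc (A + 1)))) := rfl
      rw [hW, ih (by omega) c, hev A (by omega), hen (A + 1) (by omega)]
      have hs : isSrc Ev.non c = false := by simp [isSrc, Ev.non]
      have hd : isDst Ev.non c = false := by simp [isDst, Ev.non]
      rw [hs, hd]
      by_cases h0 : P.W0 b c = true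
      · have hex : c ≠ P.exitc A := by
          unfold Par.exitc
          rcases sta_w0 hP h0 with ⟨k, hk, h⟩ | ⟨_, h⟩
          · unfold Par.ex at h
            omega
          · omega
        simp [hex]
      · simp at h0
        simp [h0]

end Pool.Agent.MP_fadef1_lc
end

section

/-! Chains in row phase 1: walls and pillars. -/

namespace Pool.Agent.MP_fadef1_lc

variable {P : Par} {i j bi bj : ℕ} {p : Pos}

private theorem nx1_trig {e : Ev} (he : (e.t = 2 ∧ e.y < 4) ∨ e.t = 3) :
    gstep data0 true (Lane.L (trL e) 0) =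
      some (Lane.L (3 * s1 e + 2 - (3 * trig e + 3)) 0) := by
  obtain ⟨t, x, y⟩ := e
  simp only at he
  rcases he with ⟨rfl, hy⟩ | rfl
  · have h0 : y = 0 ∨ y = 1 ∨ y = 2 ∨ y = 3 := by omega
    rcases h0 with rfl | rfl | rfl | rfl
    · have e1 : trL ⟨2, x, 0⟩ = 48 := by simp [trL, trig, s0]; omega
      have e2 : 3 * s1 ⟨2, x, 0⟩ + 2 - (3 * trig ⟨2, x, 0⟩ + 3) = 11 := by
        simp [trig, s1]; omega
      rw [e1, e2]; rfl
    · have e1 : trL ⟨2, x, 1⟩ = 63 := by simp [trL, trig, s0]; omega
      have e2 : 3 * s1 ⟨2, x, 1⟩ + 2 - (3 * trig ⟨2, x, 1⟩ + 3) = 14 := by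
        simp [trig, s1]; omega
      rw [e1, e2]; rfl
    · have e1 : trL ⟨2, x, 2⟩ = 66 := by simp [trL, trig, s0]; omega
      have e2 : 3 * s1 ⟨2, x, 2⟩ + 2 - (3 * trig ⟨2, x, 2⟩ + 3) = 29 := by
        simp [trig, s1]; omega
      rw [e1, e2]; rfl
    · have e1 : trL ⟨2, x, 3⟩ = 81 := by simp [trL, trig, s0]; omega
      have e2 : 3 * s1 ⟨2, x, 3⟩ + 2 - (3 * trig ⟨2, x, 3⟩ + 3) = 32 := by
        simp [trig, s1]; omega
      rw [e1, e2]; rfl
  · have e1 : trL ⟨3, x, y⟩ = 45 := by simp [trL, trig, s0]; omega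
    have e2 : 3 * s1 ⟨3, x, y⟩ + 2 - (3 * trig ⟨3, x, y⟩ + 3) = 2 := by
      simp [trig, s1]; omega
    rw [e1, e2]; rfl

private theorem nx1_nxt {X : ℕ → ℕ → Bool} {I J : ℕ} {s s' : Lane}
    (h : gstep data0 (X I J) s = some s') :
    nxt data0 X ⟨I, J, s⟩ = some (Pos.out ⟨I, J, s⟩ s') := by
  unfold nxt
  simp only [h, Option.map_some]

/-- wall: `(i+1, j+1)`; pillar: `(i+1, j+1)`. -/
theorem nx_1 (hP : P.Ok) (hi : i < P.K) (hj : j < P.K)
    (hr : i % 6 = 1) (hj1 : j + 1 < P.K)
    (hs : Str P (bi * P.K + i, bj * P.K + j) p) (hd : ¬ Dies data0 P.arr p) :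
    Goes P (bi * P.K + i, bj * P.K + j) := by
  have hK6 : P.K = 6 * P.QQ := rfl
  have hKpos := K_pos hP
  have hi1 : i + 1 < P.K := by omega
  obtain ⟨h0, t, hc⟩ := (str_loc hP hi hj).1 hs
  have hA : i / 6 < P.QQ := by omega
  have hV := va_all hP (P.arr bi bj) (i / 6) hA
  have hx3 : (j + P.K - i - 1) % 3 = 0 := by
    unfold Par.bx at h0
    rw [if_neg (by omega), if_pos hr] at h0
    simpa using h0
  have hr2 : (i + 1) % 6 = 2 := by omega
  have hd6 : (i + 1) / 6 = i / 6 := by omega
  have hx' : j + 1 + P.K - (i + 1) - 1 = j + P.K - i - 1 := by omega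
  have hcl : P.cls (P.arr bi bj) (bi * P.K + i) (bj * P.K + j) i j =
      (if P.cl (P.arr bi bj) (i / 6) ((j + P.K - i - 1) / 3) then
        Cl.s ⟨bi * P.K + i, bj * P.K + j + 1, Lane.T 0⟩ 0
      else if ((P.ev (P.arr bi bj) (i / 6)).t = 2 ∨ (P.ev (P.arr bi bj) (i / 6)).t = 3) ∧
        (j + P.K - i - 1) / 3 = trig (P.ev (P.arr bi bj) (i / 6)) + 1 then
      Cl.s ⟨bi * P.K + i + 1, bj * P.K + j, Lane.L (trL (P.ev (P.arr bi bj) (i / 6))) 0⟩ 0
      else Cl.j) := by
    unfold Par.cls
    rw [if_neg (by omega), if_pos hr, if_neg (by omega)]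
  rw [hcl] at hc
  set b := P.arr bi bj with hb
  set e := P.ev b (i / 6) with he
  have hok : EvOk (P.W b (i / 6)) e := hV.ok
  set x := j + P.K - i - 1 with hx
  obtain ⟨c, hcx⟩ : ∃ c, x = 3 * c := ⟨x / 3, by omega⟩
  have hc3 : x / 3 = c := by omega
  rw [hc3] at hc
  split_ifs at hc with h1 h2
  · -- wall
    have hp : p = ⟨bi * P.K + i, bj * P.K + j + 1, Lane.T 0⟩ := by
      simp only [Cl.s.injEq] at hc; exact hc.1.symm
    subst hp
    have hW : P.W b (i / 6) c = true ∧ isCut e c = false := by
      unfold Par.cl at h1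
      simpa using h1
    refine ⟨(bi * P.K + (i + 1), bj * P.K + (j + 1)),
      ⟨bi * P.K + (i + 1), bj * P.K + (j + 1) + 1, Lane.T 0⟩, ?_, ?_, ?_⟩
    · refine (str_loc hP hi1 hj1).2 ⟨?_, ?_⟩
      · rw [hx', ← hb]
        unfold Par.bx
        rw [if_neg (by omega), if_neg (by omega), if_pos hr2, hd6, ← he, hc3]
        rw [if_pos hx3, h1]
        split_ifs <;> simp [hx3]
      · rw [← hb]
        unfold Par.cls
        rw [if_neg (by omega), if_neg (by omega), if_pos hr2, hd6, ← he, hx']
        by_cases t1 : e.t = 1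
        · have hv := (hok.t1 t1)
          have hnot : ¬ (3 * e.x + 2 ≤ x ∧ x ≤ 3 * e.y + 1) := by
            rintro ⟨a1, a2⟩
            have := hv.2.2 c hW.1 (by omega)
            omega
          rw [if_pos t1, if_neg hnot]
          exact ⟨1, rfl⟩
        · rw [if_neg t1]
          by_cases t2 : (e.t = 2 ∨ e.t = 3) ∧ 3 * e.x ≤ x ∧ x ≤ 3 * last e + 2
          · rw [if_pos t2]
            have hs0 : x = 3 * s0 e := by
              rcases t2 with ⟨t2 | t2, a1, a2⟩
              · have hv := (hok.t2 t2)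
                have hl : last e = e.x + 16 := by unfold last; rw [if_pos t2]
                have hcut := hW.2
                unfold isCut at hcut
                unfold s0
                by_cases hy : e.y % 2 = 0
                · rw [if_neg (by omega)]
                  simp only [t2, decide_true, Bool.true_and, if_pos hy, decide_eq_false_iff_not]
                    at hcut
                  by_contra hne
                  have := hv.2.2.2 c hW.1 (by omega) hcut
                  omega
                · rw [if_pos ⟨t2, by omega⟩]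
                  simp only [t2, decide_true, Bool.true_and, if_neg hy, decide_eq_false_iff_not]
                    at hcut
                  by_contra hne
                  have := hv.2.2.2 c hW.1 hcut (by omega)
                  omega
              · have hv := (hok.t3 t2)
                have hl : last e = e.x + 14 := by
                  unfold last; rw [if_neg (by omega), if_pos t2]
                unfold s0
                rw [if_neg (by omega)]
                by_contra hne
                have := hv.2 c hW.1 (by omega)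
                omega
            rw [if_neg (by omega), if_pos hs0]
            exact ⟨1, rfl⟩
          · rw [if_neg t2]
            exact ⟨1, rfl⟩
    · intro hD
      apply hd
      have hk : kd (bi * P.K + i) (bj * P.K + j) = 0 := by
        rw [kd_loc hP bi bj hi, ← hx]; exact hx3
      have hrm : (bi * P.K + i) % 6 = 1 := by rw [row_mod hP]; exact hr
      have a1 : P.arr (bi * P.K + i) (bj * P.K + j + 1) = true := by
        rw [gb1 hP hrm]
        unfold kd at hk ⊢
        simp only [Bool.not_eq_true', decide_eq_false_iff_not]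
        omega
      have a2 : P.arr (bi * P.K + i) (bj * P.K + j + 1 + 1) = true := by
        rw [gb1 hP hrm]
        unfold kd at hk ⊢
        simp only [Bool.not_eq_true', decide_eq_false_iff_not]
        omega
      have n1 := nx1_nxt (X := P.arr) (I := bi * P.K + i) (J := bj * P.K + j + 1)
        (s := Lane.T 0) (s' := Lane.L 42 0) (by rw [a1]; rfl)
      have n2 := nx1_nxt (X := P.arr) (I := bi * P.K + i) (J := bj * P.K + j + 1 + 1)
        (s := Lane.L 42 0) (s' := Lane.T 0) (by rw [a2]; rfl)
      refine dies_of_nxt n1 (dies_of_nxt n2 ?_)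
      exact hD
    · left
      refine ⟨rfl, ?_, ?_⟩ <;> simp only <;> omega
  · -- pillar
    have hp : p = ⟨bi * P.K + i + 1, bj * P.K + j, Lane.L (trL e) 0⟩ := by
      simp only [Cl.s.injEq] at hc; exact hc.1.symm
    subst hp
    have hey : (e.t = 2 ∧ e.y < 4) ∨ e.t = 3 := by
      rcases h2.1 with h | h
      · exact Or.inl ⟨h, (hok.t2 h).1⟩
      · exact Or.inr h
    have htr : e.x + 3 ≤ trig e ∧ trig e + 1 ≤ last e ∧ 3 * s0 e + 1 ≤ 3 * trig e + 2 ∧
        trig e + 1 ≤ s1 e ∧ 3 * s0 e + 3 ≤ 3 * trig e + 3 := by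
      rcases hey with ⟨h, hy⟩ | h
      · unfold trig last s0 s1
        rw [if_pos h, if_pos h]
        split_ifs <;> omega
      · unfold trig last s0 s1
        rw [if_neg (by omega), if_neg (by omega), if_pos h, if_neg (by omega), if_neg (by omega)]
        omega
    refine ⟨(bi * P.K + (i + 1), bj * P.K + (j + 1)),
      ⟨bi * P.K + (i + 1), bj * P.K + (j + 1), Lane.L (3 * s1 e + 2 - (3 * trig e + 3)) 0⟩,
      ?_, ?_, ?_⟩
    · refine (str_loc hP hi1 hj1).2 ⟨?_, ?_⟩
      · rw [hx', ← hb]
        unfold Par.bx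
        rw [if_neg (by omega), if_neg (by omega), if_pos hr2, hd6, ← he, hc3]
        have hsym : sym e c = 2 := by
          unfold sym
          rw [if_neg (by omega), if_pos (by omega), if_pos (by omega), if_neg (by omega)]
        rw [hsym]
        simp
      · rw [← hb]
        unfold Par.cls
        rw [if_neg (by omega), if_neg (by omega), if_pos hr2, hd6, ← he, hx']
        rw [if_neg (by omega), if_pos (by omega), if_neg (by omega), if_neg (by omega),
          if_neg (by omega), if_neg (by omega), if_pos (by omega)]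
        refine ⟨0, ?_⟩
        have : x = 3 * trig e + 3 := by omega
        rw [this]
    · intro hD
      apply hd
      have hxb : j + P.K - (i + 1) - 1 = 3 * trig e + 2 := by omega
      have a1 : P.arr (bi * P.K + i + 1) (bj * P.K + j) = true := by
        have := arr_loc hP bi bj hi1 hj
        rw [show bi * P.K + i + 1 = bi * P.K + (i + 1) from rfl, this, ← hb]
        unfold Par.bit
        rw [hxb]
        unfold Par.bx
        have e3 : (3 * trig e + 2) / 3 = trig e := by omega
        have hsym : sym e (trig e) = 3 := by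
          unfold sym
          rw [if_neg (by omega), if_pos (by omega), if_pos (by omega), if_pos rfl]
        rw [if_neg (by omega), if_neg (by omega), if_pos hr2, hd6, ← he, e3, hsym]
        have e4 : (3 * trig e + 2) % 3 = 2 := by omega
        simp [e4]
      have n1 := nx1_nxt (X := P.arr) (I := bi * P.K + i + 1) (J := bj * P.K + j)
        (s := Lane.L (trL e) 0) (s' := Lane.L (3 * s1 e + 2 - (3 * trig e + 3)) 0)
        (by rw [a1]; exact nx1_trig hey)
      refine dies_of_nxt n1 ?_
      exact hD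
    · left
      refine ⟨rfl, ?_, ?_⟩ <;> simp only <;> omega

end Pool.Agent.MP_fadef1_lc
end
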