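import Pool.Agent.Lib.MP_fadef1_lc.Mg.G008
import Pool.Agent.Lib.MP_fadef1_lc.Mg.G012

section

/-! Content lanes inside a block of type 1. -/

namespace Pool.Agent.MP_fadef1_lc

variable {P : Par} {D : Data} {t k z d : ℕ}

private theorem Loc_bound (hP : P.Ok) {t : ℕ} (ht : t ≤ 84) (hk : k < P.N) :
    k < P.Hs ∧ P.base t + k + 200 < P.QQ := by
  obtain ⟨b1, b2, b3, b4⟩ := Ok_bounds hP
  have h1 : t * P.Hs ≤ 84 * P.Hs := Nat.mul_le_mul_right _ ht
  refine ⟨by omega, ?_⟩
  unfold Par.base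
  omega

private theorem Loc_inT (hP : P.Ok) (hk : k < P.N) : inT P k z = P.TP 0 (P.ex 42 k) z := by
  have h := Loc_bound hP (t := 42) (by omega) hk
  have eQ : P.Q = 2 * P.QQ := rfl
  have eK : P.K = 6 * P.QQ := rfl
  rw [TP_top, inT, Par.ex]
  congr 1
  omega

private theorem Loc_outT (hP : P.Ok) (hk : k < P.N) : outT P k z = P.TP P.QQ (P.en 42 k) z := by
  have h := Loc_bound hP (t := 42) (by omega) hk
  have eQ : P.Q = 2 * P.QQ := rfl
  have eK : P.K = 6 * P.QQ := rfl
  rw [TP_bottom, outT, Par.en]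
  congr 1
  omega

private theorem Loc_in (hP : P.Ok) {b : Bool} (ht : t ≤ 84) (hk : k < P.N)
    (he : entStrip b t = true) :
    LReach P D b (inL P t k z) (P.TP (P.base t + k + 1) (P.en t k) z) := by
  have h := Loc_bound hP ht hk
  refine entry_walk hP (A := P.base t + k) (by omega) (va_all hP b _ (by omega)) ?_
  rw [entry_strip hP h.1, he]
  simp [hk]

private theorem Loc_out (hP : P.Ok) {b : Bool} (ht : t ≤ 84) (hk : k < P.N)
    (hW : P.W b (P.base t + k) (P.exitc (P.base t + k)) = true) :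
    LReach P D b (P.TP (P.base t + k) (P.ex t k) z) (outL P t k z) := by
  have h := Loc_bound hP ht hk
  exact exit_walk hP (A := P.base t + k) (by omega) (va_all hP b _ (by omega)) hW

private theorem Loc_tin {s : ℕ} (hd : d < 4) (hs : s < 2) :
    tin d s ≤ 84 ∧ entStrip true (tin d s) = true := by
  interval_cases d <;> interval_cases s <;> simp [tin, entStrip]

theorem loc1_T (hP : P.Ok) (hD : D.Ok) (hk : k < P.N) (hz : z < D.w) :
    LReach P D true (inT P k z) (outL P 42 k z) := by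
  obtain ⟨h1, h2⟩ := lp1_T (D := D) (z := z) hP hk
  rw [Loc_inT hP hk]
  exact (lpath_lreach hP hD (va_all hP true) hz h1).1.trans (Loc_out hP (by omega) hk h2)

theorem loc1_c (hP : P.Ok) (hD : D.Ok) (hk : k < P.N) (hz : z < D.w) :
    LReach P D true (inL P 42 k z) (outT P k z) := by
  rw [Loc_outT hP hk]
  exact (Loc_in hP (by omega) hk (by simp [entStrip])).trans
    (lpath_lreach hP hD (va_all hP true) hz (lp1_c hP hk)).1

theorem loc1_Z (hP : P.Ok) (hD : D.Ok) (hm : (D.mort && D.al) = true) :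
    LReach P D true ⟨0, 0, Lane.L 85 0⟩ (outL P 43 0 (D.w - 1)) := by
  have hw : D.w - 1 < D.w := by
    have := hD.1
    omega
  have hN : 0 < P.N := hP.hN
  have hb := Loc_bound hP (t := 43) (by omega) hN
  have hm' : D.mort = true := by
    simp only [Bool.and_eq_true] at hm
    exact hm.1
  obtain ⟨h1, h2⟩ := lp1_Z hP hD hm hw
  have h3 : LReach P D true ⟨0, 0, Lane.L 85 0⟩ (P.TP 1 (P.Q + 13) (D.w - 1)) :=
    z_walk hP (va_all hP true 0 (by omega)) hm'
  exact h3.trans ((lpath_lreach hP hD (va_all hP true) hw h1).1.trans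
    (Loc_out hP (t := 43) (k := 0) (by omega) hN h2))

theorem loc1_Z_dead (hP : P.Ok) (hD : D.Ok) (hm : (D.mort && D.al) = false) :
    LDies P D true ⟨0, 0, Lane.L 85 0⟩ := by
  have hw : D.w - 1 < D.w := by
    have := hD.1
    omega
  have hN : 0 < P.N := hP.hN
  have hb := Loc_bound hP (t := 43) (by omega) hN
  have eK : P.K = 6 * P.QQ := rfl
  by_cases hm' : D.mort = true
  · have h3 : LReach P D true ⟨0, 0, Lane.L 85 0⟩ (P.TP 1 (P.Q + 13) (D.w - 1)) :=
      z_walk hP (va_all hP true 0 (by omega)) hm'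
    exact ldies_of_lreach h3
      (ldead_ldies hP hD (va_all hP true) hw (lp_topZ_dead hP hD hm hw))
  · have hm'' : D.mort = false := by simpa using hm'
    refine ⟨_, Relation.ReflTransGen.refl, ?_, ?_, ?_⟩
    · change 0 < P.K
      omega
    · change 0 < P.K
      omega
    · simp [nxt, gstep, hm'']

theorem loc1_pair (hP : P.Ok) (hD : D.Ok) (hm : (D.mort && D.al) = true) (hd : d < 4) {s : ℕ}
    (hs : s < 2) (hk : k < P.N) (hz : z < D.w) {a' z' : ℕ} (ha' : a' < 2 * P.N)
    (h : evalC D (P.circ d) (s * P.N + (P.N - 1 - k), z) = some (a', z')) :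
    LReach P D true (inL P (tin d s) k z)
      (outL P (tout d (a' / P.N)) (P.N - 1 - a' % P.N) z') := by
  obtain ⟨h1, h2⟩ := lp1_pair hP hD hm hd hs hk hz ha' h
  have h3 : tout d (a' / P.N) ≤ 84 := by
    unfold tout
    split_ifs <;> omega
  exact (Loc_in hP (Loc_tin hd hs).1 hk (Loc_tin hd hs).2).trans
    ((lpath_lreach hP hD (va_all hP true) hz h1).1.trans (Loc_out hP h3 (by omega) h2))

theorem loc1_pair_dead (hP : P.Ok) (hD : D.Ok) (hd : d < 4) {s : ℕ} (hs : s < 2) (hk : k < P.N)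
    (hz : z < D.w) (h : (D.mort && D.al) = false ∨
      ∀ q, evalC D (P.circ d) (s * P.N + (P.N - 1 - k), z) = some q → 2 * P.N ≤ q.1) :
    LDies P D true (inL P (tin d s) k z) :=
  ldies_of_lreach (Loc_in hP (Loc_tin hd hs).1 hk (Loc_tin hd hs).2)
    (ldead_ldies hP hD (va_all hP true) hz (lp1_pair_dead hP hD hd hs hk hz h))

theorem loc1_alive (hP : P.Ok) (hD : D.Ok) (hm : (D.mort && D.al) = true) (hk : k < P.N)
    (hz : z < D.w) {a' z' : ℕ} (ha' : a' < P.N)
    (h : evalC D P.cE (P.N - 1 - k, z) = some (a', z')) :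
    LReach P D true (inL P 39 k z) (outL P 82 (P.N - 1 - a') z') := by
  obtain ⟨h1, h2⟩ := lp1_alive hP hD hm hk hz ha' h
  exact (Loc_in hP (by omega) hk (by simp [entStrip])).trans
    ((lpath_lreach hP hD (va_all hP true) hz h1).1.trans (Loc_out hP (by omega) (by omega) h2))

theorem loc1_alive_dead (hP : P.Ok) (hD : D.Ok) (hk : k < P.N) (hz : z < D.w)
    (h : (D.mort && D.al) = false ∨
      ∀ q, evalC D P.cE (P.N - 1 - k, z) = some q → P.N ≤ q.1) :
    LDies P D true (inL P 39 k z) :=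
  ldies_of_lreach (Loc_in hP (by omega) hk (by simp [entStrip]))
    (ldead_ldies hP hD (va_all hP true) hz (lp1_alive_dead hP hD hk hz h))

end Pool.Agent.MP_fadef1_lc
end

section

/-! The L phase. -/

namespace Pool.Agent.MP_fadef1_lc

variable {P : Par} {D : Data} {I J z g : ℕ}

private theorem stc2_kd (I J : ℕ) : kd I (J + 1) = (kd I J + 1) % 3 := by
  unfold kd
  omega

private theorem stc2_kd2 (I J : ℕ) : kd (I + 1) (J + 1) = kd I J := by
  unfold kd
  omega

/-- L phase in row phase 1 -/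
theorem lph1 (hP : P.Ok) (hD : D.Ok) (hk : kd I J = 2) (hr : I % 6 = 1) (hz : z < D.w)
    (h2 : P.arr (I + 1) (J + 3) = true)
    (h : P.arr (I + 3) (J + 5) = false → ∀ k ≤ 11, FrT P (I + 4 + k) (J + 6 + k)) :
    Dies D P.arr ⟨I, J, Lane.T z⟩ := by
  have hk1 : kd I (J + 1) = 0 := by rw [stc2_kd, hk]
  have hk2 : kd I (J + 2) = 1 := by
    unfold kd at hk ⊢
    omega
  have a0 : P.arr I J = true := by
    rw [gb1 hP hr, hk]
    rfl
  have a1 : P.arr I (J + 1) = false := by
    rw [gb1 hP hr, hk1]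
    rfl
  have a2 : P.arr I (J + 2) = true := by
    rw [gb1 hP hr, hk2]
    rfl
  refine dies_of_reach (stepT0L a0 a1 a2) ?_
  refine wph2 hP hD ?_ (by omega) hz h2 h
  unfold kd at hk ⊢
  omega

/-- L phase in row phase 0; `hs`: the wall cell `(I, J+1)` is not the first cell of a row of
zeros -/
theorem lph0 (hP : P.Ok) (hD : D.Ok) (hk : kd I J = 2) (hr : I % 6 = 0) (hz : z < D.w)
    (hs : P.arr I J = true → P.arr I (J + 1) = false → P.arr I (J + 2) = true)
    (h2 : P.arr (I + 2) (J + 4) = true)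
    (h : P.arr (I + 4) (J + 6) = false → ∀ k ≤ 11, FrT P (I + 5 + k) (J + 7 + k)) :
    Dies D P.arr ⟨I, J, Lane.T z⟩ := by
  by_cases h0 : P.arr I J = true
  · by_cases h1 : P.arr I (J + 1) = true
    · refine dies_of_reach (stepTL h0 h1) ?_
      exact lph1 hP hD (by rw [stc2_kd2, hk]) (by omega) hz h2 h
    · have h1' : P.arr I (J + 1) = false := by simpa using h1
      refine dies_of_reach (stepT0L h0 h1' (hs h0 h1')) ?_
      refine wph hP hD ?_ hz (by omega)
      unfold kd at hk ⊢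
      omega
  · exact dieT_r0 hP hD hr hz (by simpa using h0)

/-- L phase in row phase 3 -/
theorem lph3 (hP : P.Ok) (hD : D.Ok) (hk : kd I J = 2) (hr : I % 6 = 3) (hz : z < D.w)
    (h3 : P.arr I (J + 1) = true) (h4 : P.arr (I + 1) (J + 2) = true)
    (h5 : P.arr (I + 2) (J + 3) = true)
    (hs : P.arr (I + 3) (J + 3) = true → P.arr (I + 3) (J + 4) = false →
      P.arr (I + 3) (J + 5) = true)
    (h2 : P.arr (I + 5) (J + 7) = true)
    (h : P.arr (I + 7) (J + 9) = false → ∀ k ≤ 11, FrT P (I + 8 + k) (J + 10 + k)) :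
    Dies D P.arr ⟨I, J, Lane.T z⟩ := by
  refine dies_of_reach (stepTL (gb3 hP hr (by omega)) h3) ?_
  have hk1 : kd (I + 1) (J + 1) = 2 := by rw [stc2_kd2, hk]
  refine dies_of_reach (stepTL (gb4 hP (by omega) hk1) h4) ?_
  have hk2 : kd (I + 1 + 1) (J + 1 + 1) = 2 := by rw [stc2_kd2, hk1]
  refine dies_of_reach (stepTL (gb5 hP (by omega) (by omega)) h5) ?_
  have hk3 : kd (I + 1 + 1 + 1) (J + 1 + 1 + 1) = 2 := by rw [stc2_kd2, hk2]
  exact lph0 hP hD hk3 (by omega) hz hs h2 h

end Pool.Agent.MP_fadef1_lc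
end

section

/-! Free channels near the left border and at the top of a block. -/

namespace Pool.Agent.MP_fadef1_lc

variable {P : Par} {D : Data}

private theorem sd_w' (hP : P.Ok) {b : Bool} {A c : ℕ} (hA : A < P.QQ)
    (hc : c + 2 * A ≤ P.Q + 8) (hne : ∀ A' ≤ A, P.entry b A' = true → c ≠ P.entc A') :
    P.W b A c = false ∧ P.W' b A c = false := by
  have h1 : P.W b A c = false := by
    rw [← Bool.not_eq_true, near_left hP b hA.le hc]
    rintro ⟨A', hA', he, hcc⟩
    exact hne A' hA' he hcc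
  obtain ⟨_, h2, h3, h4, _⟩ := near_left_ev hP b hA hc
  refine ⟨h1, ?_⟩
  unfold Par.W'
  rw [h1, h3]
  rfl

/-- near the left border, T cells -/
private theorem sd_T (hP : P.Ok) (bi bj : ℕ) {i j : ℕ} (hi : i < P.K) (hj : j ≤ 27)
    (hkd : (j + P.K - i - 1) % 3 = 1)
    (hne : ∀ A' ≤ i / 6, P.entry (P.arr bi bj) A' = true → (j + P.K - i - 1) / 3 ≠ P.entc A') :
    FrT P (bi * P.K + i) (bj * P.K + j) := by
  have hK := K_pos hP
  have hK6 : P.K = 6 * P.QQ := rfl
  have hQ : P.Q = 2 * P.QQ := rfl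
  have hrow : (bi * P.K + i) % 6 = i % 6 := by
    rw [hK6]
    have : bi * (6 * P.QQ) = 6 * (bi * P.QQ) := by ring
    omega
  have hA : i / 6 < P.QQ := by omega
  have e0 : P.arr (bi * P.K + i) (bj * P.K + j) = P.bx (P.arr bi bj) i (j + P.K - i - 1) :=
    arr_loc hP bi bj hi (by omega)
  have e1 : P.arr (bi * P.K + i) (bj * P.K + j + 1) =
      P.bx (P.arr bi bj) i (j + P.K - i - 1 + 1) := by
    have h1 := arr_loc hP bi bj hi (show j + 1 < P.K by omega)
    have h2 : bj * P.K + (j + 1) = bj * P.K + j + 1 := by omega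
    rw [h2] at h1
    rw [h1]
    unfold Par.bit
    congr 1
    omega
  set x := j + P.K - i - 1 with hx
  have hx3 : x / 3 + 2 * (i / 6) ≤ P.Q + 8 := by omega
  refine ⟨?_, ?_, ?_⟩
  · intro h0 h1
    rw [hrow] at h0
    rw [e0] at h1
    rw [e1]
    have h6 : i = 6 * (i / 6) := by omega
    rw [h6] at h1 ⊢
    by_contra hcon
    rw [Bool.not_eq_true, gb0 hP _ (by omega)] at hcon
    have h7 : ¬ (P.zrow (P.arr bi bj) (i / 6) = true ∨
        (P.arr bi bj = true ∧ i / 6 = 0 ∧ P.K ≤ x ∧ x ≤ P.K + 41)) := by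
      rw [← gb0 hP _ (by omega), h1]
      decide
    rcases hcon with h8 | ⟨h8, h9, h10, h11⟩
    · exact h7 (Or.inl h8)
    · exact h7 (Or.inr ⟨h8, h9, by omega, by omega⟩)
  · intro h0
    rw [hrow] at h0
    have hsym := (near_left_ev hP (P.arr bi bj) hA hx3).1
    rw [e0, e1]
    have h2 : (x + 1) / 3 = x / 3 := by omega
    constructor
    · unfold Par.bx
      rw [if_neg (by omega), if_neg (by omega), if_pos h0, if_pos hsym, if_neg (by omega)]
    · unfold Par.bx
      rw [if_neg (by omega), if_neg (by omega), if_pos h0, h2, if_pos hsym, if_neg (by omega)]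
  · intro h0
    rw [hrow] at h0
    by_cases hj0 : j = 0
    · right
      rw [hj0, add_zero, Nat.mul_mod_left]
    · left
      have hW := (sd_w' hP hA hx3 hne).2
      rw [e0]
      unfold Par.bx
      rw [if_neg (by omega), if_neg (by omega), if_neg (by omega), if_neg (by omega), if_pos h0,
        if_neg (by omega), if_pos hkd, hW]
      have : ¬ (x + i + 1 = P.K) := by omega
      simp [this]

/-- near the left border, wall cells -/
private theorem sd_w (hP : P.Ok) (bi bj : ℕ) {i j : ℕ} (hi : i < P.K) (hj : j ≤ 27)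
    (hkd : (j + P.K - i - 1) % 3 = 0)
    (hne : ∀ A' ≤ i / 6, P.entry (P.arr bi bj) A' = true → (j + P.K - i - 1) / 3 ≠ P.entc A')
    (h0 : i % 6 ≠ 0) (h1 : i % 6 ≠ 1) :
    P.arr (bi * P.K + i) (bj * P.K + j) = true := by
  have hK := K_pos hP
  have hK6 : P.K = 6 * P.QQ := rfl
  have hQ : P.Q = 2 * P.QQ := rfl
  have hA : i / 6 < P.QQ := by omega
  have e0 : P.arr (bi * P.K + i) (bj * P.K + j) = P.bx (P.arr bi bj) i (j + P.K - i - 1) :=
    arr_loc hP bi bj hi (by omega)
  rw [e0]
  set x := j + P.K - i - 1 with hx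
  have hx3 : x / 3 + 2 * (i / 6) ≤ P.Q + 8 := by omega
  obtain ⟨hW, hW'⟩ := sd_w' hP hA hx3 hne
  obtain ⟨hsym, hsrc, _, _, _⟩ := near_left_ev hP (P.arr bi bj) hA hx3
  have hcl : P.cl (P.arr bi bj) (i / 6) (x / 3) = false := by
    unfold Par.cl
    rw [hW]
    rfl
  have hcl4 : P.cl4 (P.arr bi bj) (i / 6) (x / 3) = false := by
    unfold Par.cl4
    rw [hW']
    rfl
  have hcl3 : P.cl3 (P.arr bi bj) (i / 6) (x / 3) = false := by
    unfold Par.cl3
    rw [hcl4, Bool.false_or]
    by_contra hcon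
    rw [Bool.not_eq_false, Bool.and_eq_true, decide_eq_true_eq, decide_eq_true_eq] at hcon
    unfold isSrc at hsrc
    rw [if_pos hcon.1] at hsrc
    simp [hcon.2] at hsrc
  unfold Par.bx
  rw [if_neg h0, if_neg h1]
  by_cases h2 : i % 6 = 2
  · rw [if_pos h2, if_pos hsym, if_pos hkd, hcl]
    rfl
  · rw [if_neg h2]
    by_cases h3 : i % 6 = 3
    · rw [if_pos h3, if_pos hkd, hcl3]
      rfl
    · rw [if_neg h3]
      by_cases h4 : i % 6 = 4
      · rw [if_pos h4, if_pos hkd, hcl4]
        rfl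
      · rw [if_neg h4, if_pos hkd, hcl4]
        rfl

/-- no entries in the first superbands -/
private theorem sd_top {b : Bool} {A' : ℕ} (hA : A' ≤ 4) : P.entry b A' = false := by
  unfold Par.entry
  have : ¬ P.H0 ≤ A' := by
    unfold Par.H0
    omega
  simp [this]

/-- The channel through the local T cell `(i0, j0)` of the block `(bi, bj)` is free near the left
border, also below the block (there it is channel `c + Q`, near the left border again). -/
theorem FrT_path (hP : P.Ok) (bi bj : ℕ) {i0 j0 k : ℕ} (hi : i0 < P.K) (hj : j0 + k ≤ 27)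
    (hkd : (j0 + P.K - i0 - 1) % 3 = 1)
    (hne : ∀ A' ≤ (i0 + k) / 6, A' < P.QQ → P.entry (P.arr bi bj) A' = true →
      (j0 + P.K - i0 - 1) / 3 ≠ P.entc A') :
    FrT P (bi * P.K + i0 + k) (bj * P.K + j0 + k) := by
  have hK := K_pos hP
  have hK6 : P.K = 6 * P.QQ := rfl
  by_cases h : i0 + k < P.K
  · have e1 : bi * P.K + i0 + k = bi * P.K + (i0 + k) := by omega
    have e2 : bj * P.K + j0 + k = bj * P.K + (j0 + k) := by omega
    have e3 : j0 + k + P.K - (i0 + k) - 1 = j0 + P.K - i0 - 1 := by omega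
    rw [e1, e2]
    refine sd_T hP bi bj h hj (by rw [e3]; exact hkd) ?_
    intro A' hA' he
    rw [e3]
    exact hne A' hA' (by omega) he
  · have e1 : bi * P.K + i0 + k = (bi + 1) * P.K + (i0 + k - P.K) := by
      rw [add_mul, one_mul]
      omega
    have e2 : bj * P.K + j0 + k = bj * P.K + (j0 + k) := by omega
    rw [e1, e2]
    refine sd_T hP (bi + 1) bj (by omega) hj (by omega) ?_
    intro A' hA' he
    rw [sd_top (by omega)] at he
    exact absurd he (by decide)

/-- the same for wall cells in the row phases 2, 3, 4, 5 -/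
theorem open_path (hP : P.Ok) (bi bj : ℕ) {i0 j0 k : ℕ} (hi : i0 < P.K) (hj : j0 + k ≤ 27)
    (hkd : (j0 + P.K - i0 - 1) % 3 = 0)
    (hne : ∀ A' ≤ (i0 + k) / 6, A' < P.QQ → P.entry (P.arr bi bj) A' = true →
      (j0 + P.K - i0 - 1) / 3 ≠ P.entc A')
    (h0 : (i0 + k) % 6 ≠ 0) (h1 : (i0 + k) % 6 ≠ 1) :
    P.arr (bi * P.K + i0 + k) (bj * P.K + j0 + k) = true := by
  have hK := K_pos hP
  have hK6 : P.K = 6 * P.QQ := rfl
  by_cases h : i0 + k < P.K
  · have e1 : bi * P.K + i0 + k = bi * P.K + (i0 + k) := by omega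
    have e2 : bj * P.K + j0 + k = bj * P.K + (j0 + k) := by omega
    have e3 : j0 + k + P.K - (i0 + k) - 1 = j0 + P.K - i0 - 1 := by omega
    rw [e1, e2]
    refine sd_w hP bi bj h hj (by rw [e3]; exact hkd) ?_ h0 h1
    intro A' hA' he
    rw [e3]
    exact hne A' hA' (by omega) he
  · have e1 : bi * P.K + i0 + k = (bi + 1) * P.K + (i0 + k - P.K) := by
      rw [add_mul, one_mul]
      omega
    have e2 : bj * P.K + j0 + k = bj * P.K + (j0 + k) := by omega
    rw [e1, e2]
    refine sd_w hP (bi + 1) bj (by omega) hj (by omega) ?_ (by omega) (by omega)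
    intro A' hA' he
    rw [sd_top (by omega)] at he
    exact absurd he (by decide)

/-- T cells near the left border in row phase 2 are `1` -/
theorem r2_path (hP : P.Ok) (bi bj : ℕ) {i j : ℕ} (hi : i < P.K) (hj : j ≤ 26)
    (hr : i % 6 = 2) (hkd : (j + P.K - i - 1) % 3 ≠ 0) :
    P.arr (bi * P.K + i) (bj * P.K + j) = true := by
  have hK := K_pos hP
  have hK6 : P.K = 6 * P.QQ := rfl
  have hQ : P.Q = 2 * P.QQ := rfl
  have hA : i / 6 < P.QQ := by omega
  have e0 : P.arr (bi * P.K + i) (bj * P.K + j) = P.bx (P.arr bi bj) i (j + P.K - i - 1) :=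
    arr_loc hP bi bj hi (by omega)
  rw [e0]
  have hx3 : (j + P.K - i - 1) / 3 + 2 * (i / 6) ≤ P.Q + 8 := by omega
  have hsym := (near_left_ev hP (P.arr bi bj) hA hx3).1
  unfold Par.bx
  rw [if_neg (by omega), if_neg (by omega), if_pos hr, if_pos hsym, if_neg hkd]

end Pool.Agent.MP_fadef1_lc
end

section

/-! Lanes entering a block from the left outside the wires. -/

namespace Pool.Agent.MP_fadef1_lc

variable {P : Par} {D : Data} {z g A : ℕ}

private theorem F1_entW (hP : P.Ok) {b : Bool} (hA : A < P.QQ) (he : P.entry b A = true) :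
    P.W b A (P.entc A) = true ∧ P.W' b A (P.entc A) = true := by
  have hQ : P.Q = 2 * P.QQ := rfl
  have hc : P.entc A = P.Q - 1 - 2 * A := rfl
  have hx : P.exitc A = 2 * P.Q - 1 - 2 * A := rfl
  have h1 : P.W b A (P.entc A) = true :=
    (near_left hP b hA.le (by omega)).2 ⟨A, le_rfl, he, rfl⟩
  obtain ⟨-, h2, -, -, -⟩ := near_left_ev (c := P.entc A) hP b hA (by omega)
  refine ⟨h1, ?_⟩
  have h3 : decide (P.entc A = P.exitc A) = false := decide_eq_false (by omega)
  unfold Par.W'
  rw [h1, h2, h3]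
  rfl

private theorem F1_ne {A' : ℕ} (hA : A < P.QQ) (hA' : A' < P.QQ)
    (h : P.entc A = P.entc A') : A = A' := by
  have hQ : P.Q = 2 * P.QQ := rfl
  have hc : P.entc A = P.Q - 1 - 2 * A := rfl
  have hc' : P.entc A' = P.Q - 1 - 2 * A' := rfl
  omega

private theorem F1_free (hP : P.Ok) (bi bj : ℕ) (hA : A < P.QQ)
    (h : P.arr (bi * P.K + (6 * A + 4)) (bj * P.K + 3) = false) :
    P.entry (P.arr bi bj) A = false := by
  have hQ : P.Q = 2 * P.QQ := rfl
  have hK : P.K = 6 * P.QQ := rfl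
  have hK2 := K_pos hP
  have hc : P.entc A = P.Q - 1 - 2 * A := rfl
  rw [arr_loc hP bi bj (by omega) (by omega)] at h
  rw [← Bool.not_eq_true]
  intro he
  have h1 := (F1_entW hP hA he).2
  have hx : 3 + P.K - (6 * A + 4) - 1 = 3 * P.entc A + 1 := by omega
  have h2 : P.bit (P.arr bi bj) (6 * A + 4) 3 = true := by
    unfold Par.bit
    rw [hx]
    unfold Par.bx
    have e1 : (6 * A + 4) % 6 = 4 := by omega
    have e2 : (6 * A + 4) / 6 = A := by omega
    have e3 : (3 * P.entc A + 1) % 3 = 1 := by omega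
    have e4 : (3 * P.entc A + 1) / 3 = P.entc A := by omega
    rw [e1, e2, e3, e4, h1]
    simp
  rw [h2] at h
  cases h

private theorem F1_open (hP : P.Ok) (bi bj : ℕ) (hA : A < P.QQ)
    (h : P.arr (bi * P.K + (6 * A + 2)) (bj * P.K) = true) :
    P.entry (P.arr bi bj) A = false := by
  have hQ : P.Q = 2 * P.QQ := rfl
  have hK : P.K = 6 * P.QQ := rfl
  have hK2 := K_pos hP
  have hc : P.entc A = P.Q - 1 - 2 * A := rfl
  have h' := arr_loc hP bi bj (i := 6 * A + 2) (j := 0) (by omega) (by omega)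
  rw [Nat.add_zero (bj * P.K)] at h'
  rw [h'] at h
  rw [← Bool.not_eq_true]
  intro he
  have h1 := (F1_entW hP hA he).1
  obtain ⟨h3, -, -, h4, -⟩ := near_left_ev (c := P.entc A) hP (P.arr bi bj) hA (by omega)
  have hx : 0 + P.K - (6 * A + 2) - 1 = 3 * P.entc A := by omega
  have h2 : P.bit (P.arr bi bj) (6 * A + 2) 0 = false := by
    unfold Par.bit
    rw [hx]
    unfold Par.bx
    have e1 : (6 * A + 2) % 6 = 2 := by omega
    have e2 : (6 * A + 2) / 6 = A := by omega
    have e3 : (3 * P.entc A) % 3 = 0 := by omega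
    have e4 : (3 * P.entc A) / 3 = P.entc A := by omega
    rw [e1, e2, e3, e4, h3]
    unfold Par.cl
    rw [h1, h4]
    simp
  rw [h2] at h
  cases h

/-- the free path of the channel `entc A` -/
private theorem F1_path (hP : P.Ok) (bi bj : ℕ) (hA : A < P.QQ)
    (he : P.entry (P.arr bi bj) A = false) {k : ℕ} (hk : k ≤ 20) :
    FrT P (bi * P.K + (6 * A + 5) + k) (bj * P.K + 4 + k) := by
  have hQ : P.Q = 2 * P.QQ := rfl
  have hK : P.K = 6 * P.QQ := rfl
  have hK2 := K_pos hP
  have hc : P.entc A = P.Q - 1 - 2 * A := rfl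
  refine FrT_path hP bi bj (by omega) (by omega) (by omega) ?_
  intro A' _ hA'' he' h
  have e4 : (4 + P.K - (6 * A + 5) - 1) / 3 = P.entc A := by omega
  rw [e4] at h
  have := F1_ne hA hA'' h
  subst this
  rw [he] at he'
  cases he'

/-- T phase at the left border below a superband without entry -/
theorem strayL_T (hP : P.Ok) (hD : D.Ok) (bi bj : ℕ) (hA : A < P.QQ) (hz : z < D.w)
    (he : P.entry (P.arr bi bj) A = false) :
    Dies D P.arr ⟨bi * P.K + (6 * A + 1), bj * P.K, Lane.T z⟩ := by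
  have hQ : P.Q = 2 * P.QQ := rfl
  have hK : P.K = 6 * P.QQ := rfl
  have hK2 := K_pos hP
  have hc : P.entc A = P.Q - 1 - 2 * A := rfl
  have hr := row_mod hP bi (6 * A + 1)
  refine tph hP hD ?_ hz ?_
  · have h := kd_loc hP (i := 6 * A + 1) (j := 0) bi bj (by omega)
    rw [Nat.add_zero (bj * P.K)] at h
    rw [h]
    omega
  · intro k hk
    rw [hr] at hk
    have h := FrT_path hP bi bj (i0 := 6 * A + 1) (j0 := 0) (k := k) (by omega) (by omega)
      (by omega) ?_
    · rw [Nat.add_zero (bj * P.K)] at h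
      exact h
    · intro A' _ hA'' he' h
      have e4 : (0 + P.K - (6 * A + 1) - 1) / 3 = P.entc A := by omega
      rw [e4] at h
      have := F1_ne hA hA'' h
      subst this
      rw [he] at he'
      cases he'

theorem strayL_0 (hP : P.Ok) (hD : D.Ok) (bi bj : ℕ) (hA : A < P.QQ) (hz : z < D.w)
    (he : P.entry (P.arr bi bj) A = false) (hzr : P.zrow (P.arr bi bj) A = false) :
    Dies D P.arr ⟨bi * P.K + 6 * A, bj * P.K, Lane.L 42 z⟩ := by
  have hQ : P.Q = 2 * P.QQ := rfl
  have hK : P.K = 6 * P.QQ := rfl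
  have hK2 := K_pos hP
  have h1 : P.arr (bi * P.K + 6 * A) (bj * P.K) = true := by
    have h' := arr_loc hP bi bj (i := 6 * A) (j := 0) (by omega) (by omega)
    rw [Nat.add_zero (bj * P.K)] at h'
    rw [h']
    unfold Par.bit
    rw [← Bool.not_eq_false]
    intro h
    rw [gb0 hP _ (by omega), hzr] at h
    rcases h with h | h
    · cases h
    · omega
  refine dies_of_nxt (q := ⟨bi * P.K + (6 * A + 1), bj * P.K, Lane.T z⟩) ?_
    (strayL_T hP hD bi bj hA hz he)
  unfold nxt
  rw [h1]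
  rfl

/-- if the wire of channel `entc A` has entered the wall cell `(6A+2, 0)` is closed, otherwise
wall phase, then T phase -/
theorem strayL_1 (hP : P.Ok) (hD : D.Ok) (bi bj : ℕ) (hA : A < P.QQ) (hz : z < D.w) :
    Dies D P.arr ⟨bi * P.K + (6 * A + 1), bj * P.K, Lane.L 42 z⟩ := by
  have hQ : P.Q = 2 * P.QQ := rfl
  have hK : P.K = 6 * P.QQ := rfl
  have hK2 := K_pos hP
  have h1 : P.arr (bi * P.K + (6 * A + 1)) (bj * P.K) = true := by
    have hr := row_mod hP bi (6 * A + 1)
    rw [gb1 hP (by rw [hr]; omega)]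
    have h := kd_loc hP (i := 6 * A + 1) (j := 0) bi bj (by omega)
    rw [Nat.add_zero (bj * P.K)] at h
    rw [h, decide_eq_false (by omega)]
    rfl
  refine dies_of_nxt (q := ⟨bi * P.K + (6 * A + 2), bj * P.K, Lane.T z⟩) ?_ ?_
  · unfold nxt
    rw [h1]
    rfl
  · have hr := row_mod hP bi (6 * A + 2)
    have h := kd_loc hP (i := 6 * A + 2) (j := 0) bi bj (by omega)
    rw [Nat.add_zero (bj * P.K)] at h
    refine wph2 hP hD (by rw [h]; omega) (by rw [hr]; omega) hz
      (r2_path hP bi bj (by omega) (by omega) (by omega) (by omega)) ?_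
    intro h5 k hk
    have h6 := F1_free hP bi bj hA h5
    have h7 := F1_path hP bi bj hA h6 (k := k) (by omega)
    exact h7

/-- `(6A+2,0)` is a wall cell: closed: `L 42` goes on to the T cell, down to the closed wall cell
`(6A+3, 1)`; open: L phase at `(6A+3, 0)` (`lph3`) -/
theorem strayL_2 (hP : P.Ok) (hD : D.Ok) (bi bj : ℕ) (hA : A < P.QQ) (hz : z < D.w) :
    Dies D P.arr ⟨bi * P.K + (6 * A + 2), bj * P.K, Lane.L 42 z⟩ := by
  have hQ : P.Q = 2 * P.QQ := rfl
  have hK : P.K = 6 * P.QQ := rfl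
  have hK2 := K_pos hP
  have hc : P.entc A = P.Q - 1 - 2 * A := rfl
  have hr := row_mod hP bi (6 * A + 3)
  cases h1 : P.arr (bi * P.K + (6 * A + 2)) (bj * P.K) with
  | false =>
    have h2 : P.arr (bi * P.K + (6 * A + 2)) (bj * P.K + 1) = true :=
      r2_path hP bi bj (by omega) (by omega) (by omega) (by omega)
    refine dies_of_nxt (q := ⟨bi * P.K + (6 * A + 2), bj * P.K + 1, Lane.L 42 z⟩) ?_ ?_
    · unfold nxt
      rw [h1]
      rfl
    refine dies_of_nxt (q := ⟨bi * P.K + (6 * A + 3), bj * P.K + 1, Lane.T z⟩) ?_ ?_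
    · unfold nxt
      rw [h2]
      rfl
    have h := kd_loc hP (i := 6 * A + 3) (j := 1) bi bj (by omega)
    refine wph3 hP hD (by rw [h]; omega) (by rw [hr]; omega) hz ?_
    intro h5 k hk
    have h6 := F1_free hP bi bj hA h5
    have h7 := F1_path hP bi bj hA h6 (k := k) (by omega)
    exact h7
  | true =>
    have he := F1_open hP bi bj hA h1
    refine dies_of_nxt (q := ⟨bi * P.K + (6 * A + 3), bj * P.K, Lane.T z⟩) ?_ ?_
    · unfold nxt
      rw [h1]
      rfl
    have h := kd_loc hP (i := 6 * A + 3) (j := 0) bi bj (by omega)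
    rw [Nat.add_zero (bj * P.K)] at h
    have hop : ∀ k ≤ 2, P.arr (bi * P.K + (6 * A + 3) + k) (bj * P.K + 1 + k) = true := by
      intro k hk
      refine open_path hP bi bj (by omega) (by omega) (by omega) ?_ (by omega) (by omega)
      intro A' _ hA'' he' h
      have e4 : (1 + P.K - (6 * A + 3) - 1) / 3 = P.entc A := by omega
      rw [e4] at h
      have := F1_ne hA hA'' h
      subst this
      rw [he] at he'
      cases he'
    refine lph3 hP hD (by rw [h]; omega) (by rw [hr]; omega) hz (hop 0 (by omega))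
      (hop 1 (by omega)) (hop 2 (by omega)) ?_ ?_ ?_
    · rcases Nat.lt_or_ge (A + 1) P.QQ with hA1 | hA1
      · have e0 : bi * P.K + (6 * A + 3) + 3 = bi * P.K + 6 * (A + 1) := by ring
        rw [e0, arr_loc hP bi bj (by omega) (by omega), arr_loc hP bi bj (by omega) (by omega),
          arr_loc hP bi bj (by omega) (by omega)]
        intro h3 _
        unfold Par.bit at h3 ⊢
        rw [← Bool.not_eq_false] at h3 ⊢
        rw [gb0 hP _ (by omega)] at h3 ⊢
        intro h4
        apply h3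
        rcases h4 with h4 | h4
        · exact Or.inl h4
        · omega
      · have e0 : bi * P.K + (6 * A + 3) + 3 = (bi + 1) * P.K + 6 * 0 := by
          rw [Nat.add_mul, Nat.one_mul]
          omega
        rw [e0, arr_loc hP (bi + 1) bj (by omega) (by omega),
          arr_loc hP (bi + 1) bj (by omega) (by omega),
          arr_loc hP (bi + 1) bj (by omega) (by omega)]
        intro h3 _
        unfold Par.bit at h3 ⊢
        rw [← Bool.not_eq_false] at h3 ⊢
        rw [gb0 hP _ (by omega)] at h3 ⊢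
        intro h4
        apply h3
        rcases h4 with h4 | h4
        · exact Or.inl h4
        · exact Or.inr ⟨h4.1, rfl, by omega, by omega⟩
    · rcases Nat.lt_or_ge (A + 1) P.QQ with hA1 | hA1
      · have e0 : bi * P.K + (6 * A + 3) + 5 = bi * P.K + (6 * A + 8) := by ring
        rw [e0]
        exact r2_path hP bi bj (by omega) (by omega) (by omega) (by omega)
      · have e0 : bi * P.K + (6 * A + 3) + 5 = (bi + 1) * P.K + 2 := by
          rw [Nat.add_mul, Nat.one_mul]
          omega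
        rw [e0]
        exact r2_path hP (bi + 1) bj (by omega) (by omega) (by omega) (by omega)
    · intro _ k hk
      have h7 := F1_path hP bi bj hA he (k := k + 6) (by omega)
      have e1 : bi * P.K + (6 * A + 5) + (k + 6) = bi * P.K + (6 * A + 3) + 8 + k := by ring
      have e2 : bj * P.K + 4 + (k + 6) = bj * P.K + 10 + k := by ring
      rw [e1, e2] at h7
      exact h7

end Pool.Agent.MP_fadef1_lc
end
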