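import Pool.Agent.Lib.MP_fadef1_lc.Mg.G012
import Pool.Agent.Lib.MP_fadef1_lc.Mg.G011
import Pool.Agent.Lib.MP_fadef1_lc.Mg.G013
import Pool.Agent.Lib.MP_fadef1_lc.Mg.G014

section

/-! Free channels at the top of a block. -/

namespace Pool.Agent.MP_fadef1_lc

variable {P : Par} {D : Data}

private theorem std_K (P : Par) : P.K = 6 * P.QQ := rfl

private theorem std_row0 (hP : P.Ok) (b : Bool) {i x : ℕ} (hi : i < 24) (h6 : i % 6 = 0)
    (hx : x % 3 ≠ 0) (h : P.bx b i x = false) : i = 0 ∧ P.K ≤ x ∧ x ≤ P.K + 41 := by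
  have e : i = 6 * (i / 6) := by omega
  rw [e] at h
  rcases (gb0 hP b hx).mp h with h1 | h1
  · have := (top_zone hP b (show i / 6 < 4 by omega)).2.2.1
    rw [this] at h1
    exact absurd h1 (by simp)
  · exact ⟨by omega, h1.2.2.1, h1.2.2.2⟩

private theorem std_row2 (hP : P.Ok) (b : Bool) {i x : ℕ} (hi : i < 24) (h6 : i % 6 = 2)
    (hx : x % 3 ≠ 0) : P.bx b i x = true := by
  have h1 := (top_zone hP b (show i / 6 < 4 by omega)).1
  unfold Par.bx
  rw [if_neg (by omega), if_neg (by omega), if_pos h6, h1]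
  have h2 : sym Ev.non (x / 3) = 0 := by simp [sym, Ev.non]
  rw [if_pos h2, if_neg hx]

private theorem std_row4 (hP : P.Ok) (b : Bool) {i x : ℕ} (hi : i < 24) (h6 : i % 6 = 4)
    (hx : x % 3 = 1) : P.bx b i x =
      ((P.W0 b (x / 3) && !decide (x / 3 = P.exitc (i / 6))) || decide (x + i + 1 = P.K)) := by
  obtain ⟨h1, h2, h3, h4⟩ := top_zone hP b (show i / 6 < 4 by omega)
  unfold Par.bx
  rw [if_neg (by omega), if_neg (by omega), if_neg (by omega), if_neg (by omega), if_pos h6,
    if_neg (by omega), if_pos hx]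
  unfold Par.W'
  rw [h1, h4]
  simp [isSrc, isDst, Ev.non]

/-- Free channels in the first 24 rows. -/
theorem FrT_top (hP : P.Ok) (bi bj : ℕ) {i j : ℕ} (hi : i < 24) (hj : j < P.K)
    (hkd : (j + P.K - i - 1) % 3 = 1)
    (hW : P.W0 (P.arr bi bj) ((j + P.K - i - 1) / 3) = false) :
    FrT P (bi * P.K + i) (bj * P.K + j) := by
  have hK := K_pos hP
  have hK6 := std_K P
  have hiK : i < P.K := by omega
  have hrow : (bi * P.K + i) % 6 = i % 6 := row_mod hP bi i
  have hcell : P.arr (bi * P.K + i) (bj * P.K + j) = P.bx (P.arr bi bj) i (j + P.K - i - 1) :=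
    arr_loc hP bi bj hiK hj
  -- the next cell
  have hnext : (j + 1 < P.K ∧ P.arr (bi * P.K + i) (bj * P.K + j + 1) =
      P.bx (P.arr bi bj) i (j + P.K - i)) ∨ (j + 1 = P.K ∧
      P.arr (bi * P.K + i) (bj * P.K + j + 1) = P.bx (P.arr bi (bj + 1)) i (P.K - i - 1)) := by
    rcases Nat.lt_or_ge (j + 1) P.K with h | h
    · left
      refine ⟨h, ?_⟩
      have h1 := arr_loc hP bi bj hiK h
      rw [show bj * P.K + j + 1 = bj * P.K + (j + 1) by ring, h1]
      unfold Par.bit
      congr 1
      omega
    · right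
      have h0 : j + 1 = P.K := by omega
      refine ⟨h0, ?_⟩
      have h1 := arr_loc hP bi (bj + 1) hiK (show 0 < P.K by omega)
      rw [show bj * P.K + j + 1 = (bj + 1) * P.K + 0 by rw [add_assoc, h0]; ring, h1]
      unfold Par.bit
      rw [Nat.zero_add]
  refine ⟨?_, ?_, ?_⟩
  · intro h6 htrue
    rw [hrow] at h6
    rcases hnext with ⟨h1, h2⟩ | ⟨h1, h2⟩
    · rw [h2]
      by_contra hne
      have hf : P.bx (P.arr bi bj) i (j + P.K - i) = false := by simpa using hne
      obtain ⟨g1, g2, g3⟩ := std_row0 hP _ hi h6 (by omega) hf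
      rw [hcell] at htrue
      have hz := (top_zone hP (P.arr bi bj) (show i / 6 < 4 by omega)).2.2.1
      subst g1
      have hff : P.bx (P.arr bi bj) (6 * 0) (j + P.K - 0 - 1) = false := by
        rw [gb0 hP (P.arr bi bj) (by omega)]
        right
        rw [show (0 : ℕ) = 6 * 0 by norm_num] at hf
        rcases (gb0 hP (P.arr bi bj) (x := j + P.K - 6 * 0) (by omega)).mp hf with h7 | h7
        · rw [show (0 : ℕ) / 6 = 0 by norm_num] at hz
          rw [hz] at h7
          exact absurd h7 (by simp)
        · refine ⟨h7.1, rfl, ?_, ?_⟩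
          · have := h7.2.2.1
            omega
          · have := h7.2.2.2
            omega
      rw [show 6 * 0 = 0 by norm_num] at hff
      rw [hff] at htrue
      exact absurd htrue (by simp)
    · rw [h2]
      by_contra hne
      have hf : P.bx (P.arr bi (bj + 1)) i (P.K - i - 1) = false := by simpa using hne
      obtain ⟨g1, g2, g3⟩ := std_row0 hP _ hi h6 (by omega) hf
      omega
  · intro h6
    rw [hrow] at h6
    refine ⟨?_, ?_⟩
    · rw [hcell]
      exact std_row2 hP _ hi h6 (by omega)
    · rcases hnext with ⟨h1, h2⟩ | ⟨h1, h2⟩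
      · rw [h2]
        exact std_row2 hP _ hi h6 (by omega)
      · rw [h2]
        exact std_row2 hP _ hi h6 (by omega)
  · intro h6
    rw [hrow] at h6
    rw [hcell, std_row4 hP _ hi h6 hkd, hW]
    rcases Nat.eq_zero_or_pos j with h | h
    · right
      rw [h]
      simp
    · left
      simp only [Bool.false_and, Bool.false_or, decide_eq_false_iff_not]
      omega

theorem W_top (hP : P.Ok) (b : Bool) {i j : ℕ} (hi : i < 24) (hj : j < P.K)
    (hkd : (j + P.K - i - 1) % 3 = 1) (hr : i % 6 = 4)
    (hW : P.W0 b ((j + P.K - i - 1) / 3) = true) : P.bit b i j = true := by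
  have hK := K_pos hP
  have hK6 := std_K P
  unfold Par.bit
  rw [std_row4 hP b hi hr hkd, hW]
  have h1 : ¬ ((j + P.K - i - 1) / 3 = P.exitc (i / 6)) := by
    unfold Par.exitc Par.Q
    omega
  simp [h1]

/-- the T cell `(2, j)` is `1`, also if it is in the block to the right -/
theorem r2_top (hP : P.Ok) (bi bj : ℕ) {j : ℕ} (hj : j < P.K + 20) (hkd : (j + P.K) % 3 = 1) :
    P.arr (bi * P.K + 2) (bj * P.K + j) = true := by
  have hK := K_pos hP
  have hK6 := std_K P
  rcases Nat.lt_or_ge j P.K with h | h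
  · rw [arr_loc hP bi bj (show 2 < P.K by omega) h]
    exact std_row2 hP _ (by norm_num) (by norm_num) (by omega)
  · have h1 := arr_loc hP bi (bj + 1) (show 2 < P.K by omega) (show j - P.K < P.K by omega)
    rw [show bj * P.K + j = (bj + 1) * P.K + (j - P.K) by
      have h2 : (bj + 1) * P.K = bj * P.K + P.K := by ring
      omega, h1]
    exact std_row2 hP _ (by norm_num) (by norm_num) (by omega)

end Pool.Agent.MP_fadef1_lc
end

section

/-! Lanes entering a block from above outside the wires. -/

namespace Pool.Agent.MP_fadef1_lc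

variable {P : Par} {D : Data} {z g : ℕ}

private theorem StE1_L0 {I J : ℕ} (h : P.arr I J = false) :
    nxt D P.arr ⟨I, J, Lane.L 42 z⟩ = some ⟨I, J + 1, Lane.L 42 z⟩ := by
  simp [nxt, gstep, h, Pos.out]

private theorem StE1_L1 {I J : ℕ} (h : P.arr I J = true) :
    nxt D P.arr ⟨I, J, Lane.L 42 z⟩ = some ⟨I + 1, J, Lane.T z⟩ := by
  simp [nxt, gstep, h, Pos.out]

private theorem StE1_V {I J : ℕ} (hm : D.mort = true) (h : P.arr I J = false) (hg : g + 1 < 42) :
    nxt D P.arr ⟨I, J, Lane.L (g + 1) z⟩ = some ⟨I, J + 1, Lane.L g z⟩ := by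
  have h1 : g + 1 ≠ 42 := by omega
  have h2 : ¬ (g + 1 = 43 ∨ 84 < g + 1) := by omega
  simp only [nxt, gstep, h, hm, if_neg h1, if_neg h2, Nat.add_sub_cancel]
  simp [Pos.out]

private theorem StE1_V0 {I J : ℕ} (hm : D.mort = true) (h : P.arr I J = false) :
    nxt D P.arr ⟨I, J, Lane.L 0 z⟩ = some ⟨I + 1, J, Lane.T z⟩ := by
  simp [nxt, gstep, h, hm, Pos.out]

private theorem StE1_mort {I J : ℕ} (hm : D.mort = false) (hg : g ≠ 42) :
    nxt D P.arr ⟨I, J, Lane.L g z⟩ = none := by
  simp [nxt, gstep, hm, hg]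

private theorem StE1_W0 (hP : P.Ok) {b : Bool} {c : ℕ} (h1 : c ≠ P.Q + 13) (h2 : c < P.Q + 100) :
    P.W0 b c = false := by
  by_contra h
  rw [Bool.not_eq_false] at h
  rcases W0_far hP h with h3 | h3
  · exact h1 h3.2
  · omega

private theorem StE1_zero (hP : P.Ok) {bi bj j : ℕ} (h1 : P.arr bi bj = true) (hj0 : 1 ≤ j)
    (hj : j ≤ 42) : P.arr (bi * P.K) (bj * P.K + j) = false := by
  have hK := K_pos hP
  have h2 := arr_loc hP bi bj (i := 0) (j := j) (by omega) (by omega)
  rw [add_zero, h1] at h2
  rw [h2]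
  unfold Par.bit Par.bx
  have h3 : P.zrow true (0 / 6) = false := by simp [Par.zrow]
  have h4 : (true && decide (0 = 0 ∧ P.K ≤ j + P.K - 0 - 1 ∧ j + P.K - 0 - 1 ≤ P.K + 41)) =
      true := by
    rw [Bool.true_and, decide_eq_true_eq]
    omega
  rw [if_pos (by norm_num), if_neg (by rw [h3]; simp), if_pos h4]

private theorem StE1_wall (hP : P.Ok) {bi bj : ℕ} (h1 : P.arr bi bj = true) :
    P.arr (bi * P.K) (bj * P.K + 43) = true := by
  have hK := K_pos hP
  have hKQ := K_eq P
  have h2 := arr_loc hP bi bj (i := 0) (j := 43) (by omega) (by omega)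
  rw [add_zero, h1] at h2
  rw [h2]
  unfold Par.bit Par.bx
  have h3 : P.zrow true (0 / 6) = false := by simp [Par.zrow]
  have h4 : ¬ ((true && decide (0 = 0 ∧ P.K ≤ 43 + P.K - 0 - 1 ∧ 43 + P.K - 0 - 1 ≤ P.K + 41)) =
      true) := by
    simp only [Bool.true_and, decide_eq_true_eq]
    omega
  have h5 : (43 + P.K - 0 - 1) % 3 = 0 := by omega
  have h6 : (43 + P.K - 0 - 1) / 3 = P.Q + 14 := by omega
  rw [if_pos (by norm_num), if_neg (by rw [h3]; simp), if_neg h4, if_pos h5, h6]
  unfold Par.cl
  have h7 : P.W true (0 / 6) (P.Q + 14) = false := by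
    change P.W0 true (P.Q + 14) = false
    exact StE1_W0 hP (by omega) (by omega)
  rw [h7]
  rfl

/-- `L 42` in the first row of a block of type 1: it passes the zeros `1..42`, goes down at column
`43`, which is a wall cell, and is in the L phase at `(1, 43)` -/
theorem zl_dies (hP : P.Ok) (hD : D.Ok) (bi bj : ℕ) (h1 : P.arr bi bj = true) (hz : z < D.w) :
    Dies D P.arr ⟨bi * P.K, bj * P.K + 1, Lane.L 42 z⟩ := by
  have hK := K_pos hP
  have hKQ := K_eq P
  have run : ∀ n ≤ 42, Reach D P.arr ⟨bi * P.K, bj * P.K + 1, Lane.L 42 z⟩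
      ⟨bi * P.K, bj * P.K + 1 + n, Lane.L 42 z⟩ := by
    intro n hn
    induction n with
    | zero => exact Relation.ReflTransGen.refl
    | succ n ih =>
      refine (ih (by omega)).tail ?_
      have h2 := StE1_zero hP h1 (j := 1 + n) (by omega) (by omega)
      rw [← add_assoc] at h2
      exact StE1_L0 h2
  refine dies_of_reach (run 42 le_rfl) ?_
  have h43 : bj * P.K + 1 + 42 = bj * P.K + 43 := by omega
  rw [h43]
  refine dies_of_nxt (StE1_L1 (StE1_wall hP h1)) ?_
  apply lph1 hP hD
  · rw [kd_loc hP bi bj (by omega)]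
    omega
  · rw [row_mod hP]
  · exact hz
  · exact r2_top hP bi bj (j := 46) (by omega) (by omega)
  · intro _ k hk
    have h2 := FrT_top hP bi bj (i := 5 + k) (j := 49 + k) (by omega) (by omega) (by omega) (by
      rw [h1]
      apply StE1_W0 hP
      · omega
      · omega)
    have e1 : bi * P.K + 1 + 4 + k = bi * P.K + (5 + k) := by omega
    have e2 : bj * P.K + 43 + 6 + k = bj * P.K + (49 + k) := by omega
    rw [e1, e2]
    exact h2

/-- `L g`, `g ≤ 41`, in the first row of a block of type 1 in column `1`: it goes down at column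
`1 + g` in T phase if `g % 3 = 2` -/
theorem zv_dies (hP : P.Ok) (hD : D.Ok) (bi bj : ℕ) (h1 : P.arr bi bj = true) (hz : z < D.w)
    (hg : g ≤ 38) (hg3 : g % 3 = 2) :
    Dies D P.arr ⟨bi * P.K, bj * P.K + 1, Lane.L g z⟩ := by
  have hK := K_pos hP
  have hKQ := K_eq P
  rcases Bool.eq_false_or_eq_true D.mort with hm | hm
  · have run : ∀ n ≤ g, Reach D P.arr ⟨bi * P.K, bj * P.K + 1, Lane.L g z⟩
        ⟨bi * P.K, bj * P.K + 1 + n, Lane.L (g - n) z⟩ := by
      intro n hn
      induction n with
      | zero => exact Relation.ReflTransGen.refl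
      | succ n ih =>
        refine (ih (by omega)).tail ?_
        have h2 := StE1_zero hP h1 (j := 1 + n) (by omega) (by omega)
        rw [← add_assoc] at h2
        obtain ⟨m, hm'⟩ : ∃ m, g - n = m + 1 := ⟨g - n - 1, by omega⟩
        have h3 : g - (n + 1) = m := by omega
        rw [hm', h3]
        exact StE1_V hm h2 (by omega)
    refine dies_of_reach (run g le_rfl) ?_
    rw [Nat.sub_self]
    have h2 := StE1_zero hP h1 (j := 1 + g) (by omega) (by omega)
    rw [← add_assoc] at h2
    refine dies_of_nxt (StE1_V0 hm h2) ?_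
    have e0 : bj * P.K + 1 + g = bj * P.K + (1 + g) := by omega
    rw [e0]
    apply tph hP hD
    · rw [kd_loc hP bi bj (by omega)]
      omega
    · exact hz
    · intro k hk
      rw [row_mod hP] at hk
      have h3 := FrT_top hP bi bj (i := 1 + k) (j := 1 + g + k) (by omega) (by omega) (by omega)
        (by
          rw [h1]
          apply StE1_W0 hP
          · omega
          · omega)
      have e1 : bi * P.K + 1 + k = bi * P.K + (1 + k) := by omega
      have e2 : bj * P.K + (1 + g) + k = bj * P.K + (1 + g + k) := by omega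
      rw [e1, e2]
      exact h3
  · exact dies_of_none (StE1_mort hm (by omega))

end Pool.Agent.MP_fadef1_lc
end

section

/-! Lanes entering a block from above outside the wires. -/

namespace Pool.Agent.MP_fadef1_lc

variable {P : Par} {D : Data} {z g : ℕ}

private theorem StE_kd (hP : P.Ok) (bi bj j : ℕ) :
    kd (bi * P.K) (bj * P.K + j) = (j + P.K - 1) % 3 := by
  have hK := K_pos hP
  have h := kd_loc hP (i := 0) (j := j) bi bj (by omega)
  rw [add_zero] at h
  rw [h]
  congr 1

private theorem StE_row (hP : P.Ok) (bi : ℕ) : (bi * P.K) % 6 = 0 := by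
  have h := row_mod hP bi 0
  rw [add_zero] at h
  rw [h]

private theorem StE_ex (hP : P.Ok) {k : ℕ} (hk : k < P.N) :
    P.ex 42 k + 2 * (P.base 42 + k) + 1 = 2 * P.Q ∧ 2 * (P.base 42 + k) + 100 ≤ P.Q ∧
      20 ≤ P.base 42 := by
  obtain ⟨h1, h2, h3, h4⟩ := Ok_bounds hP
  have hb : P.base 42 = P.H0 + 42 * P.Hs := rfl
  have hQ : P.Q = 2 * P.QQ := rfl
  have hH : P.H0 = 2 * P.N + 20 := rfl
  unfold Par.ex
  omega

/-- the wires at the top -/
private theorem StE_W0 (hP : P.Ok) {b : Bool} {c : ℕ} (h : P.W0 b c = true) :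
    (b = true ∧ c = P.Q + 13) ∨ ∃ k < P.N, c = P.ex 42 k := by
  unfold Par.W0 at h
  rw [Bool.or_eq_true, Bool.and_eq_true, decide_eq_true_eq, List.any_eq_true] at h
  rcases h with ⟨k, hk, h⟩ | h
  · right
    rw [decide_eq_true_eq] at h
    exact ⟨k, List.mem_range.mp hk, h⟩
  · exact Or.inl h

/-- no entries in the first superbands -/
private theorem StE_entry (hP : P.Ok) {b : Bool} {A : ℕ} (hA : A < 4) :
    P.entry b A ≠ true := by
  have hH : P.H0 = 2 * P.N + 20 := rfl
  unfold Par.entry
  have : ¬ P.H0 ≤ A := by omega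
  simp [this]

/-- free channels at the top, also in the block to the right -/
private theorem StE_FrT (hP : P.Ok) (bi bj : ℕ) {i j : ℕ} (hi : i < 24) (hj : j < P.K + 20)
    (hkd : (j + P.K - i - 1) % 3 = 1)
    (hW : P.W0 (P.arr bi bj) ((j + P.K - i - 1) / 3) = false) :
    FrT P (bi * P.K + i) (bj * P.K + j) := by
  have hK := K_pos hP
  have hKQ := K_eq P
  rcases Nat.lt_or_ge j P.K with h | h
  · exact FrT_top hP bi bj hi h hkd hW
  · have h2 := FrT_path hP bi (bj + 1) (i0 := i) (j0 := j - P.K) (k := 0) (by omega) (by omega)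
      (by omega) (by
        intro A' hA' _ he
        exact absurd he (StE_entry hP (by omega)))
    have e : (bj + 1) * P.K + (j - P.K) + 0 = bj * P.K + j := by
      rw [Nat.add_mul, one_mul]
      omega
    rw [e, add_zero] at h2
    exact h2

theorem strayT_w (hP : P.Ok) (hD : D.Ok) (bi bj : ℕ) {j : ℕ} (hj : j < P.K) (hz : z < D.w)
    (hk : j % 3 = 1) : Dies D P.arr ⟨bi * P.K, bj * P.K + j, Lane.T z⟩ := by
  have hK := K_pos hP
  have hKQ := K_eq P
  apply wph hP hD
  · rw [StE_kd hP]
    omega
  · exact hz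
  · left
    exact StE_row hP bi

theorem strayT_T (hP : P.Ok) (hD : D.Ok) (bi bj : ℕ) {j : ℕ} (hj : j < P.K) (hz : z < D.w)
    (hk : j % 3 = 2) (h : ∀ k < P.N, j ≠ P.K - 1 - 6 * (P.base 42 + k)) :
    Dies D P.arr ⟨bi * P.K, bj * P.K + j, Lane.T z⟩ := by
  have hK := K_pos hP
  have hKQ := K_eq P
  rcases Bool.eq_false_or_eq_true (P.W0 (P.arr bi bj) ((j + P.K - 1) / 3)) with hW | hW
  · rcases StE_W0 hP hW with ⟨h1, h2⟩ | ⟨k, hk', h2⟩
    · apply dieT_r0 hP hD (StE_row hP bi) hz
      have h3 : j = 41 := by omega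
      subst h3
      have h4 := arr_loc hP bi bj (i := 0) (j := 41) (by omega) (by omega)
      rw [add_zero, h1] at h4
      rw [h4]
      unfold Par.bit
      have h5 := (gb0 hP true (A := 0) (x := 41 + P.K - 0 - 1) (by omega)).mpr
        (Or.inr ⟨rfl, rfl, by omega, by omega⟩)
      exact h5
    · have h3 := StE_ex hP hk'
      exact absurd (by omega) (h k hk')
  · apply tph hP hD
    · rw [StE_kd hP]
      omega
    · exact hz
    · intro k hk'
      rw [StE_row hP] at hk'
      have e1 : (j + k + P.K - k - 1) = j + P.K - 1 := by omega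
      have h2 := StE_FrT hP bi bj (i := k) (j := j + k) (by omega) (by omega)
        (by rw [e1]; omega) (by rw [e1]; exact hW)
      rw [← add_assoc] at h2
      exact h2

theorem strayT_L (hP : P.Ok) (hD : D.Ok) (bi bj : ℕ) {j : ℕ} (hj : j < P.K) (hz : z < D.w)
    (hk : j % 3 = 0) : Dies D P.arr ⟨bi * P.K, bj * P.K + j, Lane.T z⟩ := by
  have hK := K_pos hP
  have hKQ := K_eq P
  have hz0 : ∀ b, P.zrow b 0 = false := by
    intro b
    have hH : P.H0 = 2 * P.N + 20 := rfl
    unfold Par.zrow
    have : ¬ P.H0 ≤ 0 := by omega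
    simp [this]
  by_cases h0 : j = 0 ∧ P.arr bi bj = true
  · obtain ⟨rfl, h1⟩ := h0
    have h2 := arr_loc hP bi bj (i := 0) (j := 0) (by omega) (by omega)
    rw [add_zero, add_zero, h1] at h2
    have h3 : P.bit true 0 0 = true := by
      unfold Par.bit
      by_contra hc
      rw [Bool.not_eq_true] at hc
      rcases (gb0 hP true (A := 0) (x := 0 + P.K - 0 - 1) (by omega)).mp hc with h4 | h4
      · rw [hz0] at h4
        exact absurd h4 (by simp)
      · omega
    rw [h3] at h2
    rw [add_zero]
    refine dies_of_nxt (q := ⟨bi * P.K, bj * P.K + 1, Lane.L 42 z⟩) ?_ (zl_dies hP hD bi bj h1 hz)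
    simp [nxt, gstep, h2, Pos.out]
  · apply lph0 hP hD
    · rw [StE_kd hP]
      omega
    · exact StE_row hP bi
    · exact hz
    · intro h1 h2
      have hj3 : j + 2 < P.K := by omega
      have a0 := arr_loc hP bi bj (i := 0) (j := j) (by omega) (by omega)
      have a2 := arr_loc hP bi bj (i := 0) (j := j + 2) (by omega) (by omega)
      rw [add_zero, h1] at a0
      rw [add_zero, ← add_assoc] at a2
      rw [a2]
      by_contra hc
      rw [Bool.not_eq_true] at hc
      unfold Par.bit at hc a0
      rcases (gb0 hP (P.arr bi bj) (A := 0) (x := j + 2 + P.K - 0 - 1) (by omega)).mp hc with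
        h4 | ⟨h4, -, h5, h6⟩
      · rw [hz0] at h4
        exact absurd h4 (by simp)
      · have h7 := (gb0 hP (P.arr bi bj) (A := 0) (x := j + P.K - 0 - 1) (by omega)).mpr
          (Or.inr ⟨h4, rfl, by
            have : j ≠ 0 := fun h => h0 ⟨h, h4⟩
            omega, by omega⟩)
        change P.bx (P.arr bi bj) 0 (j + P.K - 0 - 1) = false at h7
        rw [h7] at a0
        exact absurd a0 (by simp)
    · have h2 := r2_top hP bi bj (j := j + 4) (by omega) (by omega)
      rw [← add_assoc] at h2
      exact h2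
    · intro h1 k hk'
      have e1 : bi * P.K + 5 + k = bi * P.K + (5 + k) := by omega
      have e2 : bj * P.K + j + 7 + k = bj * P.K + (j + 7 + k) := by omega
      rw [e1, e2]
      have e3 : j + 7 + k + P.K - (5 + k) - 1 = j + 1 + P.K := by omega
      apply StE_FrT hP bi bj (by omega) (by omega)
      · rw [e3]
        omega
      · rw [e3]
        by_contra hc
        rw [Bool.not_eq_false] at hc
        have hj9 : j + 9 ≤ P.K := by
          rcases StE_W0 hP hc with ⟨-, h2⟩ | ⟨k', hk2, h2⟩
          · omega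
          · have h3 := StE_ex hP hk2
            omega
        have e4 : j + 6 + P.K - 4 - 1 = j + 1 + P.K := by omega
        have h5 := W_top hP (P.arr bi bj) (i := 4) (j := j + 6) (by omega) (by omega)
          (by rw [e4]; omega) (by norm_num) (by rw [e4]; exact hc)
        have h6 := arr_loc hP bi bj (i := 4) (j := j + 6) (by omega) (by omega)
        rw [h5, ← add_assoc, h1] at h6
        exact absurd h6 (by simp)

theorem stray_T (hP : P.Ok) (hD : D.Ok) (bi bj : ℕ) {j : ℕ} (hj : j < P.K) (hz : z < D.w)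
    (h : ∀ k < P.N, j ≠ P.K - 1 - 6 * (P.base 42 + k)) :
    Dies D P.arr ⟨bi * P.K, bj * P.K + j, Lane.T z⟩ := by
  have h3 : j % 3 = 0 ∨ j % 3 = 1 ∨ j % 3 = 2 := by omega
  rcases h3 with h3 | h3 | h3
  · exact strayT_L hP hD bi bj hj hz h3
  · exact strayT_w hP hD bi bj hj hz h3
  · exact strayT_T hP hD bi bj hj hz h3 h

end Pool.Agent.MP_fadef1_lc
end

section

/-! Chains in row phase 0. -/

namespace Pool.Agent.MP_fadef1_lc

variable {P : Par} {i j bi bj : ℕ} {p : Pos}

private theorem nx0_nxt {X : ℕ → ℕ → Bool} {I J : ℕ} {s s' : Lane}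
    (h : gstep data0 (X I J) s = some s') :
    nxt data0 X ⟨I, J, s⟩ = some (Pos.out ⟨I, J, s⟩ s') := by
  unfold nxt
  simp only [h, Option.map_some]

private theorem nx0_arr (hP : P.Ok) (hi : i < P.K) (hj : j < P.K) {x : ℕ}
    (hx : x = j + P.K - i - 1) {v : Bool} (h : P.bx (P.arr bi bj) i x = v) :
    P.arr (bi * P.K + i) (bj * P.K + j) = v := by
  rw [arr_loc hP bi bj hi hj]
  unfold Par.bit
  rw [← hx, h]

/-- zero row: next cell to the right, at `j = K-1` the border cell below; row `0` of type 1: to
the right, `(0,40)` to `(1,41)`; wall: `(i+1, j+1)` (wall or border cell). -/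
theorem nx_0 (hP : P.Ok) (hi : i < P.K) (hj : j < P.K)
    (hr : i % 6 = 0)
    (hs : Str P (bi * P.K + i, bj * P.K + j) p) (hd : ¬ Dies data0 P.arr p) :
    Goes P (bi * P.K + i, bj * P.K + j) := by
  have hK6 : P.K = 6 * P.QQ := rfl
  have hKpos := K_pos hP
  have hi1 : i + 1 < P.K := by omega
  obtain ⟨h0, t, hc⟩ := (str_loc hP hi hj).1 hs
  have hA : i / 6 < P.QQ := by omega
  have hV := va_all hP (P.arr bi bj) (i / 6) hA
  have hr1 : (i + 1) % 6 = 1 := by omega
  have hd6 : (i + 1) / 6 = i / 6 := by omega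
  have hQ : P.Q = 2 * P.QQ := rfl
  obtain ⟨x, hx⟩ : ∃ x, x = j + P.K - i - 1 := ⟨_, rfl⟩
  obtain ⟨b, hb⟩ : ∃ b, b = P.arr bi bj := ⟨_, rfl⟩
  rw [← hx, ← hb] at h0
  rw [← hb] at hc hV
  unfold Par.cls at hc
  rw [if_pos hr, ← hx] at hc
  by_cases hz : P.zrow b (i / 6) = true
  · -- zero row
    rw [if_pos hz] at hc
    have hp : p = ⟨bi * P.K + i, bj * P.K + j, Lane.L 42 0⟩ := by
      simp only [Cl.s.injEq] at hc; exact hc.1.symm
    subst hp
    have a0 : P.arr (bi * P.K + i) (bj * P.K + j) = false :=
      nx0_arr hP hi hj hx (by rw [← hb]; exact h0)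
    have n1 := nx0_nxt (X := P.arr) (I := bi * P.K + i) (J := bj * P.K + j)
      (s := Lane.L 42 0) (s' := Lane.L 42 0) (by rw [a0]; rfl)
    have hnd : ¬ Dies data0 P.arr ⟨bi * P.K + i, bj * P.K + j + 1, Lane.L 42 0⟩ :=
      fun hD => hd (dies_of_nxt n1 hD)
    rcases Nat.lt_or_ge (j + 1) P.K with hj1 | hj1
    · refine ⟨(bi * P.K + i, bj * P.K + (j + 1)), _, ?_, hnd, ?_⟩
      · refine (str_loc hP hi hj1).2 ⟨?_, ?_⟩
        · rw [← hb]
          unfold Par.bx
          rw [if_pos hr, if_pos hz]
        · rw [← hb]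
          unfold Par.cls
          rw [if_pos hr, if_pos hz]
          exact ⟨0, rfl⟩
      · left
        refine ⟨rfl, ?_, ?_⟩ <;> simp only <;> omega
    · refine ⟨(bi * P.K + (i + 1), bj * P.K + j), _, ?_, hnd, ?_⟩
      · refine (str_loc hP hi1 hj).2 ⟨?_, ?_⟩
        · rw [← hb]
          unfold Par.bx
          rw [if_neg (by omega), if_pos hr1]
          have : (j + P.K - (i + 1) - 1) % 3 = 0 := by omega
          simp [this]
        · rw [← hb]
          unfold Par.cls
          rw [if_neg (by omega), if_pos hr1, if_pos (by omega), hd6, if_pos (Or.inr hz)]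
          exact ⟨1, rfl⟩
      · right
        refine ⟨rfl, rfl, ?_, ?_⟩
        · show kd (bi * P.K + i) (bj * P.K + j) ≠ 0
          rw [kd_loc hP bi bj hi]
          omega
        · show kd (bi * P.K + (i + 1)) (bj * P.K + j) = 0
          rw [kd_loc hP bi bj hi1]
          omega
  · rw [if_neg hz] at hc
    by_cases hsp : b = true ∧ i = 0 ∧ P.K ≤ x ∧ x ≤ P.K + 41
    · -- extra lane
      rw [if_pos hsp] at hc
      obtain ⟨hbt, hi0, hx1, hx2⟩ := hsp
      subst hi0
      split_ifs at hc with hx3
      have hp : p = ⟨bi * P.K + 0, bj * P.K + j, Lane.L (P.K + 41 - x) 0⟩ := by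
        simp only [Cl.s.injEq] at hc; exact hc.1.symm
      subst hp
      have hrow : ∀ j' : ℕ, j' < P.K → 1 ≤ j' → j' ≤ 42 →
          P.arr (bi * P.K + 0) (bj * P.K + j') = false := by
        intro j' h1 h2 h3
        refine nx0_arr hP hi h1 rfl ?_
        rw [← hb, hbt]
        unfold Par.bx
        rw [if_pos (by omega)]
        split_ifs with q1 q2
        · rfl
        · rfl
        · exfalso
          apply q2
          simp
          omega
        · exfalso
          apply q2
          simp
          omega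
      have a0 := hrow j hj (by omega) (by omega)
      obtain ⟨g, hg⟩ : ∃ g, P.K + 41 - x = g + 2 := ⟨P.K + 39 - x, by omega⟩
      have hgs : ∀ g' : ℕ, g' < 41 → gstep data0 false (Lane.L (g' + 1) 0) =
          some (Lane.L g' 0) := by
        intro g' h'
        have hm : ¬ data0.mort = false := by simp [data0, dataOf]
        simp only [gstep]
        rw [if_neg (by omega), if_neg hm, if_neg (by simp), if_neg (by omega),
          if_neg (by omega)]
        rfl
      have n1 := nx0_nxt (X := P.arr) (I := bi * P.K + 0) (J := bj * P.K + j)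
        (s := Lane.L (g + 1 + 1) 0) (s' := Lane.L (g + 1) 0)
        (by rw [a0]; exact hgs (g + 1) (by omega))
      rcases Nat.lt_or_ge x (P.K + 39) with hx4 | hx4
      · refine ⟨(bi * P.K + 0, bj * P.K + (j + 1)), ⟨bi * P.K + 0, bj * P.K + j + 1,
          Lane.L (g + 1) 0⟩, ?_, ?_, ?_⟩
        · have hj1 : j + 1 < P.K := by omega
          refine (str_loc hP hi hj1).2 ⟨?_, ?_⟩
          · have := hrow (j + 1) hj1 (by omega) (by omega)
            rw [arr_loc hP bi bj hi hj1] at this
            exact this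
          · rw [← hb]
            unfold Par.cls
            rw [if_pos hr, if_neg hz, if_pos ⟨hbt, rfl, by omega, by omega⟩, if_pos (by omega)]
            refine ⟨0, ?_⟩
            have : P.K + 41 - (j + 1 + P.K - 0 - 1) = g + 1 := by omega
            rw [this]
            rfl
        · intro hD
          apply hd
          rw [hg]
          exact dies_of_nxt n1 hD
        · left
          refine ⟨rfl, ?_, ?_⟩ <;> simp only <;> omega
      · -- `(0,40)` to `(1,41)`
        have hg0 : g = 0 := by omega
        subst hg0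
        have hj40 : j = 40 := by omega
        subst hj40
        have hj1 : 40 + 1 < P.K := by omega
        refine ⟨(bi * P.K + (0 + 1), bj * P.K + (40 + 1)), ⟨bi * P.K + (0 + 1),
          bj * P.K + (40 + 1) + 1, Lane.T 0⟩, ?_, ?_, ?_⟩
        · refine (str_loc hP hi1 hj1).2 ⟨?_, ?_⟩
          · rw [← hb]
            unfold Par.bx
            rw [if_neg (by omega), if_pos (by omega)]
            have : (40 + 1 + P.K - (0 + 1) - 1) % 3 = 0 := by omega
            simp only [this, decide_true, Bool.not_true]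
          · rw [← hb]
            unfold Par.cls
            rw [if_neg (by omega), if_pos (by omega), if_neg (by omega)]
            have e1 : (40 + 1 + P.K - (0 + 1) - 1) / 3 = P.Q + 13 := by omega
            have e0 : (0 + 1) / 6 = 0 := rfl
            have hcl : P.cl b 0 (P.Q + 13) = true := by
              unfold Par.cl
              have ht := (top_zone hP b (A := 0) (by omega)).1
              rw [ht]
              have hW : P.W b 0 (P.Q + 13) = true := by
                show P.W0 b (P.Q + 13) = true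
                unfold Par.W0
                rw [hbt]
                simp
              rw [hW]
              simp [isCut, Ev.non]
            rw [e1, e0, if_pos hcl]
            exact ⟨0, rfl⟩
        · intro hD
          apply hd
          rw [hg]
          have a1 := hrow (40 + 1) (by omega) (by omega) (by omega)
          have a2 := hrow (40 + 1 + 1) (by omega) (by omega) (by omega)
          have n2 := nx0_nxt (X := P.arr) (I := bi * P.K + 0) (J := bj * P.K + (40 + 1))
            (s := Lane.L (0 + 1) 0) (s' := Lane.L 0 0) (by rw [a1]; exact hgs 0 (by omega))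
          have n3 := nx0_nxt (X := P.arr) (I := bi * P.K + 0) (J := bj * P.K + (40 + 1 + 1))
            (s := Lane.L 0 0) (s' := Lane.T 0) (by rw [a2]; rfl)
          refine dies_of_nxt n1 (dies_of_nxt n2 (dies_of_nxt n3 ?_))
          exact hD
        · left
          refine ⟨rfl, ?_, ?_⟩ <;> simp only <;> omega
    · -- wall
      rw [if_neg hsp] at hc
      have hp : p = ⟨bi * P.K + i, bj * P.K + j + 1, Lane.T 0⟩ := by
        simp only [Cl.s.injEq] at hc; exact hc.1.symm
      subst hp
      have hsp' : ∀ y : ℕ, ¬ (i = 0 ∧ P.K ≤ y ∧ y ≤ P.K + 41) ∨ b = false →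
          P.bx b i y = (if y % 3 = 0 then !P.cl b (i / 6) (y / 3) else true) := by
        intro y hy
        unfold Par.bx
        rw [if_pos hr, if_neg hz, if_neg]
        intro h
        simp only [Bool.and_eq_true, decide_eq_true_eq] at h
        rcases hy with hy | hy
        · exact hy h.2
        · rw [hy] at h; exact absurd h.1 (by simp)
      have hbx : P.bx b i x = (if x % 3 = 0 then !P.cl b (i / 6) (x / 3) else true) := by
        apply hsp'
        by_cases hbt : b = true
        · left; rintro ⟨q1, q2, q3⟩; exact hsp ⟨hbt, q1, q2, q3⟩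
        · right; simpa using hbt
      rw [hbx] at h0
      have hx3 : x % 3 = 0 := by
        by_contra hne
        rw [if_neg hne] at h0
        exact absurd h0 (by simp)
      have hcl : P.cl b (i / 6) (x / 3) = true := by
        rw [if_pos hx3] at h0; simpa using h0
      have hnear : ∀ y : ℕ, y = x + 1 ∨ y = x + 2 → P.bx b i y = true := by
        intro y hy
        rw [hsp', if_neg (by omega)]
        by_cases hbt : b = true
        · left; rintro ⟨q1, q2, q3⟩
          exact hsp ⟨hbt, q1, by omega, by omega⟩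
        · right; simpa using hbt
      have hj1 : j + 1 < P.K := by omega
      have a1 : P.arr (bi * P.K + i) (bj * P.K + (j + 1)) = true :=
        nx0_arr hP hi hj1 rfl (by rw [← hb]; exact hnear _ (by omega))
      have n1 := nx0_nxt (X := P.arr) (I := bi * P.K + i) (J := bj * P.K + (j + 1))
        (s := Lane.T 0) (s' := Lane.L 42 0) (by rw [a1]; rfl)
      rcases Nat.lt_or_ge (j + 2) P.K with hj2 | hj2
      · have a2 : P.arr (bi * P.K + i) (bj * P.K + (j + 2)) = true :=
          nx0_arr hP hi hj2 rfl (by rw [← hb]; exact hnear _ (by omega))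
        have n2 := nx0_nxt (X := P.arr) (I := bi * P.K + i) (J := bj * P.K + (j + 2))
          (s := Lane.L 42 0) (s' := Lane.T 0) (by rw [a2]; rfl)
        refine ⟨(bi * P.K + (i + 1), bj * P.K + (j + 1)), ⟨bi * P.K + (i + 1),
          bj * P.K + (j + 1) + 1, Lane.T 0⟩, ?_, ?_, ?_⟩
        · refine (str_loc hP hi1 hj1).2 ⟨?_, ?_⟩
          · rw [← hb]
            unfold Par.bx
            rw [if_neg (by omega), if_pos hr1]
            have : (j + 1 + P.K - (i + 1) - 1) % 3 = 0 := by omega
            simp [this]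
          · rw [← hb]
            unfold Par.cls
            have e1 : j + 1 + P.K - (i + 1) - 1 = x := by omega
            rw [if_neg (by omega), if_pos hr1, if_neg (by omega), hd6, e1, if_pos hcl]
            exact ⟨0, rfl⟩
        · intro hD
          apply hd
          refine dies_of_nxt n1 (dies_of_nxt n2 ?_)
          exact hD
        · left
          refine ⟨rfl, ?_, ?_⟩ <;> simp only <;> omega
      · refine ⟨(bi * P.K + (i + 1), bj * P.K + (j + 1)), ⟨bi * P.K + i,
          bj * P.K + (j + 1) + 1, Lane.L 42 0⟩, ?_, ?_, ?_⟩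
        · refine (str_loc hP hi1 hj1).2 ⟨?_, ?_⟩
          · rw [← hb]
            unfold Par.bx
            rw [if_neg (by omega), if_pos hr1]
            have : (j + 1 + P.K - (i + 1) - 1) % 3 = 0 := by omega
            simp [this]
          · rw [← hb]
            unfold Par.cls
            have hW : P.W b (i / 6) (P.exitc (i / 6)) = true := by
              unfold Par.cl at hcl
              have e2 : x / 3 = P.exitc (i / 6) := by unfold Par.exitc; omega
              rw [e2] at hcl
              simp only [Bool.and_eq_true] at hcl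
              exact hcl.1
            rw [if_neg (by omega), if_pos hr1, if_pos (by omega), hd6, if_pos (Or.inl hW)]
            exact ⟨1, rfl⟩
        · intro hD
          apply hd
          refine dies_of_nxt n1 ?_
          exact hD
        · left
          refine ⟨rfl, ?_, ?_⟩ <;> simp only <;> omega

end Pool.Agent.MP_fadef1_lc
end
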