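import Pool.Agent.Lib.MP_fadef1_lc.Mg.G015
import Pool.Agent.Lib.MP_fadef1_lc.Mg.G013

section

/-! Lanes entering a block from the left outside the wires. -/

namespace Pool.Agent.MP_fadef1_lc

variable {P : Par} {D : Data} {z g A : ℕ}

private theorem sf2_down {X : ℕ → ℕ → Bool} {i j : ℕ} (h : X i j = true) :
    nxt D X ⟨i, j, Lane.L 42 z⟩ = some ⟨i + 1, j, Lane.T z⟩ := by
  simp [nxt, gstep, h, Pos.out]

/-- T cell `(6A+4, 0)` is `1`, T phase from row `6A+5` on, channel `entc A - 1` -/
theorem strayL_3 (hP : P.Ok) (hD : D.Ok) (bi bj : ℕ) (hA : A < P.QQ) (hz : z < D.w) :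
    Dies D P.arr ⟨bi * P.K + (6 * A + 3), bj * P.K, Lane.L 42 z⟩ := by
  have hK : P.K = 6 * P.QQ := rfl
  have hQ : P.Q = 2 * P.QQ := rfl
  have k1 := kd_loc hP (i := 6 * A + 3) (j := 0) bi bj (by omega)
  have k2 := kd_loc hP (i := 6 * A + 4) (j := 0) bi bj (by omega)
  have k3 := kd_loc hP (i := 6 * A + 4) (j := 1) bi bj (by omega)
  have k4 := kd_loc hP (i := 6 * A + 5) (j := 1) bi bj (by omega)
  rw [add_zero] at k1 k2
  have m1 := row_mod hP bi (6 * A + 3)
  have m2 := row_mod hP bi (6 * A + 4)
  have m3 := row_mod hP bi (6 * A + 5)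
  refine dies_of_nxt (sf2_down (gb3 hP (by omega) (by omega))) ?_
  change Dies D P.arr ⟨bi * P.K + (6 * A + 4), bj * P.K, Lane.T z⟩
  refine dies_of_reach (stepTL (gb4c hP (by omega) (by omega) (by simp))
    (gb4 hP (by omega) (by omega))) ?_
  refine tph hP hD (I := bi * P.K + (6 * A + 5)) (J := bj * P.K + 1) (by omega) hz ?_
  intro k hk
  have hk' : k ≤ 11 := by
    rw [m3] at hk
    omega
  refine FrT_path hP bi bj (by omega) (by omega) (by omega) ?_
  intro A' _ hA' _
  unfold Par.entc
  omega

/-- wall phase in row `6A+5` -/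
theorem strayL_4 (hP : P.Ok) (hD : D.Ok) (bi bj : ℕ) (hA : A < P.QQ) (hz : z < D.w) :
    Dies D P.arr ⟨bi * P.K + (6 * A + 4), bj * P.K, Lane.L 42 z⟩ := by
  have hK : P.K = 6 * P.QQ := rfl
  have k2 := kd_loc hP (i := 6 * A + 4) (j := 0) bi bj (by omega)
  have k3 := kd_loc hP (i := 6 * A + 5) (j := 0) bi bj (by omega)
  rw [add_zero] at k2 k3
  have m2 := row_mod hP bi (6 * A + 4)
  have m3 := row_mod hP bi (6 * A + 5)
  refine dies_of_nxt (sf2_down (gb4c hP (by omega) (by omega) (by simp))) ?_
  exact wph hP hD (I := bi * P.K + (6 * A + 5)) (J := bj * P.K) (by omega) hz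
    (Or.inr (Or.inr (by omega)))

/-- `(6A+5, 0)` is an open wall cell, L phase in row `6A+6` (`lph0`; for `A + 1 = QQ` use
`strayT_L` with `j = 0`) -/
theorem strayL_5 (hP : P.Ok) (hD : D.Ok) (bi bj : ℕ) (hA : A < P.QQ) (hz : z < D.w) :
    Dies D P.arr ⟨bi * P.K + (6 * A + 5), bj * P.K, Lane.L 42 z⟩ := by
  have hK : P.K = 6 * P.QQ := rfl
  have hQ : P.Q = 2 * P.QQ := rfl
  have h5 := open_path hP bi bj (i0 := 6 * A + 5) (j0 := 0) (k := 0) (by omega) (by omega)
    (by omega) (by
      intro A' _ hA' _
      unfold Par.entc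
      omega) (by omega) (by omega)
  rw [add_zero, add_zero, add_zero] at h5
  refine dies_of_nxt (sf2_down h5) ?_
  rcases Nat.lt_or_ge (A + 1) P.QQ with hA1 | hA1
  · have k1 := kd_loc hP (i := 6 * A + 6) (j := 0) bi bj (by omega)
    rw [add_zero] at k1
    have m1 := row_mod hP bi (6 * A + 6)
    refine lph0 hP hD (I := bi * P.K + (6 * A + 6)) (J := bj * P.K) (by omega) (by omega) hz
      ?_ ?_ ?_
    · intro h0 _
      have e0 := arr_loc hP bi bj (i := 6 * A + 6) (j := 0) (by omega) (by omega)
      have e2 := arr_loc hP bi bj (i := 6 * A + 6) (j := 2) (by omega) (by omega)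
      rw [add_zero, h0] at e0
      rw [e2]
      unfold Par.bit at e0 ⊢
      have g0 := gb0 hP (P.arr bi bj) (A := A + 1) (x := 0 + P.K - (6 * A + 6) - 1) (by omega)
      have g2 := gb0 hP (P.arr bi bj) (A := A + 1) (x := 2 + P.K - (6 * A + 6) - 1) (by omega)
      have e6 : 6 * (A + 1) = 6 * A + 6 := by ring
      rw [e6] at g0 g2
      by_contra hne
      rw [Bool.not_eq_true] at hne
      rcases g2.1 hne with h | ⟨_, h, _⟩
      · rw [g0.2 (Or.inl h)] at e0
        exact absurd e0 (by simp)
      · omega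
    · have := r2_path hP bi bj (i := 6 * A + 8) (j := 4) (by omega) (by omega) (by omega)
        (by omega)
      exact this
    · intro _ k hk
      have := FrT_path hP bi bj (i0 := 6 * A + 11) (j0 := 7) (k := k) (by omega) (by omega)
        (by omega) (by
          intro A' _ hA' _
          unfold Par.entc
          omega)
      exact this
  · have e : bi * P.K + (6 * A + 5) + 1 = (bi + 1) * P.K := by
      rw [add_mul, one_mul]
      omega
    have := strayT_L hP hD (bi + 1) bj (j := 0) (z := z) (by omega) hz (by omega)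
    rw [add_zero] at this
    rw [e]
    exact this

end Pool.Agent.MP_fadef1_lc
end

section

/-! Lanes entering a block from the left outside the wires. -/

namespace Pool.Agent.MP_fadef1_lc

variable {P : Par} {D : Data} {z g A : ℕ}

private theorem StF_mort {X : ℕ → ℕ → Bool} {I J : ℕ} (hm : D.mort = false) (hg : g ≠ 42) :
    nxt D X ⟨I, J, Lane.L g z⟩ = none := by
  simp [nxt, gstep, hm, hg]

private theorem StF_V {X : ℕ → ℕ → Bool} {I J : ℕ} (hm : D.mort = true) (h : X I J = false)
    (h42 : g ≠ 42) (h0 : g ≠ 0) (h43 : g ≠ 43) (h84 : g ≤ 84) :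
    nxt D X ⟨I, J, Lane.L g z⟩ = some ⟨I, J + 1, Lane.L (g - 1) z⟩ := by
  have h1 : ¬ (g = 43 ∨ 84 < g) := by omega
  simp [nxt, gstep, h, hm, h42, h0, h1, Pos.out]

private theorem StF_V0 {X : ℕ → ℕ → Bool} {I J : ℕ} (hm : D.mort = true) (h : X I J = false) :
    nxt D X ⟨I, J, Lane.L 0 z⟩ = some ⟨I + 1, J, Lane.T z⟩ := by
  simp [nxt, gstep, h, hm, Pos.out]

private theorem StF_43 {X : ℕ → ℕ → Bool} {I J : ℕ} (h : X I J = false) :
    nxt D X ⟨I, J, Lane.L 43 z⟩ = none := by
  simp [nxt, gstep, h]

private theorem StF_T1 {X : ℕ → ℕ → Bool} {I J : ℕ} (h : X I J = true) :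
    nxt D X ⟨I, J, Lane.T z⟩ = some ⟨I, J + 1, Lane.L 42 z⟩ := by
  simp [nxt, gstep, h, Pos.out]

private theorem StF_L0 {X : ℕ → ℕ → Bool} {I J : ℕ} (h : X I J = false) :
    nxt D X ⟨I, J, Lane.L 42 z⟩ = some ⟨I, J + 1, Lane.L 42 z⟩ := by
  simp [nxt, gstep, h, Pos.out]

private theorem StF_L1 {X : ℕ → ℕ → Bool} {I J : ℕ} (h : X I J = true) :
    nxt D X ⟨I, J, Lane.L 42 z⟩ = some ⟨I + 1, J, Lane.T z⟩ := by
  simp [nxt, gstep, h, Pos.out]

private theorem StF_bit (hP : P.Ok) (bi bj : ℕ) {i j : ℕ} (hi : i < P.K) (hj : j < P.K) :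
    P.arr (bi * P.K + i) (bj * P.K + j) = P.bx (P.arr bi bj) i (j + P.K - i - 1) :=
  arr_loc hP bi bj hi hj

/-- the superbands after a zero row -/
private theorem StF_zr (hP : P.Ok) {b : Bool} (hA : A < P.QQ) (hzr : P.zrow b A = true) :
    b = false ∧ A + 50 ≤ P.QQ ∧ ∀ e ≤ 2, P.ev b (A + e) = Ev.non ∧ P.entry b (A + e) = false ∧
      ∀ c, P.W b (A + e) c = false := by
  obtain ⟨o1, o2, o3, o4⟩ := Ok_bounds hP
  have h0 := hzr
  unfold Par.zrow at h0
  rw [Bool.and_eq_true, Bool.and_eq_true, Bool.and_eq_true, decide_eq_true_eq, decide_eq_true_eq,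
    decide_eq_true_eq, Bool.not_eq_true'] at h0
  obtain ⟨⟨⟨hb, h1⟩, h2⟩, h3⟩ := h0
  have h4 := Nat.div_add_mod (A - P.H0) P.Hs
  rw [h3] at h4
  have hH : P.H0 = 2 * P.N + 20 := rfl
  have key : ∀ e ≤ 2, P.ev b (A + e) = Ev.non ∧ P.entry b (A + e) = false := by
    intro e he
    have e1 : A + e - P.H0 = P.Hs * 42 + ((A - P.H0) % P.Hs + e) := by omega
    have e2 : (A - P.H0) % P.Hs + e < P.Hs := by omega
    have e3 : (A + e - P.H0) / P.Hs = 42 := by
      rw [e1, Nat.mul_add_div (by omega), Nat.div_eq_of_lt e2]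
    have e4 : (A + e - P.H0) % P.Hs = (A - P.H0) % P.Hs + e := by
      rw [e1, Nat.mul_add_mod, Nat.mod_eq_of_lt e2]
    constructor
    · unfold Par.ev
      rw [if_neg (by omega), if_neg (by omega), if_pos (by rw [e4]; omega)]
    · unfold Par.entry
      rw [e3, hb]
      simp [entStrip]
  refine ⟨hb, by omega, fun e he => ⟨(key e he).1, (key e he).2, ?_⟩⟩
  induction e with
  | zero => exact ((va_all hP b A hA).zr hzr).1
  | succ e ih =>
    intro c
    by_contra hc
    rw [Bool.not_eq_false] at hc
    rw [← add_assoc] at hc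
    rcases W_succ.mp hc with h5 | ⟨h5, -⟩
    · unfold Par.W' at h5
      rw [(key e (by omega)).1, ih (by omega) c] at h5
      simp [isDst, Ev.non] at h5
    · have := (key (e + 1) he).2
      rw [← add_assoc, h5] at this
      exact absurd this (by simp)

/-- no wires in the superband -/
private theorem StF_free (hP : P.Ok) (bi bj : ℕ) {A' i j : ℕ} (hb : P.arr bi bj = false)
    (hev : P.ev (P.arr bi bj) A' = Ev.non) (hW : ∀ c, P.W (P.arr bi bj) A' c = false)
    (hi : i < P.K) (hiA : i / 6 = A') (hj : j + 1 < P.K) (hkd : (j + P.K - i - 1) % 3 = 1) :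
    FrT P (bi * P.K + i) (bj * P.K + j) := by
  have e1 : j + 1 + P.K - i - 1 = (j + P.K - i - 1) + 1 := by omega
  have h1 := StF_bit hP bi bj hi (show j < P.K by omega)
  have h2 := StF_bit hP bi bj hi hj
  rw [e1, ← add_assoc] at h2
  unfold FrT
  rw [row_mod hP, h1, h2]
  refine ⟨fun hr h3 => ?_, fun hr => ?_, fun hr => ?_⟩
  · have hi6 : i = 6 * A' := by omega
    rw [hi6] at h3 hkd ⊢
    by_contra hc
    rw [Bool.not_eq_true] at hc
    rcases (gb0 hP (P.arr bi bj) (A := A') (x := j + P.K - 6 * A' - 1 + 1) (by omega)).mp hc with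
      h4 | ⟨h4, -⟩
    · have h5 := (gb0 hP (P.arr bi bj) (A := A') (x := j + P.K - 6 * A' - 1) (by omega)).mpr
        (Or.inl h4)
      rw [h5] at h3
      exact absurd h3 (by simp)
    · rw [hb] at h4
      exact absurd h4 (by simp)
  · have hs : ∀ c, sym (P.ev (P.arr bi bj) (i / 6)) c = 0 := by
      intro c
      rw [hiA, hev]
      simp [sym, Ev.non]
    have h5 : (j + P.K - i - 1 + 1) % 3 ≠ 0 := by omega
    constructor
    · unfold Par.bx
      rw [if_neg (by omega), if_neg (by omega), if_pos hr, if_pos (hs _), if_neg (by omega)]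
    · unfold Par.bx
      rw [if_neg (by omega), if_neg (by omega), if_pos hr, if_pos (hs _), if_neg h5]
  · by_cases h5 : j = 0
    · right
      rw [h5, add_zero, Nat.mul_mod_left]
    · left
      unfold Par.bx
      rw [if_neg (by omega), if_neg (by omega), if_neg (by omega), if_neg (by omega), if_pos hr,
        if_neg (by omega), if_pos hkd]
      have h6 : P.W' (P.arr bi bj) (i / 6) ((j + P.K - i - 1) / 3) = false := by
        unfold Par.W'
        rw [hiA, hev, hW]
        simp [isDst, Ev.non]
      have h7 : ¬ (j + P.K - i - 1 + i + 1 = P.K) := by omega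
      rw [h6]
      simp [h7]

/-- Lanes `g < 42` along a zero row: they go down at column `g`; the block has type 0 and no wires
in the superbands `A`, `A+1`, `A+2` (except entering ones, which do not exist in strip 42). -/
theorem strayV_zrow (hP : P.Ok) (hD : D.Ok) (bi bj : ℕ) (hA : A < P.QQ) (hz : z < D.w)
    (hg : g < 42) (hzr : P.zrow (P.arr bi bj) A = true) :
    Dies D P.arr ⟨bi * P.K + 6 * A, bj * P.K, Lane.L g z⟩ := by
  have hK := K_pos hP
  have hKQ := K_eq P
  have hK6 : P.K = 6 * P.QQ := rfl
  obtain ⟨hb, hAQ, hall⟩ := StF_zr hP hA hzr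
  rcases Bool.eq_false_or_eq_true D.mort with hm | hm
  · have hzero : ∀ j ≤ 41, P.arr (bi * P.K + 6 * A) (bj * P.K + j) = false := by
      intro j hj
      rw [StF_bit hP bi bj (by omega) (by omega)]
      unfold Par.bx
      have h1 : 6 * A / 6 = A := by omega
      rw [if_pos (by omega), h1, if_pos hzr]
    have run : ∀ n ≤ g, Reach D P.arr ⟨bi * P.K + 6 * A, bj * P.K, Lane.L g z⟩
        ⟨bi * P.K + 6 * A, bj * P.K + n, Lane.L (g - n) z⟩ := by
      intro n hn
      induction n with
      | zero => exact Relation.ReflTransGen.refl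
      | succ n ih =>
        refine (ih (by omega)).tail ?_
        have h3 : g - (n + 1) = g - n - 1 := by omega
        rw [h3]
        exact StF_V hm (hzero n (by omega)) (by omega) (by omega) (by omega) (by omega)
    refine dies_of_reach (run g le_rfl) ?_
    rw [Nat.sub_self]
    refine dies_of_nxt (StF_V0 hm (hzero g (by omega))) ?_
    change Dies D P.arr ⟨bi * P.K + (6 * A + 1), bj * P.K + g, Lane.T z⟩
    have hkd := kd_loc hP (i := 6 * A + 1) (j := g) bi bj (by omega)
    have hrow := row_mod hP bi (6 * A + 1)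
    have h3 : g % 3 = 0 ∨ g % 3 = 1 ∨ g % 3 = 2 := by omega
    rcases h3 with h3 | h3 | h3
    · apply tph hP hD
      · rw [hkd]
        omega
      · exact hz
      · intro k hk
        have hk9 : k ≤ 9 := by omega
        have e1 : bi * P.K + (6 * A + 1) + k = bi * P.K + (6 * A + 1 + k) := by omega
        have e2 : bj * P.K + g + k = bj * P.K + (g + k) := by omega
        rw [e1, e2]
        obtain ⟨h5, -, h6⟩ := hall ((1 + k) / 6) (by omega)
        exact StF_free hP bi bj hb h5 h6 (by omega) (by omega) (by omega) (by omega)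
    · apply lph1 hP hD
      · rw [hkd]
        omega
      · omega
      · exact hz
      · have e1 : bi * P.K + (6 * A + 1) + 1 = bi * P.K + (6 * A + 2) := by omega
        have e2 : bj * P.K + g + 3 = bj * P.K + (g + 3) := by omega
        rw [e1, e2, StF_bit hP bi bj (by omega) (by omega)]
        have h5 : (6 * A + 2) / 6 = A := by omega
        have h6 := (hall 0 (by omega)).1
        rw [add_zero] at h6
        unfold Par.bx
        rw [if_neg (by omega), if_neg (by omega), if_pos (by omega), h5, h6,
          if_pos (by simp [sym, Ev.non]), if_neg (by omega)]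
      · intro _ k hk
        have e1 : bi * P.K + (6 * A + 1) + 4 + k = bi * P.K + (6 * A + 5 + k) := by omega
        have e2 : bj * P.K + g + 6 + k = bj * P.K + (g + 6 + k) := by omega
        rw [e1, e2]
        obtain ⟨h5, -, h6⟩ := hall ((5 + k) / 6) (by omega)
        exact StF_free hP bi bj hb h5 h6 (by omega) (by omega) (by omega) (by omega)
    · apply wph hP hD
      · rw [hkd]
        omega
      · exact hz
      · omega
  · exact dies_of_none (StF_mort hm (by omega))

/-- row phase 2 with the wire entered -/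
private theorem StF_r2 (hP : P.Ok) (hD : D.Ok) (bi bj : ℕ) (hA : A < P.QQ) (hz : z < D.w)
    (hg : g ≤ 84) (h42 : g ≠ 42) (hm : D.mort = true)
    (h0 : P.arr (bi * P.K + (6 * A + 2)) (bj * P.K) = false) :
    Dies D P.arr ⟨bi * P.K + (6 * A + 2), bj * P.K, Lane.L g z⟩ := by
  have hK := K_pos hP
  have hKQ := K_eq P
  have hK6 : P.K = 6 * P.QQ := rfl
  have h1 := r2_path hP bi bj (i := 6 * A + 2) (j := 1) (by omega) (by omega) (by omega)
    (by omega)
  have h2 := r2_path hP bi bj (i := 6 * A + 2) (j := 2) (by omega) (by omega) (by omega)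
    (by omega)
  by_cases hg0 : g = 0
  · subst hg0
    refine dies_of_nxt (StF_V0 hm h0) ?_
    change Dies D P.arr ⟨bi * P.K + (6 * A + 3), bj * P.K, Lane.T z⟩
    have k1 := kd_loc hP (i := 6 * A + 3) (j := 0) bi bj (by omega)
    have k2 := kd_loc hP (i := 6 * A + 3) (j := 2) bi bj (by omega)
    rw [add_zero] at k1
    have m1 := row_mod hP bi (6 * A + 3)
    refine dies_of_nxt (StF_T1 (gb3 hP (by omega) (by omega))) ?_
    -- the wire
    have hx : 3 * ((P.K - 6 * A - 3) / 3) = P.K - 6 * A - 3 := by omega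
    set c := (P.K - 6 * A - 3) / 3 with hc
    obtain ⟨n1, n2, n3, n4, n5⟩ := near_left_ev hP (P.arr bi bj) (A := A) (c := c) hA (by omega)
    have hcl : P.cl (P.arr bi bj) A c = true := by
      have h3 := StF_bit hP bi bj (i := 6 * A + 2) (j := 0) (by omega) (by omega)
      rw [add_zero, h0] at h3
      have e1 : 0 + P.K - (6 * A + 2) - 1 = P.K - 6 * A - 3 := by omega
      have e2 : (6 * A + 2) / 6 = A := by omega
      rw [e1] at h3
      unfold Par.bx at h3
      rw [if_neg (by omega), if_neg (by omega), if_pos (by omega), e2, ← hc, if_pos n1,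
        if_pos (by omega)] at h3
      simpa using h3.symm
    have hW : P.W (P.arr bi bj) A c = true := by
      unfold Par.cl at hcl
      rw [Bool.and_eq_true] at hcl
      exact hcl.1
    have hcl4 : P.cl4 (P.arr bi bj) A c = true := by
      unfold Par.cl4 Par.W'
      have h4 : c ≠ P.exitc A := by
        unfold Par.exitc
        omega
      rw [hW, n2, n3, n5]
      simp [h4]
    have hcl3 : P.cl3 (P.arr bi bj) A c = true := by
      unfold Par.cl3
      rw [hcl4]
      rfl
    have b1 : P.arr (bi * P.K + (6 * A + 3)) (bj * P.K + 1) = false := by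
      rw [StF_bit hP bi bj (by omega) (by omega)]
      have e1 : 1 + P.K - (6 * A + 3) - 1 = P.K - 6 * A - 3 := by omega
      have e2 : (6 * A + 3) / 6 = A := by omega
      rw [e1]
      unfold Par.bx
      rw [if_neg (by omega), if_neg (by omega), if_neg (by omega), if_pos (by omega), e2, ← hc,
        if_pos (by omega), hcl3]
      rfl
    have b2 : P.arr (bi * P.K + (6 * A + 4)) (bj * P.K + 2) = false := by
      rw [StF_bit hP bi bj (by omega) (by omega)]
      have e1 : 2 + P.K - (6 * A + 4) - 1 = P.K - 6 * A - 3 := by omega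
      have e2 : (6 * A + 4) / 6 = A := by omega
      rw [e1]
      unfold Par.bx
      rw [if_neg (by omega), if_neg (by omega), if_neg (by omega), if_neg (by omega),
        if_pos (by omega), e2, ← hc, if_pos (by omega), hcl4]
      rfl
    refine dies_of_nxt (StF_L0 b1) ?_
    refine dies_of_nxt (StF_L1 (gb3 hP (I := bi * P.K + (6 * A + 3)) (J := bj * P.K + 2)
      (by omega) (by omega))) ?_
    have m2 := row_mod hP bi (6 * A + 4)
    exact dieT_r hP (I := bi * P.K + (6 * A + 4)) (J := bj * P.K + 2) (by omega) (by omega) b2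
  by_cases hg43 : g = 43
  · subst hg43
    exact dies_of_none (StF_43 h0)
  refine dies_of_nxt (StF_V hm h0 h42 hg0 hg43 hg) ?_
  exact die_short hD (by omega) (by omega) hz h1 (Or.inl h2)

/-- the other lanes `g ≠ 42` (cell `(i,0)` is `0` only in zero rows and, if the wire has entered,
in row phase 2; in the latter case `L 0` goes down to `(6A+3, 0)`, an L cell; then `(6A+3,1)` is
closed and the lane meets the closed wall cell `(6A+4, 2)`) -/
theorem strayL_g (hP : P.Ok) (hD : D.Ok) (bi bj : ℕ) {i : ℕ} (hi : i < P.K) (hz : z < D.w)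
    (hg : g ≤ 84) (h42 : g ≠ 42) : Dies D P.arr ⟨bi * P.K + i, bj * P.K, Lane.L g z⟩ := by
  have hK := K_pos hP
  have hKQ := K_eq P
  have hK6 : P.K = 6 * P.QQ := rfl
  have hQ : P.Q = 2 * P.QQ := rfl
  rcases Bool.eq_false_or_eq_true D.mort with hm | hm
  swap
  · exact dies_of_none (StF_mort hm h42)
  have k0 := kd_loc hP (i := i) (j := 0) bi bj hi
  have k1 := kd_loc hP (i := i) (j := 1) bi bj hi
  have k2 := kd_loc hP (i := i) (j := 2) bi bj hi
  rw [add_zero] at k0
  have hrow := row_mod hP bi i
  have h6 : i % 6 = 0 ∨ i % 6 = 1 ∨ i % 6 = 2 ∨ i % 6 = 3 ∨ i % 6 = 4 ∨ i % 6 = 5 := by omega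
  rcases h6 with h6 | h6 | h6 | h6 | h6 | h6
  · obtain ⟨A, rfl⟩ : ∃ A, i = 6 * A := ⟨i / 6, by omega⟩
    rcases Bool.eq_false_or_eq_true (P.zrow (P.arr bi bj) A) with hzr | hzr
    · rcases Nat.lt_or_ge g 42 with h | h
      · exact strayV_zrow hP hD bi bj (by omega) hz h hzr
      · have hA0 : 0 < A := by
          have h0 := hzr
          unfold Par.zrow at h0
          rw [Bool.and_eq_true, Bool.and_eq_true, Bool.and_eq_true, decide_eq_true_eq] at h0
          have hH : P.H0 = 2 * P.N + 20 := rfl
          have := h0.1.1.2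
          omega
        have h1 := zrow_kill hP hD bi bj (A := A) (j := 0) (g := g) (by omega) hA0 (by omega) hg
          (by omega) hz (Or.inr rfl)
        rw [add_zero] at h1
        exact h1
    · have c0 : P.arr (bi * P.K + 6 * A) (bj * P.K) = true := by
        have h1 := StF_bit hP bi bj (i := 6 * A) (j := 0) hi (by omega)
        rw [add_zero] at h1
        rw [h1]
        by_contra hc
        rw [Bool.not_eq_true] at hc
        rcases (gb0 hP (P.arr bi bj) (A := A) (x := 0 + P.K - 6 * A - 1) (by omega)).mp hc with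
          h4 | ⟨h4, h5, h7, h8⟩
        · rw [hzr] at h4
          exact absurd h4 (by simp)
        · omega
      rcases Nat.lt_or_ge g 42 with h | h
      · exact dieV h c0
      · by_cases hbA : P.arr bi bj = true ∧ A = 0
        · obtain ⟨hb, rfl⟩ := hbA
          rcases slot_out hD hg (show 43 ≤ g by omega) hz c0 with h1 | ⟨g', z', h1, h2, h3, h4⟩
          · exact h1
          · refine dies_of_nxt h4 ?_
            exact zv_dies hP hD bi bj hb h3 h1 h2
        · have c2 : P.arr (bi * P.K + 6 * A) (bj * P.K + 2) = true := by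
            have h1 := StF_bit hP bi bj (i := 6 * A) (j := 2) hi (by omega)
            rw [h1]
            by_contra hc
            rw [Bool.not_eq_true] at hc
            rcases (gb0 hP (P.arr bi bj) (A := A) (x := 2 + P.K - 6 * A - 1)
              (by omega)).mp hc with h4 | ⟨h4, h5, h7, h8⟩
            · rw [hzr] at h4
              exact absurd h4 (by simp)
            · exact hbA ⟨h4, h5⟩
          exact die_short hD hg h42 hz c0 (Or.inr c2)
  · have c0 : P.arr (bi * P.K + i) (bj * P.K) = true := by
      rw [gb1 hP (by omega), k0]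
      have : (0 + P.K - i - 1) % 3 ≠ 0 := by omega
      rw [decide_eq_false this]
      rfl
    have c1 : P.arr (bi * P.K + i) (bj * P.K + 1) = true := by
      rw [gb1 hP (by omega), k1]
      have : (1 + P.K - i - 1) % 3 ≠ 0 := by omega
      rw [decide_eq_false this]
      rfl
    exact die_short hD hg h42 hz c0 (Or.inl c1)
  · obtain ⟨A, rfl⟩ : ∃ A, i = 6 * A + 2 := ⟨i / 6, by omega⟩
    rcases Bool.eq_false_or_eq_true (P.arr (bi * P.K + (6 * A + 2)) (bj * P.K)) with h0 | h0
    · have h1 := r2_path hP bi bj (i := 6 * A + 2) (j := 1) (by omega) (by omega) (by omega)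
        (by omega)
      exact die_short hD hg h42 hz h0 (Or.inl h1)
    · exact StF_r2 hP hD bi bj (by omega) hz hg h42 hm h0
  · exact die_short hD hg h42 hz (gb3 hP (by omega) (by omega))
      (Or.inr (gb3 hP (by omega) (by omega)))
  · exact die_short hD hg h42 hz (gb4c hP (by omega) (by omega) (Nat.mul_mod_left _ _))
      (Or.inl (gb4 hP (by omega) (by omega)))
  · obtain ⟨A, rfl⟩ : ∃ A, i = 6 * A + 5 := ⟨i / 6, by omega⟩
    have h5 := open_path hP bi bj (i0 := 6 * A + 5) (j0 := 0) (k := 0) (by omega) (by omega)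
      (by omega) (by
        intro A' hA' _ _
        unfold Par.entc
        omega) (by omega) (by omega)
    rw [add_zero, add_zero, add_zero] at h5
    exact die_short hD hg h42 hz h5 (Or.inl (gb5 hP (by omega) (by omega)))

theorem stray_L (hP : P.Ok) (hD : D.Ok) (bi bj : ℕ) {i : ℕ} (hi : i < P.K) (hz : z < D.w)
    (hg : g ≤ 84) (h : ¬ (g = 42 ∧ i % 6 = 0 ∧ (P.entry (P.arr bi bj) (i / 6) = true ∨
      P.zrow (P.arr bi bj) (i / 6) = true))) :
    Dies D P.arr ⟨bi * P.K + i, bj * P.K, Lane.L g z⟩ := by
  have hK6 : P.K = 6 * P.QQ := rfl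
  by_cases h42 : g = 42
  swap
  · exact strayL_g hP hD bi bj hi hz hg h42
  subst h42
  have h6 : i % 6 = 0 ∨ i % 6 = 1 ∨ i % 6 = 2 ∨ i % 6 = 3 ∨ i % 6 = 4 ∨ i % 6 = 5 := by omega
  rcases h6 with h6 | h6 | h6 | h6 | h6 | h6
  · obtain ⟨A, rfl⟩ : ∃ A, i = 6 * A := ⟨i / 6, by omega⟩
    have e1 : 6 * A / 6 = A := by omega
    rw [e1] at h
    apply strayL_0 hP hD bi bj (by omega) hz
    · by_contra hc
      rw [Bool.not_eq_false] at hc
      exact h ⟨rfl, h6, Or.inl hc⟩
    · by_contra hc
      rw [Bool.not_eq_false] at hc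
      exact h ⟨rfl, h6, Or.inr hc⟩
  · obtain ⟨A, rfl⟩ : ∃ A, i = 6 * A + 1 := ⟨i / 6, by omega⟩
    exact strayL_1 hP hD bi bj (by omega) hz
  · obtain ⟨A, rfl⟩ : ∃ A, i = 6 * A + 2 := ⟨i / 6, by omega⟩
    exact strayL_2 hP hD bi bj (by omega) hz
  · obtain ⟨A, rfl⟩ : ∃ A, i = 6 * A + 3 := ⟨i / 6, by omega⟩
    exact strayL_3 hP hD bi bj (by omega) hz
  · obtain ⟨A, rfl⟩ : ∃ A, i = 6 * A + 4 := ⟨i / 6, by omega⟩
    exact strayL_4 hP hD bi bj (by omega) hz
  · obtain ⟨A, rfl⟩ : ∃ A, i = 6 * A + 5 := ⟨i / 6, by omega⟩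
    exact strayL_5 hP hD bi bj (by omega) hz

end Pool.Agent.MP_fadef1_lc
end

section

/-! Blocks of type 1: passing lanes. -/

namespace Pool.Agent.MP_fadef1_lc

variable {P : Par} {D D' : Data} {p q : Pos}

private theorem embB_T (P : Par) (w i j l : ℕ) : P.emb w ⟨i, j, Lane.T l⟩ =
    (inT P (P.N - 1 - l / w) (l % w)).sh (i * P.K) (j * P.K) := rfl

private theorem embB_Td (P : Par) (w i j l : ℕ) : P.emb w ⟨i + 1, j, Lane.T l⟩ =
    (outT P (P.N - 1 - l / w) (l % w)).sh (i * P.K) (j * P.K) := by
  unfold Par.emb Pos.sh outT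
  simp only
  rw [Nat.succ_mul]

private theorem embB_L (P : Par) (w i j g l : ℕ) (hg : g ≠ 85) : P.emb w ⟨i, j, Lane.L g l⟩ =
    (inL P (84 - g) (P.N - 1 - l / w) (l % w)).sh (i * P.K) (j * P.K) := by
  unfold Par.emb Pos.sh inL
  simp only
  rw [if_neg hg]
  rfl

private theorem embB_Lr (P : Par) (w i j g l : ℕ) (hg : g ≠ 85) :
    P.emb w ⟨i, j + 1, Lane.L g l⟩ =
    (outL P (84 - g) (P.N - 1 - l / w) (l % w)).sh (i * P.K) (j * P.K) := by
  unfold Par.emb Pos.sh outL
  simp only
  rw [if_neg hg, Nat.succ_mul j P.K]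

private theorem embB_Z (P : Par) (w i j l : ℕ) : P.emb w ⟨i, j, Lane.L 85 l⟩ =
    (⟨0, 0, Lane.L 85 0⟩ : Pos).sh (i * P.K) (j * P.K) := rfl

private theorem blkB_lift (hP : P.Ok) {i j : ℕ} (hb : P.arr i j = true)
    (h : LReach P D true p q) :
    Reach D P.arr (p.sh (i * P.K) (j * P.K)) (q.sh (i * P.K) (j * P.K)) := by
  apply lreach_lift hP i j
  rw [hb]
  exact h

private theorem blkB_bd {w N l : ℕ} (hN : 1 ≤ N) (hw : 0 < w) (hl : l < N * w) :
    l / w < N ∧ N - 1 - l / w < N ∧ l % w < w ∧ N - 1 - (N - 1 - l / w) = l / w := by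
  have h1 : l / w < N := Nat.div_lt_of_lt_mul (by rw [Nat.mul_comm]; exact hl)
  have h2 := Nat.mod_lt l hw
  generalize l / w = a at h1 ⊢
  refine ⟨h1, by omega, h2, by omega⟩

theorem blk1_step (hP : P.Ok) (hD : D.Ok) (hN : Next P D D')
    (hs : p.s.Ok D'.w ∨ p.s = Lane.L 85 0)
    (hb : P.arr p.i p.j = true) (h : nxt D' P.arr p = some q) :
    Reach D P.arr (P.emb D.w p) (P.emb D.w q) := by
  obtain ⟨i, j, s⟩ := p
  simp only at hs hb
  unfold nxt at h
  simp only at h
  rw [hb, Option.map_eq_some_iff] at h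
  obtain ⟨s', hs', rfl⟩ := h
  have hN1 := hP.hN
  have hw := hD.1
  cases s with
  | T l =>
    have hl : l < P.N * D.w := by
      rcases hs with h1 | h1
      · rw [← hN.hw]
        exact h1
      · exact absurd h1 (by simp)
    obtain ⟨h1, h2, h3, h4⟩ := blkB_bd hN1 hw hl
    have e : s' = Lane.L 42 l := by
      simp only [gstep, if_true, Option.some.injEq] at hs'
      exact hs'.symm
    subst e
    show Reach D P.arr (P.emb D.w ⟨i, j, Lane.T l⟩) (P.emb D.w ⟨i, j + 1, Lane.L 42 l⟩)
    rw [embB_T, embB_Lr _ _ _ _ _ _ (by decide)]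
    exact blkB_lift hP hb (loc1_T hP hD h2 h3)
  | L g l =>
    by_cases hg42 : g = 42
    · subst hg42
      have hl : l < P.N * D.w := by
        rcases hs with h1 | h1
        · rw [← hN.hw]
          exact h1.2
        · exact absurd h1 (by simp)
      obtain ⟨h1, h2, h3, h4⟩ := blkB_bd hN1 hw hl
      have e : s' = Lane.T l := by
        simp only [gstep, if_true, Option.some.injEq] at hs'
        exact hs'.symm
      subst e
      show Reach D P.arr (P.emb D.w ⟨i, j, Lane.L 42 l⟩) (P.emb D.w ⟨i + 1, j, Lane.T l⟩)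
      rw [embB_Td, embB_L _ _ _ _ _ _ (by decide)]
      exact blkB_lift hP hb (loc1_c hP hD h2 h3)
    · unfold gstep at hs'
      simp only at hs'
      rw [if_neg hg42] at hs'
      cases hm : D'.mort with
      | false =>
        rw [hm, if_pos rfl] at hs'
        exact absurd hs' (by simp)
      | true =>
        have hm' : (D.mort && D.al) = true := by
          rw [← hN.hm]
          exact hm
        rw [hm, if_neg (by decide), if_pos trivial] at hs'
        by_cases hg85 : g = 85
        · subst hg85
          rw [if_pos rfl, Option.some.injEq] at hs'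
          subst hs'
          show Reach D P.arr (P.emb D.w ⟨i, j, Lane.L 85 l⟩)
            (P.emb D.w ⟨i, j + 1, Lane.L 41 (D'.w - 1)⟩)
          rw [embB_Z, embB_Lr _ _ _ _ _ _ (by decide)]
          have hNw : D'.w - 1 = (P.N - 1) * D.w + (D.w - 1) := by
            rw [hN.hw]
            obtain ⟨n, hn⟩ : ∃ n, P.N = n + 1 := ⟨P.N - 1, by omega⟩
            rw [hn, Nat.succ_mul, Nat.add_sub_cancel]
            omega
          have e1 : (D'.w - 1) / D.w = P.N - 1 := by
            rw [hNw, Nat.add_comm, Nat.mul_comm, Nat.add_mul_div_left _ _ hw,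
              Nat.div_eq_of_lt (by omega), Nat.zero_add]
          have e2 : (D'.w - 1) % D.w = D.w - 1 := by
            rw [hNw, Nat.add_comm, Nat.mul_comm, Nat.add_mul_mod_self_left,
              Nat.mod_eq_of_lt (by omega)]
          rw [e1, e2, Nat.sub_self]
          exact blkB_lift hP hb (loc1_Z hP hD hm')
        · rw [if_neg hg85] at hs'
          have hok : g ≤ 84 ∧ l < P.N * D.w := by
            rcases hs with h1 | h1
            · rw [← hN.hw]
              exact h1
            · simp only [Lane.L.injEq] at h1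
              exact absurd h1.1 hg85
          obtain ⟨hg84, hl⟩ := hok
          obtain ⟨h1, h2, h3, h4⟩ := blkB_bd hN1 hw hl
          by_cases hlt : g < 42
          · rw [if_pos hlt] at hs'
            exact absurd hs' (by simp)
          · rw [if_neg hlt] at hs'
            unfold slotStep at hs'
            by_cases hj3 : (g - 43) % 3 ≠ 2
            · rw [if_pos hj3] at hs'
              exact absurd hs' (by simp)
            · rw [if_neg hj3] at hs'
              by_cases hj2 : g - 43 = 2
              · rw [if_pos hj2] at hs'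
                cases hal : D'.al with
                | false =>
                  rw [hal, if_neg (by decide)] at hs'
                  exact absurd hs' (by simp)
                | true =>
                  rw [hal, if_pos rfl, Option.some.injEq] at hs'
                  subst hs'
                  have hg : g = 45 := by omega
                  subst hg
                  show Reach D P.arr (P.emb D.w ⟨i, j, Lane.L 45 l⟩)
                    (P.emb D.w ⟨i, j + 1, Lane.L 2 l⟩)
                  rw [embB_L _ _ _ _ _ _ (by decide), embB_Lr _ _ _ _ _ _ (by decide)]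
                  have hev := hN.hE1 hm hal (P.N - 1 - (P.N - 1 - l / D.w)) (l % D.w)
                    (by omega) h3
                  have hr := loc1_alive hP hD hm' h2 h3 (by omega) hev
                  have e : P.N - 1 - (P.N - 1 - (P.N - 1 - l / D.w)) = P.N - 1 - l / D.w := by
                    omega
                  rw [e] at hr
                  exact blkB_lift hP hb hr
              · rw [if_neg hj2] at hs'
                by_cases hjj : g - 43 ≤ 38 ∧ ((g - 43) / 3 - 1) % 3 ≠ 1
                · rw [if_pos hjj, Option.map_eq_some_iff] at hs'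
                  obtain ⟨⟨s1, l1⟩, hg1, hout⟩ := hs'
                  set d := ((g - 43) / 3 - 1) / 3 with hd
                  set s0 := (((g - 43) / 3 - 1) % 3) / 2 with hs0
                  have hd4 : d < 4 := by omega
                  have hs02 : s0 < 2 := by omega
                  have hokd := hN.hok.2 d s0 l s1 l1 hd4 hs02 (by rw [hN.hw]; exact hl) hg1
                  have hl1 : l1 < P.N * D.w := by
                    rw [← hN.hw]
                    exact hokd.2
                  obtain ⟨k1, k2, k3, k4⟩ := blkB_bd hN1 hw hl1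
                  have hev := hN.hG1 hm d s0 l s1 l1 hd4 hs02 hl hg1
                  unfold pack at hev
                  simp only at hev
                  rw [← h4] at hev
                  have ha' : s1 * P.N + l1 / D.w < 2 * P.N := by
                    have : s1 * P.N ≤ 1 * P.N := Nat.mul_le_mul_right _ (by omega)
                    omega
                  have hr := loc1_pair hP hD hm' hd4 hs02 h2 h3 ha' hev
                  have e1 : (s1 * P.N + l1 / D.w) / P.N = s1 := by
                    rw [Nat.add_comm, Nat.mul_comm, Nat.add_mul_div_left _ _ (by omega),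
                      Nat.div_eq_of_lt k1, Nat.zero_add]
                  have e2 : (s1 * P.N + l1 / D.w) % P.N = l1 / D.w := by
                    rw [Nat.add_comm, Nat.mul_comm, Nat.add_mul_mod_self_left,
                      Nat.mod_eq_of_lt k1]
                  rw [e1, e2] at hr
                  have e3 : tin d s0 = 84 - g := by
                    unfold tin
                    split_ifs
                    · omega
                    · omega
                  have e4 : tout d s1 = 84 - (3 * (1 + 3 * d + 2 * s1) + 2) := by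
                    unfold tout
                    split_ifs
                    · omega
                    · omega
                  rw [e3, e4] at hr
                  simp only at hout
                  subst hout
                  show Reach D P.arr (P.emb D.w ⟨i, j, Lane.L g l⟩)
                    (P.emb D.w ⟨i, j + 1, Lane.L (3 * (1 + 3 * d + 2 * s1) + 2) l1⟩)
                  rw [embB_L _ _ _ _ _ _ hg85, embB_Lr _ _ _ _ _ _ (by omega)]
                  exact blkB_lift hP hb hr
                · rw [if_neg hjj] at hs'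
                  exact absurd hs' (by simp)

end Pool.Agent.MP_fadef1_lc
end
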