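import Pool.Agent.Lib.MP_fadef1_lc.I.Base
import Pool.Agent.Lib.MP_fadef1_lc.Mg.G019
import Pool.Agent.Lib.MP_fadef1_lc.Mg.G026

section

/-! Steps of a lane inside a block: single steps and rows of a wire. -/

namespace Pool.Agent.MP_fadef1_lc

variable {P : Par} {D : Data} {b : Bool}

theorem K_eq (P : Par) : P.K = 3 * P.Q := by
  unfold Par.K Par.Q
  omega

theorem bit_ps (P : Par) (b : Bool) {i x : ℕ} (h : P.K ≤ i + x + 1) :
    P.bit b i (i + x + 1 - P.K) = P.bx b i x := by
  unfold Par.bit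
  have e : i + x + 1 - P.K + P.K - i - 1 = x := by omega
  rw [e]

section steps

variable {i x z : ℕ} (hi : i < P.K) (hlo : P.K ≤ i + x + 1) (hhi : i + x + 1 < 2 * P.K)

include hi hlo hhi

private theorem ra_step {s s' : Lane} {q : Pos}
    (h1 : gstep D (P.bx b i x) s = some s') (h2 : (P.ps i x s).out s' = q) :
    BStep P D b (P.ps i x s) q := by
  refine ⟨hi, ?_, ?_⟩
  · change i + x + 1 - P.K < P.K
    omega
  · unfold nxt
    change (gstep D (P.bit b i (i + x + 1 - P.K)) s).map (P.ps i x s).out = some q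
    rw [bit_ps P b hlo, h1, ← h2]
    rfl

private theorem ra_right {g z' : ℕ} {s : Lane} :
    (P.ps i x s).out (Lane.L g z') = P.ps i (x + 1) (Lane.L g z') := by
  have e : i + x + 1 - P.K + 1 = i + (x + 1) + 1 - P.K := by omega
  change (⟨i, i + x + 1 - P.K + 1, Lane.L g z'⟩ : Pos) = ⟨i, i + (x + 1) + 1 - P.K, Lane.L g z'⟩
  rw [e]

/-- `T` at a cell `1` -/
theorem ps_T1 (h : P.bx b i x = true) :
    BStep P D b (P.ps i x (Lane.T z)) (P.ps i (x + 1) (Lane.L 42 z)) := by
  refine ra_step hi hlo hhi (s' := Lane.L 42 z) ?_ (ra_right hi hlo hhi)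
  rw [h]; simp [gstep]

/-- `L 42` at a cell `1` -/
theorem ps_L1 (h : P.bx b i x = true) :
    BStep P D b (P.ps i x (Lane.L 42 z)) (⟨i + 1, i + x + 1 - P.K, Lane.T z⟩) := by
  refine ra_step hi hlo hhi (s' := Lane.T z) ?_ rfl
  rw [h]; simp [gstep]

/-- `L 42` at a cell `0` -/
theorem ps_L0 (h : P.bx b i x = false) :
    BStep P D b (P.ps i x (Lane.L 42 z)) (P.ps i (x + 1) (Lane.L 42 z)) := by
  refine ra_step hi hlo hhi (s' := Lane.L 42 z) ?_ (ra_right hi hlo hhi)
  rw [h]; simp [gstep]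

/-- `T` at a cell `0` -/
theorem ps_T0 (h : P.bx b i x = false) (hm : D.mort = true) :
    BStep P D b (P.ps i x (Lane.T z)) (P.ps i (x + 1) (Lane.L 84 z)) := by
  refine ra_step hi hlo hhi (s' := Lane.L 84 z) ?_ (ra_right hi hlo hhi)
  rw [h]; simp [gstep, hm]

/-- `L g` at a cell `0` -/
theorem ps_Lg {g : ℕ} (h : P.bx b i x = false) (hm : D.mort = true) (h0 : g ≠ 0) (h1 : g ≠ 42)
    (h2 : g ≠ 43) (h3 : g ≤ 84) :
    BStep P D b (P.ps i x (Lane.L g z)) (P.ps i (x + 1) (Lane.L (g - 1) z)) := by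
  refine ra_step hi hlo hhi (s' := Lane.L (g - 1) z) ?_ (ra_right hi hlo hhi)
  rw [h]; simp [gstep, hm, h0, h1, h2, h3]

/-- `L 0` at a cell `0` -/
theorem ps_Lz (h : P.bx b i x = false) (hm : D.mort = true) :
    BStep P D b (P.ps i x (Lane.L 0 z)) (⟨i + 1, i + x + 1 - P.K, Lane.T z⟩) := by
  refine ra_step hi hlo hhi (s' := Lane.T z) ?_ rfl
  rw [h]; simp [gstep, hm]

end steps

/-- `n` cells `0` in a row, decreasing lanes -/
theorem ps_zeros {i x z g : ℕ} (n : ℕ) (hi : i < P.K) (hlo : P.K ≤ i + x + 1)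
    (hhi : i + x + n < 2 * P.K) (hm : D.mort = true) (h : ∀ k < n, P.bx b i (x + k) = false)
    (hg : n ≤ g) (hg4 : g ≤ 84) (hr : g < 42 ∨ 43 + n ≤ g) :
    LReach P D b (P.ps i x (Lane.L g z)) (P.ps i (x + n) (Lane.L (g - n) z)) := by
  induction n with
  | zero => exact Relation.ReflTransGen.refl
  | succ n ih =>
    have ih' := ih (by omega) (fun k hk => h k (by omega)) (by omega) (by omega)
    refine ih'.tail ?_
    have h5 := ps_Lg (P := P) (D := D) (b := b) (i := i) (x := x + n) (z := z) (g := g - n) hi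
      (by omega) (by omega) (h n (by omega)) hm (by omega) (by omega) (by omega) (by omega)
    have e : g - n - 1 = g - (n + 1) := by omega
    rw [e] at h5
    exact h5

/-- `n` cells `0` in a row, `L 42` -/
theorem ps_zeros42 {i x z : ℕ} (n : ℕ) (hi : i < P.K) (hlo : P.K ≤ i + x + 1)
    (hhi : i + x + n < 2 * P.K) (h : ∀ k < n, P.bx b i (x + k) = false) :
    LReach P D b (P.ps i x (Lane.L 42 z)) (P.ps i (x + n) (Lane.L 42 z)) := by
  induction n with
  | zero => exact Relation.ReflTransGen.refl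
  | succ n ih =>
    have ih' := ih (by omega) (fun k hk => h k (by omega))
    refine ih'.tail ?_
    exact ps_L0 (P := P) (D := D) (b := b) (i := i) (x := x + n) (z := z) hi
      (by omega) (by omega) (h n (by omega))

end Pool.Agent.MP_fadef1_lc
end

section

/-! Rows of a wire. -/

namespace Pool.Agent.MP_fadef1_lc

variable {P : Par} {D : Data} {b : Bool}

/-- `P.ps` just below: `T` at the row `i+1` in the column of the cell `x` of row `i` -/
private theorem rw_below {i x z : ℕ} (h : P.K ≤ i + x + 1) (hx : 1 ≤ x) :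
    (⟨i + 1, i + x + 1 - P.K, Lane.T z⟩ : Pos) = P.ps (i + 1) (x - 1) (Lane.T z) := by
  have e : i + x + 1 - P.K = i + 1 + (x - 1) + 1 - P.K := by omega
  unfold Par.ps
  rw [e]

/-- a wire passes a row -/
theorem row_pass {i c z : ℕ} (hi : i < P.K) (hlo : P.K ≤ i + 3 * c + 2)
    (hhi : i + 3 * c + 3 < 2 * P.K) (hT : P.bx b i (3 * c + 1) = true)
    (hL : P.bx b i (3 * c + 2) = true) :
    LReach P D b (P.ps i (3 * c + 1) (Lane.T z)) (P.ps (i + 1) (3 * c + 1) (Lane.T z)) := by
  have h1 := ps_T1 (P := P) (D := D) (b := b) (i := i) (x := 3 * c + 1) (z := z) hi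
    (by omega) (by omega) hT
  have h2 := ps_L1 (P := P) (D := D) (b := b) (i := i) (x := 3 * c + 2) (z := z) hi
    (by omega) (by omega) hL
  rw [rw_below (by omega) (by omega)] at h2
  exact (Relation.ReflTransGen.single h1).tail h2

/-- `P.ps` just below: `T` at the row `i+1` in the column of the cell `x` of row `i` -/
theorem ps_below {i x z : ℕ} (h : P.K ≤ i + x + 1) (hx : 1 ≤ x) :
    (⟨i + 1, i + x + 1 - P.K, Lane.T z⟩ : Pos) = P.ps (i + 1) (x - 1) (Lane.T z) :=
  rw_below h hx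

private theorem rw_ix (A r : ℕ) (hr : r < 6) : (6 * A + r) % 6 = r ∧ (6 * A + r) / 6 = A := by
  omega

private theorem rw_cx (c : ℕ) : (3 * c + 1) % 3 = 1 ∧ (3 * c + 2) % 3 = 2 ∧
    (3 * c + 1) / 3 = c ∧ (3 * c + 2) / 3 = c := by
  omega

/-- rows 0, 1 -/
theorem rows01 {A c z : ℕ} (hA : A < P.QQ) (hlo : P.Q ≤ c + 2 * A)
    (hhi : c + 2 * A + 3 ≤ 2 * P.Q) (hz : P.zrow b A = false)
    (hZ : ¬ (A = 0 ∧ b = true ∧ P.Q ≤ c ∧ c ≤ P.Q + 13)) :
    LReach P D b (P.TP A c z) (P.ps (6 * A + 2) (3 * c + 1) (Lane.T z)) := by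
  have hK : P.K = 6 * P.QQ := rfl
  have hQ : P.Q = 2 * P.QQ := rfl
  obtain ⟨c1, c2, c3, c4⟩ := rw_cx c
  have h0 : ∀ x, (x = 3 * c + 1 ∨ x = 3 * c + 2) → P.bx b (6 * A) x = true := by
    intro x hx
    have e1 : (6 * A) % 6 = 0 := by omega
    have e2 : (6 * A) / 6 = A := by omega
    have e3 : x % 3 ≠ 0 := by omega
    have e4 : (b && decide (6 * A = 0 ∧ P.K ≤ x ∧ x ≤ P.K + 41)) = false := by
      by_contra hne
      rw [Bool.not_eq_false, Bool.and_eq_true, decide_eq_true_eq] at hne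
      apply hZ
      refine ⟨by omega, hne.1, by omega, by omega⟩
    unfold Par.bx
    rw [if_pos e1, e2, hz, if_neg (by simp), e4, if_neg (by simp), if_neg e3]
  have h1 : ∀ x, (x = 3 * c + 1 ∨ x = 3 * c + 2) → P.bx b (6 * A + 1) x = true := by
    intro x hx
    have e1 : (6 * A + 1) % 6 = 1 := by omega
    have e3 : x % 3 ≠ 0 := by omega
    unfold Par.bx
    rw [if_neg (by omega), if_pos e1]
    simp [e3]
  have r0 := row_pass (P := P) (D := D) (b := b) (i := 6 * A) (c := c) (z := z) (by omega)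
    (by omega) (by omega) (h0 _ (Or.inl rfl)) (h0 _ (Or.inr rfl))
  have r1 := row_pass (P := P) (D := D) (b := b) (i := 6 * A + 1) (c := c) (z := z) (by omega)
    (by omega) (by omega) (h1 _ (Or.inl rfl)) (h1 _ (Or.inr rfl))
  exact r0.trans r1

/-- row 2 without event at `c` -/
theorem row2 {A c z : ℕ} (hA : A < P.QQ) (hlo : P.Q ≤ c + 2 * A + 1)
    (hhi : c + 2 * A + 3 ≤ 2 * P.Q) (hs : sym (P.ev b A) c = 0) :
    LReach P D b (P.ps (6 * A + 2) (3 * c + 1) (Lane.T z))
      (P.ps (6 * A + 3) (3 * c + 1) (Lane.T z)) := by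
  have hK : P.K = 6 * P.QQ := rfl
  have hQ : P.Q = 2 * P.QQ := rfl
  obtain ⟨c1, c2, c3, c4⟩ := rw_cx c
  have h1 : ∀ x, (x = 3 * c + 1 ∨ x = 3 * c + 2) → P.bx b (6 * A + 2) x = true := by
    intro x hx
    have e3 : x % 3 ≠ 0 := by omega
    have e4 : x / 3 = c := by omega
    have e5 : (6 * A + 2) / 6 = A := by omega
    unfold Par.bx
    rw [if_neg (by omega), if_neg (by omega), if_pos (by omega), e4, e5, if_pos hs, if_neg e3]
  exact row_pass (P := P) (D := D) (b := b) (i := 6 * A + 2) (c := c) (z := z) (by omega)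
    (by omega) (by omega) (h1 _ (Or.inl rfl)) (h1 _ (Or.inr rfl))

private theorem rw_row3 {A c z : ℕ} (hA : A < P.QQ) (hlo : P.Q ≤ c + 2 * A + 1)
    (hhi : c + 2 * A + 3 ≤ 2 * P.Q) :
    LReach P D b (P.ps (6 * A + 3) (3 * c + 1) (Lane.T z))
      (P.ps (6 * A + 4) (3 * c + 1) (Lane.T z)) := by
  have hK : P.K = 6 * P.QQ := rfl
  have hQ : P.Q = 2 * P.QQ := rfl
  have h1 : ∀ x, (x = 3 * c + 1 ∨ x = 3 * c + 2) → P.bx b (6 * A + 3) x = true := by
    intro x hx
    have e3 : x % 3 ≠ 0 := by omega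
    unfold Par.bx
    rw [if_neg (by omega), if_neg (by omega), if_neg (by omega), if_pos (by omega), if_neg e3]
  exact row_pass (P := P) (D := D) (b := b) (i := 6 * A + 3) (c := c) (z := z) (by omega)
    (by omega) (by omega) (h1 _ (Or.inl rfl)) (h1 _ (Or.inr rfl))

/-- rows 3, 4, 5 -/
theorem rows35 {A c z : ℕ} (hA : A < P.QQ) (hlo : P.Q ≤ c + 2 * A + 1)
    (hhi : c + 2 * A + 3 ≤ 2 * P.Q) (hW : P.W' b A c = true) :
    LReach P D b (P.ps (6 * A + 3) (3 * c + 1) (Lane.T z)) (P.TP (A + 1) c z) := by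
  have hK : P.K = 6 * P.QQ := rfl
  have hQ : P.Q = 2 * P.QQ := rfl
  obtain ⟨c1, c2, c3, c4⟩ := rw_cx c
  have h3 := rw_row3 (P := P) (D := D) (b := b) (A := A) (c := c) (z := z) hA hlo hhi
  have h4 : ∀ x, (x = 3 * c + 1 ∨ x = 3 * c + 2) → P.bx b (6 * A + 4) x = true := by
    intro x hx
    have e3 : x % 3 ≠ 0 := by omega
    have e4 : x / 3 = c := by omega
    have e5 : (6 * A + 4) / 6 = A := by omega
    unfold Par.bx
    rw [if_neg (by omega), if_neg (by omega), if_neg (by omega), if_neg (by omega),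
      if_pos (by omega), if_neg e3, e4, e5, hW]
    split_ifs <;> simp
  have h5 : ∀ x, (x = 3 * c + 1 ∨ x = 3 * c + 2) → P.bx b (6 * A + 5) x = true := by
    intro x hx
    have e3 : x % 3 ≠ 0 := by omega
    unfold Par.bx
    rw [if_neg (by omega), if_neg (by omega), if_neg (by omega), if_neg (by omega),
      if_neg (by omega), if_neg e3]
  have r4 := row_pass (P := P) (D := D) (b := b) (i := 6 * A + 4) (c := c) (z := z) (by omega)
    (by omega) (by omega) (h4 _ (Or.inl rfl)) (h4 _ (Or.inr rfl))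
  have r5 := row_pass (P := P) (D := D) (b := b) (i := 6 * A + 5) (c := c) (z := z) (by omega)
    (by omega) (by omega) (h5 _ (Or.inl rfl)) (h5 _ (Or.inr rfl))
  have e : P.TP (A + 1) c z = P.ps (6 * A + 5 + 1) (3 * c + 1) (Lane.T z) := by
    unfold Par.TP
    rfl
  rw [e]
  exact (h3.trans r4).trans r5

/-- rows 3, 4 of a channel without wire: the lane ends in row 4 -/
theorem rows34_dead {A c z : ℕ} (hA : A < P.QQ) (hlo : P.Q ≤ c + 2 * A)
    (hhi : c + 2 * A + 3 ≤ 2 * P.Q) (hW : P.W' b A c = false) :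
    LDies P D b (P.ps (6 * A + 3) (3 * c + 1) (Lane.T z)) := by
  have hK : P.K = 6 * P.QQ := rfl
  have hQ : P.Q = 2 * P.QQ := rfl
  have h3 := rw_row3 (P := P) (D := D) (b := b) (A := A) (c := c) (z := z) hA (by omega) hhi
  have hT : P.bx b (6 * A + 4) (3 * c + 1) = false := by
    have e4 : (3 * c + 1) / 3 = c := by omega
    have e5 : (6 * A + 4) / 6 = A := by omega
    have e6 : ¬ (3 * c + 1 + (6 * A + 4) + 1 = P.K) := by omega
    unfold Par.bx
    rw [if_neg (by omega), if_neg (by omega), if_neg (by omega), if_neg (by omega),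
      if_pos (by omega), if_neg (by omega), if_pos (by omega), e4, e5, hW]
    simp [e6]
  have hL : P.bx b (6 * A + 4) (3 * c + 2) = true := by
    have e4 : (3 * c + 2) / 3 = c := by omega
    unfold Par.bx
    rw [if_neg (by omega), if_neg (by omega), if_neg (by omega), if_neg (by omega),
      if_pos (by omega), if_neg (by omega), if_neg (by omega)]
  rcases hm : D.mort with _ | _
  · refine ⟨_, h3, ?_, ?_, ?_⟩
    · change 6 * A + 4 < P.K
      omega
    · change 6 * A + 4 + (3 * c + 1) + 1 - P.K < P.K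
      omega
    · unfold nxt
      change (gstep D (P.bit b (6 * A + 4) (6 * A + 4 + (3 * c + 1) + 1 - P.K)) (Lane.T z)).map
        _ = none
      rw [bit_ps P b (by omega), hT]
      simp [gstep, hm]
  · have h4 := ps_T0 (P := P) (D := D) (b := b) (i := 6 * A + 4) (x := 3 * c + 1) (z := z)
      (by omega) (by omega) (by omega) hT hm
    refine ⟨_, h3.tail h4, ?_, ?_, ?_⟩
    · change 6 * A + 4 < P.K
      omega
    · change 6 * A + 4 + (3 * c + 1 + 1) + 1 - P.K < P.K
      omega
    · unfold nxt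
      change (gstep D (P.bit b (6 * A + 4) (6 * A + 4 + (3 * c + 1 + 1) + 1 - P.K))
        (Lane.L 84 z)).map _ = none
      rw [bit_ps P b (by omega), hL]
      simp [gstep, hm, slotStep]

end Pool.Agent.MP_fadef1_lc
end

section

namespace Pool.Agent.MP_fadef1_lc

/-- Output lanes are `< w`: for a gate by `hD.2`, for shifts the lane does not change. -/
theorem evalL_lane {D : Data} (hD : D.Ok) {l : Layer} (h0 : l.t = 0 → l.a < 4) {p q : ℕ × ℕ}
    (hp : p.2 < D.w) (h : evalL D l p = some q) : q.2 < D.w := by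
  obtain ⟨t, a, b, c⟩ := l
  obtain ⟨u, z⟩ := p
  obtain ⟨v, y⟩ := q
  simp only at h0 hp
  simp only [evalL] at h
  have key : ∀ s, s < 2 → a < 4 → (D.g a (s, z)).map (fun s => (b + s.1, s.2)) = some (v, y) →
      y < D.w := by
    intro s hs ha h
    rw [Option.map_eq_some_iff] at h
    obtain ⟨⟨s', z'⟩, h1, h2⟩ := h
    simp only [Prod.mk.injEq] at h2
    rw [← h2.2]
    exact (hD.2 a s z s' z' ha hs hp h1).2
  split_ifs at h with h1 h2 h3 h4 h5 h6 h7 h8
  · exact key 0 (by norm_num) (h0 h1) h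
  · exact key 1 (by norm_num) (h0 h1) h
  all_goals
    simp only [Option.some.injEq, Prod.mk.injEq] at h
    obtain ⟨_, h⟩ := h
    rw [← h]
    exact hp

/-- induction on the list -/
theorem evalC_append (D : Data) (L₁ L₂ : List Layer) (p : ℕ × ℕ) :
    evalC D (L₁ ++ L₂) p = (evalC D L₁ p).bind (evalC D L₂) := by
  induction L₁ generalizing p with
  | nil => simp [evalC]
  | cons l L ih =>
    simp only [List.cons_append, evalC, Option.bind_assoc]
    congr 1
    funext x
    exact ih x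

/-- induction on the list with `evalL_lane` -/
theorem evalC_lane {D : Data} (hD : D.Ok) {L : List Layer} (hL : CirOk L) {p q : ℕ × ℕ}
    (hp : p.2 < D.w) (h : evalC D L p = some q) : q.2 < D.w := by
  induction L generalizing p with
  | nil =>
    simp only [evalC, Option.some.injEq] at h
    rw [← h]
    exact hp
  | cons l L ih =>
    simp only [evalC] at h
    rw [Option.bind_eq_some_iff] at h
    obtain ⟨r, h1, h2⟩ := h
    have hl := hL l (by simp)
    exact ih (fun l hl => hL l (by simp [hl])) (evalL_lane hD hl.2 hp h1) h2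

private theorem inv2_inv_ok {l : Layer} (h : l.t ≤ 2 ∧ (l.t = 0 → l.a < 4)) :
    l.inv.t ≤ 2 ∧ (l.inv.t = 0 → l.inv.a < 4) := by
  obtain ⟨t, a, b, c⟩ := l
  simp only at h
  obtain ⟨h1, h2⟩ := h
  obtain rfl | rfl | rfl : t = 0 ∨ t = 1 ∨ t = 2 := by omega
  · have := h2 rfl
    simp only [Layer.inv, if_true]
    refine ⟨by norm_num, fun _ => ?_⟩
    split_ifs <;> omega
  · simp [Layer.inv]
  · simp [Layer.inv]

/-- `Layer.inv` preserves `t ≤ 2` and `a < 4` for gates. -/
private theorem inv2_cirOk_cinv {L : List Layer} (hL : CirOk L) : CirOk (cinv L) := by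
  intro l hl
  simp only [cinv, List.mem_reverse, List.mem_map] at hl
  obtain ⟨m, hm, rfl⟩ := hl
  exact inv2_inv_ok (hL m hm)

private theorem inv2_cinv_cons (l : Layer) (L : List Layer) : cinv (l :: L) = cinv L ++ [l.inv] := by
  simp [cinv]

/-- Induction on `L`: `cinv (l :: L) = cinv L ++ [l.inv]`, `evalC_append`, `evalL_inv` and
`evalC_lane` for the intermediate points. -/
theorem evalC_inv {D : Data} (hD : D.Ok) (hI : InvData D) {L : List Layer} (hL : CirOk L)
    {p q : ℕ × ℕ} (hp : p.2 < D.w) (hq : q.2 < D.w) :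
    evalC D L p = some q ↔ evalC D (cinv L) q = some p := by
  induction L generalizing p with
  | nil =>
    simp only [evalC, cinv, List.map_nil, List.reverse_nil, Option.some.injEq]
    exact eq_comm
  | cons l L ih =>
    have hl := hL l (by simp)
    have hL' : CirOk L := fun l hl => hL l (by simp [hl])
    rw [inv2_cinv_cons, evalC_append]
    simp only [evalC]
    rw [Option.bind_eq_some_iff, Option.bind_eq_some_iff]
    constructor
    · rintro ⟨r, h1, h2⟩
      have hr : r.2 < D.w := evalL_lane hD hl.2 hp h1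
      refine ⟨r, (ih hL' hr).1 h2, ?_⟩
      rw [(evalL_inv hD hI hl.1 hl.2 hp hr).1 h1]
      rfl
    · rintro ⟨r, h1, h2⟩
      have hr : r.2 < D.w := evalC_lane hD (inv2_cirOk_cinv hL') hq h1
      refine ⟨r, ?_, (ih hL' hr).2 h1⟩
      rw [evalL_inv hD hI hl.1 hl.2 hp hr]
      rw [Option.bind_eq_some_iff] at h2
      obtain ⟨s, h3, h4⟩ := h2
      rw [h3]
      exact h4

theorem cinv_append (L₁ L₂ : List Layer) : cinv (L₁ ++ L₂) = cinv L₂ ++ cinv L₁ := by
  simp [cinv]

/-- `Layer.inv` preserves `t ≤ 2` and `a < 4` for gates. -/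
theorem cirOk_cinv {L : List Layer} (hL : CirOk L) : CirOk (cinv L) := inv2_cirOk_cinv hL

theorem cinv_cinv {L : List Layer} (hL : CirOk L) : cinv (cinv L) = L := by
  simp only [cinv, List.map_reverse, List.reverse_reverse, List.map_map]
  conv_rhs => rw [← List.map_id L]
  apply List.map_congr_left
  intro l hl
  obtain ⟨h1, h2⟩ := hL l hl
  obtain ⟨t, a, b, c⟩ := l
  simp only at h1 h2
  obtain rfl | rfl | rfl : t = 0 ∨ t = 1 ∨ t = 2 := by omega
  · have := h2 rfl
    simp only [Function.comp, Layer.inv, if_true, id]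
    congr 1
    split_ifs <;> omega
  · simp [Layer.inv]
  · simp [Layer.inv]

theorem length_cinv (L : List Layer) : (cinv L).length = L.length := by
  simp [cinv]

end Pool.Agent.MP_fadef1_lc
end

section

namespace Pool.Agent.MP_fadef1_lc

private theorem pass2_crep_succ (n : ℕ) (c : List Layer) : crep (n + 1) c = c ++ crep n c := by
  simp [crep, List.replicate_succ]

/-- induction on `n` -/
theorem crep_out (D : Data) (n d : ℕ) {lo hi a : ℕ} (z : ℕ) (h : a < lo ∨ hi ≤ a) :
    evalC D (crep n (pass d lo hi)) (a, z) = some (a, z) := by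
  induction n with
  | zero => simp [crep, evalC]
  | succ n ih =>
    rw [pass2_crep_succ, evalC_append, pass_out D d z h]
    exact ih

/-- Induction on `n` with `pass_eval` at the position `p` (`p = (p / w) * w + p % w`); the
intermediate positions satisfy `lo * w ≤ p' < (hi - 1) * w`. -/
theorem crep_eval {D : Data} {d x : ℕ} (hg : D.g d = shG D.w x) (hw : 0 < D.w) (hx : x ≤ D.w)
    {lo hi p : ℕ} (n : ℕ) (hlo : lo * D.w ≤ p) (hhi : p + n * x + D.w < hi * D.w) :
    evalC D (crep n (pass d lo hi)) (unp D.w p) = some (unp D.w (p + n * x)) := by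
  induction n generalizing p with
  | zero => simp [crep, evalC]
  | succ n ih =>
    rw [pass2_crep_succ, evalC_append]
    have h1 : lo ≤ p / D.w := (Nat.le_div_iff_mul_le hw).2 hlo
    have h2 : p / D.w + 1 < hi := by
      have h3 : (p / D.w) * D.w ≤ p := Nat.div_mul_le_self p D.w
      by_contra h4
      have h5 : hi * D.w ≤ (p / D.w + 1) * D.w := Nat.mul_le_mul_right _ (by omega)
      rw [add_mul, one_mul] at h5
      have : 0 ≤ (n + 1) * x := Nat.zero_le _
      omega
    have h3 : (p / D.w) * D.w + p % D.w = p := by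
      rw [mul_comm]
      exact Nat.div_add_mod p D.w
    change (evalC D (pass d lo hi) (p / D.w, p % D.w)).bind _ = _
    rw [pass_eval hg hw hx (Nat.mod_lt p hw) h1 h2, h3]
    have h4 : p + (n + 1) * x = p + x + n * x := by ring
    rw [h4] at hhi ⊢
    exact ih (by omega) hhi

theorem cirOk_pass {d : ℕ} (hd : d < 4) (n lo hi : ℕ) : CirOk (crep n (pass d lo hi)) := by
  intro l hl
  simp only [crep, List.mem_flatten, List.mem_replicate] at hl
  obtain ⟨c, ⟨_, rfl⟩, hl⟩ := hl
  simp only [pass, List.mem_map, List.mem_reverse, List.mem_range] at hl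
  obtain ⟨k, _, rfl⟩ := hl
  exact ⟨by simp [Layer.gate], fun _ => by simpa [Layer.gate] using hd⟩

end Pool.Agent.MP_fadef1_lc
end
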