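import Pool.Agent.Lib.MP_fadef1_lc.Mg.G014
import Pool.Agent.Lib.MP_fadef1_lc.Mg.G009
import Pool.Agent.Lib.MP_fadef1_lc.Mg.G012

section

/-! Chains in row phase 2: no gate. -/

namespace Pool.Agent.MP_fadef1_lc

variable {P : Par} {i j bi bj : ℕ} {p : Pos}

private theorem nx2a_nxt {X : ℕ → ℕ → Bool} {I J : ℕ} {s s' : Lane}
    (h : gstep data0 (X I J) s = some s') :
    nxt data0 X ⟨I, J, s⟩ = some (Pos.out ⟨I, J, s⟩ s') := by
  unfold nxt
  simp only [h, Option.map_some]

private theorem nx2a_arr (hP : P.Ok) (hi : i < P.K) (hj : j < P.K) {x : ℕ}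
    (hx : j + P.K - i - 1 = x) {v : Bool} (h : P.bx (P.arr bi bj) i x = v) :
    P.arr (bi * P.K + i) (bj * P.K + j) = v := by
  rw [arr_loc hP bi bj hi hj]
  unfold Par.bit
  rw [hx, h]

/-- wall: `(i+1, j+1)` (wall or stub; if the wire is removed the walk ends, `rows34_dead`); run:
to the right; last cell of the run: down. -/
theorem nx_2a (hP : P.Ok) (hi : i < P.K) (hj : j < P.K)
    (hr : i % 6 = 2) (ht : (P.ev (P.arr bi bj) (i / 6)).t ≠ 2 ∧ (P.ev (P.arr bi bj) (i / 6)).t ≠ 3)
    (hs : Str P (bi * P.K + i, bj * P.K + j) p) (hd : ¬ Dies data0 P.arr p) :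
    Goes P (bi * P.K + i, bj * P.K + j) := by
  have hK6 : P.K = 6 * P.QQ := rfl
  have hKpos := K_pos hP
  have hQ : P.Q = 2 * P.QQ := rfl
  have hi1 : i + 1 < P.K := by omega
  obtain ⟨h0, t, hc⟩ := (str_loc hP hi hj).1 hs
  obtain ⟨A, hAi⟩ : ∃ A, i = 6 * A + 2 := ⟨i / 6, by omega⟩
  have hi6 : i / 6 = A := by omega
  have hA : A < P.QQ := by omega
  rw [hi6] at ht
  have hr3 : (i + 1) % 6 = 3 := by omega
  have hd6 : (i + 1) / 6 = A := by omega
  obtain ⟨x, hx⟩ : ∃ x, x = j + P.K - i - 1 := ⟨_, rfl⟩
  obtain ⟨b, hb⟩ : ∃ b, b = P.arr bi bj := ⟨_, rfl⟩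
  rw [← hb] at ht
  obtain ⟨e, he⟩ : ∃ e, e = P.ev b A := ⟨_, rfl⟩
  have hV := va_all hP b A hA
  have hok : EvOk (P.W b A) e := by rw [he]; exact hV.ok
  rw [← he] at ht
  rw [← hx, ← hb] at h0
  rw [← hb] at hc
  have hbx2 : ∀ y : ℕ, P.bx b i y = (if sym e (y / 3) = 0 then
      (if y % 3 = 0 then !P.cl b A (y / 3) else true)
    else if sym e (y / 3) = 1 then
      (if y % 3 = 0 then !P.cl b A (y / 3) else decide (y % 3 = 1))
    else if sym e (y / 3) = 2 then false
    else decide (y % 3 = 2)) := by
    intro y
    unfold Par.bx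
    rw [if_neg (by omega), if_neg (by omega), if_pos hr, hi6, ← he]
  have hbx3 : ∀ c : ℕ, P.cl3 b A c = true → P.bx b (i + 1) (3 * c) = false := by
    intro c hcl
    unfold Par.bx
    have e1 : 3 * c % 3 = 0 := by omega
    have e2 : 3 * c / 3 = c := by omega
    rw [if_neg (by omega), if_neg (by omega), if_neg (by omega), if_pos hr3, if_pos e1, hd6, e2,
      hcl]
    rfl
  have hc2 : P.cls b (bi * P.K + i) (bj * P.K + j) i j =
      (if e.t = 1 then
        (if 3 * e.x + 2 ≤ x ∧ x ≤ 3 * e.y + 1 then
          Cl.s ⟨bi * P.K + i, bj * P.K + j, Lane.L 42 0⟩ 0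
        else Cl.s ⟨bi * P.K + i, bj * P.K + j + 1, Lane.T 0⟩ 1)
      else Cl.s ⟨bi * P.K + i, bj * P.K + j + 1, Lane.T 0⟩ 1) := by
    unfold Par.cls
    rw [if_neg (by omega), if_neg (by omega), if_pos hr, hi6, ← he, ← hx]
    split_ifs with q1 q2 q3 <;> first | rfl | (exfalso; omega)
  rw [hc2] at hc
  by_cases hrun : e.t = 1 ∧ 3 * e.x + 2 ≤ x ∧ x ≤ 3 * e.y + 1
  · -- run
    obtain ⟨ht1, hx1, hx2⟩ := hrun
    rw [if_pos ht1, if_pos ⟨hx1, hx2⟩] at hc
    have hp : p = ⟨bi * P.K + i, bj * P.K + j, Lane.L 42 0⟩ := by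
      simp only [Cl.s.injEq] at hc; exact hc.1.symm
    subst hp
    have hv := hok.t1 ht1
    have hq := hV.quiet (by rw [← he]; omega)
    rw [← he] at hq
    have hlst : lst e = e.y := by unfold lst; rw [if_pos ht1]
    have hj3 : j + 3 < P.K := by omega
    have a0 : P.arr (bi * P.K + i) (bj * P.K + j) = false :=
      nx2a_arr hP hi hj hx.symm (by rw [← hb]; exact h0)
    have n1 := nx2a_nxt (X := P.arr) (I := bi * P.K + i) (J := bj * P.K + j)
      (s := Lane.L 42 0) (s' := Lane.L 42 0) (by rw [a0]; rfl)
    rcases Nat.lt_or_ge x (3 * e.y + 1) with hx3 | hx3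
    · refine ⟨(bi * P.K + i, bj * P.K + (j + 1)), ⟨bi * P.K + i, bj * P.K + (j + 1),
        Lane.L 42 0⟩, ?_, ?_, ?_⟩
      · refine (str_loc hP hi (by omega)).2 ⟨?_, ?_⟩
        · rw [← hb]
          have e1 : j + 1 + P.K - i - 1 = x + 1 := by omega
          rw [e1, hbx2]
          have e2 : sym e ((x + 1) / 3) = 2 ∨ (sym e ((x + 1) / 3) = 3 ∧ (x + 1) % 3 ≠ 2) := by
            unfold sym
            rw [if_pos ht1]
            split_ifs with q1 q2 q3
            · exfalso; omega
            · left; rfl
            · right; exact ⟨rfl, by omega⟩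
            · exfalso; omega
          rcases e2 with e2 | ⟨e2, e3⟩
          · rw [e2]; rfl
          · rw [e2]; simp [e3]
        · rw [← hb]
          unfold Par.cls
          have e1 : j + 1 + P.K - i - 1 = x + 1 := by omega
          rw [if_neg (by omega), if_neg (by omega), if_pos hr, hi6, ← he, e1, if_pos ht1,
            if_pos ⟨by omega, by omega⟩]
          exact ⟨0, rfl⟩
      · intro hD
        apply hd
        refine dies_of_nxt n1 ?_
        exact hD
      · left
        refine ⟨rfl, ?_, ?_⟩ <;> simp only <;> omega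
    · -- last cell of the run
      have hxe : x = 3 * e.y + 1 := by omega
      refine ⟨(bi * P.K + (i + 1), bj * P.K + j), ⟨bi * P.K + (i + 1), bj * P.K + j + 1,
        Lane.T 0⟩, ?_, ?_, ?_⟩
      · refine (str_loc hP hi1 hj).2 ⟨?_, ?_⟩
        · rw [← hb]
          have e1 : j + P.K - (i + 1) - 1 = 3 * e.y := by omega
          rw [e1]
          apply hbx3
          have hDst : isDst e e.y = true := by unfold isDst; rw [if_pos ht1]; simp
          have hNew : isNew e e.y = false := by
            unfold isNew; rw [if_neg (by omega), if_neg (by omega)]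
          unfold Par.cl3 Par.cl4 Par.W'
          rw [← he, hDst, hNew]
          simp
        · rw [← hb]
          unfold Par.cls
          have e1 : j + P.K - (i + 1) - 1 = 3 * e.y := by omega
          rw [if_neg (by omega), if_neg (by omega), if_neg (by omega), if_pos hr3, hd6, ← he, e1,
            if_neg (by omega)]
          exact ⟨0, rfl⟩
      · intro hD
        apply hd
        have a1 : P.arr (bi * P.K + i) (bj * P.K + (j + 1)) = true := by
          refine nx2a_arr hP hi (by omega) (x := 3 * e.y + 2) (by omega) ?_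
          rw [← hb, hbx2]
          have e2 : (3 * e.y + 2) / 3 = e.y := by omega
          have e3 : sym e e.y = 3 := by
            unfold sym
            rw [if_pos ht1, if_neg (by omega), if_neg (by omega), if_pos rfl]
          rw [e2, e3]
          have e4 : (3 * e.y + 2) % 3 = 2 := by omega
          simp [e4]
        have n2 := nx2a_nxt (X := P.arr) (I := bi * P.K + i) (J := bj * P.K + (j + 1))
          (s := Lane.L 42 0) (s' := Lane.T 0) (by rw [a1]; rfl)
        refine dies_of_nxt n1 (dies_of_nxt n2 ?_)
        exact hD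
      · right
        refine ⟨rfl, rfl, ?_, ?_⟩
        · show kd (bi * P.K + i) (bj * P.K + j) ≠ 0
          rw [kd_loc hP bi bj hi]
          omega
        · show kd (bi * P.K + (i + 1)) (bj * P.K + j) = 0
          rw [kd_loc hP bi bj hi1]
          omega
  · -- wall
    have hc' : Cl.s ⟨bi * P.K + i, bj * P.K + j + 1, Lane.T 0⟩ 1 = Cl.s p t := by
      rw [← hc]
      by_cases ht1 : e.t = 1
      · rw [if_pos ht1, if_neg (fun h => hrun ⟨ht1, h⟩)]
      · rw [if_neg ht1]
    have hp : p = ⟨bi * P.K + i, bj * P.K + j + 1, Lane.T 0⟩ := by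
      simp only [Cl.s.injEq] at hc'; exact hc'.1.symm
    subst hp
    have hsym : sym e (x / 3) = 0 ∨ (sym e (x / 3) = 1 ∧ e.t = 1 ∧ x / 3 = e.x) := by
      unfold sym
      by_cases ht1 : e.t = 1
      · rw [if_pos ht1]
        split_ifs with q1 q2 q3
        · right; exact ⟨rfl, ht1, q1⟩
        · exfalso; exact hrun ⟨ht1, by omega, by omega⟩
        · exfalso
          have : x % 3 = 2 := by
            by_contra hne
            exact hrun ⟨ht1, by have := (hok.t1 ht1).2.1; omega, by omega⟩
          rw [hbx2] at h0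
          have e3 : sym e (x / 3) = 3 := by
            unfold sym
            rw [if_pos ht1, if_neg q1, if_neg q2, if_pos q3]
          rw [e3] at h0
          simp [this] at h0
        · left; rfl
      · left
        rw [if_neg ht1, if_neg (by omega)]
    have hx3cl : x % 3 = 0 ∧ P.cl b A (x / 3) = true := by
      rw [hbx2] at h0
      rcases hsym with h | ⟨h, h1, h2⟩
      · rw [h, if_pos rfl] at h0
        by_cases h3 : x % 3 = 0
        · rw [if_pos h3] at h0
          exact ⟨h3, by simpa using h0⟩
        · rw [if_neg h3] at h0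
          exact absurd h0 (by simp)
      · rw [h, if_neg (by omega), if_pos rfl] at h0
        by_cases h3 : x % 3 = 0
        · rw [if_pos h3] at h0
          exact ⟨h3, by simpa using h0⟩
        · rw [if_neg h3] at h0
          exfalso
          have h4 : x % 3 ≠ 1 := by simpa using h0
          have := (hok.t1 h1).2.1
          exact hrun ⟨h1, by omega, by omega⟩
    obtain ⟨c, hcx⟩ : ∃ c, x = 3 * c := ⟨x / 3, by omega⟩
    have hc3 : x / 3 = c := by omega
    rw [hc3] at hsym hx3cl
    have hcl := hx3cl.2
    have hW : P.W b A c = true := by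
      unfold Par.cl at hcl
      simp only [Bool.and_eq_true] at hcl
      exact hcl.1
    have hhi : c + 2 * A + 3 ≤ 2 * P.Q := by
      have := hV.hi c hW
      omega
    have hnex : c ≠ P.exitc A := by unfold Par.exitc; omega
    have hj3 : j + 3 < P.K := by omega
    have ex1 : (3 * c + 1) / 3 = c := by omega
    have ex2 : (3 * c + 2) / 3 = c := by omega
    have hT : P.arr (bi * P.K + i) (bj * P.K + (j + 1)) = true := by
      refine nx2a_arr hP hi (by omega) (x := 3 * c + 1) (by omega) ?_
      rw [← hb, hbx2, ex1]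
      have e3 : (3 * c + 1) % 3 = 1 := by omega
      rcases hsym with h | ⟨h, -, -⟩
      · rw [h]; simp [e3]
      · rw [h]; simp [e3]
    have n1 := nx2a_nxt (X := P.arr) (I := bi * P.K + i) (J := bj * P.K + (j + 1))
      (s := Lane.T 0) (s' := Lane.L 42 0) (by rw [hT]; rfl)
    have e5 : j + 1 + P.K - (i + 1) - 1 = 3 * c := by omega
    have e6 : 3 * c / 3 = c := by omega
    rcases hsym with h | ⟨h, h1, h2⟩
    · -- default symbol
      have hL : P.arr (bi * P.K + i) (bj * P.K + (j + 2)) = true := by
        refine nx2a_arr hP hi (by omega) (x := 3 * c + 2) (by omega) ?_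
        rw [← hb, hbx2, ex2, h]
        have e3 : (3 * c + 2) % 3 = 2 := by omega
        simp [e3]
      have n2 := nx2a_nxt (X := P.arr) (I := bi * P.K + i) (J := bj * P.K + (j + 2))
        (s := Lane.L 42 0) (s' := Lane.T 0) (by rw [hL]; rfl)
      have hnc : e.t = 1 → c ≠ e.x ∧ c ≠ e.y := by
        intro ht1
        unfold sym at h
        rw [if_pos ht1] at h
        split_ifs at h with q1 q2 q3
        exact ⟨q1, q3⟩
      have hnd : ¬ Dies data0 P.arr ⟨bi * P.K + (i + 1), bj * P.K + (j + 2), Lane.T 0⟩ := by
        intro hD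
        apply hd
        refine dies_of_nxt n1 (dies_of_nxt n2 ?_)
        exact hD
      by_cases hrem : e.t = 5 ∧ c = e.x
      · exfalso
        apply hnd
        have hq := hV.quiet (by rw [← he]; omega)
        rw [← he] at hq
        have hW' : P.W' b A c = false := by
          have s1 : isSrc e c = true := by
            unfold isSrc
            rw [if_neg (by omega), if_neg (by omega), if_neg (by omega), if_pos hrem.1]
            simpa using hrem.2
          have s2 : isDst e c = false := by
            unfold isDst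
            rw [if_neg (by omega), if_neg (by omega), if_neg (by omega), if_neg (by omega)]
          unfold Par.W'
          rw [← he, s1, s2]
          simp
        have hdead := rows34_dead (P := P) (D := data0) (b := b) (A := A) (c := c) (z := 0)
          hA (by omega) hhi hW'
        rw [hb] at hdead
        have := ldies_lift hP bi bj hdead
        have e7 : (P.ps (6 * A + 3) (3 * c + 1) (Lane.T 0)).sh (bi * P.K) (bj * P.K)
            = ⟨bi * P.K + (i + 1), bj * P.K + (j + 2), Lane.T 0⟩ := by
          unfold Par.ps Pos.sh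
          simp only [Pos.mk.injEq, and_true]
          constructor <;> omega
        rw [e7] at this
        exact this
      · have hcl3 : P.cl3 b A c = true := by
          have s1 : isSrc e c = false := by
            unfold isSrc
            split_ifs with q1 q2 q3 q4
            · simpa using (hnc q1).1
            · exact absurd q2 ht.1
            · exact absurd q3 ht.2
            · simpa using fun h => hrem ⟨q4, h⟩
            · rfl
          have s3 : isNew e c = false := by
            unfold isNew
            split_ifs with q1 q2 q3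
            · have := hok.t4 q1 c hW
              simp only [decide_eq_false_iff_not]
              omega
            · exact absurd q2 ht.1
            · exact absurd q2 ht.1
            · rfl
          have s4 : decide (c = P.exitc A) = false := by simpa using hnex
          unfold Par.cl3 Par.cl4 Par.W'
          rw [← he, s1, s3, hW, s4]
          simp
        refine ⟨(bi * P.K + (i + 1), bj * P.K + (j + 1)), ⟨bi * P.K + (i + 1),
          bj * P.K + (j + 2), Lane.T 0⟩, ?_, hnd, ?_⟩
        · refine (str_loc hP hi1 (by omega)).2 ⟨?_, ?_⟩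
          · rw [← hb, e5]
            exact hbx3 c hcl3
          · rw [← hb]
            unfold Par.cls
            rw [if_neg (by omega), if_neg (by omega), if_neg (by omega), if_pos hr3, hd6, ← he,
              e5, e6, if_neg (fun hh => (hnc hh.1).1 hh.2)]
            exact ⟨0, rfl⟩
        · left
          refine ⟨rfl, ?_, ?_⟩ <;> simp only <;> omega
    · -- start of the run
      have hcl3 : P.cl3 b A c = true := by
        unfold Par.cl3
        rw [← he]
        simp [h1, h2]
      refine ⟨(bi * P.K + (i + 1), bj * P.K + (j + 1)), ⟨bi * P.K + i,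
        bj * P.K + (j + 2), Lane.L 42 0⟩, ?_, ?_, ?_⟩
      · refine (str_loc hP hi1 (by omega)).2 ⟨?_, ?_⟩
        · rw [← hb, e5]
          exact hbx3 c hcl3
        · rw [← hb]
          unfold Par.cls
          rw [if_neg (by omega), if_neg (by omega), if_neg (by omega), if_pos hr3, hd6, ← he,
            e5, e6, if_pos ⟨h1, h2⟩]
          exact ⟨1, rfl⟩
      · intro hD
        apply hd
        refine dies_of_nxt n1 ?_
        exact hD
      · left
        refine ⟨rfl, ?_, ?_⟩ <;> simp only <;> omega

end Pool.Agent.MP_fadef1_lc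
end

section

/-! Chains in row phase 2: gates. -/

namespace Pool.Agent.MP_fadef1_lc

variable {P : Par} {i j bi bj : ℕ} {p : Pos}

private theorem Nx2b_sym {e : Ev} (ht : e.t = 2 ∨ e.t = 3) (c : ℕ) :
    sym e c = if e.x ≤ c ∧ c ≤ last e then (if c = trig e then 3 else 2) else 0 := by
  unfold sym
  rw [if_neg (by omega), if_pos ht]

/-- the cells of the gate -/
private theorem Nx2b_bx {b : Bool} {A x : ℕ} {e : Ev} (he : P.ev b A = e)
    (ht : e.t = 2 ∨ e.t = 3) (h1 : 3 * e.x ≤ x) (h2 : x ≤ 3 * last e + 2) :
    P.bx b (6 * A + 2) x = decide (x = 3 * trig e + 2) := by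
  have hA6 : (6 * A + 2) / 6 = A := by omega
  have hs := Nx2b_sym ht (x / 3)
  rw [if_pos (by omega)] at hs
  unfold Par.bx
  rw [if_neg (by omega), if_neg (by omega), if_pos (by omega), hA6, he]
  by_cases h : x / 3 = trig e
  · rw [if_pos h] at hs
    rw [hs, if_neg (by norm_num), if_neg (by norm_num), if_neg (by norm_num)]
    have : x % 3 = 2 ↔ x = 3 * trig e + 2 := by omega
    simp only [this]
  · rw [if_neg h] at hs
    rw [hs, if_neg (by norm_num), if_neg (by norm_num), if_pos rfl]
    have : ¬ (x = 3 * trig e + 2) := by omega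
    rw [decide_eq_false this]

/-- the cells outside the gate -/
private theorem Nx2b_out {b : Bool} {A x : ℕ} {e : Ev} (he : P.ev b A = e)
    (ht : e.t = 2 ∨ e.t = 3) (h : ¬ (3 * e.x ≤ x ∧ x ≤ 3 * last e + 2)) :
    P.bx b (6 * A + 2) x = if x % 3 = 0 then !P.cl b A (x / 3) else true := by
  have hA6 : (6 * A + 2) / 6 = A := by omega
  have hs := Nx2b_sym ht (x / 3)
  rw [if_neg (by omega)] at hs
  unfold Par.bx
  rw [if_neg (by omega), if_neg (by omega), if_pos (by omega), hA6, he, if_pos hs]

private theorem Nx2b_cls {b : Bool} {A I J j : ℕ} {e : Ev} (he : P.ev b A = e)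
    (ht : e.t = 2 ∨ e.t = 3) :
    P.cls b I J (6 * A + 2) j =
      if 3 * e.x ≤ j + P.K - (6 * A + 2) - 1 ∧ j + P.K - (6 * A + 2) - 1 ≤ 3 * last e + 2 then
        (if j + P.K - (6 * A + 2) - 1 < 3 * s0 e then Cl.l
        else if j + P.K - (6 * A + 2) - 1 = 3 * s0 e then Cl.s ⟨I, J + 1, Lane.T 0⟩ 1
        else if j + P.K - (6 * A + 2) - 1 = 3 * s0 e + 1 then Cl.s ⟨I, J, Lane.T 0⟩ 0
        else if j + P.K - (6 * A + 2) - 1 < 3 * trig e + 2 then
          Cl.s ⟨I, J, Lane.L (85 - (j + P.K - (6 * A + 2) - 1 - (3 * s0 e + 1))) 0⟩ 0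
        else if j + P.K - (6 * A + 2) - 1 ≤ 3 * s1 e + 1 then
          Cl.s ⟨I, J, Lane.L (3 * s1 e + 2 - (j + P.K - (6 * A + 2) - 1)) 0⟩ 0
        else Cl.j)
      else Cl.s ⟨I, J + 1, Lane.T 0⟩ 1 := by
  have hA6 : (6 * A + 2) / 6 = A := by omega
  unfold Par.cls
  rw [if_neg (by omega), if_neg (by omega), if_pos (by omega), hA6, he, if_neg (by omega)]
  by_cases h : 3 * e.x ≤ j + P.K - (6 * A + 2) - 1 ∧
          j + P.K - (6 * A + 2) - 1 ≤ 3 * last e + 2
  · rw [if_pos ⟨ht, h.1, h.2⟩, if_pos h]
  · rw [if_neg (fun h' => h h'.2), if_neg h]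

/-- numbers of the gate -/
private theorem Nx2b_num {W : ℕ → Bool} {e : Ev} (ht : e.t = 2 ∨ e.t = 3) (he : EvOk W e) :
    e.x ≤ s0 e ∧ s0 e + 1 ≤ trig e ∧ trig e + 1 ≤ s1 e ∧ s1 e ≤ last e ∧
      3 * trig e + 1 ≤ 3 * s0 e + 40 ∧ s1 e ≤ trig e + 12 ∧ last e ≤ e.x + 16 ∧
      last e = lst e ∧
      isDst e (s1 e) = true ∧ isNew e (s1 e) = false ∧ W (trig e + 1) = false := by
  rcases ht with h | h
  · obtain ⟨hy, -, -, hw⟩ := he.t2 h
    have e0 : s0 e = if e.y % 2 = 1 then e.x + 2 else e.x := by
      unfold s0
      simp only [h, true_and]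
    have e1 : s1 e = if e.y % 2 = 0 then e.x + 16 else e.x + 14 := by
      unfold s1
      simp only [h, true_and]
    have e2 : trig e = e.x + 12 - 3 * e.y := by
      unfold trig
      rw [if_pos h]
    have e3 : last e = e.x + 16 := by
      unfold last
      rw [if_pos h]
    have e4 : lst e = e.x + 16 := by
      unfold lst
      rw [if_neg (by omega), if_pos h]
    have hWt : W (trig e + 1) = false := by
      by_contra hc
      rw [Bool.not_eq_false] at hc
      rcases hw _ hc (by omega) (by omega) with h5 | h5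
      · omega
      · omega
    have hd : isDst e (s1 e) = true := by
      unfold isDst
      rw [if_neg (by omega), if_pos h, decide_eq_true_eq, e1]
      split_ifs <;> omega
    have hn : isNew e (s1 e) = false := by
      unfold isNew
      rw [if_neg (by omega), if_pos h, e1]
      rcases Nat.mod_two_eq_zero_or_one e.y with h6 | h6
      · rw [if_pos h6, if_pos h6, decide_eq_false_iff_not]
        omega
      · rw [if_neg (by omega), if_neg (by omega), decide_eq_false_iff_not]
        omega
    refine ⟨?_, ?_, ?_, ?_, ?_, ?_, ?_, ?_, hd, hn, hWt⟩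
    · rw [e0]
      split_ifs <;> omega
    · rw [e0]
      split_ifs <;> omega
    · rw [e1]
      split_ifs <;> omega
    · rw [e1]
      split_ifs <;> omega
    · rw [e0]
      split_ifs <;> omega
    · rw [e1]
      split_ifs <;> omega
    · omega
    · omega
  · obtain ⟨-, hw⟩ := he.t3 h
    have e0 : s0 e = e.x := by
      unfold s0
      rw [if_neg (by omega)]
    have e1 : s1 e = e.x + 14 := by
      unfold s1
      rw [if_neg (by omega)]
    have e2 : trig e = e.x + 13 := by
      unfold trig
      rw [if_neg (by omega)]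
    have e3 : last e = e.x + 14 := by
      unfold last
      rw [if_neg (by omega), if_pos h]
    have e4 : lst e = e.x + 14 := by
      unfold lst
      rw [if_neg (by omega), if_neg (by omega), if_pos h]
    have hWt : W (trig e + 1) = false := by
      by_contra hc
      rw [Bool.not_eq_false] at hc
      rcases hw _ hc (by omega) with h5 | h5
      · omega
      · omega
    have hd : isDst e (s1 e) = true := by
      unfold isDst
      rw [if_neg (by omega), if_neg (by omega), if_pos h, decide_eq_true_eq, e1]
    have hn : isNew e (s1 e) = false := by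
      unfold isNew
      rw [if_neg (by omega), if_neg (by omega)]
    exact ⟨by omega, by omega, by omega, by omega, by omega, by omega, by omega, by omega, hd, hn,
      hWt⟩

private theorem Nx2b_T0 {X : ℕ → ℕ → Bool} {I J z : ℕ} (h : X I J = false) :
    nxt data0 X ⟨I, J, Lane.T z⟩ = some ⟨I, J + 1, Lane.L 84 z⟩ := by
  simp [nxt, gstep, h, Pos.out, data0, dataOf]

private theorem Nx2b_Lg {X : ℕ → ℕ → Bool} {I J z g : ℕ} (h : X I J = false) (h0 : g ≠ 0)
    (h42 : g ≠ 42) (h43 : g ≠ 43) (h84 : g ≤ 84) :
    nxt data0 X ⟨I, J, Lane.L g z⟩ = some ⟨I, J + 1, Lane.L (g - 1) z⟩ := by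
  have h1 : ¬ (g = 43 ∨ 84 < g) := by omega
  simp [nxt, gstep, h, Pos.out, data0, dataOf, h0, h42, h1]

private theorem Nx2b_Lz {X : ℕ → ℕ → Bool} {I J z : ℕ} (h : X I J = false) :
    nxt data0 X ⟨I, J, Lane.L 0 z⟩ = some ⟨I + 1, J, Lane.T z⟩ := by
  simp [nxt, gstep, h, Pos.out, data0, dataOf]

private theorem Nx2b_T1 {X : ℕ → ℕ → Bool} {I J z : ℕ} (h : X I J = true) :
    nxt data0 X ⟨I, J, Lane.T z⟩ = some ⟨I, J + 1, Lane.L 42 z⟩ := by
  simp [nxt, gstep, h, Pos.out]

private theorem Nx2b_L1 {X : ℕ → ℕ → Bool} {I J z : ℕ} (h : X I J = true) :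
    nxt data0 X ⟨I, J, Lane.L 42 z⟩ = some ⟨I + 1, J, Lane.T z⟩ := by
  simp [nxt, gstep, h, Pos.out]

/-- wall outside the gate: `(i+1, j+1)`; cells of the gate: to the right; the T cell before the
trigger: to the pillar `(i-1, j+1)`; last cell (`x = 3 s1 + 1`): down. -/
theorem nx_2b (hP : P.Ok) (hi : i < P.K) (hj : j < P.K)
    (hr : i % 6 = 2) (ht : (P.ev (P.arr bi bj) (i / 6)).t = 2 ∨ (P.ev (P.arr bi bj) (i / 6)).t = 3)
    (hs : Str P (bi * P.K + i, bj * P.K + j) p) (hd : ¬ Dies data0 P.arr p) :
    Goes P (bi * P.K + i, bj * P.K + j) := by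
  have hK := K_pos hP
  have hKQ := K_eq P
  have hK6 : P.K = 6 * P.QQ := rfl
  obtain ⟨A, rfl⟩ : ∃ A, i = 6 * A + 2 := ⟨i / 6, by omega⟩
  have hA6 : (6 * A + 2) / 6 = A := by omega
  rw [hA6] at ht
  obtain ⟨hb0, t, hcls⟩ := (str_loc hP hi hj).mp hs
  have hAQ : A < P.QQ := by omega
  have V := va_all hP (P.arr bi bj) A hAQ
  obtain ⟨e, he⟩ : ∃ e, P.ev (P.arr bi bj) A = e := ⟨_, rfl⟩
  have Vq := V.quiet
  have Vok := V.ok
  rw [he] at ht Vq Vok
  obtain ⟨q1, q2, q3, q4, q5, q6⟩ := Vq (by omega)
  obtain ⟨n1, n2, n3, n4, n5, n11, n6, n7, n8, n9, n10⟩ := Nx2b_num ht Vok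
  -- local bits
  have bit : ∀ {i' j' : ℕ}, i' < P.K → j' < P.K → P.arr (bi * P.K + i') (bj * P.K + j') =
      P.bx (P.arr bi bj) i' (j' + P.K - i' - 1) := fun hi' hj' => arr_loc hP bi bj hi' hj'
  rw [Nx2b_cls he ht] at hcls
  by_cases hreg : 3 * e.x ≤ j + P.K - (6 * A + 2) - 1 ∧ j + P.K - (6 * A + 2) - 1 ≤ 3 * last e + 2
  · rw [if_pos hreg] at hcls
    rw [Nx2b_bx he ht hreg.1 hreg.2, decide_eq_false_iff_not] at hb0
    have hj3 : j + 3 < P.K := by omega
    have hxx : j + 1 + P.K - (6 * A + 2) - 1 = j + P.K - (6 * A + 2) - 1 + 1 := by omega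
    have hc0 : P.arr (bi * P.K + (6 * A + 2)) (bj * P.K + j) = false := by
      rw [bit hi hj, Nx2b_bx he ht hreg.1 hreg.2, decide_eq_false_iff_not]
      exact hb0
    obtain ⟨x, hx⟩ : ∃ x, x = j + P.K - (6 * A + 2) - 1 := ⟨_, rfl⟩
    rw [← hx] at hcls hb0 hreg hxx
    -- next cell in the row
    have go : ∀ (p' : Pos) (t' : ℕ), x + 1 ≤ 3 * last e + 2 → x + 1 ≠ 3 * trig e + 2 →
        P.cls (P.arr bi bj) (bi * P.K + (6 * A + 2)) (bj * P.K + (j + 1)) (6 * A + 2) (j + 1) =
          Cl.s p' t' → ¬ Dies data0 P.arr p' → Goes P (bi * P.K + (6 * A + 2), bj * P.K + j) := by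
      intro p' t' g1 g2 g3 g4
      refine ⟨(bi * P.K + (6 * A + 2), bj * P.K + (j + 1)), p', ?_, g4, Or.inl ⟨?_, ?_, ?_⟩⟩
      · rw [str_loc hP hi (by omega)]
        refine ⟨?_, t', g3⟩
        rw [Nx2b_bx he ht (by omega) (by omega), decide_eq_false_iff_not]
        omega
      · change bj * P.K + (j + 1) = bj * P.K + j + 1
        omega
      · exact Nat.le_succ _
      · exact Nat.le_succ _
    by_cases c1 : x < 3 * s0 e
    · rw [if_pos c1] at hcls
      exact absurd hcls (by simp)
    rw [if_neg c1] at hcls
    by_cases c2 : x = 3 * s0 e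
    · rw [if_pos c2] at hcls
      injection hcls with hp ht'
      refine go ⟨bi * P.K + (6 * A + 2), bj * P.K + (j + 1), Lane.T 0⟩ 0 (by omega) (by omega)
        ?_ ?_
      · rw [Nx2b_cls he ht, hxx, if_pos (by omega), if_neg (by omega), if_neg (by omega),
          if_pos (by omega)]
      · rw [← hp] at hd
        exact hd
    rw [if_neg c2] at hcls
    by_cases c3 : x = 3 * s0 e + 1
    · rw [if_pos c3] at hcls
      injection hcls with hp ht'
      refine go ⟨bi * P.K + (6 * A + 2), bj * P.K + (j + 1), Lane.L 84 0⟩ 0 (by omega) (by omega)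
        ?_ ?_
      · rw [Nx2b_cls he ht, hxx, if_pos (by omega), if_neg (by omega), if_neg (by omega),
          if_neg (by omega), if_pos (by omega)]
        have : 85 - (x + 1 - (3 * s0 e + 1)) = 84 := by omega
        rw [this]
      · intro h
        apply hd
        rw [← hp]
        exact dies_of_nxt (Nx2b_T0 hc0) h
    rw [if_neg c3] at hcls
    by_cases c4 : x < 3 * trig e + 2
    · rw [if_pos c4] at hcls
      injection hcls with hp ht'
      have hstep := Nx2b_Lg (z := 0) hc0 (g := 85 - (x - (3 * s0 e + 1))) (by omega) (by omega)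
        (by omega) (by omega)
      by_cases c5 : x + 1 < 3 * trig e + 2
      · refine go ⟨bi * P.K + (6 * A + 2), bj * P.K + (j + 1),
          Lane.L (85 - (x - (3 * s0 e + 1)) - 1) 0⟩ 0 (by omega) (by omega) ?_ ?_
        · rw [Nx2b_cls he ht, hxx, if_pos (by omega), if_neg (by omega), if_neg (by omega),
            if_neg (by omega), if_pos (by omega)]
          have : 85 - (x + 1 - (3 * s0 e + 1)) = 85 - (x - (3 * s0 e + 1)) - 1 := by omega
          rw [this]
        · intro h
          apply hd
          rw [← hp]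
          exact dies_of_nxt hstep h
      · -- the pillar
        have htr : 85 - (x - (3 * s0 e + 1)) - 1 = trL e := by
          unfold trL
          omega
        have hxp : j + 1 + P.K - (6 * A + 1) - 1 = 3 * (trig e + 1) := by omega
        have hA1 : (6 * A + 1) / 6 = A := by omega
        have hx3 : 3 * (trig e + 1) / 3 = trig e + 1 := by omega
        refine ⟨(bi * P.K + (6 * A + 1), bj * P.K + (j + 1)),
          ⟨bi * P.K + (6 * A + 2), bj * P.K + (j + 1), Lane.L (trL e) 0⟩, ?_, ?_,
          Or.inl ⟨?_, ?_, ?_⟩⟩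
        · rw [str_loc hP (by omega) (by omega)]
          constructor
          · rw [hxp]
            unfold Par.bx
            rw [if_neg (by omega), if_pos (by omega)]
            have : 3 * (trig e + 1) % 3 = 0 := by omega
            simp [this]
          · refine ⟨0, ?_⟩
            unfold Par.cls
            rw [if_neg (by omega), if_pos (by omega), if_neg (by omega), hA1, hxp, hx3, he,
              if_neg (by
                unfold Par.cl
                rw [n10]
                simp), if_pos ⟨ht, rfl⟩]
            rfl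
        · intro h
          apply hd
          rw [← hp]
          refine dies_of_nxt hstep ?_
          rw [htr]
          exact h
        · change bj * P.K + (j + 1) = bj * P.K + j + 1
          omega
        · change bi * P.K + (6 * A + 1) ≤ bi * P.K + (6 * A + 2) + 1
          omega
        · change bi * P.K + (6 * A + 2) ≤ bi * P.K + (6 * A + 1) + 1
          omega
    rw [if_neg c4] at hcls
    by_cases c5 : x ≤ 3 * s1 e + 1
    · rw [if_pos c5] at hcls
      injection hcls with hp ht'
      have hstep := Nx2b_Lg (z := 0) hc0 (g := 3 * s1 e + 2 - x) (by omega) (by omega)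
        (by omega) (by omega)
      by_cases c6 : x = 3 * s1 e + 1
      · -- down
        have hA3 : (6 * A + 3) / 6 = A := by omega
        have hxd : j + P.K - (6 * A + 3) - 1 = 3 * s1 e := by omega
        have hx3 : 3 * s1 e / 3 = s1 e := by omega
        refine ⟨(bi * P.K + (6 * A + 3), bj * P.K + j),
          ⟨bi * P.K + (6 * A + 3), bj * P.K + j + 1, Lane.T 0⟩, ?_, ?_,
          Or.inr ⟨rfl, rfl, ?_, ?_⟩⟩
        · rw [str_loc hP (by omega) hj]
          constructor
          · rw [hxd]
            unfold Par.bx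
            rw [if_neg (by omega), if_neg (by omega), if_neg (by omega), if_pos (by omega), hA3,
              hx3, if_pos (by omega)]
            have hcl4 : P.cl4 (P.arr bi bj) A (s1 e) = true := by
              unfold Par.cl4 Par.W'
              rw [he, n8, n9]
              simp
            unfold Par.cl3
            rw [hcl4]
            rfl
          · refine ⟨0, ?_⟩
            unfold Par.cls
            rw [if_neg (by omega), if_neg (by omega), if_neg (by omega), if_pos (by omega), hA3,
              he, if_neg (by omega)]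
        · intro h
          apply hd
          rw [← hp]
          refine dies_of_nxt hstep ?_
          have h1 : 3 * s1 e + 2 - x - 1 = 0 := by omega
          rw [h1]
          refine dies_of_nxt (Nx2b_Lz ?_) h
          have h2 := bit hi (show j + 1 < P.K by omega)
          rw [← add_assoc (bj * P.K)] at h2
          rw [h2, hxx, Nx2b_bx he ht (by omega) (by omega), decide_eq_false_iff_not]
          omega
        · have := kd_loc hP (i := 6 * A + 2) (j := j) bi bj hi
          change kd (bi * P.K + (6 * A + 2)) (bj * P.K + j) ≠ 0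
          omega
        · have := kd_loc hP (i := 6 * A + 3) (j := j) bi bj (by omega)
          change kd (bi * P.K + (6 * A + 3)) (bj * P.K + j) = 0
          omega
      · refine go ⟨bi * P.K + (6 * A + 2), bj * P.K + (j + 1),
          Lane.L (3 * s1 e + 2 - x - 1) 0⟩ 0 (by omega) (by omega) ?_ ?_
        · rw [Nx2b_cls he ht, hxx, if_pos (by omega), if_neg (by omega), if_neg (by omega),
            if_neg (by omega), if_neg (by omega), if_pos (by omega)]
          have : 3 * s1 e + 2 - (x + 1) = 3 * s1 e + 2 - x - 1 := by omega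
          rw [this]
        · intro h
          apply hd
          rw [← hp]
          exact dies_of_nxt hstep h
    · rw [if_neg c5] at hcls
      exact absurd hcls (by simp)
  · rw [if_neg hreg] at hcls
    injection hcls with hp ht'
    rw [Nx2b_out he ht hreg] at hb0
    by_cases h3 : (j + P.K - (6 * A + 2) - 1) % 3 = 0
    swap
    · rw [if_neg h3] at hb0
      exact absurd hb0 (by simp)
    rw [if_pos h3] at hb0
    obtain ⟨c, hc⟩ : ∃ c, c = (j + P.K - (6 * A + 2) - 1) / 3 := ⟨_, rfl⟩
    have hx3 : j + P.K - (6 * A + 2) - 1 = 3 * c := by omega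
    rw [← hc] at hb0
    have hcl : P.cl (P.arr bi bj) A c = true := by simpa using hb0
    have hW : P.W (P.arr bi bj) A c = true := by
      unfold Par.cl at hcl
      rw [Bool.and_eq_true] at hcl
      exact hcl.1
    have hce : c ≠ P.exitc A := by
      rintro rfl
      rw [q1] at hW
      exact absurd hW (by simp)
    have hhi : c + 2 * A + 3 ≤ 2 * P.Q := by
      rcases V.hi c hW with h | h
      · exfalso
        apply hce
        unfold Par.exitc
        omega
      · exact h
    have hcout : c < e.x ∨ last e < c := by omega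
    have hlx : e.t = 2 → last e = e.x + 16 := by
      intro h
      unfold last
      rw [if_pos h]
    have hlx3 : e.t = 3 → last e = e.x + 14 := by
      intro h
      unfold last
      rw [if_neg (by omega), if_pos h]
    have hcl4 : P.cl4 (P.arr bi bj) A c = true := by
      have m1 : isSrc e c = false := by
        unfold isSrc
        rcases ht with h | h
        · rw [if_neg (by omega), if_pos h, decide_eq_false_iff_not]
          have := hlx h
          omega
        · rw [if_neg (by omega), if_neg (by omega), if_pos h, decide_eq_false_iff_not]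
          have := hlx3 h
          omega
      have m2 : isNew e c = false := by
        unfold isNew
        rw [if_neg (by omega)]
        rcases ht with h | h
        · have := hlx h
          rw [if_pos h]
          split_ifs
          · rw [decide_eq_false_iff_not]
            omega
          · rw [decide_eq_false_iff_not]
            omega
        · rw [if_neg (by omega)]
      unfold Par.cl4 Par.W'
      rw [he, hW, m1, m2]
      simp [hce]
    have hA3 : (6 * A + 3) / 6 = A := by omega
    have hxd : j + 1 + P.K - (6 * A + 3) - 1 = 3 * c := by omega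
    have hc3 : 3 * c / 3 = c := by omega
    have hout1 : ∀ d, 1 ≤ d → d ≤ 2 →
        P.arr (bi * P.K + (6 * A + 2)) (bj * P.K + (j + d)) = true := by
      intro d hd1 hd2
      have e1 : j + d + P.K - (6 * A + 2) - 1 = 3 * c + d := by omega
      rw [bit hi (by omega), e1, Nx2b_out he ht (by omega), if_neg (by omega)]
    refine ⟨(bi * P.K + (6 * A + 3), bj * P.K + (j + 1)),
      ⟨bi * P.K + (6 * A + 3), bj * P.K + (j + 1) + 1, Lane.T 0⟩, ?_, ?_,
      Or.inl ⟨?_, ?_, ?_⟩⟩
    · rw [str_loc hP (by omega) (by omega)]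
      constructor
      · rw [hxd]
        unfold Par.bx
        rw [if_neg (by omega), if_neg (by omega), if_neg (by omega), if_pos (by omega), hA3,
          hc3, if_pos (by omega)]
        unfold Par.cl3
        rw [hcl4]
        rfl
      · refine ⟨0, ?_⟩
        unfold Par.cls
        rw [if_neg (by omega), if_neg (by omega), if_neg (by omega), if_pos (by omega), hA3,
          he, if_neg (by omega)]
    · intro h
      apply hd
      rw [← hp]
      refine dies_of_nxt (Nx2b_T1 (hout1 1 le_rfl (by norm_num))) ?_
      exact dies_of_nxt (Nx2b_L1 (hout1 2 (by norm_num) le_rfl)) h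
    · change bj * P.K + (j + 1) = bj * P.K + j + 1
      omega
    · change bi * P.K + (6 * A + 3) ≤ bi * P.K + (6 * A + 2) + 1
      omega
    · change bi * P.K + (6 * A + 2) ≤ bi * P.K + (6 * A + 3) + 1
      omega

end Pool.Agent.MP_fadef1_lc
end
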