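import Pool.Agent.Lib.MP_fadef1_lc.Mg.G014
import Pool.Agent.Lib.MP_fadef1_lc.Mg.G012
import Pool.Agent.Lib.MP_fadef1_lc.Mg.G011

section

/-! Chains in the row phases 3 and 4. -/

namespace Pool.Agent.MP_fadef1_lc

variable {P : Par} {i j bi bj : ℕ} {p : Pos}

private theorem nx3_bx2 (b : Bool) {i x : ℕ} (hr : i % 6 = 2) : P.bx b i x =
    (if sym (P.ev b (i / 6)) (x / 3) = 0 then
      (if x % 3 = 0 then !P.cl b (i / 6) (x / 3) else true)
    else if sym (P.ev b (i / 6)) (x / 3) = 1 then
      (if x % 3 = 0 then !P.cl b (i / 6) (x / 3) else decide (x % 3 = 1))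
    else if sym (P.ev b (i / 6)) (x / 3) = 2 then false
    else decide (x % 3 = 2)) := by
  unfold Par.bx
  rw [if_neg (by omega), if_neg (by omega), if_pos hr]

private theorem nx3_bx3 (b : Bool) {i x : ℕ} (hr : i % 6 = 3) :
    P.bx b i x = (if x % 3 = 0 then !P.cl3 b (i / 6) (x / 3) else true) := by
  unfold Par.bx
  rw [if_neg (by omega), if_neg (by omega), if_neg (by omega), if_pos hr]

private theorem nx3_bx4 (b : Bool) {i x : ℕ} (hr : i % 6 = 4) :
    P.bx b i x = (if x % 3 = 0 then !P.cl4 b (i / 6) (x / 3)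
      else if x % 3 = 1 then P.W' b (i / 6) (x / 3) || decide (x + i + 1 = P.K)
      else true) := by
  unfold Par.bx
  rw [if_neg (by omega), if_neg (by omega), if_neg (by omega), if_neg (by omega), if_pos hr]

private theorem nx3_bx5 (b : Bool) {i x : ℕ} (hr : i % 6 = 5) :
    P.bx b i x = (if x % 3 = 0 then !P.cl4 b (i / 6) (x / 3) else true) := by
  unfold Par.bx
  rw [if_neg (by omega), if_neg (by omega), if_neg (by omega), if_neg (by omega),
    if_neg (by omega)]

private theorem nx3_cls3 (b : Bool) (I J : ℕ) {i j : ℕ} (hr : i % 6 = 3) :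
    P.cls b I J i j = (if (P.ev b (i / 6)).t = 1 ∧ (j + P.K - i - 1) / 3 = (P.ev b (i / 6)).x then
      Cl.s ⟨I - 1, J + 1, Lane.L 42 0⟩ 1
    else Cl.s ⟨I, J + 1, Lane.T 0⟩ 0) := by
  unfold Par.cls
  rw [if_neg (by omega), if_neg (by omega), if_neg (by omega), if_pos hr]

private theorem nx3_cls4 (b : Bool) (I J : ℕ) {i j : ℕ} (hr : i % 6 = 4) :
    P.cls b I J i j =
      (if (j + P.K - i - 1) % 3 = 0 then Cl.s ⟨I, J + 1, Lane.T 0⟩ 0 else Cl.j) := by
  unfold Par.cls
  rw [if_neg (by omega), if_neg (by omega), if_neg (by omega), if_neg (by omega), if_pos hr]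

private theorem nx3_cls5 (b : Bool) (I J : ℕ) {i j : ℕ} (hr : i % 6 = 5) :
    P.cls b I J i j = Cl.s ⟨I, J + 1, Lane.T 0⟩ 0 := by
  unfold Par.cls
  rw [if_neg (by omega), if_neg (by omega), if_neg (by omega), if_neg (by omega),
    if_neg (by omega)]

private theorem nx3_step {I J : ℕ} (h1 : P.arr I (J + 1) = true) (h2 : P.arr I (J + 2) = true)
    (hd : ¬ Dies data0 P.arr ⟨I, J + 1, Lane.T 0⟩) :
    ¬ Dies data0 P.arr ⟨I + 1, J + 1 + 1, Lane.T 0⟩ := by
  intro h
  refine hd (dies_of_nxt (q := ⟨I, J + 2, Lane.L 42 0⟩) ?_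
    (dies_of_nxt (q := ⟨I + 1, J + 2, Lane.T 0⟩) ?_ h))
  · unfold nxt
    simp only [h1, gstep, if_true, Option.map_some, Pos.out]
  · unfold nxt
    simp only [h2, gstep, if_true, Option.map_some, Pos.out]

/-- wall: `(i+1, j+1)`; stub: `(i-1, j+1)` (first cell of the run). -/
theorem nx_3 (hP : P.Ok) (hi : i < P.K) (hj : j < P.K)
    (hr : i % 6 = 3)
    (hs : Str P (bi * P.K + i, bj * P.K + j) p) (hd : ¬ Dies data0 P.arr p) :
    Goes P (bi * P.K + i, bj * P.K + j) := by
  have hK : P.K = 6 * P.QQ := rfl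
  rw [str_loc hP hi hj] at hs
  obtain ⟨hb, t, hc⟩ := hs
  rw [nx3_bx3 _ hr] at hb
  rw [nx3_cls3 _ _ _ hr] at hc
  have hx3 : (j + P.K - i - 1) % 3 = 0 := by
    by_contra h3
    rw [if_neg h3] at hb
    exact absurd hb (by decide)
  rw [if_pos hx3] at hb
  have hcl3 : P.cl3 (P.arr bi bj) (i / 6) ((j + P.K - i - 1) / 3) = true := by
    revert hb
    cases P.cl3 (P.arr bi bj) (i / 6) ((j + P.K - i - 1) / 3) <;> simp
  have hj1 : j + 1 < P.K := by omega
  have hkd : kd (bi * P.K + i) (bj * P.K + j) = 0 := by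
    rw [kd_loc hP bi bj hi, hx3]
  by_cases hst : (P.ev (P.arr bi bj) (i / 6)).t = 1 ∧
      (j + P.K - i - 1) / 3 = (P.ev (P.arr bi bj) (i / 6)).x
  · rw [if_pos hst] at hc
    have hp : p = ⟨bi * P.K + i - 1, bj * P.K + j + 1, Lane.L 42 0⟩ := by
      injection hc with h1 h2
      exact h1.symm
    have hQ : i / 6 < P.QQ := by omega
    have hva := (va_all hP (P.arr bi bj) (i / 6) hQ).ok.t1 hst.1
    have e1 : bi * P.K + i - 1 = bi * P.K + (i - 1) := by omega
    have e2 : bj * P.K + j + 1 = bj * P.K + (j + 1) := by omega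
    have e3 : (i - 1) / 6 = i / 6 := by omega
    have e4 : j + 1 + P.K - (i - 1) - 1 = j + P.K - i - 1 + 2 := by omega
    have e5 : (j + P.K - i - 1 + 2) / 3 = (j + P.K - i - 1) / 3 := by omega
    refine ⟨(bi * P.K + (i - 1), bj * P.K + (j + 1)), p, ?_, hd, Or.inl ?_⟩
    · rw [str_loc hP (by omega) hj1]
      constructor
      · rw [nx3_bx2 _ (by omega), e3, e4, e5]
        have hsym : sym (P.ev (P.arr bi bj) (i / 6)) ((j + P.K - i - 1) / 3) = 1 := by
          unfold sym
          rw [if_pos hst.1, if_pos hst.2]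
        rw [hsym, if_neg (by decide), if_pos rfl, if_neg (by omega)]
        exact decide_eq_false (by omega)
      · refine ⟨0, ?_⟩
        unfold Par.cls
        rw [if_neg (by omega), if_neg (by omega), if_pos (by omega), e3, e4, if_pos hst.1,
          if_pos (by omega), hp, e1, e2]
    · simp only
      omega
  · rw [if_neg hst] at hc
    have hp : p = ⟨bi * P.K + i, bj * P.K + j + 1, Lane.T 0⟩ := by
      injection hc with h1 h2
      exact h1.symm
    have hcl4 : P.cl4 (P.arr bi bj) (i / 6) ((j + P.K - i - 1) / 3) = true := by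
      unfold Par.cl3 at hcl3
      rw [Bool.or_eq_true, Bool.and_eq_true, decide_eq_true_eq, decide_eq_true_eq] at hcl3
      rcases hcl3 with h | h
      · exact h
      · exact absurd h hst
    have e3 : (i + 1) / 6 = i / 6 := by omega
    have e4 : j + 1 + P.K - (i + 1) - 1 = j + P.K - i - 1 := by omega
    have hrow : (bi * P.K + i) % 6 = 3 := by rw [row_mod hP bi i, hr]
    refine ⟨(bi * P.K + (i + 1), bj * P.K + (j + 1)),
      ⟨bi * P.K + i + 1, bj * P.K + j + 1 + 1, Lane.T 0⟩, ?_, ?_, Or.inl ?_⟩
    · rw [str_loc hP (by omega) hj1]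
      constructor
      · rw [nx3_bx4 _ (by omega), e3, e4, if_pos hx3, hcl4]
        rfl
      · refine ⟨0, ?_⟩
        rw [nx3_cls4 _ _ _ (by omega), e4, if_pos hx3]
        rfl
    · refine nx3_step (gb3 hP hrow ?_) (gb3 hP hrow ?_) (hp ▸ hd)
      · unfold kd at hkd ⊢
        omega
      · unfold kd at hkd ⊢
        omega
    · simp only
      omega

/-- wall: `(i+1, j+1)` -/
theorem nx_4 (hP : P.Ok) (hi : i < P.K) (hj : j < P.K)
    (hr : i % 6 = 4)
    (hs : Str P (bi * P.K + i, bj * P.K + j) p) (hd : ¬ Dies data0 P.arr p) :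
    Goes P (bi * P.K + i, bj * P.K + j) := by
  have hK : P.K = 6 * P.QQ := rfl
  have hQdef : P.Q = 2 * P.QQ := rfl
  rw [str_loc hP hi hj] at hs
  obtain ⟨hb, t, hc⟩ := hs
  rw [nx3_bx4 _ hr] at hb
  rw [nx3_cls4 _ _ _ hr] at hc
  have hx3 : (j + P.K - i - 1) % 3 = 0 := by
    by_contra h3
    rw [if_neg h3] at hc
    cases hc
  rw [if_pos hx3] at hb hc
  have hp : p = ⟨bi * P.K + i, bj * P.K + j + 1, Lane.T 0⟩ := by
    injection hc with h1 h2
    exact h1.symm
  have hcl4 : P.cl4 (P.arr bi bj) (i / 6) ((j + P.K - i - 1) / 3) = true := by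
    revert hb
    cases P.cl4 (P.arr bi bj) (i / 6) ((j + P.K - i - 1) / 3) <;> simp
  have hkd : kd (bi * P.K + i) (bj * P.K + j) = 0 := by
    rw [kd_loc hP bi bj hi, hx3]
  have hQ : i / 6 < P.QQ := by omega
  have hva := va_all hP (P.arr bi bj) (i / 6) hQ
  have hW' : P.W' (P.arr bi bj) (i / 6) ((j + P.K - i - 1) / 3) = true := by
    unfold Par.cl4 at hcl4
    rw [Bool.and_eq_true] at hcl4
    exact hcl4.1
  have hj1 : j + 1 < P.K := by
    by_contra hcon
    have hjK : j + 1 = P.K := by omega
    have hc' : (j + P.K - i - 1) / 3 + 2 * (i / 6) + 2 = 2 * P.Q := by omega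
    unfold Par.W' at hW'
    rw [Bool.or_eq_true, Bool.and_eq_true, Bool.and_eq_true] at hW'
    rcases hW' with h | h
    · have := hva.hi _ h.1.1
      omega
    · have hd' : (P.ev (P.arr bi bj) (i / 6)).t ≠ 0 := by
        intro h0
        unfold isDst at h
        rw [if_neg (by omega), if_neg (by omega), if_neg (by omega), if_neg (by omega)] at h
        exact absurd h (by decide)
      have hq := (hva.quiet hd').2.2.2.2.2
      unfold isDst at h
      unfold lst at hq
      split_ifs at h hq <;> simp only [decide_eq_true_eq] at h <;> omega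
  have e3 : (i + 1) / 6 = i / 6 := by omega
  have e4 : j + 1 + P.K - (i + 1) - 1 = j + P.K - i - 1 := by omega
  have hrow : (bi * P.K + i) % 6 = 4 := by rw [row_mod hP bi i, hr]
  refine ⟨(bi * P.K + (i + 1), bj * P.K + (j + 1)),
    ⟨bi * P.K + i + 1, bj * P.K + j + 1 + 1, Lane.T 0⟩, ?_, ?_, Or.inl ?_⟩
  · rw [str_loc hP (by omega) hj1]
    constructor
    · rw [nx3_bx5 _ (by omega), e3, e4, if_pos hx3, hcl4]
      rfl
    · exact ⟨0, nx3_cls5 _ _ _ (by omega)⟩
  · refine nx3_step ?_ (gb4 hP hrow ?_) (hp ▸ hd)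
    · have e5 : bj * P.K + j + 1 = bj * P.K + (j + 1) := by omega
      rw [e5, arr_loc hP bi bj hi hj1]
      unfold Par.bit
      have e6 : j + 1 + P.K - i - 1 = j + P.K - i - 1 + 1 := by omega
      have e7 : (j + P.K - i - 1 + 1) / 3 = (j + P.K - i - 1) / 3 := by omega
      rw [nx3_bx4 _ hr, e6, if_neg (by omega), if_pos (by omega), e7, hW', Bool.true_or]
    · unfold kd at hkd ⊢
      omega
  · simp only
    omega

end Pool.Agent.MP_fadef1_lc
end

section

/-! Chains in row phase 5. -/

namespace Pool.Agent.MP_fadef1_lc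

variable {P : Par} {i j bi bj : ℕ} {p : Pos}

private theorem nx5_step {I J : ℕ} (h1 : P.arr I (J + 1) = true) (h2 : P.arr I (J + 2) = true)
    (hd : ¬ Dies data0 P.arr ⟨I, J + 1, Lane.T 0⟩) :
    ¬ Dies data0 P.arr ⟨I + 1, J + 1 + 1, Lane.T 0⟩ := by
  intro h
  refine hd (dies_of_nxt (q := ⟨I, J + 2, Lane.L 42 0⟩) ?_
    (dies_of_nxt (q := ⟨I + 1, J + 2, Lane.T 0⟩) ?_ h))
  · unfold nxt
    simp only [h1, gstep, if_true, Option.map_some, Pos.out]
  · unfold nxt
    simp only [h2, gstep, if_true, Option.map_some, Pos.out]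

/-- the lane of a wire that is cut before a gate dies in the gate -/
private theorem nx5_cut {W : ℕ → Bool} {e : Ev} {c : ℕ} (he : EvOk W e)
    (hc : isCut e c = true) : e.t = 2 ∧ (c = e.x ∨ c = e.x + 2) ∧
      estep data0 e (c, 0) = none := by
  unfold isCut at hc
  rw [Bool.and_eq_true, decide_eq_true_eq] at hc
  obtain ⟨ht, hc⟩ := hc
  obtain ⟨y4, -⟩ := he.t2 ht
  refine ⟨ht, ?_, ?_⟩
  · by_cases hy : e.y % 2 = 0
    · rw [if_pos hy, decide_eq_true_eq] at hc; exact Or.inr hc
    · rw [if_neg hy, decide_eq_true_eq] at hc; exact Or.inl hc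
  · unfold estep
    rw [if_neg (by omega), if_pos ht]
    by_cases hy : e.y % 2 = 0
    · rw [if_pos hy, decide_eq_true_eq] at hc
      rw [if_neg (by show ¬ c = e.x; omega), if_pos (by show c = e.x + 2; exact hc)]
      have : data0.g e.y (1, 0) = none := by
        have h2 : e.y = 0 ∨ e.y = 2 := by omega
        rcases h2 with h2 | h2 <;> rw [h2] <;> rfl
      show (if data0.mort = true then (data0.g e.y (1, 0)).map _ else none) = none
      rw [this]; rfl
    · rw [if_neg hy, decide_eq_true_eq] at hc
      rw [if_pos (by show c = e.x; exact hc)]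
      have : data0.g e.y (0, 0) = none := by
        have h2 : e.y = 1 ∨ e.y = 3 := by omega
        rcases h2 with h2 | h2 <;> rw [h2] <;> rfl
      show (if data0.mort = true then (data0.g e.y (0, 0)).map _ else none) = none
      rw [this]; rfl

/-- wall: `(i+1, j+1)` (also in the block below). If the wire is cut at the next gate its lane dies
there (`sb_none` for `data0`), a contradiction. -/
theorem nx_5 (hP : P.Ok) (hi : i < P.K) (hj : j < P.K)
    (hr : i % 6 = 5)
    (hs : Str P (bi * P.K + i, bj * P.K + j) p) (hd : ¬ Dies data0 P.arr p) :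
    Goes P (bi * P.K + i, bj * P.K + j) := by
  have hK : P.K = 6 * P.QQ := rfl
  have hQdef : P.Q = 2 * P.QQ := rfl
  rw [str_loc hP hi hj] at hs
  obtain ⟨hb, t, hc⟩ := hs
  have hcls : P.cls (P.arr bi bj) (bi * P.K + i) (bj * P.K + j) i j =
      Cl.s ⟨bi * P.K + i, bj * P.K + j + 1, Lane.T 0⟩ 0 := by
    unfold Par.cls
    rw [if_neg (by omega), if_neg (by omega), if_neg (by omega), if_neg (by omega),
      if_neg (by omega)]
  rw [hcls] at hc
  unfold Par.bx at hb
  rw [if_neg (by omega), if_neg (by omega), if_neg (by omega), if_neg (by omega),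
    if_neg (by omega)] at hb
  have hx3 : (j + P.K - i - 1) % 3 = 0 := by
    by_contra h3
    rw [if_neg h3] at hb
    exact absurd hb (by decide)
  rw [if_pos hx3] at hb
  have hp : p = ⟨bi * P.K + i, bj * P.K + j + 1, Lane.T 0⟩ := by
    injection hc with h1 h2
    exact h1.symm
  have hcl4 : P.cl4 (P.arr bi bj) (i / 6) ((j + P.K - i - 1) / 3) = true := by
    revert hb
    cases P.cl4 (P.arr bi bj) (i / 6) ((j + P.K - i - 1) / 3) <;> simp
  have hkd : kd (bi * P.K + i) (bj * P.K + j) = 0 := by
    rw [kd_loc hP bi bj hi, hx3]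
  have hW' : P.W' (P.arr bi bj) (i / 6) ((j + P.K - i - 1) / 3) = true := by
    unfold Par.cl4 at hcl4
    rw [Bool.and_eq_true] at hcl4
    exact hcl4.1
  have hW : P.W (P.arr bi bj) (i / 6 + 1) ((j + P.K - i - 1) / 3) = true :=
    W_succ.mpr (Or.inl hW')
  have hrow : (bi * P.K + i) % 6 = 5 := by rw [row_mod hP bi i, hr]
  have hj2 : j + 2 < P.K := by omega
  -- the walk goes on to the cell to the right of the next wall cell
  have hnd : ¬ Dies data0 P.arr ⟨bi * P.K + i + 1, bj * P.K + j + 1 + 1, Lane.T 0⟩ := by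
    refine nx5_step (gb5 hP hrow ?_) (gb5 hP hrow ?_) (hp ▸ hd)
    · unfold kd at hkd ⊢
      omega
    · unfold kd at hkd ⊢
      omega
  by_cases hlast : i + 1 < P.K
  · have hA : i / 6 + 1 < P.QQ := by omega
    have e3 : (i + 1) / 6 = i / 6 + 1 := by omega
    have e4 : j + 1 + P.K - (i + 1) - 1 = j + P.K - i - 1 := by omega
    have hva := va_all hP (P.arr bi bj) (i / 6 + 1) hA
    have hz : P.zrow (P.arr bi bj) (i / 6 + 1) = false := by
      by_contra hcc
      have := (hva.zr (by simpa using hcc)).1 ((j + P.K - i - 1) / 3)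
      rw [hW] at this
      exact absurd this (by decide)
    have hcut : isCut (P.ev (P.arr bi bj) (i / 6 + 1)) ((j + P.K - i - 1) / 3) = false := by
      by_contra hcc
      obtain ⟨ht, hx, hn⟩ := nx5_cut hva.ok (by simpa using hcc)
      obtain ⟨q1, q2, q3, q4, q5, q6⟩ := hva.quiet (by omega)
      unfold lst at q6
      rw [if_neg (by omega), if_pos ht] at q6
      have hdie := ldies_lift hP bi bj (sb_none hP data0_ok hA hva hW (by omega) (by omega)
        (by omega) (show 0 < data0.w by decide) hn)
      apply hnd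
      have : (P.TP (i / 6 + 1) ((j + P.K - i - 1) / 3) 0).sh (bi * P.K) (bj * P.K) =
          ⟨bi * P.K + i + 1, bj * P.K + j + 1 + 1, Lane.T 0⟩ := by
        unfold Par.TP Par.ps Pos.sh
        rw [Pos.mk.injEq]
        refine ⟨?_, ?_, rfl⟩
        · show bi * P.K + 6 * (i / 6 + 1) = _
          omega
        · show bj * P.K + (6 * (i / 6 + 1) + (3 * ((j + P.K - i - 1) / 3) + 1) + 1 - P.K) = _
          omega
      rw [← this]
      exact hdie
    refine ⟨(bi * P.K + (i + 1), bj * P.K + (j + 1)),
      ⟨bi * P.K + i + 1, bj * P.K + j + 1 + 1, Lane.T 0⟩, ?_, hnd, Or.inl ?_⟩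
    · rw [str_loc hP hlast (by omega)]
      constructor
      · unfold Par.bx
        rw [if_pos (by omega), e3, e4, if_neg (by rw [hz]; decide), if_neg (by simp), if_pos hx3]
        unfold Par.cl
        rw [hW, hcut]
        rfl
      · refine ⟨0, ?_⟩
        unfold Par.cls
        rw [if_pos (by omega), e3, if_neg (by rw [hz]; decide), if_neg (by omega)]
        rfl
    · simp only
      omega
  · -- the block below
    have hiK : i = P.K - 1 := by omega
    have hb85 : P.base 85 ≤ P.QQ := by
      have := hP.hQQ P.cE (by simp)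
      show P.H0 + 85 * P.Hs ≤ P.QQ
      omega
    have hA : i / 6 + 1 = P.QQ := by omega
    rw [hA] at hW
    obtain ⟨k, hk, hck⟩ := (sw_tail hP (P.arr bi bj) hb85 le_rfl _).mp hW
    have hH := hP.hHs P.cE (by simp)
    have hQQ := hP.hQQ P.cE (by simp)
    have hbk : P.base 42 + k + 100 ≤ P.QQ := by
      show P.H0 + 42 * P.Hs + k + 100 ≤ P.QQ
      omega
    have hck2 : (j + P.K - i - 1) / 3 + P.Q = P.ex 42 k := by
      rw [hck]
      unfold Par.en Par.ex
      omega
    have hc14 : 14 ≤ (j + P.K - i - 1) / 3 := by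
      rw [hck]
      unfold Par.en
      omega
    obtain ⟨t1, t2, t3, t4⟩ := top_zone hP (P.arr (bi + 1) bj) (A := 0) (by omega)
    have hW0 : P.W (P.arr (bi + 1) bj) 0 ((j + P.K - i - 1) / 3 + P.Q) = true := by
      rw [t4, hck2]
      unfold Par.W0
      rw [Bool.or_eq_true]
      left
      rw [List.any_eq_true]
      exact ⟨k, List.mem_range.mpr hk, by simp⟩
    have e1 : bi * P.K + i + 1 = (bi + 1) * P.K + 0 := by
      rw [Nat.add_mul]; omega
    have e4 : j + 1 + P.K - 0 - 1 = j + P.K - i - 1 + P.K := by omega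
    have e5 : (j + P.K - i - 1 + P.K) / 3 = (j + P.K - i - 1) / 3 + P.Q := by omega
    refine ⟨((bi + 1) * P.K + 0, bj * P.K + (j + 1)),
      ⟨bi * P.K + i + 1, bj * P.K + j + 1 + 1, Lane.T 0⟩, ?_, hnd, Or.inl ?_⟩
    · rw [str_loc hP (by omega) (by omega)]
      constructor
      · unfold Par.bx
        rw [if_pos (by omega), if_neg (by rw [Nat.zero_div, t3]; decide), e4]
        have hgt : ¬ (j + P.K - i - 1 + P.K ≤ P.K + 41) := by omega
        rw [if_neg (by simp [hgt]), if_pos (by omega), e5, Nat.zero_div]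
        unfold Par.cl
        rw [hW0, t1]
        rfl
      · refine ⟨0, ?_⟩
        unfold Par.cls
        rw [if_pos (by omega), if_neg (by rw [Nat.zero_div, t3]; decide), if_neg (by omega), ← e1]
        rfl
    · simp only
      omega

end Pool.Agent.MP_fadef1_lc
end

section

/-! Ring condition: walls in row phase 1. -/

namespace Pool.Agent.MP_fadef1_lc

variable {P : Par} {i j bi bj : ℕ}

private theorem rca_lo {a b : ℕ} (h : b < a) : cmp 0 a b :=
  ⟨fun _ => h, fun h => absurd h (by decide)⟩

private theorem rca_hi {a b : ℕ} (h : a < b) : cmp 2 a b :=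
  ⟨fun h => absurd h (by decide), fun _ => h⟩

private theorem rca_bit (hP : P.Ok) {i j : ℕ} (hi : i < P.K) (hj : j < P.K) :
    P.arr (bi * P.K + i) (bj * P.K + j) = P.bx (P.arr bi bj) i (j + P.K - i - 1) := by
  rw [arr_loc hP _ _ hi hj]
  rfl

private theorem rca_gb0 (b : Bool) {A x : ℕ} (hx : x % 3 ≠ 0) : P.bx b (6 * A) x = false ↔
    (P.zrow b A = true ∨ (b = true ∧ A = 0 ∧ P.K ≤ x ∧ x ≤ P.K + 41)) := by
  have h1 : 6 * A % 6 = 0 := by omega
  have h2 : 6 * A / 6 = A := by omega
  unfold Par.bx
  rw [if_pos h1, h2]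
  by_cases hz : P.zrow b A = true
  · rw [if_pos hz]
    simp [hz]
  · rw [if_neg hz]
    by_cases hc : (b && decide (6 * A = 0 ∧ P.K ≤ x ∧ x ≤ P.K + 41)) = true
    · rw [if_pos hc]
      rw [Bool.and_eq_true, decide_eq_true_eq] at hc
      constructor
      · intro _
        exact Or.inr ⟨hc.1, by omega, hc.2.2.1, hc.2.2.2⟩
      · intro _
        rfl
    · rw [if_neg hc, if_neg hx]
      constructor
      · intro h
        exact absurd h (by simp)
      · rintro (h | ⟨hb, hA, h3, h4⟩)
        · exact absurd h hz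
        · exfalso
          apply hc
          rw [Bool.and_eq_true, decide_eq_true_eq]
          exact ⟨hb, by omega, h3, h4⟩

private theorem rca_w0 (hP : P.Ok) {b : Bool} {c : ℕ} (h : P.W b 0 c = true)
    (hc : c ≤ P.Q + 13) : b = true ∧ c = P.Q + 13 := by
  have hW : P.W b 0 c = P.W0 b c := rfl
  rw [hW] at h
  unfold Par.W0 at h
  rw [Bool.or_eq_true, List.any_eq_true, Bool.and_eq_true] at h
  rcases h with ⟨k, hk, h⟩ | ⟨h1, h2⟩
  · exfalso
    have h := of_decide_eq_true h
    have hk := List.mem_range.mp hk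
    have h1 := hP.hQQ P.cE (by simp)
    have h2 := hP.hHs P.cE (by simp)
    have h4 : P.base 42 = P.H0 + 42 * P.Hs := rfl
    have hQ : P.Q = 2 * P.QQ := rfl
    unfold Par.ex at h
    generalize (P.cE.length + 2) * (20 * P.M + 30) = x at h1
    generalize (P.cE.length + 2) * (3 * P.M + 3) = y at h2
    omega
  · exact ⟨h1, of_decide_eq_true h2⟩

/-- closed wall in row phase 1: only `(i-1, j-1)` is higher (for the extra wire at `A = 0` it is
the cell `(0, 40)`, state `L 2`; `(0,41)`, `(0,42)` are junk). `(i+1, j-1)`, `(i+1, j)` are `1` or left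
junk of a gate. -/
theorem rc_w1 (hP : P.Ok) (hf : AllFin P) (hi : i < P.K) (hj : j < P.K)
    (hr : i % 6 = 1) (hk : (j + P.K - i - 1) % 3 = 0) (hj1 : j + 1 < P.K)
    (hc : P.cl (P.arr bi bj) (i / 6) ((j + P.K - i - 1) / 3) = true) :
    RC P (bi * P.K + i) (bj * P.K + j) := by
  have hK := K_pos hP
  have hK6 : P.K = 6 * P.QQ := rfl
  have hQ : P.Q = 2 * P.QQ := rfl
  obtain ⟨A, hA⟩ : ∃ A, i = 6 * A + 1 := ⟨i / 6, by omega⟩
  obtain ⟨c, hx⟩ : ∃ c, j + P.K - i - 1 = 3 * c := ⟨(j + P.K - i - 1) / 3, by omega⟩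
  have hAd : i / 6 = A := by omega
  have hcd : (j + P.K - i - 1) / 3 = c := by omega
  rw [hAd, hcd] at hc
  have hj2 : 2 ≤ j := by omega
  have hAQ : A < P.QQ := by omega
  generalize hb : P.arr bi bj = b at *
  have hW : P.W b A c = true ∧ isCut (P.ev b A) c = false := by
    unfold Par.cl at hc
    rw [Bool.and_eq_true, Bool.not_eq_true'] at hc
    exact hc
  have hV := va_all hP b A hAQ
  have hzr : ¬ P.zrow b A = true := by
    intro h
    have := (hV.zr h).1 c
    rw [hW.1] at this
    exact absurd this (by simp)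
  -- the bits of the neighbours
  have hbit : ∀ i' j' : ℕ, i' < P.K → j' < P.K →
      P.arr (bi * P.K + i') (bj * P.K + j') = P.bx b i' (j' + P.K - i' - 1) := by
    intro i' j' h1 h2
    rw [rca_bit hP h1 h2, hb]
  have hrk : ∀ i' j' : ℕ, i' < P.K → j' < P.K → P.rk (bi * P.K + i', bj * P.K + j') =
      if P.bx b i' (j' + P.K - i' - 1) then 0 else
      P.rkc i' j' (P.cls b (bi * P.K + i') (bj * P.K + j') i' j') := by
    intro i' j' h1 h2
    rw [rk_loc hP h1 h2, hb]
  have b1 : ∀ x, P.bx b i x = !decide (x % 3 = 0) := by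
    intro x
    simp [Par.bx, hr]
  -- the cell
  have hcell : P.rk (bi * P.K + i, bj * P.K + j) =
      7 * P.K + 10 + 2 * rem data0 P.arr ⟨bi * P.K + i, bj * P.K + j + 1, Lane.T 0⟩ := by
    rw [hrk i j hi hj, b1, hk]
    have : P.cls b (bi * P.K + i) (bj * P.K + j) i j =
        Cl.s ⟨bi * P.K + i, bj * P.K + j + 1, Lane.T 0⟩ 0 := by
      unfold Par.cls
      rw [if_neg (by omega), if_pos hr, if_neg (by omega), hAd, hcd, if_pos hc]
    rw [this]
    rfl
  -- the walk
  have a1 : P.arr (bi * P.K + i) (bj * P.K + j + 1) = true := by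
    have := hbit i (j + 1) hi hj1
    rw [← Nat.add_assoc] at this
    rw [this, b1, decide_eq_false (by omega)]
    rfl
  have a2 : P.arr (bi * P.K + i) (bj * P.K + j + 1 + 1) = true := by
    by_cases hj2' : j + 2 < P.K
    · have := hbit i (j + 2) hi hj2'
      have e : bj * P.K + (j + 2) = bj * P.K + j + 1 + 1 := by omega
      rw [e] at this
      rw [this, b1, decide_eq_false (by omega)]
      rfl
    · exfalso
      omega
  have r1 := rem_T1 hf a1
  have r2 := rem_L1 hf a2
  -- neighbours
  have n2 : P.rk (bi * P.K + i, bj * P.K + j + 1) = 0 := rk_one a1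
  have n6 : P.rk (bi * P.K + i, bj * P.K + j - 1) = 0 := by
    apply rk_one
    have := hbit i (j - 1) hi (by omega)
    have e : bj * P.K + (j - 1) = bj * P.K + j - 1 := by omega
    rw [e] at this
    rw [this, b1, decide_eq_false (by omega)]
    rfl
  -- the event
  have hok := hV.ok
  have ht := hok.t
  -- symbol of the channel on the left
  have hsym : sym (P.ev b A) (c - 1) = 0 ∨ ((P.ev b A).t = 2 ∧ c = (P.ev b A).x + 2 ∧
      (P.ev b A).y % 2 = 1) := by
    have h1 := hok.t1
    have h2 := hok.t2
    have h3 := hok.t3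
    have hcut := hW.2
    have hc1 : 1 ≤ c := by omega
    by_cases t1 : (P.ev b A).t = 1
    · left
      obtain ⟨-, q2, q3⟩ := h1 t1
      unfold sym
      rw [if_pos t1]
      rcases Nat.lt_trichotomy c (P.ev b A).x with hlt | heq | hgt
      · rw [if_neg (by omega), if_neg (by omega), if_neg (by omega)]
      · rw [if_neg (by omega), if_neg (by omega), if_neg (by omega)]
      · rcases q3 c hW.1 (by omega) with q | q
        · omega
        · rw [if_neg (by omega), if_neg (by omega), if_neg (by omega)]
    · by_cases t2 : (P.ev b A).t = 2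
      · obtain ⟨-, -, -, q⟩ := h2 t2
        have hl : last (P.ev b A) = (P.ev b A).x + 16 := by simp [last, t2]
        by_cases c0 : c = (P.ev b A).x
        · left
          unfold sym
          rw [if_neg t1, if_pos (Or.inl t2), if_neg (by omega)]
        · by_cases c2 : c = (P.ev b A).x + 2
          · right
            refine ⟨t2, c2, ?_⟩
            by_contra hy
            have hy0 : (P.ev b A).y % 2 = 0 := by omega
            unfold isCut at hcut
            rw [t2, if_pos hy0, c2] at hcut
            simp at hcut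
          · left
            unfold sym
            rw [if_neg t1, if_pos (Or.inl t2), hl]
            rcases q c hW.1 c0 c2 with q | q
            · rw [if_neg (by omega)]
            · rw [if_neg (by omega)]
      · left
        by_cases t3 : (P.ev b A).t = 3
        · obtain ⟨-, q⟩ := h3 t3
          have hl : last (P.ev b A) = (P.ev b A).x + 14 := by simp [last, t3]
          unfold sym
          rw [if_neg t1, if_pos (Or.inr t3), hl]
          by_cases c0 : c = (P.ev b A).x
          · rw [if_neg (by omega)]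
          · rcases q c hW.1 c0 with q | q
            · rw [if_neg (by omega)]
            · rw [if_neg (by omega)]
        · unfold sym
          rw [if_neg t1, if_neg (by omega)]
  have hi2 : (i + 1) % 6 = 2 := by omega
  have hi2d : (i + 1) / 6 = A := by omega
  -- row 2 cells of the left channel
  have hleft : ∀ j' : ℕ, j' < P.K → (j' + P.K - (i + 1) - 1 = 3 * (c - 1) + 1 ∨
      j' + P.K - (i + 1) - 1 = 3 * (c - 1) + 2) →
      P.rk (bi * P.K + (i + 1), bj * P.K + j') < 7 * P.K + 10 := by
    intro j' hj' hx'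
    rw [hrk (i + 1) j' (by omega) hj']
    rcases hsym with hs | ⟨t2, c2, hy⟩
    · have : P.bx b (i + 1) (j' + P.K - (i + 1) - 1) = true := by
        unfold Par.bx
        rw [if_neg (by omega), if_neg (by omega), if_pos hi2, hi2d]
        have e : (j' + P.K - (i + 1) - 1) / 3 = c - 1 := by omega
        rw [e, hs, if_pos rfl, if_neg (by omega)]
      rw [this]
      simp
    · have hcl : P.cls b (bi * P.K + (i + 1)) (bj * P.K + j') (i + 1) j' = Cl.l := by
        have hs0 : s0 (P.ev b A) = (P.ev b A).x + 2 := by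
          unfold s0
          rw [if_pos ⟨t2, hy⟩]
        have hl : last (P.ev b A) = (P.ev b A).x + 16 := by simp [last, t2]
        unfold Par.cls
        rw [if_neg (by omega), if_neg (by omega), if_pos hi2, hi2d, if_neg (by omega),
          if_pos ⟨Or.inl t2, by omega, by omega⟩, if_pos (by omega)]
      rw [hcl]
      by_cases hbx : P.bx b (i + 1) (j' + P.K - (i + 1) - 1) = true
      · rw [hbx]
        simp
      · rw [if_neg hbx]
        show 3 * P.K + 2 + (i + 1 + 2 * j') < 7 * P.K + 10
        omega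
  have n5 : P.rk (bi * P.K + i + 1, bj * P.K + j - 1) < 7 * P.K + 10 := by
    have := hleft (j - 1) (by omega) (Or.inl (by omega))
    have e : bj * P.K + (j - 1) = bj * P.K + j - 1 := by omega
    rw [e, ← Nat.add_assoc] at this
    exact this
  have n4 : P.rk (bi * P.K + i + 1, bj * P.K + j) < 7 * P.K + 10 := by
    have := hleft j (by omega) (Or.inr (by omega))
    rw [← Nat.add_assoc] at this
    exact this
  -- the next cell of the chain
  have n3 : P.rk (bi * P.K + i + 1, bj * P.K + j + 1) ≤
      7 * P.K + 10 + 2 * rem data0 P.arr ⟨bi * P.K + i + 1, bj * P.K + j + 1 + 1, Lane.T 0⟩ + 1 := by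
    have h := hrk (i + 1) (j + 1) (by omega) hj1
    rw [← Nat.add_assoc, ← Nat.add_assoc] at h
    rw [h]
    by_cases hbx : P.bx b (i + 1) (j + 1 + P.K - (i + 1) - 1) = true
    · rw [hbx]
      simp
    · rw [if_neg hbx]
      have hx' : j + 1 + P.K - (i + 1) - 1 = 3 * c := by omega
      have : P.cls b (bi * P.K + i + 1) (bj * P.K + j + 1) (i + 1) (j + 1) =
          Cl.s ⟨bi * P.K + i + 1, bj * P.K + j + 1 + 1, Lane.T 0⟩ 1 := by
        have h1 := hok.t1
        have h2 := hok.t2
        have h3 := hok.t3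
        have hcut := hW.2
        unfold Par.cls
        rw [if_neg (by omega), if_neg (by omega), if_pos hi2, hi2d, hx']
        by_cases t1 : (P.ev b A).t = 1
        · obtain ⟨-, q2, q3⟩ := h1 t1
          rw [if_pos t1]
          by_cases c0 : c = (P.ev b A).x
          · rw [if_neg (by omega)]
          · rcases q3 c hW.1 c0 with q | q
            · rw [if_neg (by omega)]
            · rw [if_neg (by omega)]
        · rw [if_neg t1]
          by_cases t2 : (P.ev b A).t = 2
          · obtain ⟨-, -, -, q⟩ := h2 t2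
            have hl : last (P.ev b A) = (P.ev b A).x + 16 := by simp [last, t2]
            by_cases c0 : c = (P.ev b A).x
            · have hy : (P.ev b A).y % 2 = 0 := by
                by_contra hy
                unfold isCut at hcut
                rw [t2, if_neg hy, c0] at hcut
                simp at hcut
              have hs0 : s0 (P.ev b A) = (P.ev b A).x := by
                unfold s0
                rw [if_neg (by omega)]
              rw [if_pos ⟨Or.inl t2, by omega, by omega⟩, if_neg (by omega), if_pos (by omega)]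
            · by_cases c2 : c = (P.ev b A).x + 2
              · have hy : (P.ev b A).y % 2 = 1 := by
                  by_contra hy
                  have hy0 : (P.ev b A).y % 2 = 0 := by omega
                  unfold isCut at hcut
                  rw [t2, if_pos hy0, c2] at hcut
                  simp at hcut
                have hs0 : s0 (P.ev b A) = (P.ev b A).x + 2 := by
                  unfold s0
                  rw [if_pos ⟨t2, hy⟩]
                rw [if_pos ⟨Or.inl t2, by omega, by omega⟩, if_neg (by omega), if_pos (by omega)]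
              · rcases q c hW.1 c0 c2 with q | q
                · rw [if_neg (by omega)]
                · rw [if_neg (by omega)]
          · by_cases t3 : (P.ev b A).t = 3
            · obtain ⟨-, q⟩ := h3 t3
              have hl : last (P.ev b A) = (P.ev b A).x + 14 := by simp [last, t3]
              by_cases c0 : c = (P.ev b A).x
              · have hs0 : s0 (P.ev b A) = (P.ev b A).x := by
                  unfold s0
                  rw [if_neg (by omega)]
                rw [if_pos ⟨Or.inr t3, by omega, by omega⟩, if_neg (by omega), if_pos (by omega)]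
              · rcases q c hW.1 c0 with q | q
                · rw [if_neg (by omega)]
                · rw [if_neg (by omega)]
            · rw [if_neg (by omega)]
      rw [this]
      exact le_refl _
  -- the row above
  have hi0 : (i - 1) % 6 = 0 := by omega
  have hi0d : (i - 1) / 6 = A := by omega
  have e0 : bi * P.K + (i - 1) = bi * P.K + i - 1 := by omega
  have ej1 : bj * P.K + (j - 1) = bj * P.K + j - 1 := by omega
  have ej : bj * P.K + j - 1 + 1 = bj * P.K + j := by omega
  have ei : bi * P.K + i - 1 + 1 = bi * P.K + i := by omega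
  have k0 := hrk (i - 1) j (by omega) hj
  have k1 := hrk (i - 1) (j + 1) (by omega) hj1
  have k7 := hrk (i - 1) (j - 1) (by omega) (by omega)
  have hb0 := hbit (i - 1) j (by omega) hj
  have hb1 := hbit (i - 1) (j + 1) (by omega) hj1
  rw [e0] at k0 k1 k7 hb0 hb1
  rw [ej1] at k7
  rw [← Nat.add_assoc] at k1 hb1
  have hx0 : j + P.K - (i - 1) - 1 = 3 * c + 1 := by omega
  have hx1 : j + 1 + P.K - (i - 1) - 1 = 3 * c + 2 := by omega
  have hx7 : j - 1 + P.K - (i - 1) - 1 = 3 * c := by omega
  rw [hx0] at k0 hb0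
  rw [hx1] at k1 hb1
  rw [hx7] at k7
  have nabove : P.rk (bi * P.K + i - 1, bj * P.K + j) < 7 * P.K + 10 ∧
      P.rk (bi * P.K + i - 1, bj * P.K + j + 1) < 7 * P.K + 10 ∧
      7 * P.K + 10 + 2 * rem data0 P.arr ⟨bi * P.K + i, bj * P.K + j + 1, Lane.T 0⟩ <
        P.rk (bi * P.K + i - 1, bj * P.K + j - 1) := by
    by_cases hZ : b = true ∧ A = 0 ∧ P.K ≤ 3 * c ∧ 3 * c ≤ P.K + 41
    · obtain ⟨hbt, hA0, hZ1, hZ2⟩ := hZ
      subst hA0
      obtain ⟨-, hc13⟩ := rca_w0 hP hW.1 (by omega)
      have hbz : ∀ x, P.K ≤ x → x ≤ P.K + 41 → P.bx b (i - 1) x = false := by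
        intro x h1 h2
        have e : i - 1 = 0 := by omega
        rw [e, hbt]
        unfold Par.bx
        rw [if_pos (by rfl)]
        split
        · rfl
        · rw [if_pos]
          rw [Bool.and_eq_true, decide_eq_true_eq]
          exact ⟨rfl, rfl, h1, h2⟩
      have h3c : 3 * c = P.K + 39 := by omega
      have hz' : ¬ P.zrow b ((i - 1) / 6) = true := by
        rw [hi0d]
        exact hzr
      refine ⟨?_, ?_, ?_⟩
      · rw [k0, hbz _ (by omega) (by omega)]
        have : P.cls b (bi * P.K + i - 1) (bj * P.K + j) (i - 1) j = Cl.j := by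
          unfold Par.cls
          rw [if_pos hi0, if_neg hz', if_pos ⟨hbt, by omega, by omega, by omega⟩,
            if_neg (by omega)]
        rw [this]
        show 1 + (3 * P.K - (i - 1 + 2 * j)) < 7 * P.K + 10
        omega
      · rw [k1, hbz _ (by omega) (by omega)]
        have : P.cls b (bi * P.K + i - 1) (bj * P.K + j + 1) (i - 1) (j + 1) = Cl.j := by
          unfold Par.cls
          rw [if_pos hi0, if_neg hz', if_pos ⟨hbt, by omega, by omega, by omega⟩,
            if_neg (by omega)]
        rw [this]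
        show 1 + (3 * P.K - (i - 1 + 2 * (j + 1))) < 7 * P.K + 10
        omega
      · rw [k7, hbz _ (by omega) (by omega)]
        have : P.cls b (bi * P.K + i - 1) (bj * P.K + j - 1) (i - 1) (j - 1) =
            Cl.s ⟨bi * P.K + i - 1, bj * P.K + j - 1, Lane.L 2 0⟩ 0 := by
          unfold Par.cls
          have e : P.K + 41 - (j - 1 + P.K - (i - 1) - 1) = 2 := by omega
          rw [if_pos hi0, if_neg hz', if_pos ⟨hbt, by omega, by omega, by omega⟩,
            if_pos (by omega), e]
        rw [this]
        show _ < 7 * P.K + 10 + 2 * rem data0 P.arr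
          ⟨bi * P.K + i - 1, bj * P.K + j - 1, Lane.L 2 0⟩ + 0
        have c7 : P.arr (bi * P.K + i - 1) (bj * P.K + j - 1) = false := by
          have := hbit (i - 1) (j - 1) (by omega) (by omega)
          rw [e0, ej1, hx7] at this
          rw [this]
          exact hbz _ (by omega) (by omega)
        have c0 : P.arr (bi * P.K + i - 1) (bj * P.K + j) = false := by
          rw [hb0]
          exact hbz _ (by omega) (by omega)
        have c1 : P.arr (bi * P.K + i - 1) (bj * P.K + j + 1) = false := by
          rw [hb1]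
          exact hbz _ (by omega) (by omega)
        have q1 := rem_Lg hf (g := 2) c7 (by omega) (by omega) (by omega) (by omega)
        rw [ej] at q1
        have q2 := rem_Lg hf (g := 1) c0 (by omega) (by omega) (by omega) (by omega)
        have q3 := rem_Lz hf c1
        rw [ei] at q3
        rw [q1]
        show _ < 7 * P.K + 10 + 2 * (rem data0 P.arr ⟨bi * P.K + i - 1, bj * P.K + j, Lane.L 1 0⟩
          + 1) + 0
        rw [q2]
        show _ < 7 * P.K + 10 + 2 * (rem data0 P.arr
          ⟨bi * P.K + i - 1, bj * P.K + j + 1, Lane.L 0 0⟩ + 1 + 1) + 0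
        rw [q3]
        omega
    · -- the ordinary case
      have hbo : ∀ x, (x = 3 * c + 1 ∨ x = 3 * c + 2) → P.bx b (i - 1) x = true := by
        intro x hx'
        have e : i - 1 = 6 * A := by omega
        rw [e]
        by_contra hne
        have hne' : P.bx b (6 * A) x = false := by simpa using hne
        rw [rca_gb0 _ (by omega)] at hne'
        rcases hne' with h | ⟨h1, h2, h3, h4⟩
        · exact hzr h
        · exact hZ ⟨h1, h2, by omega, by omega⟩
      have hbw : P.bx b (i - 1) (3 * c) = false := by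
        unfold Par.bx
        have e3 : 3 * c / 3 = c := by omega
        rw [if_pos hi0, hi0d, if_neg hzr, if_neg, if_pos (by omega), e3, hc]
        · rfl
        · intro h
          rw [Bool.and_eq_true, decide_eq_true_eq] at h
          exact hZ ⟨h.1, by omega, h.2.2.1, h.2.2.2⟩
      refine ⟨?_, ?_, ?_⟩
      · rw [k0, hbo _ (Or.inl rfl)]
        simp
      · rw [k1, hbo _ (Or.inr rfl)]
        simp
      · rw [k7, hbw]
        have : P.cls b (bi * P.K + i - 1) (bj * P.K + j - 1) (i - 1) (j - 1) =
            Cl.s ⟨bi * P.K + i - 1, bj * P.K + j - 1 + 1, Lane.T 0⟩ 0 := by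
          unfold Par.cls
          rw [if_pos hi0, hi0d, if_neg hzr, if_neg]
          rintro ⟨h1, h2, h3, h4⟩
          exact hZ ⟨h1, by omega, by omega, by omega⟩
        rw [this, ej]
        show _ < 7 * P.K + 10 + 2 * rem data0 P.arr
          ⟨bi * P.K + i - 1, bj * P.K + j, Lane.T 0⟩ + 0
        have c0 : P.arr (bi * P.K + i - 1) (bj * P.K + j) = true := by
          rw [hb0]
          exact hbo _ (Or.inl rfl)
        have c1 : P.arr (bi * P.K + i - 1) (bj * P.K + j + 1) = true := by
          rw [hb1]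
          exact hbo _ (Or.inr rfl)
        rw [rem_T1 hf c0, rem_L1 hf c1, ei]
        omega
  refine rc_mk (by omega) (by omega) ![0, 0, 0, 0, 0, 0, 0, 2] (by decide) (by decide)
    ?_ ?_ ?_ ?_ ?_ ?_ ?_ ?_
  · exact rca_lo (by rw [hcell]; omega)
  · exact rca_lo (by rw [hcell]; omega)
  · exact rca_lo (by rw [hcell, n2]; omega)
  · exact rca_lo (by rw [hcell]; omega)
  · exact rca_lo (by rw [hcell]; omega)
  · exact rca_lo (by rw [hcell]; omega)
  · exact rca_lo (by rw [hcell, n6]; omega)
  · exact rca_hi (by rw [hcell]; exact nabove.2.2)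

end Pool.Agent.MP_fadef1_lc
end
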