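import Pool.Agent.Lib.MP_fadef1_lc.Mg.G017
import Pool.Agent.Lib.MP_fadef1_lc.Mg.G016
import Pool.Agent.Lib.MP_fadef1_lc.Mg.G014
import Pool.Agent.Lib.MP_fadef1_lc.Mg.G019
import Pool.Agent.Lib.MP_fadef1_lc.Mg.G011
import Pool.Agent.Lib.MP_fadef1_lc.Mg.G015
import Pool.Agent.Lib.MP_fadef1_lc.Mg.G012
import Pool.Agent.Lib.MP_fadef1_lc.Mg.G020
import Pool.Agent.Lib.MP_fadef1_lc.Mg.G021

section

/-! From one level to the next. -/

namespace Pool.Agent.MP_fadef1_lc

variable {P : Par} {D D' : Data} {p q : Pos}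

theorem emb_dies (hP : P.Ok) (hD : D.Ok) (hN : Next P D D')
    (hs : p.s.Ok D'.w ∨ (p.s = Lane.L 85 0 ∧ P.arr p.i p.j = true))
    (h : Dies D' P.arr p) : Dies D P.arr (P.emb D.w p) := by
  obtain ⟨n, hn⟩ := h
  induction n generalizing p with
  | zero =>
    exact absurd hn (by simp [walkN])
  | succ n ih =>
    have hs' : p.s.Ok D'.w ∨ p.s = Lane.L 85 0 := by
      rcases hs with h1 | h1
      · exact Or.inl h1
      · exact Or.inr h1.1
    rcases hq : nxt D' P.arr p with _ | q
    · cases hb : P.arr p.i p.j with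
      | true => exact blk1_die hP hD hN hs' hb hq
      | false =>
        rcases hs with h1 | h1
        · exact blk0_die hP hD hN h1 hb hq
        · rw [h1.2] at hb
          exact absurd hb (by decide)
    · have hok : q.s.Ok D'.w := nxt_ok hN.hok hs' hq
      have hn' : walkN D' P.arr n q = none := by
        rw [walkN, hq] at hn
        exact hn
      have hq' := ih (Or.inl hok) hn'
      cases hb : P.arr p.i p.j with
      | true => exact dies_of_reach (blk1_step hP hD hN hs' hb hq) hq'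
      | false =>
        rcases hs with h1 | h1
        · exact dies_of_reach (blk0_step hP hD hN h1 hb hq) hq'
        · rw [h1.2] at hb
          exact absurd hb (by decide)

private theorem blk_pack {w N k z : ℕ} (hk : k < N) (hz : z < w) :
    (N - 1 - k) * w + z < N * w ∧ ((N - 1 - k) * w + z) / w = N - 1 - k ∧
      ((N - 1 - k) * w + z) % w = z := by
  have hw : 0 < w := by omega
  refine ⟨?_, ?_, ?_⟩
  · have h1 : (N - 1 - k) * w + w ≤ N * w := by
      have h2 : (N - 1 - k + 1) * w ≤ N * w := Nat.mul_le_mul_right _ (by omega)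
      rw [Nat.add_mul, Nat.one_mul] at h2
      exact h2
    omega
  · rw [Nat.add_comm, Nat.mul_comm, Nat.add_mul_div_left _ _ hw, Nat.div_eq_of_lt hz]
    omega
  · rw [Nat.add_comm, Nat.mul_comm, Nat.add_mul_mod_self_left, Nat.mod_eq_of_lt hz]

/-- a lane entering a block from the left ends or comes from the next level -/
theorem entryL_cases (hP : P.Ok) (hD : D.Ok) (hN : Next P D D') {i j g z : ℕ} (hg : g ≤ 84)
    (hz : z < D.w) (hj : j % P.K = 0) : Dies D P.arr ⟨i, j, Lane.L g z⟩ ∨
      ∃ g' l, g' ≤ 84 ∧ l < D'.w ∧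
        P.emb D.w ⟨i / P.K, j / P.K, Lane.L g' l⟩ = ⟨i, j, Lane.L g z⟩ := by
  have hK := K_pos hP
  have hi' : i / P.K * P.K + i % P.K = i := by
    rw [Nat.mul_comm]
    exact Nat.div_add_mod i P.K
  have hj' : j / P.K * P.K = j := by
    rw [Nat.mul_comm]
    have := Nat.div_add_mod j P.K
    omega
  have hil : i % P.K < P.K := Nat.mod_lt _ (by omega)
  by_cases h : g = 42 ∧ (i % P.K) % 6 = 0 ∧
      (P.entry (P.arr (i / P.K) (j / P.K)) ((i % P.K) / 6) = true ∨
        P.zrow (P.arr (i / P.K) (j / P.K)) ((i % P.K) / 6) = true)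
  · right
    obtain ⟨h42, h6, he⟩ := h
    obtain ⟨t, k, ht, hk, hA⟩ := entry_form hP he
    obtain ⟨hp1, hp2, hp3⟩ := blk_pack hk hz
    refine ⟨84 - t, (P.N - 1 - k) * D.w + z, by omega, ?_, ?_⟩
    · rw [hN.hw]
      exact hp1
    · unfold Par.emb
      simp only
      rw [if_neg (by omega), hp2, hp3]
      have e1 : 84 - (84 - t) = t := by omega
      have e2 : P.N - 1 - (P.N - 1 - k) = k := by omega
      rw [e1, e2, ← hA]
      have e3 : 6 * ((i % P.K) / 6) = i % P.K := by omega
      rw [e3, hi', hj', h42]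
  · left
    have hst := stray_L hP hD (i / P.K) (j / P.K) hil hz hg h
    rw [hi', hj'] at hst
    exact hst

theorem entryT_cases (hP : P.Ok) (hD : D.Ok) (hN : Next P D D') {i j z : ℕ}
    (hz : z < D.w) (hi : i % P.K = 0) : Dies D P.arr ⟨i, j, Lane.T z⟩ ∨
      ∃ l, l < D'.w ∧ P.emb D.w ⟨i / P.K, j / P.K, Lane.T l⟩ = ⟨i, j, Lane.T z⟩ := by
  have hK := K_pos hP
  have hj' : j / P.K * P.K + j % P.K = j := by
    rw [Nat.mul_comm]
    exact Nat.div_add_mod j P.K
  have hi' : i / P.K * P.K = i := by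
    rw [Nat.mul_comm]
    have := Nat.div_add_mod i P.K
    omega
  have hjl : j % P.K < P.K := Nat.mod_lt _ (by omega)
  by_cases h : ∃ k < P.N, j % P.K = P.K - 1 - 6 * (P.base 42 + k)
  · right
    obtain ⟨k, hk, hkj⟩ := h
    obtain ⟨hp1, hp2, hp3⟩ := blk_pack hk hz
    refine ⟨(P.N - 1 - k) * D.w + z, ?_, ?_⟩
    · rw [hN.hw]
      exact hp1
    · unfold Par.emb
      simp only
      rw [hp2, hp3]
      have e2 : P.N - 1 - (P.N - 1 - k) = k := by omega
      rw [e2, ← hkj, hi', hj']
  · left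
    push Not at h
    have hst := stray_T hP hD (i / P.K) (j / P.K) hjl hz h
    rw [hi', hj'] at hst
    exact hst

end Pool.Agent.MP_fadef1_lc
end

section

/-! All walks are finite if some level is dead; the extra lane is infinite otherwise. -/

namespace Pool.Agent.MP_fadef1_lc

variable {P : Par} {D D' : Data}

/-- from one level to the level below -/
theorem all_die_down (hP : P.Ok) (hD : D.Ok) (hN : Next P D D')
    (h : ∀ p : Pos, p.s.Ok D'.w → Dies D' P.arr p) (p : Pos) (hp : p.s.Ok D.w) :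
    Dies D P.arr p := by
  have hK := K_pos hP
  have hKp : 0 < P.K := by omega
  rcases block_exit hP D p with h1 | ⟨g, z, i, -, h1⟩ | ⟨z, j, -, h1⟩
  · exact h1
  · have hok := reach_ok hD hp h1
    have hok' : g ≤ 84 ∧ z < D.w := hok
    rcases entryL_cases (i := i) (j := (p.j / P.K + 1) * P.K) hP hD hN hok'.1 hok'.2
      (Nat.mul_mod_left _ _) with h2 | ⟨g', l, hg', hl, h2⟩
    · exact dies_of_reach h1 h2
    · have h3 := emb_dies hP hD hN (p := ⟨i / P.K, (p.j / P.K + 1) * P.K / P.K, Lane.L g' l⟩)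
        (Or.inl ⟨hg', hl⟩) (h _ ⟨hg', hl⟩)
      rw [h2] at h3
      exact dies_of_reach h1 h3
  · have hok := reach_ok hD hp h1
    have hok' : z < D.w := hok
    rcases entryT_cases (i := (p.i / P.K + 1) * P.K) (j := j) hP hD hN hok'
      (Nat.mul_mod_left _ _) with h2 | ⟨l, hl, h2⟩
    · exact dies_of_reach h1 h2
    · have hl' : (Lane.T l).Ok D'.w := hl
      have h3 := emb_dies hP hD hN (p := ⟨(p.i / P.K + 1) * P.K / P.K, j / P.K, Lane.T l⟩)
        (Or.inl hl') (h _ hl')
      rw [h2] at h3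
      exact dies_of_reach h1 h3

/-- the lanes leaving the cell `(0,0)` in a dead level -/
theorem corner_dies (hP : P.Ok) (hD : D.Ok) (hm : D.mort = false) {g z : ℕ} (hg : g ≤ 84)
    (hz : z < D.w) : Dies D P.arr ⟨0, 1, Lane.L g z⟩ ∧ Dies D P.arr ⟨1, 0, Lane.T z⟩ := by
  have hK := K_pos hP
  have h6 : P.K = 6 * P.QQ := rfl
  constructor
  · by_cases h42 : g = 42
    · subst h42
      have h1 := zl_dies hP hD 0 0 (arr_zero hP) hz
      rw [Nat.zero_mul, Nat.zero_add] at h1
      exact h1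
    · apply dies_of_none
      simp [nxt, gstep, h42, hm]
  · have h1 := strayL_T hP hD 0 0 (A := 0) (by omega) hz (top_zone hP _ (by norm_num)).2.1
    rw [Nat.zero_mul, Nat.zero_add, Nat.mul_zero, Nat.zero_add] at h1
    exact h1

end Pool.Agent.MP_fadef1_lc
end

section

/-! Dead levels: induction on the size. -/

namespace Pool.Agent.MP_fadef1_lc

variable {P : Par} {D D' : Data}

/-- lanes starting in `[0,n] × [0,n]` -/
def SmallPos (n : ℕ) (p : Pos) : Prop :=
  (∃ g z, p.s = Lane.L g z ∧ p.i < n ∧ p.j ≤ n) ∨ ∃ z, p.s = Lane.T z ∧ p.i ≤ n ∧ p.j < n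

theorem small_base (hP : P.Ok) (hD : D.Ok) (hm : D.mort = false) {p : Pos} (hp : p.s.Ok D.w)
    (h : SmallPos 1 p) : Dies D P.arr p := by
  obtain ⟨i, j, s⟩ := p
  have ha := arr_zero hP
  rcases h with ⟨g, z, hs, hi, hj⟩ | ⟨z, hs, hi, hj⟩
  · have hs' : s = Lane.L g z := hs
    subst hs'
    have hi' : i < 1 := hi
    have hj' : j ≤ 1 := hj
    have hi0 : i = 0 := by omega
    subst hi0
    have hg : g ≤ 84 := hp.1
    have hz : z < D.w := hp.2
    by_cases hj0 : j = 0
    · subst hj0
      by_cases h42 : g = 42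
      · subst h42
        have h1 : nxt D P.arr ⟨0, 0, Lane.L 42 z⟩ = some ⟨1, 0, Lane.T z⟩ := by
          unfold nxt
          change (gstep D (P.arr 0 0) (Lane.L 42 z)).map _ = _
          rw [ha]
          rfl
        exact dies_of_nxt h1 (corner_dies hP hD hm hg hz).2
      · refine dies_of_none ?_
        unfold nxt
        change (gstep D (P.arr 0 0) (Lane.L g z)).map _ = _
        rw [ha]
        simp [gstep, h42, hm]
    · have hj1 : j = 1 := by omega
      subst hj1
      exact (corner_dies hP hD hm hg hz).1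
  · have hs' : s = Lane.T z := hs
    subst hs'
    have hi' : i ≤ 1 := hi
    have hj' : j < 1 := hj
    have hj0 : j = 0 := by omega
    subst hj0
    have hz : z < D.w := hp
    by_cases hi0 : i = 0
    · subst hi0
      have h1 : nxt D P.arr ⟨0, 0, Lane.T z⟩ = some ⟨0, 1, Lane.L 42 z⟩ := by
        unfold nxt
        change (gstep D (P.arr 0 0) (Lane.T z)).map _ = _
        rw [ha]
        rfl
      exact dies_of_nxt h1 (corner_dies hP hD hm (g := 42) (by omega) hz).1
    · have hi1 : i = 1 := by omega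
      subst hi1
      exact (corner_dies hP hD hm (g := 42) (by omega) hz).2

private theorem fb_L (hP : P.Ok) (hD : D.Ok) (hN : Next P D D') {n : ℕ}
    (h : ∀ p : Pos, p.s.Ok D'.w → SmallPos n p → Dies D' P.arr p) {i j g z : ℕ} (hg : g ≤ 84)
    (hz : z < D.w) (hi : i / P.K < n) (hj : j ≤ n) : Dies D P.arr ⟨i, j * P.K, Lane.L g z⟩ := by
  have hK : 0 < P.K := by have := K_pos hP; omega
  rcases entryL_cases hP hD hN (i := i) (j := j * P.K) hg hz (Nat.mul_mod_left _ _) with
    h1 | ⟨g', l, hg', hl, he⟩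
  · exact h1
  · rw [Nat.mul_div_cancel _ hK] at he
    rw [← he]
    refine emb_dies hP hD hN (Or.inl ⟨hg', hl⟩) (h _ ⟨hg', hl⟩ ?_)
    exact Or.inl ⟨g', l, rfl, hi, hj⟩

private theorem fb_T (hP : P.Ok) (hD : D.Ok) (hN : Next P D D') {n : ℕ}
    (h : ∀ p : Pos, p.s.Ok D'.w → SmallPos n p → Dies D' P.arr p) {i j z : ℕ}
    (hz : z < D.w) (hi : i ≤ n) (hj : j / P.K < n) : Dies D P.arr ⟨i * P.K, j, Lane.T z⟩ := by
  have hK : 0 < P.K := by have := K_pos hP; omega
  rcases entryT_cases hP hD hN (i := i * P.K) (j := j) hz (Nat.mul_mod_left _ _) with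
    h1 | ⟨l, hl, he⟩
  · exact h1
  · rw [Nat.mul_div_cancel _ hK] at he
    rw [← he]
    have hl' : (Lane.T l).Ok D'.w := hl
    refine emb_dies hP hD hN (Or.inl hl') (h _ hl' ?_)
    exact Or.inr ⟨l, rfl, hi, hj⟩

theorem small_step (hP : P.Ok) (hD : D.Ok) (hN : Next P D D') {n : ℕ}
    (h : ∀ p : Pos, p.s.Ok D'.w → SmallPos n p → Dies D' P.arr p) {p : Pos}
    (hp : p.s.Ok D.w) (hs : SmallPos (n * P.K) p) : Dies D P.arr p := by
  have hK : 0 < P.K := by have := K_pos hP; omega
  -- inside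
  have key : p.i < n * P.K → p.j < n * P.K → Dies D P.arr p := by
    intro hi hj
    have hi' : p.i / P.K < n := (Nat.div_lt_iff_lt_mul hK).2 hi
    have hj' : p.j / P.K < n := (Nat.div_lt_iff_lt_mul hK).2 hj
    rcases block_exit hP D p with h1 | ⟨g, z, i, h1, h2⟩ | ⟨z, j, h1, h2⟩
    · exact h1
    · have h3 : (Lane.L g z).Ok D.w := reach_ok hD hp h2
      exact dies_of_reach h2 (fb_L hP hD hN h h3.1 h3.2 (by rw [h1]; exact hi') hj')
    · have h3 : (Lane.T z).Ok D.w := reach_ok hD hp h2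
      exact dies_of_reach h2 (fb_T hP hD hN h h3 hi' (by rw [h1]; exact hj'))
  obtain ⟨i, j, s⟩ := p
  rcases hs with ⟨g, z, hs, hi, hj⟩ | ⟨z, hs, hi, hj⟩
  · have hs' : s = Lane.L g z := hs
    subst hs'
    have hi' : i < n * P.K := hi
    have hj' : j ≤ n * P.K := hj
    by_cases hjn : j = n * P.K
    · subst hjn
      exact fb_L hP hD hN h hp.1 hp.2 ((Nat.div_lt_iff_lt_mul hK).2 hi') le_rfl
    · exact key hi' (lt_of_le_of_ne hj' hjn)
  · have hs' : s = Lane.T z := hs
    subst hs'
    have hi' : i ≤ n * P.K := hi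
    have hj' : j < n * P.K := hj
    by_cases hin : i = n * P.K
    · subst hin
      exact fb_T hP hD hN h hp le_rfl ((Nat.div_lt_iff_lt_mul hK).2 hj')
    · exact key (lt_of_le_of_ne hi' hin) hj'

end Pool.Agent.MP_fadef1_lc
end

section

/-! All walks are finite if some level is dead; the extra lane is infinite otherwise. -/

namespace Pool.Agent.MP_fadef1_lc

variable {P : Par} {D D' : Data}

theorem chain_ok {D : ℕ → Data} (hc : Chain P D) (r : ℕ) : (D r).Ok := by
  rcases r with _ | r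
  · rw [hc.1]
    refine ⟨by decide, ?_⟩
    intro d s z s' z' hd hs hz h
    have hz' : z < 1 := hz
    have hz0 : z = 0 := by omega
    subst hz0
    change s' < 2 ∧ z' < 1
    have h' : (if d = 0 then shG 1 1 else if d = 1 then shH 1 1
      else if d = 2 then shG 1 1 else shH 1 1) (s, 0) = some (s', z') := h
    have hs2 : s = 0 ∨ s = 1 := by omega
    split_ifs at h' <;> rcases hs2 with rfl | rfl <;> simp [shG, shH] at h' <;> omega
  · exact (hc.2 r).hok

theorem chain_dead {D : ℕ → Data} (hc : Chain P D) {r s : ℕ} (hrs : r ≤ s)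
    (h : (D r).mort = false) : (D s).mort = false := by
  induction s, hrs using Nat.le_induction with
  | base => exact h
  | succ s _ ih =>
    rw [(hc.2 s).hm, ih]
    rfl

theorem fin_all (hP : P.Ok) {D : ℕ → Data} (hc : Chain P D) (h : ∃ r, (D r).mort = false)
    (p : Pos) (hp : p.s.Ok 1) : Dies data0 P.arr p := by
  obtain ⟨r, hr⟩ := h
  have hK : 1 < P.K := by have := K_pos hP; omega
  have h1 : ∀ m : ℕ, ∀ s ≥ r, ∀ q : Pos, q.s.Ok (D s).w → SmallPos (P.K ^ m) q →
      Dies (D s) P.arr q := by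
    intro m
    induction m with
    | zero =>
      intro s hs q hq hsm
      rw [pow_zero] at hsm
      exact small_base hP (chain_ok hc s) (chain_dead hc hs hr) hq hsm
    | succ m ih =>
      intro s hs q hq hsm
      rw [pow_succ] at hsm
      exact small_step hP (chain_ok hc s) (hc.2 s) (ih (s + 1) (by omega)) hq hsm
  have h2 : ∀ q : Pos, q.s.Ok (D r).w → Dies (D r) P.arr q := by
    rintro ⟨i, j, s⟩ hq
    have h3 : i + j < P.K ^ (i + j) := Nat.lt_pow_self hK
    have h4 : i < P.K ^ (i + j) := by omega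
    have h5 : j < P.K ^ (i + j) := by omega
    refine h1 (i + j) r le_rfl _ hq ?_
    cases s with
    | L g z => exact Or.inl ⟨g, z, rfl, h4, h5.le⟩
    | T z => exact Or.inr ⟨z, rfl, h4.le, h5⟩
  have h3 : ∀ r : ℕ, (∀ q : Pos, q.s.Ok (D r).w → Dies (D r) P.arr q) →
      ∀ q : Pos, q.s.Ok (D 0).w → Dies (D 0) P.arr q := by
    intro r
    induction r with
    | zero => exact fun h => h
    | succ r ih =>
      intro h4
      exact ih (all_die_down hP (chain_ok hc r) (hc.2 r) h4)
  have h4 := h3 r h2 p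
  rw [hc.1] at h4
  exact h4 hp

private theorem fn_emb_sum (w : ℕ) (p : Pos) :
    P.K * (p.i + p.j) ≤ (P.emb w p).i + (P.emb w p).j := by
  obtain ⟨i, j, s⟩ := p
  have e : P.K * (i + j) = i * P.K + j * P.K := by ring
  cases s with
  | L g l =>
    unfold Par.emb
    simp only
    split_ifs
    · simp only
      omega
    · simp only
      omega
  | T l =>
    unfold Par.emb
    simp only
    omega

private theorem fn_reach (hP : P.Ok) (hD : D.Ok) (hN : Next P D D') (n : ℕ) : ∀ q : Pos,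
    walkN D' P.arr (n + 1) ⟨0, 0, Lane.L 85 0⟩ = some q →
      q.s.Ok D'.w ∧ Reach D P.arr ⟨0, 0, Lane.L 85 0⟩ (P.emb D.w q) := by
  have hZ : P.emb D.w ⟨0, 0, Lane.L 85 0⟩ = ⟨0, 0, Lane.L 85 0⟩ := by
    unfold Par.emb
    simp
  induction n with
  | zero =>
    intro q h
    have h1 : nxt D' P.arr ⟨0, 0, Lane.L 85 0⟩ = some q := by
      rw [walkN] at h
      cases h2 : nxt D' P.arr ⟨0, 0, Lane.L 85 0⟩ with
      | none =>
        rw [h2] at h
        exact absurd h (by simp)
      | some a =>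
        rw [h2] at h
        exact h
    refine ⟨nxt_ok hN.hok (Or.inr rfl) h1, ?_⟩
    have h3 := blk1_step hP hD hN (Or.inr rfl) (arr_zero hP) h1
    rw [hZ] at h3
    exact h3
  | succ n ih =>
    intro q h
    rw [walkN_add (n + 1) 1] at h
    cases h2 : walkN D' P.arr (n + 1) ⟨0, 0, Lane.L 85 0⟩ with
    | none =>
      rw [h2] at h
      exact absurd h (by simp)
    | some a =>
      rw [h2] at h
      obtain ⟨ha, hr⟩ := ih a h2
      have h1 : nxt D' P.arr a = some q := by
        have h' : walkN D' P.arr 1 a = some q := h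
        rw [walkN] at h'
        cases h3 : nxt D' P.arr a with
        | none =>
          rw [h3] at h'
          exact absurd h' (by simp)
        | some c =>
          rw [h3] at h'
          exact h'
      refine ⟨nxt_ok hN.hok (Or.inl ha) h1, ?_⟩
      cases hb : P.arr a.i a.j with
      | false => exact hr.trans (blk0_step hP hD hN ha hb h1)
      | true => exact hr.trans (blk1_step hP hD hN (Or.inl ha) hb h1)

/-- a finite walk of the extra lane would be shorter and shorter in the higher levels -/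
theorem inf_Z (hP : P.Ok) {D : ℕ → Data} (hc : Chain P D) (h : ∀ r, (D r).mort = true) :
    ¬ Dies data0 P.arr ⟨0, 0, Lane.L 85 0⟩ := by
  have hK := K_pos hP
  have key : ∀ n r : ℕ, walkN (D r) P.arr (n + 1) ⟨0, 0, Lane.L 85 0⟩ ≠ none := by
    intro n
    induction n with
    | zero =>
      intro r h1
      rw [walkN] at h1
      have h2 : nxt (D r) P.arr ⟨0, 0, Lane.L 85 0⟩ =
          some ⟨0, 1, Lane.L 41 ((D r).w - 1)⟩ := by
        unfold nxt
        change (gstep (D r) (P.arr 0 0) (Lane.L 85 0)).map _ = _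
        rw [arr_zero hP]
        simp [gstep, h r, Pos.out]
      rw [h2] at h1
      exact absurd h1 (by simp [walkN])
    | succ n ih =>
      intro r h1
      cases h2 : walkN (D (r + 1)) P.arr (n + 1) ⟨0, 0, Lane.L 85 0⟩ with
      | none => exact ih (r + 1) h2
      | some q =>
        obtain ⟨_, h3⟩ := fn_reach hP (chain_ok hc r) (hc.2 r) n q h2
        have h4 : q.i + q.j = 0 + 0 + (n + 1) := walkN_sum h2
        obtain ⟨m, hm⟩ := reach_iff.1 h3
        have h5 : (P.emb (D r).w q).i + (P.emb (D r).w q).j = 0 + 0 + m := walkN_sum hm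
        have h6 := fn_emb_sum (P := P) (D r).w q
        have h7 : 2 * (q.i + q.j) ≤ P.K * (q.i + q.j) := Nat.mul_le_mul_right _ (by omega)
        have h8 : n + 1 + 1 ≤ m := by omega
        rw [walkN_mono h8 h1] at hm
        exact absurd hm (by simp)
  rintro ⟨n, hn⟩
  rw [← hc.1] at hn
  exact key n 0 (walkN_mono (Nat.le_succ n) hn)

end Pool.Agent.MP_fadef1_lc
end

section

/-! Chains at the right border. -/

namespace Pool.Agent.MP_fadef1_lc

variable {P : Par} {i j bi bj : ℕ} {p : Pos}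

private theorem nx1b_nxt {X : ℕ → ℕ → Bool} {I J : ℕ} {s s' : Lane}
    (h : gstep data0 (X I J) s = some s') :
    nxt data0 X ⟨I, J, s⟩ = some (Pos.out ⟨I, J, s⟩ s') := by
  unfold nxt
  simp only [h, Option.map_some]

/-- border cell: `(i-1, j+1)` if the right block has a zero row, `(i+1, j+1)` if it has an entry;
otherwise the walk ends (`strayL_0`), a contradiction. -/
theorem nx_1b (hP : P.Ok) (hi : i < P.K) (hj : j < P.K)
    (hr : i % 6 = 1) (hj1 : j + 1 = P.K)
    (hs : Str P (bi * P.K + i, bj * P.K + j) p) (hd : ¬ Dies data0 P.arr p) :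
    Goes P (bi * P.K + i, bj * P.K + j) := by
  have hK6 : P.K = 6 * P.QQ := rfl
  have hQ2 : P.Q = 2 * P.QQ := rfl
  have hKpos := K_pos hP
  have hi1 : i + 1 < P.K := by omega
  have h0K : 0 < P.K := by omega
  obtain ⟨h0, t, hc⟩ := (str_loc hP hi hj).1 hs
  have hA : i / 6 < P.QQ := by omega
  have hjn : bj * P.K + j + 1 = (bj + 1) * P.K := by
    rw [Nat.add_mul, Nat.one_mul]
    omega
  have hin : bi * P.K + i - 1 = bi * P.K + (i - 1) := by omega
  -- the position
  have hp : p = ⟨bi * P.K + (i - 1), (bj + 1) * P.K, Lane.L 42 0⟩ := by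
    unfold Par.cls at hc
    rw [if_neg (by omega), if_pos hr, if_pos hj1] at hc
    split_ifs at hc with h1
    simp only [Cl.s.injEq] at hc
    rw [← hc.1, hin, hjn]
  have hr0 : (i - 1) % 6 = 0 := by omega
  have hA0 : (i - 1) / 6 = i / 6 := by omega
  have hA2 : (i + 1) / 6 = i / 6 := by omega
  have hex : P.entry (P.arr bi (bj + 1)) (i / 6) = true ∨
      P.zrow (P.arr bi (bj + 1)) (i / 6) = true := by
    by_contra hne
    apply hd
    rw [hp]
    refine stray_L hP data0_ok bi (bj + 1) (i := i - 1) (by omega) (by decide) (by decide) ?_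
    rw [hA0]
    tauto
  subst hp
  by_cases hz : P.zrow (P.arr bi (bj + 1)) (i / 6) = true
  · -- zero row
    refine ⟨(bi * P.K + (i - 1), (bj + 1) * P.K + 0),
      ⟨bi * P.K + (i - 1), (bj + 1) * P.K, Lane.L 42 0⟩, ?_, hd, ?_⟩
    · refine (str_loc hP (by omega) h0K).2 ⟨?_, ?_⟩
      · unfold Par.bx
        rw [if_pos hr0, hA0, if_pos hz]
      · unfold Par.cls
        rw [if_pos hr0, hA0, if_pos hz]
        exact ⟨0, rfl⟩
    · left
      refine ⟨?_, ?_, ?_⟩ <;> simp only <;> omega
  · -- entry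
    have hen : P.entry (P.arr bi (bj + 1)) (i / 6) = true := by tauto
    set b := P.arr bi (bj + 1) with hb
    have hV := va_all hP b (i / 6) hA
    have ht0 : (P.ev b (i / 6)).t = 0 := by
      by_contra hne
      have := (hV.quiet hne).2.1
      rw [hen] at this
      exact absurd this (by decide)
    have hzf : P.zrow b (i / 6) = false := by simpa using hz
    have hen1 : P.entc (i / 6) + 2 * (i / 6) + 1 = P.Q := by
      unfold Par.entc
      omega
    have hW : P.W b (i / 6) (P.entc (i / 6)) = true :=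
      (near_left hP b (by omega) (by omega)).2 ⟨i / 6, le_refl _, hen, rfl⟩
    have hsym : sym (P.ev b (i / 6)) (P.entc (i / 6)) = 0 := by
      unfold sym
      rw [if_neg (by omega), if_neg (by omega)]
    have hcut : isCut (P.ev b (i / 6)) (P.entc (i / 6)) = false := by
      unfold isCut
      rw [ht0]
      rfl
    have hx : 0 + P.K - (i + 1) - 1 = 3 * P.entc (i / 6) := by omega
    have hx3 : (0 + P.K - (i + 1) - 1) % 3 = 0 := by omega
    have hxc : (0 + P.K - (i + 1) - 1) / 3 = P.entc (i / 6) := by omega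
    refine ⟨(bi * P.K + (i + 1), (bj + 1) * P.K + 0),
      ⟨bi * P.K + (i + 1), (bj + 1) * P.K + 0 + 1, Lane.T 0⟩, ?_, ?_, ?_⟩
    · refine (str_loc hP hi1 h0K).2 ⟨?_, ?_⟩
      · rw [← hb]
        unfold Par.bx
        rw [if_neg (by omega), if_neg (by omega), if_pos (by omega), hA2, hxc, if_pos hsym,
          if_pos hx3]
        unfold Par.cl
        rw [hW, hcut]
        rfl
      · rw [← hb]
        unfold Par.cls
        rw [if_neg (by omega), if_neg (by omega), if_pos (by omega), hA2, if_neg (by omega),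
          if_neg (by omega)]
        exact ⟨1, rfl⟩
    · intro hD
      apply hd
      have a1 : P.arr (bi * P.K + (i - 1)) ((bj + 1) * P.K) = true := by
        have := arr_loc hP bi (bj + 1) (i := i - 1) (j := 0) (by omega) h0K
        rw [Nat.add_zero] at this
        rw [this, ← hb]
        unfold Par.bit Par.bx
        rw [if_pos hr0, hA0, hzf, if_neg Bool.false_ne_true]
        have h3 : decide (i - 1 = 0 ∧ P.K ≤ 0 + P.K - (i - 1) - 1 ∧
            0 + P.K - (i - 1) - 1 ≤ P.K + 41) = false := by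
          rw [decide_eq_false_iff_not]
          omega
        rw [h3, Bool.and_false, if_neg Bool.false_ne_true, if_neg (by omega)]
      have a2 : P.arr (bi * P.K + (i - 1) + 1) ((bj + 1) * P.K) = true := by
        have := arr_loc hP bi (bj + 1) (i := i) (j := 0) (by omega) h0K
        rw [Nat.add_zero] at this
        rw [show bi * P.K + (i - 1) + 1 = bi * P.K + i by omega, this, ← hb]
        unfold Par.bit Par.bx
        rw [if_neg (by omega), if_pos hr, Bool.not_eq_true', decide_eq_false_iff_not]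
        omega
      have a3 : P.arr (bi * P.K + (i - 1) + 1) ((bj + 1) * P.K + 1) = true := by
        have := arr_loc hP bi (bj + 1) (i := i) (j := 1) (by omega) (by omega)
        rw [show bi * P.K + (i - 1) + 1 = bi * P.K + i by omega, this, ← hb]
        unfold Par.bit Par.bx
        rw [if_neg (by omega), if_pos hr, Bool.not_eq_true', decide_eq_false_iff_not]
        omega
      have n1 := nx1b_nxt (X := P.arr) (I := bi * P.K + (i - 1)) (J := (bj + 1) * P.K)
        (s := Lane.L 42 0) (s' := Lane.T 0) (by rw [a1]; rfl)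
      have n2 := nx1b_nxt (X := P.arr) (I := bi * P.K + (i - 1) + 1) (J := (bj + 1) * P.K)
        (s := Lane.T 0) (s' := Lane.L 42 0) (by rw [a2]; rfl)
      have n3 := nx1b_nxt (X := P.arr) (I := bi * P.K + (i - 1) + 1) (J := (bj + 1) * P.K + 1)
        (s := Lane.L 42 0) (s' := Lane.T 0) (by rw [a3]; rfl)
      refine dies_of_nxt n1 (dies_of_nxt n2 (dies_of_nxt n3 ?_))
      have e3 : Pos.out ⟨bi * P.K + (i - 1) + 1, (bj + 1) * P.K + 1, Lane.L 42 0⟩ (Lane.T 0) =
          ⟨bi * P.K + (i + 1), (bj + 1) * P.K + 0 + 1, Lane.T 0⟩ := by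
        unfold Pos.out
        have e4 : bi * P.K + (i - 1) + 1 + 1 = bi * P.K + (i + 1) := by omega
        rw [Pos.mk.injEq]
        exact ⟨e4, rfl, rfl⟩
      rw [e3]
      exact hD
    · left
      refine ⟨?_, ?_, ?_⟩ <;> simp only <;> omega

end Pool.Agent.MP_fadef1_lc
end

section

/-! An infinite chain of zeros disconnects the array. -/

namespace Pool.Agent.MP_fadef1_lc

variable {P : Par}

theorem nx_all (hP : P.Ok) {v : ℕ × ℕ} {p : Pos} (hs : Str P v p) (hd : ¬ Dies data0 P.arr p) :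
    Goes P v := by
  have hK := K_pos hP
  have hKp : 0 < P.K := by omega
  obtain ⟨I, J⟩ := v
  have hi := Nat.mod_lt I hKp
  have hj := Nat.mod_lt J hKp
  have eI : I / P.K * P.K + I % P.K = I := Nat.div_add_mod' I P.K
  have eJ : J / P.K * P.K + J % P.K = J := Nat.div_add_mod' J P.K
  have key : ∀ i j bi bj : ℕ, i < P.K → j < P.K → Str P (bi * P.K + i, bj * P.K + j) p →
      Goes P (bi * P.K + i, bj * P.K + j) := by
    intro i j bi bj hi hj hs
    have hr : i % 6 = 0 ∨ i % 6 = 1 ∨ i % 6 = 2 ∨ i % 6 = 3 ∨ i % 6 = 4 ∨ i % 6 = 5 := by omega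
    rcases hr with hr | hr | hr | hr | hr | hr
    · exact nx_0 hP hi hj hr hs hd
    · rcases Nat.lt_or_ge (j + 1) P.K with hj1 | hj1
      · exact nx_1 hP hi hj hr hj1 hs hd
      · exact nx_1b hP hi hj hr (by omega) hs hd
    · by_cases ht : (P.ev (P.arr bi bj) (i / 6)).t = 2 ∨ (P.ev (P.arr bi bj) (i / 6)).t = 3
      · exact nx_2b hP hi hj hr ht hs hd
      · exact nx_2a hP hi hj hr (not_or.1 ht) hs hd
    · exact nx_3 hP hi hj hr hs hd
    · exact nx_4 hP hi hj hr hs hd
    · exact nx_5 hP hi hj hr hs hd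
  have := key (I % P.K) (J % P.K) (I / P.K) (J / P.K) hi hj (by rw [eI, eJ]; exact hs)
  rwa [eI, eJ] at this

/-- `(0,1)` has state `L 41` -/
theorem str_start (hP : P.Ok) (h : ¬ Dies data0 P.arr ⟨0, 0, Lane.L 85 0⟩) :
    ∃ p, Str P (0, 1) p ∧ ¬ Dies data0 P.arr p := by
  have hK := K_pos hP
  have h00 : P.arr 0 0 = true := arr_zero hP
  refine ⟨⟨0, 1, Lane.L 41 0⟩, ?_, ?_⟩
  · have h1 := str_loc (P := P) (i := 0) (j := 1) (bi := 0) (bj := 0) (p := ⟨0, 1, Lane.L 41 0⟩) hP
      (by omega) (by omega)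
    rw [Nat.zero_mul, Nat.zero_add] at h1
    rw [h1, h00]
    have ex : 1 + P.K - 0 - 1 = P.K := by omega
    constructor
    · rw [ex]
      unfold Par.bx Par.zrow
      simp
    · refine ⟨0, ?_⟩
      unfold Par.cls Par.zrow
      rw [ex]
      have e2 : P.K + 41 - P.K = 41 := by omega
      simp [e2]
  · intro hd
    apply h
    have hn : nxt data0 P.arr ⟨0, 0, Lane.L 85 0⟩ = some ⟨0, 1, Lane.L 41 0⟩ := by
      simp only [nxt, h00]
      rfl
    exact dies_of_nxt hn hd

private theorem nxall_seq (hP : P.Ok) (h : ¬ Dies data0 P.arr ⟨0, 0, Lane.L 85 0⟩) :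
    ∃ f : ℕ → ℕ × ℕ, f 0 = (0, 1) ∧ ∀ t, P.arr (f t).1 (f t).2 = false ∧ Stp (f t) (f (t + 1)) := by
  obtain ⟨p0, hp0, hd0⟩ := str_start hP h
  have step : ∀ x : {x : (ℕ × ℕ) × Pos // Str P x.1 x.2 ∧ ¬ Dies data0 P.arr x.2},
      ∃ y : {x : (ℕ × ℕ) × Pos // Str P x.1 x.2 ∧ ¬ Dies data0 P.arr x.2}, Stp x.1.1 y.1.1 := by
    intro x
    obtain ⟨v', p', h1, h2, h3⟩ := nx_all hP x.2.1 x.2.2
    exact ⟨⟨(v', p'), h1, h2⟩, h3⟩
  choose g hg using step
  refine ⟨fun t => (g^[t] ⟨((0, 1), p0), hp0, hd0⟩).1.1, rfl, fun t => ⟨?_, ?_⟩⟩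
  · exact (g^[t] ⟨((0, 1), p0), hp0, hd0⟩).2.1.1
  · have h1 := hg (g^[t] ⟨((0, 1), p0), hp0, hd0⟩)
    rw [← Function.iterate_succ_apply' g t] at h1
    exact h1

private theorem nxall_col (f : ℕ → ℕ × ℕ) (hf : ∀ t, Stp (f t) (f (t + 1))) (n : ℕ) :
    n ≤ (f (2 * n)).2 := by
  induction n with
  | zero => omega
  | succ n ih =>
    have h1 := hf (2 * n)
    have h2 := hf (2 * n + 1)
    have e : 2 * (n + 1) = 2 * n + 1 + 1 := by ring
    rw [e]
    unfold Stp at h1 h2
    rcases h1 with h1 | h1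
    · rcases h2 with h2 | h2
      · omega
      · omega
    · rcases h2 with h2 | h2
      · omega
      · exact absurd h1.2.2.2 h2.2.2.1

private theorem nxall_43 (hP : P.Ok) : P.arr 0 43 = true := by
  have hK := K_pos hP
  have h1 := arr_loc hP 0 0 (i := 0) (j := 43) (by omega) (by omega)
  rw [Nat.zero_mul, Nat.zero_add] at h1
  rw [h1, arr_zero hP]
  unfold Par.bit Par.bx Par.zrow
  have h6 : P.K = 6 * P.QQ := rfl
  have ex : 43 + P.K - 0 - 1 = P.K + 42 := by omega
  have e3 : (P.K + 42) % 3 = 0 := by omega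
  have e4 : (P.K + 42) / 3 = P.Q + 14 := by
    unfold Par.Q
    omega
  rw [ex]
  have hcl : P.cl true 0 (P.Q + 14) = false := by
    unfold Par.cl Par.W Par.W0
    have h7 : ((List.range P.N).any fun k => decide (P.Q + 14 = P.ex 42 k)) = false := by
      rw [List.any_eq_false]
      intro k _
      rw [decide_eq_true_eq]
      unfold Par.ex Par.Q
      omega
    rw [h7]
    have h8 : decide (P.Q + 14 = P.Q + 13) = false := by
      rw [decide_eq_false_iff_not]
      omega
    rw [h8]
    rfl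
  simp [e3, e4, hcl]

/-- use `curve` with `m = 43`; two consecutive steps increase the column -/
theorem disc_of_inf (hP : P.Ok) (h : ¬ Dies data0 P.arr ⟨0, 0, Lane.L 85 0⟩) :
    ¬ RectConn P.arr := by
  obtain ⟨f, hf0, hf⟩ := nxall_seq hP h
  refine curve P.arr f hf0 (fun t => (hf t).1) ?_ ?_ (arr_zero hP) 43 (by norm_num) (nxall_43 hP)
  · intro t
    rcases (hf t).2 with h1 | h1
    · exact Or.inr h1
    · exact Or.inl ⟨h1.1, h1.2.1⟩
  · intro n
    exact ⟨2 * n, nxall_col f (fun t => (hf t).2) n⟩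

end Pool.Agent.MP_fadef1_lc
end
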