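import Mathlib
import Pool.Agent.Lib.MP_fadef1_lc.III.Inst
import Pool.Agent.Lib.MP_fadef1_lc.Sys
import Pool.Agent.Lib.MP_fadef1_lc.TMDef

section

/-! General lemmas on primitive recursive list functions. -/

namespace Pool.Agent.MP_fadef1_lc

variable {α β : Type*} [Primcodable α] [Primcodable β]

/-- `(List.replicate n c).flatten`; for instance `Primrec.list_flatten` and
`List.map (fun _ => c) (List.range n)`. -/
theorem prim_rep {f : α → ℕ} {g : α → List β} (hf : Primrec f) (hg : Primrec g) :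
    Primrec fun a => (List.replicate (f a) (g a)).flatten := by
  have h : Primrec fun a => (List.range (f a)).flatMap (fun _ => g a) :=
    Primrec.list_flatMap (Primrec.list_range.comp hf) (hg.comp Primrec.fst).to₂
  refine h.of_eq fun a => ?_
  rw [List.flatMap_def]
  congr 1
  rw [List.map_const', List.length_range]

theorem prim_range_map {f : α → ℕ} {g : α → ℕ → β} (hf : Primrec f) (hg : Primrec₂ g) :
    Primrec fun a => (List.range (f a)).map (g a) :=
  Primrec.list_map (Primrec.list_range.comp hf) hg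

theorem prim_range_flatMap {f : α → ℕ} {g : α → ℕ → List β} (hf : Primrec f)
    (hg : Primrec₂ g) : Primrec fun a => (List.range (f a)).flatMap (g a) :=
  Primrec.list_flatMap (Primrec.list_range.comp hf) hg

theorem prim_range_rev_flatMap {f : α → ℕ} {g : α → ℕ → List β} (hf : Primrec f)
    (hg : Primrec₂ g) : Primrec fun a => (List.range (f a)).reverse.flatMap (g a) :=
  Primrec.list_flatMap (Primrec.list_reverse.comp (Primrec.list_range.comp hf)) hg

theorem prim_range_rev_map {f : α → ℕ} {g : α → ℕ → β} (hf : Primrec f) (hg : Primrec₂ g) :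
    Primrec fun a => (List.range (f a)).reverse.map (g a) :=
  Primrec.list_map (Primrec.list_reverse.comp (Primrec.list_range.comp hf)) hg

/-- bounded existential as `List.any` on a range -/
theorem prim_range_any {f : α → ℕ} {g : α → ℕ → Bool} (hf : Primrec f) (hg : Primrec₂ g) :
    Primrec fun a => (List.range (f a)).any (g a) := by
  have h : Primrec fun a => (List.range (f a)).foldr (fun b s => g a b || s) false := by
    refine Primrec.list_foldr (h := fun a p => g a p.1 || p.2) (Primrec.list_range.comp hf)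
      (Primrec.const false) ?_
    exact (Primrec.or.comp (hg.comp Primrec.fst (Primrec.fst.comp Primrec.snd))
      (Primrec.snd.comp Primrec.snd)).to₂
  refine h.of_eq fun a => ?_
  induction List.range (f a) with
  | nil => rfl
  | cons b l ih => rw [List.foldr_cons, List.any_cons, ih]

/-- A function `ℕ → ℕ → β` which is constant `d` outside a finite box is primitive recursive
(look up in a table: `List.getD`). -/
theorem prim_finite (f : ℕ → ℕ → β) (d : β) (S g : ℕ) (h : ∀ q k, S ≤ q ∨ g ≤ k → f q k = d) :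
    Primrec₂ f := by
  classical
  let tb : List β := (List.range (S * g)).map fun i => f (i / g) (i % g)
  have h1 : Primrec₂ fun q k : ℕ => if k < g then tb.getD (q * g + k) d else d := by
    refine Primrec.ite (Primrec.nat_lt.comp Primrec.snd (Primrec.const g)) ?_ (Primrec.const d)
    exact (Primrec.list_getD d).comp (Primrec.const tb)
      (Primrec.nat_add.comp (Primrec.nat_mul.comp Primrec.fst (Primrec.const g)) Primrec.snd)
  refine h1.of_eq fun q k => ?_
  by_cases hk : k < g
  · rw [if_pos hk]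
    by_cases hq : q < S
    · have hlt : q * g + k < S * g := by nlinarith
      rw [List.getD_eq_getElem _ _ (by simpa [tb] using hlt)]
      simp only [tb, List.getElem_map, List.getElem_range]
      have e1 : (q * g + k) / g = q := by
        rw [Nat.mul_comm, Nat.mul_add_div (by omega), Nat.div_eq_of_lt hk, add_zero]
      have e2 : (q * g + k) % g = k := by
        rw [Nat.mul_comm, Nat.mul_add_mod, Nat.mod_eq_of_lt hk]
      rw [e1, e2]
    · have hge : S * g ≤ q * g + k := by nlinarith
      rw [List.getD_eq_default _ _ (by simpa [tb] using hge), h q k (Or.inl (by omega))]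
  · rw [if_neg hk, h q k (Or.inr (by omega))]

end Pool.Agent.MP_fadef1_lc
end

section

namespace Pool.Agent.MP_fadef1_lc

private theorem pCirc_mk {α : Type*} [Primcodable α] {t a b c : α → ℕ} (ht : Primrec t)
    (ha : Primrec a) (hb : Primrec b) (hc : Primrec c) :
    Primrec fun x => (⟨t x, a x, b x, c x⟩ : Layer) :=
  layer_mk.comp (ht.pair (ha.pair (hb.pair hc)))

theorem prim_inv : Primrec Layer.inv := by
  obtain ⟨ht, ha, hb, hc⟩ := layer_proj
  unfold Layer.inv
  refine Primrec.ite (Primrec.eq.comp ht (Primrec.const 0)) ?_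
    (Primrec.ite (Primrec.eq.comp ht (Primrec.const 1)) ?_
      (Primrec.ite (Primrec.eq.comp ht (Primrec.const 2)) ?_ Primrec.id))
  · refine pCirc_mk (Primrec.const 0) ?_ hb hc
    exact Primrec.ite (Primrec.eq.comp (Primrec.nat_mod.comp ha (Primrec.const 2))
      (Primrec.const 0)) (Primrec.nat_add.comp ha (Primrec.const 1))
      (Primrec.nat_sub.comp ha (Primrec.const 1))
  · exact pCirc_mk (Primrec.const 2) ha hb hc
  · exact pCirc_mk (Primrec.const 1) ha hb hc

theorem prim_cinv : Primrec cinv := by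
  unfold cinv
  exact Primrec.list_reverse.comp (Primrec.list_map Primrec.id (prim_inv.comp Primrec.snd).to₂)

theorem prim_pass {α : Type*} [Primcodable α] {d lo hi : α → ℕ} (hd : Primrec d) (hlo : Primrec lo)
    (hhi : Primrec hi) : Primrec fun a => pass (d a) (lo a) (hi a) := by
  unfold pass Layer.gate
  refine prim_range_rev_map (g := fun a k => (⟨0, d a, lo a + k, 0⟩ : Layer)) ?_ ?_
  · exact Primrec.nat_sub.comp (Primrec.nat_sub.comp hhi (Primrec.const 1)) hlo
  · exact (pCirc_mk (Primrec.const 0) (hd.comp Primrec.fst)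
      (Primrec.nat_add.comp (hlo.comp Primrec.fst) Primrec.snd) (Primrec.const 0)).to₂

theorem prim_crep {α : Type*} [Primcodable α] {n : α → ℕ} {c : α → List Layer} (hn : Primrec n)
    (hc : Primrec c) : Primrec fun a => crep (n a) (c a) := by
  unfold crep
  exact prim_rep hn hc

end Pool.Agent.MP_fadef1_lc
end

section

namespace Pool.Agent.MP_fadef1_lc

theorem prim_tr {T : TM} (hT : T.Ok) : Primrec₂ T.tr :=
  prim_finite T.tr none T.S T.g hT.hout

private theorem PTM_div (T : TM) : Primrec fun m : ℕ => m / T.g :=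
  Primrec.nat_div.comp Primrec.id (Primrec.const _)

private theorem PTM_mod (T : TM) : Primrec fun m : ℕ => m % T.g :=
  Primrec.nat_mod.comp Primrec.id (Primrec.const _)

theorem prim_dec {T : TM} (hT : T.Ok) : Primrec T.dec := by
  have h : Primrec fun m : ℕ => T.tr (m / T.g / T.g) (m / T.g % T.g) :=
    (prim_tr hT).comp ((PTM_div T).comp (PTM_div T)) ((PTM_mod T).comp (PTM_div T))
  exact h

private theorem PTM_pow : Primrec₂ ((· ^ ·) : ℕ → ℕ → ℕ) :=
  Primrec₂.unpaired'.1 Nat.Primrec.pow

private theorem PTM_powl (b k : ℕ) : Primrec fun l : List ℕ => b ^ (l.tail.length + k) :=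
  PTM_pow.comp (Primrec.const _)
    (Primrec.nat_add.comp (Primrec.list_length.comp Primrec.list_tail) (Primrec.const _))

theorem prim_NN (T : TM) : Primrec T.NN ∧ Primrec T.N1 ∧ Primrec T.N2 :=
  ⟨PTM_powl T.B 3, PTM_powl T.B 2, PTM_powl T.B 1⟩

theorem prim_num (T : TM) : Primrec T.num := by
  have h : Primrec fun l : List ℕ => l.foldl (fun acc d => (fun (_ : List ℕ) (p : ℕ × ℕ) =>
      p.1 * T.B + p.2) l (acc, d)) 0 :=
    Primrec.list_foldl (f := fun l : List ℕ => l) (g := fun _ => 0)
      (h := fun (_ : List ℕ) (p : ℕ × ℕ) => p.1 * T.B + p.2)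
      Primrec.id (Primrec.const _)
      (Primrec.nat_add.comp (Primrec.nat_mul.comp (Primrec.fst.comp Primrec.snd)
        (Primrec.const _)) (Primrec.snd.comp Primrec.snd)).to₂
  exact h

private theorem PTM_case {α σ : Type*} [Primcodable α] [Primcodable σ] {T : TM} (hT : T.Ok)
    {d : α → ℕ} (hd : Primrec d)
    {z : α → σ} (hz : Primrec z) {f0 : α → ℕ → σ} (hf0 : Primrec₂ f0)
    {f1 : α → ℕ → σ} (hf1 : Primrec₂ f1) {f2 : α → ℕ → ℕ → σ}
    (hf2 : Primrec fun p : α × ℕ × ℕ => f2 p.1 p.2.1 p.2.2) :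
    Primrec fun a => match T.dec (d a) with
      | none => z a
      | some (q, 0) => f0 a q
      | some (q, 1) => f1 a q
      | some (q, b + 2) => f2 a q b := by
  have hinner2 : Primrec₂ fun (x : (α × (ℕ × ℕ)) × ℕ) (b : ℕ) => f2 x.1.1 x.1.2.1 b :=
    (hf2.comp (Primrec.pair (Primrec.fst.comp (Primrec.fst.comp Primrec.fst))
      (Primrec.pair (Primrec.fst.comp (Primrec.snd.comp (Primrec.fst.comp Primrec.fst)))
        Primrec.snd))).to₂
  have hinner1 : Primrec₂ fun (x : α × (ℕ × ℕ)) (b : ℕ) =>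
      (Nat.casesOn b (f1 x.1 x.2.1) (fun b' => f2 x.1 x.2.1 b') : σ) :=
    (Primrec.nat_casesOn (f := fun y : (α × (ℕ × ℕ)) × ℕ => y.2)
      (g := fun y : (α × (ℕ × ℕ)) × ℕ => f1 y.1.1 y.1.2.1)
      (h := fun (y : (α × (ℕ × ℕ)) × ℕ) (b : ℕ) => f2 y.1.1 y.1.2.1 b)
      Primrec.snd
      (hf1.comp (Primrec.fst.comp Primrec.fst)
        (Primrec.fst.comp (Primrec.snd.comp Primrec.fst))) hinner2).to₂
  have houter : Primrec₂ fun (a : α) (p : ℕ × ℕ) =>
      (Nat.casesOn p.2 (f0 a p.1)
        (fun b => (Nat.casesOn b (f1 a p.1) (fun b' => f2 a p.1 b') : σ)) : σ) :=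
    (Primrec.nat_casesOn (f := fun y : α × (ℕ × ℕ) => y.2.2)
      (g := fun y : α × (ℕ × ℕ) => f0 y.1 y.2.1)
      (h := fun (y : α × (ℕ × ℕ)) (b : ℕ) =>
        (Nat.casesOn b (f1 y.1 y.2.1) (fun b' => f2 y.1 y.2.1 b') : σ))
      (Primrec.snd.comp Primrec.snd)
      (hf0.comp Primrec.fst (Primrec.fst.comp Primrec.snd)) hinner1).to₂
  refine (Primrec.option_casesOn ((prim_dec hT).comp hd) hz houter).of_eq fun a => ?_
  rcases T.dec (d a) with _ | ⟨q, _ | _ | b⟩ <;> rfl

private theorem PTM_eq {α : Type*} [Primcodable α] {d : α → ℕ} (hd : Primrec d) (n : ℕ) :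
    PrimrecPred fun a => d a = n :=
  Primrec.eq.comp hd (Primrec.const _)

private theorem PTM_mi {T : TM} {z f : List ℕ × ℕ → ℕ} (hz : Primrec z) (hf : Primrec f) :
    Primrec fun p : List ℕ × ℕ => if p.2 = T.mi then z p else f p :=
  Primrec.ite (PTM_eq Primrec.snd _) hz hf

/-- Case analysis on `m = mi` and `T.dec m` (`Primrec.ite`, `Primrec.option_casesOn`,
`Primrec.nat_casesOn`). -/
theorem prim_aX {T : TM} (hT : T.Ok) : Primrec₂ T.aX := by
  have hN := (prim_NN T).1.comp (Primrec.fst (α := List ℕ) (β := ℕ))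
  have hN1 := (prim_NN T).2.1.comp (Primrec.fst (α := List ℕ) (β := ℕ))
  exact PTM_mi (T := T) (Primrec.const 0)
    (PTM_case hT (d := fun p : List ℕ × ℕ => p.2) Primrec.snd (Primrec.const 0)
      (f0 := fun p _ => T.NN p.1 * T.B)
      ((Primrec.nat_mul.comp hN (Primrec.const _)).comp Primrec.fst).to₂
      (f1 := fun p _ => T.N1 p.1) (hN1.comp Primrec.fst).to₂
      (f2 := fun p _ _ => T.NN p.1) (hN.comp Primrec.fst))

theorem prim_bXp {T : TM} (hT : T.Ok) : Primrec₂ T.bXp := by
  have hN1 := (prim_NN T).2.1.comp (Primrec.fst (α := List ℕ) (β := ℕ))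
  have hN2 := (prim_NN T).2.2.comp (Primrec.fst (α := List ℕ) (β := ℕ))
  have hgq : Primrec fun q : ℕ => T.g * q := Primrec.nat_mul.comp (Primrec.const _) Primrec.id
  refine PTM_mi (T := T) (z := fun p => T.N1 p.1 * p.1.headI)
    (Primrec.nat_mul.comp hN1 (Primrec.list_headI.comp Primrec.fst))
    (PTM_case hT (d := fun p : List ℕ × ℕ => p.2) Primrec.snd (Primrec.const 0)
      (f0 := fun p q => T.N1 p.1 * (T.g * q))
      (Primrec.nat_mul.comp (hN1.comp Primrec.fst) (hgq.comp Primrec.snd)).to₂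
      (f1 := fun p q => T.N1 p.1 * (T.g * q + p.2 % T.g) + T.N2 p.1 * (p.2 / T.g % T.g))
      ?_
      (f2 := fun p q a => T.N1 p.1 * (T.g * q + a)) ?_)
  · have hm : Primrec fun x : (List ℕ × ℕ) × ℕ => x.1.2 := Primrec.snd.comp Primrec.fst
    exact (Primrec.nat_add.comp
      (Primrec.nat_mul.comp (hN1.comp Primrec.fst)
        (Primrec.nat_add.comp (hgq.comp Primrec.snd) ((PTM_mod T).comp hm)))
      (Primrec.nat_mul.comp (hN2.comp Primrec.fst)
        ((PTM_mod T).comp ((PTM_div T).comp hm)))).to₂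
  · exact Primrec.nat_mul.comp (hN1.comp Primrec.fst)
      (Primrec.nat_add.comp (hgq.comp (Primrec.fst.comp Primrec.snd))
        (Primrec.snd.comp Primrec.snd))

theorem prim_bXm {T : TM} (hT : T.Ok) : Primrec₂ T.bXm := by
  have hN := (prim_NN T).1.comp (Primrec.fst (α := List ℕ) (β := ℕ))
  have hN1 := (prim_NN T).2.1.comp (Primrec.fst (α := List ℕ) (β := ℕ))
  have hN2 := (prim_NN T).2.2.comp (Primrec.fst (α := List ℕ) (β := ℕ))
  have hd : Primrec fun p : List ℕ × ℕ => p.2 / T.g := (PTM_div T).comp Primrec.snd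
  exact PTM_mi (T := T) (Primrec.const 0)
    (PTM_case hT (d := fun p : List ℕ × ℕ => p.2) Primrec.snd (Primrec.const 0)
      (f0 := fun p _ => T.NN p.1 * (p.2 / T.g))
      ((Primrec.nat_mul.comp hN hd).comp Primrec.fst).to₂
      (f1 := fun p _ => T.N2 p.1 * (p.2 / T.g))
      ((Primrec.nat_mul.comp hN2 hd).comp Primrec.fst).to₂
      (f2 := fun p _ _ => T.N1 p.1 * (p.2 / T.g))
      ((Primrec.nat_mul.comp hN1 hd).comp Primrec.fst))

theorem prim_aY {T : TM} (hT : T.Ok) : Primrec₂ T.aY := by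
  have hN := (prim_NN T).1.comp (Primrec.fst (α := List ℕ) (β := ℕ))
  have hN1 := (prim_NN T).2.1.comp (Primrec.fst (α := List ℕ) (β := ℕ))
  exact PTM_mi (T := T) (Primrec.const 0)
    (PTM_case hT (d := fun p : List ℕ × ℕ => p.2) Primrec.snd (Primrec.const 0)
      (f0 := fun p _ => T.N1 p.1) (hN1.comp Primrec.fst).to₂
      (f1 := fun p _ => T.NN p.1 * T.B)
      ((Primrec.nat_mul.comp hN (Primrec.const _)).comp Primrec.fst).to₂
      (f2 := fun p _ _ => T.NN p.1) (hN.comp Primrec.fst))

theorem prim_bYp {T : TM} (hT : T.Ok) : Primrec₂ T.bYp := by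
  have hN1 := (prim_NN T).2.1.comp (Primrec.fst (α := List ℕ) (β := ℕ))
  have hd : Primrec fun p : List ℕ × ℕ => p.2 / T.g % T.g :=
    (PTM_mod T).comp ((PTM_div T).comp Primrec.snd)
  have h : Primrec fun p : List ℕ × ℕ => if p.2 = T.mi then T.num p.1.tail * T.B ^ 3 else
      match T.dec p.2 with
      | none => 0
      | some (_, 0) => T.N1 p.1 * (p.2 / T.g % T.g)
      | some (_, 1) => 0
      | some (_, _ + 2) => 0 :=
    PTM_mi (T := T) (z := fun p => T.num p.1.tail * T.B ^ 3)
      (Primrec.nat_mul.comp ((prim_num T).comp (Primrec.list_tail.comp Primrec.fst))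
        (Primrec.const _))
      (PTM_case hT (d := fun p : List ℕ × ℕ => p.2) Primrec.snd (Primrec.const 0)
        (f0 := fun p _ => T.N1 p.1 * (p.2 / T.g % T.g))
        ((Primrec.nat_mul.comp hN1 hd).comp Primrec.fst).to₂
        (f1 := fun _ _ => 0) (Primrec.const 0).to₂
        (f2 := fun _ _ _ => 0) (Primrec.const 0))
  refine h.of_eq fun p => ?_
  unfold TM.bYp
  split_ifs
  · rfl
  · rcases T.dec p.2 with _ | ⟨q, _ | _ | b⟩ <;> rfl

theorem prim_bYm {T : TM} (hT : T.Ok) : Primrec₂ T.bYm := by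
  have hN := (prim_NN T).1.comp (Primrec.fst (α := List ℕ) (β := ℕ))
  have hd : Primrec fun p : List ℕ × ℕ => p.2 % T.g := (PTM_mod T).comp Primrec.snd
  exact PTM_mi (T := T) (Primrec.const 0)
    (PTM_case hT (d := fun p : List ℕ × ℕ => p.2) Primrec.snd (Primrec.const 0)
      (f0 := fun _ _ => 0) (Primrec.const 0).to₂
      (f1 := fun p _ => T.NN p.1 * (p.2 % T.g))
      ((Primrec.nat_mul.comp hN hd).comp Primrec.fst).to₂
      (f2 := fun _ _ _ => 0) (Primrec.const 0))

theorem prim_hlt {T : TM} (hT : T.Ok) : Primrec T.hlt := by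
  have h1 : Primrec fun m : ℕ => decide (m = T.mi) :=
    (PTM_eq (d := fun m : ℕ => m) Primrec.id T.mi).decide
  have h2 : Primrec fun m : ℕ => (T.dec m).isSome := Primrec.option_isSome.comp (prim_dec hT)
  refine (Primrec.and.comp (Primrec.not.comp h1) (Primrec.not.comp h2)).of_eq fun m => ?_
  unfold TM.hlt
  have e1 : (!decide (m = T.mi)) = decide (m ≠ T.mi) := by
    by_cases h : m = T.mi <;> simp [h]
  have e2 : (!(T.dec m).isSome) = (T.dec m).isNone := by
    cases T.dec m <;> rfl
  rw [e1, e2]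

end Pool.Agent.MP_fadef1_lc
end
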