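import Pool.Agent.Lib.MP_fadef1_lc.III.Inst
import Pool.Agent.Lib.MP_fadef1_lc.Mg.G030

section

namespace Pool.Agent.MP_fadef1_lc

variable {α : Type*} [Primcodable α]

private theorem PEv_mk {t x y : α → ℕ} (ht : Primrec t) (hx : Primrec x) (hy : Primrec y) :
    Primrec fun a => (⟨t a, x a, y a⟩ : Ev) :=
  ev_mk.comp (ht.pair (hx.pair hy))

private theorem PEv_A {c : α → ℕ} (h : Primrec c) : Primrec fun a => Ev.A (c a) :=
  PEv_mk (Primrec.const 3) h (Primrec.const 0)

private theorem PEv_R {c c' : α → ℕ} (h : Primrec c) (h' : Primrec c') :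
    Primrec fun a => Ev.R (c a) (c' a) :=
  PEv_mk (Primrec.const 1) h h'

private theorem PEv_G {d c : α → ℕ} (h' : Primrec d) (h : Primrec c) :
    Primrec fun a => Ev.G (d a) (c a) :=
  PEv_mk (Primrec.const 2) h h'

private theorem PEv_I {c : α → ℕ} (h : Primrec c) : Primrec fun a => Ev.I (c a) :=
  PEv_mk (Primrec.const 4) h (Primrec.const 0)

private theorem PEv_X {c : α → ℕ} (h : Primrec c) : Primrec fun a => Ev.X (c a) :=
  PEv_mk (Primrec.const 5) h (Primrec.const 0)

private theorem PEv_single {β : Type*} [Primcodable β] {f : α → β} (h : Primrec f) :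
    Primrec fun a => [f a] :=
  Primrec.list_cons.comp h (Primrec.const [])

private theorem PEv_add {f g : α → ℕ} (h : Primrec f) (h' : Primrec g) :
    Primrec fun a => f a + g a := Primrec.nat_add.comp h h'
private theorem PEv_sub {f g : α → ℕ} (h : Primrec f) (h' : Primrec g) :
    Primrec fun a => f a - g a := Primrec.nat_sub.comp h h'
private theorem PEv_mul {f g : α → ℕ} (h : Primrec f) (h' : Primrec g) :
    Primrec fun a => f a * g a := Primrec.nat_mul.comp h h'

theorem prim_move {c c' : α → ℕ} (h : Primrec c) (h' : Primrec c') :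
    Primrec fun a => move (c a) (c' a) :=
  Primrec.list_cons.comp (PEv_A h)
    (PEv_single (PEv_R (PEv_add h (Primrec.const 14)) h'))

theorem prim_pos {M P0 t k : α → ℕ} (hM : Primrec M) (hP : Primrec P0) (ht : Primrec t)
    (hk : Primrec k) : Primrec fun a => pos (M a) (P0 a) (t a) (k a) :=
  PEv_add (PEv_add hP (PEv_mul ht
    (PEv_add (PEv_mul (Primrec.const 20) hM) (Primrec.const 30)))) (PEv_mul hk (Primrec.const 20))

theorem prim_layerEvs {M P0 t : α → ℕ} {l : α → Layer} (hM : Primrec M) (hP : Primrec P0)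
    (ht : Primrec t) (hl : Primrec l) : Primrec fun a => layerEvs (M a) (P0 a) (t a) (l a) := by
  have hlt : Primrec fun a => (l a).t := layer_proj.1.comp hl
  have hla : Primrec fun a => (l a).a := layer_proj.2.1.comp hl
  have hlb : Primrec fun a => (l a).b := layer_proj.2.2.1.comp hl
  have hlc : Primrec fun a => (l a).c := layer_proj.2.2.2.comp hl
  have ht1 : Primrec fun a => t a + 1 := PEv_add ht (Primrec.const 1)
  have hb1 : Primrec fun a => (l a).b + 1 := PEv_add hlb (Primrec.const 1)
  have up : ∀ {f : α → ℕ}, Primrec f → Primrec fun p : α × ℕ => f p.1 :=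
    fun h => h.comp Primrec.fst
  have hj : Primrec fun p : α × ℕ => p.2 := Primrec.snd
  unfold layerEvs
  refine Primrec.ite (Primrec.eq.comp hlt (Primrec.const 0)) ?_
    (Primrec.ite (Primrec.eq.comp hlt (Primrec.const 1)) ?_ ?_)
  · have hpb : Primrec fun a => pos (M a) (P0 a) (t a) ((l a).b + 1) := prim_pos hM hP ht hb1
    refine Primrec.list_append.comp (Primrec.list_append.comp
      (prim_move (prim_pos hM hP ht hlb) (PEv_sub hpb (Primrec.const 2)))
      (PEv_single (PEv_G hla (PEv_sub hpb (Primrec.const 2))))) ?_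
    refine prim_range_rev_flatMap hM ?_
    refine prim_move (α := α × ℕ) ?_ (prim_pos (up hM) (up hP) (up ht1) hj)
    refine Primrec.ite (Primrec.eq.comp hj (up hlb)) (PEv_add (up hpb) (Primrec.const 12)) ?_
    refine Primrec.ite (Primrec.eq.comp hj (up hb1)) (PEv_add (up hpb) (Primrec.const 14)) ?_
    exact prim_pos (up hM) (up hP) (up ht) hj
  · refine Primrec.list_append.comp (prim_range_rev_flatMap hM ?_) (prim_range_map ?_ ?_)
    · refine Primrec.ite ((Primrec.nat_le.comp (up hla) hj).and (Primrec.nat_lt.comp hj (up hlb)))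
        ?_ (prim_move (prim_pos (up hM) (up hP) (up ht) hj)
          (prim_pos (up hM) (up hP) (up ht1) hj))
      refine Primrec.ite (Primrec.nat_lt.comp (PEv_add hj (up hlc)) (up hlb))
        (prim_move (prim_pos (up hM) (up hP) (up ht) hj)
          (prim_pos (up hM) (up hP) (up ht1) (PEv_add hj (up hlc)))) ?_
      exact PEv_single (PEv_X (prim_pos (up hM) (up hP) (up ht) hj))
    · exact Primrec.nat_min.comp hlc (PEv_sub hlb hla)
    · exact PEv_I (α := α × ℕ) (prim_pos (up hM) (up hP) (up ht1) (PEv_add (up hla) hj))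
  · refine Primrec.list_append.comp (prim_range_rev_flatMap hM ?_) (prim_range_map ?_ ?_)
    · refine Primrec.ite ((Primrec.nat_le.comp (up hla) hj).and (Primrec.nat_lt.comp hj (up hlb)))
        ?_ (prim_move (prim_pos (up hM) (up hP) (up ht) hj)
          (prim_pos (up hM) (up hP) (up ht1) hj))
      refine Primrec.ite (Primrec.nat_le.comp (PEv_add (up hla) (up hlc)) hj)
        (prim_move (prim_pos (up hM) (up hP) (up ht) hj)
          (prim_pos (up hM) (up hP) (up ht1) (PEv_sub hj (up hlc)))) ?_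
      exact PEv_single (PEv_X (prim_pos (up hM) (up hP) (up ht) hj))
    · exact Primrec.nat_min.comp hlc (PEv_sub hlb hla)
    · exact PEv_I (α := α × ℕ) (prim_pos (up hM) (up hP) (up ht1)
        (PEv_sub (PEv_sub (up hlb) (Primrec.const 1)) hj))

theorem prim_initEvs {M P0 S : α → ℕ} {src : α → ℕ → ℕ} (hM : Primrec M) (hP : Primrec P0)
    (hS : Primrec S) (hs : Primrec₂ src) :
    Primrec fun a => initEvs (M a) (P0 a) (S a) (src a) := by
  have up : ∀ {f : α → ℕ}, Primrec f → Primrec fun p : α × ℕ => f p.1 :=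
    fun h => h.comp Primrec.fst
  have hj : Primrec fun p : α × ℕ => p.2 := Primrec.snd
  unfold initEvs
  refine Primrec.list_append.comp (prim_range_rev_flatMap hS ?_)
    (prim_range_map (PEv_sub hM hS) ?_)
  · exact prim_move (α := α × ℕ) hs (prim_pos (up hM) (up hP) (Primrec.const 0) hj)
  · exact PEv_I (α := α × ℕ) (prim_pos (up hM) (up hP) (Primrec.const 0) (PEv_add (up hS) hj))

theorem prim_finalEvs {M P0 S t : α → ℕ} {dst : α → ℕ → ℕ} (hM : Primrec M) (hP : Primrec P0)
    (hS : Primrec S) (ht : Primrec t) (hs : Primrec₂ dst) :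
    Primrec fun a => finalEvs (M a) (P0 a) (S a) (t a) (dst a) := by
  have up : ∀ {f : α → ℕ}, Primrec f → Primrec fun p : α × ℕ => f p.1 :=
    fun h => h.comp Primrec.fst
  have hj : Primrec fun p : α × ℕ => p.2 := Primrec.snd
  unfold finalEvs
  refine prim_range_rev_flatMap hM ?_
  refine Primrec.ite (Primrec.nat_lt.comp hj (up hS))
    (prim_move (α := α × ℕ) (prim_pos (up hM) (up hP) (up ht) hj) hs) ?_
  exact PEv_single (PEv_X (prim_pos (up hM) (up hP) (up ht) hj))

theorem prim_circEvs {M P0 S : α → ℕ} {src dst : α → ℕ → ℕ} {L : α → List Layer}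
    (hM : Primrec M) (hP : Primrec P0) (hS : Primrec S) (hs : Primrec₂ src) (hd : Primrec₂ dst)
    (hL : Primrec L) :
    Primrec fun a => circEvs (M a) (P0 a) (S a) (src a) (dst a) (L a) := by
  have up : ∀ {f : α → ℕ}, Primrec f → Primrec fun p : α × ℕ => f p.1 :=
    fun h => h.comp Primrec.fst
  have hj : Primrec fun p : α × ℕ => p.2 := Primrec.snd
  have hlen : Primrec fun a => (L a).length := Primrec.list_length.comp hL
  unfold circEvs
  refine Primrec.list_append.comp (Primrec.list_append.comp (prim_initEvs hM hP hS hs)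
    (prim_range_flatMap hlen ?_)) (prim_finalEvs hM hP hS hlen hd)
  refine prim_layerEvs (α := α × ℕ) (up hM) (up hP) hj ?_
  exact (Primrec.list_getD default).comp (hL.comp Primrec.fst) hj

end Pool.Agent.MP_fadef1_lc
end

section

namespace Pool.Agent.MP_fadef1_lc

private theorem ppar_N : Primrec Par.N := par_proj.1
private theorem ppar_M : Primrec Par.M := par_proj.2.1
private theorem ppar_Hs : Primrec Par.Hs := par_proj.2.2.1
private theorem ppar_QQ : Primrec Par.QQ := par_proj.2.2.2.1
private theorem ppar_cE : Primrec Par.cE := par_proj.2.2.2.2.1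
private theorem ppar_cX : Primrec Par.cX := par_proj.2.2.2.2.2.1
private theorem ppar_cY : Primrec Par.cY := par_proj.2.2.2.2.2.2

private theorem padd {α : Type*} [Primcodable α] {f g : α → ℕ} (hf : Primrec f)
    (hg : Primrec g) : Primrec fun a => f a + g a := Primrec.nat_add.comp hf hg

private theorem psub {α : Type*} [Primcodable α] {f g : α → ℕ} (hf : Primrec f)
    (hg : Primrec g) : Primrec fun a => f a - g a := Primrec.nat_sub.comp hf hg

private theorem pmul {α : Type*} [Primcodable α] {f g : α → ℕ} (hf : Primrec f)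
    (hg : Primrec g) : Primrec fun a => f a * g a := Primrec.nat_mul.comp hf hg

private theorem pdiv {α : Type*} [Primcodable α] {f g : α → ℕ} (hf : Primrec f)
    (hg : Primrec g) : Primrec fun a => f a / g a := Primrec.nat_div.comp hf hg

private theorem pmod {α : Type*} [Primcodable α] {f g : α → ℕ} (hf : Primrec f)
    (hg : Primrec g) : Primrec fun a => f a % g a := Primrec.nat_mod.comp hf hg

private theorem pc {α β : Type*} [Primcodable α] [Primcodable β] (b : β) :
    Primrec fun _ : α => b := Primrec.const b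

theorem prim_Q : Primrec Par.Q ∧ Primrec Par.K ∧ Primrec Par.H0 := by
  refine ⟨?_, ?_, ?_⟩
  · exact pmul (pc 2) ppar_QQ
  · exact pmul (pc 6) ppar_QQ
  · exact padd (pmul (pc 2) ppar_N) (pc 20)

theorem prim_base : Primrec₂ Par.base := by
  change Primrec fun p : Par × ℕ => p.1.H0 + p.2 * p.1.Hs
  exact padd (prim_Q.2.2.comp Primrec.fst) (pmul Primrec.snd (ppar_Hs.comp Primrec.fst))

theorem prim_ex {α : Type*} [Primcodable α] {P : α → Par} {t k : α → ℕ} (hP : Primrec P)
    (ht : Primrec t) (hk : Primrec k) :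
    (Primrec fun a => (P a).ex (t a) (k a)) ∧ (Primrec fun a => (P a).en (t a) (k a)) := by
  have hQ : Primrec fun a => (P a).Q := prim_Q.1.comp hP
  have hb : Primrec fun a => (P a).base (t a) := prim_base.comp hP ht
  have h2 : Primrec fun a => 2 * ((P a).base (t a) + k a) := pmul (pc 2) (padd hb hk)
  constructor
  · exact psub (psub (pmul (pc 2) hQ) (pc 1)) h2
  · exact psub (psub hQ (pc 1)) h2

/-- `circ` for the four values of `d` -/
theorem prim_circ : ∀ d : ℕ, Primrec fun P : Par => P.circ d := by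
  intro d
  unfold Par.circ
  split_ifs
  · exact ppar_cX
  · exact prim_cinv.comp ppar_cX
  · exact ppar_cY
  · exact prim_cinv.comp ppar_cY

/-- for each fixed `d` -/
theorem prim_pairEvs : ∀ d : ℕ, Primrec fun P : Par => P.pairEvs d := by
  intro d
  have hN : Primrec fun p : Par × ℕ => p.1.N := ppar_N.comp Primrec.fst
  have hs : Primrec₂ fun (P : Par) (a : ℕ) => P.srcP d a := by
    change Primrec fun p : Par × ℕ => p.1.srcP d p.2
    unfold Par.srcP
    refine Primrec.ite (Primrec.nat_lt.comp Primrec.snd hN) ?_ ?_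
    · exact (prim_ex Primrec.fst (pc _) (psub (psub hN (pc 1)) Primrec.snd)).2
    · exact (prim_ex Primrec.fst (pc _)
        (psub (psub (pmul (pc 2) hN) (pc 1)) Primrec.snd)).2
  have hd : Primrec₂ fun (P : Par) (a : ℕ) => P.dstP d a := by
    change Primrec fun p : Par × ℕ => p.1.dstP d p.2
    unfold Par.dstP
    refine Primrec.ite (Primrec.nat_lt.comp Primrec.snd hN) ?_ ?_
    · exact (prim_ex Primrec.fst (pc _) (psub (psub hN (pc 1)) Primrec.snd)).1
    · exact (prim_ex Primrec.fst (pc _)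
        (psub (psub (pmul (pc 2) hN) (pc 1)) Primrec.snd)).1
  have he : Primrec fun P : Par => P.en (30 - 9 * d) 0 + 30 :=
    padd (prim_ex Primrec.id (pc _) (pc 0)).2 (pc 30)
  exact prim_circEvs ppar_M he (pmul (pc 2) ppar_N) hs hd (prim_circ d)

theorem prim_aliveEvs : Primrec Par.aliveEvs := by
  have hN : Primrec fun p : Par × ℕ => p.1.N := ppar_N.comp Primrec.fst
  have hs : Primrec₂ fun (P : Par) (a : ℕ) => P.srcE a := by
    change Primrec fun p : Par × ℕ => p.1.srcE p.2
    exact (prim_ex Primrec.fst (pc _) (psub (psub hN (pc 1)) Primrec.snd)).2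
  have hd : Primrec₂ fun (P : Par) (a : ℕ) => P.dstE a := by
    change Primrec fun p : Par × ℕ => p.1.dstE p.2
    exact (prim_ex Primrec.fst (pc _) (psub (psub hN (pc 1)) Primrec.snd)).1
  have he : Primrec fun P : Par => P.en 39 0 + 30 :=
    padd (prim_ex Primrec.id (pc _) (pc 0)).2 (pc 30)
  exact prim_circEvs ppar_M he ppar_N hs hd ppar_cE

private theorem pbool {α β : Type*} [Primcodable α] [Primcodable β] {b : α → Bool}
    {f g : α → β} (hb : Primrec b) (hf : Primrec f) (hg : Primrec g) :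
    Primrec fun a => if b a = true then f a else g a :=
  Primrec.ite (Primrec.eq.comp hb (pc true)) hf hg

theorem prim_top : Primrec₂ Par.top := by
  change Primrec fun p : Par × Bool => p.1.top p.2
  unfold Par.top
  refine pbool Primrec.snd ?_ ?_
  · exact prim_move (padd (prim_Q.1.comp Primrec.fst) (pc 13))
      (prim_ex Primrec.fst (pc _) (pc 0)).1
  · refine prim_range_flatMap (ppar_N.comp Primrec.fst) ?_
    change Primrec fun q : (Par × Bool) × ℕ => move (q.1.1.ex 42 q.2) (q.1.1.ex 0 q.2)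
    have h1 : Primrec fun q : (Par × Bool) × ℕ => q.1.1 := Primrec.fst.comp Primrec.fst
    exact prim_move (prim_ex h1 (pc _) Primrec.snd).1 (prim_ex h1 (pc _) Primrec.snd).1

theorem prim_strip : Primrec fun p : Par × Bool × ℕ => p.1.strip p.2.1 p.2.2 := by
  have hP : Primrec fun p : Par × Bool × ℕ => p.1 := Primrec.fst
  have hb : Primrec fun p : Par × Bool × ℕ => p.2.1 := Primrec.fst.comp Primrec.snd
  have ht : Primrec fun p : Par × Bool × ℕ => p.2.2 := Primrec.snd.comp Primrec.snd
  have heq : ∀ c : ℕ, PrimrecPred fun p : Par × Bool × ℕ => p.2.2 = c := fun c =>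
    Primrec.eq.comp ht (pc c)
  unfold Par.strip
  refine pbool hb ?_ ?_
  · refine Primrec.ite (heq 39) (prim_aliveEvs.comp hP) ?_
    refine Primrec.ite (heq 36) ((prim_pairEvs 0).comp hP) ?_
    refine Primrec.ite (heq 27) ((prim_pairEvs 1).comp hP) ?_
    refine Primrec.ite (heq 18) ((prim_pairEvs 2).comp hP) ?_
    exact Primrec.ite (heq 9) ((prim_pairEvs 3).comp hP) (pc [])
  · have h1 : PrimrecPred fun p : Par × Bool × ℕ => p.2.2 ≤ 84 ∧ p.2.2 ≠ 41 ∧ p.2.2 ≠ 42 :=
      (Primrec.nat_le.comp ht (pc 84)).and ((heq 41).not.and (heq 42).not)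
    refine Primrec.ite h1 ?_ (pc [])
    refine prim_range_flatMap (ppar_N.comp hP) ?_
    change Primrec fun q : (Par × Bool × ℕ) × ℕ => move (q.1.1.en q.1.2.2 q.2)
      (if q.1.2.2 = 84 then q.1.1.en 42 q.2 else q.1.1.ex (q.1.2.2 + 1) q.2)
    have hP' : Primrec fun q : (Par × Bool × ℕ) × ℕ => q.1.1 := hP.comp Primrec.fst
    have ht' : Primrec fun q : (Par × Bool × ℕ) × ℕ => q.1.2.2 := ht.comp Primrec.fst
    have hk' : Primrec fun q : (Par × Bool × ℕ) × ℕ => q.2 := Primrec.snd
    refine prim_move (prim_ex hP' ht' hk').2 ?_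
    refine Primrec.ite (Primrec.eq.comp ht' (pc 84)) ?_ ?_
    · exact (prim_ex hP' (pc 42) hk').2
    · exact (prim_ex hP' (padd ht' (pc 1)) hk').1

private theorem pstrip {α : Type*} [Primcodable α] {P : α → Par} {b : α → Bool} {t : α → ℕ}
    (hP : Primrec P) (hb : Primrec b) (ht : Primrec t) :
    Primrec fun a => (P a).strip (b a) (t a) :=
  prim_strip.comp (hP.pair (hb.pair ht))

theorem prim_ev : Primrec fun p : Par × Bool × ℕ => p.1.ev p.2.1 p.2.2 := by
  have hP : Primrec fun p : Par × Bool × ℕ => p.1 := Primrec.fst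
  have hb : Primrec fun p : Par × Bool × ℕ => p.2.1 := Primrec.fst.comp Primrec.snd
  have hA : Primrec fun p : Par × Bool × ℕ => p.2.2 := Primrec.snd.comp Primrec.snd
  have hH : Primrec fun p : Par × Bool × ℕ => p.1.H0 := prim_Q.2.2.comp hP
  have hHs : Primrec fun p : Par × Bool × ℕ => p.1.Hs := ppar_Hs.comp hP
  have hN : Primrec fun p : Par × Bool × ℕ => p.1.N := ppar_N.comp hP
  have hm : Primrec fun p : Par × Bool × ℕ => (p.2.2 - p.1.H0) % p.1.Hs :=
    pmod (psub hA hH) hHs
  have hdv : Primrec fun p : Par × Bool × ℕ => (p.2.2 - p.1.H0) / p.1.Hs :=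
    pdiv (psub hA hH) hHs
  have hN4 : Primrec fun p : Par × Bool × ℕ => p.1.N + 4 := padd hN (pc 4)
  have e1 : Primrec fun p : Par × Bool × ℕ => (p.1.top p.2.1).getD (p.2.2 - 4) Ev.non :=
    (Primrec.list_getD Ev.non).comp (prim_top.comp hP hb) (psub hA (pc 4))
  have e2 : Primrec fun p : Par × Bool × ℕ =>
      p.1.strip p.2.1 ((p.2.2 - p.1.H0) / p.1.Hs) :=
    pstrip hP hb hdv
  have e3 : Primrec fun p : Par × Bool × ℕ =>
      (p.1.strip p.2.1 ((p.2.2 - p.1.H0) / p.1.Hs)).getD
        ((p.2.2 - p.1.H0) % p.1.Hs - (p.1.N + 4)) Ev.non :=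
    (Primrec.list_getD Ev.non).comp e2 (psub hm hN4)
  have e4 : Primrec fun p : Par × Bool × ℕ =>
      if (p.2.2 - p.1.H0) % p.1.Hs < p.1.N + 4 then Ev.non else
      (p.1.strip p.2.1 ((p.2.2 - p.1.H0) / p.1.Hs)).getD
        ((p.2.2 - p.1.H0) % p.1.Hs - (p.1.N + 4)) Ev.non :=
    Primrec.ite (Primrec.nat_lt.comp hm hN4) (pc Ev.non) e3
  exact Primrec.ite (Primrec.nat_lt.comp hA (pc 4)) (pc Ev.non)
    (Primrec.ite (Primrec.nat_lt.comp hA hH) e1 e4)

theorem prim_entry : (Primrec fun p : Par × Bool × ℕ => p.1.entry p.2.1 p.2.2) ∧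
    (Primrec fun p : Par × Bool × ℕ => p.1.zrow p.2.1 p.2.2) := by
  have hP : Primrec fun p : Par × Bool × ℕ => p.1 := Primrec.fst
  have hb : Primrec fun p : Par × Bool × ℕ => p.2.1 := Primrec.fst.comp Primrec.snd
  have hA : Primrec fun p : Par × Bool × ℕ => p.2.2 := Primrec.snd.comp Primrec.snd
  have hH : Primrec fun p : Par × Bool × ℕ => p.1.H0 := prim_Q.2.2.comp hP
  have hHs : Primrec fun p : Par × Bool × ℕ => p.1.Hs := ppar_Hs.comp hP
  have hN : Primrec fun p : Par × Bool × ℕ => p.1.N := ppar_N.comp hP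
  have hm : Primrec fun p : Par × Bool × ℕ => (p.2.2 - p.1.H0) % p.1.Hs :=
    pmod (psub hA hH) hHs
  have hdv : Primrec fun p : Par × Bool × ℕ => (p.2.2 - p.1.H0) / p.1.Hs :=
    pdiv (psub hA hH) hHs
  have h1 : Primrec fun p : Par × Bool × ℕ => decide (p.1.H0 ≤ p.2.2) :=
    (Primrec.nat_le.comp hH hA).decide
  have h2 : Primrec fun p : Par × Bool × ℕ => decide ((p.2.2 - p.1.H0) % p.1.Hs < p.1.N) :=
    (Primrec.nat_lt.comp hm hN).decide
  constructor
  · have h3 : Primrec₂ entStrip := by
      change Primrec fun q : Bool × ℕ => entStrip q.1 q.2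
      have hq : ∀ c : ℕ, PrimrecPred fun q : Bool × ℕ => q.2 = c := fun c =>
        Primrec.eq.comp Primrec.snd (pc c)
      unfold entStrip
      refine pbool Primrec.fst ?_ ?_
      · refine PrimrecPred.decide ?_
        exact (hq 42).or ((hq 39).or ((hq 36).or ((hq 27).or ((hq 18).or ((hq 9).or
          ((hq 30).or ((hq 21).or ((hq 12).or (hq 3)))))))))
      · refine PrimrecPred.decide ?_
        exact (Primrec.nat_le.comp Primrec.snd (pc 84)).and ((hq 41).not.and (hq 42).not)
    exact Primrec.and.comp (Primrec.and.comp h1 h2) (h3.comp hb hdv)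
  · have h4 : Primrec fun p : Par × Bool × ℕ =>
        decide ((p.2.2 - p.1.H0) / p.1.Hs = 42) := (Primrec.eq.comp hdv (pc 42)).decide
    exact Primrec.and.comp (Primrec.and.comp (Primrec.and.comp (Primrec.not.comp hb) h1) h2) h4

end Pool.Agent.MP_fadef1_lc
end

section

namespace Pool.Agent.MP_fadef1_lc

variable {α : Type*} [Primcodable α]

private theorem PBit_add {f g : α → ℕ} (h : Primrec f) (h' : Primrec g) :
    Primrec fun a => f a + g a := Primrec.nat_add.comp h h'
private theorem PBit_sub {f g : α → ℕ} (h : Primrec f) (h' : Primrec g) :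
    Primrec fun a => f a - g a := Primrec.nat_sub.comp h h'
private theorem PBit_mul {f g : α → ℕ} (h : Primrec f) (h' : Primrec g) :
    Primrec fun a => f a * g a := Primrec.nat_mul.comp h h'
private theorem PBit_or {f g : α → Bool} (h : Primrec f) (h' : Primrec g) :
    Primrec fun a => (f a || g a) := Primrec.or.comp h h'
private theorem PBit_and {f g : α → Bool} (h : Primrec f) (h' : Primrec g) :
    Primrec fun a => (f a && g a) := Primrec.and.comp h h'
private theorem PBit_not {f : α → Bool} (h : Primrec f) :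
    Primrec fun a => (!f a) := Primrec.not.comp h

private theorem PBit_eq {f g : α → ℕ} (h : Primrec f) (h' : Primrec g) :
    PrimrecPred fun a => f a = g a := Primrec.eq.comp h h'

private theorem PBit_dec {p : α → Prop} [DecidablePred p] (h : PrimrecPred p) :
    Primrec fun a => decide (p a) := PrimrecPred.decide h

private theorem PBit_isSrc : Primrec fun p : Ev × ℕ => isSrc p.1 p.2 := by
  have ht : Primrec fun p : Ev × ℕ => p.1.t := ev_proj.1.comp Primrec.fst
  have hx : Primrec fun p : Ev × ℕ => p.1.x := ev_proj.2.1.comp Primrec.fst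
  have hc : Primrec fun p : Ev × ℕ => p.2 := Primrec.snd
  unfold isSrc
  refine Primrec.ite (PBit_eq ht (Primrec.const 1)) (PBit_dec (PBit_eq hc hx)) ?_
  refine Primrec.ite (PBit_eq ht (Primrec.const 2)) (PBit_dec ((PBit_eq hc hx).or
    (PBit_eq hc (PBit_add hx (Primrec.const 2))))) ?_
  refine Primrec.ite (PBit_eq ht (Primrec.const 3)) (PBit_dec (PBit_eq hc hx)) ?_
  exact Primrec.ite (PBit_eq ht (Primrec.const 5)) (PBit_dec (PBit_eq hc hx))
    (Primrec.const false)

private theorem PBit_isDst : Primrec fun p : Ev × ℕ => isDst p.1 p.2 := by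
  have ht : Primrec fun p : Ev × ℕ => p.1.t := ev_proj.1.comp Primrec.fst
  have hx : Primrec fun p : Ev × ℕ => p.1.x := ev_proj.2.1.comp Primrec.fst
  have hy : Primrec fun p : Ev × ℕ => p.1.y := ev_proj.2.2.comp Primrec.fst
  have hc : Primrec fun p : Ev × ℕ => p.2 := Primrec.snd
  unfold isDst
  refine Primrec.ite (PBit_eq ht (Primrec.const 1)) (PBit_dec (PBit_eq hc hy)) ?_
  refine Primrec.ite (PBit_eq ht (Primrec.const 2)) (PBit_dec
    ((PBit_eq hc (PBit_add hx (Primrec.const 14))).or
    (PBit_eq hc (PBit_add hx (Primrec.const 16))))) ?_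
  refine Primrec.ite (PBit_eq ht (Primrec.const 3))
    (PBit_dec (PBit_eq hc (PBit_add hx (Primrec.const 14)))) ?_
  exact Primrec.ite (PBit_eq ht (Primrec.const 4)) (PBit_dec (PBit_eq hc hx))
    (Primrec.const false)

private theorem PBit_isCut : Primrec fun p : Ev × ℕ => isCut p.1 p.2 := by
  have ht : Primrec fun p : Ev × ℕ => p.1.t := ev_proj.1.comp Primrec.fst
  have hx : Primrec fun p : Ev × ℕ => p.1.x := ev_proj.2.1.comp Primrec.fst
  have hy : Primrec fun p : Ev × ℕ => p.1.y := ev_proj.2.2.comp Primrec.fst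
  have hc : Primrec fun p : Ev × ℕ => p.2 := Primrec.snd
  unfold isCut
  refine PBit_and (PBit_dec (PBit_eq ht (Primrec.const 2))) ?_
  exact Primrec.ite (PBit_eq (Primrec.nat_mod.comp hy (Primrec.const 2)) (Primrec.const 0))
    (PBit_dec (PBit_eq hc (PBit_add hx (Primrec.const 2)))) (PBit_dec (PBit_eq hc hx))

private theorem PBit_isNew : Primrec fun p : Ev × ℕ => isNew p.1 p.2 := by
  have ht : Primrec fun p : Ev × ℕ => p.1.t := ev_proj.1.comp Primrec.fst
  have hx : Primrec fun p : Ev × ℕ => p.1.x := ev_proj.2.1.comp Primrec.fst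
  have hy : Primrec fun p : Ev × ℕ => p.1.y := ev_proj.2.2.comp Primrec.fst
  have hc : Primrec fun p : Ev × ℕ => p.2 := Primrec.snd
  unfold isNew
  refine Primrec.ite (PBit_eq ht (Primrec.const 4)) (PBit_dec (PBit_eq hc hx)) ?_
  refine Primrec.ite (PBit_eq ht (Primrec.const 2)) ?_ (Primrec.const false)
  exact Primrec.ite (PBit_eq (Primrec.nat_mod.comp hy (Primrec.const 2)) (Primrec.const 0))
    (PBit_dec (PBit_eq hc (PBit_add hx (Primrec.const 14))))
    (PBit_dec (PBit_eq hc (PBit_add hx (Primrec.const 16))))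

theorem prim_isSrc : Primrec₂ isSrc ∧ Primrec₂ isDst ∧ Primrec₂ isCut ∧ Primrec₂ isNew :=
  ⟨PBit_isSrc, PBit_isDst, PBit_isCut, PBit_isNew⟩

private theorem PBit_trig : Primrec trig := by
  have ht : Primrec Ev.t := ev_proj.1
  have hx : Primrec Ev.x := ev_proj.2.1
  have hy : Primrec Ev.y := ev_proj.2.2
  unfold trig
  exact Primrec.ite (PBit_eq ht (Primrec.const 2))
    (PBit_sub (PBit_add hx (Primrec.const 12)) (PBit_mul (Primrec.const 3) hy))
    (PBit_add hx (Primrec.const 13))

private theorem PBit_last : Primrec last := by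
  have ht : Primrec Ev.t := ev_proj.1
  have hx : Primrec Ev.x := ev_proj.2.1
  have hy : Primrec Ev.y := ev_proj.2.2
  unfold last
  exact Primrec.ite (PBit_eq ht (Primrec.const 2)) (PBit_add hx (Primrec.const 16))
    (Primrec.ite (PBit_eq ht (Primrec.const 3)) (PBit_add hx (Primrec.const 14)) hy)

private theorem PBit_sym : Primrec fun p : Ev × ℕ => sym p.1 p.2 := by
  have ht : Primrec fun p : Ev × ℕ => p.1.t := ev_proj.1.comp Primrec.fst
  have hx : Primrec fun p : Ev × ℕ => p.1.x := ev_proj.2.1.comp Primrec.fst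
  have hy : Primrec fun p : Ev × ℕ => p.1.y := ev_proj.2.2.comp Primrec.fst
  have hc : Primrec fun p : Ev × ℕ => p.2 := Primrec.snd
  have hl : Primrec fun p : Ev × ℕ => last p.1 := PBit_last.comp Primrec.fst
  have htr : Primrec fun p : Ev × ℕ => trig p.1 := PBit_trig.comp Primrec.fst
  unfold sym
  refine Primrec.ite (PBit_eq ht (Primrec.const 1)) ?_ ?_
  · refine Primrec.ite (PBit_eq hc hx) (Primrec.const 1) ?_
    refine Primrec.ite ((Primrec.nat_lt.comp hx hc).and (Primrec.nat_lt.comp hc hy))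
      (Primrec.const 2) ?_
    exact Primrec.ite (PBit_eq hc hy) (Primrec.const 3) (Primrec.const 0)
  · refine Primrec.ite ((PBit_eq ht (Primrec.const 2)).or (PBit_eq ht (Primrec.const 3))) ?_
      (Primrec.const 0)
    refine Primrec.ite ((Primrec.nat_le.comp hx hc).and (Primrec.nat_le.comp hc hl)) ?_
      (Primrec.const 0)
    exact Primrec.ite (PBit_eq hc htr) (Primrec.const 3) (Primrec.const 2)

theorem prim_sym : Primrec₂ sym := PBit_sym

private theorem PBit_exitc {P : α → Par} {A : α → ℕ} (hP : Primrec P) (hA : Primrec A) :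
    (Primrec fun a => (P a).exitc (A a)) ∧ (Primrec fun a => (P a).entc (A a)) := by
  have hQ : Primrec fun a => (P a).Q := prim_Q.1.comp hP
  refine ⟨?_, ?_⟩
  · exact PBit_sub (PBit_sub (PBit_mul (Primrec.const 2) hQ) (Primrec.const 1))
      (PBit_mul (Primrec.const 2) hA)
  · exact PBit_sub (PBit_sub hQ (Primrec.const 1)) (PBit_mul (Primrec.const 2) hA)

private theorem PBit_ev {P : α → Par} {b : α → Bool} {A : α → ℕ} (hP : Primrec P)
    (hb : Primrec b) (hA : Primrec A) : Primrec fun a => (P a).ev (b a) (A a) :=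
  prim_ev.comp (hP.pair (hb.pair hA))

private theorem PBit_W0 {P : α → Par} {b : α → Bool} {c : α → ℕ} (hP : Primrec P)
    (hb : Primrec b) (hc : Primrec c) : Primrec fun a => (P a).W0 (b a) (c a) := by
  have hQ : Primrec fun a => (P a).Q := prim_Q.1.comp hP
  have hN : Primrec fun a => (P a).N := par_proj.1.comp hP
  unfold Par.W0
  refine PBit_or (prim_range_any hN ?_)
    (PBit_and hb (PBit_dec (PBit_eq hc (PBit_add hQ (Primrec.const 13)))))
  exact PBit_dec (α := α × ℕ) (PBit_eq (hc.comp Primrec.fst)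
    (prim_ex (hP.comp Primrec.fst) (Primrec.const 42) Primrec.snd).1)

private theorem PBit_cond {P : α → Par} {b w : α → Bool} {A c : α → ℕ} (hP : Primrec P)
    (hb : Primrec b) (hA : Primrec A) (hc : Primrec c) (hw : Primrec w) :
    Primrec fun a => ((w a && !decide (c a = (P a).exitc (A a)) &&
      !isSrc ((P a).ev (b a) (A a)) (c a)) || isDst ((P a).ev (b a) (A a)) (c a)) := by
  have he := PBit_ev hP hb hA
  refine PBit_or (PBit_and (PBit_and hw (PBit_not (PBit_dec
    (PBit_eq hc (PBit_exitc hP hA).1)))) (PBit_not ?_)) ?_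
  · exact prim_isSrc.1.comp he hc
  · exact prim_isSrc.2.1.comp he hc

private theorem PBit_W {P : α → Par} {b : α → Bool} {A c : α → ℕ} (hP : Primrec P)
    (hb : Primrec b) (hA : Primrec A) (hc : Primrec c) :
    Primrec fun a => (P a).W (b a) (A a) (c a) := by
  have key : Primrec fun a => Nat.rec (motive := fun _ => Bool) ((P a).W0 (b a) (c a))
      (fun n w => ((w && !decide (c a = (P a).exitc n) &&
        !isSrc ((P a).ev (b a) n) (c a)) || isDst ((P a).ev (b a) n) (c a)) ||
          ((P a).entry (b a) (n + 1) && decide (c a = (P a).entc (n + 1)))) (A a) := by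
    refine Primrec.nat_rec' (h := fun a (p : ℕ × Bool) => ((p.2 && !decide (c a = (P a).exitc p.1)
      && !isSrc ((P a).ev (b a) p.1) (c a)) || isDst ((P a).ev (b a) p.1) (c a)) ||
          ((P a).entry (b a) (p.1 + 1) && decide (c a = (P a).entc (p.1 + 1))))
      hA (PBit_W0 hP hb hc) ?_
    have hP' : Primrec fun p : α × ℕ × Bool => P p.1 := hP.comp Primrec.fst
    have hb' : Primrec fun p : α × ℕ × Bool => b p.1 := hb.comp Primrec.fst
    have hc' : Primrec fun p : α × ℕ × Bool => c p.1 := hc.comp Primrec.fst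
    have hn : Primrec fun p : α × ℕ × Bool => p.2.1 := Primrec.fst.comp Primrec.snd
    have hw : Primrec fun p : α × ℕ × Bool => p.2.2 := Primrec.snd.comp Primrec.snd
    have hn1 : Primrec fun p : α × ℕ × Bool => p.2.1 + 1 := PBit_add hn (Primrec.const 1)
    refine PBit_or (α := α × ℕ × Bool) (PBit_cond hP' hb' hn hc' hw) (PBit_and ?_
      (PBit_dec (PBit_eq hc' (PBit_exitc hP' hn1).2)))
    exact prim_entry.1.comp (hP'.pair (hb'.pair hn1))
  refine key.of_eq fun a => ?_
  generalize A a = n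
  induction n with
  | zero => rfl
  | succ n ih => rw [Par.W, ← ih]

/-- recursion on `A` (`Primrec.nat_rec'` or `Primrec.nat_rec`), with parameters `P, b, c` -/
theorem prim_W : Primrec fun p : (Par × Bool) × ℕ × ℕ => p.1.1.W p.1.2 p.2.1 p.2.2 :=
  PBit_W (Primrec.fst.comp Primrec.fst) (Primrec.snd.comp Primrec.fst)
    (Primrec.fst.comp Primrec.snd) (Primrec.snd.comp Primrec.snd)

private theorem PBit_W' {P : α → Par} {b : α → Bool} {A c : α → ℕ} (hP : Primrec P)
    (hb : Primrec b) (hA : Primrec A) (hc : Primrec c) :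
    Primrec fun a => (P a).W' (b a) (A a) (c a) :=
  PBit_cond hP hb hA hc (PBit_W hP hb hA hc)

theorem prim_W' : Primrec fun p : (Par × Bool) × ℕ × ℕ => p.1.1.W' p.1.2 p.2.1 p.2.2 :=
  PBit_W' (Primrec.fst.comp Primrec.fst) (Primrec.snd.comp Primrec.fst)
    (Primrec.fst.comp Primrec.snd) (Primrec.snd.comp Primrec.snd)

private theorem PBit_cl {P : α → Par} {b : α → Bool} {A c : α → ℕ} (hP : Primrec P)
    (hb : Primrec b) (hA : Primrec A) (hc : Primrec c) :
    (Primrec fun a => (P a).cl (b a) (A a) (c a)) ∧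
    (Primrec fun a => (P a).cl4 (b a) (A a) (c a)) ∧
    (Primrec fun a => (P a).cl3 (b a) (A a) (c a)) := by
  have he := PBit_ev hP hb hA
  have h4 : Primrec fun a => (P a).cl4 (b a) (A a) (c a) :=
    PBit_and (PBit_W' hP hb hA hc) (PBit_not (prim_isSrc.2.2.2.comp he hc))
  refine ⟨PBit_and (PBit_W hP hb hA hc) (PBit_not (prim_isSrc.2.2.1.comp he hc)), h4, ?_⟩
  exact PBit_or h4 (PBit_and (PBit_dec (PBit_eq (ev_proj.1.comp he) (Primrec.const 1)))
    (PBit_dec (PBit_eq hc (ev_proj.2.1.comp he))))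

theorem prim_cl : (Primrec fun p : (Par × Bool) × ℕ × ℕ => p.1.1.cl p.1.2 p.2.1 p.2.2) ∧
    (Primrec fun p : (Par × Bool) × ℕ × ℕ => p.1.1.cl4 p.1.2 p.2.1 p.2.2) ∧
    (Primrec fun p : (Par × Bool) × ℕ × ℕ => p.1.1.cl3 p.1.2 p.2.1 p.2.2) :=
  PBit_cl (Primrec.fst.comp Primrec.fst) (Primrec.snd.comp Primrec.fst)
    (Primrec.fst.comp Primrec.snd) (Primrec.snd.comp Primrec.snd)

private theorem PBit_bx {P : α → Par} {b : α → Bool} {i x : α → ℕ} (hP : Primrec P)
    (hb : Primrec b) (hi : Primrec i) (hx : Primrec x) :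
    Primrec fun a => (P a).bx (b a) (i a) (x a) := by
  have hi6 : Primrec fun a => i a / 6 := Primrec.nat_div.comp hi (Primrec.const 6)
  have hm6 : Primrec fun a => i a % 6 := Primrec.nat_mod.comp hi (Primrec.const 6)
  have hx3 : Primrec fun a => x a / 3 := Primrec.nat_div.comp hx (Primrec.const 3)
  have hm3 : Primrec fun a => x a % 3 := Primrec.nat_mod.comp hx (Primrec.const 3)
  have hcl := PBit_cl hP hb hi6 hx3
  have hW' := PBit_W' hP hb hi6 hx3
  have he := PBit_ev hP hb hi6
  have hsym : Primrec fun a => sym ((P a).ev (b a) (i a / 6)) (x a / 3) := prim_sym.comp he hx3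
  have hK : Primrec fun a => (P a).K := prim_Q.2.1.comp hP
  have hz : Primrec fun a => (P a).zrow (b a) (i a / 6) :=
    prim_entry.2.comp (hP.pair (hb.pair hi6))
  have hx0 : PrimrecPred fun a => x a % 3 = 0 := PBit_eq hm3 (Primrec.const 0)
  have htr : Primrec fun _ : α => true := Primrec.const true
  have hfa : Primrec fun _ : α => false := Primrec.const false
  unfold Par.bx
  refine Primrec.ite (PBit_eq hm6 (Primrec.const 0)) ?_ ?_
  · refine Primrec.ite (Primrec.eq.comp hz htr) hfa ?_
    refine Primrec.ite (Primrec.eq.comp (PBit_and hb (PBit_dec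
      ((PBit_eq hi (Primrec.const 0)).and ((Primrec.nat_le.comp hK hx).and
        (Primrec.nat_le.comp hx (PBit_add hK (Primrec.const 41))))))) htr) hfa ?_
    exact Primrec.ite hx0 (PBit_not hcl.1) htr
  refine Primrec.ite (PBit_eq hm6 (Primrec.const 1)) (PBit_not (PBit_dec hx0)) ?_
  refine Primrec.ite (PBit_eq hm6 (Primrec.const 2)) ?_ ?_
  · refine Primrec.ite (PBit_eq hsym (Primrec.const 0)) (Primrec.ite hx0 (PBit_not hcl.1) htr) ?_
    refine Primrec.ite (PBit_eq hsym (Primrec.const 1)) (Primrec.ite hx0 (PBit_not hcl.1)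
      (PBit_dec (PBit_eq hm3 (Primrec.const 1)))) ?_
    exact Primrec.ite (PBit_eq hsym (Primrec.const 2)) hfa
      (PBit_dec (PBit_eq hm3 (Primrec.const 2)))
  refine Primrec.ite (PBit_eq hm6 (Primrec.const 3)) (Primrec.ite hx0 (PBit_not hcl.2.2) htr) ?_
  refine Primrec.ite (PBit_eq hm6 (Primrec.const 4)) ?_ (Primrec.ite hx0 (PBit_not hcl.2.1) htr)
  refine Primrec.ite hx0 (PBit_not hcl.2.1) ?_
  refine Primrec.ite (PBit_eq hm3 (Primrec.const 1)) ?_ htr
  exact PBit_or hW' (PBit_dec (PBit_eq (PBit_add (PBit_add hx hi) (Primrec.const 1)) hK))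

theorem prim_bx : Primrec fun p : (Par × Bool) × ℕ × ℕ => p.1.1.bx p.1.2 p.2.1 p.2.2 :=
  PBit_bx (Primrec.fst.comp Primrec.fst) (Primrec.snd.comp Primrec.fst)
    (Primrec.fst.comp Primrec.snd) (Primrec.snd.comp Primrec.snd)

private theorem PBit_bit {P : α → Par} {b : α → Bool} {i j : α → ℕ} (hP : Primrec P)
    (hb : Primrec b) (hi : Primrec i) (hj : Primrec j) :
    Primrec fun a => (P a).bit (b a) (i a) (j a) :=
  PBit_bx hP hb hi (PBit_sub (PBit_sub (PBit_add hj (prim_Q.2.1.comp hP)) hi) (Primrec.const 1))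

private theorem PBit_table {P : α → Par} {b : α → Bool} (hP : Primrec P) (hb : Primrec b) :
    Primrec fun a => (P a).table (b a) := by
  have hK : Primrec fun a => (P a).K := prim_Q.2.1.comp hP
  unfold Par.table
  refine prim_range_map hK ?_
  refine prim_range_map (α := α × ℕ) (hK.comp Primrec.fst) ?_
  exact PBit_bit (α := (α × ℕ) × ℕ) (hP.comp (Primrec.fst.comp Primrec.fst))
    (hb.comp (Primrec.fst.comp Primrec.fst)) (Primrec.snd.comp Primrec.fst) Primrec.snd

theorem prim_table : Primrec₂ Par.table :=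
  PBit_table (α := Par × Bool) Primrec.fst Primrec.snd

theorem prim_inp : Primrec Par.inp :=
  (PBit_table Primrec.id (Primrec.const false)).pair
    ((PBit_table Primrec.id (Primrec.const true)).pair (Primrec.const true))

end Pool.Agent.MP_fadef1_lc
end

section

namespace Pool.Agent.MP_fadef1_lc

/-- `N, κ, Kx, Ky, M0, M` of the system (the number of regions `R` is constant). -/
theorem prim_sysnum (T : TM) : (Primrec fun l => (T.sys l).N) ∧ (Primrec fun l => (T.sys l).κ) ∧
    (Primrec fun l => (T.sys l).Kx) ∧ (Primrec fun l => (T.sys l).Ky) ∧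
    (Primrec fun l => (T.sys l).M0) ∧ (Primrec fun l => (T.sys l).M) := by
  have hN : Primrec fun l => (T.sys l).N := (prim_NN T).1
  have hκ : Primrec fun l => (T.sys l).κ :=
    Primrec.nat_mul.comp (Primrec.nat_mul.comp (Primrec.const 4) hN) (Primrec.const T.B)
  have hKy : Primrec fun l => (T.sys l).Ky := Primrec.nat_mul.comp hκ (Primrec.const T.B)
  have hKx : Primrec fun l => (T.sys l).Kx := Primrec.nat_mul.comp hKy (Primrec.const T.g)
  have hM0 : Primrec fun l => (T.sys l).M0 := Primrec.nat_mul.comp hκ (Primrec.const (T.mi + 1))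
  exact ⟨hN, hκ, hKx, hKy, hM0, Primrec.nat_add.comp hN hM0⟩

theorem prim_disp (T : TM) {α : Type*} [Primcodable α] {l : α → List ℕ} {o : α → ℕ}
    (hl : Primrec l) (ho : Primrec o) : Primrec fun a => (T.sys (l a)).disp (o a) := by
  obtain ⟨-, -, hKx, hKy, hM0, -⟩ := prim_sysnum T
  have hhi : Primrec fun a => o a + (T.sys (l a)).M0 := Primrec.nat_add.comp ho (hM0.comp hl)
  exact Primrec.list_append.comp
    (prim_crep (hKx.comp hl) (prim_pass (Primrec.const 0) ho hhi))
    (prim_crep (hKy.comp hl) (prim_pass (Primrec.const 2) ho hhi))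

private theorem PSys_layer {α : Type*} [Primcodable α] {t a b c : α → ℕ} (ht : Primrec t)
    (ha : Primrec a) (hb : Primrec b) (hc : Primrec c) :
    Primrec fun x => (⟨t x, a x, b x, c x⟩ : Layer) :=
  layer_mk.comp (Primrec.pair ht (Primrec.pair ha (Primrec.pair hb hc)))

theorem prim_caseOne (T : TM) {α : Type*} [Primcodable α] {l : α → List ℕ}
    {o d a bp bm m : α → ℕ} (hl : Primrec l) (ho : Primrec o) (hd : Primrec d) (ha : Primrec a)
    (hbp : Primrec bp) (hbm : Primrec bm) (hm : Primrec m) :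
    Primrec fun x => (T.sys (l x)).caseOne (o x) (d x) (a x) (bp x) (bm x) (m x) := by
  obtain ⟨-, hκ, -, -, -, -⟩ := prim_sysnum T
  have hκl : Primrec fun x => (T.sys (l x)).κ := hκ.comp hl
  have hlo : Primrec fun x => o x + (T.sys (l x)).κ * m x :=
    Primrec.nat_add.comp ho (Primrec.nat_mul.comp hκl hm)
  have hhi : Primrec fun x => o x + (T.sys (l x)).κ * m x + (T.sys (l x)).κ :=
    Primrec.nat_add.comp hlo hκl
  have h1 : Primrec fun x => Layer.up (o x + (T.sys (l x)).κ * m x)
      (o x + (T.sys (l x)).κ * m x + (T.sys (l x)).κ) (bp x) :=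
    PSys_layer (Primrec.const 1) hlo hhi hbp
  have h2 : Primrec fun x => Layer.dn (o x + (T.sys (l x)).κ * m x)
      (o x + (T.sys (l x)).κ * m x + (T.sys (l x)).κ) (bm x) :=
    PSys_layer (Primrec.const 2) hlo hhi hbm
  exact Primrec.list_append.comp (prim_crep ha (prim_pass hd hlo hhi))
    (Primrec.list_cons.comp h1 (Primrec.list_cons.comp h2 (Primrec.const [])))

theorem prim_casesX {T : TM} (hT : T.Ok) {α : Type*} [Primcodable α] {l : α → List ℕ} {o : α → ℕ}
    (hl : Primrec l) (ho : Primrec o) : Primrec fun a => (T.sys (l a)).casesX (o a) := by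
  have hl' : Primrec fun p : α × ℕ => l p.1 := hl.comp Primrec.fst
  have hg : Primrec₂ fun (a : α) (m : ℕ) => (T.sys (l a)).caseOne (o a) 0
      ((T.sys (l a)).aX m) ((T.sys (l a)).bXp m) ((T.sys (l a)).bXm m) m :=
    prim_caseOne T hl' (ho.comp Primrec.fst) (Primrec.const 0)
      ((prim_aX hT).comp hl' Primrec.snd) ((prim_bXp hT).comp hl' Primrec.snd)
      ((prim_bXm hT).comp hl' Primrec.snd) Primrec.snd
  exact prim_range_flatMap (Primrec.const (T.mi + 1)) hg

theorem prim_casesY {T : TM} (hT : T.Ok) {α : Type*} [Primcodable α] {l : α → List ℕ} {o : α → ℕ}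
    (hl : Primrec l) (ho : Primrec o) : Primrec fun a => (T.sys (l a)).casesY (o a) := by
  have hl' : Primrec fun p : α × ℕ => l p.1 := hl.comp Primrec.fst
  have hg : Primrec₂ fun (a : α) (m : ℕ) => (T.sys (l a)).caseOne (o a) 2
      ((T.sys (l a)).aY m) ((T.sys (l a)).bYp m) ((T.sys (l a)).bYm m) m :=
    prim_caseOne T hl' (ho.comp Primrec.fst) (Primrec.const 2)
      ((prim_aY hT).comp hl' Primrec.snd) ((prim_bYp hT).comp hl' Primrec.snd)
      ((prim_bYm hT).comp hl' Primrec.snd) Primrec.snd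
  exact prim_range_flatMap (Primrec.const (T.mi + 1)) hg

private theorem PSys_rsX {T : TM} (hT : T.Ok) {α : Type*} [Primcodable α] {l : α → List ℕ}
    {o : α → ℕ} (hl : Primrec l) (ho : Primrec o) : Primrec fun a => (T.sys (l a)).rsX (o a) :=
  Primrec.list_append.comp (Primrec.list_append.comp (prim_disp T hl ho) (prim_casesX hT hl ho))
    (prim_cinv.comp (prim_disp T hl ho))

private theorem PSys_rsY {T : TM} (hT : T.Ok) {α : Type*} [Primcodable α] {l : α → List ℕ}
    {o : α → ℕ} (hl : Primrec l) (ho : Primrec o) : Primrec fun a => (T.sys (l a)).rsY (o a) :=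
  Primrec.list_append.comp (Primrec.list_append.comp (prim_disp T hl ho) (prim_casesY hT hl ho))
    (prim_cinv.comp (prim_disp T hl ho))

theorem prim_sys_cX {T : TM} (hT : T.Ok) : Primrec fun l => (T.sys l).cX := by
  obtain ⟨hN, -, -, -, -, hM⟩ := prim_sysnum T
  have h1 : Primrec fun l => [Layer.up (T.sys l).N (T.sys l).M (T.sys l).N] :=
    Primrec.list_cons.comp (PSys_layer (Primrec.const 1) hN hM hN) (Primrec.const [])
  have h2 : Primrec fun l => [Layer.dn (T.sys l).N (T.sys l).M (T.sys l).N] :=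
    Primrec.list_cons.comp (PSys_layer (Primrec.const 2) hN hM hN) (Primrec.const [])
  exact Primrec.list_append.comp (Primrec.list_append.comp (Primrec.list_append.comp h1
    (prim_cinv.comp (PSys_rsX hT Primrec.id hN))) h2) (PSys_rsX hT Primrec.id (Primrec.const 0))

theorem prim_sys_cY {T : TM} (hT : T.Ok) : Primrec fun l => (T.sys l).cY := by
  obtain ⟨hN, -, -, -, -, hM⟩ := prim_sysnum T
  have h1 : Primrec fun l => [Layer.up (T.sys l).N (T.sys l).M (T.sys l).N] :=
    Primrec.list_cons.comp (PSys_layer (Primrec.const 1) hN hM hN) (Primrec.const [])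
  have h2 : Primrec fun l => [Layer.dn (T.sys l).N (T.sys l).M (T.sys l).N] :=
    Primrec.list_cons.comp (PSys_layer (Primrec.const 2) hN hM hN) (Primrec.const [])
  exact Primrec.list_append.comp (Primrec.list_append.comp (Primrec.list_append.comp h1
    (prim_cinv.comp (PSys_rsY hT Primrec.id hN))) h2) (PSys_rsY hT Primrec.id (Primrec.const 0))

theorem prim_sys_cE {T : TM} (hT : T.Ok) : Primrec fun l => (T.sys l).cE := by
  obtain ⟨-, hκ, -, -, -, -⟩ := prim_sysnum T
  have hk : Primrec fun p : List ℕ × ℕ => (T.sys p.1).κ := hκ.comp Primrec.fst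
  have hkm : Primrec fun p : List ℕ × ℕ => (T.sys p.1).κ * p.2 :=
    Primrec.nat_mul.comp hk Primrec.snd
  have hup : Primrec fun p : List ℕ × ℕ =>
      [Layer.up ((T.sys p.1).κ * p.2) ((T.sys p.1).κ * p.2 + (T.sys p.1).κ) (T.sys p.1).κ] :=
    Primrec.list_cons.comp (PSys_layer (Primrec.const 1) hkm (Primrec.nat_add.comp hkm hk) hk)
      (Primrec.const [])
  have hh : Primrec fun p : List ℕ × ℕ => (T.sys p.1).halt p.2 := (prim_hlt hT).comp Primrec.snd
  have hg : Primrec₂ fun (l : List ℕ) (m : ℕ) => if (T.sys l).halt m then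
      [Layer.up ((T.sys l).κ * m) ((T.sys l).κ * m + (T.sys l).κ) (T.sys l).κ] else [] :=
    Primrec.ite (Primrec.eq.comp hh (Primrec.const true)) hup (Primrec.const [])
  have hd : Primrec fun l : List ℕ => (T.sys l).disp 0 :=
    prim_disp T Primrec.id (Primrec.const 0)
  exact Primrec.list_append.comp (Primrec.list_append.comp hd
    (prim_range_flatMap (Primrec.const (T.mi + 1)) hg)) (prim_cinv.comp hd)

theorem prim_sys_par {T : TM} (hT : T.Ok) : Primrec fun l => (T.sys l).par := by
  obtain ⟨hN, -, -, -, -, hM⟩ := prim_sysnum T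
  have hX := prim_sys_cX hT
  have hY := prim_sys_cY hT
  have hE := prim_sys_cE hT
  have hlen : Primrec fun l => (T.sys l).len :=
    Primrec.nat_add.comp (Primrec.nat_add.comp (Primrec.list_length.comp hE)
      (Primrec.list_length.comp hX)) (Primrec.list_length.comp hY)
  have hlen2 : Primrec fun l => (T.sys l).len + 2 := Primrec.nat_add.comp hlen (Primrec.const 2)
  have hHs : Primrec fun l => (T.sys l).Hs :=
    Primrec.nat_add.comp (Primrec.nat_add.comp hN (Primrec.const 20))
      (Primrec.nat_mul.comp hlen2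
        (Primrec.nat_add.comp (Primrec.nat_mul.comp (Primrec.const 3) hM) (Primrec.const 3)))
  have hQQ : Primrec fun l => (2 * (T.sys l).N + 20) + 86 * (T.sys l).Hs
      + ((T.sys l).len + 2) * (20 * (T.sys l).M + 30) + 100 :=
    Primrec.nat_add.comp (Primrec.nat_add.comp (Primrec.nat_add.comp
      (Primrec.nat_add.comp (Primrec.nat_mul.comp (Primrec.const 2) hN) (Primrec.const 20))
      (Primrec.nat_mul.comp (Primrec.const 86) hHs))
      (Primrec.nat_mul.comp hlen2
        (Primrec.nat_add.comp (Primrec.nat_mul.comp (Primrec.const 20) hM) (Primrec.const 30))))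
      (Primrec.const 100)
  exact par_mk.comp (Primrec.pair (Primrec.pair hN (Primrec.pair hM (Primrec.pair hHs hQQ)))
    (Primrec.pair hE (Primrec.pair hX hY)))

end Pool.Agent.MP_fadef1_lc
end
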