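import Pool.Agent.Lib.MP_fadef1_lc.Mg.G001

section

/-! Several moves. -/

namespace Pool.Agent.MP_fadef1_lc

variable {D : Data} {Q A B n : ℕ} {R : ℕ → Prop} {keep : ℕ → Bool} {S T : ℕ → ℕ} {W : ℕ → Bool}

private theorem MMb_succ : mmEvs keep S T (n + 1) =
    (if keep n then move (S n) (T n) else [Ev.X (S n)]) ++ mmEvs keep S T n := by
  simp [mmEvs, List.range_succ]

theorem mm_length : (mmEvs keep S T n).length ≤ 2 * n := by
  induction n with
  | zero => simp [mmEvs]
  | succ n ih =>
    rw [MMb_succ, List.length_append]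
    split_ifs <;> simp [move] <;> omega

theorem mm_ex (h : MM Q A B R keep S T n)
    (hW : ∀ c, W c = true ↔ (R c ∨ ∃ j < n, c = S j)) :
    ExOk Q B A (mmEvs keep S T n) W ∧
      ∀ c, updL (mmEvs keep S T n) W c = true ↔ (R c ∨ ∃ j < n, keep j = true ∧ c = T j) := by
  induction n generalizing A R W with
  | zero =>
    refine ⟨by simp [mmEvs, ExOk], fun c => ?_⟩
    simp [mmEvs, updL, hW]
  | succ n ih =>
    rw [MMb_succ]
    obtain ⟨hS, hT, hst, hR, hlo, hB⟩ := h
    by_cases hk : keep n = true
    · simp only [hk, if_true]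
      obtain ⟨h1, h2⟩ := move_ex (Q := Q) (A := A) (B := B) (W := W) (c := S n) (c' := T n)
        ((hW _).2 (Or.inr ⟨n, by omega, rfl⟩)) (hst n (by omega) hk)
        (fun d hd hd' => by
          rcases (hW d).1 hd with h | ⟨j, hj, rfl⟩
          · exact (hR d h n (by omega)).2 hk
          · have hjn : j ≠ n := fun e => hd' (by rw [e])
            left
            exact hS j n (by omega) (by omega))
        (hlo n (by omega)) ((hB n (by omega)).2 hk)
      have hMM : MM Q (A + 2) B (fun c => R c ∨ c = T n) keep S T n := by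
        refine ⟨fun i j hij hj => hS i j hij (by omega),
          fun i j hij hj => hT i j hij (by omega), fun j hj => hst j (by omega),
          fun c hc j hj => ?_, fun j hj => ?_, fun j hj => hB j (by omega)⟩
        · rcases hc with hc | rfl
          · exact hR c hc j (by omega)
          · have e1 := hS j n hj (by omega)
            have e2 := hst n (by omega) hk
            refine ⟨by omega, fun hkj => Or.inr (hT j n hj (by omega) hkj hk)⟩
        · have := hlo j (by omega)
          omega
      obtain ⟨h3, h4⟩ := ih (W := updL (move (S n) (T n)) W) hMM (fun c => by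
        rw [h2]
        constructor
        · rintro (⟨h, h'⟩ | h)
          · rcases (hW c).1 h with h | ⟨j, hj, rfl⟩
            · exact Or.inl (Or.inl h)
            · exact Or.inr ⟨j, by
                have hjn : j ≠ n := fun e => h' (by rw [e])
                omega, rfl⟩
          · exact Or.inl (Or.inr h)
        · rintro ((h | h) | ⟨j, hj, rfl⟩)
          · exact Or.inl ⟨(hW c).2 (Or.inl h), (hR c h n (by omega)).1⟩
          · exact Or.inr h
          · refine Or.inl ⟨(hW _).2 (Or.inr ⟨j, by omega, rfl⟩), ?_⟩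
            have := hS j n hj (by omega)
            omega)
      refine ⟨ExOk_append.2 ⟨h1, ?_⟩, fun c => ?_⟩
      · simpa [move] using h3
      · rw [updL_append, h4]
        constructor
        · rintro ((h | h) | ⟨j, hj, h, h'⟩)
          · exact Or.inl h
          · exact Or.inr ⟨n, by omega, hk, h⟩
          · exact Or.inr ⟨j, by omega, h, h'⟩
        · rintro (h | ⟨j, hj, h, h'⟩)
          · exact Or.inl (Or.inl h)
          · by_cases hjn : j = n
            · subst hjn
              exact Or.inl (Or.inr h')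
            · exact Or.inr ⟨j, by omega, h, h'⟩
    · have hk' : keep n = false := by simpa using hk
      simp only [hk', Bool.false_eq_true, if_false]
      have hWn : W (S n) = true := (hW _).2 (Or.inr ⟨n, by omega, rfl⟩)
      have h1 : ExOk Q B A [Ev.X (S n)] W := by
        refine ⟨⟨by simp [Ev.X], by simp [Ev.X], by simp [Ev.X], by simp [Ev.X], by simp [Ev.X],
          fun _ => by simpa [Ev.X] using hWn⟩, by simp [Ev.X], ?_, ?_, trivial⟩
        · simpa [Ev.X] using hlo n (by omega)
        · simpa [Ev.X, lst] using (hB n (by omega)).1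
      have h2 : ∀ d, updL [Ev.X (S n)] W d = true ↔ (W d = true ∧ d ≠ S n) := by
        intro d
        have e1 : updL [Ev.X (S n)] W d = upd (Ev.X (S n)) W d := rfl
        rw [e1]
        by_cases hd : d = S n
        · subst hd; simp [upd, isSrc, isDst, Ev.X]
        · simp [upd, isSrc, isDst, Ev.X, hd]
      have hMM : MM Q (A + 1) B R keep S T n := by
        refine ⟨fun i j hij hj => hS i j hij (by omega),
          fun i j hij hj => hT i j hij (by omega), fun j hj => hst j (by omega),
          fun c hc j hj => hR c hc j (by omega), fun j hj => ?_, fun j hj => hB j (by omega)⟩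
        have := hlo j (by omega)
        omega
      obtain ⟨h3, h4⟩ := ih (W := updL [Ev.X (S n)] W) hMM (fun c => by
        rw [h2]
        constructor
        · rintro ⟨h, h'⟩
          rcases (hW c).1 h with h | ⟨j, hj, rfl⟩
          · exact Or.inl h
          · exact Or.inr ⟨j, by
              have hjn : j ≠ n := fun e => h' (by rw [e])
              omega, rfl⟩
        · rintro (h | ⟨j, hj, rfl⟩)
          · exact ⟨(hW c).2 (Or.inl h), (hR c h n (by omega)).1⟩
          · refine ⟨(hW _).2 (Or.inr ⟨j, by omega, rfl⟩), ?_⟩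
            have := hS j n hj (by omega)
            omega)
      refine ⟨ExOk_append.2 ⟨h1, ?_⟩, fun c => ?_⟩
      · simpa using h3
      · rw [updL_append, h4]
        constructor
        · rintro (h | ⟨j, hj, h, h'⟩)
          · exact Or.inl h
          · exact Or.inr ⟨j, by omega, h, h'⟩
        · rintro (h | ⟨j, hj, h, h'⟩)
          · exact Or.inl h
          · by_cases hjn : j = n
            · subst hjn
              exact absurd h hk
            · exact Or.inr ⟨j, by omega, h, h'⟩

end Pool.Agent.MP_fadef1_lc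
end

section

/-! One layer of a circuit. The wires at time `t` are `pos M P0 t j`, `j < M`, and `R`. -/

namespace Pool.Agent.MP_fadef1_lc

/-- hypotheses for one layer -/
structure LH (Q B A M P0 t : ℕ) (R : ℕ → Prop) (W : ℕ → Bool) : Prop where
  hM : 1 ≤ M
  hlo : Q + 9 ≤ P0 + 2 * A
  hB : pos M P0 (t + 1) (M - 1) ≤ B
  hR : ∀ c, R c → c + 2 ≤ P0 ∨ pos M P0 (t + 1) (M - 1) + 2 ≤ c
  hW : ∀ c, W c = true ↔ (R c ∨ ∃ j < M, c = pos M P0 t j)

variable {D : Data} {Q B A M P0 t : ℕ} {R : ℕ → Prop} {W : ℕ → Bool} {l : Layer}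

private theorem lu_flat (g : ℕ → List Ev) (hg : ∀ j, (g j).length ≤ 2) (s : List ℕ) :
    (s.flatMap g).length ≤ 2 * s.length := by
  induction s with
  | nil => simp
  | cons a s ih =>
    rw [List.flatMap_cons, List.length_append, List.length_cons]
    have := hg a
    omega

private theorem lu_move (c c' : ℕ) : (move c c').length = 2 := rfl

private theorem lu_pos0 (k : ℕ) : pos M P0 t k = P0 + t * (20 * M + 30) + k * 20 := rfl

private theorem lu_pos1 (k : ℕ) :
    pos M P0 (t + 1) k = P0 + t * (20 * M + 30) + (20 * M + 30) + k * 20 := by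
  unfold pos
  ring

theorem lay_length (hl : layOk M l) : (layerEvs M P0 t l).length ≤ 3 * M + 3 := by
  rcases hl with ⟨h0, _, _⟩ | ⟨h12, hb⟩
  · unfold layerEvs
    rw [if_pos h0]
    have h1 := lu_flat (fun j =>
        move (if j = l.b then pos M P0 t (l.b + 1) + 12
          else if j = l.b + 1 then pos M P0 t (l.b + 1) + 14 else pos M P0 t j)
          (pos M P0 (t + 1) j)) (fun j => le_of_eq (lu_move _ _)) (List.range M).reverse
    rw [List.length_reverse, List.length_range] at h1
    rw [List.length_append, List.length_append, lu_move]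
    simp only [List.length_cons, List.length_nil]
    omega
  · unfold layerEvs
    rw [if_neg (by omega)]
    rcases h12 with h12 | h12
    · rw [if_pos h12]
      have h1 := lu_flat (fun j =>
        if l.a ≤ j ∧ j < l.b then
        (if j + l.c < l.b then move (pos M P0 t j) (pos M P0 (t + 1) (j + l.c))
          else [Ev.X (pos M P0 t j)])
        else move (pos M P0 t j) (pos M P0 (t + 1) j))
        (fun j => by split_ifs <;> simp [move]) (List.range M).reverse
      rw [List.length_reverse, List.length_range] at h1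
      rw [List.length_append, List.length_map, List.length_range]
      omega
    · rw [if_neg (by omega)]
      have h1 := lu_flat (fun j =>
        if l.a ≤ j ∧ j < l.b then
        (if l.a + l.c ≤ j then move (pos M P0 t j) (pos M P0 (t + 1) (j - l.c))
          else [Ev.X (pos M P0 t j)])
        else move (pos M P0 t j) (pos M P0 (t + 1) j))
        (fun j => by split_ifs <;> simp [move]) (List.range M).reverse
      rw [List.length_reverse, List.length_range] at h1
      rw [List.length_append, List.length_map, List.length_range]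
      omega

private def luKeep (l : Layer) (j : ℕ) : Bool := !decide (l.a ≤ j ∧ j < l.b ∧ ¬ (j + l.c < l.b))

private def luT (M P0 t : ℕ) (l : Layer) (j : ℕ) : ℕ :=
  if l.a ≤ j ∧ j < l.b then pos M P0 (t + 1) (j + l.c) else pos M P0 (t + 1) j

private theorem lu_keep {j : ℕ} : luKeep l j = true ↔ ¬ (l.a ≤ j ∧ j < l.b ∧ ¬ (j + l.c < l.b)) := by
  unfold luKeep
  rw [Bool.not_eq_true', decide_eq_false_iff_not]

/-- target of a kept wire -/
private theorem lu_T {j : ℕ} (hk : luKeep l j = true) :
    (luT M P0 t l j = pos M P0 (t + 1) (j + l.c) ∧ l.a ≤ j ∧ j + l.c < l.b) ∨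
      (luT M P0 t l j = pos M P0 (t + 1) j ∧ (j < l.a ∨ l.b ≤ j)) := by
  rw [lu_keep] at hk
  unfold luT
  split_ifs with h
  · exact Or.inl ⟨rfl, h.1, by tauto⟩
  · exact Or.inr ⟨rfl, by omega⟩

private theorem lu_evs (ht : l.t = 1) : layerEvs M P0 t l =
    mmEvs (luKeep l) (fun j => pos M P0 t j) (luT M P0 t l) M ++
      (List.range (min l.c (l.b - l.a))).map fun x => Ev.I (pos M P0 (t + 1) (l.a + x)) := by
  unfold layerEvs mmEvs
  rw [if_neg (by omega), if_pos ht]
  congr 2
  funext j
  unfold luKeep luT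
  by_cases h1 : l.a ≤ j ∧ j < l.b
  · by_cases h2 : j + l.c < l.b
    · simp [h1, h2]
    · simp [h1, h2]
  · have h3 : ¬ (l.a ≤ j ∧ j < l.b ∧ ¬ (j + l.c < l.b)) := fun h => h1 ⟨h.1, h.2.1⟩
    simp only [h3, h1, decide_false, Bool.not_false, if_true, if_false]

theorem up_ex (h : LH Q B A M P0 t R W) (ht : l.t = 1) (hl : layOk M l) :
    ExOk Q B A (layerEvs M P0 t l) W ∧
      ∀ c, updL (layerEvs M P0 t l) W c = true ↔ (R c ∨ ∃ j < M, c = pos M P0 (t + 1) j) := by
  have hb : l.b ≤ M := by
    rcases hl with h0 | h0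
    · omega
    · exact h0.2
  have hM := h.hM
  have hlo := h.hlo
  have hB := h.hB
  rw [lu_pos1] at hB
  have hR : ∀ c, R c → c + 2 ≤ P0 ∨
      P0 + t * (20 * M + 30) + (20 * M + 30) + (M - 1) * 20 + 2 ≤ c := by
    intro c hc
    have := h.hR c hc
    rwa [lu_pos1] at this
  have hmm : MM Q A B R (luKeep l) (fun j => pos M P0 t j) (luT M P0 t l) M := by
    refine ⟨?_, ?_, ?_, ?_, ?_, ?_⟩
    · intro i j hij hj
      simp only [lu_pos0]
      omega
    · intro i j hij hj hki hkj
      have h1 := lu_T (M := M) (P0 := P0) (t := t) hki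
      have h2 := lu_T (M := M) (P0 := P0) (t := t) hkj
      simp only [lu_pos1] at h1 h2
      omega
    · intro j hj hk
      have h1 := lu_T (M := M) (P0 := P0) (t := t) hk
      simp only [lu_pos1] at h1
      simp only [lu_pos0]
      omega
    · intro c hc j hj
      have h3 := hR c hc
      refine ⟨?_, ?_⟩
      · simp only [lu_pos0]
        omega
      · intro hk
        have h1 := lu_T (M := M) (P0 := P0) (t := t) hk
        simp only [lu_pos1] at h1
        simp only [lu_pos0]
        omega
    · intro j hj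
      simp only [lu_pos0]
      omega
    · intro j hj
      refine ⟨?_, ?_⟩
      · simp only [lu_pos0]
        omega
      · intro hk
        have h1 := lu_T (M := M) (P0 := P0) (t := t) hk
        simp only [lu_pos1] at h1
        omega
  obtain ⟨hx1, hx2⟩ := mm_ex hmm h.hW
  have hins := ins_ex (Q := Q) (B := B)
    (A := A + (mmEvs (luKeep l) (fun j => pos M P0 t j) (luT M P0 t l) M).length)
    (W := updL (mmEvs (luKeep l) (fun j => pos M P0 t j) (luT M P0 t l) M) W)
    (m := min l.c (l.b - l.a)) (f := fun x => pos M P0 (t + 1) (l.a + x))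
    (by
      intro x hx y hy hxy
      simp only [lu_pos1]
      omega)
    (by
      intro c hc x hx
      rw [hx2] at hc
      simp only [lu_pos1]
      rcases hc with hc | ⟨j, hj, hk, hc⟩
      · have h3 := hR c hc
        omega
      · have h1 := lu_T (M := M) (P0 := P0) (t := t) hk
        simp only [lu_pos1] at h1
        omega)
    (by
      intro x hx
      simp only [lu_pos1]
      omega)
    (by
      intro x hx
      simp only [lu_pos1]
      omega)
  rw [lu_evs ht]
  refine ⟨ExOk_append.2 ⟨hx1, hins.1⟩, fun c => ?_⟩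
  rw [updL_append, hins.2, hx2]
  constructor
  · rintro ((hc | ⟨j, hj, hk, hc⟩) | ⟨x, hx, hc⟩)
    · exact Or.inl hc
    · rcases lu_T (M := M) (P0 := P0) (t := t) hk with ⟨h1, h2, h3⟩ | ⟨h1, h2⟩
      · exact Or.inr ⟨j + l.c, by omega, by rw [hc, h1]⟩
      · exact Or.inr ⟨j, hj, by rw [hc, h1]⟩
    · exact Or.inr ⟨l.a + x, by omega, hc⟩
  · rintro (hc | ⟨j, hj, hc⟩)
    · exact Or.inl (Or.inl hc)
    · by_cases h1 : l.a ≤ j ∧ j < l.b
      · by_cases h2 : l.a + l.c ≤ j
        · refine Or.inl (Or.inr ⟨j - l.c, by omega, ?_, ?_⟩)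
          · rw [lu_keep]; omega
          · rw [hc]
            unfold luT
            rw [if_pos (by omega)]
            congr 1
            omega
        · refine Or.inr ⟨j - l.a, by omega, ?_⟩
          rw [hc]
          congr 1
          omega
      · refine Or.inl (Or.inr ⟨j, hj, ?_, ?_⟩)
        · rw [lu_keep]
          exact fun h => h1 ⟨h.1, h.2.1⟩
        · rw [hc]
          unfold luT
          rw [if_neg h1]

end Pool.Agent.MP_fadef1_lc
end

section

/-! Layer: gate; untouched wires. -/

namespace Pool.Agent.MP_fadef1_lc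

variable {D : Data} {Q B A M P0 t : ℕ} {R : ℕ → Prop} {W : ℕ → Bool} {l : Layer}

private theorem Lay_pos (M P0 t j : ℕ) : pos M P0 t j = P0 + t * (20 * M + 30) + j * 20 := rfl

private theorem Lay_pos1 (M P0 t j : ℕ) :
    pos M P0 (t + 1) j = P0 + t * (20 * M + 30) + 20 * M + 30 + j * 20 := by
  unfold pos
  ring

/-- sources of the moves of a gate layer -/
private def Lay_src (M P0 t b j : ℕ) : ℕ :=
  if j = b then pos M P0 t (b + 1) + 12
  else if j = b + 1 then pos M P0 t (b + 1) + 14 else pos M P0 t j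

private theorem Lay_src_eq (u M P0 t b j : ℕ) (hu : t * (20 * M + 30) = u) :
    (j = b ∧ Lay_src M P0 t b j = P0 + u + b * 20 + 32) ∨
    (j = b + 1 ∧ Lay_src M P0 t b j = P0 + u + b * 20 + 34) ∨
    (j ≠ b ∧ j ≠ b + 1 ∧ Lay_src M P0 t b j = P0 + u + j * 20) := by
  unfold Lay_src
  simp only [Lay_pos, hu]
  by_cases h1 : j = b
  · left
    refine ⟨h1, ?_⟩
    rw [if_pos h1]
    omega
  · by_cases h2 : j = b + 1
    · right; left
      refine ⟨h2, ?_⟩
      rw [if_neg h1, if_pos h2]
      omega
    · right; right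
      refine ⟨h1, h2, ?_⟩
      rw [if_neg h1, if_neg h2]

private theorem Lay_evs (ht : l.t = 0) : layerEvs M P0 t l =
    (move (pos M P0 t l.b) (pos M P0 t (l.b + 1) - 2) ++ [Ev.G l.a (pos M P0 t (l.b + 1) - 2)]) ++
      mmEvs (fun _ => true) (Lay_src M P0 t l.b) (pos M P0 (t + 1)) M := by
  unfold layerEvs mmEvs
  rw [if_pos ht]
  simp only [if_true]
  rfl

private theorem Lay_MM (h : LH Q B A M P0 t R W) {b : ℕ} (hb : b + 1 < M) :
    MM Q (A + 3) B R (fun _ => true) (Lay_src M P0 t b) (pos M P0 (t + 1)) M := by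
  have hlo := h.hlo
  have hB := h.hB
  have hR := h.hR
  simp only [Lay_pos1] at hB hR
  obtain ⟨u, hu⟩ : ∃ u, t * (20 * M + 30) = u := ⟨_, rfl⟩
  rw [hu] at hB
  simp only [hu] at hR
  constructor
  · intro i j hij hj
    have h1 := Lay_src_eq u M P0 t b i hu
    have h2 := Lay_src_eq u M P0 t b j hu
    omega
  · intro i j hij hj _ _
    simp only [Lay_pos1, hu]
    omega
  · intro j hj _
    have h2 := Lay_src_eq u M P0 t b j hu
    simp only [Lay_pos1, hu]
    omega
  · intro c hc j hj
    have h2 := Lay_src_eq u M P0 t b j hu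
    have h3 := hR c hc
    simp only [Lay_pos1, hu]
    refine ⟨by omega, fun _ => by omega⟩
  · intro j hj
    have h2 := Lay_src_eq u M P0 t b j hu
    omega
  · intro j hj
    have h2 := Lay_src_eq u M P0 t b j hu
    simp only [Lay_pos1, hu]
    refine ⟨by omega, fun _ => by omega⟩

theorem gate_ex (h : LH Q B A M P0 t R W) (ht : l.t = 0) (hl : layOk M l) :
    ExOk Q B A (layerEvs M P0 t l) W ∧
      ∀ c, updL (layerEvs M P0 t l) W c = true ↔ (R c ∨ ∃ j < M, c = pos M P0 (t + 1) j) := by
  obtain ⟨ha, hb⟩ : l.a < 4 ∧ l.b + 1 < M := by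
    rcases hl with ⟨_, h1, h2⟩ | ⟨h1 | h1, _⟩
    · exact ⟨h1, h2⟩
    · omega
    · omega
  have hlo := h.hlo
  have hB := h.hB
  have hR := h.hR
  have hW := h.hW
  simp only [Lay_pos1] at hB hR
  simp only [Lay_pos] at hW
  obtain ⟨u, hu⟩ : ∃ u, t * (20 * M + 30) = u := ⟨_, rfl⟩
  rw [hu] at hB
  simp only [hu] at hR hW
  obtain ⟨b, hbb⟩ : ∃ b, l.b = b := ⟨_, rfl⟩
  rw [Lay_evs ht]
  rw [hbb] at hb ⊢
  have e1 : pos M P0 t b = P0 + u + b * 20 := by rw [Lay_pos, hu]
  have e2 : pos M P0 t (b + 1) - 2 = P0 + u + b * 20 + 18 := by rw [Lay_pos, hu]; omega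
  rw [e1, e2]
  -- the first move
  obtain ⟨hx1, hw1⟩ := move_ex (W := W) (Q := Q) (A := A) (B := B) (c := P0 + u + b * 20)
    (c' := P0 + u + b * 20 + 18) ((hW _).mpr (Or.inr ⟨b, by omega, rfl⟩)) (by omega)
    (by
      intro d hd hne
      rcases (hW d).mp hd with h1 | ⟨j, hj, rfl⟩
      · have := hR d h1
        omega
      · omega) (by omega) (by omega)
  obtain ⟨W1, hW1⟩ : ∃ W1, updL (move (P0 + u + b * 20) (P0 + u + b * 20 + 18)) W = W1 := ⟨_, rfl⟩
  rw [hW1] at hw1
  have hlen : (move (P0 + u + b * 20) (P0 + u + b * 20 + 18)).length = 2 := rfl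
  -- the gate
  have hev : EvOk W1 (Ev.G l.a (P0 + u + b * 20 + 18)) := by
    refine ⟨?_, ?_, ?_, ?_, ?_, ?_⟩
    · simp [Ev.G]
    · intro h1; simp [Ev.G] at h1
    · intro _
      refine ⟨ha, (hw1 _).mpr (Or.inr rfl), (hw1 _).mpr (Or.inl ⟨(hW _).mpr (Or.inr
        ⟨b + 1, hb, by simp only [Ev.G]; omega⟩), by simp only [Ev.G]; omega⟩), ?_⟩
      intro c hc h1 h2
      simp only [Ev.G] at h1 h2 ⊢
      rcases (hw1 c).mp hc with ⟨h3, h4⟩ | h3
      · rcases (hW c).mp h3 with h5 | ⟨j, hj, rfl⟩
        · have := hR c h5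
          omega
        · omega
      · exact absurd h3 h1
    · intro h1; simp [Ev.G] at h1
    · intro h1; simp [Ev.G] at h1
    · intro h1; simp [Ev.G] at h1
  have hw2 : ∀ c, upd (Ev.G l.a (P0 + u + b * 20 + 18)) W1 c = true ↔
      (R c ∨ ∃ j < M, c = Lay_src M P0 t b j) := by
    intro c
    have h0 : upd (Ev.G l.a (P0 + u + b * 20 + 18)) W1 c = true ↔
        (W1 c = true ∧ c ≠ P0 + u + b * 20 + 18 ∧ c ≠ P0 + u + b * 20 + 20) ∨
          (c = P0 + u + b * 20 + 32 ∨ c = P0 + u + b * 20 + 34) := by
      have a1 : P0 + u + b * 20 + 18 + 2 = P0 + u + b * 20 + 20 := by omega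
      have a2 : P0 + u + b * 20 + 18 + 14 = P0 + u + b * 20 + 32 := by omega
      have a3 : P0 + u + b * 20 + 18 + 16 = P0 + u + b * 20 + 34 := by omega
      have b1 : isSrc (Ev.G l.a (P0 + u + b * 20 + 18)) c =
          decide (c = P0 + u + b * 20 + 18 ∨ c = P0 + u + b * 20 + 18 + 2) := rfl
      have b2 : isDst (Ev.G l.a (P0 + u + b * 20 + 18)) c =
          decide (c = P0 + u + b * 20 + 18 + 14 ∨ c = P0 + u + b * 20 + 18 + 16) := rfl
      unfold upd
      rw [b1, b2, a1, a2, a3, Bool.or_eq_true, Bool.and_eq_true, Bool.not_eq_true',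
        decide_eq_true_eq, decide_eq_false_iff_not, not_or]
    rw [h0, hw1 c, hW c]
    constructor
    · rintro (⟨⟨h1 | ⟨j, hj, hc⟩, h2⟩ | h1, h3, h4⟩ | h1 | h1)
      · exact Or.inl h1
      · right
        refine ⟨j, hj, ?_⟩
        have := Lay_src_eq u M P0 t b j hu
        omega
      · exact absurd h1 h3
      · right
        refine ⟨b, by omega, ?_⟩
        have := Lay_src_eq u M P0 t b b hu
        omega
      · right
        refine ⟨b + 1, by omega, ?_⟩
        have := Lay_src_eq u M P0 t b (b + 1) hu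
        omega
    · rintro (h1 | ⟨j, hj, hc⟩)
      · left
        have := hR c h1
        exact ⟨Or.inl ⟨Or.inl h1, by omega⟩, by omega, by omega⟩
      · rcases Lay_src_eq u M P0 t b j hu with ⟨h1, h2⟩ | ⟨h1, h2⟩ | ⟨h1, h2, h3⟩
        · right; left; omega
        · right; right; omega
        · left
          refine ⟨Or.inl ⟨Or.inr ⟨j, hj, by omega⟩, by omega⟩, by omega, by omega⟩
  -- the other moves
  have hW2 : updL (move (P0 + u + b * 20) (P0 + u + b * 20 + 18) ++
      [Ev.G l.a (P0 + u + b * 20 + 18)]) W = upd (Ev.G l.a (P0 + u + b * 20 + 18)) W1 := by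
    rw [updL_append, hW1]
    rfl
  obtain ⟨hx3, hw3⟩ := mm_ex (Lay_MM h hb) hw2
  rw [ExOk_append, hW2]
  refine ⟨⟨?_, ?_⟩, ?_⟩
  · rw [ExOk_append]
    refine ⟨hx1, ?_⟩
    rw [hlen, hW1]
    refine ⟨hev, by simp [Ev.G], ?_, ?_, trivial⟩
    · simp only [Ev.G]; omega
    · simp only [lst, Ev.G]
      norm_num
      omega
  · have : (move (P0 + u + b * 20) (P0 + u + b * 20 + 18) ++
      [Ev.G l.a (P0 + u + b * 20 + 18)]).length = 3 := rfl
    rw [this]
    exact hx3
  · intro c
    rw [updL_append, hW2, hw3 c]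
    simp

private theorem Lay_move {e : Ev} {c c' : ℕ} (he : e ∈ move c c') : e.x = c ∨ e.x = c + 14 := by
  unfold move at he
  simp only [List.mem_cons, List.not_mem_nil, or_false] at he
  rcases he with rfl | rfl
  · left; rfl
  · right; rfl

private theorem Lay_src_bd {e : Ev} {c : ℕ} (h : isSrc e c = true) :
    e.t ≠ 4 ∧ (c = e.x ∨ c = e.x + 2) := by
  unfold isSrc at h
  split_ifs at h with h1 h2 h3 h4
  · exact ⟨by omega, Or.inl (by simpa using h)⟩
  · exact ⟨by omega, by simpa using h⟩
  · exact ⟨by omega, Or.inl (by simpa using h)⟩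
  · exact ⟨by omega, Or.inl (by simpa using h)⟩

/-- all events of a layer are between the bounds -/
private theorem Lay_bd (hl : layOk M l) {e : Ev} (he : e ∈ layerEvs M P0 t l) :
    e.t = 4 ∨ (P0 ≤ e.x ∧ e.x + 1 ≤ pos M P0 (t + 1) (M - 1)) := by
  obtain ⟨u, hu⟩ : ∃ u, t * (20 * M + 30) = u := ⟨_, rfl⟩
  have hp : ∀ j, pos M P0 t j = P0 + u + j * 20 := fun j => by rw [Lay_pos, hu]
  have hp1 : ∀ j, pos M P0 (t + 1) j = P0 + u + 20 * M + 30 + j * 20 := fun j => by
    rw [Lay_pos1, hu]
  unfold layerEvs at he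
  split_ifs at he with h1 h2
  · have hb : l.b + 1 < M := by
      rcases hl with ⟨_, _, h2⟩ | ⟨h2 | h2, _⟩
      · exact h2
      · omega
      · omega
    rw [hp1]
    simp only [List.mem_append, List.mem_singleton, List.mem_flatMap, List.mem_reverse,
      List.mem_range] at he
    rcases he with (he | he) | ⟨j, hj, he⟩
    · have := Lay_move he
      rw [hp] at this
      right; omega
    · subst he
      right
      simp only [Ev.G, hp]
      omega
    · have := Lay_move he
      simp only [hp] at this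
      right
      by_cases c1 : j = l.b
      · rw [if_pos c1] at this; omega
      · rw [if_neg c1] at this
        by_cases c2 : j = l.b + 1
        · rw [if_pos c2] at this; omega
        · rw [if_neg c2] at this; omega
  · rw [hp1]
    simp only [List.mem_append, List.mem_map, List.mem_flatMap, List.mem_reverse,
      List.mem_range] at he
    rcases he with ⟨j, hj, he⟩ | ⟨x, hx, he⟩
    · right
      split_ifs at he with h3 h4
      · have := Lay_move he
        rw [hp] at this
        omega
      · rw [List.mem_singleton] at he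
        subst he
        simp only [Ev.X, hp]
        omega
      · have := Lay_move he
        rw [hp] at this
        omega
    · left
      subst he
      rfl
  · rw [hp1]
    simp only [List.mem_append, List.mem_map, List.mem_flatMap, List.mem_reverse,
      List.mem_range] at he
    rcases he with ⟨j, hj, he⟩ | ⟨x, hx, he⟩
    · right
      split_ifs at he with h3 h4
      · have := Lay_move he
        rw [hp] at this
        omega
      · rw [List.mem_singleton] at he
        subst he
        simp only [Ev.X, hp]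
        omega
      · have := Lay_move he
        rw [hp] at this
        omega
    · left
      subst he
      rfl

theorem lay_rest (h : LH Q B A M P0 t R W) (hl : layOk M l) {c : ℕ} (hc : R c) :
    ∀ e ∈ layerEvs M P0 t l, isSrc e c = false := by
  intro e he
  by_contra hne
  have hne' : isSrc e c = true := by simpa using hne
  obtain ⟨h1, h2⟩ := Lay_src_bd hne'
  have h3 := h.hR c hc
  rcases Lay_bd hl he with h4 | h4
  · exact h1 h4
  · omega

end Pool.Agent.MP_fadef1_lc
end

section

/-! Layer: shift down. -/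

namespace Pool.Agent.MP_fadef1_lc

variable {D : Data} {Q B A M P0 t : ℕ} {R : ℕ → Prop} {W : ℕ → Bool} {l : Layer}

private theorem ld_pos0 (k : ℕ) : pos M P0 t k = P0 + t * (20 * M + 30) + k * 20 := rfl

private theorem ld_pos1 (k : ℕ) :
    pos M P0 (t + 1) k = P0 + t * (20 * M + 30) + (20 * M + 30) + k * 20 := by
  unfold pos
  ring

private def ldKeep (l : Layer) (j : ℕ) : Bool := !decide (l.a ≤ j ∧ j < l.b ∧ ¬ (l.a + l.c ≤ j))

private def ldT (M P0 t : ℕ) (l : Layer) (j : ℕ) : ℕ :=
  if l.a ≤ j ∧ j < l.b then pos M P0 (t + 1) (j - l.c) else pos M P0 (t + 1) j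

private theorem ld_keep {j : ℕ} :
    ldKeep l j = true ↔ ¬ (l.a ≤ j ∧ j < l.b ∧ ¬ (l.a + l.c ≤ j)) := by
  unfold ldKeep
  rw [Bool.not_eq_true', decide_eq_false_iff_not]

/-- target of a kept wire -/
private theorem ld_T {j : ℕ} (hk : ldKeep l j = true) :
    (ldT M P0 t l j = pos M P0 (t + 1) (j - l.c) ∧ l.a + l.c ≤ j ∧ j < l.b) ∨
      (ldT M P0 t l j = pos M P0 (t + 1) j ∧ (j < l.a ∨ l.b ≤ j)) := by
  rw [ld_keep] at hk
  unfold ldT
  split_ifs with h
  · exact Or.inl ⟨rfl, by omega, h.2⟩
  · exact Or.inr ⟨rfl, by omega⟩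

private theorem ld_evs (ht : l.t = 2) : layerEvs M P0 t l =
    mmEvs (ldKeep l) (fun j => pos M P0 t j) (ldT M P0 t l) M ++
      (List.range (min l.c (l.b - l.a))).map fun x => Ev.I (pos M P0 (t + 1) (l.b - 1 - x)) := by
  unfold layerEvs mmEvs
  rw [if_neg (by omega), if_neg (by omega)]
  congr 2
  funext j
  unfold ldKeep ldT
  by_cases h1 : l.a ≤ j ∧ j < l.b
  · by_cases h2 : l.a + l.c ≤ j
    · simp [h1, h2]
    · simp [h1, h2]
  · have h3 : ¬ (l.a ≤ j ∧ j < l.b ∧ ¬ (l.a + l.c ≤ j)) := fun h => h1 ⟨h.1, h.2.1⟩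
    simp only [h3, h1, decide_false, Bool.not_false, if_true, if_false]

theorem dn_ex (h : LH Q B A M P0 t R W) (ht : l.t = 2) (hl : layOk M l) :
    ExOk Q B A (layerEvs M P0 t l) W ∧
      ∀ c, updL (layerEvs M P0 t l) W c = true ↔ (R c ∨ ∃ j < M, c = pos M P0 (t + 1) j) := by
  have hb : l.b ≤ M := by
    rcases hl with h0 | h0
    · omega
    · exact h0.2
  have hM := h.hM
  have hlo := h.hlo
  have hB := h.hB
  rw [ld_pos1] at hB
  have hR : ∀ c, R c → c + 2 ≤ P0 ∨
      P0 + t * (20 * M + 30) + (20 * M + 30) + (M - 1) * 20 + 2 ≤ c := by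
    intro c hc
    have := h.hR c hc
    rwa [ld_pos1] at this
  have hmm : MM Q A B R (ldKeep l) (fun j => pos M P0 t j) (ldT M P0 t l) M := by
    refine ⟨?_, ?_, ?_, ?_, ?_, ?_⟩
    · intro i j hij hj
      simp only [ld_pos0]
      omega
    · intro i j hij hj hki hkj
      have h1 := ld_T (M := M) (P0 := P0) (t := t) hki
      have h2 := ld_T (M := M) (P0 := P0) (t := t) hkj
      simp only [ld_pos1] at h1 h2
      omega
    · intro j hj hk
      have h1 := ld_T (M := M) (P0 := P0) (t := t) hk
      simp only [ld_pos1] at h1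
      simp only [ld_pos0]
      omega
    · intro c hc j hj
      have h3 := hR c hc
      refine ⟨?_, ?_⟩
      · simp only [ld_pos0]
        omega
      · intro hk
        have h1 := ld_T (M := M) (P0 := P0) (t := t) hk
        simp only [ld_pos1] at h1
        simp only [ld_pos0]
        omega
    · intro j hj
      simp only [ld_pos0]
      omega
    · intro j hj
      refine ⟨?_, ?_⟩
      · simp only [ld_pos0]
        omega
      · intro hk
        have h1 := ld_T (M := M) (P0 := P0) (t := t) hk
        simp only [ld_pos1] at h1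
        omega
  obtain ⟨hx1, hx2⟩ := mm_ex hmm h.hW
  have hins := ins_ex (Q := Q) (B := B)
    (A := A + (mmEvs (ldKeep l) (fun j => pos M P0 t j) (ldT M P0 t l) M).length)
    (W := updL (mmEvs (ldKeep l) (fun j => pos M P0 t j) (ldT M P0 t l) M) W)
    (m := min l.c (l.b - l.a)) (f := fun x => pos M P0 (t + 1) (l.b - 1 - x))
    (by
      intro x hx y hy hxy
      simp only [ld_pos1]
      omega)
    (by
      intro c hc x hx
      rw [hx2] at hc
      simp only [ld_pos1]
      rcases hc with hc | ⟨j, hj, hk, hc⟩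
      · have h3 := hR c hc
        omega
      · have h1 := ld_T (M := M) (P0 := P0) (t := t) hk
        simp only [ld_pos1] at h1
        omega)
    (by
      intro x hx
      simp only [ld_pos1]
      omega)
    (by
      intro x hx
      simp only [ld_pos1]
      omega)
  rw [ld_evs ht]
  refine ⟨ExOk_append.2 ⟨hx1, hins.1⟩, fun c => ?_⟩
  rw [updL_append, hins.2, hx2]
  constructor
  · rintro ((hc | ⟨j, hj, hk, hc⟩) | ⟨x, hx, hc⟩)
    · exact Or.inl hc
    · rcases ld_T (M := M) (P0 := P0) (t := t) hk with ⟨h1, h2, h3⟩ | ⟨h1, h2⟩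
      · exact Or.inr ⟨j - l.c, by omega, by rw [hc, h1]⟩
      · exact Or.inr ⟨j, hj, by rw [hc, h1]⟩
    · exact Or.inr ⟨l.b - 1 - x, by omega, hc⟩
  · rintro (hc | ⟨j, hj, hc⟩)
    · exact Or.inl (Or.inl hc)
    · by_cases h1 : l.a ≤ j ∧ j < l.b
      · by_cases h2 : j + l.c < l.b
        · refine Or.inl (Or.inr ⟨j + l.c, by omega, ?_, ?_⟩)
          · rw [ld_keep]; omega
          · rw [hc]
            unfold ldT
            rw [if_pos (by omega)]
            congr 1
            omega
        · refine Or.inr ⟨l.b - 1 - j, by omega, ?_⟩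
          rw [hc]
          congr 1
          omega
      · refine Or.inl (Or.inr ⟨j, hj, ?_, ?_⟩)
        · rw [ld_keep]
          exact fun h => h1 ⟨h.1, h.2.1⟩
        · rw [hc]
          unfold ldT
          rw [if_neg h1]

end Pool.Agent.MP_fadef1_lc
end

section

/-! Whole circuits. -/

namespace Pool.Agent.MP_fadef1_lc

/-- hypotheses for a circuit with inputs `src 0, …, src (S-1)` and exits `dst 0, …, dst (S-1)` -/
structure CH (Q B A M P0 S : ℕ) (src dst : ℕ → ℕ) (L : List Layer) (R : ℕ → Prop) : Prop where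
  hS1 : 1 ≤ S
  hS : S ≤ M
  hL : ∀ l ∈ L, layOk M l
  hsrc : ∀ i j, i < j → j < S → src i + 2 ≤ src j
  hsP : ∀ i < S, src i + 16 ≤ P0
  hdst : ∀ i j, i < j → j < S → dst i + 2 ≤ dst j
  hPd : ∀ i < S, pos M P0 L.length (M - 1) + 16 ≤ dst i
  hR : ∀ c, R c → (∀ i < S, c + 2 ≤ src i) ∨ ∀ i < S, dst i + 2 ≤ c
  hlo : ∀ i < S, Q + 9 ≤ src i + 2 * A
  hB : ∀ i < S, dst i ≤ B

variable {D : Data} {Q B A M P0 S : ℕ} {src dst : ℕ → ℕ} {L : List Layer} {R : ℕ → Prop}
  {W : ℕ → Bool}

private theorem ca_flat (g : ℕ → List Ev) (n : ℕ) (s : List ℕ) (hg : ∀ j ∈ s, (g j).length ≤ n) :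
    (s.flatMap g).length ≤ s.length * n := by
  induction s with
  | nil => simp
  | cons a s ih =>
    rw [List.flatMap_cons, List.length_append, List.length_cons]
    have h1 := hg a (by simp)
    have h2 := ih (fun j hj => hg j (by simp [hj]))
    rw [Nat.succ_mul]
    omega

private theorem ca_getD (h : ∀ l ∈ L, layOk M l) {k : ℕ} (hk : k < L.length) :
    layOk M (L.getD k default) := by
  rw [List.getD_eq_getElem _ _ hk]
  exact h _ (List.getElem_mem hk)

theorem circ_length (h : CH Q B A M P0 S src dst L R) :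
    (circEvs M P0 S src dst L).length ≤ (L.length + 2) * (3 * M + 3) := by
  have hS := h.hS
  unfold circEvs initEvs finalEvs
  rw [List.length_append, List.length_append, List.length_append, List.length_map,
    List.length_range]
  have h1 := ca_flat (fun a => move (src a) (pos M P0 0 a)) 2 (List.range S).reverse
    (fun j _ => le_refl 2)
  rw [List.length_reverse, List.length_range] at h1
  have h2 := ca_flat (fun t => layerEvs M P0 t (L.getD t default)) (3 * M + 3)
    (List.range L.length) (fun j hj => lay_length (ca_getD h.hL (List.mem_range.1 hj)))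
  rw [List.length_range] at h2
  have h3 := ca_flat (fun a => if a < S then move (pos M P0 L.length a) (dst a)
    else [Ev.X (pos M P0 L.length a)]) 2 (List.range M).reverse
    (fun j _ => by split_ifs <;> simp [move])
  rw [List.length_reverse, List.length_range] at h3
  have h4 : (L.length + 2) * (3 * M + 3) = L.length * (3 * M + 3) + 2 * (3 * M + 3) := by ring
  rw [h4]
  omega

private theorem ca_pos0 (k : ℕ) : pos M P0 0 k = P0 + k * 20 := by
  unfold pos
  ring

private theorem ca_mono {t t' k k' : ℕ} (ht : t ≤ t') (hk : k ≤ k') :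
    pos M P0 t k ≤ pos M P0 t' k' := by
  unfold pos
  have := Nat.mul_le_mul_right (20 * M + 30) ht
  omega

theorem init_ex (h : CH Q B A M P0 S src dst L R)
    (hW : ∀ c, W c = true ↔ (R c ∨ ∃ j < S, c = src j)) :
    ExOk Q B A (initEvs M P0 S src) W ∧
      ∀ c, updL (initEvs M P0 S src) W c = true ↔ (R c ∨ ∃ j < M, c = pos M P0 0 j) := by
  have hS := h.hS
  have hS1 := h.hS1
  have hP : ∀ k < M, ∀ i < S, P0 + k * 20 + 16 ≤ dst i := by
    intro k hk i hi
    have h1 := h.hPd i hi
    have h2 := ca_mono (M := M) (P0 := P0) (Nat.zero_le L.length) (show k ≤ M - 1 by omega)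
    rw [ca_pos0] at h2
    omega
  have hmm : MM Q A B R (fun _ => true) src (fun a => pos M P0 0 a) S := by
    refine ⟨h.hsrc, ?_, ?_, ?_, h.hlo, ?_⟩
    · intro i j hij _ _ _
      simp only [ca_pos0]
      omega
    · intro j hj _
      have := h.hsP j hj
      simp only [ca_pos0]
      omega
    · intro c hc j hj
      simp only [ca_pos0]
      have h1 := h.hsP j hj
      have h2 := hP j (by omega) j hj
      rcases h.hR c hc with h3 | h3
      · have := h3 j hj
        exact ⟨by omega, fun _ => by omega⟩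
      · have := h3 j hj
        exact ⟨by omega, fun _ => by omega⟩
    · intro j hj
      simp only [ca_pos0]
      have h1 := h.hsP j hj
      have h2 := hP j (by omega) j hj
      have h3 := h.hB j hj
      exact ⟨by omega, fun _ => by omega⟩
  have hevs : initEvs M P0 S src = mmEvs (fun _ => true) src (fun a => pos M P0 0 a) S ++
      (List.range (M - S)).map fun x => Ev.I (pos M P0 0 (S + x)) := rfl
  obtain ⟨hx1, hx2⟩ := mm_ex hmm hW
  have hins := ins_ex (Q := Q) (B := B)
    (A := A + (mmEvs (fun _ => true) src (fun a => pos M P0 0 a) S).length)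
    (W := updL (mmEvs (fun _ => true) src (fun a => pos M P0 0 a) S) W)
    (m := M - S) (f := fun x => pos M P0 0 (S + x))
    (by
      intro x hx y hy hxy
      simp only [ca_pos0]
      omega)
    (by
      intro c hc x hx
      rw [hx2] at hc
      simp only [ca_pos0] at hc ⊢
      rcases hc with hc | ⟨j, hj, _, hc⟩
      · have h1 := h.hsP 0 (by omega)
        have h2 := hP (S + x) (by omega) 0 (by omega)
        rcases h.hR c hc with h3 | h3
        · have := h3 0 (by omega)
          omega
        · have := h3 0 (by omega)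
          omega
      · omega)
    (by
      intro x hx
      simp only [ca_pos0]
      have h1 := h.hsP 0 (by omega)
      have h2 := h.hlo 0 (by omega)
      omega)
    (by
      intro x hx
      simp only [ca_pos0]
      have h2 := hP (S + x) (by omega) 0 (by omega)
      have h3 := h.hB 0 (by omega)
      omega)
  rw [hevs]
  refine ⟨ExOk_append.2 ⟨hx1, hins.1⟩, fun c => ?_⟩
  rw [updL_append, hins.2, hx2]
  constructor
  · rintro ((hc | ⟨j, hj, _, hc⟩) | ⟨x, hx, hc⟩)
    · exact Or.inl hc
    · exact Or.inr ⟨j, by omega, hc⟩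
    · exact Or.inr ⟨S + x, by omega, hc⟩
  · rintro (hc | ⟨j, hj, hc⟩)
    · exact Or.inl (Or.inl hc)
    · by_cases h1 : j < S
      · exact Or.inl (Or.inr ⟨j, h1, rfl, hc⟩)
      · refine Or.inr ⟨j - S, by omega, ?_⟩
        rw [hc]
        congr 1
        omega

/-- one more layer -/
private theorem ca_step (h : CH Q B A M P0 S src dst L R) {A₁ : ℕ} {k : ℕ} (hk : k < L.length)
    (hA : A ≤ A₁) {W₁ : ℕ → Bool} (hW : ∀ c, W₁ c = true ↔ (R c ∨ ∃ j < M, c = pos M P0 k j)) :
    ExOk Q B A₁ (layerEvs M P0 k (L.getD k default)) W₁ ∧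
      ∀ c, updL (layerEvs M P0 k (L.getD k default)) W₁ c = true ↔
        (R c ∨ ∃ j < M, c = pos M P0 (k + 1) j) := by
  have hS := h.hS
  have hS1 := h.hS1
  have h0 := h.hsP 0 (by omega)
  have h1 := h.hlo 0 (by omega)
  have h2 := h.hPd 0 (by omega)
  have h3 := ca_mono (M := M) (P0 := P0) (show k + 1 ≤ L.length by omega) (le_refl (M - 1))
  have h4 := h.hB 0 (by omega)
  have hLH : LH Q B A₁ M P0 k R W₁ := by
    refine ⟨by omega, by omega, by omega, ?_, hW⟩
    intro c hc
    rcases h.hR c hc with h5 | h5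
    · have := h5 0 (by omega)
      exact Or.inl (by omega)
    · have := h5 0 (by omega)
      exact Or.inr (by omega)
  have hl := ca_getD h.hL hk
  have hl2 := hl
  rcases hl2 with hl' | ⟨ht | ht, hl'⟩
  · exact gate_ex hLH hl'.1 hl
  · exact up_ex hLH ht hl
  · exact dn_ex hLH ht hl

/-- the layers `0, …, k-1` -/
theorem layers_ex (h : CH Q B A M P0 S src dst L R) {A' : ℕ} {k : ℕ} (hk : k ≤ L.length)
    (hA : A ≤ A')
    (hW : ∀ c, W c = true ↔ (R c ∨ ∃ j < M, c = pos M P0 0 j)) :
    ExOk Q B A' ((List.range k).flatMap fun t => layerEvs M P0 t (L.getD t default)) W ∧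
      (∀ c, updL ((List.range k).flatMap fun t => layerEvs M P0 t (L.getD t default)) W c = true ↔
        (R c ∨ ∃ j < M, c = pos M P0 k j)) ∧
      ((List.range k).flatMap fun t => layerEvs M P0 t (L.getD t default)).length ≤
        k * (3 * M + 3) := by
  induction k with
  | zero => exact ⟨trivial, hW, by simp⟩
  | succ k ih =>
    obtain ⟨i1, i2, i3⟩ := ih (by omega)
    have e : (List.range (k + 1)).flatMap (fun t => layerEvs M P0 t (L.getD t default)) =
        (List.range k).flatMap (fun t => layerEvs M P0 t (L.getD t default)) ++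
          layerEvs M P0 k (L.getD k default) := by
      rw [List.range_succ, List.flatMap_append, List.flatMap_singleton]
    rw [e]
    obtain ⟨s1, s2⟩ := ca_step h (show k < L.length by omega)
      (show A ≤ A' + ((List.range k).flatMap
        (fun t => layerEvs M P0 t (L.getD t default))).length by omega) i2
    refine ⟨ExOk_append.2 ⟨i1, s1⟩, ?_, ?_⟩
    · intro c
      rw [updL_append]
      exact s2 c
    · have h5 := lay_length (P0 := P0) (t := k) (ca_getD h.hL (show k < L.length by omega))
      rw [List.length_append]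
      have h6 : (k + 1) * (3 * M + 3) = k * (3 * M + 3) + (3 * M + 3) := by ring
      omega

end Pool.Agent.MP_fadef1_lc
end

section

/-! Lanes through a gate layer. -/

namespace Pool.Agent.MP_fadef1_lc

variable {D : Data} {Q B A M P0 t : ℕ} {R : ℕ → Prop} {W : ℕ → Bool} {l : Layer}

private theorem LayL_pos (M P0 t j : ℕ) : pos M P0 t j = P0 + t * (20 * M + 30) + j * 20 := rfl

private theorem LayL_pos1 (M P0 t j : ℕ) :
    pos M P0 (t + 1) j = P0 + t * (20 * M + 30) + 20 * M + 30 + j * 20 := by
  unfold pos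
  ring

/-- sources of the moves of a gate layer -/
private def LayL_src (M P0 t b j : ℕ) : ℕ :=
  if j = b then pos M P0 t (b + 1) + 12
  else if j = b + 1 then pos M P0 t (b + 1) + 14 else pos M P0 t j

private theorem LayL_src_eq (u M P0 t b j : ℕ) (hu : t * (20 * M + 30) = u) :
    (j = b ∧ LayL_src M P0 t b j = P0 + u + b * 20 + 32) ∨
    (j = b + 1 ∧ LayL_src M P0 t b j = P0 + u + b * 20 + 34) ∨
    (j ≠ b ∧ j ≠ b + 1 ∧ LayL_src M P0 t b j = P0 + u + j * 20) := by
  unfold LayL_src
  simp only [LayL_pos, hu]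
  by_cases h1 : j = b
  · left
    refine ⟨h1, ?_⟩
    rw [if_pos h1]
    omega
  · by_cases h2 : j = b + 1
    · right; left
      refine ⟨h2, ?_⟩
      rw [if_neg h1, if_pos h2]
      omega
    · right; right
      refine ⟨h1, h2, ?_⟩
      rw [if_neg h1, if_neg h2]

private theorem LayL_evs (ht : l.t = 0) : layerEvs M P0 t l =
    (move (pos M P0 t l.b) (pos M P0 t (l.b + 1) - 2) ++ [Ev.G l.a (pos M P0 t (l.b + 1) - 2)]) ++
      mmEvs (fun _ => true) (LayL_src M P0 t l.b) (pos M P0 (t + 1)) M := by
  unfold layerEvs mmEvs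
  rw [if_pos ht]
  simp only [if_true]
  rfl

private theorem LayL_MM (h : LH Q B A M P0 t R W) {b : ℕ} (hb : b + 1 < M) :
    MM Q (A + 3) B R (fun _ => true) (LayL_src M P0 t b) (pos M P0 (t + 1)) M := by
  have hlo := h.hlo
  have hB := h.hB
  have hR := h.hR
  simp only [LayL_pos1] at hB hR
  obtain ⟨u, hu⟩ : ∃ u, t * (20 * M + 30) = u := ⟨_, rfl⟩
  rw [hu] at hB
  simp only [hu] at hR
  constructor
  · intro i j hij hj
    have h1 := LayL_src_eq u M P0 t b i hu
    have h2 := LayL_src_eq u M P0 t b j hu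
    omega
  · intro i j hij hj _ _
    simp only [LayL_pos1, hu]
    omega
  · intro j hj _
    have h2 := LayL_src_eq u M P0 t b j hu
    simp only [LayL_pos1, hu]
    omega
  · intro c hc j hj
    have h2 := LayL_src_eq u M P0 t b j hu
    have h3 := hR c hc
    simp only [LayL_pos1, hu]
    refine ⟨by omega, fun _ => by omega⟩
  · intro j hj
    have h2 := LayL_src_eq u M P0 t b j hu
    omega
  · intro j hj
    have h2 := LayL_src_eq u M P0 t b j hu
    simp only [LayL_pos1, hu]
    refine ⟨by omega, fun _ => by omega⟩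

private theorem LayL_mm (hm : (D.mort && D.al) = true) (h : LH Q B A M P0 t R W) {b : ℕ}
    (hb : b + 1 < M) {j : ℕ} (hj : j < M) (z : ℕ) :
    estepL D (mmEvs (fun _ => true) (LayL_src M P0 t b) (pos M P0 (t + 1)) M)
      (LayL_src M P0 t b j, z) = some (pos M P0 (t + 1) j, z) := by
  have := mm_lane (z := z) hm (LayL_MM h hb) hj
  simpa using this

theorem gate_lane (hD : D.Ok) (hm : (D.mort && D.al) = true) (h : LH Q B A M P0 t R W)
    (ht : l.t = 0) (hl : layOk M l) {a z : ℕ} (ha : a < M) (hz : z < D.w) :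
    estepL D (layerEvs M P0 t l) (pos M P0 t a, z) =
      (evalL D l (a, z)).map fun q => (pos M P0 (t + 1) q.1, q.2) := by
  obtain ⟨hla, hb⟩ : l.a < 4 ∧ l.b + 1 < M := by
    rcases hl with ⟨_, h1, h2⟩ | ⟨h1 | h1, _⟩
    · exact ⟨h1, h2⟩
    · omega
    · omega
  have hmort : D.mort = true := by
    rw [Bool.and_eq_true] at hm
    exact hm.1
  obtain ⟨u, hu⟩ : ∃ u, t * (20 * M + 30) = u := ⟨_, rfl⟩
  have hp : ∀ j, pos M P0 t j = P0 + u + j * 20 := fun j => by rw [LayL_pos, hu]
  rw [LayL_evs ht, estepL_append, estepL_append]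
  have hx : pos M P0 t (l.b + 1) - 2 = P0 + u + l.b * 20 + 18 := by rw [hp]; omega
  have hone : ∀ (e : Ev) (p : ℕ × ℕ), estepL D [e] p = estep D e p := by
    intro e p
    change (estep D e p).bind (fun q => some q) = _
    cases estep D e p <;> rfl
  -- the outputs of the gate
  have hout : ∀ s : ℕ, s < 2 →
      ((D.g l.a (s, z)).map fun s => (P0 + u + l.b * 20 + 18 + 14 + 2 * s.1, s.2)).bind
        (estepL D (mmEvs (fun _ => true) (LayL_src M P0 t l.b) (pos M P0 (t + 1)) M)) =
      ((D.g l.a (s, z)).map fun s => (l.b + s.1, s.2)).map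
        fun q => (pos M P0 (t + 1) q.1, q.2) := by
    intro s hs
    rcases hg : D.g l.a (s, z) with _ | ⟨s', z'⟩
    · rfl
    · obtain ⟨hs', hz'⟩ := hD.2 _ s z s' z' hla hs hz hg
      have h1 : P0 + u + l.b * 20 + 18 + 14 + 2 * s' = LayL_src M P0 t l.b (l.b + s') := by
        have := LayL_src_eq u M P0 t l.b (l.b + s') hu
        omega
      simp only [Option.map_some, Option.bind_some]
      rw [h1]
      exact LayL_mm hm h hb (by omega) z'
  have hrest : a ≠ l.b → estepL D (move (pos M P0 t l.b) (pos M P0 t (l.b + 1) - 2))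
      (pos M P0 t a, z) = some (pos M P0 t a, z) := by
    intro hne
    apply estepL_rest
    intro e he
    unfold move at he
    simp only [List.mem_cons, List.not_mem_nil, or_false] at he
    rcases he with rfl | rfl
    · simp only [isSrc, Ev.A, hp]
      simp
      omega
    · simp only [isSrc, Ev.R, hp]
      simp
      omega
  by_cases h1 : a = l.b
  · rw [h1, move_lane hm, Option.bind_some, hone, hx]
    have e1 : estep D (Ev.G l.a (P0 + u + l.b * 20 + 18)) (P0 + u + l.b * 20 + 18, z) =
        (D.g l.a (0, z)).map fun s => (P0 + u + l.b * 20 + 18 + 14 + 2 * s.1, s.2) := by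
      simp [estep, Ev.G, hmort]
    have e2 : evalL D l (l.b, z) = (D.g l.a (0, z)).map fun s => (l.b + s.1, s.2) := by
      simp [evalL, ht]
    rw [e1, e2]
    exact hout 0 (by omega)
  rw [hrest h1, Option.bind_some, hone, hx, hp a]
  by_cases h2 : a = l.b + 1
  · have e1 : estep D (Ev.G l.a (P0 + u + l.b * 20 + 18)) (P0 + u + a * 20, z) =
        (D.g l.a (1, z)).map fun s => (P0 + u + l.b * 20 + 18 + 14 + 2 * s.1, s.2) := by
      have h3 : P0 + u + a * 20 = P0 + u + l.b * 20 + 18 + 2 := by omega
      rw [h3]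
      simp [estep, Ev.G, hmort]
    have e2 : evalL D l (a, z) = (D.g l.a (1, z)).map fun s => (l.b + s.1, s.2) := by
      rw [h2]
      simp [evalL, ht]
    rw [e1, e2]
    exact hout 1 (by omega)
  · have e1 : estep D (Ev.G l.a (P0 + u + l.b * 20 + 18)) (P0 + u + a * 20, z) =
        some (P0 + u + a * 20, z) := by
      apply estep_rest
      have h5 : isSrc (Ev.G l.a (P0 + u + l.b * 20 + 18)) (P0 + u + a * 20) =
        decide (P0 + u + a * 20 = P0 + u + l.b * 20 + 18 ∨
          P0 + u + a * 20 = P0 + u + l.b * 20 + 18 + 2) := rfl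
      rw [h5, decide_eq_false_iff_not]
      omega
    have e2 : evalL D l (a, z) = some (a, z) := by
      simp [evalL, ht, h1, h2]
    rw [e1, e2, Option.bind_some, Option.map_some]
    have h3 : P0 + u + a * 20 = LayL_src M P0 t l.b a := by
      have := LayL_src_eq u M P0 t l.b a hu
      omega
    rw [h3]
    exact LayL_mm hm h hb ha z

end Pool.Agent.MP_fadef1_lc
end
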