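import Pool.Agent.Lib.MP_fadef1_lc.Mg.G013
import Pool.Agent.Lib.MP_fadef1_lc.Mg.G016

section

/-! Blocks are gates of the next level. -/

namespace Pool.Agent.MP_fadef1_lc

variable {P : Par} {D D' : Data} {p q : Pos}

/-- a superband with an entry or a zero row is one of the first `N` ones of a strip -/
theorem entry_form (hP : P.Ok) {b : Bool} {A : ℕ}
    (h : P.entry b A = true ∨ P.zrow b A = true) :
    ∃ t k, t ≤ 84 ∧ k < P.N ∧ A = P.base t + k := by
  have key : P.H0 ≤ A → A = P.base ((A - P.H0) / P.Hs) + (A - P.H0) % P.Hs := by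
    intro h0
    unfold Par.base
    have h1 := Nat.div_add_mod (A - P.H0) P.Hs
    rw [mul_comm] at h1
    omega
  rcases h with h | h
  · unfold Par.entry at h
    simp only [Bool.and_eq_true, decide_eq_true_eq] at h
    obtain ⟨⟨h0, h1⟩, h2⟩ := h
    refine ⟨(A - P.H0) / P.Hs, (A - P.H0) % P.Hs, ?_, h1, key h0⟩
    unfold entStrip at h2
    cases b
    · simp only [Bool.false_eq_true, if_false, decide_eq_true_eq] at h2
      exact h2.1
    · simp only [if_true, decide_eq_true_eq] at h2
      omega
  · unfold Par.zrow at h
    simp only [Bool.and_eq_true, decide_eq_true_eq] at h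
    obtain ⟨⟨⟨-, h0⟩, h1⟩, h2⟩ := h
    refine ⟨(A - P.H0) / P.Hs, (A - P.H0) % P.Hs, ?_, h1, key h0⟩
    omega

private theorem blkA_k (hN : Next P D D') {l : ℕ} (hl : l < D'.w) :
    0 < D.w ∧ P.N - 1 - l / D.w < P.N ∧ l % D.w < D.w := by
  have h1 := hN.hw
  rw [h1] at hl
  have hw : 0 < D.w := by
    rcases Nat.eq_zero_or_pos D.w with h | h
    · rw [h, mul_zero] at hl; omega
    · exact h
  have hN0 : 0 < P.N := by
    rcases Nat.eq_zero_or_pos P.N with h | h
    · rw [h, zero_mul] at hl; omega
    · exact h
  refine ⟨hw, ?_, Nat.mod_lt _ hw⟩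
  generalize l / D.w = x
  omega

private theorem blkA_embT (P : Par) (w i j l : ℕ) : P.emb w ⟨i, j, Lane.T l⟩ =
    (inT P (P.N - 1 - l / w) (l % w)).sh (i * P.K) (j * P.K) := by
  unfold Par.emb inT Pos.sh
  simp

private theorem blkA_embT' (P : Par) (w i j l : ℕ) : P.emb w ⟨i + 1, j, Lane.T l⟩ =
    (outT P (P.N - 1 - l / w) (l % w)).sh (i * P.K) (j * P.K) := by
  unfold Par.emb outT Pos.sh
  simp [Nat.add_mul]

private theorem blkA_embL (P : Par) (w i j l : ℕ) {g : ℕ} (hg : g ≤ 84) :
    P.emb w ⟨i, j, Lane.L g l⟩ =
    (inL P (84 - g) (P.N - 1 - l / w) (l % w)).sh (i * P.K) (j * P.K) := by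
  unfold Par.emb inL Pos.sh
  have h : g ≠ 85 := by omega
  simp [h]

private theorem blkA_embL' (P : Par) (w i j l : ℕ) {g : ℕ} (hg : g ≤ 84) :
    P.emb w ⟨i, j + 1, Lane.L g l⟩ =
    (outL P (84 - g) (P.N - 1 - l / w) (l % w)).sh (i * P.K) (j * P.K) := by
  unfold Par.emb outL Pos.sh
  have h : g ≠ 85 := by omega
  simp [h, Nat.add_mul]

theorem blk0_step (hP : P.Ok) (hD : D.Ok) (hN : Next P D D') (hs : p.s.Ok D'.w)
    (hb : P.arr p.i p.j = false) (h : nxt D' P.arr p = some q) :
    Reach D P.arr (P.emb D.w p) (P.emb D.w q) := by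
  obtain ⟨i, j, s⟩ := p
  simp only at hs hb
  unfold nxt at h
  simp only [hb] at h
  cases s with
  | T l =>
    have hl : l < D'.w := hs
    obtain ⟨-, hk, hz⟩ := blkA_k hN hl
    cases hm : D'.mort with
    | false => simp [gstep, hm] at h
    | true =>
      simp only [gstep, hm, Bool.false_eq_true, if_false, if_true, Option.map_some, Pos.out,
        Option.some.injEq] at h
      subst h
      rw [blkA_embT, blkA_embL' P D.w i j l (le_refl 84)]
      apply lreach_lift hP
      rw [hb]
      exact loc0_T hP hD (by rw [← hN.hm]; exact hm) hk hz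
  | L g l =>
    obtain ⟨hg, hl⟩ : g ≤ 84 ∧ l < D'.w := hs
    obtain ⟨-, hk, hz⟩ := blkA_k hN hl
    by_cases h42 : g = 42
    · subst h42
      simp only [gstep, if_true, Bool.false_eq_true, if_false, Option.map_some, Pos.out,
        Option.some.injEq] at h
      subst h
      rw [blkA_embL P D.w i j l (by omega), blkA_embL' P D.w i j l (by omega)]
      apply lreach_lift hP
      rw [hb]
      exact loc0_c hP hk
    · cases hm : D'.mort with
      | false => simp [gstep, hm, h42] at h
      | true =>
        have hm' : (D.mort && D.al) = true := by rw [← hN.hm]; exact hm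
        by_cases hg0 : g = 0
        · subst hg0
          simp only [gstep, hm, h42, Bool.false_eq_true, Bool.true_eq_false, if_false, if_true,
            Option.map_some, Pos.out, Option.some.injEq] at h
          subst h
          rw [blkA_embL P D.w i j l (by omega), blkA_embT']
          apply lreach_lift hP
          rw [hb]
          exact loc0_V0 hP hD hm' hk hz
        · by_cases h43 : g = 43 ∨ 84 < g
          · simp [gstep, hm, h42, hg0, h43] at h
          · simp only [gstep, hm, h42, hg0, h43, Bool.false_eq_true, Bool.true_eq_false, if_false,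
              Option.map_some, Pos.out, Option.some.injEq] at h
            subst h
            rw [blkA_embL P D.w i j l hg, blkA_embL' P D.w i j l (by omega)]
            apply lreach_lift hP
            rw [hb]
            have e : 84 - (g - 1) = (84 - g) + 1 := by omega
            rw [e]
            exact loc0_L hP hD hm' (by omega) (by omega) (by omega) hk hz

private theorem blkA_strip (hP : P.Ok) {k t : ℕ} (hk : k < P.N) :
    (P.base t + k - P.H0) / P.Hs = t := by
  have h1 := hP.hHs P.cE (by simp)
  have h2 : k < P.Hs := by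
    have : P.N ≤ P.Hs := by
      have : P.N + 20 ≤ P.Hs := le_trans (Nat.le_add_right _ _) h1
      omega
    omega
  unfold Par.base
  have e : P.H0 + t * P.Hs + k - P.H0 = k + t * P.Hs := by omega
  rw [e, Nat.add_mul_div_right _ _ (by omega), Nat.div_eq_of_lt h2, zero_add]

private theorem blkA_lt (hP : P.Ok) {k t : ℕ} (hk : k < P.N) (ht : t ≤ 84) :
    6 * (P.base t + k) < P.K := by
  have h1 := hP.hHs P.cE (by simp)
  have h2 : P.N + 20 ≤ P.Hs := le_trans (Nat.le_add_right _ _) h1
  have h3 := hP.hQQ P.cE (by simp)
  have h4 : P.H0 + 86 * P.Hs + 100 ≤ P.QQ := by omega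
  unfold Par.base Par.K
  have h5 : t * P.Hs ≤ 84 * P.Hs := Nat.mul_le_mul_right _ ht
  omega

theorem blk0_die (hP : P.Ok) (hD : D.Ok) (hN : Next P D D') (hs : p.s.Ok D'.w)
    (hb : P.arr p.i p.j = false) (h : nxt D' P.arr p = none) :
    Dies D P.arr (P.emb D.w p) := by
  obtain ⟨i, j, s⟩ := p
  simp only at hs hb
  unfold nxt at h
  simp only [hb] at h
  cases s with
  | T l =>
    have hl : l < D'.w := hs
    obtain ⟨-, hk, hz⟩ := blkA_k hN hl
    cases hm : D'.mort with
    | true => simp [gstep, hm] at h
    | false =>
      rw [blkA_embT]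
      apply ldies_lift hP
      rw [hb]
      exact loc0_T_dead hP hD (by rw [← hN.hm]; exact hm) hk hz
  | L g l =>
    obtain ⟨hg, hl⟩ : g ≤ 84 ∧ l < D'.w := hs
    obtain ⟨-, hk, hz⟩ := blkA_k hN hl
    by_cases h42 : g = 42
    · subst h42
      simp [gstep] at h
    · by_cases h43 : g = 43
      · subst h43
        rw [blkA_embL P D.w i j l hg]
        have h6 := stray_L (D := D) (z := l % D.w) (g := 42) hP hD i j
          (i := 6 * (P.base (84 - 43) + (P.N - 1 - l / D.w))) (blkA_lt hP hk (by omega)) hz
          (by omega) (by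
            rintro ⟨-, -, h7⟩
            rw [Nat.mul_div_cancel_left _ (by norm_num : 0 < 6), hb] at h7
            have h8 := blkA_strip hP (t := 84 - 43) hk
            rcases h7 with h7 | h7
            · unfold Par.entry at h7
              simp only [Bool.and_eq_true, h8] at h7
              have := h7.2
              simp [entStrip] at this
            · unfold Par.zrow at h7
              simp only [Bool.and_eq_true, h8] at h7
              have := h7.2
              simp at this)
        exact h6
      · cases hm : D'.mort with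
        | true =>
          by_cases hg0 : g = 0
          · subst hg0
            simp [gstep, hm] at h
          · have h9 : ¬ (g = 43 ∨ 84 < g) := by omega
            simp [gstep, hm, h42, hg0, h9] at h
        | false =>
          rw [blkA_embL P D.w i j l hg]
          apply ldies_lift hP
          rw [hb]
          exact loc0_L_dead hP hD (by rw [← hN.hm]; exact hm) (by omega) (by omega) (by omega)
            hk hz

end Pool.Agent.MP_fadef1_lc
end

section

/-! Blocks of type 1: dying lanes. -/

namespace Pool.Agent.MP_fadef1_lc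

variable {P : Par} {D D' : Data} {p q : Pos}

private theorem embC_L (P : Par) (w i j g l : ℕ) (hg : g ≠ 85) : P.emb w ⟨i, j, Lane.L g l⟩ =
    (inL P (84 - g) (P.N - 1 - l / w) (l % w)).sh (i * P.K) (j * P.K) := by
  unfold Par.emb Pos.sh inL
  simp only
  rw [if_neg hg]
  rfl

private theorem embC_Z (P : Par) (w i j l : ℕ) : P.emb w ⟨i, j, Lane.L 85 l⟩ =
    (⟨0, 0, Lane.L 85 0⟩ : Pos).sh (i * P.K) (j * P.K) := rfl

private theorem blkC_lift (hP : P.Ok) {i j : ℕ} (hb : P.arr i j = true)
    (h : LDies P D true p) : Dies D P.arr (p.sh (i * P.K) (j * P.K)) := by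
  apply ldies_lift hP i j
  rw [hb]
  exact h

private theorem blkC_bd {w N l : ℕ} (hN : 1 ≤ N) (hw : 0 < w) (hl : l < N * w) :
    l / w < N ∧ N - 1 - l / w < N ∧ l % w < w ∧ N - 1 - (N - 1 - l / w) = l / w := by
  have h1 : l / w < N := Nat.div_lt_of_lt_mul (by rw [Nat.mul_comm]; exact hl)
  have h2 := Nat.mod_lt l hw
  generalize l / w = a at h1 ⊢
  refine ⟨h1, by omega, h2, by omega⟩

private theorem blkC_stray (hP : P.Ok) (hD : D.Ok) {i j t k z : ℕ} (hb : P.arr i j = true)
    (ht : t ≤ 84) (he : entStrip true t = false) (hk : k < P.N) (hz : z < D.w) :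
    Dies D P.arr ((inL P t k z).sh (i * P.K) (j * P.K)) := by
  obtain ⟨b1, b2, b3, b4⟩ := Ok_bounds hP
  have hHs : k < P.Hs := by omega
  have h84 : t * P.Hs ≤ 84 * P.Hs := Nat.mul_le_mul_right _ ht
  have hA : P.base t + k < P.QQ := by
    unfold Par.base
    omega
  have hi : 6 * (P.base t + k) < P.K := by
    unfold Par.K
    omega
  have h := stray_L hP hD i j hi hz (show (42 : ℕ) ≤ 84 by decide) (by
    rintro ⟨_, _, h1⟩
    rw [hb] at h1
    have e : 6 * (P.base t + k) / 6 = P.base t + k := by omega
    rw [e, entry_strip hP hHs, zrow_strip hP hHs, he, Bool.and_false] at h1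
    rcases h1 with h1 | h1
    · exact absurd h1 (by decide)
    · simp at h1)
  exact h

private theorem entS_true (t : ℕ) (h : t ≠ 42 ∧ t ≠ 39 ∧ t ≠ 36 ∧ t ≠ 27 ∧ t ≠ 18 ∧ t ≠ 9 ∧
    t ≠ 30 ∧ t ≠ 21 ∧ t ≠ 12 ∧ t ≠ 3) : entStrip true t = false := by
  unfold entStrip
  rw [if_pos rfl]
  apply decide_eq_false
  omega

theorem blk1_die (hP : P.Ok) (hD : D.Ok) (hN : Next P D D')
    (hs : p.s.Ok D'.w ∨ p.s = Lane.L 85 0)
    (hb : P.arr p.i p.j = true) (h : nxt D' P.arr p = none) :
    Dies D P.arr (P.emb D.w p) := by
  obtain ⟨i, j, s⟩ := p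
  simp only at hs hb
  unfold nxt at h
  simp only at h
  rw [hb, Option.map_eq_none_iff] at h
  have hN1 := hP.hN
  have hw := hD.1
  cases s with
  | T l =>
    exact absurd h (by simp [gstep])
  | L g l =>
    by_cases hg42 : g = 42
    · subst hg42
      exact absurd h (by simp [gstep])
    · unfold gstep at h
      simp only at h
      rw [if_neg hg42] at h
      by_cases hg85 : g = 85
      · subst hg85
        cases hm : D'.mort with
        | true =>
          rw [hm, if_neg (by decide), if_pos trivial, if_pos rfl] at h
          exact absurd h (by simp)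
        | false =>
          have hm' : (D.mort && D.al) = false := by
            rw [← hN.hm]
            exact hm
          rw [embC_Z]
          exact blkC_lift hP hb (loc1_Z_dead hP hD hm')
      · have hok : g ≤ 84 ∧ l < P.N * D.w := by
          rcases hs with h1 | h1
          · rw [← hN.hw]
            exact h1
          · simp only [Lane.L.injEq] at h1
            exact absurd h1.1 hg85
        obtain ⟨hg84, hl⟩ := hok
        obtain ⟨h1, h2, h3, h4⟩ := blkC_bd hN1 hw hl
        rw [embC_L _ _ _ _ _ _ hg85]
        by_cases hent : entStrip true (84 - g) = false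
        · exact blkC_stray hP hD hb (by omega) hent h2 h3
        · have hent' : ¬ (84 - g ≠ 42 ∧ 84 - g ≠ 39 ∧ 84 - g ≠ 36 ∧ 84 - g ≠ 27 ∧
              84 - g ≠ 18 ∧ 84 - g ≠ 9 ∧ 84 - g ≠ 30 ∧ 84 - g ≠ 21 ∧ 84 - g ≠ 12 ∧
              84 - g ≠ 3) := fun hh => hent (entS_true _ hh)
          by_cases h45 : g = 45
          · subst h45
            refine blkC_lift hP hb (loc1_alive_dead hP hD h2 h3 ?_)
            cases hm : D'.mort with
            | false =>
              left
              rw [← hN.hm]
              exact hm
            | true =>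
              right
              rw [hm, if_neg (by decide), if_pos trivial, if_neg hg85, if_neg (by decide)] at h
              unfold slotStep at h
              rw [if_neg (by decide), if_pos (by decide)] at h
              cases hal : D'.al with
              | true =>
                rw [hal, if_pos rfl] at h
                exact absurd h (by simp)
              | false =>
                intro q hq
                exact hN.hE0 hm hal _ _ q (by omega) h3 hq
          · have hg3 : (g - 43) % 3 = 2 ∧ 5 ≤ g - 43 ∧ g - 43 ≤ 38 ∧
                ((g - 43) / 3 - 1) % 3 ≠ 1 ∧ 43 ≤ g := by omega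
            obtain ⟨c1, c2, c3, c4, c5⟩ := hg3
            have hd4 : ((g - 43) / 3 - 1) / 3 < 4 := by omega
            have hs02 : (((g - 43) / 3 - 1) % 3) / 2 < 2 := by omega
            have e3 : 84 - g = tin (((g - 43) / 3 - 1) / 3) ((((g - 43) / 3 - 1) % 3) / 2) := by
              unfold tin
              split_ifs
              · omega
              · omega
            rw [e3]
            refine blkC_lift hP hb (loc1_pair_dead hP hD hd4 hs02 h2 h3 ?_)
            cases hm : D'.mort with
            | false =>
              left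
              rw [← hN.hm]
              exact hm
            | true =>
              right
              rw [hm, if_neg (by decide), if_pos trivial, if_neg hg85, if_neg (by omega)] at h
              unfold slotStep at h
              rw [if_neg (by omega), if_neg (by omega), if_pos ⟨c3, c4⟩,
                Option.map_eq_none_iff] at h
              intro q hq
              apply hN.hG0 hm _ _ l q hd4 hs02 hl h
              unfold pack
              simp only
              rw [← h4]
              exact hq

end Pool.Agent.MP_fadef1_lc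
end
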