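import Pool.Agent.Lib.MP_fadef1_lc.Mg.G011
import Pool.Agent.Lib.MP_fadef1_lc.Mg.G014
import Pool.Agent.Lib.MP_fadef1_lc.Mg.G012

section

/-! Ring condition: zero rows. -/

namespace Pool.Agent.MP_fadef1_lc

variable {P : Par} {i j bi bj : ℕ}

private theorem rc0a_one (hP : P.Ok) {I J i j bi bj : ℕ} (hi : i < P.K) (hj : j < P.K)
    (hI : I = bi * P.K + i) (hJ : J = bj * P.K + j)
    (h : P.bx (P.arr bi bj) i (j + P.K - i - 1) = true) : P.rk (I, J) = 0 := by
  subst hI hJ
  rw [rk_loc hP hi hj, if_pos h]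

private theorem rc0a_zero (hP : P.Ok) {I J i j bi bj : ℕ} (hi : i < P.K) (hj : j < P.K)
    (hI : I = bi * P.K + i) (hJ : J = bj * P.K + j)
    (h : P.bx (P.arr bi bj) i (j + P.K - i - 1) = false) :
    P.rk (I, J) = P.rkc i j (P.cls (P.arr bi bj) I J i j) := by
  subst hI hJ
  rw [rk_loc hP hi hj, if_neg (by rw [h]; decide)]

private theorem rc0a_arr (hP : P.Ok) {I J i j bi bj : ℕ} (hi : i < P.K) (hj : j < P.K)
    (hI : I = bi * P.K + i) (hJ : J = bj * P.K + j) :
    P.arr I J = P.bx (P.arr bi bj) i (j + P.K - i - 1) := by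
  subst hI hJ
  rw [arr_loc hP bi bj hi hj]
  rfl

/-- cells of a zero row -/
private theorem rc0a_z (hP : P.Ok) {I J A j bi bj : ℕ} (hA : A < P.QQ) (hj : j < P.K)
    (hI : I = bi * P.K + 6 * A) (hJ : J = bj * P.K + j)
    (hz : P.zrow (P.arr bi bj) A = true) : P.arr I J = false ∧
      P.rk (I, J) = 7 * P.K + 10 + 2 * rem data0 P.arr ⟨I, J, Lane.L 42 0⟩ := by
  have hK : P.K = 6 * P.QQ := rfl
  have h6 : 6 * A % 6 = 0 := by omega
  have h6' : 6 * A / 6 = A := by omega
  have hb : P.bx (P.arr bi bj) (6 * A) (j + P.K - 6 * A - 1) = false := by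
    unfold Par.bx
    rw [if_pos h6, h6', if_pos hz]
  have hiK : 6 * A < P.K := by omega
  refine ⟨?_, ?_⟩
  · rw [rc0a_arr hP hiK hj hI hJ, hb]
  · rw [rc0a_zero hP hiK hj hI hJ hb]
    unfold Par.cls
    rw [if_pos h6, h6', if_pos hz]
    simp [Par.rkc]

/-- row phase 1 outside the walls -/
private theorem rc0a_p1 (hP : P.Ok) {I J A j bi bj : ℕ} (hA : A < P.QQ) (hj : j < P.K)
    (hI : I = bi * P.K + 6 * A + 1) (hJ : J = bj * P.K + j)
    (h : (j + P.K - (6 * A + 1) - 1) % 3 ≠ 0) : P.rk (I, J) = 0 := by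
  have hK : P.K = 6 * P.QQ := rfl
  refine rc0a_one hP (i := 6 * A + 1) (j := j) (bi := bi) (bj := bj) (by omega) hj
    (by omega) hJ ?_
  unfold Par.bx
  rw [if_neg (by omega), if_pos (by omega)]
  simp [h]

/-- row phase 1 below a zero row, not in the last column -/
private theorem rc0a_p1j (hP : P.Ok) {I J A j bi bj : ℕ} (hA : A < P.QQ) (hj : j + 1 < P.K)
    (hI : I = bi * P.K + 6 * A + 1) (hJ : J = bj * P.K + j)
    (hW : ∀ c, P.W (P.arr bi bj) A c = false) (ht : (P.ev (P.arr bi bj) A).t = 0) :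
    P.rk (I, J) ≤ 3 * P.K + 1 := by
  have hK : P.K = 6 * P.QQ := rfl
  have h61 : (6 * A + 1) % 6 = 1 := by omega
  have h61' : (6 * A + 1) / 6 = A := by omega
  by_cases h : (j + P.K - (6 * A + 1) - 1) % 3 = 0
  · rw [rc0a_zero hP (i := 6 * A + 1) (j := j) (bi := bi) (bj := bj) (by omega) (by omega)
      (by omega) hJ (by
        unfold Par.bx
        rw [if_neg (by omega), if_pos (by omega)]
        simp [h])]
    unfold Par.cls
    rw [if_neg (by omega), if_pos h61, if_neg (by omega), h61']
    rw [if_neg (by simp [Par.cl, hW]), if_neg (by omega)]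
    simp only [Par.rkc]
    omega
  · rw [rc0a_p1 hP hA (by omega) hI hJ h]
    omega

/-- the border cell -/
private theorem rc0a_bd (hP : P.Ok) {I J A bi bj : ℕ} (hA : A < P.QQ)
    (hI : I = bi * P.K + 6 * A + 1) (hJ : J = bj * P.K + (P.K - 1)) :
    (P.rk (I, J) ≤ 3 * P.K + 1 ∧ P.zrow (P.arr bi bj) A ≠ true) ∨
      P.rk (I, J) = 7 * P.K + 10 + 2 * rem data0 P.arr ⟨I - 1, J + 1, Lane.L 42 0⟩ + 1 := by
  have hK : P.K = 6 * P.QQ := rfl
  have h61 : (6 * A + 1) % 6 = 1 := by omega
  have h61' : (6 * A + 1) / 6 = A := by omega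
  have hj : P.K - 1 < P.K := by omega
  rw [rc0a_zero hP (i := 6 * A + 1) (j := P.K - 1) (bi := bi) (bj := bj) (by omega) hj
      (by omega) hJ (by
        unfold Par.bx
        rw [if_neg (by omega), if_pos (by omega)]
        have : (P.K - 1 + P.K - (6 * A + 1) - 1) % 3 = 0 := by omega
        simp [this])]
  unfold Par.cls
  rw [if_neg (by omega), if_pos h61, if_pos (by omega), h61']
  by_cases h : P.W (P.arr bi bj) A (P.exitc A) = true ∨ P.zrow (P.arr bi bj) A = true
  · rw [if_pos h]
    right
    simp only [Par.rkc]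
  · rw [if_neg h]
    left
    simp only [Par.rkc]
    refine ⟨by omega, ?_⟩
    tauto

/-- the leftmost channel in row phase 5 carries no wire -/
private theorem rc0a_even (hP : P.Ok) (b : Bool) {A : ℕ} (hA1 : 1 ≤ A) (hA : A < P.QQ) :
    P.W' b (A - 1) (P.Q - 2 * A) = false := by
  by_contra hc
  rw [Bool.not_eq_false] at hc
  have hQ : P.Q = 2 * P.QQ := rfl
  have h1 : P.W b (A - 1 + 1) (P.Q - 2 * A) = true := by
    rw [Par.W, ← Par.W', hc]
    rfl
  rw [show A - 1 + 1 = A by omega] at h1
  obtain ⟨A', hA', _, h2⟩ := (near_left hP b (by omega) (by omega)).1 h1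
  unfold Par.entc at h2
  omega

/-- zero rows. `(i,j)`: everything above is `1` (no wires: `W b A` is empty), below are junk cells
and ones, the right neighbour is `1` or has lower rank, the left neighbour is higher. At `j = 0`: left
neighbour in the left block: higher if it is a zero row, else `1`; the cell `(i+1, K-1)` of the left
block is higher if the left block has a zero row or an exit wire at this superband, else lower. At
`j = K-1`: the cell below is the border cell: lower. -/
theorem rc_zrow (hP : P.Ok) (hf : AllFin P) (hi : i < P.K) (hj : j < P.K)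
    (hr : i % 6 = 0) (hz : P.zrow (P.arr bi bj) (i / 6) = true) :
    RC P (bi * P.K + i) (bj * P.K + j) := by
  have hK : P.K = 6 * P.QQ := rfl
  have hK6 := K_pos hP
  obtain ⟨A, rfl⟩ : ∃ A, i = 6 * A := ⟨i / 6, by omega⟩
  have h6 : 6 * A / 6 = A := by omega
  rw [h6] at hz
  have hA : A < P.QQ := by omega
  have hV := va_all hP (P.arr bi bj) A hA
  obtain ⟨hW, hev⟩ := hV.zr hz
  have hAH : 1 ≤ A := by
    unfold Par.zrow at hz
    simp only [Bool.and_eq_true, decide_eq_true_eq] at hz
    have h1 := hz.1.1.2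
    unfold Par.H0 at h1
    omega
  have hzr : ∀ b' : Bool, b' = false → P.zrow b' A = true := by
    intro b' hb'
    subst hb'
    unfold Par.zrow at hz ⊢
    simp only [Bool.and_eq_true, decide_eq_true_eq] at hz ⊢
    exact ⟨⟨⟨rfl, hz.1.1.2⟩, hz.1.2⟩, hz.2⟩
  have hnz : ∀ b' : Bool, b' = true → P.zrow b' A = false := by
    intro b' hb'
    subst hb'
    unfold Par.zrow
    rfl
  -- the rank of the cell
  obtain ⟨ha0, hr0⟩ := rc0a_z hP hA hj rfl rfl hz
  have hrem := rem_L0 hf ha0
  -- row above
  have hup : ∀ J' j', j' < P.K → J' = bj * P.K + j' →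
      P.rk (bi * P.K + 6 * A - 1, J') = 0 := by
    intro J' j' hj' hJ'
    refine rc0a_one hP (i := 6 * A - 1) (j := j') (bi := bi) (bj := bj) (by omega) hj'
      (by omega) hJ' ?_
    unfold Par.bx
    have h5 : (6 * A - 1) % 6 = 5 := by omega
    have h5' : (6 * A - 1) / 6 = A - 1 := by omega
    rw [h5, h5']
    have hW' : ∀ c, P.W' (P.arr bi bj) (A - 1) c = false := by
      intro c
      by_contra hc
      rw [Bool.not_eq_false] at hc
      have h1 : P.W (P.arr bi bj) (A - 1 + 1) c = true := by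
        rw [Par.W, ← Par.W', hc]
        rfl
      rw [show A - 1 + 1 = A by omega, hW c] at h1
      exact absurd h1 (by decide)
    simp [Par.cl4, hW']
  -- row above in a neighbouring block, L cells
  have hupL : ∀ bj' J' j', j' < P.K → J' = bj' * P.K + j' → (j' + P.K - (6 * A - 1) - 1) % 3 ≠ 0 →
      P.rk (bi * P.K + 6 * A - 1, J') = 0 := by
    intro bj' J' j' hj' hJ' h3
    refine rc0a_one hP (i := 6 * A - 1) (j := j') (bi := bi) (bj := bj') (by omega) hj'
      (by omega) hJ' ?_
    unfold Par.bx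
    have h5 : (6 * A - 1) % 6 = 5 := by omega
    rw [h5]
    simp [h3]
  -- up
  have h0 : P.rk (bi * P.K + 6 * A - 1, bj * P.K + j) = 0 := hup _ j hj rfl
  have hs : (bj + 1) * P.K = bj * P.K + P.K := Nat.succ_mul _ _
  have h1 : P.rk (bi * P.K + 6 * A - 1, bj * P.K + j + 1) = 0 := by
    by_cases hj1 : j + 1 < P.K
    · exact hup _ (j + 1) hj1 (by omega)
    · refine rc0a_one hP (i := 6 * A - 1) (j := 0) (bi := bi) (bj := bj + 1) (by omega)
        (by omega) (by omega) (by omega) ?_
      unfold Par.bx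
      have h5 : (6 * A - 1) % 6 = 5 := by omega
      have h5' : (6 * A - 1) / 6 = A - 1 := by omega
      have h5c : (0 + P.K - (6 * A - 1) - 1) / 3 = P.Q - 2 * A := by
        have hQ : P.Q = 2 * P.QQ := rfl
        omega
      rw [h5, h5', h5c]
      simp [Par.cl4, rc0a_even hP _ hAH hA]
  -- right
  have h2 : P.rk (bi * P.K + 6 * A, bj * P.K + j + 1) <
      7 * P.K + 10 + 2 * rem data0 P.arr ⟨bi * P.K + 6 * A, bj * P.K + j, Lane.L 42 0⟩ := by
    by_cases hj1 : j + 1 < P.K
    · obtain ⟨_, h⟩ := rc0a_z hP (J := bj * P.K + j + 1) hA hj1 rfl (by omega) hz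
      omega
    · cases hb : P.arr bi (bj + 1)
      · obtain ⟨_, h⟩ := rc0a_z hP (J := bj * P.K + j + 1) (j := 0) (bj := bj + 1) hA (by omega)
          rfl (by omega) (hzr _ hb)
        omega
      · have : P.rk (bi * P.K + 6 * A, bj * P.K + j + 1) = 0 := by
          refine rc0a_one hP (i := 6 * A) (j := 0) (bi := bi) (bj := bj + 1) (by omega) (by omega)
            (by omega) (by omega) ?_
          unfold Par.bx
          rw [if_pos (by omega), h6, if_neg (by rw [hnz _ hb]; decide), if_neg, if_neg (by omega)]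
          simp only [Bool.and_eq_true, decide_eq_true_eq]
          omega
        omega
  -- below right
  have h3 : P.rk (bi * P.K + 6 * A + 1, bj * P.K + j + 1) <
      7 * P.K + 10 + 2 * rem data0 P.arr ⟨bi * P.K + 6 * A, bj * P.K + j, Lane.L 42 0⟩ := by
    by_cases hj1 : j + 1 < P.K
    · by_cases hj2 : j + 2 < P.K
      · have := rc0a_p1j hP (J := bj * P.K + j + 1) (j := j + 1) (bi := bi) (bj := bj) hA hj2 rfl
          (by omega) hW hev
        omega
      · rcases rc0a_bd hP (J := bj * P.K + j + 1) (bi := bi) (bj := bj) hA rfl (by omega) with h | h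
        · omega
        · rw [h]
          obtain ⟨ha1, _⟩ := rc0a_z hP (J := bj * P.K + j + 1) hA hj1 rfl (by omega) hz
          have hrem1 := rem_L0 hf ha1
          rw [show bi * P.K + 6 * A + 1 - 1 = bi * P.K + 6 * A by omega]
          omega
    · have := rc0a_p1 hP (J := bj * P.K + j + 1) (j := 0) (bi := bi) (bj := bj + 1) hA (by omega) rfl
        (by omega) (by omega)
      omega
  -- below
  have h4 : P.rk (bi * P.K + 6 * A + 1, bj * P.K + j) <
      7 * P.K + 10 + 2 * rem data0 P.arr ⟨bi * P.K + 6 * A, bj * P.K + j, Lane.L 42 0⟩ := by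
    by_cases hj1 : j + 1 < P.K
    · have := rc0a_p1j hP (J := bj * P.K + j) (j := j) (bi := bi) (bj := bj) hA hj1 rfl
          rfl hW hev
      omega
    · rcases rc0a_bd hP (J := bj * P.K + j) (bi := bi) (bj := bj) hA rfl (by omega) with h | h
      · omega
      · rw [h, show bi * P.K + 6 * A + 1 - 1 = bi * P.K + 6 * A by omega]
        omega
  by_cases hj0 : 1 ≤ j
  · -- inside the block
    have h5 : P.rk (bi * P.K + 6 * A + 1, bj * P.K + j - 1) <
        7 * P.K + 10 + 2 * rem data0 P.arr ⟨bi * P.K + 6 * A, bj * P.K + j, Lane.L 42 0⟩ := by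
      have := rc0a_p1j hP (J := bj * P.K + j - 1) (j := j - 1) (bi := bi) (bj := bj) hA
        (by omega) rfl (by omega) hW hev
      omega
    obtain ⟨ha6, h6'⟩ := rc0a_z hP (J := bj * P.K + j - 1) (j := j - 1) (bi := bi) (bj := bj) hA
      (by omega) rfl (by omega) hz
    have hrem6 := rem_L0 hf ha6
    rw [show bj * P.K + j - 1 + 1 = bj * P.K + j by omega] at hrem6
    have h7 : P.rk (bi * P.K + 6 * A - 1, bj * P.K + j - 1) = 0 := hup _ (j - 1) (by omega) (by omega)
    refine rc_mk (by omega) (by omega) ![0, 0, 0, 0, 0, 0, 2, 0] (by decide) (by decide)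
      ?_ ?_ ?_ ?_ ?_ ?_ ?_ ?_
    all_goals
      refine ⟨fun hh => ?_, fun hh => ?_⟩ <;> first
        | exact absurd hh (by decide)
        | (simp only [hr0, h0, h1, h6', h7]; omega)
  · have hj0 : j = 0 := by omega
    subst hj0
    by_cases hbj : 1 ≤ bj
    · -- left block
      obtain ⟨bl, rfl⟩ : ∃ bl, bj = bl + 1 := ⟨bj - 1, by omega⟩
      have hsl : (bl + 1) * P.K = bl * P.K + P.K := Nat.succ_mul _ _
      have h7 : P.rk (bi * P.K + 6 * A - 1, (bl + 1) * P.K + 0 - 1) = 0 :=
        hupL bl _ (P.K - 1) (by omega) (by omega) (by omega)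
      have h5 := rc0a_bd hP (J := (bl + 1) * P.K + 0 - 1) (bi := bi) (bj := bl) hA rfl (by omega)
      rw [show bi * P.K + 6 * A + 1 - 1 = bi * P.K + 6 * A by omega,
        show (bl + 1) * P.K + 0 - 1 + 1 = (bl + 1) * P.K + 0 by omega] at h5
      cases hb : P.arr bi bl
      · obtain ⟨ha6, h6'⟩ := rc0a_z hP (J := (bl + 1) * P.K + 0 - 1) (j := P.K - 1) (bi := bi)
          (bj := bl) hA (by omega) rfl (by omega) (hzr _ hb)
        have hrem6 := rem_L0 hf ha6
        rw [show (bl + 1) * P.K + 0 - 1 + 1 = (bl + 1) * P.K + 0 by omega] at hrem6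
        rcases h5 with ⟨_, h5⟩ | h5
        · exact absurd (hzr _ hb) h5
        refine rc_mk (by omega) (by omega) ![0, 0, 0, 0, 0, 2, 2, 0] (by decide) (by decide)
          ?_ ?_ ?_ ?_ ?_ ?_ ?_ ?_
        all_goals
          refine ⟨fun hh => ?_, fun hh => ?_⟩ <;> first
            | exact absurd hh (by decide)
            | (simp only [hr0, h0, h1, h5, h6', h7]; omega)
      · have h6' : P.rk (bi * P.K + 6 * A, (bl + 1) * P.K + 0 - 1) = 0 := by
          refine rc0a_one hP (i := 6 * A) (j := P.K - 1) (bi := bi) (bj := bl) (by omega) (by omega)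
            (by omega) (by omega) ?_
          unfold Par.bx
          rw [if_pos (by omega), h6, if_neg (by rw [hnz _ hb]; decide), if_neg, if_neg (by omega)]
          simp only [Bool.and_eq_true, decide_eq_true_eq]
          omega
        rcases h5 with ⟨h5, _⟩ | h5
        · refine rc_mk (by omega) (by omega) ![0, 0, 0, 0, 0, 0, 0, 0] (by decide) (by decide)
            ?_ ?_ ?_ ?_ ?_ ?_ ?_ ?_
          all_goals
            refine ⟨fun hh => ?_, fun hh => ?_⟩ <;> first
              | exact absurd hh (by decide)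
              | (simp only [hr0, h0, h1, h6', h7]; omega)
        · refine rc_mk (by omega) (by omega) ![0, 0, 0, 0, 0, 2, 0, 0] (by decide) (by decide)
            ?_ ?_ ?_ ?_ ?_ ?_ ?_ ?_
          all_goals
            refine ⟨fun hh => ?_, fun hh => ?_⟩ <;> first
              | exact absurd hh (by decide)
              | (simp only [hr0, h0, h1, h5, h6', h7]; omega)
    · have hbj : bj = 0 := by omega
      subst hbj
      refine rc_mk_left (by omega) (by omega) ![0, 0, 0, 0, 0, 2, 2, 2] (by decide) (by decide)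
        rfl rfl rfl ?_ ?_ ?_ ?_ ?_
      all_goals
        refine ⟨fun hh => ?_, fun hh => ?_⟩ <;> first
          | exact absurd hh (by decide)
          | (simp only [hr0, h0, h1]; omega)

end Pool.Agent.MP_fadef1_lc
end

section

/-! Ring condition: the border cells. -/

namespace Pool.Agent.MP_fadef1_lc

variable {P : Par} {i j bi bj : ℕ}

private theorem rcb_lo {a b : ℕ} (h : b < a) : cmp 0 a b :=
  ⟨fun _ => h, fun h => absurd h (by decide)⟩

private theorem rcb_hi {a b : ℕ} (h : a < b) : cmp 2 a b :=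
  ⟨fun h => absurd h (by decide), fun _ => h⟩

private theorem rcb_bit (hP : P.Ok) {i j : ℕ} (hi : i < P.K) (hj : j < P.K) :
    P.arr (bi * P.K + i) (bj * P.K + j) = P.bx (P.arr bi bj) i (j + P.K - i - 1) := by
  rw [arr_loc hP _ _ hi hj]
  rfl

private theorem rcb_gb0 (b : Bool) {A x : ℕ} (hx : x % 3 ≠ 0) : P.bx b (6 * A) x = false ↔
    (P.zrow b A = true ∨ (b = true ∧ A = 0 ∧ P.K ≤ x ∧ x ≤ P.K + 41)) := by
  have h1 : 6 * A % 6 = 0 := by omega
  have h2 : 6 * A / 6 = A := by omega
  unfold Par.bx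
  rw [if_pos h1, h2]
  by_cases hz : P.zrow b A = true
  · rw [if_pos hz]
    simp [hz]
  · rw [if_neg hz]
    by_cases hc : (b && decide (6 * A = 0 ∧ P.K ≤ x ∧ x ≤ P.K + 41)) = true
    · rw [if_pos hc]
      rw [Bool.and_eq_true, decide_eq_true_eq] at hc
      constructor
      · intro _
        exact Or.inr ⟨hc.1, by omega, hc.2.2.1, hc.2.2.2⟩
      · intro _
        rfl
    · rw [if_neg hc, if_neg hx]
      constructor
      · intro h
        exact absurd h (by simp)
      · rintro (h | ⟨hb, hA, h3, h4⟩)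
        · exact absurd h hz
        · exfalso
          apply hc
          rw [Bool.and_eq_true, decide_eq_true_eq]
          exact ⟨hb, by omega, h3, h4⟩

/-- the cell in column `K-1` in row phase 1. If the block has an exit wire or a zero row here:
chain cell with state `L 42` at `(i-1, K)`; `(i-1, j-1)` is higher; `(i-1, j)` is higher in the case of
a zero row, else `1`; all others are lower (compare with `(i-1, K)` if the right block has a zero row,
with `(i+1, K)` if it has an entry). Otherwise junk: higher are only `(i-1, K)` (zero row of the right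
block) or `(i+1, K)` (entry of the right block). -/
theorem rc_border (hP : P.Ok) (hf : AllFin P) (hi : i < P.K) (hj : j < P.K)
    (hr : i % 6 = 1) (hj1 : j + 1 = P.K) :
    RC P (bi * P.K + i) (bj * P.K + j) := by
  have hK := K_pos hP
  have hK6 : P.K = 6 * P.QQ := rfl
  have hQ : P.Q = 2 * P.QQ := rfl
  obtain ⟨A, hA⟩ : ∃ A, i = 6 * A + 1 := ⟨i / 6, by omega⟩
  obtain ⟨c, hcx⟩ : ∃ c, c = P.exitc A := ⟨_, rfl⟩
  have hcx' : c = 2 * P.Q - 1 - 2 * A := hcx
  have hAd : i / 6 = A := by omega
  have hAQ : A < P.QQ := by omega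
  have hx : j + P.K - i - 1 = 3 * c := by omega
  generalize hb : P.arr bi bj = b at *
  generalize hb' : P.arr bi (bj + 1) = b' at *
  have hV := va_all hP b A hAQ
  have hV' := va_all hP b' A hAQ
  have hJ : bj * P.K + j + 1 = (bj + 1) * P.K + 0 := by
    rw [Nat.add_mul]; omega
  have hJ2 : bj * P.K + j + 1 + 1 = (bj + 1) * P.K + 1 := by
    rw [Nat.add_mul]; omega
  -- the bits of the neighbours
  have hbit : ∀ i' j' : ℕ, i' < P.K → j' < P.K →
      P.arr (bi * P.K + i') (bj * P.K + j') = P.bx b i' (j' + P.K - i' - 1) := by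
    intro i' j' h1 h2
    rw [rcb_bit hP h1 h2, hb]
  have hbit' : ∀ i' j' : ℕ, i' < P.K → j' < P.K →
      P.arr (bi * P.K + i') ((bj + 1) * P.K + j') = P.bx b' i' (j' + P.K - i' - 1) := by
    intro i' j' h1 h2
    rw [rcb_bit hP h1 h2, hb']
  have hrk : ∀ i' j' : ℕ, i' < P.K → j' < P.K → P.rk (bi * P.K + i', bj * P.K + j') =
      if P.bx b i' (j' + P.K - i' - 1) then 0 else
      P.rkc i' j' (P.cls b (bi * P.K + i') (bj * P.K + j') i' j') := by
    intro i' j' h1 h2
    rw [rk_loc hP h1 h2, hb]
  have hrk' : ∀ i' j' : ℕ, i' < P.K → j' < P.K → P.rk (bi * P.K + i', (bj + 1) * P.K + j') =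
      if P.bx b' i' (j' + P.K - i' - 1) then 0 else
      P.rkc i' j' (P.cls b' (bi * P.K + i') ((bj + 1) * P.K + j') i' j') := by
    intro i' j' h1 h2
    rw [rk_loc hP h1 h2, hb']
  have b1 : ∀ b x, P.bx b i x = !decide (x % 3 = 0) := by
    intro b x
    simp [Par.bx, hr]
  have harr : P.arr (bi * P.K + i) (bj * P.K + j) = false := by
    rw [hbit i j hi hj, b1, hx, decide_eq_true (by omega)]
    rfl
  have hpos : 0 < P.rk (bi * P.K + i, bj * P.K + j) := rk_pos hP harr
  have one : ∀ i' j' : ℕ, P.arr i' j' = true →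
      P.rk (i', j') < P.rk (bi * P.K + i, bj * P.K + j) := by
    intro i' j' h
    rw [rk_one h]
    exact hpos
  -- right and left neighbour
  have n2 : P.arr (bi * P.K + i) (bj * P.K + j + 1) = true := by
    rw [hJ, hbit' i 0 hi (by omega), b1, decide_eq_false (by omega)]
    rfl
  have n2' : P.arr (bi * P.K + i) (bj * P.K + j + 1 + 1) = true := by
    rw [hJ2, hbit' i 1 hi (by omega), b1, decide_eq_false (by omega)]
    rfl
  have n6 : P.arr (bi * P.K + i) (bj * P.K + j - 1) = true := by
    have := hbit i (j - 1) hi (by omega)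
    have e : bj * P.K + (j - 1) = bj * P.K + j - 1 := by omega
    rw [e] at this
    rw [this, b1, decide_eq_false (by omega)]
    rfl
  -- the two cells below
  have hi2 : (i + 1) % 6 = 2 := by omega
  have hi2d : (i + 1) / 6 = A := by omega
  have hsym : sym (P.ev b A) (c - 1) = 0 := by
    by_cases t0 : (P.ev b A).t = 0
    · simp [sym, t0]
    · have hq := (hV.quiet t0).2.2.2.2.2
      have ht := hV.ok.t
      by_cases t1 : (P.ev b A).t = 1
      · have hxy := (hV.ok.t1 t1).2.1
        have hl : lst (P.ev b A) = (P.ev b A).y := by simp [lst, t1]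
        unfold sym
        rw [if_pos t1, if_neg (by omega), if_neg (by omega), if_neg (by omega)]
      · by_cases t2 : (P.ev b A).t = 2
        · have hl : lst (P.ev b A) = (P.ev b A).x + 16 := by simp [lst, t2]
          have hl' : last (P.ev b A) = (P.ev b A).x + 16 := by simp [last, t2]
          unfold sym
          rw [if_neg t1, if_pos (Or.inl t2), if_neg (by omega)]
        · by_cases t3 : (P.ev b A).t = 3
          · have hl : lst (P.ev b A) = (P.ev b A).x + 14 := by simp [lst, t3]
            have hl' : last (P.ev b A) = (P.ev b A).x + 14 := by simp [last, t3]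
            unfold sym
            rw [if_neg t1, if_pos (Or.inr t3), if_neg (by omega)]
          · unfold sym
            rw [if_neg t1, if_neg (by omega)]
  have b2 : ∀ x, (x = 3 * c - 1 ∨ x = 3 * c - 2) → P.bx b (i + 1) x = true := by
    intro x hx'
    unfold Par.bx
    rw [if_neg (by omega), if_neg (by omega), if_pos hi2, hi2d]
    have e : x / 3 = c - 1 := by omega
    rw [e, hsym, if_pos rfl, if_neg (by omega)]
  have n4 : P.arr (bi * P.K + i + 1) (bj * P.K + j) = true := by
    have := hbit (i + 1) j (by omega) hj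
    rw [← Nat.add_assoc] at this
    rw [this]
    exact b2 _ (by omega)
  have n5 : P.arr (bi * P.K + i + 1) (bj * P.K + j - 1) = true := by
    have := hbit (i + 1) (j - 1) (by omega) (by omega)
    have e : bj * P.K + (j - 1) = bj * P.K + j - 1 := by omega
    rw [e, ← Nat.add_assoc] at this
    rw [this]
    exact b2 _ (by omega)
  -- the right block
  obtain ⟨c', hc'⟩ : ∃ c', c' = P.Q - 1 - 2 * A := ⟨_, rfl⟩
  have hx3 : 0 + P.K - (i + 1) - 1 = 3 * c' := by omega
  have hx1 : (0 + P.K - (i - 1) - 1) % 3 ≠ 0 := by omega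
  have hi0 : (i - 1) % 6 = 0 := by omega
  have hi0d : (i - 1) / 6 = A := by omega
  have e0 : bi * P.K + (i - 1) = bi * P.K + i - 1 := by omega
  have ei : bi * P.K + i - 1 + 1 = bi * P.K + i := by omega
  have ei2 : bi * P.K + (i + 1) = bi * P.K + i + 1 := by omega
  have k1 := hrk' (i - 1) 0 (by omega) (by omega)
  have k3 := hrk' (i + 1) 0 (by omega) (by omega)
  have hb1 := hbit' (i - 1) 0 (by omega) (by omega)
  have hb3 := hbit' (i + 1) 0 (by omega) (by omega)
  rw [e0, ← hJ] at k1 hb1
  rw [ei2, ← hJ] at k3 hb3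
  rw [hx3] at k3 hb3
  -- up-right
  have hur1 : P.zrow b' A = true →
      P.rk (bi * P.K + i - 1, bj * P.K + j + 1) =
        7 * P.K + 10 + 2 * rem data0 P.arr ⟨bi * P.K + i - 1, bj * P.K + j + 1, Lane.L 42 0⟩ := by
    intro hz
    have e1 : P.bx b' (i - 1) (0 + P.K - (i - 1) - 1) = false := by
      unfold Par.bx
      rw [if_pos hi0, hi0d, if_pos hz]
    have e2 : P.cls b' (bi * P.K + i - 1) (bj * P.K + j + 1) (i - 1) 0 =
        Cl.s ⟨bi * P.K + i - 1, bj * P.K + j + 1, Lane.L 42 0⟩ 0 := by
      unfold Par.cls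
      rw [if_pos hi0, hi0d, if_pos hz]
    rw [k1, e1, e2]
    rfl
  have hur2 : ¬ P.zrow b' A = true →
      P.arr (bi * P.K + i - 1) (bj * P.K + j + 1) = true := by
    intro hz
    rw [hb1]
    have e : i - 1 = 6 * A := by omega
    rw [e] at hx1 ⊢
    by_contra hne
    have hne' : P.bx b' (6 * A) (0 + P.K - 6 * A - 1) = false := by simpa using hne
    rw [rcb_gb0 _ hx1] at hne'
    rcases hne' with h | ⟨h1, h2, h3, h4⟩
    · exact hz h
    · omega
  -- down-right
  have hcls3 : P.cls b' (bi * P.K + i + 1) (bj * P.K + j + 1) (i + 1) 0 =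
      Cl.s ⟨bi * P.K + i + 1, bj * P.K + j + 1 + 1, Lane.T 0⟩ 1 := by
    unfold Par.cls
    rw [if_neg (by omega), if_neg (by omega), if_pos hi2, hi2d, hx3]
    by_cases t0 : (P.ev b' A).t = 0
    · rw [if_neg (by omega), if_neg (by omega)]
    · have hq := (hV'.quiet t0).2.2.2.2.1
      by_cases t1 : (P.ev b' A).t = 1
      · rw [if_pos t1, if_neg (by omega)]
      · rw [if_neg t1, if_neg (by omega)]
  have hdr1 : P.W b' A c' = false → P.arr (bi * P.K + i + 1) (bj * P.K + j + 1) = true := by
    intro hW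
    rw [hb3]
    have hs : sym (P.ev b' A) c' = 0 := by
      by_cases t0 : (P.ev b' A).t = 0
      · simp [sym, t0]
      · have hq := (hV'.quiet t0).2.2.2.2.1
        by_cases t1 : (P.ev b' A).t = 1
        · have hxy := (hV'.ok.t1 t1).2.1
          unfold sym
          rw [if_pos t1, if_neg (by omega), if_neg (by omega), if_neg (by omega)]
        · by_cases t2 : (P.ev b' A).t = 2 ∨ (P.ev b' A).t = 3
          · unfold sym
            rw [if_neg t1, if_pos t2, if_neg (by omega)]
          · unfold sym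
            rw [if_neg t1, if_neg t2]
    unfold Par.bx
    have e : 3 * c' / 3 = c' := by omega
    rw [if_neg (by omega), if_neg (by omega), if_pos hi2, hi2d, e, hs, if_pos rfl,
      if_pos (by omega)]
    unfold Par.cl
    rw [hW]
    rfl
  have hdr2 : P.arr (bi * P.K + i + 1) (bj * P.K + j + 1) = false →
      P.rk (bi * P.K + i + 1, bj * P.K + j + 1) = 7 * P.K + 10 + 2 * rem data0 P.arr
        ⟨bi * P.K + i + 1, bj * P.K + j + 1 + 1, Lane.T 0⟩ + 1 := by
    intro h
    rw [hb3] at h
    rw [k3, h, hcls3]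
    rfl
  -- the walk from the right block
  have hwalk : ¬ P.zrow b' A = true →
      rem data0 P.arr ⟨bi * P.K + i - 1, bj * P.K + j + 1, Lane.L 42 0⟩ =
        rem data0 P.arr ⟨bi * P.K + i + 1, bj * P.K + j + 1 + 1, Lane.T 0⟩ + 3 := by
    intro hz
    rw [rem_L1 hf (hur2 hz), ei, rem_T1 hf n2, rem_L1 hf n2']
  -- the row above in this block
  have ej1 : bj * P.K + (j - 1) = bj * P.K + j - 1 := by omega
  have ej : bj * P.K + j - 1 + 1 = bj * P.K + j := by omega
  have k0 := hrk (i - 1) j (by omega) hj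
  have k7 := hrk (i - 1) (j - 1) (by omega) (by omega)
  have hb0 := hbit (i - 1) j (by omega) hj
  have hb7 := hbit (i - 1) (j - 1) (by omega) (by omega)
  rw [e0] at k0 k7 hb0 hb7
  rw [ej1] at k7 hb7
  have hx0 : j + P.K - (i - 1) - 1 = 3 * c + 1 := by omega
  have hx7 : j - 1 + P.K - (i - 1) - 1 = 3 * c := by omega
  rw [hx0] at k0 hb0
  rw [hx7] at k7 hb7
  by_cases hzr : P.zrow b A = true
  · -- zero row
    have hcell : P.rk (bi * P.K + i, bj * P.K + j) = 7 * P.K + 10 +
        2 * rem data0 P.arr ⟨bi * P.K + i - 1, bj * P.K + j + 1, Lane.L 42 0⟩ + 1 := by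
      rw [hrk i j hi hj, b1, hx, decide_eq_true (by omega)]
      have : P.cls b (bi * P.K + i) (bj * P.K + j) i j =
          Cl.s ⟨bi * P.K + i - 1, bj * P.K + j + 1, Lane.L 42 0⟩ 1 := by
        unfold Par.cls
        rw [if_neg (by omega), if_pos hr, if_pos hj1, hAd, if_pos (Or.inr hzr)]
      rw [this]
      rfl
    have hbz : ∀ x, P.bx b (i - 1) x = false := by
      intro x
      unfold Par.bx
      rw [if_pos hi0, hi0d, if_pos hzr]
    have hclz : ∀ I' J' j', P.cls b I' J' (i - 1) j' = Cl.s ⟨I', J', Lane.L 42 0⟩ 0 := by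
      intro I' J' j'
      unfold Par.cls
      rw [if_pos hi0, hi0d, if_pos hzr]
    rw [hbz, hclz] at k0 k7
    rw [hbz] at hb0 hb7
    have r0 := rem_L0 hf hb0
    have r7 := rem_L0 hf hb7
    rw [ej] at r7
    have q0 : P.rk (bi * P.K + i - 1, bj * P.K + j) = 7 * P.K + 10 +
        2 * rem data0 P.arr ⟨bi * P.K + i - 1, bj * P.K + j, Lane.L 42 0⟩ + 0 := by
      rw [k0]
      rfl
    have q7 : P.rk (bi * P.K + i - 1, bj * P.K + j - 1) = 7 * P.K + 10 +
        2 * rem data0 P.arr ⟨bi * P.K + i - 1, bj * P.K + j - 1, Lane.L 42 0⟩ + 0 := by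
      rw [k7]
      rfl
    refine rc_mk (by omega) (by omega) ![2, 0, 0, 0, 0, 0, 0, 2] (by decide) (by decide)
      ?_ ?_ ?_ ?_ ?_ ?_ ?_ ?_
    · exact rcb_hi (by rw [hcell, q0]; omega)
    · by_cases hz' : P.zrow b' A = true
      · exact rcb_lo (by rw [hcell, hur1 hz']; omega)
      · exact rcb_lo (one _ _ (hur2 hz'))
    · exact rcb_lo (one _ _ n2)
    · by_cases hd : P.arr (bi * P.K + i + 1) (bj * P.K + j + 1) = true
      · exact rcb_lo (one _ _ hd)
      · have hd' : P.arr (bi * P.K + i + 1) (bj * P.K + j + 1) = false := by simpa using hd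
        have hz' : ¬ P.zrow b' A = true := by
          intro hz'
          exact hd (hdr1 ((hV'.zr hz').1 c'))
        have hw := hwalk hz'
        exact rcb_lo (by rw [hcell, hdr2 hd']; omega)
    · exact rcb_lo (one _ _ n4)
    · exact rcb_lo (one _ _ n5)
    · exact rcb_lo (one _ _ n6)
    · exact rcb_hi (by rw [hcell, q7]; omega)
  · have hbo : P.bx b (i - 1) (3 * c + 1) = true := by
      have e : i - 1 = 6 * A := by omega
      rw [e]
      by_contra hne
      have hne' : P.bx b (6 * A) (3 * c + 1) = false := by simpa using hne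
      rw [rcb_gb0 _ (by omega)] at hne'
      rcases hne' with h | ⟨h1, h2, h3, h4⟩
      · exact hzr h
      · omega
    have hwall : P.bx b (i - 1) (3 * c) = !P.cl b A c := by
      unfold Par.bx
      have e3 : 3 * c / 3 = c := by omega
      rw [if_pos hi0, hi0d, if_neg hzr, if_neg, if_pos (by omega), e3]
      intro h
      rw [Bool.and_eq_true, decide_eq_true_eq] at h
      omega
    rw [hbo] at k0 hb0
    rw [hwall] at k7 hb7
    by_cases hW : P.W b A c = true
    · -- exit wire
      have t0 : (P.ev b A).t = 0 := by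
        by_contra t0
        have := (hV.quiet t0).1
        rw [← hcx, hW] at this
        exact absurd this (by simp)
      have hcl : P.cl b A c = true := by
        unfold Par.cl
        rw [hW]
        simp [isCut, t0]
      have hcell : P.rk (bi * P.K + i, bj * P.K + j) = 7 * P.K + 10 +
          2 * rem data0 P.arr ⟨bi * P.K + i - 1, bj * P.K + j + 1, Lane.L 42 0⟩ + 1 := by
        rw [hrk i j hi hj, b1, hx, decide_eq_true (by omega)]
        have : P.cls b (bi * P.K + i) (bj * P.K + j) i j =
            Cl.s ⟨bi * P.K + i - 1, bj * P.K + j + 1, Lane.L 42 0⟩ 1 := by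
          unfold Par.cls
          rw [if_neg (by omega), if_pos hr, if_pos hj1, hAd, if_pos (Or.inl (by rw [← hcx]; exact hW))]
        rw [this]
        rfl
      have hcl7 : P.cls b (bi * P.K + i - 1) (bj * P.K + j - 1) (i - 1) (j - 1) =
          Cl.s ⟨bi * P.K + i - 1, bj * P.K + j, Lane.T 0⟩ 0 := by
        unfold Par.cls
        rw [if_pos hi0, hi0d, if_neg hzr, if_neg, ej]
        rintro ⟨h1, h2, h3, h4⟩
        omega
      rw [hcl, hcl7] at k7
      have q7 : P.rk (bi * P.K + i - 1, bj * P.K + j - 1) = 7 * P.K + 10 +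
          2 * rem data0 P.arr ⟨bi * P.K + i - 1, bj * P.K + j, Lane.T 0⟩ + 0 := by
        rw [k7]
        rfl
      have r7 := rem_T1 hf hb0
      refine rc_mk (by omega) (by omega) ![0, 0, 0, 0, 0, 0, 0, 2] (by decide) (by decide)
        ?_ ?_ ?_ ?_ ?_ ?_ ?_ ?_
      · exact rcb_lo (one _ _ hb0)
      · by_cases hz' : P.zrow b' A = true
        · exact rcb_lo (by rw [hcell, hur1 hz']; omega)
        · exact rcb_lo (one _ _ (hur2 hz'))
      · exact rcb_lo (one _ _ n2)
      · by_cases hd : P.arr (bi * P.K + i + 1) (bj * P.K + j + 1) = true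
        · exact rcb_lo (one _ _ hd)
        · have hd' : P.arr (bi * P.K + i + 1) (bj * P.K + j + 1) = false := by simpa using hd
          have hz' : ¬ P.zrow b' A = true := by
            intro hz'
            exact hd (hdr1 ((hV'.zr hz').1 c'))
          have hw := hwalk hz'
          exact rcb_lo (by rw [hcell, hdr2 hd']; omega)
      · exact rcb_lo (one _ _ n4)
      · exact rcb_lo (one _ _ n5)
      · exact rcb_lo (one _ _ n6)
      · exact rcb_hi (by rw [hcell, q7]; omega)
    · -- junk
      have hcell : P.rk (bi * P.K + i, bj * P.K + j) = 1 + (3 * P.K - (i + 2 * j)) := by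
        rw [hrk i j hi hj, b1, hx, decide_eq_true (by omega)]
        have : P.cls b (bi * P.K + i) (bj * P.K + j) i j = Cl.j := by
          unfold Par.cls
          rw [if_neg (by omega), if_pos hr, if_pos hj1, hAd, if_neg]
          rw [← hcx]
          rintro (h | h)
          · exact hW h
          · exact hzr h
        rw [this]
        rfl
      have n7 : P.arr (bi * P.K + i - 1) (bj * P.K + j - 1) = true := by
        have hW' : P.W b A c = false := by simpa using hW
        rw [hb7]
        unfold Par.cl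
        rw [hW']
        rfl
      by_cases hz' : P.zrow b' A = true
      · have hd := hdr1 ((hV'.zr hz').1 c')
        refine rc_mk (by omega) (by omega) ![0, 2, 0, 0, 0, 0, 0, 0] (by decide) (by decide)
          ?_ ?_ ?_ ?_ ?_ ?_ ?_ ?_
        · exact rcb_lo (one _ _ hb0)
        · exact rcb_hi (by rw [hcell, hur1 hz']; omega)
        · exact rcb_lo (one _ _ n2)
        · exact rcb_lo (one _ _ hd)
        · exact rcb_lo (one _ _ n4)
        · exact rcb_lo (one _ _ n5)
        · exact rcb_lo (one _ _ n6)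
        · exact rcb_lo (one _ _ n7)
      · by_cases hd : P.arr (bi * P.K + i + 1) (bj * P.K + j + 1) = true
        · refine rc_mk (by omega) (by omega) ![0, 0, 0, 0, 0, 0, 0, 0] (by decide) (by decide)
            ?_ ?_ ?_ ?_ ?_ ?_ ?_ ?_
          · exact rcb_lo (one _ _ hb0)
          · exact rcb_lo (one _ _ (hur2 hz'))
          · exact rcb_lo (one _ _ n2)
          · exact rcb_lo (one _ _ hd)
          · exact rcb_lo (one _ _ n4)
          · exact rcb_lo (one _ _ n5)
          · exact rcb_lo (one _ _ n6)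
          · exact rcb_lo (one _ _ n7)
        · have hd' : P.arr (bi * P.K + i + 1) (bj * P.K + j + 1) = false := by simpa using hd
          refine rc_mk (by omega) (by omega) ![0, 0, 0, 2, 0, 0, 0, 0] (by decide) (by decide)
            ?_ ?_ ?_ ?_ ?_ ?_ ?_ ?_
          · exact rcb_lo (one _ _ hb0)
          · exact rcb_lo (one _ _ (hur2 hz'))
          · exact rcb_lo (one _ _ n2)
          · exact rcb_hi (by rw [hcell, hdr2 hd']; omega)
          · exact rcb_lo (one _ _ n4)
          · exact rcb_lo (one _ _ n5)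
          · exact rcb_lo (one _ _ n6)
          · exact rcb_lo (one _ _ n7)

end Pool.Agent.MP_fadef1_lc
end
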