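import Pool.Agent.Lib.MP_fadef1_lc.Mg.G014
import Pool.Agent.Lib.MP_fadef1_lc.Mg.G012

section

/-! Ring condition: pillars. -/

namespace Pool.Agent.MP_fadef1_lc

variable {P : Par} {i j bi bj : ℕ}

private theorem rp_num {W : ℕ → Bool} {e : Ev} (hok : EvOk W e) (ht : e.t = 2 ∨ e.t = 3) :
    e.x + 3 ≤ trig e ∧ trig e + 1 ≤ last e ∧ trig e + 1 ≤ lst e ∧ trig e + 1 ≤ s1 e ∧
    s0 e + 1 ≤ trig e ∧ trig e ≤ s0 e + 13 ∧ W (trig e + 1) = false := by
  rcases ht with ht | ht
  · obtain ⟨hy, h1, h2, h3⟩ := hok.t2 ht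
    have e1 : trig e = e.x + 12 - 3 * e.y := by simp [trig, ht]
    have e2 : last e = e.x + 16 := by simp [last, ht]
    have e3 : lst e = e.x + 16 := by simp [lst, ht]
    have e4 : s1 e = if e.y % 2 = 0 then e.x + 16 else e.x + 14 := by simp [s1, ht]
    have e5 : s0 e = if e.y % 2 = 1 then e.x + 2 else e.x := by simp [s0, ht]
    refine ⟨by omega, by omega, by omega, ?_, ?_, ?_, ?_⟩
    · rw [e4]; split_ifs <;> omega
    · rw [e5]; split_ifs <;> omega
    · rw [e5]; split_ifs <;> omega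
    · by_contra hW
      rw [Bool.not_eq_false] at hW
      have := h3 _ hW (by omega) (by omega)
      omega
  · obtain ⟨h1, h3⟩ := hok.t3 ht
    have e1 : trig e = e.x + 13 := by simp [trig, ht]
    have e2 : last e = e.x + 14 := by simp [last, ht]
    have e3 : lst e = e.x + 14 := by simp [lst, ht]
    have e4 : s1 e = e.x + 14 := by simp [s1, ht]
    have e5 : s0 e = e.x := by simp [s0, ht]
    refine ⟨by omega, by omega, by omega, by omega, by omega, by omega, ?_⟩
    by_contra hW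
    rw [Bool.not_eq_false] at hW
    have := h3 _ hW (by omega)
    omega

/-- pillar above the trigger cell of a gate: `(i+1, j-1)` is higher, `(i+1, j)` is the trigger
(`1`), `(i+1, j+1)` is lower (`rem_trig`), the rest is `1`. -/
theorem rc_pillar (hP : P.Ok) (hf : AllFin P) (hi : i < P.K) (hj : j < P.K)
    (hr : i % 6 = 1) (ht : (P.ev (P.arr bi bj) (i / 6)).t = 2 ∨ (P.ev (P.arr bi bj) (i / 6)).t = 3)
    (hk : (j + P.K - i - 1) = 3 * (trig (P.ev (P.arr bi bj) (i / 6)) + 1)) :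
    RC P (bi * P.K + i) (bj * P.K + j) := by
  have hK : P.K = 6 * P.QQ := rfl
  have hQ : P.Q = 2 * P.QQ := rfl
  obtain ⟨A, rfl⟩ : ∃ A, i = 6 * A + 1 := ⟨i / 6, by omega⟩
  have hA : (6 * A + 1) / 6 = A := by omega
  have hA' : (6 * A + 2) / 6 = A := by omega
  rw [hA] at ht hk
  have hva := va_all hP (P.arr bi bj) A (by omega)
  obtain ⟨-, q2, q3, q4, q5, q6⟩ := hva.quiet (by omega)
  obtain ⟨n1, n2, n3, n4, n5, n6, n7⟩ := rp_num hva.ok ht
  have hzr : P.zrow (P.arr bi bj) A = false := by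
    by_contra h
    rw [Bool.not_eq_false] at h
    have := (hva.zr h).2
    omega
  have harr : ∀ i' j', i' < P.K → j' < P.K →
      P.arr (bi * P.K + i') (bj * P.K + j') = P.bx (P.arr bi bj) i' (j' + P.K - i' - 1) :=
    fun i' j' h1 h2 => arr_loc hP bi bj h1 h2
  -- positions
  have hj1 : 1 ≤ j := by omega
  have hj2 : j + 1 < P.K := by omega
  have eI : bi * P.K + (6 * A + 1) - 1 = bi * P.K + 6 * A := by omega
  have eJ : bj * P.K + j - 1 = bj * P.K + (j - 1) := by omega
  -- the ones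
  have e6 : (6 * A) % 6 = 0 := by omega
  have e6' : (6 * A) / 6 = A := by omega
  have r0 : ∀ x, x % 3 ≠ 0 → P.bx (P.arr bi bj) (6 * A) x = true := by
    intro x hx
    unfold Par.bx
    rw [if_pos e6, e6', hzr, if_neg (by simp), if_neg (by
      rw [Bool.and_eq_true, decide_eq_true_eq]
      rintro ⟨_, h, _⟩
      omega), if_neg hx]
  have a0 : P.arr (bi * P.K + 6 * A) (bj * P.K + j) = true := by
    rw [harr _ _ (by omega) (by omega)]
    exact r0 _ (by omega)
  have a1 : P.arr (bi * P.K + 6 * A) (bj * P.K + (j + 1)) = true := by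
    rw [harr _ _ (by omega) (by omega)]
    exact r0 _ (by omega)
  have a7 : P.arr (bi * P.K + 6 * A) (bj * P.K + (j - 1)) = true := by
    rw [harr _ _ (by omega) (by omega)]
    have hx : j - 1 + P.K - 6 * A - 1 = 3 * (trig (P.ev (P.arr bi bj) A) + 1) := by omega
    rw [hx]
    unfold Par.bx
    rw [if_pos e6, e6', hzr, if_neg (by simp), if_neg (by
      rw [Bool.and_eq_true, decide_eq_true_eq]
      rintro ⟨_, h, _⟩
      omega), if_pos (by omega)]
    rw [Nat.mul_div_cancel_left _ (by norm_num : 0 < 3)]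
    simp [Par.cl, n7]
  have a2 : P.arr (bi * P.K + (6 * A + 1)) (bj * P.K + (j + 1)) = true := by
    rw [harr _ _ (by omega) (by omega)]
    unfold Par.bx
    rw [if_neg (by omega), if_pos (by omega)]
    simp
    omega
  have a6 : P.arr (bi * P.K + (6 * A + 1)) (bj * P.K + (j - 1)) = true := by
    rw [harr _ _ (by omega) (by omega)]
    unfold Par.bx
    rw [if_neg (by omega), if_pos (by omega)]
    simp
    omega
  -- the symbols
  have sy1 : sym (P.ev (P.arr bi bj) A) (trig (P.ev (P.arr bi bj) A)) = 3 := by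
    unfold sym
    rw [if_neg (by omega), if_pos ht, if_pos (by omega), if_pos rfl]
  have sy2 : sym (P.ev (P.arr bi bj) A) (trig (P.ev (P.arr bi bj) A) + 1) = 2 := by
    unfold sym
    rw [if_neg (by omega), if_pos ht, if_pos (by omega), if_neg (by omega)]
  have bx2 : ∀ x c, x / 3 = c → P.bx (P.arr bi bj) (6 * A + 2) x =
      (if sym (P.ev (P.arr bi bj) A) c = 0 then
        (if x % 3 = 0 then !P.cl (P.arr bi bj) A c else true)
      else if sym (P.ev (P.arr bi bj) A) c = 1 then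
        (if x % 3 = 0 then !P.cl (P.arr bi bj) A c else decide (x % 3 = 1))
      else if sym (P.ev (P.arr bi bj) A) c = 2 then false
      else decide (x % 3 = 2)) := by
    intro x c hc
    unfold Par.bx
    rw [if_neg (by omega), if_neg (by omega), if_pos (by omega), hA', hc]
  have a4 : P.arr (bi * P.K + (6 * A + 2)) (bj * P.K + j) = true := by
    rw [harr _ _ (by omega) (by omega), bx2 _ (trig (P.ev (P.arr bi bj) A)) (by omega), sy1]
    simp
    omega
  have a3 : P.bx (P.arr bi bj) (6 * A + 2) (j + 1 + P.K - (6 * A + 2) - 1) = false := by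
    rw [bx2 _ (trig (P.ev (P.arr bi bj) A) + 1) (by omega), sy2]
    simp
  have a5 : P.bx (P.arr bi bj) (6 * A + 2) (j - 1 + P.K - (6 * A + 2) - 1) = false := by
    rw [bx2 _ (trig (P.ev (P.arr bi bj) A)) (by omega), sy1]
    simp
    omega
  have a8 : P.bx (P.arr bi bj) (6 * A + 1) (j + P.K - (6 * A + 1) - 1) = false := by
    unfold Par.bx
    rw [if_neg (by omega), if_pos (by omega)]
    simp
    omega
  -- the classes
  have c8 : P.cls (P.arr bi bj) (bi * P.K + (6 * A + 1)) (bj * P.K + j) (6 * A + 1) j =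
      Cl.s ⟨bi * P.K + (6 * A + 1) + 1, bj * P.K + j,
        Lane.L (trL (P.ev (P.arr bi bj) A)) 0⟩ 0 := by
    unfold Par.cls
    have hx : (j + P.K - (6 * A + 1) - 1) / 3 = trig (P.ev (P.arr bi bj) A) + 1 := by omega
    rw [if_neg (by omega), if_pos (by omega), if_neg (by omega), hA, hx,
      if_neg (by simp [Par.cl, n7]), if_pos ⟨ht, rfl⟩]
  have c3 : P.cls (P.arr bi bj) (bi * P.K + (6 * A + 2)) (bj * P.K + (j + 1)) (6 * A + 2)
      (j + 1) = Cl.s ⟨bi * P.K + (6 * A + 2), bj * P.K + (j + 1),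
        Lane.L (3 * s1 (P.ev (P.arr bi bj) A) + 2 -
          (3 * trig (P.ev (P.arr bi bj) A) + 3)) 0⟩ 0 := by
    unfold Par.cls
    have hx : j + 1 + P.K - (6 * A + 2) - 1 = 3 * trig (P.ev (P.arr bi bj) A) + 3 := by omega
    rw [if_neg (by omega), if_neg (by omega), if_pos (by omega), hA', hx,
      if_neg (by omega), if_pos ⟨ht, by omega, by omega⟩, if_neg (by omega), if_neg (by omega),
      if_neg (by omega), if_neg (by omega), if_pos (by omega)]
  have c5 : P.cls (P.arr bi bj) (bi * P.K + (6 * A + 2)) (bj * P.K + (j - 1)) (6 * A + 2)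
      (j - 1) = Cl.s ⟨bi * P.K + (6 * A + 2), bj * P.K + (j - 1),
        Lane.L (85 - (3 * trig (P.ev (P.arr bi bj) A) + 1 -
          (3 * s0 (P.ev (P.arr bi bj) A) + 1))) 0⟩ 0 := by
    unfold Par.cls
    have hx : j - 1 + P.K - (6 * A + 2) - 1 = 3 * trig (P.ev (P.arr bi bj) A) + 1 := by omega
    rw [if_neg (by omega), if_neg (by omega), if_pos (by omega), hA', hx,
      if_neg (by omega), if_pos ⟨ht, by omega, by omega⟩, if_neg (by omega), if_neg (by omega),
      if_neg (by omega), if_pos (by omega)]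
  -- the ranks
  have k8 := rk_loc hP (bi := bi) (bj := bj) (i := 6 * A + 1) (j := j) hi hj
  rw [a8, c8] at k8
  have k3 := rk_loc hP (bi := bi) (bj := bj) (i := 6 * A + 2) (j := j + 1) (by omega) (by omega)
  rw [a3, c3] at k3
  have k5 := rk_loc hP (bi := bi) (bj := bj) (i := 6 * A + 2) (j := j - 1) (by omega) (by omega)
  rw [a5, c5] at k5
  simp only [Par.rkc, Bool.false_eq_true, if_false] at k8 k3 k5
  have t1 := rem_trig hf (I := bi * P.K + (6 * A + 2)) (J := bj * P.K + j)
    (e := P.ev (P.arr bi bj) A) a4 (by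
      rcases ht with h | h
      · exact Or.inl ⟨h, (hva.ok.t2 h).1⟩
      · exact Or.inr h)
  have a5' : P.arr (bi * P.K + (6 * A + 2)) (bj * P.K + (j - 1)) = false := by
    rw [harr _ _ (by omega) (by omega)]
    exact a5
  have t2 := rem_Lg hf (I := bi * P.K + (6 * A + 2)) (J := bj * P.K + (j - 1))
    (g := 85 - (3 * trig (P.ev (P.arr bi bj) A) + 1 - (3 * s0 (P.ev (P.arr bi bj) A) + 1)))
    a5' (by omega) (by omega) (by omega) (by omega)
  have eg : 85 - (3 * trig (P.ev (P.arr bi bj) A) + 1 - (3 * s0 (P.ev (P.arr bi bj) A) + 1)) - 1 =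
      trL (P.ev (P.arr bi bj) A) := by
    unfold trL
    omega
  have eJ2 : bj * P.K + (j - 1) + 1 = bj * P.K + j := by omega
  rw [eg, eJ2] at t2
  have eI2 : bi * P.K + (6 * A + 1) + 1 = bi * P.K + (6 * A + 2) := by omega
  rw [eI2] at k8
  have eJ3 : bj * P.K + j + 1 = bj * P.K + (j + 1) := by omega
  rw [eJ3] at t1
  refine rc_mk (by omega) (by omega) ![0, 0, 0, 0, 0, 2, 0, 0] (by decide) (by decide)
    ?_ ?_ ?_ ?_ ?_ ?_ ?_ ?_
  · rw [eI, rk_one a0, k8]
    exact ⟨fun _ => by omega, fun h => absurd h (by decide)⟩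
  · rw [eI, eJ3, rk_one a1, k8]
    exact ⟨fun _ => by omega, fun h => absurd h (by decide)⟩
  · rw [eJ3, rk_one a2, k8]
    exact ⟨fun _ => by omega, fun h => absurd h (by decide)⟩
  · rw [eI2, eJ3, k3, k8]
    exact ⟨fun _ => by omega, fun h => absurd h (by decide)⟩
  · rw [eI2, rk_one a4, k8]
    exact ⟨fun _ => by omega, fun h => absurd h (by decide)⟩
  · rw [eI2, eJ, k5, k8]
    exact ⟨fun h => absurd h (by decide), fun _ => by omega⟩
  · rw [eJ, rk_one a6, k8]
    exact ⟨fun _ => by omega, fun h => absurd h (by decide)⟩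
  · rw [eI, eJ, rk_one a7, k8]
    exact ⟨fun _ => by omega, fun h => absurd h (by decide)⟩

end Pool.Agent.MP_fadef1_lc
end

section

/-! Ring condition: runs. -/

namespace Pool.Agent.MP_fadef1_lc

variable {P : Par} {i j bi bj : ℕ}

private theorem rc2b_one (hP : P.Ok) {i' j' : ℕ} (hi : i' < P.K) (hj : j' < P.K)
    (h : P.bx (P.arr bi bj) i' (j' + P.K - i' - 1) = true) :
    P.rk (bi * P.K + i', bj * P.K + j') = 0 := by
  rw [rk_loc hP hi hj, if_pos h]

private theorem rc2b_up (hP : P.Ok) {A j' : ℕ} (hi : 6 * A + 1 < P.K) (hj : j' + 1 < P.K)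
    (ht : (P.ev (P.arr bi bj) A).t = 1)
    (hc : (j' + P.K - (6 * A + 1) - 1) % 3 = 0 →
      P.W (P.arr bi bj) A ((j' + P.K - (6 * A + 1) - 1) / 3) = false) :
    P.rk (bi * P.K + (6 * A + 1), bj * P.K + j') < 7 * P.K + 10 := by
  have hA6 : (6 * A + 1) / 6 = A := by omega
  rw [rk_loc hP hi (by omega)]
  by_cases h0 : (j' + P.K - (6 * A + 1) - 1) % 3 = 0
  · have hW := hc h0
    have hcl : P.cl (P.arr bi bj) A ((j' + P.K - (6 * A + 1) - 1) / 3) = false := by
      unfold Par.cl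
      rw [hW, Bool.false_and]
    split_ifs with h
    · omega
    · unfold Par.cls
      rw [hA6, if_neg (by omega : ¬ (6 * A + 1) % 6 = 0), if_pos (by omega : (6 * A + 1) % 6 = 1),
        if_neg (by omega : ¬ j' + 1 = P.K), hcl, if_neg (by simp),
        if_neg (by rw [ht]; rintro ⟨h1 | h1, -⟩ <;> omega)]
      simp only [Par.rkc]
      omega
  · have h1 : P.bx (P.arr bi bj) (6 * A + 1) (j' + P.K - (6 * A + 1) - 1) = true := by
      unfold Par.bx
      rw [if_neg (by omega : ¬ (6 * A + 1) % 6 = 0), if_pos (by omega : (6 * A + 1) % 6 = 1)]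
      simp [h0]
    rw [if_pos h1]
    omega

private theorem rc2b_isDst {e : Ev} (ht : e.t = 1) (c : ℕ) : isDst e c = decide (c = e.y) := by
  unfold isDst
  rw [if_pos ht]

private theorem rc2b_isNew {e : Ev} (ht : e.t = 1) (c : ℕ) : isNew e c = false := by
  unfold isNew
  rw [if_neg (by omega), if_neg (by omega)]

private theorem rc2b_down (hP : P.Ok) {A j' : ℕ} (hi : 6 * A + 3 < P.K) (hj : j' < P.K)
    (ht : (P.ev (P.arr bi bj) A).t = 1)
    (hW : ∀ c, (P.ev (P.arr bi bj) A).x < c → c < (P.ev (P.arr bi bj) A).y →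
      P.W (P.arr bi bj) A c = false)
    (hc : (j' + P.K - (6 * A + 3) - 1) % 3 = 0 →
      (P.ev (P.arr bi bj) A).x < (j' + P.K - (6 * A + 3) - 1) / 3 ∧
      (j' + P.K - (6 * A + 3) - 1) / 3 < (P.ev (P.arr bi bj) A).y) :
    P.rk (bi * P.K + (6 * A + 3), bj * P.K + j') = 0 := by
  apply rc2b_one hP hi hj
  have hA6 : (6 * A + 3) / 6 = A := by omega
  unfold Par.bx
  rw [if_neg (by omega : ¬ (6 * A + 3) % 6 = 0), if_neg (by omega : ¬ (6 * A + 3) % 6 = 1),
    if_neg (by omega : ¬ (6 * A + 3) % 6 = 2), if_pos (by omega : (6 * A + 3) % 6 = 3), hA6]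
  by_cases h0 : (j' + P.K - (6 * A + 3) - 1) % 3 = 0
  · obtain ⟨h1, h2⟩ := hc h0
    rw [if_pos h0]
    unfold Par.cl3 Par.cl4 Par.W'
    rw [hW _ h1 h2, rc2b_isDst ht, rc2b_isNew ht]
    have h3 : ¬ (j' + P.K - (6 * A + 3) - 1) / 3 = (P.ev (P.arr bi bj) A).y := by omega
    have h4 : ¬ (j' + P.K - (6 * A + 3) - 1) / 3 = (P.ev (P.arr bi bj) A).x := by omega
    simp [h3, h4]
  · rw [if_neg h0]

/-- the wall of the target channel in row phase 3 -/
private theorem rc2b_wall (hP : P.Ok) {A j' : ℕ} (hi : 6 * A + 3 < P.K) (hj : j' < P.K)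
    (ht : (P.ev (P.arr bi bj) A).t = 1)
    (hxy : (P.ev (P.arr bi bj) A).x < (P.ev (P.arr bi bj) A).y)
    (hc : j' + P.K - (6 * A + 3) - 1 = 3 * (P.ev (P.arr bi bj) A).y) :
    P.rk (bi * P.K + (6 * A + 3), bj * P.K + j') = 7 * P.K + 10 +
      2 * rem data0 P.arr ⟨bi * P.K + (6 * A + 3), bj * P.K + j' + 1, Lane.T 0⟩ + 0 := by
  have hA6 : (6 * A + 3) / 6 = A := by omega
  have hbx : P.bx (P.arr bi bj) (6 * A + 3) (j' + P.K - (6 * A + 3) - 1) = false := by
    unfold Par.bx
    rw [if_neg (by omega : ¬ (6 * A + 3) % 6 = 0), if_neg (by omega : ¬ (6 * A + 3) % 6 = 1),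
      if_neg (by omega : ¬ (6 * A + 3) % 6 = 2), if_pos (by omega : (6 * A + 3) % 6 = 3), hA6, hc,
      if_pos (by omega)]
    unfold Par.cl3 Par.cl4 Par.W'
    rw [rc2b_isDst ht, rc2b_isNew ht]
    have h3 : 3 * (P.ev (P.arr bi bj) A).y / 3 = (P.ev (P.arr bi bj) A).y := by omega
    rw [h3]
    simp
  rw [rk_loc hP hi hj, if_neg (by rw [hbx]; simp)]
  unfold Par.cls
  rw [hA6, if_neg (by omega : ¬ (6 * A + 3) % 6 = 0), if_neg (by omega : ¬ (6 * A + 3) % 6 = 1),
    if_neg (by omega : ¬ (6 * A + 3) % 6 = 2), if_pos (by omega : (6 * A + 3) % 6 = 3), hc,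
    if_neg (by omega)]
  rfl

/-- the stub -/
private theorem rc2b_stub (hP : P.Ok) {A j' : ℕ} (hi : 6 * A + 3 < P.K) (hj : j' < P.K)
    (ht : (P.ev (P.arr bi bj) A).t = 1)
    (hc : j' + P.K - (6 * A + 3) - 1 = 3 * (P.ev (P.arr bi bj) A).x) :
    P.rk (bi * P.K + (6 * A + 3), bj * P.K + j') = 7 * P.K + 10 +
      2 * rem data0 P.arr ⟨bi * P.K + (6 * A + 3) - 1, bj * P.K + j' + 1, Lane.L 42 0⟩ + 1 := by
  have hA6 : (6 * A + 3) / 6 = A := by omega
  have hbx : P.bx (P.arr bi bj) (6 * A + 3) (j' + P.K - (6 * A + 3) - 1) = false := by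
    unfold Par.bx
    rw [if_neg (by omega : ¬ (6 * A + 3) % 6 = 0), if_neg (by omega : ¬ (6 * A + 3) % 6 = 1),
      if_neg (by omega : ¬ (6 * A + 3) % 6 = 2), if_pos (by omega : (6 * A + 3) % 6 = 3), hA6, hc,
      if_pos (by omega)]
    unfold Par.cl3
    have h3 : 3 * (P.ev (P.arr bi bj) A).x / 3 = (P.ev (P.arr bi bj) A).x := by omega
    rw [h3, ht]
    simp
  rw [rk_loc hP hi hj, if_neg (by rw [hbx]; simp)]
  unfold Par.cls
  rw [hA6, if_neg (by omega : ¬ (6 * A + 3) % 6 = 0), if_neg (by omega : ¬ (6 * A + 3) % 6 = 1),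
    if_neg (by omega : ¬ (6 * A + 3) % 6 = 2), if_pos (by omega : (6 * A + 3) % 6 = 3), hc,
    if_pos ⟨ht, by omega⟩]
  rfl

private theorem rc2b_bit {b : Bool} {A x : ℕ} (ht : (P.ev b A).t = 1)
    (hxy : (P.ev b A).x < (P.ev b A).y)
    (h1 : 3 * (P.ev b A).x + 2 ≤ x) (h2 : x ≤ 3 * (P.ev b A).y + 1) :
    P.bx b (6 * A + 2) x = false := by
  have hA6 : (6 * A + 2) / 6 = A := by omega
  unfold Par.bx
  rw [if_neg (by omega : ¬ (6 * A + 2) % 6 = 0), if_neg (by omega : ¬ (6 * A + 2) % 6 = 1),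
    if_pos (by omega : (6 * A + 2) % 6 = 2), hA6]
  have hc : x / 3 = (P.ev b A).x ∨ ((P.ev b A).x < x / 3 ∧ x / 3 < (P.ev b A).y) ∨
      x / 3 = (P.ev b A).y := by omega
  rcases hc with hc | hc | hc
  · have hs : sym (P.ev b A) (x / 3) = 1 := by
      unfold sym
      rw [if_pos ht, if_pos hc]
    rw [hs]
    have h3 : x % 3 = 2 := by omega
    simp [h3]
  · have hs : sym (P.ev b A) (x / 3) = 2 := by
      unfold sym
      rw [if_pos ht, if_neg (by omega), if_pos hc]
    rw [hs]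
    simp
  · have hs : sym (P.ev b A) (x / 3) = 3 := by
      unfold sym
      rw [if_pos ht, if_neg (by omega), if_neg (by omega), if_pos hc]
    rw [hs]
    have h3 : x % 3 ≠ 2 := by omega
    simp [h3]

private theorem rc2b_bitL {b : Bool} {A : ℕ} (ht : (P.ev b A).t = 1) :
    P.bx b (6 * A + 2) (3 * (P.ev b A).x + 1) = true := by
  have hA6 : (6 * A + 2) / 6 = A := by omega
  unfold Par.bx
  rw [if_neg (by omega : ¬ (6 * A + 2) % 6 = 0), if_neg (by omega : ¬ (6 * A + 2) % 6 = 1),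
    if_pos (by omega : (6 * A + 2) % 6 = 2), hA6]
  have hs : sym (P.ev b A) ((3 * (P.ev b A).x + 1) / 3) = 1 := by
    unfold sym
    rw [if_pos ht, if_pos (by omega)]
  rw [hs]
  have h3 : (3 * (P.ev b A).x + 1) % 3 = 1 := by omega
  simp [h3]

private theorem rc2b_bitR {b : Bool} {A : ℕ} (ht : (P.ev b A).t = 1)
    (hxy : (P.ev b A).x < (P.ev b A).y) :
    P.bx b (6 * A + 2) (3 * (P.ev b A).y + 2) = true := by
  have hA6 : (6 * A + 2) / 6 = A := by omega
  unfold Par.bx
  rw [if_neg (by omega : ¬ (6 * A + 2) % 6 = 0), if_neg (by omega : ¬ (6 * A + 2) % 6 = 1),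
    if_pos (by omega : (6 * A + 2) % 6 = 2), hA6]
  have hs : sym (P.ev b A) ((3 * (P.ev b A).y + 2) / 3) = 3 := by
    unfold sym
    rw [if_pos ht, if_neg (by omega), if_neg (by omega), if_pos (by omega)]
  rw [hs]
  have h3 : (3 * (P.ev b A).y + 2) % 3 = 2 := by omega
  simp [h3]

private theorem rc2b_run (hP : P.Ok) {A j' : ℕ} (hi : 6 * A + 2 < P.K) (hj : j' < P.K)
    (ht : (P.ev (P.arr bi bj) A).t = 1)
    (hxy : (P.ev (P.arr bi bj) A).x < (P.ev (P.arr bi bj) A).y)
    (h1 : 3 * (P.ev (P.arr bi bj) A).x + 2 ≤ j' + P.K - (6 * A + 2) - 1)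
    (h2 : j' + P.K - (6 * A + 2) - 1 ≤ 3 * (P.ev (P.arr bi bj) A).y + 1) :
    P.rk (bi * P.K + (6 * A + 2), bj * P.K + j') = 7 * P.K + 10 +
      2 * rem data0 P.arr ⟨bi * P.K + (6 * A + 2), bj * P.K + j', Lane.L 42 0⟩ + 0 := by
  have hA6 : (6 * A + 2) / 6 = A := by omega
  rw [rk_loc hP hi hj, rc2b_bit ht hxy h1 h2, if_neg (by simp)]
  unfold Par.cls
  rw [hA6, if_neg (by omega : ¬ (6 * A + 2) % 6 = 0), if_neg (by omega : ¬ (6 * A + 2) % 6 = 1),
    if_pos (by omega : (6 * A + 2) % 6 = 2), if_pos ht, if_pos ⟨h1, h2⟩]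
  rfl

/-- cells of a run. Generic: only the left neighbour is higher. First cell (`x = 3 e.x + 2`): the
left neighbour is `1`, the stub `(i+1, j-1)` is higher. The wall of channel `e.y` in row phase 3 is
below the last cell (lower). -/
theorem rc_run (hP : P.Ok) (hf : AllFin P) (hi : i < P.K) (hj : j < P.K)
    (hr : i % 6 = 2) (ht : (P.ev (P.arr bi bj) (i / 6)).t = 1)
    (h1 : 3 * (P.ev (P.arr bi bj) (i / 6)).x + 2 ≤ (j + P.K - i - 1)) (h2 : (j + P.K - i - 1) ≤ 3 * (P.ev (P.arr bi bj) (i / 6)).y + 1) :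
    RC P (bi * P.K + i) (bj * P.K + j) := by
  have hK6 : P.K = 6 * P.QQ := rfl
  have hQ : P.Q = 2 * P.QQ := rfl
  obtain ⟨A, rfl⟩ : ∃ A, i = 6 * A + 2 := ⟨i / 6, by omega⟩
  have hA6 : (6 * A + 2) / 6 = A := by omega
  rw [hA6] at ht h1 h2
  have hA : A < P.QQ := by omega
  have hV := va_all hP (P.arr bi bj) A hA
  obtain ⟨hWx, hxy, hoth⟩ := hV.ok.t1 ht
  obtain ⟨hex, hen, hen1, h4, hlo, hhi⟩ := hV.quiet (by rw [ht]; decide)
  have hlst : lst (P.ev (P.arr bi bj) A) = (P.ev (P.arr bi bj) A).y := by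
    unfold lst; rw [if_pos ht]
  rw [hlst] at hhi
  have hWf : ∀ c, (P.ev (P.arr bi bj) A).x < c → c ≤ (P.ev (P.arr bi bj) A).y + 1 →
      P.W (P.arr bi bj) A c = false := by
    intro c h5 h6
    by_contra h7
    have h8 : P.W (P.arr bi bj) A c = true := by simpa using h7
    rcases hoth c h8 (by omega) with h9 | h9 <;> omega
  have hxy' : (P.ev (P.arr bi bj) A).x < (P.ev (P.arr bi bj) A).y := by omega
  have hj32 : 32 ≤ j := by omega
  have hj20 : j + 20 ≤ P.K := by omega
  -- rewriting of the coordinates of the neighbours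
  have eu : bi * P.K + (6 * A + 2) - 1 = bi * P.K + (6 * A + 1) := by omega
  have ed : bi * P.K + (6 * A + 2) + 1 = bi * P.K + (6 * A + 3) := by omega
  have el : bj * P.K + j - 1 = bj * P.K + (j - 1) := by omega
  have er : bj * P.K + j + 1 = bj * P.K + (j + 1) := by omega
  have hself := rc2b_run hP (bi := bi) (bj := bj) hi hj ht hxy' h1 h2
  have harr : P.arr (bi * P.K + (6 * A + 2)) (bj * P.K + j) = false := by
    rw [arr_loc hP bi bj hi hj]
    exact rc2b_bit ht hxy' h1 h2
  have hrem := rem_L0 hf harr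
  -- upper neighbours
  have up : ∀ j', j' = j - 1 ∨ j' = j ∨ j' = j + 1 →
      P.rk (bi * P.K + (6 * A + 1), bj * P.K + j') < P.rk (bi * P.K + (6 * A + 2), bj * P.K + j) := by
    intro j' hj'
    have h5 := rc2b_up hP (bi := bi) (bj := bj) (A := A) (j' := j') (by omega) (by omega) ht (by
      intro h6
      apply hWf <;> omega)
    omega
  -- right neighbour
  have hright : P.rk (bi * P.K + (6 * A + 2), bj * P.K + (j + 1)) <
      P.rk (bi * P.K + (6 * A + 2), bj * P.K + j) := by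
    by_cases h5 : j + P.K - (6 * A + 2) - 1 = 3 * (P.ev (P.arr bi bj) A).y + 1
    · rw [rc2b_one hP hi (by omega) (by
        have h6 : j + 1 + P.K - (6 * A + 2) - 1 = 3 * (P.ev (P.arr bi bj) A).y + 2 := by omega
        rw [h6]
        exact rc2b_bitR ht hxy')]
      omega
    · have h6 := rc2b_run hP (bi := bi) (bj := bj) (A := A) (j' := j + 1) hi (by omega) ht hxy'
        (by omega) (by omega)
      rw [h6, hself, hrem, er]
      omega
  -- lower neighbours
  have down : ∀ j', (j' = j - 1 ∧ j + P.K - (6 * A + 2) - 1 ≠ 3 * (P.ev (P.arr bi bj) A).x + 2) ∨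
      j' = j ∨ j' = j + 1 → P.rk (bi * P.K + (6 * A + 3), bj * P.K + j') <
        P.rk (bi * P.K + (6 * A + 2), bj * P.K + j) := by
    intro j' hj'
    by_cases h5 : j' + P.K - (6 * A + 3) - 1 = 3 * (P.ev (P.arr bi bj) A).y
    · have h6 := rc2b_wall hP (bi := bi) (bj := bj) (A := A) (j' := j') (by omega) (by omega) ht
        hxy' h5
      rw [h6, hself]
      -- x' = 3 e.y: either j' = j + 1, x = 3 e.y, or j' = j, x = 3 e.y + 1
      have hcase : (j' = j ∧ j + P.K - (6 * A + 2) - 1 = 3 * (P.ev (P.arr bi bj) A).y + 1) ∨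
          (j' = j + 1 ∧ j + P.K - (6 * A + 2) - 1 = 3 * (P.ev (P.arr bi bj) A).y) := by omega
      rcases hcase with ⟨rfl, h7⟩ | ⟨rfl, h7⟩
      · have harr1 : P.arr (bi * P.K + (6 * A + 2)) (bj * P.K + j' + 1) = true := by
          rw [er, arr_loc hP bi bj hi (by omega)]
          have h8 : j' + 1 + P.K - (6 * A + 2) - 1 = 3 * (P.ev (P.arr bi bj) A).y + 2 := by omega
          change P.bx _ _ _ = true
          rw [h8]
          exact rc2b_bitR ht hxy'
        have hrem1 := rem_L1 hf harr1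
        rw [ed] at hrem1
        rw [hrem, hrem1]
        omega
      · have harr1 : P.arr (bi * P.K + (6 * A + 2)) (bj * P.K + j + 1) = false := by
          rw [er, arr_loc hP bi bj hi (by omega)]
          exact rc2b_bit ht hxy' (by omega) (by omega)
        have hrem1 := rem_L0 hf harr1
        have harr2 : P.arr (bi * P.K + (6 * A + 2)) (bj * P.K + j + 1 + 1) = true := by
          have e2 : bj * P.K + j + 1 + 1 = bj * P.K + (j + 2) := by omega
          rw [e2, arr_loc hP bi bj hi (by omega)]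
          have h8 : j + 2 + P.K - (6 * A + 2) - 1 = 3 * (P.ev (P.arr bi bj) A).y + 2 := by omega
          change P.bx _ _ _ = true
          rw [h8]
          exact rc2b_bitR ht hxy'
        have hrem2 := rem_L1 hf harr2
        rw [ed] at hrem2
        have e3 : bj * P.K + (j + 1) + 1 = bj * P.K + j + 1 + 1 := by omega
        rw [hrem, hrem1, hrem2, e3]
        omega
    · have h6 := rc2b_down hP (bi := bi) (bj := bj) (A := A) (j' := j') (by omega) (by omega) ht
        (fun c h7 h8 => hWf c h7 (by omega)) (by intro h7; omega)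
      rw [h6, hself]
      omega
  have hup := up
  by_cases hfirst : j + P.K - (6 * A + 2) - 1 = 3 * (P.ev (P.arr bi bj) A).x + 2
  · -- first cell
    refine rc_mk (by omega) (by omega) ![0, 0, 0, 0, 0, 2, 0, 0] (by decide) (by decide)
      ?_ ?_ ?_ ?_ ?_ ?_ ?_ ?_
    · refine ⟨fun _ => ?_, fun h => absurd h (by decide)⟩
      rw [eu]; exact up j (by omega)
    · refine ⟨fun _ => ?_, fun h => absurd h (by decide)⟩
      rw [eu, er]; exact up (j + 1) (by omega)
    · refine ⟨fun _ => ?_, fun h => absurd h (by decide)⟩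
      rw [er]; exact hright
    · refine ⟨fun _ => ?_, fun h => absurd h (by decide)⟩
      rw [ed, er]; exact down (j + 1) (by omega)
    · refine ⟨fun _ => ?_, fun h => absurd h (by decide)⟩
      rw [ed]; exact down j (by omega)
    · refine ⟨fun h => absurd h (by decide), fun _ => ?_⟩
      rw [ed, el]
      have h6 := rc2b_stub hP (bi := bi) (bj := bj) (A := A) (j' := j - 1) (by omega) (by omega) ht
        (by omega)
      have e4 : bi * P.K + (6 * A + 3) - 1 = bi * P.K + (6 * A + 2) := by omega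
      have e5 : bj * P.K + (j - 1) + 1 = bj * P.K + j := by omega
      rw [h6, hself, e4, e5]
      omega
    · refine ⟨fun _ => ?_, fun h => absurd h (by decide)⟩
      rw [el]
      rw [rc2b_one hP hi (by omega) (by
        have h6 : j - 1 + P.K - (6 * A + 2) - 1 = 3 * (P.ev (P.arr bi bj) A).x + 1 := by omega
        rw [h6]
        exact rc2b_bitL ht), hself]
      omega
    · refine ⟨fun _ => ?_, fun h => absurd h (by decide)⟩
      rw [eu, el]; exact up (j - 1) (by omega)
  · refine rc_mk (by omega) (by omega) ![0, 0, 0, 0, 0, 0, 2, 0] (by decide) (by decide)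
      ?_ ?_ ?_ ?_ ?_ ?_ ?_ ?_
    · refine ⟨fun _ => ?_, fun h => absurd h (by decide)⟩
      rw [eu]; exact up j (by omega)
    · refine ⟨fun _ => ?_, fun h => absurd h (by decide)⟩
      rw [eu, er]; exact up (j + 1) (by omega)
    · refine ⟨fun _ => ?_, fun h => absurd h (by decide)⟩
      rw [er]; exact hright
    · refine ⟨fun _ => ?_, fun h => absurd h (by decide)⟩
      rw [ed, er]; exact down (j + 1) (by omega)
    · refine ⟨fun _ => ?_, fun h => absurd h (by decide)⟩
      rw [ed]; exact down j (by omega)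
    · refine ⟨fun _ => ?_, fun h => absurd h (by decide)⟩
      rw [ed, el]; exact down (j - 1) (by omega)
    · refine ⟨fun h => absurd h (by decide), fun _ => ?_⟩
      rw [el]
      have h6 := rc2b_run hP (bi := bi) (bj := bj) (A := A) (j' := j - 1) hi (by omega) ht hxy'
        (by omega) (by omega)
      have harr1 : P.arr (bi * P.K + (6 * A + 2)) (bj * P.K + (j - 1)) = false := by
        rw [arr_loc hP bi bj hi (by omega)]
        exact rc2b_bit ht hxy' (by omega) (by omega)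
      have hrem1 := rem_L0 hf harr1
      have e5 : bj * P.K + (j - 1) + 1 = bj * P.K + j := by omega
      rw [e5] at hrem1
      rw [h6, hself, hrem1]
      omega
    · refine ⟨fun _ => ?_, fun h => absurd h (by decide)⟩
      rw [eu, el]; exact up (j - 1) (by omega)

end Pool.Agent.MP_fadef1_lc
end
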