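import Pool.Agent.Lib.MP_fadef1_lc.Mg.G014
import Pool.Agent.Lib.MP_fadef1_lc.Mg.G012

section

/-! Ring condition: junk on the left of a gate. -/

namespace Pool.Agent.MP_fadef1_lc

variable {P : Par} {i j bi bj : ℕ}

private theorem rc2f_bx1 {b : Bool} {i x : ℕ} (h : i % 6 = 1) :
    P.bx b i x = !decide (x % 3 = 0) := by
  unfold Par.bx
  rw [if_neg (by omega), if_pos h]

private theorem rc2f_bx2 {b : Bool} {i x : ℕ} (h : i % 6 = 2)
    (hs : sym (P.ev b (i / 6)) (x / 3) = 2) : P.bx b i x = false := by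
  unfold Par.bx
  rw [if_neg (by omega), if_neg (by omega), if_pos h, if_neg (by omega), if_neg (by omega),
    if_pos hs]

private theorem rc2f_bx2' {b : Bool} {i x : ℕ} (h : i % 6 = 2)
    (hs : sym (P.ev b (i / 6)) (x / 3) = 0) (hx : x % 3 ≠ 0) : P.bx b i x = true := by
  unfold Par.bx
  rw [if_neg (by omega), if_neg (by omega), if_pos h, if_pos hs, if_neg hx]

private theorem rc2f_bx3 {b : Bool} {i x : ℕ} (h : i % 6 = 3) :
    P.bx b i x = if x % 3 = 0 then !P.cl3 b (i / 6) (x / 3) else true := by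
  unfold Par.bx
  rw [if_neg (by omega), if_neg (by omega), if_neg (by omega), if_pos h]

/-- left junk (`t = 2`, `y` odd): the right neighbour is higher; for `x = 3 s0 - 1` also the wall
`(i-1, j)`, and `(i-1, j+1)` has status `1`; for `x = 3 s0 - 2` also `(i-1, j+1)`; all others are lower
(junk of row phase 1 has lower rank than left junk). -/
theorem rc_gate4 (hP : P.Ok) (hf : AllFin P) (hi : i < P.K) (hj : j < P.K)
    (hr : i % 6 = 2) (ht : (P.ev (P.arr bi bj) (i / 6)).t = 2)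
    (h1 : 3 * (P.ev (P.arr bi bj) (i / 6)).x ≤ (j + P.K - i - 1)) (h2 : (j + P.K - i - 1) < 3 * s0 (P.ev (P.arr bi bj) (i / 6))) :
    RC P (bi * P.K + i) (bj * P.K + j) := by
  have hK6 : P.K = 6 * P.QQ := rfl
  have hQ2 : P.Q = 2 * P.QQ := rfl
  have hK : P.K = 3 * P.Q := by omega
  have hKp := K_pos hP
  obtain ⟨A, hA⟩ : ∃ A, A = i / 6 := ⟨_, rfl⟩
  obtain ⟨b, hb⟩ : ∃ b, b = P.arr bi bj := ⟨_, rfl⟩
  obtain ⟨e, he⟩ : ∃ e, e = P.ev b A := ⟨_, rfl⟩
  rw [← hA, ← hb, ← he] at ht h1 h2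
  have hAQ : A < P.QQ := by omega
  have hV := va_all hP b A hAQ
  have hok := hV.ok
  rw [← he] at hok
  obtain ⟨hy, hx, hx2, hsep⟩ := hok.t2 ht
  obtain ⟨-, -, -, -, hq1, hq2⟩ := hV.quiet (by rw [← he, ht]; decide)
  rw [← he] at hq1 hq2
  have hlst : lst e = e.x + 16 := by
    unfold lst
    rw [if_neg (by omega), if_pos ht]
  have hodd : e.y % 2 = 1 := by
    by_contra hne
    have h3 : s0 e = e.x := by
      unfold s0
      rw [if_neg (by tauto)]
    omega
  have hs0 : s0 e = e.x + 2 := by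
    unfold s0
    rw [if_pos ⟨ht, hodd⟩]
  have htrig : trig e = e.x + 9 ∨ trig e = e.x + 3 := by
    unfold trig
    rw [if_pos ht]
    omega
  have hlast : last e = e.x + 16 := by
    unfold last
    rw [if_pos ht]
  have hWx1 : P.W b A (e.x + 1) = false := by
    by_contra hne
    have h3 := hsep (e.x + 1) (by simpa using hne) (by omega) (by omega)
    omega
  have hcut0 : isCut e e.x = true := by
    unfold isCut
    rw [if_neg (by omega)]
    simp [ht]
  have hcut2 : isCut e (e.x + 2) = false := by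
    unfold isCut
    rw [if_neg (by omega)]
    simp
  have hcl0 : P.cl b A e.x = false := by
    unfold Par.cl
    rw [← he, hcut0]
    simp
  have hcl1 : P.cl b A (e.x + 1) = false := by
    unfold Par.cl
    rw [hWx1]
    simp
  have hcl2 : P.cl b A (e.x + 2) = true := by
    unfold Par.cl
    rw [← he, hcut2, hx2]
    rfl
  have hdst : ∀ c, c ≤ e.x + 1 → isDst e c = false := by
    intro c hc
    unfold isDst
    rw [if_neg (by omega), if_pos ht]
    simp
    omega
  have hsrc : isSrc e e.x = true := by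
    unfold isSrc
    rw [if_neg (by omega), if_pos ht]
    simp
  have hcl30 : P.cl3 b A e.x = false := by
    unfold Par.cl3 Par.cl4 Par.W'
    rw [← he, hsrc, hdst _ (by omega), ht]
    simp
  have hcl31 : P.cl3 b A (e.x + 1) = false := by
    unfold Par.cl3 Par.cl4 Par.W'
    rw [← he, hWx1, hdst _ (by omega), ht]
    simp
  have hsym : ∀ c, e.x ≤ c → c < e.x + 3 → sym e c = 2 := by
    intro c hc hc'
    unfold sym
    rw [if_neg (by omega), if_pos (Or.inl ht), if_pos (by omega), if_neg (by omega)]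
  have hsym' : ∀ c, c < e.x → sym e c = 0 := by
    intro c hc
    unfold sym
    rw [if_neg (by omega), if_pos (Or.inl ht), if_neg (by omega)]
  -- the row of the gate
  have hrow : ∀ j', j' < P.K → 3 * e.x ≤ j' + P.K - i - 1 → j' + P.K - i - 1 < 3 * (e.x + 2) →
      P.rk (bi * P.K + i, bj * P.K + j') = 3 * P.K + 2 + (i + 2 * j') := by
    intro j' hj' h3 h4
    rw [rk_loc hP hi hj', ← hb, rc2f_bx2 hr
      (by rw [← hA, ← he]; exact hsym _ (by omega) (by omega)), if_neg Bool.false_ne_true]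
    unfold Par.cls
    rw [if_neg (by omega), if_neg (by omega), if_pos hr, ← hA, ← he, if_neg (by omega),
      if_pos (by omega), if_pos (by omega)]
    rfl
  have hrow1 : ∀ j', j' < P.K → j' + P.K - i - 1 = 3 * (e.x + 2) →
      7 * P.K + 10 ≤ P.rk (bi * P.K + i, bj * P.K + j') := by
    intro j' hj' h3
    rw [rk_loc hP hi hj', ← hb, rc2f_bx2 hr
      (by rw [← hA, ← he]; exact hsym _ (by omega) (by omega)), if_neg Bool.false_ne_true]
    unfold Par.cls
    rw [if_neg (by omega), if_neg (by omega), if_pos hr, ← hA, ← he, if_neg (by omega),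
      if_pos (by omega), if_neg (by omega), if_pos (by omega)]
    unfold Par.rkc
    simp only
    omega
  have hrow2 : ∀ j', j' < P.K → j' + P.K - i - 1 + 1 = 3 * e.x →
      P.rk (bi * P.K + i, bj * P.K + j') = 0 := by
    intro j' hj' h3
    rw [rk_loc hP hi hj', ← hb, rc2f_bx2' hr
      (by rw [← hA, ← he]; exact hsym' _ (by omega)) (by omega)]
    rfl
  -- the row above
  have hi1 : (i - 1) % 6 = 1 := by omega
  have hA1 : (i - 1) / 6 = A := by omega
  have hup : ∀ j', j' + 1 < P.K → ((j' + P.K - (i - 1) - 1) % 3 = 0 →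
      (j' + P.K - (i - 1) - 1) / 3 = e.x ∨ (j' + P.K - (i - 1) - 1) / 3 = e.x + 1) →
      P.rk (bi * P.K + (i - 1), bj * P.K + j') ≤ 1 + 3 * P.K := by
    intro j' hj' h3
    rw [rk_loc hP (by omega) (by omega), ← hb, rc2f_bx1 hi1]
    by_cases h4 : (j' + P.K - (i - 1) - 1) % 3 = 0
    · rw [decide_eq_true h4, Bool.not_true, if_neg Bool.false_ne_true]
      have h5 : P.cl b A ((j' + P.K - (i - 1) - 1) / 3) = false := by
        rcases h3 h4 with h6 | h6 <;> rw [h6]
        · exact hcl0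
        · exact hcl1
      have h6 := h3 h4
      unfold Par.cls
      rw [if_neg (by omega : ¬ (i - 1) % 6 = 0), if_pos hi1, if_neg (by omega : ¬ j' + 1 = P.K),
        hA1, h5, if_neg Bool.false_ne_true, ← he, if_neg (by omega)]
      unfold Par.rkc
      simp only
      omega
    · rw [decide_eq_false h4]
      simp
  have hup2 : ∀ j', j' + 1 < P.K → j' + P.K - (i - 1) - 1 = 3 * (e.x + 2) →
      7 * P.K + 10 ≤ P.rk (bi * P.K + (i - 1), bj * P.K + j') := by
    intro j' hj' h3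
    have h4 : (j' + P.K - (i - 1) - 1) % 3 = 0 := by omega
    have h5 : (j' + P.K - (i - 1) - 1) / 3 = e.x + 2 := by omega
    rw [rk_loc hP (by omega) (by omega), ← hb, rc2f_bx1 hi1, decide_eq_true h4, Bool.not_true,
      if_neg Bool.false_ne_true]
    unfold Par.cls
    rw [if_neg (by omega : ¬ (i - 1) % 6 = 0), if_pos hi1, if_neg (by omega : ¬ j' + 1 = P.K),
      hA1, h5, hcl2, if_pos rfl]
    unfold Par.rkc
    simp only
    omega
  -- the row below
  have hdn : ∀ j', j' < P.K → ((j' + P.K - (i + 1) - 1) % 3 = 0 →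
      (j' + P.K - (i + 1) - 1) / 3 = e.x ∨ (j' + P.K - (i + 1) - 1) / 3 = e.x + 1) →
      P.rk (bi * P.K + (i + 1), bj * P.K + j') = 0 := by
    intro j' hj' h3
    have hA2 : (i + 1) / 6 = A := by omega
    rw [rk_loc hP (by omega) (by omega), ← hb, rc2f_bx3 (by omega), hA2]
    by_cases h4 : (j' + P.K - (i + 1) - 1) % 3 = 0
    · rw [if_pos h4]
      rcases h3 h4 with h6 | h6 <;> rw [h6]
      · rw [hcl30]
        rfl
      · rw [hcl31]
        rfl
    · rw [if_neg h4]
      rfl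
  have hR := hrow j hj h1 (by omega)
  have hI : bi * P.K + i - 1 = bi * P.K + (i - 1) := by omega
  have hJ : bj * P.K + j - 1 = bj * P.K + (j - 1) := by omega
  have hI' : bi * P.K + i + 1 = bi * P.K + (i + 1) := by omega
  have hJ' : bj * P.K + j + 1 = bj * P.K + (j + 1) := by omega
  have hcm0 : ∀ a c : ℕ, c < a → cmp 0 a c := fun a c h => ⟨fun _ => h, fun h' => by
    exact absurd h' (by decide)⟩
  have hcm2 : ∀ a c : ℕ, a < c → cmp 2 a c := fun a c h => ⟨fun h' => by
    exact absurd h' (by decide), fun _ => h⟩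
  have hcm1 : ∀ a c : ℕ, cmp 1 a c := fun a c => ⟨fun h' => by
    exact absurd h' (by decide), fun h' => by exact absurd h' (by decide)⟩
  have hleft : P.rk (bi * P.K + i, bj * P.K + (j - 1)) < P.rk (bi * P.K + i, bj * P.K + j) := by
    rw [hR]
    rcases Nat.lt_or_ge (3 * e.x) (j + P.K - i - 1) with h3 | h3
    · rw [hrow (j - 1) (by omega) (by omega) (by omega)]
      omega
    · rw [hrow2 (j - 1) (by omega) (by omega)]
      omega
  have hright : P.rk (bi * P.K + i, bj * P.K + j) < P.rk (bi * P.K + i, bj * P.K + (j + 1)) := by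
    rw [hR]
    rcases Nat.lt_or_ge (j + P.K - i - 1 + 1) (3 * (e.x + 2)) with h3 | h3
    · rw [hrow (j + 1) (by omega) (by omega) (by omega)]
      omega
    · have := hrow1 (j + 1) (by omega) (by omega)
      omega
  have hd4 : P.rk (bi * P.K + (i + 1), bj * P.K + j) < P.rk (bi * P.K + i, bj * P.K + j) := by
    rw [hR, hdn j hj (by omega)]
    omega
  have hd3 : P.rk (bi * P.K + (i + 1), bj * P.K + (j + 1)) <
      P.rk (bi * P.K + i, bj * P.K + j) := by
    rw [hR, hdn (j + 1) (by omega) (by omega)]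
    omega
  have hd5 : P.rk (bi * P.K + (i + 1), bj * P.K + (j - 1)) <
      P.rk (bi * P.K + i, bj * P.K + j) := by
    rw [hR, hdn (j - 1) (by omega) (by omega)]
    omega
  have hu7 : P.rk (bi * P.K + (i - 1), bj * P.K + (j - 1)) <
      P.rk (bi * P.K + i, bj * P.K + j) := by
    have := hup (j - 1) (by omega) (by omega)
    rw [hR]
    omega
  have h11 : 1 ≤ bi * P.K + i := by omega
  have h12 : 1 ≤ bj * P.K + j := by omega
  rcases Nat.lt_or_ge (j + P.K - i - 1) (3 * e.x + 4) with h3 | h3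
  · refine rc_mk h11 h12 ![0, 0, 2, 0, 0, 0, 0, 0] (by decide) (by decide) ?_ ?_ ?_ ?_ ?_ ?_ ?_ ?_
    · rw [hI]
      refine hcm0 _ _ ?_
      have := hup j (by omega) (by omega)
      rw [hR]
      omega
    · rw [hI, hJ']
      refine hcm0 _ _ ?_
      have := hup (j + 1) (by omega) (by omega)
      rw [hR]
      omega
    · rw [hJ']
      exact hcm2 _ _ hright
    · rw [hI', hJ']
      exact hcm0 _ _ hd3
    · rw [hI']
      exact hcm0 _ _ hd4
    · rw [hI', hJ]
      exact hcm0 _ _ hd5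
    · rw [hJ]
      exact hcm0 _ _ hleft
    · rw [hI, hJ]
      exact hcm0 _ _ hu7
  · rcases Nat.lt_or_ge (j + P.K - i - 1) (3 * e.x + 5) with h4 | h4
    · refine rc_mk h11 h12 ![0, 2, 2, 0, 0, 0, 0, 0] (by decide) (by decide) ?_ ?_ ?_ ?_ ?_ ?_ ?_ ?_
      · rw [hI]
        refine hcm0 _ _ ?_
        have := hup j (by omega) (by omega)
        rw [hR]
        omega
      · rw [hI, hJ']
        refine hcm2 _ _ ?_
        have := hup2 (j + 1) (by omega) (by omega)
        rw [hR]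
        omega
      · rw [hJ']
        exact hcm2 _ _ hright
      · rw [hI', hJ']
        exact hcm0 _ _ hd3
      · rw [hI']
        exact hcm0 _ _ hd4
      · rw [hI', hJ]
        exact hcm0 _ _ hd5
      · rw [hJ]
        exact hcm0 _ _ hleft
      · rw [hI, hJ]
        exact hcm0 _ _ hu7
    · refine rc_mk h11 h12 ![2, 1, 2, 0, 0, 0, 0, 0] (by decide) (by decide) ?_ ?_ ?_ ?_ ?_ ?_ ?_ ?_
      · rw [hI]
        refine hcm2 _ _ ?_
        have := hup2 j (by omega) (by omega)
        rw [hR]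
        omega
      · exact hcm1 _ _
      · rw [hJ']
        exact hcm2 _ _ hright
      · rw [hI', hJ']
        exact hcm0 _ _ hd3
      · rw [hI']
        exact hcm0 _ _ hd4
      · rw [hI', hJ]
        exact hcm0 _ _ hd5
      · rw [hJ]
        exact hcm0 _ _ hleft
      · rw [hI, hJ]
        exact hcm0 _ _ hu7

end Pool.Agent.MP_fadef1_lc
end

section

/-! Ring condition: row phase 3. -/

namespace Pool.Agent.MP_fadef1_lc

variable {P : Par} {i j bi bj : ℕ}

private theorem rc3_bx2 (b : Bool) {i x : ℕ} (hr : i % 6 = 2) : P.bx b i x =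
    (if sym (P.ev b (i / 6)) (x / 3) = 0 then
      (if x % 3 = 0 then !P.cl b (i / 6) (x / 3) else true)
    else if sym (P.ev b (i / 6)) (x / 3) = 1 then
      (if x % 3 = 0 then !P.cl b (i / 6) (x / 3) else decide (x % 3 = 1))
    else if sym (P.ev b (i / 6)) (x / 3) = 2 then false
    else decide (x % 3 = 2)) := by
  unfold Par.bx
  rw [if_neg (by omega), if_neg (by omega), if_pos hr]

private theorem rc3_bx3 (b : Bool) {i x : ℕ} (hr : i % 6 = 3) :
    P.bx b i x = (if x % 3 = 0 then !P.cl3 b (i / 6) (x / 3) else true) := by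
  unfold Par.bx
  rw [if_neg (by omega), if_neg (by omega), if_neg (by omega), if_pos hr]

private theorem rc3_bx4 (b : Bool) {i x : ℕ} (hr : i % 6 = 4) :
    P.bx b i x = (if x % 3 = 0 then !P.cl4 b (i / 6) (x / 3)
      else if x % 3 = 1 then P.W' b (i / 6) (x / 3) || decide (x + i + 1 = P.K)
      else true) := by
  unfold Par.bx
  rw [if_neg (by omega), if_neg (by omega), if_neg (by omega), if_neg (by omega), if_pos hr]

private theorem rc3_lt {a b : ℕ} (h : b < a) : cmp 0 a b :=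
  ⟨fun _ => h, fun h => absurd h (by decide)⟩

private theorem rc3_gt {a b : ℕ} (h : a < b) : cmp 2 a b :=
  ⟨fun h => absurd h (by decide), fun _ => h⟩

private theorem rc3_one (hP : P.Ok) {i j x : ℕ} (hi : i < P.K) (hj : j < P.K)
    (hx : j + P.K - i - 1 = x) (h : P.bx (P.arr bi bj) i x = true) :
    P.arr (bi * P.K + i) (bj * P.K + j) = true := by
  rw [arr_loc hP bi bj hi hj]
  unfold Par.bit
  rw [hx, h]

private theorem rc3_zero (hP : P.Ok) {i j x : ℕ} (hi : i < P.K) (hj : j < P.K)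
    (hx : j + P.K - i - 1 = x) (h : P.bx (P.arr bi bj) i x = false) :
    P.arr (bi * P.K + i) (bj * P.K + j) = false := by
  rw [arr_loc hP bi bj hi hj]
  unfold Par.bit
  rw [hx, h]

private theorem rc3_rk (hP : P.Ok) {i j x : ℕ} (hi : i < P.K) (hj : j < P.K)
    (hx : j + P.K - i - 1 = x) (h : P.bx (P.arr bi bj) i x = false) :
    P.rk (bi * P.K + i, bj * P.K + j) =
      P.rkc i j (P.cls (P.arr bi bj) (bi * P.K + i) (bj * P.K + j) i j) := by
  rw [rk_loc hP hi hj, hx, h]
  rfl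

private theorem rc3_j (P : Par) (i j : ℕ) : P.rkc i j Cl.j ≤ 3 * P.K + 1 := by
  change 1 + (3 * P.K - (i + 2 * j)) ≤ 3 * P.K + 1
  omega

private theorem rc3_cls2_in (b : Bool) (I J : ℕ) {i j A x : ℕ} (hr : i % 6 = 2) (hA : i / 6 = A)
    (hx : j + P.K - i - 1 = x) (ht : (P.ev b A).t = 1) (h1 : 3 * (P.ev b A).x + 2 ≤ x)
    (h2 : x ≤ 3 * (P.ev b A).y + 1) :
    P.cls b I J i j = Cl.s ⟨I, J, Lane.L 42 0⟩ 0 := by
  unfold Par.cls
  rw [hA, hx, if_neg (by omega), if_neg (by omega), if_pos hr, if_pos ht, if_pos ⟨h1, h2⟩]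

private theorem rc3_cls2_out (b : Bool) (I J : ℕ) {i j A x : ℕ} (hr : i % 6 = 2) (hA : i / 6 = A)
    (hx : j + P.K - i - 1 = x)
    (h1 : (P.ev b A).t = 1 → ¬ (3 * (P.ev b A).x + 2 ≤ x ∧ x ≤ 3 * (P.ev b A).y + 1))
    (h2 : (P.ev b A).t = 2 ∨ (P.ev b A).t = 3 →
      ¬ (3 * (P.ev b A).x ≤ x ∧ x ≤ 3 * last (P.ev b A) + 2)) :
    P.cls b I J i j = Cl.s ⟨I, J + 1, Lane.T 0⟩ 1 := by
  unfold Par.cls
  rw [hA, hx, if_neg (by omega), if_neg (by omega), if_pos hr]
  by_cases ht : (P.ev b A).t = 1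
  · rw [if_pos ht, if_neg (h1 ht)]
  · rw [if_neg ht, if_neg (fun h => h2 h.1 h.2)]

private theorem rc3_cls2_L (b : Bool) (I J : ℕ) {i j A x : ℕ} (hr : i % 6 = 2) (hA : i / 6 = A)
    (hx : j + P.K - i - 1 = x) (ht : (P.ev b A).t = 2 ∨ (P.ev b A).t = 3)
    (h1 : 3 * (P.ev b A).x ≤ x) (h2 : x ≤ 3 * last (P.ev b A) + 2)
    (h3 : 3 * s0 (P.ev b A) + 2 ≤ x) (h4 : 3 * trig (P.ev b A) + 2 ≤ x)
    (h5 : x ≤ 3 * s1 (P.ev b A) + 1) :
    P.cls b I J i j = Cl.s ⟨I, J, Lane.L (3 * s1 (P.ev b A) + 2 - x) 0⟩ 0 := by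
  unfold Par.cls
  rw [hA, hx, if_neg (by omega), if_neg (by omega), if_pos hr, if_neg (by omega),
    if_pos ⟨ht, h1, h2⟩, if_neg (by omega), if_neg (by omega), if_neg (by omega),
    if_neg (by omega), if_pos h5]

private theorem rc3_cls2_j (b : Bool) (I J : ℕ) {i j A x : ℕ} (hr : i % 6 = 2) (hA : i / 6 = A)
    (hx : j + P.K - i - 1 = x) (ht : (P.ev b A).t = 2 ∨ (P.ev b A).t = 3)
    (h1 : 3 * (P.ev b A).x ≤ x) (h2 : x ≤ 3 * last (P.ev b A) + 2)
    (h3 : 3 * s0 (P.ev b A) + 2 ≤ x) (h4 : 3 * trig (P.ev b A) + 2 ≤ x)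
    (h5 : 3 * s1 (P.ev b A) + 1 < x) :
    P.cls b I J i j = Cl.j := by
  unfold Par.cls
  rw [hA, hx, if_neg (by omega), if_neg (by omega), if_pos hr, if_neg (by omega),
    if_pos ⟨ht, h1, h2⟩, if_neg (by omega), if_neg (by omega), if_neg (by omega),
    if_neg (by omega), if_neg (by omega)]

private theorem rc3_untouched {P : Par} {b : Bool} {A c : ℕ} (hok : EvOk (P.W b A) (P.ev b A))
    (hW : P.W b A c = true) (hsrc : isSrc (P.ev b A) c = false) :
    sym (P.ev b A) c = 0 ∧ isCut (P.ev b A) c = false ∧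
      ((P.ev b A).t = 1 → c < (P.ev b A).x ∨ (P.ev b A).y < c) ∧
      (((P.ev b A).t = 2 ∨ (P.ev b A).t = 3) → c < (P.ev b A).x ∨ last (P.ev b A) < c) := by
  by_cases h1 : (P.ev b A).t = 1
  · have h2 := (hok.t1 h1).2.2 c hW (by
      intro hcx
      unfold isSrc at hsrc
      rw [if_pos h1] at hsrc
      exact (decide_eq_false_iff_not.1 hsrc) hcx)
    have h3 := (hok.t1 h1).2.1
    refine ⟨?_, ?_, fun _ => by omega, fun h => by omega⟩
    · unfold sym
      rw [if_pos h1, if_neg (by omega), if_neg (by omega), if_neg (by omega)]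
    · unfold isCut
      rw [h1]
      rfl
  · by_cases h2 : (P.ev b A).t = 2
    · have hne : ¬ (c = (P.ev b A).x ∨ c = (P.ev b A).x + 2) := by
        unfold isSrc at hsrc
        rw [if_neg h1, if_pos h2] at hsrc
        exact decide_eq_false_iff_not.1 hsrc
      have h3 := (hok.t2 h2).2.2.2 c hW (fun h => hne (Or.inl h)) (fun h => hne (Or.inr h))
      have hl : last (P.ev b A) = (P.ev b A).x + 16 := by
        unfold last
        rw [if_pos h2]
      refine ⟨?_, ?_, fun h => by omega, fun _ => by omega⟩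
      · unfold sym
        rw [if_neg h1, if_pos (Or.inl h2), if_neg (by omega)]
      · unfold isCut
        rw [h2, decide_eq_true rfl, Bool.true_and]
        split_ifs <;> exact decide_eq_false (by omega)
    · by_cases h3 : (P.ev b A).t = 3
      · have hne : ¬ c = (P.ev b A).x := by
          unfold isSrc at hsrc
          rw [if_neg h1, if_neg h2, if_pos h3] at hsrc
          exact decide_eq_false_iff_not.1 hsrc
        have h4 := (hok.t3 h3).2 c hW hne
        have hl : last (P.ev b A) = (P.ev b A).x + 14 := by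
          unfold last
          rw [if_neg h2, if_pos h3]
        refine ⟨?_, ?_, fun h => by omega, fun _ => by omega⟩
        · unfold sym
          rw [if_neg h1, if_pos (Or.inr h3), if_neg (by omega)]
        · unfold isCut
          rw [decide_eq_false h2, Bool.false_and]
      · refine ⟨?_, ?_, fun h => by omega, fun h => by omega⟩
        · unfold sym
          rw [if_neg h1, if_neg (by omega)]
        · unfold isCut
          rw [decide_eq_false h2, Bool.false_and]

private theorem rc3_dst {e : Ev} {c : ℕ} (hdst : isDst e c = true) (hnew : isNew e c = false) :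
    (e.t = 1 ∧ c = e.y) ∨ ((e.t = 2 ∨ e.t = 3) ∧ c = s1 e) := by
  unfold isDst at hdst
  unfold isNew at hnew
  unfold s1
  split_ifs at hdst hnew ⊢ <;>
    simp only [decide_eq_true_eq, decide_eq_false_iff_not] at hdst hnew <;> omega

private theorem rc3_s1 {e : Ev} (ht : e.t = 2 ∨ e.t = 3) :
    trig e < s1 e ∧ e.x ≤ s1 e ∧ s1 e ≤ last e ∧ s0 e + 2 ≤ s1 e := by
  unfold s1 s0 trig last
  rcases ht with ht | ht
  · rw [if_pos ht, if_pos ht]
    split_ifs <;> omega
  · rw [if_neg (by omega), if_neg (by omega), if_pos ht]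
    split_ifs <;> omega

private theorem rc3_one2 (hP : P.Ok) {i j x : ℕ} (hi : i < P.K) (hj : j < P.K)
    (hx : j + P.K - i - 1 = x) (h : P.bx (P.arr bi bj) i x = true) :
    P.rk (bi * P.K + i, bj * P.K + j) = 0 :=
  rk_one (rc3_one hP hi hj hx h)

private theorem rc3_key (hP : P.Ok) (hf : AllFin P) {i j A c : ℕ} (hi : i + 1 < P.K)
    (hj : j + 2 < P.K) (hr : i % 6 = 2) (hA : i / 6 = A) (hx : j + P.K - i - 1 = 3 * c)
    (hva : VA P (P.arr bi bj) A) (hcl4 : P.cl4 (P.arr bi bj) A c = true) {r : ℕ}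
    (hrr : r = 7 * P.K + 10 +
      2 * rem data0 P.arr ⟨bi * P.K + i + 1, bj * P.K + j + 1 + 1, Lane.T 0⟩) :
    (P.rk (bi * P.K + i, bj * P.K + (j + 1)) = 0 ∨
        r < P.rk (bi * P.K + i, bj * P.K + (j + 1))) ∧
        P.rk (bi * P.K + i, bj * P.K + (j + 1 + 1)) ≤ 3 * P.K + 1 ∧
        r < P.rk (bi * P.K + i, bj * P.K + j) := by
  have hx1 : j + 1 + P.K - i - 1 = 3 * c + 1 := by omega
  have hx2 : j + 1 + 1 + P.K - i - 1 = 3 * c + 2 := by omega
  have hi0 : i < P.K := by omega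
  have hj0 : j < P.K := by omega
  have hj1 : j + 1 < P.K := by omega
  have hj2 : j + 1 + 1 < P.K := by omega
  unfold Par.cl4 at hcl4
  rw [Bool.and_eq_true, Bool.not_eq_true'] at hcl4
  obtain ⟨hW', hnew⟩ := hcl4
  unfold Par.W' at hW'
  rw [Bool.or_eq_true, Bool.and_eq_true, Bool.and_eq_true, Bool.not_eq_true',
    Bool.not_eq_true', decide_eq_false_iff_not] at hW'
  have hc0 : 3 * c / 3 = c := by omega
  have hc1 : (3 * c + 1) / 3 = c := by omega
  have hc2 : (3 * c + 2) / 3 = c := by omega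
  by_cases hdst : isDst (P.ev (P.arr bi bj) A) c = true
  · rcases rc3_dst hdst hnew with ⟨ht, hcy⟩ | ⟨ht, hcs⟩
    · obtain ⟨hW, hxy, -⟩ := hva.ok.t1 ht
      have hsym : sym (P.ev (P.arr bi bj) A) c = 3 := by
        unfold sym
        rw [if_pos ht, if_neg (by omega), if_neg (by omega), if_pos hcy]
      have b7 : P.bx (P.arr bi bj) i (3 * c) = false := by
        rw [rc3_bx2 _ hr, hA, hc0, hsym, if_neg (by decide),
          if_neg (by decide), if_neg (by decide)]
        exact decide_eq_false (by omega)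
      have b0 : P.bx (P.arr bi bj) i (3 * c + 1) = false := by
        rw [rc3_bx2 _ hr, hA, hc1, hsym,
          if_neg (by decide), if_neg (by decide), if_neg (by decide)]
        exact decide_eq_false (by omega)
      have b1 : P.bx (P.arr bi bj) i (3 * c + 2) = true := by
        rw [rc3_bx2 _ hr, hA, hc2, hsym,
          if_neg (by decide), if_neg (by decide), if_neg (by decide)]
        exact decide_eq_true (by omega)
      have c7 := rc3_zero hP hi0 hj0 hx b7
      have c0 := rc3_zero hP hi0 hj1 hx1 b0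
      have c1 := rc3_one hP hi0 hj2 hx2 b1
      have e7 := rem_L0 hf c7
      have e0 := rem_L0 hf c0
      have e1 := rem_L1 hf c1
      have k7 := rc3_rk hP hi0 hj0 hx b7
      have k0 := rc3_rk hP hi0 hj1 hx1 b0
      rw [rc3_cls2_in _ _ _ hr hA hx ht (by omega) (by omega)] at k7
      rw [rc3_cls2_in _ _ _ hr hA hx1 ht (by omega) (by omega)] at k0
      have k7' : P.rk (bi * P.K + i, bj * P.K + j) = 7 * P.K + 10 + 2 * rem data0
          P.arr ⟨bi * P.K + i, bj * P.K + j, Lane.L 42 0⟩ := k7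
      have k0' : P.rk (bi * P.K + i, bj * P.K + (j + 1)) = 7 * P.K + 10 + 2 * rem data0
          P.arr ⟨bi * P.K + i, bj * P.K + j + 1, Lane.L 42 0⟩ := k0
      have e0' : rem data0 P.arr ⟨bi * P.K + i, bj * P.K + j + 1, Lane.L 42 0⟩ =
          rem data0 P.arr ⟨bi * P.K + i, bj * P.K + j + 1 + 1, Lane.L 42 0⟩ + 1 := e0
      have e1' : rem data0 P.arr ⟨bi * P.K + i, bj * P.K + j + 1 + 1, Lane.L 42 0⟩ =
          rem data0 P.arr ⟨bi * P.K + i + 1, bj * P.K + j + 1 + 1, Lane.T 0⟩ + 1 := e1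
      have k1 := rc3_one2 hP hi0 hj2 hx2 b1
      refine ⟨Or.inr ?_, ?_, ?_⟩
      · rw [hrr, k0', e0', e1']
        omega
      · rw [k1]
        omega
      · rw [hrr, k7', e7, e0', e1']
        omega
    · have hb := rc3_s1 ht
      rw [← hcs] at hb
      obtain ⟨hb1, hb2, hb3, hb4⟩ := hb
      have hsym : sym (P.ev (P.arr bi bj) A) c = 2 := by
        unfold sym
        rw [if_neg (by omega), if_pos ht, if_pos ⟨hb2, hb3⟩, if_neg (by omega)]
      have bz : ∀ y, y / 3 = c → P.bx (P.arr bi bj) i y = false := by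
        intro y hy
        rw [rc3_bx2 _ hr, hA, hy, hsym, if_neg (by decide), if_neg (by decide),
          if_pos rfl]
      have b7 := bz (3 * c) hc0
      have b0 := bz (3 * c + 1) hc1
      have b1 := bz (3 * c + 2) hc2
      have c7 := rc3_zero hP hi0 hj0 hx b7
      have c0 := rc3_zero hP hi0 hj1 hx1 b0
      have c1 := rc3_zero hP hi0 hj2 hx2 b1
      have e7 := rem_Lg (g := 2) hf c7 (by decide) (by decide) (by decide) (by decide)
      have e0 := rem_Lg (g := 1) hf c0 (by decide) (by decide) (by decide) (by decide)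
      have e1 := rem_Lz hf c1
      have k7 := rc3_rk hP hi0 hj0 hx b7
      have k0 := rc3_rk hP hi0 hj1 hx1 b0
      have k1 := rc3_rk hP hi0 hj2 hx2 b1
      rw [rc3_cls2_L _ _ _ hr hA hx ht (by omega) (by omega) (by omega) (by omega)
        (by omega), show 3 * s1 (P.ev (P.arr bi bj) A) + 2 - 3 * c = 2 by omega] at k7
      rw [rc3_cls2_L _ _ _ hr hA hx1 ht (by omega) (by omega) (by omega) (by omega)
        (by omega), show 3 * s1 (P.ev (P.arr bi bj) A) + 2 - (3 * c + 1) = 1 by omega] at k0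
      rw [rc3_cls2_j _ _ _ hr hA hx2 ht (by omega) (by omega) (by omega) (by omega)
        (by omega)] at k1
      have k7' : P.rk (bi * P.K + i, bj * P.K + j) = 7 * P.K + 10 + 2 * rem data0
          P.arr ⟨bi * P.K + i, bj * P.K + j, Lane.L 2 0⟩ := k7
      have k0' : P.rk (bi * P.K + i, bj * P.K + (j + 1)) = 7 * P.K + 10 + 2 * rem data0
          P.arr ⟨bi * P.K + i, bj * P.K + j + 1, Lane.L 1 0⟩ := k0
      have e7' : rem data0 P.arr ⟨bi * P.K + i, bj * P.K + j, Lane.L 2 0⟩ =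
          rem data0 P.arr ⟨bi * P.K + i, bj * P.K + j + 1, Lane.L 1 0⟩ + 1 := e7
      have e0' : rem data0 P.arr ⟨bi * P.K + i, bj * P.K + j + 1, Lane.L 1 0⟩ =
          rem data0 P.arr ⟨bi * P.K + i, bj * P.K + j + 1 + 1, Lane.L 0 0⟩ + 1 := e0
      have e1' : rem data0 P.arr ⟨bi * P.K + i, bj * P.K + j + 1 + 1, Lane.L 0 0⟩ =
          rem data0 P.arr ⟨bi * P.K + i + 1, bj * P.K + j + 1 + 1, Lane.T 0⟩ + 1 := e1
      refine ⟨Or.inr ?_, ?_, ?_⟩
      · rw [hrr, k0', e0', e1']
        omega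
      · rw [k1]
        exact rc3_j P _ _
      · rw [hrr, k7', e7', e0', e1']
        omega
  · obtain ⟨⟨hW, -⟩, hsrc⟩ : (P.W (P.arr bi bj) A c = true ∧ ¬ c = P.exitc A) ∧
        isSrc (P.ev (P.arr bi bj) A) c = false := by
      rcases hW' with h | h
      · exact h
      · exact absurd h hdst
    obtain ⟨hsym, hcut, ho1, ho2⟩ := rc3_untouched hva.ok hW hsrc
    have b7 : P.bx (P.arr bi bj) i (3 * c) = false := by
      rw [rc3_bx2 _ hr, hA, hc0, hsym, if_pos rfl, if_pos (by omega)]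
      unfold Par.cl
      rw [hW, hcut]
      rfl
    have b0 : P.bx (P.arr bi bj) i (3 * c + 1) = true := by
      rw [rc3_bx2 _ hr, hA, hc1, hsym, if_pos rfl, if_neg (by omega)]
    have b1 : P.bx (P.arr bi bj) i (3 * c + 2) = true := by
      rw [rc3_bx2 _ hr, hA, hc2, hsym, if_pos rfl, if_neg (by omega)]
    have c0 := rc3_one hP hi0 hj1 hx1 b0
    have c1 := rc3_one hP hi0 hj2 hx2 b1
    have e0 := rem_T1 hf c0
    have e1 := rem_L1 hf c1
    have k0 := rc3_one2 hP hi0 hj1 hx1 b0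
    have k1 := rc3_one2 hP hi0 hj2 hx2 b1
    have k7 := rc3_rk hP hi0 hj0 hx b7
    rw [rc3_cls2_out _ _ _ hr hA hx (fun h => by have := ho1 h; omega)
      (fun h => by have := ho2 h; omega)] at k7
    have k7' : P.rk (bi * P.K + i, bj * P.K + j) = 7 * P.K + 10 + 2 * rem data0
        P.arr ⟨bi * P.K + i, bj * P.K + j + 1, Lane.T 0⟩ + 1 := k7
    have e0' : rem data0 P.arr ⟨bi * P.K + i, bj * P.K + j + 1, Lane.T 0⟩ =
        rem data0 P.arr ⟨bi * P.K + i, bj * P.K + j + 1 + 1, Lane.L 42 0⟩ + 1 := e0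
    have e1' : rem data0 P.arr ⟨bi * P.K + i, bj * P.K + j + 1 + 1, Lane.L 42 0⟩ =
        rem data0 P.arr ⟨bi * P.K + i + 1, bj * P.K + j + 1 + 1, Lane.T 0⟩ + 1 := e1
    refine ⟨Or.inl k0, ?_, ?_⟩
    · rw [k1]
      omega
    · rw [hrr, k7', e0', e1']
      omega

/-- closed wall in row phase 3. Stub: only `(i-1, j-1)` is higher, `(i-1, j+1)` is lower. Wall of
a wire untouched by the event: `(i-1, j-1)` higher. Wall of channel `e.y` of a run or of channel `s1` of a
gate: `(i-1, j-1)` and `(i-1, j)` higher, `(i-1, j+1)` is `1` or junk. -/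
theorem rc_w3 (hP : P.Ok) (hf : AllFin P) (hi : i < P.K) (hj : j < P.K)
    (hr : i % 6 = 3) (h : P.bx (P.arr bi bj) i (j + P.K - i - 1) = false) :
    RC P (bi * P.K + i) (bj * P.K + j) := by
  have hK : P.K = 6 * P.QQ := rfl
  have hx3 : (j + P.K - i - 1) % 3 = 0 := by
    by_contra h3
    rw [rc3_bx3 _ hr, if_neg h3] at h
    exact absurd h (by decide)
  obtain ⟨i, rfl⟩ : ∃ i0, i = i0 + 1 := ⟨i - 1, by omega⟩
  obtain ⟨j, rfl⟩ : ∃ j0, j = j0 + 1 := ⟨j - 1, by omega⟩
  obtain ⟨c, hc⟩ : ∃ c, j + 1 + P.K - (i + 1) - 1 = 3 * c :=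
    ⟨(j + 1 + P.K - (i + 1) - 1) / 3, by omega⟩
  obtain ⟨A, hA⟩ : ∃ A, i / 6 = A := ⟨_, rfl⟩
  have hr0 : i % 6 = 2 := by omega
  have hr4 : (i + 1 + 1) % 6 = 4 := by omega
  have hA3 : (i + 1) / 6 = A := by omega
  have hA4 : (i + 1 + 1) / 6 = A := by omega
  have hj2 : j + 2 < P.K := by omega
  have hj2' : j + 1 + 1 < P.K := by omega
  have hj0 : j < P.K := by omega
  have hi0 : i < P.K := by omega
  have hi2 : i + 1 + 1 < P.K := by omega
  have hAQ : A < P.QQ := by omega
  have hva := va_all hP (P.arr bi bj) A hAQ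
  have hx0 : j + P.K - i - 1 = 3 * c := by omega
  have hx1 : j + 1 + P.K - i - 1 = 3 * c + 1 := by omega
  have hx2 : j + 1 + 1 + P.K - i - 1 = 3 * c + 2 := by omega
  have hc0 : 3 * c / 3 = c := by omega
  have hc1 : (3 * c + 1) / 3 = c := by omega
  have hc2 : (3 * c + 2) / 3 = c := by omega
  have hm0 : 3 * c % 3 = 0 := by omega
  have hc1' : 1 ≤ c := by omega
  rw [hc] at h hx3
  have h' := h
  rw [rc3_bx3 _ hr, if_pos hm0, hc0, hA3] at h
  have hcl3 : P.cl3 (P.arr bi bj) A c = true := by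
    revert h
    cases P.cl3 (P.arr bi bj) A c <;> simp
  -- cells of the rows 3 and 4
  have b2 : P.bx (P.arr bi bj) (i + 1) (3 * c + 1) = true := by
    rw [rc3_bx3 _ hr, if_neg (by omega)]
  have n2 := rc3_one2 (bi := bi) (bj := bj) (j := j + 1 + 1) hP hi hj2' (by omega) b2
  have a2 := rc3_one (bi := bi) (bj := bj) (j := j + 1 + 1) hP hi hj2' (by omega) b2
  have n4 : P.rk (bi * P.K + (i + 1 + 1), bj * P.K + (j + 1)) = 0 :=
    rc3_one2 hP (x := 3 * c - 1) hi2 hj (by omega)
      (by rw [rc3_bx4 _ hr4, if_neg (by omega), if_neg (by omega)])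
  have n6 : P.rk (bi * P.K + (i + 1), bj * P.K + j) = 0 :=
    rc3_one2 hP (x := 3 * c - 1) hi hj0 (by omega)
      (by rw [rc3_bx3 _ hr, if_neg (by omega)])
  have n5 : P.rk (bi * P.K + (i + 1 + 1), bj * P.K + j) ≤ 3 * P.K + 1 := by
    rw [rk_loc hP hi2 hj0]
    split_ifs
    · exact Nat.zero_le _
    · have : P.cls (P.arr bi bj) (bi * P.K + (i + 1 + 1)) (bj * P.K + j) (i + 1 + 1) j
          = Cl.j := by
        unfold Par.cls
        rw [if_neg (by omega), if_neg (by omega), if_neg (by omega), if_neg (by omega),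
          if_pos hr4, if_neg (by omega)]
      rw [this]
      exact rc3_j P _ _
  have hrk := rc3_rk (bi := bi) (bj := bj) hP hi hj hc h'
  have hcls : P.cls (P.arr bi bj) (bi * P.K + (i + 1)) (bj * P.K + (j + 1)) (i + 1) (j + 1) =
      (if (P.ev (P.arr bi bj) A).t = 1 ∧ c = (P.ev (P.arr bi bj) A).x then
      Cl.s ⟨bi * P.K + i, bj * P.K + j + 1 + 1, Lane.L 42 0⟩ 1
    else Cl.s ⟨bi * P.K + i + 1, bj * P.K + j + 1 + 1, Lane.T 0⟩ 0) := by
    unfold Par.cls
    rw [if_neg (by omega), if_neg (by omega), if_neg (by omega), if_pos hr, hc, hA3, hc0]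
    rfl
  rw [hcls] at hrk
  by_cases hst : (P.ev (P.arr bi bj) A).t = 1 ∧ c = (P.ev (P.arr bi bj) A).x
  · -- stub
    rw [if_pos hst] at hrk
    obtain ⟨ht, hcx⟩ := hst
    obtain ⟨hW, hxy, -⟩ := hva.ok.t1 ht
    have hsym : sym (P.ev (P.arr bi bj) A) c = 1 := by
      unfold sym
      rw [if_pos ht, if_pos hcx]
    have hcl4 : P.cl4 (P.arr bi bj) A c = false := by
      unfold Par.cl4 Par.W'
      have h1 : isSrc (P.ev (P.arr bi bj) A) c = true := by
        unfold isSrc
        rw [if_pos ht]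
        exact decide_eq_true hcx
      have h2 : isDst (P.ev (P.arr bi bj) A) c = false := by
        unfold isDst
        rw [if_pos ht]
        exact decide_eq_false (by omega)
      rw [h1, h2]
      simp
    have hcl : P.cl (P.arr bi bj) A c = true := by
      unfold Par.cl isCut
      rw [hcx, hW, ht]
      rfl
    have n3 : P.rk (bi * P.K + (i + 1 + 1), bj * P.K + (j + 1 + 1)) = 0 := by
      refine rc3_one2 hP (x := 3 * c) hi2 hj2' (by omega) ?_
      rw [rc3_bx4 _ hr4, if_pos hm0, hA4, hc0, hcl4]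
      rfl
    have b0 : P.bx (P.arr bi bj) i (3 * c + 1) = true := by
      rw [rc3_bx2 _ hr0, hA, hc1, hsym, if_neg (by decide), if_pos rfl, if_neg (by omega)]
      exact decide_eq_true (by omega)
    have a0 := rc3_one (bi := bi) (bj := bj) hP hi0 hj hx1 b0
    have n0 := rc3_one2 (bi := bi) (bj := bj) hP hi0 hj hx1 b0
    have n1 := rc3_rk (bi := bi) (bj := bj) hP (x := 3 * c + 2) hi0 hj2' hx2 (by
        rw [rc3_bx2 _ hr0, hA, hc2, hsym, if_neg (by decide),
          if_pos rfl, if_neg (by omega)]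
        exact decide_eq_false (by omega))
    rw [rc3_cls2_in _ _ _ hr0 hA hx2 ht (by omega) (by omega)] at n1
    have n7 := rc3_rk (bi := bi) (bj := bj) hP (x := 3 * c) hi0 hj0 hx0 (by
        rw [rc3_bx2 _ hr0, hA, hc0, hsym, if_neg (by decide),
          if_pos rfl, if_pos hm0, hcl]
        rfl)
    rw [rc3_cls2_out _ _ _ hr0 hA hx0 (fun _ => by omega) (fun _ => by omega)] at n7
    have n1' : P.rk (bi * P.K + i, bj * P.K + (j + 1 + 1)) = 7 * P.K + 10 +
        2 * rem data0 P.arr ⟨bi * P.K + i, bj * P.K + j + 1 + 1, Lane.L 42 0⟩ := n1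
    have n7' : P.rk (bi * P.K + i, bj * P.K + j) = 7 * P.K + 10 +
        2 * rem data0 P.arr ⟨bi * P.K + i, bj * P.K + j + 1, Lane.T 0⟩ + 1 := n7
    have e7 : rem data0 P.arr ⟨bi * P.K + i, bj * P.K + j + 1, Lane.T 0⟩ =
        rem data0 P.arr ⟨bi * P.K + i, bj * P.K + j + 1 + 1, Lane.L 42 0⟩ + 1 := rem_T1 hf a0
    rw [e7] at n7'
    have hrk2 : P.rk (bi * P.K + (i + 1), bj * P.K + (j + 1)) = 7 * P.K + 10 +
        2 * rem data0 P.arr ⟨bi * P.K + i, bj * P.K + j + 1 + 1, Lane.L 42 0⟩ + 1 := hrk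
    refine rc_mk (by omega) (by omega) ![0, 0, 0, 0, 0, 0, 0, 2] (by decide) (by decide)
      (rc3_lt ?_) (rc3_lt ?_) (rc3_lt ?_) (rc3_lt ?_) (rc3_lt ?_) (rc3_lt ?_) (rc3_lt ?_)
      (rc3_gt ?_)
    · change P.rk (bi * P.K + i, bj * P.K + (j + 1)) < _
      rw [n0, hrk2]
      omega
    · change P.rk (bi * P.K + i, bj * P.K + (j + 1 + 1)) < _
      rw [n1', hrk2]
      omega
    · change P.rk (bi * P.K + (i + 1), bj * P.K + (j + 1 + 1)) < _
      rw [n2, hrk2]
      omega
    · change P.rk (bi * P.K + (i + 1 + 1), bj * P.K + (j + 1 + 1)) < _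
      rw [n3, hrk2]
      omega
    · change P.rk (bi * P.K + (i + 1 + 1), bj * P.K + (j + 1)) < _
      rw [n4, hrk2]
      omega
    · change P.rk (bi * P.K + (i + 1 + 1), bj * P.K + j) < _
      rw [hrk2]
      omega
    · change P.rk (bi * P.K + (i + 1), bj * P.K + j) < _
      rw [n6, hrk2]
      omega
    · change _ < P.rk (bi * P.K + i, bj * P.K + j)
      rw [n7', hrk2]
      omega
  · -- wall
    rw [if_neg hst] at hrk
    have hrk2 : P.rk (bi * P.K + (i + 1), bj * P.K + (j + 1)) = 7 * P.K + 10 +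
        2 * rem data0 P.arr ⟨bi * P.K + i + 1, bj * P.K + j + 1 + 1, Lane.T 0⟩ := hrk
    have hcl4 : P.cl4 (P.arr bi bj) A c = true := by
      unfold Par.cl3 at hcl3
      rw [Bool.or_eq_true, Bool.and_eq_true, decide_eq_true_eq, decide_eq_true_eq] at hcl3
      rcases hcl3 with h | h
      · exact h
      · exact absurd h hst
    have a22 : P.arr (bi * P.K + (i + 1)) (bj * P.K + (j + 1 + 1) + 1) = true := by
      by_cases hj3 : j + 1 + 1 + 1 < P.K
      · exact rc3_one hP (j := j + 1 + 1 + 1) (x := 3 * c + 2) hi hj3 (by omega)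
          (by rw [rc3_bx3 _ hr, if_neg (by omega)])
      · have e : bj * P.K + (j + 1 + 1) + 1 = (bj + 1) * P.K + 0 := by
          rw [Nat.add_mul]
          omega
        rw [e]
        exact rc3_one hP (j := 0) (x := P.K - (i + 1) - 1) hi (by omega) (by omega)
          (by rw [rc3_bx3 _ hr, if_neg (by omega)])
    have hrem : rem data0 P.arr ⟨bi * P.K + i + 1, bj * P.K + j + 1 + 1, Lane.T 0⟩ =
        rem data0 P.arr ⟨bi * P.K + i + 1 + 1, bj * P.K + j + 1 + 1 + 1, Lane.T 0⟩ + 1 + 1 :=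
      (rem_T1 hf a2).trans (congrArg (· + 1) (rem_L1 hf a22))
    have n3 := rc3_rk (bi := bi) (bj := bj) (i := i + 1 + 1) (j := j + 1 + 1) hP (x := 3 * c)
      hi2 hj2' (by omega) (by
        rw [rc3_bx4 _ hr4, if_pos hm0, hA4, hc0, hcl4]
        rfl)
    have hcls3 : P.cls (P.arr bi bj) (bi * P.K + (i + 1 + 1)) (bj * P.K + (j + 1 + 1)) (i + 1 + 1)
        (j + 1 + 1) = Cl.s ⟨bi * P.K + i + 1 + 1, bj * P.K + j + 1 + 1 + 1, Lane.T 0⟩ 0 := by
      unfold Par.cls
      rw [if_neg (by omega), if_neg (by omega), if_neg (by omega), if_neg (by omega),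
        if_pos hr4, if_pos (by omega)]
      rfl
    rw [hcls3] at n3
    have n3' : P.rk (bi * P.K + (i + 1 + 1), bj * P.K + (j + 1 + 1)) = 7 * P.K + 10 +
        2 * rem data0 P.arr ⟨bi * P.K + i + 1 + 1, bj * P.K + j + 1 + 1 + 1, Lane.T 0⟩ := n3
    obtain ⟨k0, k1, k7⟩ := rc3_key (bi := bi) (bj := bj) hP hf hi hj2 hr0 hA hx0 hva hcl4 hrk2
    have p1 : P.rk (bi * P.K + i, bj * P.K + (j + 1 + 1)) <
        P.rk (bi * P.K + (i + 1), bj * P.K + (j + 1)) := by
      rw [hrk2]
      omega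
    have p2 : P.rk (bi * P.K + (i + 1), bj * P.K + (j + 1 + 1)) <
        P.rk (bi * P.K + (i + 1), bj * P.K + (j + 1)) := by
      rw [n2, hrk2]
      omega
    have p3 : P.rk (bi * P.K + (i + 1 + 1), bj * P.K + (j + 1 + 1)) <
        P.rk (bi * P.K + (i + 1), bj * P.K + (j + 1)) := by
      rw [n3', hrk2, hrem]
      omega
    have p4 : P.rk (bi * P.K + (i + 1 + 1), bj * P.K + (j + 1)) <
        P.rk (bi * P.K + (i + 1), bj * P.K + (j + 1)) := by
      rw [n4, hrk2]
      omega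
    have p5 : P.rk (bi * P.K + (i + 1 + 1), bj * P.K + j) <
        P.rk (bi * P.K + (i + 1), bj * P.K + (j + 1)) := by
      rw [hrk2]
      omega
    have p6 : P.rk (bi * P.K + (i + 1), bj * P.K + j) <
        P.rk (bi * P.K + (i + 1), bj * P.K + (j + 1)) := by
      rw [n6, hrk2]
      omega
    rcases k0 with k0 | k0
    · have p0 : P.rk (bi * P.K + i, bj * P.K + (j + 1)) <
          P.rk (bi * P.K + (i + 1), bj * P.K + (j + 1)) := by
        rw [k0, hrk2]
        omega
      exact rc_mk (by omega) (by omega) ![0, 0, 0, 0, 0, 0, 0, 2] (by decide) (by decide)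
        (rc3_lt p0) (rc3_lt p1) (rc3_lt p2) (rc3_lt p3) (rc3_lt p4) (rc3_lt p5) (rc3_lt p6)
        (rc3_gt k7)
    · exact rc_mk (by omega) (by omega) ![2, 0, 0, 0, 0, 0, 0, 2] (by decide) (by decide)
        (rc3_gt k0) (rc3_lt p1) (rc3_lt p2) (rc3_lt p3) (rc3_lt p4) (rc3_lt p5) (rc3_lt p6)
        (rc3_gt k7)

end Pool.Agent.MP_fadef1_lc
end
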