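import Pool.Agent.Lib.MP_fadef1_lc.Mg.G014
import Pool.Agent.Lib.MP_fadef1_lc.Mg.G012
import Pool.Agent.Lib.MP_fadef1_lc.Mg.G019
import Pool.Agent.Lib.MP_fadef1_lc.Mg.G022
import Pool.Agent.Lib.MP_fadef1_lc.Mg.G007
import Pool.Agent.Lib.MP_fadef1_lc.Mg.G021
import Pool.Agent.Lib.MP_fadef1_lc.Mg.G023
import Pool.Agent.Lib.MP_fadef1_lc.I.RC1d
import Pool.Agent.Lib.MP_fadef1_lc.I.RC1e
import Pool.Agent.Lib.MP_fadef1_lc.I.RC1f
import Pool.Agent.Lib.MP_fadef1_lc.I.RC2a
import Pool.Agent.Lib.MP_fadef1_lc.I.RC2c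
import Pool.Agent.Lib.MP_fadef1_lc.I.RC2d
import Pool.Agent.Lib.MP_fadef1_lc.Mg.G025
import Pool.Agent.Lib.MP_fadef1_lc.I.RC4
import Pool.Agent.Lib.MP_fadef1_lc.I.RC5

section

/-! Ring condition: junk on the right of a gate. -/

namespace Pool.Agent.MP_fadef1_lc

variable {P : Par} {i j bi bj : ℕ}

private theorem rc2e_bx1 {b : Bool} {i x : ℕ} (h : i % 6 = 1) :
    P.bx b i x = !decide (x % 3 = 0) := by
  unfold Par.bx
  rw [if_neg (by omega), if_pos h]

private theorem rc2e_bx2 {b : Bool} {i x : ℕ} (h : i % 6 = 2)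
    (hs : sym (P.ev b (i / 6)) (x / 3) = 2) : P.bx b i x = false := by
  unfold Par.bx
  rw [if_neg (by omega), if_neg (by omega), if_pos h, if_neg (by omega), if_neg (by omega),
    if_pos hs]

private theorem rc2e_bx2' {b : Bool} {i x : ℕ} (h : i % 6 = 2)
    (hs : sym (P.ev b (i / 6)) (x / 3) = 0) (hc : P.cl b (i / 6) (x / 3) = false) :
    P.bx b i x = true := by
  unfold Par.bx
  rw [if_neg (by omega), if_neg (by omega), if_pos h, if_pos hs, hc]
  simp

private theorem rc2e_bx3 {b : Bool} {i x : ℕ} (h : i % 6 = 3) :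
    P.bx b i x = if x % 3 = 0 then !P.cl3 b (i / 6) (x / 3) else true := by
  unfold Par.bx
  rw [if_neg (by omega), if_neg (by omega), if_neg (by omega), if_pos h]

/-- junk on the right of a gate: the left neighbour is higher. `x % 3 = 0`: also `(i-1, j-1)`;
`x % 3 = 1`: nothing else; `x % 3 = 2`: also `(i-1, j)`, and `(i-1, j-1)` is isolated (status `1`); for
`x = 3 s1 + 2` also `(i+1, j-1)`, the wall of `s1`. -/
theorem rc_gate3 (hP : P.Ok) (hf : AllFin P) (hi : i < P.K) (hj : j < P.K)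
    (hr : i % 6 = 2) (ht : (P.ev (P.arr bi bj) (i / 6)).t = 2 ∨ (P.ev (P.arr bi bj) (i / 6)).t = 3)
    (h1 : 3 * s1 (P.ev (P.arr bi bj) (i / 6)) + 2 ≤ (j + P.K - i - 1)) (h2 : (j + P.K - i - 1) ≤ 3 * last (P.ev (P.arr bi bj) (i / 6)) + 2) :
    RC P (bi * P.K + i) (bj * P.K + j) := by
  have hK6 : P.K = 6 * P.QQ := rfl
  have hQ2 : P.Q = 2 * P.QQ := rfl
  have hK : P.K = 3 * P.Q := by omega
  have hKp := K_pos hP
  obtain ⟨A, hA⟩ : ∃ A, A = i / 6 := ⟨_, rfl⟩
  obtain ⟨b, hb⟩ : ∃ b, b = P.arr bi bj := ⟨_, rfl⟩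
  obtain ⟨e, he⟩ : ∃ e, e = P.ev b A := ⟨_, rfl⟩
  rw [← hA, ← hb, ← he] at ht h1 h2
  have hAQ : A < P.QQ := by omega
  have hV := va_all hP b A hAQ
  have hok := hV.ok
  rw [← he] at hok
  obtain ⟨-, -, -, -, hq1, hq2⟩ := hV.quiet (by rw [← he]; omega)
  rw [← he] at hq1 hq2
  have hlst : lst e = last e := by
    unfold lst last
    rcases ht with ht | ht <;> simp [ht]
  -- the data of the event
  have htrig : trig e + 1 ≤ s1 e ∧ e.x + 14 ≤ s1 e := by
    unfold trig s1
    split_ifs <;> omega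
  have hlast : s1 e ≤ last e ∧ last e ≤ e.x + 16 := by
    unfold last s1
    rcases ht with ht | ht
    · rw [if_pos ht]
      split_ifs <;> omega
    · rw [if_neg (by omega), if_neg (by omega), if_pos ht]
      omega
  have hs01 : s0 e ≤ e.x + 2 := by
    unfold s0
    split_ifs <;> omega
  have hW : ∀ c, s1 e ≤ c → c ≤ last e + 1 → P.W b A c = false := by
    intro c hc hc'
    by_contra hne
    have hne' : P.W b A c = true := by simpa using hne
    rcases ht with ht | ht
    · have := (hok.t2 ht).2.2.2 c hne' (by omega) (by omega)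
      omega
    · have := (hok.t3 ht).2 c hne' (by omega)
      have : last e = e.x + 14 := by
        unfold last
        rw [if_neg (by omega), if_pos ht]
      omega
  have hcl : ∀ c, s1 e ≤ c → c ≤ last e + 1 → P.cl b A c = false := by
    intro c hc hc'
    unfold Par.cl
    rw [hW c hc hc']
    rfl
  have hcl3 : ∀ c, s1 e < c → c ≤ last e → P.cl3 b A c = false := by
    intro c hc hc'
    unfold Par.cl3 Par.cl4 Par.W'
    rw [← he, hW c (by omega) (by omega)]
    have h3 : isDst e c = true → isNew e c = true := by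
      unfold isDst isNew
      rcases ht with ht | ht
      · have hx : last e = e.x + 16 := by
          unfold last
          rw [if_pos ht]
        by_cases hy : e.y % 2 = 0
        · have : s1 e = e.x + 16 := by
            unfold s1
            rw [if_pos ⟨ht, hy⟩]
          omega
        · have : s1 e = e.x + 14 := by
            unfold s1
            rw [if_neg (by tauto)]
          rw [if_neg (by omega), if_pos ht, if_neg (by omega), if_pos ht, if_neg hy,
            decide_eq_true_eq, decide_eq_true_eq]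
          omega
      · have : s1 e = e.x + 14 := by
          unfold s1
          rw [if_neg (by omega)]
        have : last e = e.x + 14 := by
          unfold last
          rw [if_neg (by omega), if_pos ht]
        omega
    have ht1 : decide (e.t = 1) = false := by
      rw [decide_eq_false_iff_not]
      omega
    rw [ht1]
    cases h4 : isDst e c
    · simp
    · simp [h3 h4]
  have hcl31 : P.cl3 b A (s1 e) = true := by
    unfold Par.cl3 Par.cl4 Par.W'
    rw [← he]
    have h3 : isDst e (s1 e) = true ∧ isNew e (s1 e) = false := by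
      unfold isDst isNew s1
      rcases ht with ht | ht
      · by_cases hy : e.y % 2 = 0
        · simp [ht, hy]
        · simp [ht, hy]
      · simp [ht]
    rw [h3.1, h3.2]
    simp
  have hsym : ∀ c, s1 e ≤ c → c ≤ last e → sym e c = 2 := by
    intro c hc hc'
    unfold sym
    rw [if_neg (by omega), if_pos ht, if_pos (by omega), if_neg (by omega)]
  have hsym' : ∀ c, last e < c → sym e c = 0 := by
    intro c hc
    unfold sym
    rw [if_neg (by omega), if_pos ht, if_neg (by omega)]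
  -- the row of the gate
  have hrow : ∀ j', j' < P.K → 3 * s1 e + 2 ≤ j' + P.K - i - 1 →
      j' + P.K - i - 1 ≤ 3 * last e + 2 →
      P.rk (bi * P.K + i, bj * P.K + j') = 1 + (3 * P.K - (i + 2 * j')) := by
    intro j' hj' h3 h4
    rw [rk_loc hP hi hj', ← hb, rc2e_bx2 hr
      (by rw [← hA, ← he]; exact hsym _ (by omega) (by omega)), if_neg Bool.false_ne_true]
    unfold Par.cls
    rw [if_neg (by omega), if_neg (by omega), if_pos hr, ← hA, ← he, if_neg (by omega),
      if_pos (by omega), if_neg (by omega), if_neg (by omega), if_neg (by omega),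
      if_neg (by omega), if_neg (by omega)]
    rfl
  have hrow1 : ∀ j', j' < P.K → j' + P.K - i - 1 = 3 * s1 e + 1 →
      7 * P.K + 10 ≤ P.rk (bi * P.K + i, bj * P.K + j') := by
    intro j' hj' h3
    rw [rk_loc hP hi hj', ← hb, rc2e_bx2 hr
      (by rw [← hA, ← he]; exact hsym _ (by omega) (by omega)), if_neg Bool.false_ne_true]
    unfold Par.cls
    rw [if_neg (by omega), if_neg (by omega), if_pos hr, ← hA, ← he, if_neg (by omega),
      if_pos (by omega), if_neg (by omega), if_neg (by omega), if_neg (by omega),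
      if_neg (by omega), if_pos (by omega)]
    unfold Par.rkc
    simp only
    omega
  have hrow2 : ∀ j', j' < P.K → j' + P.K - i - 1 = 3 * last e + 3 →
      P.rk (bi * P.K + i, bj * P.K + j') = 0 := by
    intro j' hj' h3
    rw [rk_loc hP hi hj', ← hb, rc2e_bx2' hr
      (by rw [← hA, ← he]; exact hsym' _ (by omega))
      (by rw [← hA]; exact hcl _ (by omega) (by omega))]
    rfl
  -- the row above
  have hi1 : (i - 1) % 6 = 1 := by omega
  have hA1 : (i - 1) / 6 = A := by omega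
  have hup0 : ∀ j', j' < P.K → (j' + P.K - (i - 1) - 1) % 3 ≠ 0 →
      P.rk (bi * P.K + (i - 1), bj * P.K + j') = 0 := by
    intro j' hj' h3
    rw [rk_loc hP (by omega) hj', ← hb, rc2e_bx1 hi1, decide_eq_false h3]
    rfl
  have hup : ∀ j', j' + 1 < P.K → (j' + P.K - (i - 1) - 1) % 3 = 0 →
      s1 e < (j' + P.K - (i - 1) - 1) / 3 → (j' + P.K - (i - 1) - 1) / 3 ≤ last e + 1 →
      P.rk (bi * P.K + (i - 1), bj * P.K + j') = 1 + (3 * P.K - ((i - 1) + 2 * j')) := by
    intro j' hj' h4 h5 h6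
    rw [rk_loc hP (by omega) (by omega), ← hb, rc2e_bx1 hi1, decide_eq_true h4, Bool.not_true,
      if_neg Bool.false_ne_true]
    unfold Par.cls
    rw [if_neg (by omega : ¬ (i - 1) % 6 = 0), if_pos hi1, if_neg (by omega : ¬ j' + 1 = P.K),
      hA1, hcl _ (by omega) h6, if_neg Bool.false_ne_true, ← he, if_neg (by omega)]
    rfl
  -- the row below
  have hA2 : (i + 1) / 6 = A := by omega
  have hdn : ∀ j', j' < P.K → ((j' + P.K - (i + 1) - 1) % 3 = 0 →
      s1 e < (j' + P.K - (i + 1) - 1) / 3 ∧ (j' + P.K - (i + 1) - 1) / 3 ≤ last e) →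
      P.rk (bi * P.K + (i + 1), bj * P.K + j') = 0 := by
    intro j' hj' h3
    rw [rk_loc hP (by omega) (by omega), ← hb, rc2e_bx3 (by omega), hA2]
    by_cases h4 : (j' + P.K - (i + 1) - 1) % 3 = 0
    · rw [if_pos h4, hcl3 _ (h3 h4).1 (h3 h4).2]
      rfl
    · rw [if_neg h4]
      rfl
  have hdn1 : ∀ j', j' < P.K → j' + P.K - (i + 1) - 1 = 3 * s1 e →
      7 * P.K + 10 ≤ P.rk (bi * P.K + (i + 1), bj * P.K + j') := by
    intro j' hj' h3
    have h4 : (j' + P.K - (i + 1) - 1) / 3 = s1 e := by omega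
    have h5 : P.bx b (i + 1) (j' + P.K - (i + 1) - 1) = false := by
      rw [rc2e_bx3 (by omega), if_pos (by omega), hA2, h4, hcl31]
      rfl
    rw [rk_loc hP (by omega) (by omega), ← hb, h5, if_neg Bool.false_ne_true]
    unfold Par.cls
    rw [if_neg (by omega), if_neg (by omega), if_neg (by omega), if_pos (by omega), hA2, ← he,
      if_neg (by omega)]
    unfold Par.rkc
    simp only
    omega
  have hR := hrow j hj h1 h2
  have hI : bi * P.K + i - 1 = bi * P.K + (i - 1) := by omega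
  have hJ : bj * P.K + j - 1 = bj * P.K + (j - 1) := by omega
  have hI' : bi * P.K + i + 1 = bi * P.K + (i + 1) := by omega
  have hJ' : bj * P.K + j + 1 = bj * P.K + (j + 1) := by omega
  have hcm0 : ∀ a c : ℕ, c < a → cmp 0 a c := fun a c h => ⟨fun _ => h, fun h' => by
    exact absurd h' (by decide)⟩
  have hcm2 : ∀ a c : ℕ, a < c → cmp 2 a c := fun a c h => ⟨fun h' => by
    exact absurd h' (by decide), fun _ => h⟩
  have hcm1 : ∀ a c : ℕ, cmp 1 a c := fun a c => ⟨fun h' => by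
    exact absurd h' (by decide), fun h' => by exact absurd h' (by decide)⟩
  have hjK : j + 8 < P.K := by omega
  have hleft : P.rk (bi * P.K + i, bj * P.K + j) < P.rk (bi * P.K + i, bj * P.K + (j - 1)) := by
    rw [hR]
    rcases Nat.lt_or_ge (3 * s1 e + 2) (j + P.K - i - 1) with h3 | h3
    · rw [hrow (j - 1) (by omega) (by omega) (by omega)]
      omega
    · have := hrow1 (j - 1) (by omega) (by omega)
      omega
  have hright : P.rk (bi * P.K + i, bj * P.K + (j + 1)) < P.rk (bi * P.K + i, bj * P.K + j) := by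
    rw [hR]
    rcases Nat.lt_or_ge (j + P.K - i - 1) (3 * last e + 2) with h3 | h3
    · rw [hrow (j + 1) (by omega) (by omega) (by omega)]
      omega
    · rw [hrow2 (j + 1) (by omega) (by omega)]
      omega
  have hd4 : P.rk (bi * P.K + (i + 1), bj * P.K + j) < P.rk (bi * P.K + i, bj * P.K + j) := by
    rw [hR, hdn j hj (by omega)]
    omega
  have hd3 : P.rk (bi * P.K + (i + 1), bj * P.K + (j + 1)) <
      P.rk (bi * P.K + i, bj * P.K + j) := by
    rw [hR, hdn (j + 1) (by omega) (by omega)]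
    omega
  have hu1 : P.rk (bi * P.K + (i - 1), bj * P.K + (j + 1)) <
      P.rk (bi * P.K + i, bj * P.K + j) := by
    rw [hR]
    by_cases h3 : (j + 1 + P.K - (i - 1) - 1) % 3 = 0
    · rw [hup (j + 1) (by omega) h3 (by omega) (by omega)]
      omega
    · rw [hup0 (j + 1) (by omega) h3]
      omega
  have h11 : 1 ≤ bi * P.K + i := by omega
  have h12 : 1 ≤ bj * P.K + j := by omega
  have hx3 : (j + P.K - i - 1) % 3 = 0 ∨ (j + P.K - i - 1) % 3 = 1 ∨
      (j + P.K - i - 1) % 3 = 2 := by omega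
  rcases hx3 with h3 | h3 | h3
  · refine rc_mk h11 h12 ![0, 0, 0, 0, 0, 0, 2, 2] (by decide) (by decide) ?_ ?_ ?_ ?_ ?_ ?_ ?_ ?_
    · rw [hI]
      refine hcm0 _ _ ?_
      rw [hR, hup0 j hj (by omega)]
      omega
    · rw [hI, hJ']
      exact hcm0 _ _ hu1
    · rw [hJ']
      exact hcm0 _ _ hright
    · rw [hI', hJ']
      exact hcm0 _ _ hd3
    · rw [hI']
      exact hcm0 _ _ hd4
    · rw [hI', hJ]
      refine hcm0 _ _ ?_
      rw [hR, hdn (j - 1) (by omega) (by omega)]
      omega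
    · rw [hJ]
      exact hcm2 _ _ hleft
    · rw [hI, hJ]
      refine hcm2 _ _ ?_
      rw [hR, hup (j - 1) (by omega) (by omega) (by omega) (by omega)]
      omega
  · refine rc_mk h11 h12 ![0, 0, 0, 0, 0, 0, 2, 0] (by decide) (by decide) ?_ ?_ ?_ ?_ ?_ ?_ ?_ ?_
    · rw [hI]
      refine hcm0 _ _ ?_
      rw [hR, hup0 j hj (by omega)]
      omega
    · rw [hI, hJ']
      exact hcm0 _ _ hu1
    · rw [hJ']
      exact hcm0 _ _ hright
    · rw [hI', hJ']
      exact hcm0 _ _ hd3
    · rw [hI']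
      exact hcm0 _ _ hd4
    · rw [hI', hJ]
      refine hcm0 _ _ ?_
      rw [hR, hdn (j - 1) (by omega) (by omega)]
      omega
    · rw [hJ]
      exact hcm2 _ _ hleft
    · rw [hI, hJ]
      refine hcm0 _ _ ?_
      rw [hR, hup0 (j - 1) (by omega) (by omega)]
      omega
  · have hu0 : P.rk (bi * P.K + i, bj * P.K + j) < P.rk (bi * P.K + (i - 1), bj * P.K + j) := by
      rw [hR, hup j (by omega) (by omega) (by omega) (by omega)]
      omega
    rcases Nat.lt_or_ge (3 * s1 e + 2) (j + P.K - i - 1) with h4 | h4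
    · refine rc_mk h11 h12 ![2, 0, 0, 0, 0, 0, 2, 1] (by decide) (by decide)
        ?_ ?_ ?_ ?_ ?_ ?_ ?_ ?_
      · rw [hI]
        exact hcm2 _ _ hu0
      · rw [hI, hJ']
        exact hcm0 _ _ hu1
      · rw [hJ']
        exact hcm0 _ _ hright
      · rw [hI', hJ']
        exact hcm0 _ _ hd3
      · rw [hI']
        exact hcm0 _ _ hd4
      · rw [hI', hJ]
        refine hcm0 _ _ ?_
        rw [hR, hdn (j - 1) (by omega) (by omega)]
        omega
      · rw [hJ]
        exact hcm2 _ _ hleft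
      · exact hcm1 _ _
    · refine rc_mk h11 h12 ![2, 0, 0, 0, 0, 2, 2, 1] (by decide) (by decide)
        ?_ ?_ ?_ ?_ ?_ ?_ ?_ ?_
      · rw [hI]
        exact hcm2 _ _ hu0
      · rw [hI, hJ']
        exact hcm0 _ _ hu1
      · rw [hJ']
        exact hcm0 _ _ hright
      · rw [hI', hJ']
        exact hcm0 _ _ hd3
      · rw [hI']
        exact hcm0 _ _ hd4
      · rw [hI', hJ]
        refine hcm2 _ _ ?_
        have := hdn1 (j - 1) (by omega) (by omega)
        rw [hR]
        omega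
      · rw [hJ]
        exact hcm2 _ _ hleft
      · exact hcm1 _ _

end Pool.Agent.MP_fadef1_lc
end

section

/-! Ring condition everywhere; connectedness. -/

namespace Pool.Agent.MP_fadef1_lc

variable {P : Par}

private theorem rca_s0 {e : Ev} (h : e.t ≠ 2) : s0 e = e.x := by
  unfold s0
  exact if_neg fun h1 => h h1.1

private theorem rca_sym (e : Ev) (c : ℕ) : sym e c = 0 ∨ (sym e c = 1 ∧ e.t = 1 ∧ c = e.x) ∨
    (sym e c = 2 ∧ ((e.t = 1 ∧ e.x < c ∧ c < e.y) ∨
      ((e.t = 2 ∨ e.t = 3) ∧ e.x ≤ c ∧ c ≤ last e ∧ c ≠ trig e))) ∨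
    (sym e c = 3 ∧ ((e.t = 1 ∧ c = e.y) ∨
      ((e.t = 2 ∨ e.t = 3) ∧ e.x ≤ c ∧ c ≤ last e ∧ c = trig e))) := by
  unfold sym
  split_ifs with h1 h2 h3 h4 h5 h6 h7
  · exact Or.inr (Or.inl ⟨rfl, h1, h2⟩)
  · exact Or.inr (Or.inr (Or.inl ⟨rfl, Or.inl ⟨h1, h3⟩⟩))
  · exact Or.inr (Or.inr (Or.inr ⟨rfl, Or.inl ⟨h1, h4⟩⟩))
  · exact Or.inl rfl
  · exact Or.inr (Or.inr (Or.inr ⟨rfl, Or.inr ⟨h5, h6.1, h6.2, h7⟩⟩))
  · exact Or.inr (Or.inr (Or.inl ⟨rfl, Or.inr ⟨h5, h6.1, h6.2, h7⟩⟩))
  · exact Or.inl rfl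
  · exact Or.inl rfl

private theorem rca_gate {R : Prop} {e : Ev} {x : ℕ}
    (hg1 : e.t = 2 ∨ e.t = 3 → 3 * s0 e ≤ x → x < 3 * trig e + 2 → R)
    (hg2 : e.t = 2 ∨ e.t = 3 → 3 * trig e + 2 < x → x ≤ 3 * s1 e + 1 → R)
    (hg3 : e.t = 2 ∨ e.t = 3 → 3 * s1 e + 2 ≤ x → x ≤ 3 * last e + 2 → R)
    (hg4 : e.t = 2 → 3 * e.x ≤ x → x < 3 * s0 e → R)
    (ht : e.t = 2 ∨ e.t = 3) (ha : e.x ≤ x / 3) (hb : x / 3 ≤ last e) (hc : x ≠ 3 * trig e + 2) :
    R := by
  rcases Nat.lt_or_ge x (3 * s0 e) with h3 | h3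
  · have ht2 : e.t = 2 := by
      by_contra hne
      rw [rca_s0 hne] at h3
      omega
    exact hg4 ht2 (by omega) h3
  · rcases Nat.lt_or_ge x (3 * trig e + 2) with h4 | h4
    · exact hg1 ht h3 h4
    · rcases Nat.lt_or_ge (3 * s1 e + 1) x with h5 | h5
      · exact hg3 ht (by omega) (by omega)
      · exact hg2 ht (by omega) h5

private theorem rca_phase2 (hP : P.Ok) (hf : AllFin P) {i j bi bj : ℕ} (hi : i < P.K)
    (hj : j < P.K) (hr : i % 6 = 2) (h : P.bx (P.arr bi bj) i (j + P.K - i - 1) = false) :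
    RC P (bi * P.K + i) (bj * P.K + j) := by
  have hK : P.K = 6 * P.QQ := rfl
  have hva := va_all hP (P.arr bi bj) (i / 6) (by omega)
  have h0 : ¬ (i % 6 = 0) := by omega
  have h1 : ¬ (i % 6 = 1) := by omega
  have hbx := h
  unfold Par.bx at hbx
  rw [if_neg h0, if_neg h1, if_pos hr] at hbx
  have hw2 := rc_w2 (bi := bi) (bj := bj) hP hf hi hj hr
  have hrun := rc_run (bi := bi) (bj := bj) hP hf hi hj hr
  have hg1 := rc_gate1 (bi := bi) (bj := bj) hP hf hi hj hr
  have hg2 := rc_gate2 (bi := bi) (bj := bj) hP hf hi hj hr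
  have hg3 := rc_gate3 (bi := bi) (bj := bj) hP hf hi hj hr
  have hg4 := rc_gate4 (bi := bi) (bj := bj) hP hf hi hj hr
  have t1 := hva.ok.t1
  have t2 := hva.ok.t2
  generalize P.ev (P.arr bi bj) (i / 6) = e at *
  have hw2' := fun hk => hw2 hk h
  clear hw2 h
  generalize j + P.K - i - 1 = x at *
  have gate := rca_gate hg1 hg2 hg3 hg4
  clear hg1 hg2 hg3 hg4
  have t1' : e.t = 1 → e.x + 2 ≤ e.y := fun h => (t1 h).2.1
  clear t1 t2 hva h0 h1 hr
  rcases rca_sym e (x / 3) with hs | ⟨hs, h3, h4⟩ | ⟨hs, ⟨h3, h4, h5⟩ | ⟨h3, h4, h5, h6⟩⟩ |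
    ⟨hs, ⟨h3, h4⟩ | ⟨h3, h4, h5, h6⟩⟩
  · rw [hs, if_pos rfl] at hbx
    by_cases hk : x % 3 = 0
    · exact hw2' hk (by omega)
    · rw [if_neg hk] at hbx
      exact absurd hbx (by simp)
  · rw [hs, if_neg (by omega), if_pos rfl] at hbx
    by_cases hk : x % 3 = 0
    · exact hw2' hk (by omega)
    · rw [if_neg hk, decide_eq_false_iff_not] at hbx
      have h5 := t1' h3
      exact hrun h3 (by omega) (by omega)
  · exact hrun h3 (by omega) (by omega)
  · exact gate h3 h4 h5 (by omega)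
  · rw [hs, if_neg (by omega), if_neg (by omega), if_neg (by omega),
      decide_eq_false_iff_not] at hbx
    have h5 := t1' h3
    exact hrun h3 (by omega) (by omega)
  · rw [hs, if_neg (by omega), if_neg (by omega), if_neg (by omega),
      decide_eq_false_iff_not] at hbx
    exact gate h3 h4 h5 (by omega)

private theorem rca_phase1 (hP : P.Ok) (hf : AllFin P) {i j bi bj : ℕ} (hi : i < P.K)
    (hj : j < P.K) (hr : i % 6 = 1) (h : P.bx (P.arr bi bj) i (j + P.K - i - 1) = false) :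
    RC P (bi * P.K + i) (bj * P.K + j) := by
  have h0 : ¬ (i % 6 = 0) := by omega
  have hbx := h
  unfold Par.bx at hbx
  rw [if_neg h0, if_pos hr] at hbx
  have hk : (j + P.K - i - 1) % 3 = 0 := by
    by_contra hne
    rw [decide_eq_false hne] at hbx
    exact absurd hbx (by simp)
  rcases Nat.lt_or_ge (j + 1) P.K with hj1 | hj1
  · by_cases hc : P.cl (P.arr bi bj) (i / 6) ((j + P.K - i - 1) / 3) = true
    · exact rc_w1 hP hf hi hj hr hk hj1 hc
    · rw [Bool.not_eq_true] at hc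
      have hj1a := rc_j1 (bi := bi) (bj := bj) hP hf hi hj hr hk hj1 hc
      have hj1b := rc_j1run (bi := bi) (bj := bj) hP hf hi hj hr hk hj1
      have hj1c := rc_j1gate (bi := bi) (bj := bj) hP hf hi hj hr hk hj1 hc
      have hj1d := rc_pillar (bi := bi) (bj := bj) hP hf hi hj hr
      generalize P.ev (P.arr bi bj) (i / 6) = e at *
      generalize j + P.K - i - 1 = x at *
      by_cases ht1 : e.t = 1
      · by_cases h1 : x / 3 ≤ e.x ∨ e.y + 1 < x / 3
        · exact hj1a (fun _ => h1) (fun h2 => by omega)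
        · exact hj1b ht1 (by omega) (by omega)
      · by_cases ht2 : e.t = 2 ∨ e.t = 3
        · by_cases hp : x / 3 = trig e + 1
          · exact hj1d ht2 (by omega)
          · by_cases h1 : x / 3 < e.x ∨ last e + 1 < x / 3
            · exact hj1a (fun h2 => absurd h2 ht1) (fun _ => h1)
            · exact hj1c ht2 (by omega) (by omega) hp
        · exact hj1a (fun h2 => absurd h2 ht1) (fun h2 => absurd h2 ht2)
  · exact rc_border hP hf hi hj hr (by omega)

private theorem rca_phase0 (hP : P.Ok) (hf : AllFin P) {i j bi bj : ℕ} (hi : i < P.K)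
    (hj : j < P.K) (hr : i % 6 = 0) (h : P.bx (P.arr bi bj) i (j + P.K - i - 1) = false) :
    RC P (bi * P.K + i) (bj * P.K + j) := by
  by_cases hz : P.zrow (P.arr bi bj) (i / 6) = true
  · exact rc_zrow hP hf hi hj hr hz
  · rw [Bool.not_eq_true] at hz
    by_cases hZ : (P.arr bi bj) = true ∧ i = 0 ∧ P.K ≤ (j + P.K - i - 1) ∧
        (j + P.K - i - 1) ≤ P.K + 41
    · obtain ⟨hb, hi0, h1, h2⟩ := hZ
      exact rc_zz hP hf hi hj hi0 hb (by omega) (by omega)
    · exact rc_w0 hP hf hi hj hr h hz hZ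

private theorem rca_adj_even (i j : ℕ) (c : ℕ × ℕ) (h : Adj c (i, j)) :
    ∃ k : Fin 8, k.val % 2 = 0 ∧ nbr i j k = some c := by
  obtain ⟨a, b⟩ := c
  unfold Adj at h
  simp only at h
  rcases h with ⟨h, h' | h'⟩ | ⟨h, h' | h'⟩
  · exact ⟨2, rfl, by simp only [nbr]; rw [h, h']; rfl⟩
  · refine ⟨6, rfl, ?_⟩
    show (if 1 ≤ j then some (i, j - 1) else none) = some (a, b)
    rw [if_pos (by omega), h, h']
    rfl
  · exact ⟨4, rfl, by simp only [nbr]; rw [h, h']; rfl⟩
  · refine ⟨0, rfl, ?_⟩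
    show (if 1 ≤ i then some (i - 1, j) else none) = some (a, b)
    rw [if_pos (by omega), h, h']
    rfl

theorem rc_all (hP : P.Ok) (hf : AllFin P) (I J : ℕ) (h : P.arr I J = false) : RC P I J := by
  have hK := K_pos hP
  have hKp : 0 < P.K := by omega
  have hi := Nat.mod_lt I hKp
  have hj := Nat.mod_lt J hKp
  have eI : I / P.K * P.K + I % P.K = I := Nat.div_add_mod' I P.K
  have eJ : J / P.K * P.K + J % P.K = J := Nat.div_add_mod' J P.K
  have key : ∀ i j bi bj : ℕ, i < P.K → j < P.K → P.arr (bi * P.K + i) (bj * P.K + j) = false →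
      RC P (bi * P.K + i) (bj * P.K + j) := by
    intro i j bi bj hi hj h
    rw [arr_loc hP bi bj hi hj] at h
    have hr : i % 6 = 0 ∨ i % 6 = 1 ∨ i % 6 = 2 ∨ i % 6 = 3 ∨ i % 6 = 4 ∨ i % 6 = 5 := by omega
    rcases hr with hr | hr | hr | hr | hr | hr
    · exact rca_phase0 hP hf hi hj hr h
    · exact rca_phase1 hP hf hi hj hr h
    · exact rca_phase2 hP hf hi hj hr h
    · exact rc_w3 hP hf hi hj hr h
    · exact rc_w4 hP hf hi hj hr h
    · exact rc_w5 hP hf hi hj hr h
  have := key (I % P.K) (J % P.K) (I / P.K) (J / P.K) hi hj (by rw [eI, eJ]; exact h)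
  rwa [eI, eJ] at this

theorem conn_of_fin (hP : P.Ok) (hf : AllFin P) : RectConn P.arr := by
  have hzero : ∀ v : ℕ × ℕ, 0 < P.rk v → P.arr v.1 v.2 = false := by
    intro v hv
    by_contra hne
    rw [Bool.not_eq_false] at hne
    have : P.rk (v.1, v.2) = 0 := rk_one hne
    rw [Prod.mk.eta] at this
    omega
  refine peel P.arr P.rk ?_ ?_ ?_ ?_
  · intro v
    constructor
    · intro hv
      exact rk_one hv
    · intro hv
      by_contra hne
      rw [Bool.not_eq_true] at hne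
      have : 0 < P.rk (v.1, v.2) := rk_pos hP hne
      rw [Prod.mk.eta] at this
      omega
  · intro u v huv he
    by_contra hne
    have hv : 0 < P.rk v := by omega
    obtain ⟨st, -, hst, hst0, hst2⟩ := rc_all hP hf v.1 v.2 (hzero v hv)
    obtain ⟨k, hk, hku⟩ := rca_adj_even v.1 v.2 u huv
    have h1 := hst k hk
    have h4 : ∀ x : Fin 3, x ≠ 1 → x = 0 ∨ x = 2 := by decide
    rcases h4 _ h1 with h5 | h5
    · obtain ⟨c, hc, hlt⟩ := hst0 k h5
      rw [hku, Option.some.injEq] at hc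
      subst hc
      rw [Prod.mk.eta] at hlt
      omega
    · have hlt := hst2 k u h5 hku
      rw [Prod.mk.eta] at hlt
      omega
  · intro v hv
    obtain ⟨st, hc, -, hst0, hst2⟩ := rc_all hP hf v.1 v.2 (hzero v hv)
    exact (ring_sound P.rk v.1 v.2 st hc hst0 (fun k c hk hn => (hst2 k c hk hn).le)).1
  · intro v u u' hv hu hu' hlt hlt'
    obtain ⟨st, hc, -, hst0, hst2⟩ := rc_all hP hf v.1 v.2 (hzero v hv)
    exact (ring_sound P.rk v.1 v.2 st hc hst0 (fun k c hk hn => (hst2 k c hk hn).le)).2 u u' hu hu'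
      hlt hlt'

end Pool.Agent.MP_fadef1_lc
end
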